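import Pool.Agent.Lib.MP_f2e65a_lc.AArc

/-! # AArcH: arcs and labels (job AArcH: all)

Every `x : Fin (l + 1)` is `p` or `p.succAbove u` (`Fin.eq_self_or_eq_succAbove`).
* `arc_hom`, left: `x = p`: `α' p = q`, `prj_arc`.  `x = p.succAbove u`: `α' x = q.succAbove (α u)`, and `prj (p.succAbove u) (q.succAbove (α u)) = mk (up p q (gE u (α u)))` (`FreeAlgebra.lift_ι_apply`, `Gen.up`), so `prj .. * arc p q w = prj p q * mk (up p q (gE u (α u) * w)) = arc p q (gE u (α u) * w)` (`arc_eq`, `prj_prj`, `map_mul`), which is `arc p q w` by `arc_congr`: `mk (gE u (α u) * w) = prj u (α u) * mk w = mk w` (`h`).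
 Right: `arc_prj`; `arc p q w * prj (p.succAbove u) (q.succAbove (β u)) = arc p q (w * gE u (β u))`, `arc_congr`.
* `arc_ne`: if `mk w = 0 = mk 0` then `arc p q w = arc p q 0 = 0` (`arc_congr`, `arc_eq`, `map_zero`, `mul_zero`). -/

set_option autoImplicit false
set_option linter.unusedVariables false
set_option linter.unusedSectionVars false

namespace Pool.Agent.Lib.MP_f2e65a_lc.Alg

variable {k : Type} [Field k] {l : ℕ} {p q : Fin (l + 1)}

theorem arc_hom {α β : Equiv.Perm (Fin l)} {α' β' : Equiv.Perm (Fin (l + 1))}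
    (hα : ArcLab p q α α') (hβ : ArcLab p q β β') {w : FreeAlgebra k (Gen l)}
    (h : IsHom α β (mk w : Cob k l)) : IsHom α' β' (arc p q w) := by
  have harc : ∀ u v : Fin l, (prj (p.succAbove u) (q.succAbove v) * arc p q w : Cob k (l + 1)) =
      arc p q (gE u v * w) := by
    intro u v
    have h1 : (mk (up p q (gE u v)) : Cob k (l + 1)) = prj (p.succAbove u) (q.succAbove v) := by
      have h2 : up p q (gE (k := k) u v) = gE (p.succAbove u) (q.succAbove v) :=
        FreeAlgebra.lift_ι_apply _ _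
      rw [h2]
      rfl
    rw [arc_eq, arc_eq, map_mul, map_mul, h1, ← mul_assoc, ← mul_assoc, prj_prj]
  have harc' : ∀ u v : Fin l, (arc p q w * prj (p.succAbove u) (q.succAbove v) : Cob k (l + 1)) =
      arc p q (w * gE u v) := by
    intro u v
    have h1 : (mk (up p q (gE u v)) : Cob k (l + 1)) = prj (p.succAbove u) (q.succAbove v) := by
      have h2 : up p q (gE (k := k) u v) = gE (p.succAbove u) (q.succAbove v) :=
        FreeAlgebra.lift_ι_apply _ _
      rw [h2]
      rfl
    rw [arc_eq, arc_eq, map_mul, map_mul, h1, mul_assoc]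
  intro x
  rcases Fin.eq_self_or_eq_succAbove p x with hx | ⟨u, hx⟩
  · subst hx
    rw [hα.1, hβ.1]
    exact ⟨prj_arc w, arc_prj w⟩
  · rw [hx, hα.2 u, hβ.2 u, harc, harc']
    refine ⟨arc_congr ?_, arc_congr ?_⟩
    · rw [map_mul]
      exact (h u).1
    · rw [map_mul]
      exact (h u).2

theorem arc_ne {w : FreeAlgebra k (Gen l)} (h : arc p q w ≠ 0) : (mk w : Cob k l) ≠ 0 := by
  intro h0
  apply h
  have h1 : (mk w : Cob k l) = mk 0 := by rw [h0, map_zero]
  rw [arc_congr (p := p) (q := q) h1, arc_eq, map_zero, map_zero, mul_zero]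

end Pool.Agent.Lib.MP_f2e65a_lc.Alg
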