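import Pool.Agent.Lib.MP_f2e65a_lc.AFr
import Pool.Agent.Lib.MP_f2e65a_lc.AArcH

/-! # AAdd: adding a strand (job AAdd: both theorems)

`addF k l = cupF finSuccEquivLast.symm finSuccEquivLast.symm`, `finSuccEquivLast = finSuccEquiv' (Fin.last l)` (`rfl`), so `cup_act` with `p = q = Fin.last l` applies to `(addF k l).obj N`.
* `add_glue`: `obtain ⟨e, w, hw, hl, hd⟩ := h`.  `iso`: `iso_of_gens s' ((addF k l).cx (T s).tot) b` with `b i = cgen (T s).tot.A ((T s).gen (e i))`: free by `isFree_reindex e` of `isFree_relabel finSuccEquivLast.symm.symm finSuccEquivLast.symm.symm (cup_free (T s).gen_free)` (see `exists_add` in XAdd.lean; the labels are `addLab (s.lab (e i)) = s'.lab i` by `arcLab_add`: `isFree_congr`).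
 Differential: `((addF k l).map D).1 (cgen A n) = cgen A (D.1 n)` (`cup_map_gen`), `D.1 (gen (e i)) = ∑ j, rho (s.d (e i) j) (gen j)` (`tot_d`), `cgen` is linear (`map_sum`), `cgen (rho (mk (w (e i) j)) (gen j)) = rho _ (arc _ _ (w (e i) j)) (cgen (gen j))` (`cup_act`), reindex by `e` (`Equiv.sum_comp e`), `hd`.
 `gens`: `⟨e, fun i => ..⟩` with `hl (e.symm i)`, `arcLab_add`.
* `exists_addA`: choose `w` with `mk (w i j) = s.d i j` (`mk_surj`).  The complex with `N = s.N`, `lab i = addLab (s.lab i)`, `deg = s.deg`, `d i j = arc _ _ (w i j)`: `hom`: `arc_hom` (`arcLab_add`); `d_deg`: `arc_ne`, `s.d_deg`; `d_d`: `arc_mul`, `arc_sum`, and `arc_congr` with `mk (∑ m, w i m * w m j) = ∑ m, s.d i m * s.d m j = 0 = mk 0`, `arc _ _ 0 = 0`.  `e = Equiv.refl _`. -/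

set_option autoImplicit false
set_option linter.unusedVariables false
set_option linter.unusedSectionVars false

namespace Pool.Agent.Lib.MP_f2e65a_lc.Alg

variable {k : Type} [Field k] {l : ℕ}

theorem add_glue {s : ASt k l} {s' : ASt k (l + 1)} (h : Add s s') : GlueAdd (T s) (T s') := by
  obtain ⟨e, w, hw, hl, hd⟩ := h
  have h1 : IsFree (fun i => addLab (s.lab i)) ((addF k l).obj (T s).tot.A)
      (fun i => cgen (T s).tot.A ((T s).gen i)) :=
    isFree_relabel (finSuccEquivLast (n := l)).symm.symm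
      (finSuccEquivLast (n := l)).symm.symm (cup_free (T s).gen_free)
  have h2 : IsFree s'.lab ((addF k l).obj (T s).tot.A)
      (fun i => cgen (T s).tot.A ((T s).gen (e i))) :=
    isFree_congr (isFree_reindex e h1) (fun i => ((arcLab_add _ _).1 (hl i).1).symm)
      (fun i => rfl)
  refine ⟨iso_of_gens s' ((addF k l).cx (T s).tot) _ h2 fun i => ?_, ⟨e, fun i => ?_⟩⟩
  · have h3 : ((addF k l).map (T s).tot.d).1 (cgen (T s).tot.A ((T s).gen (e i))) =
        cgen (T s).tot.A ((T s).tot.d.1 ((T s).gen (e i))) :=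
      cup_map_gen (T s).tot.d ((T s).gen (e i))
    refine h3.trans ?_
    rw [tot_d, map_sum]
    have h4 : ∀ j : Fin s.N, cgen (T s).tot.A
        (rho (T s).tot.A (s.d (e i) j) ((T s).gen j)) =
        rho ((addF k l).obj (T s).tot.A) (arc (Fin.last l) (Fin.last l) (w (e i) j))
          (cgen (T s).tot.A ((T s).gen j)) := by
      intro j
      rw [← hw (e i) j]
      exact (cup_act (p := Fin.last l) (q := Fin.last l) (T s).tot.A (w (e i) j)
        ((T s).gen j)).symm
    refine (Finset.sum_congr rfl fun j _ => h4 j).trans ?_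
    refine (Equiv.sum_comp e (fun j => rho ((addF k l).obj (T s).tot.A)
      (arc (Fin.last l) (Fin.last l) (w (e i) j)) (cgen (T s).tot.A ((T s).gen j)))).symm.trans ?_
    refine Finset.sum_congr rfl fun j _ => ?_
    rw [hd i j]
    rfl
  · obtain ⟨h3, h4⟩ := hl (e.symm i)
    rw [e.apply_symm_apply] at h3 h4
    exact ⟨(arcLab_add _ _).1 h3, h4⟩

theorem exists_addA (s : ASt k l) : ∃ s' : ASt k (l + 1), Add s s' := by
  choose w hw using fun i j => mk_surj (s.d i j)
  have hlab : ∀ i, ArcLab (Fin.last l) (Fin.last l) (s.lab i) (addLab (s.lab i)) :=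
    fun i => (arcLab_add _ _).2 rfl
  refine ⟨⟨s.N, fun i => addLab (s.lab i), s.deg,
    fun i j => arc (Fin.last l) (Fin.last l) (w i j), ?_, ?_, ?_⟩,
    Equiv.refl _, w, hw, fun i => ⟨hlab i, rfl⟩, fun i j => rfl⟩
  · intro i j
    refine arc_hom (hlab i) (hlab j) ?_
    rw [hw]
    exact s.hom i j
  · intro i j h
    have h1 := arc_ne h
    rw [hw] at h1
    exact s.d_deg i j h1
  · intro i j
    have h1 : ∀ m, arc (Fin.last l) (Fin.last l) (w i m) * arc (Fin.last l) (Fin.last l) (w m j) =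
        arc (Fin.last l) (Fin.last l) (w i m * w m j) := fun m => arc_mul _ _
    rw [Finset.sum_congr rfl fun m _ => h1 m, ← arc_sum]
    have h2 : (mk (∑ m, w i m * w m j) : Cob k l) = mk 0 := by
      rw [map_sum, map_zero]
      simp only [map_mul, hw]
      exact s.d_d i j
    rw [arc_congr h2, arc_eq, map_zero, map_zero, mul_zero]

end Pool.Agent.Lib.MP_f2e65a_lc.Alg
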