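import Pool.Agent.Lib.MP_f2e65a_lc.AIdm

/-! # AArc: cobordisms with a new arc (job AArc: all)

`up p q w = FreeAlgebra.lift k (fun g => FreeAlgebra.ι k (g.up p q)) w`, so `arc p q w = prj p q * mk (up p q w)` by definition (`rfl`).  `e = (finSuccEquiv' p).symm`, `f = (finSuccEquiv' q).symm : Option (Fin l) ≃ Fin (l + 1)`: `e none = p` (`finSuccEquiv'_symm_none`), `e (some t) = p.succAbove t` (`finSuccEquiv'_symm_some`).
* `up_prj`: `mk (up p q w) * prj p q = prj p q * mk (up p q w)`: `FreeAlgebra.induction` on `w`: scalars commute (`Algebra.commutes`); `dot (p.succAbove t)`: `dot_prj`; `sad (p.succAbove t) (p.succAbove s)`: `sad_prj'` (`p ≠ p.succAbove _`: `Fin.ne_succAbove`); `prj`: `prj_prj`.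
* `prj_arc`, `arc_prj`: `prj_idem`, `up_prj`.  `arc_mul`: `prj * W * (prj * W') = prj * prj * W * W'`.  `arc_add'`, `arc_neg'`, `arc_sum`: `map_add`, `mul_add`, ….
* `arc_act`: first `u (rho N (mk w) n) = rho B (mk (up p q w)) (u n)` for all `n` by `FreeAlgebra.induction` on `w` (scalars: `AlgHom.commutes`, `map_smul`; generators: `rho_dot`, `rho_sad` (the case `t = s`: both sides are `0`: `rho_sad_self`), `rho_prj`; product: `rho_mul`; sum: `rho_add`).  Then `rho B (arc p q w) (u n) = B.E p q (u (rho N (mk w) n)) = u (rho N (mk w) n)` (`rho_mul`, `rho_prj`, `h0`).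
* `cap_act`: `arc_act` with `N = (capF e f).obj B`, `u = capι ((relabel e f).obj B)`: `capι_E_none`, `capι_x`, `capι_S`, `capι_E` (`((relabel e f).obj B).x (some t) = B.x (e (some t))` is definitional, `e (some t) = p.succAbove t`).
* `arc_congr`: `B = reg k (l + 1)`, `z = capMk _ (prj p q) h` (`prj_idem`): `cap_act` gives `capι (rho _ (mk w) z) = rho (reg ..) (arc p q w) (prj p q) = arc p q w * prj p q = arc p q w` (`rho_reg`, `arc_prj`), and the left side depends only on `mk w`.
* `cup_act`: `arc_act` with `B = (cupF e f).obj N = (relabel e.symm f.symm).obj (cupObj N)`, `u = cgen N`: `B.x p' = (cupObj N).x (e.symm p')` (definitional), `e.symm (p.succAbove t) = some t` (`finSuccEquiv'_succAbove`), `e.symm p = none` (`finSuccEquiv'_at`).  `cupE N none none (cgen N n) = cgen N n`, `cupx N (some t) (cgen N n) = cgen N (N.x t n)`, `cupS`, `cupE` similarly: compare coordinates (`CupM.ext`, `cupx_some_v`, `cupx_some`, …; `(cgen N n).1 = 0`, `(cgen N n).2 none = n`, `(cgen N n).2 (some r) = 0`; see the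 proofs in XCup.lean, FreeB.lean, CupAdj.lean).
* `uin_act`: `arc_act` with `N = (capF e f).obj B`, the module `uobj B p q` and `u = uin B p q p ∘ₗ capι _`, at `n = capMk _ b hb`; then `capι (rho N (mk w) n) = rho B (arc p q w) b` (`cap_act`).  The hypotheses of `arc_act`: `uobj_ext` and `uc_uin_v`, `uc_uin_m`, `uc_x` with `ux_ne_v`, `ux_ne` (`t ≠ p`), `uc_S` with `uS_ne_v`, `uS_ne` (for `t, s ≠ p`: `Equiv.swap t s p = p`), `uc_E` with `uE_pq_*`, `uE_tu_*`; `B.E p q (capι z) = capι z`. -/

set_option autoImplicit false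
set_option linter.unusedVariables false
set_option linter.unusedSectionVars false

namespace Pool.Agent.Lib.MP_f2e65a_lc.Alg

variable {k : Type} [Field k] {l : ℕ}

/-- the words after the insertion of new ends -/
noncomputable def up (p q : Fin (l + 1)) : FreeAlgebra k (Gen l) →ₐ[k] FreeAlgebra k (Gen (l + 1)) :=
  FreeAlgebra.lift k (fun g => FreeAlgebra.ι k (g.up p q))

theorem arc_eq (p q : Fin (l + 1)) (w : FreeAlgebra k (Gen l)) :
    arc p q w = prj p q * mk (up p q w) := rfl

variable {p q : Fin (l + 1)}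

private theorem AArc_up_ι (g : Gen l) :
    up p q (FreeAlgebra.ι k g) = FreeAlgebra.ι k (g.up p q) :=
  FreeAlgebra.lift_ι_apply _ _

theorem up_prj (w : FreeAlgebra k (Gen l)) :
    (mk (up p q w) * prj p q : Cob k (l + 1)) = prj p q * mk (up p q w) := by
  induction w using FreeAlgebra.induction with
  | grade0 c =>
    rw [AlgHom.commutes, AlgHom.commutes]
    exact Algebra.commutes c _
  | grade1 g =>
    rw [AArc_up_ι]
    exact match g with
    | Gen.x t => dot_prj _ _ _
    | Gen.S t s => sad_prj' q (Fin.ne_succAbove p t) (Fin.ne_succAbove p s)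
    | Gen.E t u => prj_prj _ _ _ _
  | mul a b ha hb =>
    rw [map_mul, map_mul, mul_assoc, hb, ← mul_assoc, ha, mul_assoc]
  | add a b ha hb =>
    rw [map_add, map_add, add_mul, ha, hb, mul_add]

theorem prj_arc (w : FreeAlgebra k (Gen l)) : prj p q * arc p q w = arc p q w := by
  rw [arc_eq, ← mul_assoc, prj_idem]

theorem arc_prj (w : FreeAlgebra k (Gen l)) : arc p q w * prj p q = arc p q w := by
  rw [arc_eq, mul_assoc, up_prj, ← mul_assoc, prj_idem]

theorem arc_mul (w w' : FreeAlgebra k (Gen l)) :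
    arc p q w * arc p q w' = arc p q (w * w') := by
  have h1 : arc p q w * arc p q w' = arc p q w * prj p q * mk (up p q w') := by
    rw [arc_eq p q w', mul_assoc]
  rw [h1, arc_prj, arc_eq, arc_eq, map_mul, map_mul, mul_assoc]

theorem arc_sum {J : Type} (s : Finset J) (w : J → FreeAlgebra k (Gen l)) :
    arc p q (∑ j ∈ s, w j) = ∑ j ∈ s, arc p q (w j) := by
  rw [arc_eq, map_sum, map_sum, Finset.mul_sum]
  exact Finset.sum_congr rfl fun j _ => (arc_eq p q (w j)).symm

theorem arc_act {N : BN k (Fin l) (Fin l)} {B : BN k (Fin (l + 1)) (Fin (l + 1))}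
    (u : N.M →ₗ[k] B.M) (h0 : ∀ n, B.E p q (u n) = u n)
    (hx : ∀ t n, u (N.x t n) = B.x (p.succAbove t) (u n))
    (hS : ∀ t s n, t ≠ s → u (N.S t s n) = B.S (p.succAbove t) (p.succAbove s) (u n))
    (hE : ∀ t s n, u (N.E t s n) = B.E (p.succAbove t) (q.succAbove s) (u n))
    (w : FreeAlgebra k (Gen l)) (n : N.M) :
    u (rho N (mk w) n) = rho B (arc p q w) (u n) := by
  have h1 : ∀ n, u (rho N (mk w) n) = rho B (mk (up p q w)) (u n) := by
    induction w using FreeAlgebra.induction with
    | grade0 c =>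
      intro n
      have e1 : rho N (mk (algebraMap k (FreeAlgebra k (Gen l)) c)) n = c • n := by
        rw [AlgHom.commutes, AlgHom.commutes]
        rfl
      have e2 : rho B (mk (up p q (algebraMap k (FreeAlgebra k (Gen l)) c))) (u n) = c • u n := by
        rw [AlgHom.commutes, AlgHom.commutes, AlgHom.commutes]
        rfl
      rw [e1, e2]
      exact map_smul u c n
    | grade1 g =>
      intro n
      rw [AArc_up_ι]
      cases g with
      | x t =>
        refine (congrArg u (rho_dot N t n)).trans ((hx t n).trans ?_)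
        exact (rho_dot B (p.succAbove t) (u n)).symm
      | S t s =>
        by_cases hts : t = s
        · subst hts
          refine (congrArg u (rho_sad_self N t n)).trans ((map_zero u).trans ?_)
          exact (rho_sad_self B (p.succAbove t) (u n)).symm
        · refine (congrArg u (rho_sad N hts n)).trans ((hS t s n hts).trans ?_)
          exact (rho_sad B (fun h => hts (Fin.succAbove_right_injective h)) (u n)).symm
      | E t s =>
        refine (congrArg u (rho_prj N t s n)).trans ((hE t s n).trans ?_)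
        exact (rho_prj B (p.succAbove t) (q.succAbove s) (u n)).symm
    | mul a b ha hb =>
      intro n
      rw [map_mul, rho_mul, ha, hb, map_mul, map_mul, rho_mul]
    | add a b ha hb =>
      intro n
      rw [map_add, rho_add, map_add, ha, hb, map_add, map_add, rho_add]
  rw [arc_eq, rho_mul, rho_prj, ← h1, h0]

theorem cap_act (B : BN k (Fin (l + 1)) (Fin (l + 1))) (w : FreeAlgebra k (Gen l))
    (z : ((capF (finSuccEquiv' p).symm (finSuccEquiv' q).symm).obj B).M) :
    capι ((relabel (finSuccEquiv' p).symm (finSuccEquiv' q).symm).obj B)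
      (rho ((capF (finSuccEquiv' p).symm (finSuccEquiv' q).symm).obj B) (mk w) z) =
      rho B (arc p q w)
        (capι ((relabel (finSuccEquiv' p).symm (finSuccEquiv' q).symm).obj B) z) := by
  exact arc_act (N := (capF (finSuccEquiv' p).symm (finSuccEquiv' q).symm).obj B) (B := B)
    (capι ((relabel (finSuccEquiv' p).symm (finSuccEquiv' q).symm).obj B))
    (fun n => capι_E_none ((relabel (finSuccEquiv' p).symm (finSuccEquiv' q).symm).obj B) n)
    (fun t n => capι_x ((relabel (finSuccEquiv' p).symm (finSuccEquiv' q).symm).obj B) t n)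
    (fun t s n h => capι_S ((relabel (finSuccEquiv' p).symm (finSuccEquiv' q).symm).obj B) t s h n)
    (fun t s n => capι_E ((relabel (finSuccEquiv' p).symm (finSuccEquiv' q).symm).obj B) t s n)
    w z

theorem arc_congr {w w' : FreeAlgebra k (Gen l)} (h : (mk w : Cob k l) = mk w') :
    arc p q w = arc p q w' := by
  have key : ∀ w : FreeAlgebra k (Gen l), (arc p q w : Cob k (l + 1)) =
      capι ((relabel (finSuccEquiv' p).symm (finSuccEquiv' q).symm).obj (reg k (l + 1)))
        (rho ((capF (finSuccEquiv' p).symm (finSuccEquiv' q).symm).obj (reg k (l + 1))) (mk w)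
          (capMk ((relabel (finSuccEquiv' p).symm (finSuccEquiv' q).symm).obj (reg k (l + 1)))
            (prj p q : Cob k (l + 1)) (prj_idem p q))) := by
    intro w
    rw [cap_act]
    refine Eq.trans ?_ (rho_reg (arc p q w) (prj p q)).symm
    exact (arc_prj w).symm
  rw [key w, key w', h]

/-- the generator as a pair -/
private def AArc_cg (N : BN k (Fin l) (Fin l)) (n : N.M) : CupM N := (0, Pi.single none n)

private theorem AArc_cg_v (N : BN k (Fin l) (Fin l)) (n : N.M) : (AArc_cg N n).1 = 0 := rfl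

private theorem AArc_cg_none (N : BN k (Fin l) (Fin l)) (n : N.M) : (AArc_cg N n).2 none = n :=
  Pi.single_eq_same (M := fun _ : Option (Fin l) => N.M) none n

private theorem AArc_cg_some (N : BN k (Fin l) (Fin l)) (n : N.M) (r : Fin l) :
    (AArc_cg N n).2 (some r) = 0 :=
  Pi.single_eq_of_ne (M := fun _ : Option (Fin l) => N.M) (Option.some_ne_none r) n

private theorem AArc_cg_E0 (N : BN k (Fin l) (Fin l)) (n : N.M) :
    cupE N none none (AArc_cg N n) = AArc_cg N n := by
  refine CupM.ext ?_ ?_ fun r => ?_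
  · rw [cupE_nn_v]
  · rw [cupE_nn_none]
  · rw [cupE_nn_some, AArc_cg_some]

private theorem AArc_cg_x (N : BN k (Fin l) (Fin l)) (t : Fin l) (n : N.M) :
    AArc_cg N (N.x t n) = cupx N (some t) (AArc_cg N n) := by
  refine CupM.ext ?_ ?_ fun r => ?_
  · rw [cupx_some_v, AArc_cg_v, AArc_cg_v, map_zero]
  · rw [cupx_some, AArc_cg_none, AArc_cg_none]
  · rw [cupx_some, AArc_cg_some, AArc_cg_some, map_zero]

private theorem AArc_cg_S (N : BN k (Fin l) (Fin l)) (t s : Fin l) (n : N.M) :
    AArc_cg N (N.S t s n) = cupS N (some t) (some s) (AArc_cg N n) := by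
  refine CupM.ext ?_ ?_ fun r => ?_
  · rw [cupS_some_v, AArc_cg_v, AArc_cg_v, map_zero]
  · rw [cupS_some_none, AArc_cg_none, AArc_cg_none]
  · rw [cupS_some_some, AArc_cg_some, AArc_cg_some, map_zero]

private theorem AArc_cg_E (N : BN k (Fin l) (Fin l)) (t s : Fin l) (n : N.M) :
    AArc_cg N (N.E t s n) = cupE N (some t) (some s) (AArc_cg N n) := by
  refine CupM.ext ?_ ?_ fun r => ?_
  · rw [cupE_ss_v, AArc_cg_v, AArc_cg_v, map_zero]
  · rw [cupE_ss_none, AArc_cg_none, AArc_cg_none]
  · by_cases hr : r = t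
    · subst hr
      rw [cupE_ss_self, AArc_cg_some]
    · rw [cupE_ss_ne _ _ _ _ _ hr, AArc_cg_some, AArc_cg_some, map_zero]

theorem cup_act (N : BN k (Fin l) (Fin l)) (w : FreeAlgebra k (Gen l)) (n : N.M) :
    rho ((cupF (finSuccEquiv' p).symm (finSuccEquiv' q).symm).obj N) (arc p q w) (cgen N n) =
      cgen N (rho N (mk w) n) := by
  have hp0 : (finSuccEquiv' p).symm.symm p = none := finSuccEquiv'_at p
  have hq0 : (finSuccEquiv' q).symm.symm q = none := finSuccEquiv'_at q
  have hp : ∀ t, (finSuccEquiv' p).symm.symm (p.succAbove t) = some t :=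
    finSuccEquiv'_succAbove p
  have hq : ∀ t, (finSuccEquiv' q).symm.symm (q.succAbove t) = some t :=
    finSuccEquiv'_succAbove q
  refine (arc_act (N := N) (B := (cupF (finSuccEquiv' p).symm (finSuccEquiv' q).symm).obj N)
    (cgen N) ?_ ?_ ?_ ?_ w n).symm
  · intro n
    change cupE N ((finSuccEquiv' p).symm.symm p) ((finSuccEquiv' q).symm.symm q)
      (AArc_cg N n) = AArc_cg N n
    rw [hp0, hq0]
    exact AArc_cg_E0 N n
  · intro t n
    change AArc_cg N (N.x t n) =
      cupx N ((finSuccEquiv' p).symm.symm (p.succAbove t)) (AArc_cg N n)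
    rw [hp]
    exact AArc_cg_x N t n
  · intro t s n h
    change AArc_cg N (N.S t s n) =
      cupS N ((finSuccEquiv' p).symm.symm (p.succAbove t))
        ((finSuccEquiv' p).symm.symm (p.succAbove s)) (AArc_cg N n)
    rw [hp, hp]
    exact AArc_cg_S N t s n
  · intro t s n
    change AArc_cg N (N.E t s n) =
      cupE N ((finSuccEquiv' p).symm.symm (p.succAbove t))
        ((finSuccEquiv' q).symm.symm (q.succAbove s)) (AArc_cg N n)
    rw [hp, hq]
    exact AArc_cg_E N t s n

private theorem AArc_uin_E0 (B : BN k (Fin (l + 1)) (Fin (l + 1))) (p q : Fin (l + 1))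
    (b : B.M) : (uobj B p q).E p q (uin B p q p b) = uin B p q p b := by
  refine uobj_ext ?_ fun τ => ?_
  · rw [uc_E, uE_pq_v]
  · rw [uc_E]
    by_cases h : τ = p
    · rw [h, uE_pq_p]
    · rw [uE_pq_ne B _ h, uc_uin_m, if_neg h]

private theorem AArc_uin_x (B : BN k (Fin (l + 1)) (Fin (l + 1))) {p : Fin (l + 1)}
    (q : Fin (l + 1)) {t : Fin (l + 1)} (ht : t ≠ p) (b : B.M) :
    uin B p q p (B.x t b) = (uobj B p q).x t (uin B p q p b) := by
  refine uobj_ext ?_ fun τ => ?_
  · rw [uc_x, ux_ne_v B _ ht, uc_uin_v, uc_uin_v, map_zero]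
  · rw [uc_x, ux_ne B _ ht, uc_uin_m, uc_uin_m]
    by_cases h : τ = p
    · rw [if_pos h, if_pos h, B.x_E]
    · rw [if_neg h, if_neg h, map_zero]

private theorem AArc_uin_S (B : BN k (Fin (l + 1)) (Fin (l + 1))) {p : Fin (l + 1)}
    (q : Fin (l + 1)) {t s : Fin (l + 1)} (ht : t ≠ p) (hs : s ≠ p) (hts : t ≠ s) (b : B.M) :
    uin B p q p (B.S t s b) = (uobj B p q).S t s (uin B p q p b) := by
  refine uobj_ext ?_ fun τ => ?_
  · rw [uc_S, uS_ne_v B _ hts ht hs, uc_uin_v, uc_uin_v, map_zero]
  · rw [uc_S, uS_ne B _ hts ht hs, uc_uin_m, uc_uin_m]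
    by_cases h : τ = p
    · rw [if_pos h, h, Equiv.swap_apply_of_ne_of_ne (Ne.symm ht) (Ne.symm hs), if_pos rfl,
        B.S_E' t s p q b hts (Ne.symm ht) (Ne.symm hs)]
    · have h' : Equiv.swap t s τ ≠ p := by
        intro h2
        apply h
        rw [← Equiv.swap_apply_of_ne_of_ne (Ne.symm ht) (Ne.symm hs)] at h2
        exact (Equiv.swap t s).injective h2
      rw [if_neg h, if_neg h', map_zero]

private theorem AArc_uin_E (B : BN k (Fin (l + 1)) (Fin (l + 1))) {p q : Fin (l + 1)}
    {t s : Fin (l + 1)} (ht : t ≠ p) (hs : s ≠ q) (b : B.M) :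
    uin B p q p (B.E t s b) = (uobj B p q).E t s (uin B p q p b) := by
  refine uobj_ext ?_ fun τ => ?_
  · rw [uc_E, uE_tu_v B _ ht hs, uc_uin_v, uc_uin_v, map_zero]
  · rw [uc_E]
    by_cases h : τ = t
    · subst h
      rw [uE_tu_t B _ ht hs, uc_uin_m, if_neg ht]
    · rw [uE_tu_ne B _ ht hs h, uc_uin_m, uc_uin_m]
      by_cases h' : τ = p
      · rw [if_pos h', if_pos h', B.E_E]
      · rw [if_neg h', if_neg h', map_zero]

theorem uin_act (B : BN k (Fin (l + 1)) (Fin (l + 1))) (w : FreeAlgebra k (Gen l)) (b : B.M)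
    (hb : B.E p q b = b) :
    rho (uobj B p q) (arc p q w) (uin B p q p b) = uin B p q p (rho B (arc p q w) b) := by
  have h1 := cap_act (p := p) (q := q) B w
    (capMk ((relabel (finSuccEquiv' p).symm (finSuccEquiv' q).symm).obj B) b hb)
  have h2 := arc_act (p := p) (q := q)
    (N := (capF (finSuccEquiv' p).symm (finSuccEquiv' q).symm).obj B) (B := uobj B p q)
    (uin B p q p ∘ₗ capι ((relabel (finSuccEquiv' p).symm (finSuccEquiv' q).symm).obj B))
    ?_ ?_ ?_ ?_ w (capMk ((relabel (finSuccEquiv' p).symm (finSuccEquiv' q).symm).obj B) b hb)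
  · refine Eq.trans ?_ (h2.symm.trans ?_)
    · rfl
    · exact congrArg (fun z => uin B p q p z) h1
  · intro n
    exact AArc_uin_E0 B p q _
  · intro t n
    refine (congrArg (fun z => uin B p q p z)
      (capι_x ((relabel (finSuccEquiv' p).symm (finSuccEquiv' q).symm).obj B) t n)).trans ?_
    exact AArc_uin_x B q (Fin.succAbove_ne p t) _
  · intro t s n h
    refine (congrArg (fun z => uin B p q p z)
      (capι_S ((relabel (finSuccEquiv' p).symm (finSuccEquiv' q).symm).obj B) t s h n)).trans ?_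
    exact AArc_uin_S B q (Fin.succAbove_ne p t) (Fin.succAbove_ne p s)
      (fun h' => h (Fin.succAbove_right_injective h')) _
  · intro t s n
    refine (congrArg (fun z => uin B p q p z)
      (capι_E ((relabel (finSuccEquiv' p).symm (finSuccEquiv' q).symm).obj B) t s n)).trans ?_
    exact AArc_uin_E B (Fin.succAbove_ne p t) (Fin.succAbove_ne q s) _

end Pool.Agent.Lib.MP_f2e65a_lc.Alg
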