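import Pool.Agent.Lib.MP_f2e65a_lc.AFr

/-! # ACapA: the generators of a cap (job ACapA: all theorems)

`capGen p q α c` is `idm α`, `dot p * idm α` (if `α p = q`) or `sad p (α.symm q) * idm α` (if `α p ≠ q`).
* `capGen_idm`: `idm_idm`, `mul_assoc`.  `capGen_prj`: `α p = q`: `prj p q * idm α = idm α` (`prj_idm`), `prj p q * dot p = dot p * prj p q` (`dot_prj`).  `α p ≠ q`, `r = α.symm q ≠ p`, `α r = q`: `prj p q * sad p r = prj p q * sad r p = sad r p * prj r q` (`sad_symm`, `sad_prj r p q`), `prj r q * idm α = idm α`.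
* `rho_capGen_zero`, …: unfold `capGen`, `rho_mul`, `rho_dot`, `rho_sad`, `rho_idm`.
* `capι_kg`: `capι_P`: `capι (capP m) = E none none m = A.E p q m` (`(finSuccEquiv' p).symm none = p`), `= rho A (prj p q * capGen ..) (g ..)` (`rho_prj`, `rho_mul`), `capGen_prj`.
* `kg_free`: `e = (finSuccEquiv' p).symm`, `f = (finSuccEquiv' q).symm`, `lab₁ i = e.trans ((lab i).trans f.symm)`; `cap_free (isFree_relabel e f h)` has the generators `kgen lab₁ ((relabel e f).obj A) g j`, `j : Σ i, Fin (if lab₁ i none = none then 2 else 1)`, and the labels `Equiv.removeNone (lab₁ j.1)`.  `lab₁ i none = none ↔ lab i p = q` (see `clsLab₁_none` in XCls.lean).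
 `ε : (Σ i, Fin (nc p q (lab i))) ≃ (Σ i, Fin (if lab₁ i none = none then 2 else 1))` with `ε j = ⟨j.1, Fin.cast _ j.2⟩` (`Equiv.sigmaCongrRight fun i => finCongr _`); `isFree_reindex ε`, and `isFree_congr` with: labels: `capLab_unique (capLab_remove p q _) (hl j)`; generators: `kgen lab₁ _ g (ε j) = kg p q lab A g j`: both are `capP` of the same element: `kgen` unfolded: `if lab₁ i none = none then (if c = 0 then capP (g i) else capP (x none (g i))) else capP (S none ((lab₁ i).symm none) (g i))`; here `(lab₁ i).symm none = (finSuccEquiv' p) ((lab i).symm q)` and `(relabel e f).obj A).S none r' = A.S (e none) (e r')`, `e (finSuccEquiv' p x) = x`; use `rho_capGen_*`. -/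

set_option autoImplicit false
set_option linter.unusedVariables false
set_option linter.unusedSectionVars false

namespace Pool.Agent.Lib.MP_f2e65a_lc.Alg

variable {k : Type} [Field k] {l : ℕ} {p q : Fin (l + 1)}

theorem capGen_idm (p q : Fin (l + 1)) (α : Equiv.Perm (Fin (l + 1))) (c : ℕ) :
    (capGen p q α c * idm α : Cob k (l + 1)) = capGen p q α c := by
  unfold capGen
  split_ifs
  · exact idm_idm α
  · rw [mul_assoc, idm_idm]
  · rw [mul_assoc, idm_idm]

theorem capGen_prj (p q : Fin (l + 1)) (α : Equiv.Perm (Fin (l + 1))) (c : ℕ) :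
    (prj p q * capGen p q α c : Cob k (l + 1)) = capGen p q α c := by
  unfold capGen
  split_ifs with h1 h2
  · have h := prj_idm (k := k) α p
    rwa [h1] at h
  · rw [← mul_assoc, ← dot_prj, mul_assoc]
    have h := prj_idm (k := k) α p
    rw [h1] at h
    rw [h]
  · have h := prj_idm (k := k) α (α.symm q)
    rw [α.apply_symm_apply] at h
    rw [← mul_assoc, sad_symm, ← sad_prj, mul_assoc, h]

theorem rho_capGen_zero {A : BN k (Fin (l + 1)) (Fin (l + 1))} {α : Equiv.Perm (Fin (l + 1))}
    (h : α p = q) {m : A.M} (hm : m ∈ clo A α) : rho A (capGen p q α 0) m = m := by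
  unfold capGen
  rw [if_pos h, if_pos rfl]
  exact rho_idm hm

theorem rho_capGen_one {A : BN k (Fin (l + 1)) (Fin (l + 1))} {α : Equiv.Perm (Fin (l + 1))}
    (h : α p = q) {c : ℕ} (hc : c ≠ 0) {m : A.M} (hm : m ∈ clo A α) :
    rho A (capGen p q α c) m = A.x p m := by
  unfold capGen
  rw [if_pos h, if_neg hc, rho_mul, rho_idm hm, rho_dot]

theorem rho_capGen_ne {A : BN k (Fin (l + 1)) (Fin (l + 1))} {α : Equiv.Perm (Fin (l + 1))}
    (h : α p ≠ q) (c : ℕ) {m : A.M} (hm : m ∈ clo A α) :
    rho A (capGen p q α c) m = A.S p (α.symm q) m := by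
  unfold capGen
  have h1 : p ≠ α.symm q := by
    intro h2
    apply h
    rw [h2, α.apply_symm_apply]
  rw [if_neg h, rho_mul, rho_idm hm, rho_sad A h1]

/-- the generators of the cap -/
noncomputable def kg (p q : Fin (l + 1)) {I : Type} (lab : I → Equiv.Perm (Fin (l + 1)))
    (A : BN k (Fin (l + 1)) (Fin (l + 1))) (g : I → A.M) (j : Σ i, Fin (nc p q (lab i))) :
    ((capF (finSuccEquiv' p).symm (finSuccEquiv' q).symm).obj A).M :=
  capP ((relabel (finSuccEquiv' p).symm (finSuccEquiv' q).symm).obj A)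
    (rho A (capGen p q (lab j.1) j.2) (g j.1))

theorem capι_kg {I : Type} (lab : I → Equiv.Perm (Fin (l + 1)))
    (A : BN k (Fin (l + 1)) (Fin (l + 1))) (g : I → A.M) (j : Σ i, Fin (nc p q (lab i))) :
    capι ((relabel (finSuccEquiv' p).symm (finSuccEquiv' q).symm).obj A) (kg p q lab A g j) =
      rho A (capGen p q (lab j.1) j.2) (g j.1) := by
  have h1 : capι ((relabel (finSuccEquiv' p).symm (finSuccEquiv' q).symm).obj A)
      (kg p q lab A g j) = A.E ((finSuccEquiv' p).symm none) ((finSuccEquiv' q).symm none)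
      (rho A (capGen p q (lab j.1) j.2) (g j.1)) := rfl
  rw [h1, finSuccEquiv'_symm_none, finSuccEquiv'_symm_none, ← rho_prj, ← rho_mul, capGen_prj]

/-- the labels after the relabelling -/
private def aCapALab (p q : Fin (l + 1)) (α : Equiv.Perm (Fin (l + 1))) :
    Option (Fin l) ≃ Option (Fin l) :=
  (finSuccEquiv' p).symm.trans (α.trans (finSuccEquiv' q).symm.symm)

private theorem aCapALab_none (p q : Fin (l + 1)) (α : Equiv.Perm (Fin (l + 1))) :
    aCapALab p q α none = none ↔ α p = q := by
  have h0 : aCapALab p q α none = finSuccEquiv' q (α p) := by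
    change (finSuccEquiv' q) (α ((finSuccEquiv' p).symm none)) = _
    rw [finSuccEquiv'_symm_none]
  rw [h0]
  constructor
  · intro h
    have h1 : finSuccEquiv' q (α p) = finSuccEquiv' q q := by
      rw [h, finSuccEquiv'_at]
    exact (finSuccEquiv' q).injective h1
  · intro h
    rw [h, finSuccEquiv'_at]

private theorem aCapALab_if (p q : Fin (l + 1)) (α : Equiv.Perm (Fin (l + 1))) :
    (if aCapALab p q α none = none then 2 else 1) = nc p q α := by
  unfold nc
  by_cases h : α p = q
  · rw [if_pos h, if_pos ((aCapALab_none p q α).2 h)]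
  · rw [if_neg h, if_neg (fun h1 => h ((aCapALab_none p q α).1 h1))]

theorem kg_free {I : Type} {lab : I → Equiv.Perm (Fin (l + 1))}
    {A : BN k (Fin (l + 1)) (Fin (l + 1))} {g : I → A.M} (h : IsFree lab A g)
    (lab' : (Σ i, Fin (nc p q (lab i))) → Equiv.Perm (Fin l))
    (hl : ∀ j, CapLab p q (lab j.1) (lab' j)) :
    IsFree lab' ((capF (finSuccEquiv' p).symm (finSuccEquiv' q).symm).obj A)
      (kg p q lab A g) := by
  have hif : ∀ i, nc p q (lab i) = (if aCapALab p q (lab i) none = none then 2 else 1) := fun i =>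
    (aCapALab_if p q (lab i)).symm
  have h1 : IsFree (fun i => aCapALab p q (lab i))
      ((relabel (finSuccEquiv' p).symm (finSuccEquiv' q).symm).obj A) g :=
    isFree_relabel (finSuccEquiv' p).symm (finSuccEquiv' q).symm h
  have h2 := cap_free h1
  let ε : (Σ i, Fin (nc p q (lab i))) ≃
      (Σ i, Fin (if aCapALab p q (lab i) none = none then 2 else 1)) :=
    Equiv.sigmaCongrRight fun i => finCongr (hif i)
  have h3 := isFree_reindex ε h2
  refine isFree_congr h3 (fun j => ?_) (fun j => ?_)
  · exact capLab_unique (capLab_remove p q (lab j.1)) (hl j)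
  · have hm := h.mem j.1
    have e1 : (ε j).1 = j.1 := rfl
    have e2 : ((ε j).2 : ℕ) = (j.2 : ℕ) := rfl
    unfold kgen kg
    by_cases h4 : lab j.1 p = q
    · refine (if_pos ((aCapALab_none p q (lab (ε j).1)).2 h4)).trans ?_
      by_cases h5 : (j.2 : ℕ) = 0
      · refine (if_pos (show ((ε j).2 : ℕ) = 0 from h5)).trans ?_
        refine congrArg _ ?_
        rw [h5, rho_capGen_zero h4 hm]
        rfl
      · refine (if_neg (show ¬ ((ε j).2 : ℕ) = 0 from h5)).trans ?_
        refine congrArg _ ?_
        rw [rho_capGen_one h4 h5 hm]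
        have h6 : ((relabel (finSuccEquiv' p).symm (finSuccEquiv' q).symm).obj A).x none (g j.1) =
            A.x ((finSuccEquiv' p).symm none) (g j.1) := rfl
        refine h6.trans ?_
        rw [finSuccEquiv'_symm_none]
    · rw [if_neg (fun h5 => h4 ((aCapALab_none p q (lab (ε j).1)).1 h5)), rho_capGen_ne h4 _ hm]
      refine congrArg _ ?_
      have h6 : ((relabel (finSuccEquiv' p).symm (finSuccEquiv' q).symm).obj A).S none
          ((aCapALab p q (lab j.1)).symm none) (g j.1) =
          A.S ((finSuccEquiv' p).symm none) ((finSuccEquiv' p).symm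
            ((finSuccEquiv' p) ((lab j.1).symm ((finSuccEquiv' q).symm none)))) (g j.1) := rfl
      refine h6.trans ?_
      rw [finSuccEquiv'_symm_none, finSuccEquiv'_symm_none, Equiv.symm_apply_apply]

end Pool.Agent.Lib.MP_f2e65a_lc.Alg
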