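import Pool.Agent.Lib.MP_f2e65a_lc.ACapA

/-! # ACapB: joining two ends (job ACapB: all theorems)

`A = (T s).tot.A`, `D = (T s).tot.d`, `gen = (T s).gen`, `g i = rho A (capGen p q (s.lab (e i).1) (e i).2) (gen (e i).1)`.
* `cap_eq`: `D (g i) = rho (capGen_i) (D (gen (e i).1))` (`hom_rho`) `= ∑ j, rho (capGen_i * s.d (e i).1 j) (gen j)` (`tot_d`, `map_sum`, `rho_mul`) `= ∑ j, rho (∑ c, arc p q (w i (e.symm ⟨j, c⟩)) * capGen p q (s.lab j) c) (gen j)` (`h.d`) `= ∑ j, ∑ c, rho (arc p q (w i (e.symm ⟨j, c⟩))) (rho (capGen p q (s.lab j) c) (gen j))` (`rho_sum`, `rho_mul`) `= ∑ x : Σ j, Fin _, …` (`Fintype.sum_sigma`) `= ∑ j : Fin t.N, …` (`Equiv.sum_comp e` with `x = e j`, `e.symm (e j) = j`).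
* `cap_iso`: `iso_of_gens t E b`, `E = (capF ..).cx (T s).tot`, `b i = kg p q s.lab A gen (e i)`: free: `isFree_reindex e (kg_free (T s).gen_free lab' _)` with `lab' x = t.lab (e.symm x)` (`h.lab (e.symm x)`, `e.apply_symm_apply`), `isFree_congr`.  Differential: apply the injective `capι` (`capι_injective`): `capι (E.d (b i)) = D (capι (b i)) = D (g i)` (`capι_map`; `E.d = (capF ..).map D`, whose value is computed as in `capι_map`; `capι_kg`),
 `capι (∑ j, rho E.A (t.d i j) (b j)) = ∑ j, rho A (arc p q (w i j)) (g j)` (`map_sum`, `h.rep`, `cap_act`, `capι_kg`); `cap_eq`.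
* `close_glue`: `Close s t` is `∃ e w, Cap 0 0 s t e w`; `clsF k l = capF (finSuccEquiv l).symm (finSuccEquiv l).symm` and `finSuccEquiv l = finSuccEquiv' 0` by definition, so `iso` is `cap_iso`.  `gens`: `⟨e, ..⟩` (`nc 0 0 (s.lab i)` unfolds to `if s.lab i 0 = 0 then 2 else 1`), `capLab_cls`. -/

set_option autoImplicit false
set_option linter.unusedVariables false
set_option linter.unusedSectionVars false

namespace Pool.Agent.Lib.MP_f2e65a_lc.Alg

variable {k : Type} [Field k] {l : ℕ} {p q : Fin (l + 1)} {s : ASt k (l + 1)} {t : ASt k l}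
  {e : Fin t.N ≃ (Σ i : Fin s.N, Fin (nc p q (s.lab i)))}
  {w : Fin t.N → Fin t.N → FreeAlgebra k (Gen l)}

theorem cap_eq (h : Cap p q s t e w) (i : Fin t.N) :
    (T s).tot.d.1 (rho (T s).tot.A (capGen p q (s.lab (e i).1) (e i).2)
      ((T s).gen (e i).1)) =
    ∑ j : Fin t.N, rho (T s).tot.A (arc p q (w i j))
      (rho (T s).tot.A (capGen p q (s.lab (e j).1) (e j).2) ((T s).gen (e j).1)) := by
  have h1 : (T s).tot.d.1 (rho (T s).tot.A (capGen p q (s.lab (e i).1) (e i).2)
      ((T s).gen (e i).1)) = rho (T s).tot.A (capGen p q (s.lab (e i).1) (e i).2)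
      ((T s).tot.d.1 ((T s).gen (e i).1)) := hom_rho _ _ _
  have h2 : ∀ j : Fin s.N, rho (T s).tot.A (capGen p q (s.lab (e i).1) (e i).2)
      (rho (T s).tot.A (s.d (e i).1 j) ((T s).gen j)) =
      ∑ c : Fin (nc p q (s.lab j)), rho (T s).tot.A (arc p q (w i (e.symm ⟨j, c⟩)))
        (rho (T s).tot.A (capGen p q (s.lab j) c) ((T s).gen j)) := by
    intro j
    rw [← rho_mul, ← h.d, rho_sum]
    exact Finset.sum_congr rfl fun c _ => rho_mul _ _ _ _
  rw [h1, tot_d, map_sum]
  refine (Finset.sum_congr rfl fun j _ => h2 j).trans ?_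
  refine (Fintype.sum_sigma (fun x : Σ j : Fin s.N, Fin (nc p q (s.lab j)) =>
    rho (T s).tot.A (arc p q (w i (e.symm x)))
      (rho (T s).tot.A (capGen p q (s.lab x.1) x.2) ((T s).gen x.1)))).symm.trans ?_
  refine (Equiv.sum_comp e _).symm.trans ?_
  refine Finset.sum_congr rfl fun j _ => ?_
  rw [e.symm_apply_apply]

theorem cap_iso (h : Cap p q s t e w) :
    Iso (T t).tot ((capF (finSuccEquiv' p).symm (finSuccEquiv' q).symm).cx (T s).tot) := by
  have hf : IsFree t.lab ((capF (finSuccEquiv' p).symm (finSuccEquiv' q).symm).obj (T s).tot.A)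
      (fun i => kg p q s.lab (T s).tot.A (T s).gen (e i)) := by
    have h1 := kg_free (p := p) (q := q) (T s).gen_free (fun x => t.lab (e.symm x)) (fun j => by
      have h2 := h.lab (e.symm j)
      rwa [e.apply_symm_apply] at h2)
    exact isFree_congr (isFree_reindex e h1) (fun i => congrArg t.lab (e.symm_apply_apply i))
      (fun i => rfl)
  refine iso_of_gens t ((capF (finSuccEquiv' p).symm (finSuccEquiv' q).symm).cx (T s).tot)
    (fun i => kg p q s.lab (T s).tot.A (T s).gen (e i)) hf ?_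
  intro i
  have hk : ∀ j : Fin t.N, capι ((relabel (finSuccEquiv' p).symm (finSuccEquiv' q).symm).obj
      (T s).tot.A) (kg p q s.lab (T s).tot.A (T s).gen (e j)) =
      rho (T s).tot.A (capGen p q (s.lab (e j).1) (e j).2) ((T s).gen (e j).1) := fun j =>
    capι_kg s.lab (T s).tot.A (T s).gen (e j)
  have h3 : capι ((relabel (finSuccEquiv' p).symm (finSuccEquiv' q).symm).obj (T s).tot.A)
      (((capF (finSuccEquiv' p).symm (finSuccEquiv' q).symm).map (T s).tot.d).1
        (kg p q s.lab (T s).tot.A (T s).gen (e i))) =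
      (T s).tot.d.1 (capι ((relabel (finSuccEquiv' p).symm (finSuccEquiv' q).symm).obj
        (T s).tot.A) (kg p q s.lab (T s).tot.A (T s).gen (e i))) := rfl
  have h4 : ∀ j : Fin t.N, capι ((relabel (finSuccEquiv' p).symm (finSuccEquiv' q).symm).obj
      (T s).tot.A) (rho ((capF (finSuccEquiv' p).symm (finSuccEquiv' q).symm).obj (T s).tot.A)
        (t.d i j) (kg p q s.lab (T s).tot.A (T s).gen (e j))) =
      rho (T s).tot.A (arc p q (w i j))
        (rho (T s).tot.A (capGen p q (s.lab (e j).1) (e j).2) ((T s).gen (e j).1)) := by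
    intro j
    rw [← h.rep i j, ← hk j]
    exact cap_act (T s).tot.A (w i j) (kg p q s.lab (T s).tot.A (T s).gen (e j))
  apply capι_injective ((relabel (finSuccEquiv' p).symm (finSuccEquiv' q).symm).obj (T s).tot.A)
  refine (h3.trans ((congrArg (T s).tot.d.1 (hk i)).trans (cap_eq h i))).trans ?_
  refine Eq.trans ?_ (map_sum (capι ((relabel (finSuccEquiv' p).symm
    (finSuccEquiv' q).symm).obj (T s).tot.A)) (fun j : Fin t.N =>
      rho ((capF (finSuccEquiv' p).symm (finSuccEquiv' q).symm).obj (T s).tot.A)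
        (t.d i j) (kg p q s.lab (T s).tot.A (T s).gen (e j))) Finset.univ).symm
  exact Finset.sum_congr rfl fun j _ => (h4 j).symm

theorem close_glue {s : ASt k (l + 1)} {t : ASt k l} (h : Close s t) :
    GlueCls (T s) (T t) := by
  obtain ⟨e, w, h⟩ := h
  refine ⟨cap_iso h, e, fun j => ⟨?_, ?_⟩⟩
  · have h1 := h.lab (e.symm j)
    rw [e.apply_symm_apply] at h1
    exact (capLab_cls _ _).1 h1
  · have h1 := h.deg (e.symm j)
    rw [e.apply_symm_apply] at h1
    exact h1

end Pool.Agent.Lib.MP_f2e65a_lc.Alg
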