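import Pool.Agent.Lib.MP_f2e65a_lc.ACapA

/-! # ACapC: existence of the cap (job ACapC: both theorems)

`A = (T s).tot.A`, `D = (T s).tot.d`, `gen = (T s).gen`, `F = capF (finSuccEquiv' p).symm (finSuccEquiv' q).symm`, `E = F.cx (T s).tot`, `J = Σ i : Fin s.N, Fin (nc p q (s.lab i))`, `N = Fintype.card J`, `e = (Fintype.equivFin J).symm : Fin N ≃ J`, `lab' j = Equiv.removeNone (..(s.lab j.1)..)` as in `capLab_remove`, `b i = kg p q s.lab A gen (e i)`.
* `b` is free with the labels `lab' (e i)`: `isFree_reindex e (kg_free (T s).gen_free lab' (fun j => capLab_remove ..))`.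
* `γ t = F.map (gr s t)`: `capι (γ t (b i)) = gr s t (capι (b i))` (`capι_map`) `= gr s t (rho A (capGen ..) (gen (e i).1)) = rho A (capGen ..) (gr s t (gen ..))` (`capι_kg`, `hom_rho`), `gr_gen`, `map_smul`, `capι_injective`: `hγ` with `deg i = s.deg (e i).1`.  `hcomm`: `F.map_cmp`, `gr_cmp`.
* `exists_mat E (fun i => lab' (e i)) deg b hb γ hγ hcomm` gives `y`; `t = ⟨N, lab' ∘ e, deg, y, .., .., mat_dd ..⟩`; choose `w` with `mk (w i j) = y i j` (`mk_surj`).
* `Cap.d`: fix `i`, let `z j = ∑ c, arc p q (w i (e.symm ⟨j, c⟩)) * capGen p q (s.lab j) c - capGen p q (s.lab (e i).1) (e i).2 * s.d (e i).1 j`; `z j * idm (s.lab j) = z j` (`sub_mul`, `Finset.sum_mul`, `mul_assoc`, `capGen_idm`, `isHom_iff`, `s.hom`).  `∑ j, rho A (z j) (gen j) = 0`: the second part gives `rho A (capGen_i) (D (gen (e i).1)) = D (rho A (capGen_i) (gen ..)) = D (capι (b i)) = capι (E.d (b i))` (`tot_d`, `hom_rho`, `capι_kg`);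
 the first part is `∑ x : J, rho A (arc p q (w i (e.symm x))) (rho A (capGen p q (s.lab x.1) x.2) (gen x.1)) = ∑ j : Fin N, rho A (arc p q (w i j)) (capι (b j)) = capι (∑ j, rho E.A (y i j) (b j))` (`Fintype.sum_sigma`, `Equiv.sum_comp e`, `cap_act`).  `coef_unique (T s).gen_free` gives `z j = 0`.
* `exists_close`: `exists_cap 0 0 s`. -/

set_option autoImplicit false
set_option linter.unusedVariables false
set_option linter.unusedSectionVars false

namespace Pool.Agent.Lib.MP_f2e65a_lc.Alg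

variable {k : Type} [Field k] {l : ℕ}

/-- joining the ends `p`, `q` -/
private noncomputable abbrev acapcF (k : Type) [Field k] {l : ℕ} (p q : Fin (l + 1)) :
    Fct k (Fin (l + 1)) (Fin (l + 1)) (Fin l) (Fin l) :=
  capF (finSuccEquiv' p).symm (finSuccEquiv' q).symm

/-- the inclusion -/
private noncomputable def acapcι (p q : Fin (l + 1)) (B : BN k (Fin (l + 1)) (Fin (l + 1))) :
    ((acapcF k p q).obj B).M →ₗ[k] B.M :=
  capι ((relabel (finSuccEquiv' p).symm (finSuccEquiv' q).symm).obj B)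

private theorem acapcι_inj (p q : Fin (l + 1)) (B : BN k (Fin (l + 1)) (Fin (l + 1))) :
    Function.Injective (acapcι p q B) :=
  capι_injective ((relabel (finSuccEquiv' p).symm (finSuccEquiv' q).symm).obj B)

private theorem acapcι_map (p q : Fin (l + 1)) {B C : BN k (Fin (l + 1)) (Fin (l + 1))}
    (g : Hom B C) (z : ((acapcF k p q).obj B).M) :
    acapcι p q C (((acapcF k p q).map g).1 z) = g.1 (acapcι p q B z) := rfl

private theorem acapcι_act (p q : Fin (l + 1)) (B : BN k (Fin (l + 1)) (Fin (l + 1)))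
    (w : FreeAlgebra k (Gen l)) (z : ((acapcF k p q).obj B).M) :
    acapcι p q B (rho ((acapcF k p q).obj B) (mk w) z) =
      rho B (arc p q w) (acapcι p q B z) := cap_act B w z

/-- the generators -/
private noncomputable def acapcb (p q : Fin (l + 1)) (s : ASt k (l + 1))
    (j : Σ i : Fin s.N, Fin (nc p q (s.lab i))) : ((acapcF k p q).obj (T s).tot.A).M :=
  kg p q s.lab (T s).tot.A (T s).gen j

private theorem acapcι_b (p q : Fin (l + 1)) (s : ASt k (l + 1))
    (j : Σ i : Fin s.N, Fin (nc p q (s.lab i))) :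
    acapcι p q (T s).tot.A (acapcb p q s j) =
      rho (T s).tot.A (capGen p q (s.lab j.1) j.2) ((T s).gen j.1) :=
  capι_kg s.lab (T s).tot.A (T s).gen j

private theorem acapc_gr (p q : Fin (l + 1)) (s : ASt k (l + 1)) (t : ℤ)
    (j : Σ i : Fin s.N, Fin (nc p q (s.lab i))) :
    ((acapcF k p q).map (gr s t)).1 (acapcb p q s j) =
      (if s.deg j.1 = t then (1 : k) else 0) • acapcb p q s j := by
  refine acapcι_inj p q (T s).tot.A ?_
  refine (acapcι_map p q (gr s t) (acapcb p q s j)).trans ?_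
  rw [acapcι_b, hom_rho, gr_gen, map_smul, map_smul, acapcι_b]

private theorem acapc_comm (p q : Fin (l + 1)) (s : ASt k (l + 1)) (t : ℤ) :
    cmp ((acapcF k p q).map (T s).tot.d) ((acapcF k p q).map (gr s t)) =
      cmp ((acapcF k p q).map (gr s (t + 1))) ((acapcF k p q).map (T s).tot.d) := by
  rw [← (acapcF k p q).map_cmp, ← (acapcF k p q).map_cmp, gr_cmp]

private theorem acapc_mat (p q : Fin (l + 1)) (s : ASt k (l + 1)) {N : ℕ}
    (e : Fin N ≃ (Σ i : Fin s.N, Fin (nc p q (s.lab i))))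
    (lab' : (Σ i : Fin s.N, Fin (nc p q (s.lab i))) → Equiv.Perm (Fin l))
    (hl : ∀ j, CapLab p q (s.lab j.1) (lab' j)) :
    ∃ y : Fin N → Fin N → Cob k l, (∀ i j, IsHom (lab' (e i)) (lab' (e j)) (y i j)) ∧
      (∀ i j, y i j ≠ 0 → s.deg (e j).1 = s.deg (e i).1 + 1) ∧
      (∀ i j, ∑ m, y i m * y m j = 0) ∧
      ∀ i, ((acapcF k p q).map (T s).tot.d).1 (acapcb p q s (e i)) =
        ∑ j, rho ((acapcF k p q).obj (T s).tot.A) (y i j) (acapcb p q s (e j)) := by
  have hb0 : IsFree lab' ((acapcF k p q).obj (T s).tot.A) (acapcb p q s) :=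
    kg_free (T s).gen_free lab' hl
  have hb : IsFree (fun i => lab' (e i)) ((acapcF k p q).cx (T s).tot).A
      (fun i => acapcb p q s (e i)) := isFree_reindex e hb0
  obtain ⟨y, hy1, hy2, hy3⟩ := exists_mat ((acapcF k p q).cx (T s).tot)
    (fun i => lab' (e i)) (fun i => s.deg (e i).1) (fun i => acapcb p q s (e i)) hb
    (fun t => (acapcF k p q).map (gr s t)) (fun t j => acapc_gr p q s t (e j))
    (fun t => acapc_comm p q s t)
  exact ⟨y, hy1, hy2, fun i j => mat_dd ((acapcF k p q).cx (T s).tot)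
    (fun i => lab' (e i)) (fun i => acapcb p q s (e i)) hb y hy1 hy3 i j, hy3⟩

private theorem acapc_d (p q : Fin (l + 1)) (s : ASt k (l + 1)) {N : ℕ}
    (e : Fin N ≃ (Σ i : Fin s.N, Fin (nc p q (s.lab i))))
    (w : Fin N → Fin N → FreeAlgebra k (Gen l))
    (h : ∀ i, ((acapcF k p q).map (T s).tot.d).1 (acapcb p q s (e i)) =
        ∑ j, rho ((acapcF k p q).obj (T s).tot.A) (mk (w i j)) (acapcb p q s (e j)))
    (i : Fin N) (j : Fin s.N) :
    ∑ c, arc p q (w i (e.symm ⟨j, c⟩)) * capGen p q (s.lab j) c =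
      capGen p q (s.lab (e i).1) (e i).2 * s.d (e i).1 j := by
  have h1 : ∀ j : Fin s.N,
      ((∑ c : Fin (nc p q (s.lab j)), arc p q (w i (e.symm ⟨j, c⟩)) * capGen p q (s.lab j) c) -
        capGen p q (s.lab (e i).1) (e i).2 * s.d (e i).1 j) * idm (s.lab j) =
      (∑ c : Fin (nc p q (s.lab j)), arc p q (w i (e.symm ⟨j, c⟩)) * capGen p q (s.lab j) c) -
        capGen p q (s.lab (e i).1) (e i).2 * s.d (e i).1 j := by
    intro j
    rw [sub_mul, Finset.sum_mul, mul_assoc, (isHom_iff.1 (s.hom (e i).1 j)).2]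
    congr 1
    refine Finset.sum_congr rfl fun c _ => ?_
    rw [mul_assoc, capGen_idm]
  have h2 : ∑ j : Fin s.N, rho (T s).tot.A
      ((∑ c : Fin (nc p q (s.lab j)), arc p q (w i (e.symm ⟨j, c⟩)) * capGen p q (s.lab j) c) -
        capGen p q (s.lab (e i).1) (e i).2 * s.d (e i).1 j) ((T s).gen j) = 0 := by
    have h3 : ∀ j : Fin s.N, rho (T s).tot.A
      ((∑ c : Fin (nc p q (s.lab j)), arc p q (w i (e.symm ⟨j, c⟩)) * capGen p q (s.lab j) c) -
        capGen p q (s.lab (e i).1) (e i).2 * s.d (e i).1 j) ((T s).gen j) =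
        (∑ c : Fin (nc p q (s.lab j)), rho (T s).tot.A (arc p q (w i (e.symm ⟨j, c⟩)))
          (rho (T s).tot.A (capGen p q (s.lab j) c) ((T s).gen j))) -
        rho (T s).tot.A (capGen p q (s.lab (e i).1) (e i).2)
          (rho (T s).tot.A (s.d (e i).1 j) ((T s).gen j)) := by
      intro j
      rw [rho_sub, rho_sum, rho_mul]
      congr 1
      exact Finset.sum_congr rfl fun c _ => rho_mul _ _ _ _
    rw [Finset.sum_congr rfl fun j _ => h3 j, Finset.sum_sub_distrib, sub_eq_zero]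
    have h4 : ∑ j : Fin s.N, ∑ c : Fin (nc p q (s.lab j)),
        rho (T s).tot.A (arc p q (w i (e.symm ⟨j, c⟩)))
          (rho (T s).tot.A (capGen p q (s.lab j) c) ((T s).gen j)) =
        ∑ x : (Σ i : Fin s.N, Fin (nc p q (s.lab i))),
          rho (T s).tot.A (arc p q (w i (e.symm x)))
            (acapcι p q (T s).tot.A (acapcb p q s x)) := by
      rw [Fintype.sum_sigma]
      refine Finset.sum_congr rfl fun j _ => Finset.sum_congr rfl fun c _ => ?_
      rw [acapcι_b]
    have h5 : ∑ x : (Σ i : Fin s.N, Fin (nc p q (s.lab i))),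
          rho (T s).tot.A (arc p q (w i (e.symm x)))
            (acapcι p q (T s).tot.A (acapcb p q s x)) =
        acapcι p q (T s).tot.A (((acapcF k p q).map (T s).tot.d).1 (acapcb p q s (e i))) := by
      rw [h i, map_sum, ← Equiv.sum_comp e]
      refine Finset.sum_congr rfl fun j _ => ?_
      rw [acapcι_act, e.symm_apply_apply]
    rw [h4, h5, acapcι_map, acapcι_b, hom_rho]
    have h6 := congrArg (rho (T s).tot.A (capGen p q (s.lab (e i).1) (e i).2))
      (tot_d s (e i).1)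
    rw [map_sum] at h6
    exact h6
  exact sub_eq_zero.1 (coef_unique (I := Fin s.N) (lab := s.lab) (A := (T s).tot.A)
    (g := (T s).gen) (T s).gen_free h1 h2 j)

theorem exists_cap (p q : Fin (l + 1)) (s : ASt k (l + 1)) :
    ∃ (t : ASt k l) (e : Fin t.N ≃ (Σ i : Fin s.N, Fin (nc p q (s.lab i))))
      (w : Fin t.N → Fin t.N → FreeAlgebra k (Gen l)), Cap p q s t e w := by
  classical
  obtain ⟨N, ⟨e⟩⟩ : ∃ N : ℕ, Nonempty (Fin N ≃ (Σ i : Fin s.N, Fin (nc p q (s.lab i)))) :=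
    ⟨Fintype.card _, ⟨(Fintype.equivFin _).symm⟩⟩
  obtain ⟨lab', hl⟩ : ∃ lab' : (Σ i : Fin s.N, Fin (nc p q (s.lab i))) → Equiv.Perm (Fin l),
      ∀ j, CapLab p q (s.lab j.1) (lab' j) :=
    ⟨_, fun j => capLab_remove p q (s.lab j.1)⟩
  obtain ⟨y, hy1, hy2, hy3, hy4⟩ := acapc_mat p q s e lab' hl
  have hw : ∀ i j, ∃ w : FreeAlgebra k (Gen l), mk w = y i j := fun i j => mk_surj (y i j)
  choose w hw using hw
  refine ⟨⟨N, fun i => lab' (e i), fun i => s.deg (e i).1, y, hy1, hy2, hy3⟩, e, w, ?_⟩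
  refine ⟨hw, fun i => hl (e i), fun i => rfl, ?_⟩
  refine acapc_d p q s e w fun i => ?_
  rw [hy4 i]
  exact Finset.sum_congr rfl fun j _ => by rw [hw]

theorem exists_close (s : ASt k (l + 1)) : ∃ t : ASt k l, Close s t := exists_cap 0 0 s

end Pool.Agent.Lib.MP_f2e65a_lc.Alg
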