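import Pool.Agent.Lib.MP_f2e65a_lc.AIdm

/-! # ACoef: coefficients of elements of free modules (job ACoef: all)

`g i` are free generators of `A` with the labels `lab i`.
* `coef_unique`: fix `i`.  The elements `m j = if j = i then idm (lab i) else 0` of the regular module satisfy `m j ∈ clo (reg k l) (lab j)` (for `j = i`: `subst`, `(reg k l).E p q m = prj p q * m` is definitional, `prj_idm`; otherwise `Submodule.zero_mem`).  Let `f : Hom A (reg k l)` with `f.1 (g j) = m j` (`h.hom`).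
 `0 = f.1 (∑ j, rho A (y j) (g j)) = ∑ j, rho (reg k l) (y j) (m j) = y i * idm (lab i) = y i` (`map_sum`, `hom_rho`, `rho_reg`, `Finset.sum_eq_single`).
* `coef_exists`: `isFree_iso h h'` with `h' = isFree_pi lab (fun i => Φ k (lab i)) (fun i => gΦ k (lab i)) (fun i => Φ_free k (lab i))` gives `f : Hom A (BN.pi ..)`, `f'` inverse to `f`, with `f.1 (g i) = (inc _ i).1 (gΦ k (lab i))`.  For every `i` and `n : (Φ k (lab i)).M` there is `z : Cob k l` with `n = rho _ z (gΦ k (lab i))`: the range of the linear map `z ↦ rho _ z (gΦ ..)` is `Closed` (`rho_dot`, `rho_sad`, `rho_prj`, `rho_mul`) and contains `gΦ` (`rho_one`), which is not in `rad` (`(Φ_good k _).g_not`), so it is `⊤` (`(Φ_good k _).gen`).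
 `f.1 m = ∑ i, (inc _ i).1 ((f.1 m) i)` (`sum_inc_prj`), so with `(f.1 m) i = rho _ (z i) (gΦ ..)`: `f.1 m = ∑ i, rho _ (z i) ((inc _ i).1 (gΦ ..))` (`hom_rho`), and `m = f'.1 (f.1 m) = ∑ i, rho A (z i) (g i)`.
 Let `y i = idm a * z i * idm (lab i)` (`isHom_mid`): `rho A (y i) (g i) = rho A (idm a) (rho A (z i) (g i))` (`rho_mul`, `rho_idm`, `h.mem i`), the sum over `i` is `rho A (idm a) m = m` (`rho_idm`). -/

set_option autoImplicit false
set_option linter.unusedVariables false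
set_option linter.unusedSectionVars false

namespace Pool.Agent.Lib.MP_f2e65a_lc.Alg

variable {k : Type} [Field k] {l : ℕ}

theorem coef_unique {I : Type} [Fintype I] [DecidableEq I] {lab : I → Equiv.Perm (Fin l)}
    {A : BN k (Fin l) (Fin l)} {g : I → A.M} (h : IsFree lab A g) {y : I → Cob k l}
    (hy : ∀ i, y i * idm (lab i) = y i) (h0 : ∑ i, rho A (y i) (g i) = 0) (i : I) :
    y i = 0 := by
  obtain ⟨m, hmd⟩ : ∃ m : I → Cob k l, m = fun j => if j = i then idm (lab i) else 0 := ⟨_, rfl⟩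
  have hm : ∀ j, m j ∈ clo (reg k l) (lab j) := by
    intro j p
    change prj p (lab j p) * m j = m j
    rw [hmd]
    change prj p (lab j p) * (if j = i then idm (lab i) else 0) =
      (if j = i then idm (lab i) else 0)
    by_cases hj : j = i
    · subst hj
      rw [if_pos rfl]
      exact prj_idm _ _
    · rw [if_neg hj, mul_zero]
  obtain ⟨f, hf⟩ := h.hom (reg k l) m hm
  have h1 : f.1 (∑ j, rho A (y j) (g j)) = 0 := by rw [h0, map_zero]
  rw [map_sum] at h1
  have h2 : ∀ j, f.1 (rho A (y j) (g j)) = y j * m j := fun j => by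
    rw [hom_rho, hf]
    exact rho_reg _ _
  have h3 : (∑ j, y j * m j : Cob k l) = 0 := by
    refine Eq.trans ?_ h1
    exact Finset.sum_congr rfl fun j _ => (h2 j).symm
  rw [Finset.sum_eq_single i, hmd] at h3
  · change y i * (if i = i then idm (lab i) else 0) = 0 at h3
    rw [if_pos rfl, hy] at h3
    exact h3
  · intro j _ hj
    rw [hmd]
    change y j * (if j = i then idm (lab i) else 0) = 0
    rw [if_neg hj, mul_zero]
  · intro h4
    exact absurd (Finset.mem_univ i) h4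

private theorem acoef_range (a : Equiv.Perm (Fin l)) (n : (Φ k a).M) :
    ∃ z : Cob k l, rho (Φ k a) z (gΦ k a) = n := by
  obtain ⟨W, hW⟩ : ∃ W : Submodule k (Φ k a).M,
      ∀ m, m ∈ W ↔ ∃ z : Cob k l, rho (Φ k a) z (gΦ k a) = m :=
    ⟨LinearMap.range ((LinearMap.applyₗ (gΦ k a)).comp (rho (Φ k a)).toLinearMap),
      fun m => Iff.rfl⟩
  have hcl : Closed (Φ k a) W := by
    refine ⟨fun p m hm => ?_, fun p r m hpr hm => ?_, fun p q m hm => ?_⟩
    · obtain ⟨z, rfl⟩ := (hW _).1 hm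
      exact (hW _).2 ⟨dot p * z, by rw [rho_mul, rho_dot]⟩
    · obtain ⟨z, rfl⟩ := (hW _).1 hm
      exact (hW _).2 ⟨sad p r * z, by rw [rho_mul, rho_sad _ hpr]⟩
    · obtain ⟨z, rfl⟩ := (hW _).1 hm
      exact (hW _).2 ⟨prj p q * z, by rw [rho_mul, rho_prj]⟩
  have htop := (Φ_good k a).gen W (gΦ k a) hcl ((hW _).2 ⟨1, rho_one _ _⟩)
    (Φ_good k a).g_not
  refine (hW n).1 ?_
  rw [htop]
  exact Submodule.mem_top

theorem coef_exists {I : Type} [Fintype I] [DecidableEq I] {lab : I → Equiv.Perm (Fin l)}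
    {A : BN k (Fin l) (Fin l)} {g : I → A.M} (h : IsFree lab A g) {a : Equiv.Perm (Fin l)}
    {m : A.M} (hm : m ∈ clo A a) :
    ∃ y : I → Cob k l, (∀ i, IsHom a (lab i) (y i)) ∧ m = ∑ i, rho A (y i) (g i) := by
  obtain ⟨f, f', hff, -, hg⟩ := isFree_iso h (isFree_pi lab (fun i => Φ k (lab i))
    (fun i => gΦ k (lab i)) (fun i => Φ_free k (lab i)))
  choose z hz using fun i => acoef_range (lab i)
    ((Pool.Agent.Lib.MP_f2e65a_lc.prj (fun i => Φ k (lab i)) i).1 (f.1 m))
  have h1 : f.1 m = ∑ i, rho (BN.pi fun i => Φ k (lab i)) (z i) (f.1 (g i)) := by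
    have h2 := congrArg (fun F => F.1 (f.1 m)) (sum_inc_prj (fun i => Φ k (lab i)))
    refine Eq.trans h2.symm ?_
    refine Eq.trans (sum_apply' _ _ _) ?_
    refine Finset.sum_congr rfl fun i _ => ?_
    change (inc (fun i => Φ k (lab i)) i).1
      ((Pool.Agent.Lib.MP_f2e65a_lc.prj (fun i => Φ k (lab i)) i).1 (f.1 m)) = _
    rw [← hz i, hom_rho, hg]
  have h4 : ∀ n, f'.1 (f.1 n) = n := fun n => congrArg (fun F => F.1 n) hff
  have h3 : m = ∑ i, rho A (z i) (g i) := by
    refine Eq.trans (h4 m).symm ?_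
    rw [h1, map_sum]
    refine Finset.sum_congr rfl fun i _ => ?_
    rw [hom_rho, h4]
  refine ⟨fun i => idm a * z i * idm (lab i), fun i => isHom_mid _ _ _, ?_⟩
  have h5 : ∀ i, rho A (idm a * z i * idm (lab i)) (g i) =
      rho A (idm a) (rho A (z i) (g i)) := fun i => by
    rw [rho_mul, rho_mul, rho_idm (h.mem i)]
  rw [Finset.sum_congr rfl fun i _ => h5 i, ← map_sum, ← h3, rho_idm hm]

end Pool.Agent.Lib.MP_f2e65a_lc.Alg
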