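import Pool.Agent.Lib.MP_f2e65a_lc.ARho

/-! # ALab: labels (job ALab: all)

`finSuccEquiv' p p = none` (`finSuccEquiv'_at`), `finSuccEquiv' p (p.succAbove t) = some t` (`finSuccEquiv'_succAbove`), `(finSuccEquiv' p).symm none = p`, `(finSuccEquiv' p).symm (some t) = p.succAbove t`; `finSuccEquivLast = finSuccEquiv' (Fin.last l)` and `finSuccEquiv l = finSuccEquiv' 0` by definition (`rfl`).  Every `x : Fin (l + 1)` is `p` or `p.succAbove t` (`Fin.eq_self_or_eq_succAbove`).
* `arcLab_add`: `addLab α (Fin.last l) = Fin.last l`, `addLab α ((Fin.last l).succAbove u) = (Fin.last l).succAbove (α u)`; `Equiv.ext` and the two cases.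
* `arcLab_unique`: `Equiv.ext`.  `capLab_unique`: `Fin.succAbove_right_injective`, `Equiv.ext`.
* `capLab_remove`: `E = (finSuccEquiv' p).symm.trans (α.trans (finSuccEquiv' q))`.  If `α (p.succAbove u) = q` then `E (some u) = none`, `some (Equiv.removeNone E u) = E none` (`Equiv.removeNone_none`), `E none = finSuccEquiv' q (α p)`; apply `(finSuccEquiv' q).symm`: `q.succAbove (removeNone E u) = α p`.  Otherwise `E (some u) ≠ none`, `some (removeNone E u) = E (some u)` (`Equiv.removeNone_some`).
* `capLab_cls`: `clsLab α = removeNone (..)` with `p = q = 0` (`rfl`), `capLab_unique`.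
* `arc_smooth`: `smooth p q α p = q`; for `t = p.succAbove u ≠ p`: if `α t = q` then `t = α.symm q`, `smooth p q α t = α (swap p t t) = α p`; otherwise `t ≠ α.symm q`, `smooth p q α t = α t`.
-/

set_option autoImplicit false
set_option linter.unusedVariables false
set_option linter.unusedSectionVars false

namespace Pool.Agent.Lib.MP_f2e65a_lc.Alg

variable {l : ℕ} {p q : Fin (l + 1)}

private theorem ALab_last (α : Equiv.Perm (Fin l)) :
    ArcLab (Fin.last l) (Fin.last l) α (addLab α) := by
  constructor
  · change (finSuccEquiv' (Fin.last l)).symm ((Equiv.optionCongr α)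
      ((finSuccEquiv' (Fin.last l)) (Fin.last l))) = _
    rw [finSuccEquiv'_at]
    rfl
  · intro u
    change (finSuccEquiv' (Fin.last l)).symm ((Equiv.optionCongr α)
      ((finSuccEquiv' (Fin.last l)) ((Fin.last l).succAbove u))) = _
    rw [finSuccEquiv'_succAbove]
    rfl

private theorem ALab_unique {β : Equiv.Perm (Fin l)} {α α' : Equiv.Perm (Fin (l + 1))}
    (h : ArcLab p q β α) (h' : ArcLab p q β α') : α = α' := by
  refine Equiv.ext fun x => ?_
  rcases Fin.eq_self_or_eq_succAbove p x with rfl | ⟨u, rfl⟩
  · rw [h.1, h'.1]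
  · rw [h.2, h'.2]

theorem arcLab_add (α : Equiv.Perm (Fin l)) (α' : Equiv.Perm (Fin (l + 1))) :
    ArcLab (Fin.last l) (Fin.last l) α α' ↔ α' = addLab α := by
  constructor
  · intro h
    exact ALab_unique h (ALab_last α)
  · rintro rfl
    exact ALab_last α

theorem arcLab_unique {β : Equiv.Perm (Fin l)} {α α' : Equiv.Perm (Fin (l + 1))}
    (h : ArcLab p q β α) (h' : ArcLab p q β α') : α = α' := ALab_unique h h'

theorem capLab_unique {α : Equiv.Perm (Fin (l + 1))} {β β' : Equiv.Perm (Fin l)}
    (h : CapLab p q α β) (h' : CapLab p q α β') : β = β' := by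
  refine Equiv.ext fun u => Fin.succAbove_right_injective (p := q) ?_
  rw [h u, h' u]

theorem capLab_remove (p q : Fin (l + 1)) (α : Equiv.Perm (Fin (l + 1))) :
    CapLab p q α
      (Equiv.removeNone ((finSuccEquiv' p).symm.trans (α.trans (finSuccEquiv' q)))) := by
  intro u
  set E : Option (Fin l) ≃ Option (Fin l) :=
    (finSuccEquiv' p).symm.trans (α.trans (finSuccEquiv' q)) with hE
  have h1 : E (some u) = finSuccEquiv' q (α (p.succAbove u)) := rfl
  have h2 : E none = finSuccEquiv' q (α p) := rfl
  have h3 : ∀ t : Fin l, q.succAbove t = (finSuccEquiv' q).symm (some t) := fun t => rfl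
  by_cases h : α (p.succAbove u) = q
  · rw [if_pos h, h3]
    have h4 : E (some u) = none := by rw [h1, h, finSuccEquiv'_at]
    rw [Equiv.removeNone_none E h4, h2, Equiv.symm_apply_apply]
  · rw [if_neg h, h3]
    have h4 : ∃ x', E (some u) = some x' := by
      rw [← Option.ne_none_iff_exists']
      intro h5
      rw [h1, finSuccEquiv'_eq_none] at h5
      exact h h5.symm
    rw [Equiv.removeNone_some E h4, h1, Equiv.symm_apply_apply]

theorem capLab_cls (α : Equiv.Perm (Fin (l + 1))) (β : Equiv.Perm (Fin l)) :
    CapLab 0 0 α β ↔ β = clsLab α := by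
  have h1 : CapLab 0 0 α (clsLab α) := capLab_remove 0 0 α
  constructor
  · intro h
    exact capLab_unique h h1
  · rintro rfl
    exact h1

theorem arc_smooth {α : Equiv.Perm (Fin (l + 1))} {β : Equiv.Perm (Fin l)}
    (h : CapLab p q α β) (α' : Equiv.Perm (Fin (l + 1))) :
    ArcLab p q β α' ↔ α' = smooth p q α := by
  have h1 : ArcLab p q β (smooth p q α) := by
    constructor
    · change α (Equiv.swap p (α.symm q) p) = q
      rw [Equiv.swap_apply_left, Equiv.apply_symm_apply]
    · intro u
      change α (Equiv.swap p (α.symm q) (p.succAbove u)) = _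
      rw [h u]
      have hne : p.succAbove u ≠ p := Fin.succAbove_ne p u
      by_cases h2 : α (p.succAbove u) = q
      · rw [if_pos h2]
        have h3 : p.succAbove u = α.symm q := by rw [← h2, Equiv.symm_apply_apply]
        rw [h3, Equiv.swap_apply_right]
      · rw [if_neg h2]
        have h3 : p.succAbove u ≠ α.symm q := by
          intro h4
          apply h2
          rw [h4, Equiv.apply_symm_apply]
        rw [Equiv.swap_apply_of_ne_of_ne hne h3]
  constructor
  · intro h2
    exact arcLab_unique h2 h1
  · rintro rfl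
    exact h1

end Pool.Agent.Lib.MP_f2e65a_lc.Alg
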