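import Pool.Agent.Lib.MP_f2e65a_lc.AArcH
import Pool.Agent.Lib.MP_f2e65a_lc.ALab

/-! # AConeH: the entries of the cone (job AConeH: all theorems)

* `etaGen_hom`: `etaGen p q α c` is `idm α * dot p`, `idm α` (if `α p = q`; then `smooth p q α = α` since `α.symm q = p`, `Equiv.swap_self`) or `idm α * sad p r`, `r = α.symm q` (if `α p ≠ q`; `smooth p q α = (swap p r).trans α`).  Left: `prj t (α t) * (idm α * _) = idm α * _` (`prj_idm`).
 Right: `idm α * dot p * prj t (α t) = idm α * prj t (α t) * dot p = idm α * dot p` (`dot_prj`, `idm_prj`); `idm α * sad p r * prj t (α (swap p r t)) = idm α * prj (swap p r t) (α (swap p r t)) * sad p r` (`sad_prj_swap`) `= idm α * sad p r` (`idm_prj`).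
* `coneD_hom`: cases on `i`, `j`: `s.hom`; `if`: `etaGen_hom` and `lab' (inr j) = smooth p q (s.lab (e j).1)` (`arc_smooth (h.lab j)`), or `isHom_zero`; `isHom_zero`; `isHom_neg (arc_hom ..)` with `h.rep`, `t.hom`.
* `coneD_deg`: `s.d_deg`; `if`: `t.deg j + 1 = s.deg (e j).1 + 1` (`h.deg`); `0 ≠ 0`; `-arc p q (w i j) ≠ 0`: `arc_ne` (`neg_ne_zero`), `h.rep`, `t.d_deg`. -/

set_option autoImplicit false
set_option linter.unusedVariables false
set_option linter.unusedSectionVars false

namespace Pool.Agent.Lib.MP_f2e65a_lc.Alg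

variable {k : Type} [Field k] {l : ℕ} {p q : Fin (l + 1)} {s : ASt k (l + 1)} {t : ASt k l}
  {e : Fin t.N ≃ (Σ i : Fin s.N, Fin (nc p q (s.lab i)))}
  {w : Fin t.N → Fin t.N → FreeAlgebra k (Gen l)}

theorem etaGen_hom (p q : Fin (l + 1)) (α : Equiv.Perm (Fin (l + 1))) (c : ℕ) :
    IsHom α (smooth p q α) (etaGen p q α c : Cob k (l + 1)) := by
  by_cases h : α p = q
  · have h1 : smooth p q α = α := by
      have h2 : α.symm q = p := by rw [← h, Equiv.symm_apply_apply]
      unfold smooth
      rw [h2, Equiv.swap_self]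
      rfl
    rw [h1]
    unfold etaGen
    rw [if_pos h]
    by_cases hc : c = 0
    · rw [if_pos hc]
      intro t
      constructor
      · rw [← mul_assoc, prj_idm]
      · rw [mul_assoc, dot_prj, ← mul_assoc, idm_prj]
    · rw [if_neg hc]
      exact isHom_idm α
  · unfold etaGen
    rw [if_neg h]
    intro t
    constructor
    · rw [← mul_assoc, prj_idm]
    · have h1 : smooth p q α t = α (Equiv.swap p (α.symm q) t) := rfl
      rw [h1, mul_assoc, sad_prj_swap, ← mul_assoc, idm_prj]

theorem coneD_hom (h : Cap p q s t e w) (lab' : Fin s.N ⊕ Fin t.N → Equiv.Perm (Fin (l + 1)))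
    (h1 : ∀ i, lab' (Sum.inl i) = s.lab i)
    (h2 : ∀ i, ArcLab p q (t.lab i) (lab' (Sum.inr i))) (i j : Fin s.N ⊕ Fin t.N) :
    IsHom (lab' i) (lab' j) (coneD p q s t e w i j) := by
  rcases i with i | i
  · rcases j with j | j
    · rw [h1, h1]
      exact s.hom i j
    · change IsHom (lab' (Sum.inl i)) (lab' (Sum.inr j))
        (if (e j).1 = i then etaGen p q (s.lab i) (e j).2 else 0)
      by_cases hij : (e j).1 = i
      · have h3 : smooth p q (s.lab (e j).1) = smooth p q (s.lab i) :=
          congrArg (fun i => smooth p q (s.lab i)) hij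
        rw [if_pos hij, h1, (arc_smooth (h.lab j) _).1 (h2 j), h3]
        exact etaGen_hom p q (s.lab i) _
      · rw [if_neg hij]
        exact isHom_zero _ _
  · rcases j with j | j
    · exact isHom_zero _ _
    · change IsHom (lab' (Sum.inr i)) (lab' (Sum.inr j)) (-arc p q (w i j))
      refine isHom_neg (arc_hom (h2 i) (h2 j) ?_)
      rw [h.rep]
      exact t.hom i j

theorem coneD_deg (h : Cap p q s t e w) (i j : Fin s.N ⊕ Fin t.N)
    (hne : coneD p q s t e w i j ≠ 0) :
    Sum.elim s.deg (fun j => t.deg j + 1) j = Sum.elim s.deg (fun j => t.deg j + 1) i + 1 := by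
  rcases i with i | i
  · rcases j with j | j
    · exact s.d_deg i j hne
    · change t.deg j + 1 = s.deg i + 1
      by_cases hij : (e j).1 = i
      · rw [h.deg, hij]
      · exact absurd (if_neg hij) hne
  · rcases j with j | j
    · exact absurd rfl hne
    · change t.deg j + 1 = t.deg i + 1 + 1
      have h3 : (arc p q (w i j) : Cob k (l + 1)) ≠ 0 := by
        intro h4
        apply hne
        change -arc p q (w i j) = 0
        rw [h4]
        exact neg_zero
      have h5 := arc_ne h3
      rw [h.rep] at h5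
      rw [t.d_deg i j h5]

end Pool.Agent.Lib.MP_f2e65a_lc.Alg
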