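import Pool.Agent.Lib.MP_f2e65a_lc.ACapA

/-! # AEta: the natural map on generators (job AEta: all theorems)

* `ug_free`: `U_free lab A g h p q` has the index type `Σ i, Fin (if lab i p = q then 2 else 1)`, which is `Σ i, Fin (nc p q (lab i))` by definition, the same labels and the generators `ugen' lab A g p q j`; `isFree_congr` with: `lab j.1 p = q`: `j.2 = 0`: `uin (g j.1)`, `rho_capGen_zero`; `j.2 ≠ 0`: `uin (x p (g j.1))`, `rho_capGen_one`; `lab j.1 p ≠ q`: `rho_capGen_ne`.
* `eta_eq`: `((U k p q).eta A).1 g` has the coordinates `uη A p q g` (`uc_eta`): `v = E p q g`, `m p = x p (E p q g)`, `m τ = S p τ (E τ q g)` for `τ ≠ p` (`uη_v`, `uη_p`, `uη_ne`).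
 Case `α p = q` (`nc p q α = 2`: write the sum over `Fin (nc p q α)` as the sum over `Fin 2`: e.g. first prove for all `n` and `f : ℕ → M`: `∑ c : Fin n, f c = ∑ c ∈ Finset.range n, f c` (`Fin.sum_univ_eq_sum_range`), then `nc p q α = 2`, `Finset.sum_range_succ`).
 `c = 0`: `rho_U (idm α * dot p) (uin p g)`, `c = 1`: `rho_U (idm α) (uin p (x p g))` (`rho_capGen_zero`, `rho_capGen_one`).  `E p q g = g` (`hg p`), `E τ q g = E τ q (E p q g) = 0` for `τ ≠ p` (`E_col`).  `(uobj A p q).x p (uin p g)` has `v = g`, `m = 0` (`uc_x`, `ux_p_v`, `ux_p_p`, `ux_p_ne`, `uc_uin_m`), `uin p (x p g)` has `v = 0`, `m p = x p g` (`x_E`).  So `(uobj A p q).x p (uin p g) + uin p (x p g) = η g` (`uobj_ext`).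
 Both summands are in `clo (uobj A p q) α`: the `uin p g`, `uin p (x p g)` are in `clo (smooth p q α)` by `(ug_free ..).mem`-like facts, or directly; `smooth p q α = α` since `α.symm q = p`; `clo` is stable under `x p` (`x_E`); so `rho (idm α)` is the identity on them (`rho_idm`, `rho_mul`).
 To have the `clo` facts without `ug_free`: a direct proof: `uin A p q p b ∈ clo (uobj A p q) (smooth p q α)` if `b = rho A (capGen ..) g`: use `ug_free` for the one-element family? not available for arbitrary `g`.  Direct proof (`α p = q`): for `b` with `b ∈ clo A α` show `(uobj A p q).E t (α t) (uin p b) = uin p b`: `t = p`: `uE_pq_v`, `uE_pq_p`, `uE_pq_ne`; `t ≠ p` (then `α t ≠ q`): `uE_tu_v`, `uE_tu_t`, `uE_tu_ne`, with `A.E t (α t) b = b`.  And `η` is a morphism: `η g ∈ clo _ α` (`(..).2.2.2`): so `x_p (uin p g) = η g - uin p (x p g) ∈ clo α` too.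
 Case `α p ≠ q` (`nc p q α = 1`), `r = α.symm q`, `r ≠ p`, `α r = q`: `rho_U (idm α * sad p r) (uin p (S p r g))`.  `E p q g = E p q (E p (α p) g) = 0` (`E_row`), `E τ q g = 0` for `τ ≠ r` (`E_col` with `E r q g = g`), `E r q g = g`.  `(uobj A p q).S p r (uin p b)`, `b = S p r g`, `E p q b = b`: `uS_p`, `uS1_v` (`m r = 0`), `uS1_p` (`x r 0 = 0`), `uS1_self` (`m r = b + x r 0 = b`), `uS1_ne` (`0`).  So it is `η g`: `v = 0`, `m p = 0`, `m r = S p r g`, `m τ = S p τ 0 = 0`.  `η g ∈ clo _ α` so `rho (idm α)` is the identity on it. -/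

set_option autoImplicit false
set_option linter.unusedVariables false
set_option linter.unusedSectionVars false

namespace Pool.Agent.Lib.MP_f2e65a_lc.Alg

variable {k : Type} [Field k] {l : ℕ} {p q : Fin (l + 1)}

theorem ug_free {I : Type} {lab : I → Equiv.Perm (Fin (l + 1))}
    {A : BN k (Fin (l + 1)) (Fin (l + 1))} {g : I → A.M} (h : IsFree lab A g) :
    IsFree (fun j : Σ i, Fin (nc p q (lab i)) => smooth p q (lab j.1)) (uobj A p q)
      (fun j => uin A p q p (rho A (capGen p q (lab j.1) j.2) (g j.1))) := by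
  refine isFree_congr (U_free lab A g h p q) (fun j => rfl) (fun j => ?_)
  have hm := h.mem j.1
  unfold ugen'
  by_cases hp : lab j.1 p = q
  · rw [if_pos hp]
    by_cases hc : (j.2 : ℕ) = 0
    · rw [if_pos hc, hc, rho_capGen_zero hp hm]
    · rw [if_neg hc, rho_capGen_one hp hc hm]
  · rw [if_neg hp, rho_capGen_ne hp _ hm]

/-- `η g` for a flat tangle which joins `p` to `q` -/
private theorem aeta_pos {A : BN k (Fin (l + 1)) (Fin (l + 1))} {g : A.M}
    (hg : A.E p q g = g) :
    (uobj A p q).x p (uin A p q p g) + uin A p q p (A.x p g) = ((U k p q).eta A).1 g := by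
  have hadd : ∀ a b : (uobj A p q).M, uc A p q (a + b) = uc A p q a + uc A p q b :=
    fun a b => map_add _ a b
  refine uobj_ext ?_ fun τ => ?_
  · rw [hadd, uc_eta, uη_v]
    change (uc A p q ((uobj A p q).x p (uin A p q p g))).1 +
      (uc A p q (uin A p q p (A.x p g))).1 = A.E p q g
    rw [uc_x, ux_p_v, uc_uin_m, if_pos rfl, uc_uin_v, add_zero]
  · rw [hadd, uc_eta]
    change (uc A p q ((uobj A p q).x p (uin A p q p g))).2 τ +
      (uc A p q (uin A p q p (A.x p g))).2 τ = (uη A p q g).2 τ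
    by_cases hτ : τ = p
    · rw [hτ, uc_x, ux_p_p, uc_uin_m, if_pos rfl, uη_p, zero_add, A.x_E]
    · have e1 : A.E τ q g = 0 := by
        rw [← hg]
        exact A.E_col τ p q g hτ
      rw [uc_x, ux_p_ne A _ hτ, uc_uin_m, if_neg hτ, uc_uin_m, if_neg hτ, map_zero, add_zero,
        uη_ne A g hτ, e1, map_zero]

/-- `η g` for a flat tangle which joins `r ≠ p` to `q` -/
private theorem aeta_neg {A : BN k (Fin (l + 1)) (Fin (l + 1))} {r : Fin (l + 1)} (hr : r ≠ p)
    {g : A.M} (h0 : A.E p q g = 0) (hg : A.E r q g = g) :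
    (uobj A p q).S p r (uin A p q p (A.S p r g)) = ((U k p q).eta A).1 g := by
  have hb : A.E p q (A.S p r g) = A.S p r g := by
    rw [A.S_symm p r g hr.symm, ← A.S_E r p q g hr, hg]
  refine uobj_ext ?_ fun τ => ?_
  · rw [uc_eta, uη_v, uc_S, uS_p A hr, uS1_v, uc_uin_m, if_neg hr, h0]
  · rw [uc_eta, uc_S, uS_p A hr]
    by_cases hτ : τ = p
    · rw [hτ, uS1_p, uc_uin_m, if_neg hr, uη_p, h0, map_zero, map_zero]
    · by_cases hτ' : τ = r
      · rw [hτ', uS1_self A _ hr, uc_uin_m, if_pos rfl, uc_uin_v, map_zero, add_zero, hb,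
          uη_ne A g hr, hg]
      · have e1 : A.E τ q g = 0 := by
          rw [← hg]
          exact A.E_col τ r q g hτ'
        rw [uS1_ne A _ hτ hτ', uc_uin_m, if_neg hτ, uη_ne A g hτ, e1, map_zero, map_zero]

theorem eta_eq {A : BN k (Fin (l + 1)) (Fin (l + 1))} {α : Equiv.Perm (Fin (l + 1))} {g : A.M}
    (hg : g ∈ clo A α) :
    ((U k p q).eta A).1 g = ∑ c : Fin (nc p q α),
      rho (uobj A p q) (etaGen p q α c) (uin A p q p (rho A (capGen p q α c) g)) := by
  have hclo : ((U k p q).eta A).1 g ∈ clo (uobj A p q) α := fun t =>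
    (((U k p q).eta A).2.2.2 t (α t) g).symm.trans (congrArg ((U k p q).eta A).1 (hg t))
  refine Eq.trans ?_ (Fin.sum_univ_eq_sum_range (fun c : ℕ =>
    rho (uobj A p q) (etaGen p q α c) (uin A p q p (rho A (capGen p q α c) g)))
    (nc p q α)).symm
  by_cases h : α p = q
  · have hn : nc p q α = 2 := if_pos h
    have hgp : A.E p q g = g := by
      have h1 := hg p
      rwa [h] at h1
    have e0 : rho (uobj A p q) (etaGen p q α 0) (uin A p q p (rho A (capGen p q α 0) g)) =
        rho (uobj A p q) (idm α) ((uobj A p q).x p (uin A p q p g)) := by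
      rw [rho_capGen_zero h hg]
      unfold etaGen
      rw [if_pos h, if_pos rfl, rho_mul, rho_dot]
    have e1 : rho (uobj A p q) (etaGen p q α 1) (uin A p q p (rho A (capGen p q α 1) g)) =
        rho (uobj A p q) (idm α) (uin A p q p (A.x p g)) := by
      rw [rho_capGen_one h one_ne_zero hg]
      unfold etaGen
      rw [if_pos h, if_neg one_ne_zero]
    rw [hn, Finset.sum_range_succ, Finset.sum_range_one]
    refine Eq.trans ?_ (congrArg₂ (· + ·) e0 e1).symm
    change _ = rho (uobj A p q) (idm α) ((uobj A p q).x p (uin A p q p g)) +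
      rho (uobj A p q) (idm α) (uin A p q p (A.x p g))
    rw [← map_add, aeta_pos hgp, rho_idm hclo]
  · have hn : nc p q α = 1 := if_neg h
    have hr : α.symm q ≠ p := fun h1 => h (by rw [← h1, α.apply_symm_apply])
    have hg0 : A.E p q g = 0 := by
      rw [← hg p]
      exact A.E_row p q (α p) g (Ne.symm h)
    have hgr : A.E (α.symm q) q g = g := by
      have h1 := hg (α.symm q)
      rwa [α.apply_symm_apply] at h1
    have e0 : rho (uobj A p q) (etaGen p q α 0) (uin A p q p (rho A (capGen p q α 0) g)) =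
        rho (uobj A p q) (idm α) ((uobj A p q).S p (α.symm q)
          (uin A p q p (A.S p (α.symm q) g))) := by
      rw [rho_capGen_ne h 0 hg]
      unfold etaGen
      rw [if_neg h, rho_mul, rho_sad _ hr.symm]
    rw [hn, Finset.sum_range_one]
    refine Eq.trans ?_ e0.symm
    rw [aeta_neg hr hg0 hgr, rho_idm hclo]

end Pool.Agent.Lib.MP_f2e65a_lc.Alg
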