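import Pool.Agent.Lib.MP_f2e65a_lc.ACapB
import Pool.Agent.Lib.MP_f2e65a_lc.AEta
import Pool.Agent.Lib.MP_f2e65a_lc.AConeH

/-! # ACrossA: the cone on generators (job ACrossA: both theorems)

`A = (T s).tot.A`, `D = (T s).tot.d`; `(cross p q (T s).tot).A = A.prod (uobj A p q)` and `(cross p q (T s).tot).d.1 (m, w) = (D m, η m - U(D) w)` (`cone_d_apply`, definitional: `cross p q D = cone (U k p q) D`).
* `cg_free`: `isFree_prod (T s).gen_free (ug_free (T s).gen_free)` is indexed by `Fin s.N ⊕ Σ i, Fin (nc p q (s.lab i))`; `isFree_reindex (Equiv.sumCongr (Equiv.refl _) e)` and `isFree_congr` (cases on `i`, `rfl`).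
* `cone_eq`, `i = inl i`: left side: `inl (D gen_i) + inr (η gen_i)`.  Right side (`Fintype.sum_sum_type`): `∑ j, rho (s.d i j) (inl gen_j) = inl (∑ j, rho (s.d i j) gen_j) = inl (D gen_i)` (`hom_rho`, `tot_d`) and `∑ j : Fin t.N, rho (if (e j).1 = i then etaGen .. (e j).2 else 0) (inr (u_j))`, `u_j = uin p (rho (capGen ..) gen)`, `= inr (∑ x : Σ i', Fin _, if x.1 = i then rho_U (etaGen p q (s.lab i) x.2) (u x) else 0)` (`Equiv.sum_comp e`, `hom_rho`, `rho_zero`) `= inr (∑ c, rho_U (etaGen p q (s.lab i) c) (u ⟨i, c⟩))` (`Fintype.sum_sigma`, `Finset.sum_eq_single i`) `= inr (η gen_i)` (`eta_eq` with `(T s).gen_free.mem i`).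
* `i = inr i`: left side: `(0, -U(D) u_i)`, `U(D) (uin p b) = uin p (D b)` (`uobj_ext`, `uc_map`, `umapW_v`, `umapW_m`, `uc_uin_v`, `uc_uin_m`, `D.2.2.2`), `D (rho (capGen_i) gen) = ∑ j, rho (arc p q (w i j)) (rho (capGen_j) gen)` (`cap_eq`), `uin p` linear, `uin p (rho A (arc ..) b) = rho_U (arc ..) (uin p b)` (`uin_act`, for `b = rho A (capGen_j) gen`, `E p q b = b`: `rho_prj`, `rho_mul`, `capGen_prj`).  Right side: `0` and `∑ j, rho (-arc p q (w i j)) (inr u_j)` (`rho_neg`, `rho_zero`, `hom_rho`). -/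

set_option autoImplicit false
set_option linter.unusedVariables false
set_option linter.unusedSectionVars false

namespace Pool.Agent.Lib.MP_f2e65a_lc.Alg

variable {k : Type} [Field k] {l : ℕ}

/-- the generators of the cone -/
noncomputable def cg (p q : Fin (l + 1)) (s : ASt k (l + 1)) (t : ASt k l)
    (e : Fin t.N ≃ (Σ i : Fin s.N, Fin (nc p q (s.lab i)))) :
    Fin s.N ⊕ Fin t.N → (cross p q (T s).tot).A.M :=
  Sum.elim (fun i => (inlH (T s).tot.A (uobj (T s).tot.A p q)).1 ((T s).gen i))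
    (fun j => (inrH (T s).tot.A (uobj (T s).tot.A p q)).1 (uin (T s).tot.A p q p
      (rho (T s).tot.A (capGen p q (s.lab (e j).1) (e j).2) ((T s).gen (e j).1))))

private theorem ACrossA_uin {A : BN k (Fin (l + 1)) (Fin (l + 1))} (p q : Fin (l + 1))
    (γ : Hom A A) (b : A.M) :
    ((U k p q).map γ).1 (uin A p q p b) = uin A p q p (γ.1 b) := by
  refine uobj_ext ?_ fun τ => ?_
  · rw [uc_map, umapW_v, uc_uin_v, uc_uin_v, map_zero]
  · rw [uc_map, umapW_m, uc_uin_m, uc_uin_m]
    by_cases h : τ = p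
    · rw [if_pos h, if_pos h, γ.2.2.2]
    · rw [if_neg h, if_neg h, map_zero]

private theorem ACrossA_sum {N : ℕ} {n : Fin N → ℕ} {V : Type} [AddCommGroup V]
    (f : (Σ i : Fin N, Fin (n i)) → V) (i : Fin N) :
    (∑ x : Σ i : Fin N, Fin (n i), if x.1 = i then f x else 0) = ∑ c : Fin (n i), f ⟨i, c⟩ := by
  rw [Fintype.sum_sigma, Finset.sum_eq_single i]
  · exact Finset.sum_congr rfl fun c _ => if_pos rfl
  · intro j _ hj
    exact Finset.sum_eq_zero fun c _ => if_neg hj
  · intro h
    exact absurd (Finset.mem_univ i) h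

private theorem ACrossA_sum2 {M N : ℕ} {n : Fin N → ℕ} {V : Type} [AddCommGroup V]
    (e : Fin M ≃ (Σ i : Fin N, Fin (n i))) (f : (Σ i : Fin N, Fin (n i)) → V) (i : Fin N) :
    ∑ c : Fin (n i), f ⟨i, c⟩ = ∑ j : Fin M, if (e j).1 = i then f (e j) else 0 := by
  rw [← ACrossA_sum f i]
  exact (Equiv.sum_comp e (fun x => if x.1 = i then f x else 0)).symm

theorem cg_free (p q : Fin (l + 1)) (s : ASt k (l + 1)) (t : ASt k l)
    (e : Fin t.N ≃ (Σ i : Fin s.N, Fin (nc p q (s.lab i)))) :
    IsFree (Sum.elim s.lab (fun j => smooth p q (s.lab (e j).1))) (cross p q (T s).tot).A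
      (cg p q s t e) := by
  have h := isFree_prod (T s).gen_free (ug_free (p := p) (q := q) (T s).gen_free)
  have h2 := isFree_reindex (Equiv.sumCongr (Equiv.refl (Fin s.N)) e) h
  refine isFree_congr h2 (fun i => ?_) (fun i => ?_)
  · rcases i with i | j <;> rfl
  · rcases i with i | j <;> rfl

theorem cone_eq {p q : Fin (l + 1)} {s : ASt k (l + 1)} {t : ASt k l}
    {e : Fin t.N ≃ (Σ i : Fin s.N, Fin (nc p q (s.lab i)))}
    {w : Fin t.N → Fin t.N → FreeAlgebra k (Gen l)} (h : Cap p q s t e w)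
    (i : Fin s.N ⊕ Fin t.N) :
    (cross p q (T s).tot).d.1 (cg p q s t e i) =
      ∑ j, rho (cross p q (T s).tot).A (coneD p q s t e w i j) (cg p q s t e j) := by
  rw [Fintype.sum_sum_type]
  rcases i with i | i
  · have hL : (cross p q (T s).tot).d.1 (cg p q s t e (Sum.inl i)) =
        (inlH (T s).tot.A (uobj (T s).tot.A p q)).1 ((T s).tot.d.1 ((T s).gen i)) +
          (inrH (T s).tot.A (uobj (T s).tot.A p q)).1
            (((U k p q).eta (T s).tot.A).1 ((T s).gen i)) := by
      refine (cone_d_apply (U k p q) (T s).tot ((T s).gen i) 0).trans ?_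
      refine Prod.ext ?_ ?_
      · exact (add_zero _).symm
      · change ((U k p q).eta (T s).tot.A).1 ((T s).gen i) - ((U k p q).map (T s).tot.d).1 0 =
          0 + ((U k p q).eta (T s).tot.A).1 ((T s).gen i)
        rw [map_zero, sub_zero, zero_add]
    rw [hL, tot_d, map_sum, eta_eq ((T s).gen_free.mem i), map_sum]
    have h1 : ∀ j : Fin s.N, (inlH (T s).tot.A (uobj (T s).tot.A p q)).1
        (rho (T s).tot.A (s.d i j) ((T s).gen j)) =
        rho (cross p q (T s).tot).A (coneD p q s t e w (Sum.inl i) (Sum.inl j))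
          (cg p q s t e (Sum.inl j)) := fun j => hom_rho _ _ _
    rw [Finset.sum_congr rfl fun j _ => h1 j]
    refine congrArg (fun z => _ + z) ?_
    refine (ACrossA_sum2 e (fun x : Σ i' : Fin s.N, Fin (nc p q (s.lab i')) =>
        (inrH (T s).tot.A (uobj (T s).tot.A p q)).1 (rho (uobj (T s).tot.A p q)
            (etaGen p q (s.lab i) x.2) (uin (T s).tot.A p q p
              (rho (T s).tot.A (capGen p q (s.lab x.1) x.2) ((T s).gen x.1))))) i).trans
      (Finset.sum_congr rfl fun j _ => ?_)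
    change (if (e j).1 = i then (inrH (T s).tot.A (uobj (T s).tot.A p q)).1
          (rho (uobj (T s).tot.A p q) (etaGen p q (s.lab i) (e j).2) (uin (T s).tot.A p q p
            (rho (T s).tot.A (capGen p q (s.lab (e j).1) (e j).2) ((T s).gen (e j).1)))) else 0) =
      rho (cross p q (T s).tot).A
        (if (e j).1 = i then etaGen p q (s.lab i) (e j).2 else 0) (cg p q s t e (Sum.inr j))
    by_cases hj : (e j).1 = i
    · rw [if_pos hj, if_pos hj]
      exact hom_rho (inrH (T s).tot.A (uobj (T s).tot.A p q)) _ _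
    · rw [if_neg hj, if_neg hj]
      exact (rho_zero _ _).symm
  · have hL : (cross p q (T s).tot).d.1 (cg p q s t e (Sum.inr i)) =
        (inrH (T s).tot.A (uobj (T s).tot.A p q)).1 (-(uin (T s).tot.A p q p
          ((T s).tot.d.1 (rho (T s).tot.A (capGen p q (s.lab (e i).1) (e i).2)
            ((T s).gen (e i).1))))) := by
      refine (cone_d_apply (U k p q) (T s).tot 0 _).trans ?_
      refine Prod.ext (map_zero _) ?_
      change ((U k p q).eta (T s).tot.A).1 0 - ((U k p q).map (T s).tot.d).1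
        (uin (T s).tot.A p q p (rho (T s).tot.A (capGen p q (s.lab (e i).1) (e i).2)
            ((T s).gen (e i).1))) = -(uin (T s).tot.A p q p
          ((T s).tot.d.1 (rho (T s).tot.A (capGen p q (s.lab (e i).1) (e i).2)
            ((T s).gen (e i).1))))
      have hu := ACrossA_uin p q (T s).tot.d (rho (T s).tot.A
        (capGen p q (s.lab (e i).1) (e i).2) ((T s).gen (e i).1))
      rw [map_zero, zero_sub]
      exact congrArg (fun z => -z) hu
    have h1 : ∀ j : Fin s.N, rho (cross p q (T s).tot).A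
        (coneD p q s t e w (Sum.inr i) (Sum.inl j)) (cg p q s t e (Sum.inl j)) = 0 :=
      fun j => rho_zero _ _
    have h2 : ∀ j : Fin t.N, (inrH (T s).tot.A (uobj (T s).tot.A p q)).1
        (-(uin (T s).tot.A p q p (rho (T s).tot.A (arc p q (w i j))
          (rho (T s).tot.A (capGen p q (s.lab (e j).1) (e j).2) ((T s).gen (e j).1))))) =
        rho (cross p q (T s).tot).A (coneD p q s t e w (Sum.inr i) (Sum.inr j))
          (cg p q s t e (Sum.inr j)) := by
      intro j
      have hb : (T s).tot.A.E p q (rho (T s).tot.A (capGen p q (s.lab (e j).1) (e j).2)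
          ((T s).gen (e j).1)) = rho (T s).tot.A (capGen p q (s.lab (e j).1) (e j).2)
          ((T s).gen (e j).1) := by
        rw [← rho_prj, ← rho_mul, capGen_prj]
      rw [← uin_act _ _ _ hb, ← rho_neg]
      exact hom_rho (inrH (T s).tot.A (uobj (T s).tot.A p q)) _ _
    rw [hL, cap_eq h, map_sum, ← Finset.sum_neg_distrib, map_sum, Finset.sum_congr rfl fun j _ => h1 j,
      Finset.sum_const_zero, zero_add]
    exact Finset.sum_congr rfl fun j _ => h2 j

end Pool.Agent.Lib.MP_f2e65a_lc.Alg
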