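import Pool.Agent.Lib.MP_f2e65a_lc.ACrossA
import Pool.Agent.Lib.MP_f2e65a_lc.ACapC

/-! # ACrossB: gluing a crossing (job ACrossB: both theorems)

* `cross_glue`: `obtain ⟨t, e, w, f, hc, h1, h2, h3, h4⟩ := h`.  `iso`: `iso_of_gens s' (cross p q (T s).tot) b`, `b i = cg p q s t e (f.symm i)`: free: `isFree_reindex f.symm (cg_free p q s t e)` and `isFree_congr`: `Sum.elim s.lab (..) (f.symm i) = s'.lab i`: for `i = f (inl i')`: `h1`; `i = f (inr j)`: `(arc_smooth (hc.lab j) _).1 (h2 j)` (write `i = f x`, cases on `x`).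
 Differential: `cone_eq hc (f.symm i)`, `coneD .. (f.symm i) (f.symm j) = s'.d i j` (`h4 (f.symm i) (f.symm j)`, `f.apply_symm_apply`), reindex the sum (`Equiv.sum_comp f.symm`).
 `gens`: `e' = f.symm.trans (Equiv.sumCongr (Equiv.refl _) e) : Fin s'.N ≃ Fin s.N ⊕ Σ i, Fin (nc p q (s.lab i))` (`nc` unfolds to the `if` of `Glue`); `e'.symm (inl i) = f (inl i)`, `e'.symm (inr x) = f (inr (e.symm x))`; labels: `h1`, `h2` with `arc_smooth (hc.lab _)`, `e.apply_symm_apply`; degrees: `h3`, `hc.deg`.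
* `exists_cross`: `exists_cap p q s` gives `t`, `e`, `w`, `hc`; `f = finSumFinEquiv : Fin s.N ⊕ Fin t.N ≃ Fin (s.N + t.N)`; `lab₀ = Sum.elim s.lab (fun j => smooth p q (s.lab (e j).1))`, `deg₀ = Sum.elim s.deg (fun j => t.deg j + 1)`; `s' = ⟨s.N + t.N, fun i => lab₀ (f.symm i), fun i => deg₀ (f.symm i), fun i j => coneD p q s t e w (f.symm i) (f.symm j), ..⟩`: `hom`: `coneD_hom hc lab₀ (fun _ => rfl) (fun j => (arc_smooth (hc.lab j) _).2 rfl)`; `d_deg`: `coneD_deg hc`; `d_d`: `mat_dd (cross p q (T s).tot) _ b hb _ hom hd` with `b` as above (`isFree_reindex f.symm (cg_free ..)`, `cone_eq`). -/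

set_option autoImplicit false
set_option linter.unusedVariables false
set_option linter.unusedSectionVars false

namespace Pool.Agent.Lib.MP_f2e65a_lc.Alg

variable {k : Type} [Field k] {l : ℕ} {p q : Fin (l + 1)}

theorem cross_glue {s s' : ASt k (l + 1)} (h : Cross p q s s') : Glue p q (T s) (T s') := by
  obtain ⟨t, e, w, f, hc, h1, h2, h3, h4⟩ := h
  have hlab : ∀ x : Fin s.N ⊕ Fin t.N,
      Sum.elim s.lab (fun j => smooth p q (s.lab (e j).1)) x = s'.lab (f x) := by
    rintro (i | j)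
    · exact (h1 i).symm
    · exact ((arc_smooth (hc.lab j) _).1 (h2 j)).symm
  refine ⟨?_, ?_⟩
  · refine iso_of_gens s' (cross p q (T s).tot) (fun i => cg p q s t e (f.symm i)) ?_ ?_
    · refine isFree_congr (isFree_reindex f.symm (cg_free p q s t e)) (fun i => ?_) (fun i => rfl)
      rw [hlab, f.apply_symm_apply]
    · intro i
      rw [cone_eq hc (f.symm i), ← Equiv.sum_comp f.symm]
      refine Finset.sum_congr rfl fun j _ => ?_
      rw [← h4 (f.symm i) (f.symm j), f.apply_symm_apply, f.apply_symm_apply]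
  · refine ⟨f.symm.trans (Equiv.sumCongr (Equiv.refl _) e), fun i => ⟨h1 i, h3 (Sum.inl i)⟩,
      fun j => ⟨?_, ?_⟩⟩
    · have h5 := (arc_smooth (hc.lab (e.symm j)) _).1 (h2 (e.symm j))
      rw [e.apply_symm_apply] at h5
      exact h5
    · have h5 : s'.deg (f (Sum.inr (e.symm j))) = t.deg (e.symm j) + 1 :=
        h3 (Sum.inr (e.symm j))
      rw [hc.deg (e.symm j), e.apply_symm_apply] at h5
      exact h5

theorem exists_cross (p q : Fin (l + 1)) (s : ASt k (l + 1)) :
    ∃ s' : ASt k (l + 1), Cross p q s s' := by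
  obtain ⟨t, e, w, hc⟩ := exists_cap p q s
  let f : Fin s.N ⊕ Fin t.N ≃ Fin (s.N + t.N) := finSumFinEquiv
  let lab0 : Fin s.N ⊕ Fin t.N → Equiv.Perm (Fin (l + 1)) :=
    Sum.elim s.lab (fun j => smooth p q (s.lab (e j).1))
  have hom : ∀ x y, IsHom (lab0 x) (lab0 y) (coneD p q s t e w x y) :=
    coneD_hom hc lab0 (fun _ => rfl) (fun j => (arc_smooth (hc.lab j) _).2 rfl)
  have hb : IsFree (fun i => lab0 (f.symm i)) (cross p q (T s).tot).A
      (fun i => cg p q s t e (f.symm i)) := isFree_reindex f.symm (cg_free p q s t e)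
  have hd : ∀ i : Fin (s.N + t.N), (cross p q (T s).tot).d.1 (cg p q s t e (f.symm i)) =
      ∑ j, rho (cross p q (T s).tot).A (coneD p q s t e w (f.symm i) (f.symm j))
        (cg p q s t e (f.symm j)) := by
    intro i
    rw [cone_eq hc (f.symm i), ← Equiv.sum_comp f.symm]
  let s' : ASt k (l + 1) :=
    { N := s.N + t.N
      lab := fun i => lab0 (f.symm i)
      deg := fun i => Sum.elim s.deg (fun j => t.deg j + 1) (f.symm i)
      d := fun i j => coneD p q s t e w (f.symm i) (f.symm j)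
      hom := fun i j => hom _ _
      d_deg := fun i j h => coneD_deg hc _ _ h
      d_d := mat_dd (cross p q (T s).tot) _ _ hb _ (fun i j => hom _ _) hd }
  refine ⟨s', t, e, w, f, hc, fun i => ?_, fun i => ?_, fun i => ?_, fun i j => ?_⟩
  · change lab0 (f.symm (f (Sum.inl i))) = s.lab i
    rw [f.symm_apply_apply]
    rfl
  · change ArcLab p q (t.lab i) (lab0 (f.symm (f (Sum.inr i))))
    rw [f.symm_apply_apply]
    exact (arc_smooth (hc.lab i) _).2 rfl
  · change Sum.elim s.deg (fun j => t.deg j + 1) (f.symm (f i)) = _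
    rw [f.symm_apply_apply]
  · change coneD p q s t e w (f.symm (f i)) (f.symm (f j)) = _
    rw [f.symm_apply_apply, f.symm_apply_apply]

end Pool.Agent.Lib.MP_f2e65a_lc.Alg
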