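import Mathlib

/-! # Bar-Natan's scanning algorithm on the closed braid of a torus link

Tangles with `l` open strands have `l` ends in `P = {0, …, l - 1}` and `l` ends in `Q = {0, …, l - 1}`; a flat tangle (without circles) is a bijection `α : P ≃ Q`, i.e. an element of `Equiv.Perm (Fin l)`: the end `p` in `P` is joined to the end `α p` in `Q`.
Bar-Natan's category of dotted cobordisms over the field `k` is given by generators and relations: `Cob k l` is the algebra with the generators `x p` (a dot on the component of the end `p`), `S p r` (the saddle between the components of the ends `p`, `r`; it joins `p` to the former partner of `r` and conversely) and `E p q` (the projection to the flat tangles which join `p` to `q`).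
The morphisms between the flat tangles `α`, `β` are the `y : Cob k l` with `E p (α p) * y = y` and `y * E p (β p) = y` for all `p`. -/

set_option autoImplicit false

namespace Pool.Agent.Lib.MP_f2e65a_lc.Alg

/-- the generators -/
inductive Gen (l : ℕ) : Type
  | x (p : Fin l) : Gen l
  | S (p r : Fin l) : Gen l
  | E (p q : Fin l) : Gen l

section

variable {k : Type} [Field k] {l : ℕ}

/-- dot -/
noncomputable def gx (p : Fin l) : FreeAlgebra k (Gen l) := FreeAlgebra.ι k (Gen.x p)

/-- saddle -/
noncomputable def gS (p r : Fin l) : FreeAlgebra k (Gen l) := FreeAlgebra.ι k (Gen.S p r)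

/-- projection -/
noncomputable def gE (p q : Fin l) : FreeAlgebra k (Gen l) := FreeAlgebra.ι k (Gen.E p q)

end

/-- the relations of Bar-Natan's category of dotted cobordisms: two dots are `0`, neck cutting `S ^ 2 = x + x`, isotopies, projections -/
inductive BRel (k : Type) [Field k] (l : ℕ) :
    FreeAlgebra k (Gen l) → FreeAlgebra k (Gen l) → Prop
  | x_x (p r : Fin l) : BRel k l (gx p * gx r) (gx r * gx p)
  | x_sq (p : Fin l) : BRel k l (gx p * gx p) 0
  | S_self (p : Fin l) : BRel k l (gS p p) 0
  | S_symm (p r : Fin l) : BRel k l (gS p r) (gS r p)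
  | x_S (t p r : Fin l) : BRel k l (gx t * gS p r) (gS p r * gx t)
  | x_S_eq (p r : Fin l) : BRel k l (gx p * gS p r) (gx r * gS p r)
  | S_sq (p r : Fin l) : p ≠ r → BRel k l (gS p r * gS p r) (gx p + gx r)
  | S_S (p r t u : Fin l) : p ≠ t → p ≠ u → r ≠ t → r ≠ u →
      BRel k l (gS p r * gS t u) (gS t u * gS p r)
  | S_S_S (p r t : Fin l) : p ≠ r → r ≠ t → p ≠ t →
      BRel k l (gS r t * gS p r) (gS p r * gS p t)
  | E_E (p q r s : Fin l) : BRel k l (gE p q * gE r s) (gE r s * gE p q)
  | E_idem (p q : Fin l) : BRel k l (gE p q * gE p q) (gE p q)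
  | E_row (p q s : Fin l) : q ≠ s → BRel k l (gE p q * gE p s) 0
  | E_col (p r q : Fin l) : p ≠ r → BRel k l (gE p q * gE r q) 0
  | sum_row (p : Fin l) : BRel k l (∑ q, gE p q) 1
  | sum_col (q : Fin l) : BRel k l (∑ p, gE p q) 1
  | x_E (t p q : Fin l) : BRel k l (gx t * gE p q) (gE p q * gx t)
  | S_E (p r q : Fin l) : BRel k l (gS p r * gE p q) (gE r q * gS p r)
  | S_E' (p r t q : Fin l) : t ≠ p → t ≠ r → BRel k l (gS p r * gE t q) (gE t q * gS p r)

/-- the algebra of dotted cobordisms -/
abbrev Cob (k : Type) [Field k] (l : ℕ) : Type := RingQuot (BRel k l)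

section

variable {k : Type} [Field k] {l : ℕ}

/-- the cobordism of a linear combination of words -/
noncomputable def mk : FreeAlgebra k (Gen l) →ₐ[k] Cob k l := RingQuot.mkAlgHom k (BRel k l)

/-- dot -/
noncomputable def dot (p : Fin l) : Cob k l := mk (gx p)

/-- saddle -/
noncomputable def sad (p r : Fin l) : Cob k l := mk (gS p r)

/-- projection -/
noncomputable def prj (p q : Fin l) : Cob k l := mk (gE p q)

/-- the identity cobordism of the flat tangle `α` -/
noncomputable def idm (α : Equiv.Perm (Fin l)) : Cob k l :=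
  (List.ofFn fun p => prj (k := k) p (α p)).prod

/-- `y` is a morphism between `α` and `β` -/
def IsHom (α β : Equiv.Perm (Fin l)) (y : Cob k l) : Prop :=
  ∀ p, prj p (α p) * y = y ∧ y * prj p (β p) = y

/-- the generators after the insertion of new ends `p`, `q` -/
def Gen.up (p q : Fin (l + 1)) : Gen l → Gen (l + 1)
  | Gen.x t => Gen.x (p.succAbove t)
  | Gen.S t s => Gen.S (p.succAbove t) (p.succAbove s)
  | Gen.E t u => Gen.E (p.succAbove t) (q.succAbove u)

/-- the cobordism `w` and the identity of a new arc from `p` to `q` -/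
noncomputable def arc (p q : Fin (l + 1)) (w : FreeAlgebra k (Gen l)) : Cob k (l + 1) :=
  prj p q * mk (FreeAlgebra.lift k (fun g => FreeAlgebra.ι k (g.up p q)) w)

/-- `α` is the flat tangle `β` and an arc from `p` to `q` -/
def ArcLab (p q : Fin (l + 1)) (β : Equiv.Perm (Fin l)) (α : Equiv.Perm (Fin (l + 1))) : Prop :=
  α p = q ∧ ∀ u, α (p.succAbove u) = q.succAbove (β u)

/-- `β` is obtained from the flat tangle `α` by joining the ends `p`, `q` (and removing a circle, if `α p = q`) -/
def CapLab (p q : Fin (l + 1)) (α : Equiv.Perm (Fin (l + 1))) (β : Equiv.Perm (Fin l)) : Prop :=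
  ∀ u, q.succAbove (β u) = if α (p.succAbove u) = q then α p else α (p.succAbove u)

/-- number of summands obtained from `α` by joining `p` to `q` and delooping -/
def nc (p q : Fin (l + 1)) (α : Equiv.Perm (Fin (l + 1))) : ℕ := if α p = q then 2 else 1

/-- the cobordism from the summand `c` of `α` with `p`, `q` joined and an arc from `p` to `q`, to `α` -/
noncomputable def capGen (p q : Fin (l + 1)) (α : Equiv.Perm (Fin (l + 1))) (c : ℕ) :
    Cob k (l + 1) :=
  if α p = q then (if c = 0 then idm α else dot p * idm α) else sad p (α.symm q) * idm α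

/-- the cobordism from `α` to the summand `c` of `α` with `p`, `q` joined and an arc from `p` to `q` -/
noncomputable def etaGen (p q : Fin (l + 1)) (α : Equiv.Perm (Fin (l + 1))) (c : ℕ) :
    Cob k (l + 1) :=
  if α p = q then (if c = 0 then idm α * dot p else idm α) else idm α * sad p (α.symm q)

end

/-- complexes over Bar-Natan's category with `N` generators, the generator `i` being the flat tangle `lab i` in degree `deg i` -/
structure ASt (k : Type) [Field k] (l : ℕ) where
  N : ℕ
  lab : Fin N → Equiv.Perm (Fin l)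
  deg : Fin N → ℤ
  d : Fin N → Fin N → Cob k l
  hom : ∀ i j, IsHom (lab i) (lab j) (d i j)
  d_deg : ∀ i j, d i j ≠ 0 → deg j = deg i + 1
  d_d : ∀ i j, ∑ m, d i m * d m j = 0

section

variable {k : Type} [Field k] {l : ℕ}

/-- the complex of the empty tangle -/
noncomputable def ASt.empty (k : Type) [Field k] : ASt k 0 where
  N := 1
  lab _ := Equiv.refl _
  deg _ := 0
  d _ _ := 0
  hom _ _ p := Fin.elim0 p
  d_deg _ _ h := absurd rfl h
  d_d _ _ := by simp

/-- `t` is the complex obtained from `s` by joining the ends `p`, `q` and delooping; its differential is represented by `w` -/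
structure Cap (p q : Fin (l + 1)) (s : ASt k (l + 1)) (t : ASt k l)
    (e : Fin t.N ≃ (Σ i : Fin s.N, Fin (nc p q (s.lab i))))
    (w : Fin t.N → Fin t.N → FreeAlgebra k (Gen l)) : Prop where
  rep : ∀ i j, mk (w i j) = t.d i j
  lab : ∀ i, CapLab p q (s.lab (e i).1) (t.lab i)
  deg : ∀ i, t.deg i = s.deg (e i).1
  d : ∀ i j, ∑ c, arc p q (w i (e.symm ⟨j, c⟩)) * capGen p q (s.lab j) c =
    capGen p q (s.lab (e i).1) (e i).2 * s.d (e i).1 j

/-- close the first open strand -/
def Close (s : ASt k (l + 1)) (t : ASt k l) : Prop := ∃ e w, Cap 0 0 s t e w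

/-- add a strand after the last open strand -/
def Add (s : ASt k l) (s' : ASt k (l + 1)) : Prop :=
  ∃ (e : Fin s'.N ≃ Fin s.N) (w : Fin s.N → Fin s.N → FreeAlgebra k (Gen l)),
    (∀ i j, mk (w i j) = s.d i j) ∧
    (∀ i, ArcLab (Fin.last l) (Fin.last l) (s.lab (e i)) (s'.lab i) ∧ s'.deg i = s.deg (e i)) ∧
    ∀ i j, s'.d i j = arc (Fin.last l) (Fin.last l) (w (e i) (e j))

/-- the differential of the cone of the natural map from `s` to the complex `t` with an arc from `p` to `q` added -/
noncomputable def coneD (p q : Fin (l + 1)) (s : ASt k (l + 1)) (t : ASt k l)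
    (e : Fin t.N ≃ (Σ i : Fin s.N, Fin (nc p q (s.lab i))))
    (w : Fin t.N → Fin t.N → FreeAlgebra k (Gen l)) :
    Fin s.N ⊕ Fin t.N → Fin s.N ⊕ Fin t.N → Cob k (l + 1)
  | Sum.inl i, Sum.inl j => s.d i j
  | Sum.inl i, Sum.inr j => if (e j).1 = i then etaGen p q (s.lab i) (e j).2 else 0
  | Sum.inr _, Sum.inl _ => 0
  | Sum.inr i, Sum.inr j => -arc p q (w i j)

/-- glue a crossing to the ends `p`, `q`: `s'` is the cone of the natural map from `s` to the complex obtained from `s` by joining `p` to `q` and adding an arc from `p` to `q` -/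
def Cross (p q : Fin (l + 1)) (s s' : ASt k (l + 1)) : Prop :=
  ∃ (t : ASt k l) (e : Fin t.N ≃ (Σ i : Fin s.N, Fin (nc p q (s.lab i))))
    (w : Fin t.N → Fin t.N → FreeAlgebra k (Gen l)) (f : Fin s.N ⊕ Fin t.N ≃ Fin s'.N),
    Cap p q s t e w ∧ (∀ i, s'.lab (f (Sum.inl i)) = s.lab i) ∧
    (∀ i, ArcLab p q (t.lab i) (s'.lab (f (Sum.inr i)))) ∧
    (∀ i, s'.deg (f i) = Sum.elim s.deg (fun j => t.deg j + 1) i) ∧
    ∀ i j, s'.d (f i) (f j) = coneD p q s t e w i j

/-- `ψ` is the inverse of the morphism `y` between `α` and `β` -/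
def IsInv (α β : Equiv.Perm (Fin l)) (y ψ : Cob k l) : Prop :=
  IsHom β α ψ ∧ y * ψ = idm α ∧ ψ * y = idm β

/-- no entry of the differential is invertible -/
def Reduced (s : ASt k l) : Prop := ∀ i j ψ, ¬ IsInv (s.lab i) (s.lab j) (s.d i j) ψ

/-- `s'` is obtained from `s` by the Gaussian elimination of an invertible entry -/
def Elim (s s' : ASt k l) : Prop :=
  ∃ (i₀ j₀ : Fin s.N) (ψ : Cob k l) (e : Fin s'.N ≃ {i : Fin s.N // i ≠ i₀ ∧ i ≠ j₀}),
    IsInv (s.lab i₀) (s.lab j₀) (s.d i₀ j₀) ψ ∧
    (∀ i, s'.lab i = s.lab (e i) ∧ s'.deg i = s.deg (e i)) ∧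
    ∀ i j, s'.d i j = s.d (e i) (e j) - s.d (e i) j₀ * ψ * s.d i₀ (e j)

end

/-- the cost of the treatment of one entry of the differential, for tangles with `l` open strands: the entries are linear combinations of at most `2 ^ l` basis cobordisms -/
def unit (l : ℕ) : ℕ := 16 * (2 ^ l) ^ 3

/-- a complex for a tangle with the open strands `a, …, a + l - 1` -/
structure SOb (k : Type) [Field k] where
  a : ℕ
  l : ℕ
  s : ASt k l

/-- the elementary operations: add a strand, glue a crossing between the strands `i` and `i + 1`, close a strand -/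
inductive Ins : Type
  | add : Ins
  | crs (i : ℕ) : Ins
  | cls : Ins

/-- the end in `P` of the even one of the strands `i`, `i + 1` (its lower end) -/
def posP {a l i : ℕ} (h : a ≤ i ∧ i + 1 < a + l) : Fin l := ⟨2 * ((i + 1) / 2) - a, by omega⟩

/-- the end in `Q` of the odd one of the strands `i`, `i + 1` (its lower end) -/
def posQ {a l i : ℕ} (h : a ≤ i ∧ i + 1 < a + l) : Fin l := ⟨2 * (i / 2) + 1 - a, by omega⟩

/-- `σ'` is obtained from `σ` by the elementary operation -/
inductive Op (k : Type) [Field k] : Ins → SOb k → SOb k → Prop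
  | add {a l : ℕ} {s : ASt k l} {s' : ASt k (l + 1)} :
      Add s s' → Op k Ins.add ⟨a, l, s⟩ ⟨a, l + 1, s'⟩
  | crs {a l i : ℕ} {s s' : ASt k (l + 1)} (h : a ≤ i ∧ i + 1 < a + (l + 1)) :
      Cross (posP h) (posQ h) s s' → Op k (Ins.crs i) ⟨a, l + 1, s⟩ ⟨a, l + 1, s'⟩
  | cls {a l : ℕ} {s : ASt k (l + 1)} {s' : ASt k l} :
      Close s s' → Op k Ins.cls ⟨a, l + 1, s⟩ ⟨a + 1, l, s'⟩

/-- `Ops w σ σ' c M`: the elementary operations `w` lead from `σ` to `σ'`; `c` is their cost and `M` the maximal number of generators -/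
inductive Ops (k : Type) [Field k] : List Ins → SOb k → SOb k → ℕ → ℕ → Prop
  | nil (σ : SOb k) : Ops k [] σ σ 0 σ.s.N
  | cons {ι : Ins} {w : List Ins} {σ σ' σ'' : SOb k} {c M : ℕ} : Op k ι σ σ' →
      Ops k w σ' σ'' c M →
      Ops k (ι :: w) σ σ'' (unit σ'.l * σ'.s.N ^ 2 + c) (max σ.s.N M)

/-- `Elims s s' c`: a sequence of Gaussian eliminations from `s` to `s'` of cost `c` -/
inductive Elims (k : Type) [Field k] {l : ℕ} : ASt k l → ASt k l → ℕ → Prop
  | nil (s : ASt k l) : Elims k s s 0
  | cons {s s' s'' : ASt k l} {c : ℕ} : Elim s s' → Elims k s' s'' c →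
      Elims k s s'' (unit l * s.N ^ 2 + c)

/-- the elementary operations for the crossing number `j` of the closure of the braid word `(σ_0 σ_1 ⋯ σ_{n - 2}) ^ m`, which is the crossing between the strands `i` and `i + 1`, `i = j % (n - 1)`: it meets the strand `0` for the first time if `j = 0` and the strand `i + 1` if `j < n - 1`;
it is the last crossing which meets the strand `i` if `(m - 1) * (n - 1) ≤ j`, and also the strand `n - 1` if `j` is the last crossing -/
def stepOf (n m j : ℕ) : List Ins :=
  (if j = 0 then [Ins.add] else []) ++ ((if j < n - 1 then [Ins.add] else []) ++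
    (Ins.crs (j % (n - 1)) :: ((if (m - 1) * (n - 1) ≤ j then [Ins.cls] else []) ++
      (if j + 1 = m * (n - 1) then [Ins.cls] else []))))

/-- `Scan n m j σ c M`: a run of the scanning algorithm for the crossings `0, …, j - 1` of `T(n, m)` with the result `σ`; `c` is the cost and `M` the maximal number of generators (at any time) -/
inductive Scan (k : Type) [Field k] (n m : ℕ) : ℕ → SOb k → ℕ → ℕ → Prop
  | zero : Scan k n m 0 ⟨0, 0, ASt.empty k⟩ 0 1
  | step {j a l : ℕ} {σ : SOb k} {c M c' M' c'' : ℕ} {s' s'' : ASt k l} :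
      Scan k n m j σ c M → j < m * (n - 1) → Ops k (stepOf n m j) σ ⟨a, l, s'⟩ c' M' →
      Elims k s' s'' c'' → Reduced s'' →
      Scan k n m (j + 1) ⟨a, l, s''⟩ (c + c' + c'') (max M M')

/-- the complexes of the crossings `0, …, j - 1` of `T(n, m)` without any elimination -/
inductive Cube (k : Type) [Field k] (n m : ℕ) : ℕ → SOb k → Prop
  | zero : Cube k n m 0 ⟨0, 0, ASt.empty k⟩
  | step {j : ℕ} {σ σ' : SOb k} {c M : ℕ} : Cube k n m j σ → j < m * (n - 1) →
      Ops k (stepOf n m j) σ σ' c M → Cube k n m (j + 1) σ'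

/-- the dimension of the homology of a complex of a tangle without ends -/
noncomputable def hdim {k : Type} [Field k] {l : ℕ} (s : ASt k l) : ℕ :=
  s.N - 2 * Module.finrank k (Submodule.span k (Set.range s.d))

end Pool.Agent.Lib.MP_f2e65a_lc.Alg
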