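import Pool.Agent.Lib.MP_f2e65a_lc.AFr

/-! # AElim: Gaussian elimination (job AElim: all theorems)

* `inv_T`: `⟨(hm_inv (s.hom i₀ j₀) h).1, (hm_inv (s.hom i₀ j₀) h).2⟩`.
* `ed_T`: `(T s).ed i₀ j₀ (hm _ _ ψ) i j = hm (s.lab i) (s.lab j) (s.d i j - s.d i j₀ * ψ * s.d i₀ j)`: `hm_sub`, `hm_mul` twice (`IsHom (lab j₀) (lab i₀) ψ` is `h.1`; `isHom_mul`).
* `elim_eq`: `E = ((T s).elim i₀ j₀ (hm _ _ ψ) (inv_T h)).tot`, `gen' x = ((T s).elim ..).gen x`, `x : {i // i ≠ i₀ ∧ i ≠ j₀}`.  As in `tot_d` (AT.lean; that theorem is for `T s`): `E.d = mat _ _ (ed ..)`, so `E.d.1 (gen' x) = ∑ y, (inc y).1 ((ed x y).1 (gΦ _)) = ∑ y, (inc y).1 (rho _ (z x y) (gΦ _)) = ∑ y, rho E.A (z x y) (gen' y)`, `z x y = s.d x y - s.d x j₀ * ψ * s.d i₀ y` (`ed_T`, `hm_of`, `hom_rho`; for `mat` on `inc`: `pi_ext`, `entry_mat` or `sum_inc_prj`).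
* `elimA_ret`: `obtain ⟨i₀, j₀, ψ, e, hψ, hl, hd⟩ := h`; `iso_of_gens s' E b`, `b i = gen' (e i)`: free: `isFree_reindex e (((T s).elim ..).gen_free)`, `isFree_congr` (`hl`); differential: `elim_eq`, `Equiv.sum_comp e`, `hd`.  `elim_ret (T s) i₀ j₀ _ (inv_T hψ)` and `Ret.of_iso`, `Ret.trans`.
* `elimA_N`: `Fintype.card_congr e` and `elim_card (T s) i₀ j₀ _ (inv_T hψ)` (`Fintype.card_fin`; `(T s).I = Fin s.N`, `((T s).elim ..).I = {i // ..}`).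
* `exists_elimA`: `¬ Reduced s` gives `i₀`, `j₀`, `ψ` with `IsInv`; `N = Fintype.card {i : Fin s.N // i ≠ i₀ ∧ i ≠ j₀}`, `e = (Fintype.equivFin _).symm`; `s' = ⟨N, fun i => s.lab (e i), fun i => s.deg (e i), fun i j => z (e i) (e j), ..⟩`: `hom`: `isHom_sub`, `isHom_mul`; `d_deg`: `z ≠ 0` gives `s.d i j ≠ 0` or (`s.d i j₀ ≠ 0` and `s.d i₀ j ≠ 0`): in the second case `deg j₀ = deg i + 1`, `deg j = deg i₀ + 1`, and `s.d i₀ j₀ ≠ 0` (otherwise `idm = 0`: `s.d i j₀ = s.d i j₀ * idm (lab j₀) = s.d i j₀ * (ψ * 0) = 0`: use `h.2`), `deg j₀ = deg i₀ + 1`;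
 or use `elim_deg (T s) ..` with `ed_T` (`hm_inj`: the entry is not `0`).  `d_d`: `mat_dd E _ b hb _ hom hd`.
* `reducedA`: if `((T s).d i j).1 = (hm .. (s.d i j)).1` is bijective, `exists_isInv (s.hom i j)` contradicts `h i j`. -/

set_option autoImplicit false
set_option linter.unusedVariables false
set_option linter.unusedSectionVars false

namespace Pool.Agent.Lib.MP_f2e65a_lc.Alg

variable {k : Type} [Field k] {l : ℕ}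

theorem inv_T {s : ASt k l} {i₀ j₀ : Fin s.N} {ψ : Cob k l}
    (h : IsInv (s.lab i₀) (s.lab j₀) (s.d i₀ j₀) ψ) :
    Inv (T s) i₀ j₀ (hm (s.lab j₀) (s.lab i₀) ψ) :=
  ⟨(hm_inv (s.hom i₀ j₀) h).1, (hm_inv (s.hom i₀ j₀) h).2⟩

theorem ed_T {s : ASt k l} {i₀ j₀ : Fin s.N} {ψ : Cob k l}
    (h : IsInv (s.lab i₀) (s.lab j₀) (s.d i₀ j₀) ψ) (i j : Fin s.N) :
    (T s).ed i₀ j₀ (hm (s.lab j₀) (s.lab i₀) ψ) i j =
      hm (s.lab i) (s.lab j) (s.d i j - s.d i j₀ * ψ * s.d i₀ j) := by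
  have h1 := hm_mul (isHom_mul (s.hom i j₀) h.1) (s.hom i₀ j)
  have h2 := hm_mul (s.hom i j₀) h.1
  rw [hm_sub, h1, h2]
  rfl

private theorem AElim_hom {s : ASt k l} {i₀ j₀ : Fin s.N} {ψ : Cob k l}
    (h : IsInv (s.lab i₀) (s.lab j₀) (s.d i₀ j₀) ψ) (i j : Fin s.N) :
    IsHom (s.lab i) (s.lab j) (s.d i j - s.d i j₀ * ψ * s.d i₀ j) :=
  isHom_sub (s.hom i j) (isHom_mul (isHom_mul (s.hom i j₀) h.1) (s.hom i₀ j))

private theorem AElim_mat_inc {P Q I J : Type} [Fintype P] [DecidableEq P] [Fintype Q]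
    [DecidableEq Q] [Fintype I] [DecidableEq I] [Fintype J] [DecidableEq J]
    (A : I → BN k P Q) (B : J → BN k P Q) (d : ∀ i j, Hom (A i) (B j)) (i : I) (m : (A i).M) :
    (mat A B d).1 ((inc A i).1 m) = ∑ j, (inc B j).1 ((d i j).1 m) := by
  refine pi_ext B fun j => ?_
  have h1 : (MP_f2e65a_lc.prj B j).1 ((mat A B d).1 ((inc A i).1 m)) = (d i j).1 m := by
    have h2 := entry_mat A B d i j
    exact congrArg (fun F => F.1 m) h2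
  rw [h1, map_sum, Finset.sum_eq_single j]
  · exact (congrArg (fun F => F.1 ((d i j).1 m)) (prj_inc B j)).symm
  · intro j' _ h
    exact congrArg (fun F => F.1 ((d i j').1 m)) (prj_inc_ne B h.symm)
  · intro h
    exact absurd (Finset.mem_univ j) h

private theorem AElim_eq {s : ASt k l} {i₀ j₀ : Fin s.N} {ψ : Cob k l}
    (h : IsInv (s.lab i₀) (s.lab j₀) (s.d i₀ j₀) ψ)
    (x : {i : Fin s.N // i ≠ i₀ ∧ i ≠ j₀}) :
    ((T s).elim i₀ j₀ (hm (s.lab j₀) (s.lab i₀) ψ) (inv_T h)).tot.d.1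
        (((T s).elim i₀ j₀ (hm (s.lab j₀) (s.lab i₀) ψ) (inv_T h)).gen x) =
      ∑ y : {i : Fin s.N // i ≠ i₀ ∧ i ≠ j₀},
        rho ((T s).elim i₀ j₀ (hm (s.lab j₀) (s.lab i₀) ψ) (inv_T h)).tot.A
          (s.d x.1 y.1 - s.d x.1 j₀ * ψ * s.d i₀ y.1)
          (((T s).elim i₀ j₀ (hm (s.lab j₀) (s.lab i₀) ψ) (inv_T h)).gen y) := by
  refine (AElim_mat_inc (fun i : {i : Fin s.N // i ≠ i₀ ∧ i ≠ j₀} => Φ k (s.lab i.1))
    (fun i : {i : Fin s.N // i ≠ i₀ ∧ i ≠ j₀} => Φ k (s.lab i.1))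
    (fun i j => (T s).ed i₀ j₀ (hm (s.lab j₀) (s.lab i₀) ψ) i.1 j.1) x
    (gΦ k (s.lab x.1))).trans ?_
  refine Finset.sum_congr rfl fun y _ => ?_
  have h1 : ((T s).ed i₀ j₀ (hm (s.lab j₀) (s.lab i₀) ψ) x.1 y.1).1 (gΦ k (s.lab x.1)) =
      rho (Φ k (s.lab y.1)) (s.d x.1 y.1 - s.d x.1 j₀ * ψ * s.d i₀ y.1) (gΦ k (s.lab y.1)) :=
    (congrArg (fun F => F.1 (gΦ k (s.lab x.1))) (ed_T h x.1 y.1)).trans
      (hm_of (AElim_hom h x.1 y.1))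
  refine (congrArg (fun n => (inc (fun i : {i : Fin s.N // i ≠ i₀ ∧ i ≠ j₀} =>
    Φ k (s.lab i.1)) y).1 n) h1).trans ?_
  exact hom_rho (inc (fun i : {i : Fin s.N // i ≠ i₀ ∧ i ≠ j₀} => Φ k (s.lab i.1)) y) _ _

private theorem AElim_sum {s : ASt k l} {i₀ j₀ : Fin s.N} {ψ : Cob k l} {N : ℕ}
    (e : Fin N ≃ {i : Fin s.N // i ≠ i₀ ∧ i ≠ j₀})
    (h : IsInv (s.lab i₀) (s.lab j₀) (s.d i₀ j₀) ψ) (i : Fin N) :
    ((T s).elim i₀ j₀ (hm (s.lab j₀) (s.lab i₀) ψ) (inv_T h)).tot.d.1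
        (((T s).elim i₀ j₀ (hm (s.lab j₀) (s.lab i₀) ψ) (inv_T h)).gen (e i)) =
      ∑ j : Fin N,
        rho ((T s).elim i₀ j₀ (hm (s.lab j₀) (s.lab i₀) ψ) (inv_T h)).tot.A
          (s.d (e i).1 (e j).1 - s.d (e i).1 j₀ * ψ * s.d i₀ (e j).1)
          (((T s).elim i₀ j₀ (hm (s.lab j₀) (s.lab i₀) ψ) (inv_T h)).gen (e j)) :=
  (AElim_eq h (e i)).trans (Equiv.sum_comp e fun y =>
    rho ((T s).elim i₀ j₀ (hm (s.lab j₀) (s.lab i₀) ψ) (inv_T h)).tot.A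
      (s.d (e i).1 y.1 - s.d (e i).1 j₀ * ψ * s.d i₀ y.1)
      (((T s).elim i₀ j₀ (hm (s.lab j₀) (s.lab i₀) ψ) (inv_T h)).gen y)).symm

private theorem AElim_free {s : ASt k l} {i₀ j₀ : Fin s.N} {ψ : Cob k l} {N : ℕ}
    (e : Fin N ≃ {i : Fin s.N // i ≠ i₀ ∧ i ≠ j₀})
    (h : IsInv (s.lab i₀) (s.lab j₀) (s.d i₀ j₀) ψ) :
    IsFree (fun i : Fin N => s.lab (e i).1)
      ((T s).elim i₀ j₀ (hm (s.lab j₀) (s.lab i₀) ψ) (inv_T h)).tot.A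
      (fun i => ((T s).elim i₀ j₀ (hm (s.lab j₀) (s.lab i₀) ψ) (inv_T h)).gen (e i)) :=
  isFree_reindex e ((T s).elim i₀ j₀ (hm (s.lab j₀) (s.lab i₀) ψ) (inv_T h)).gen_free

theorem elimA_ret {s s' : ASt k l} (h : Elim s s') :
    Ret (T s').tot (T s).tot ∧ Ret (T s).tot (T s').tot := by
  obtain ⟨i₀, j₀, ψ, e, hψ, hl, hd⟩ := h
  have h1 := AElim_free e hψ
  have h2 : IsFree s'.lab ((T s).elim i₀ j₀ (hm (s.lab j₀) (s.lab i₀) ψ) (inv_T hψ)).tot.A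
      (fun i => ((T s).elim i₀ j₀ (hm (s.lab j₀) (s.lab i₀) ψ) (inv_T hψ)).gen (e i)) :=
    isFree_congr h1 (fun i => (hl i).1.symm) fun i => rfl
  have h3 := iso_of_gens s' ((T s).elim i₀ j₀ (hm (s.lab j₀) (s.lab i₀) ψ) (inv_T hψ)).tot
    (fun i => ((T s).elim i₀ j₀ (hm (s.lab j₀) (s.lab i₀) ψ) (inv_T hψ)).gen (e i)) h2
    (fun i => by
      refine (AElim_sum e hψ i).trans (Finset.sum_congr rfl fun j _ => ?_)
      rw [hd i j])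
  have h4 := Ret.of_iso h3
  have h5 := elim_ret (T s) i₀ j₀ _ (inv_T hψ)
  exact ⟨h4.1.trans h5.1, h5.2.trans h4.2⟩

theorem elimA_N {s s' : ASt k l} (h : Elim s s') : s'.N + 2 = s.N := by
  obtain ⟨i₀, j₀, ψ, e, hψ, hl, hd⟩ := h
  have h1 : Fintype.card (Fin s'.N) = Fintype.card {i : Fin s.N // i ≠ i₀ ∧ i ≠ j₀} :=
    Fintype.card_congr e
  have h2 : Fintype.card {i : Fin s.N // i ≠ i₀ ∧ i ≠ j₀} + 2 = Fintype.card (Fin s.N) :=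
    elim_card (T s) i₀ j₀ _ (inv_T hψ)
  rw [Fintype.card_fin] at h1 h2
  omega

theorem exists_elimA {s : ASt k l} (h : ¬ Reduced s) : ∃ s' : ASt k l, Elim s s' := by
  have h' : ∃ i₀ j₀ ψ, IsInv (s.lab i₀) (s.lab j₀) (s.d i₀ j₀) ψ := by
    by_contra hc
    exact h fun i j ψ hi => hc ⟨i, j, ψ, hi⟩
  obtain ⟨i₀, j₀, ψ, hψ⟩ := h'
  obtain ⟨N, ⟨e⟩⟩ : ∃ N : ℕ, Nonempty (Fin N ≃ {i : Fin s.N // i ≠ i₀ ∧ i ≠ j₀}) :=
    ⟨_, ⟨(Fintype.equivFin _).symm⟩⟩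
  refine ⟨{ N := N
            lab := fun i => s.lab (e i).1
            deg := fun i => s.deg (e i).1
            d := fun i j => s.d (e i).1 (e j).1 - s.d (e i).1 j₀ * ψ * s.d i₀ (e j).1
            hom := fun i j => AElim_hom hψ _ _
            d_deg := fun i j hij => ?_
            d_d := fun i j => ?_ }, i₀, j₀, ψ, e, hψ, fun i => ⟨rfl, rfl⟩, fun i j => rfl⟩
  · exact elim_deg (T s) i₀ j₀ _ (inv_T hψ) (e i).1 (e j).1 fun h0 =>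
      hij (hm_inj (AElim_hom hψ _ _) ((ed_T hψ _ _).symm.trans h0))
  · exact mat_dd ((T s).elim i₀ j₀ (hm (s.lab j₀) (s.lab i₀) ψ) (inv_T hψ)).tot
      (fun i => s.lab (e i).1) _ (AElim_free e hψ)
      (fun i j => s.d (e i).1 (e j).1 - s.d (e i).1 j₀ * ψ * s.d i₀ (e j).1)
      (fun i j => AElim_hom hψ _ _) (fun i => AElim_sum e hψ i) i j

theorem reducedA {s : ASt k l} (h : Reduced s) : MP_f2e65a_lc.Reduced (T s) := by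
  intro i j hb
  obtain ⟨ψ, hψ⟩ := exists_isInv (s.hom i j) hb
  exact h i j ψ hψ

end Pool.Agent.Lib.MP_f2e65a_lc.Alg
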