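import Pool.Agent.Lib.MP_f2e65a_lc.ARel

/-! # AFin: the algebra of dotted cobordisms is finite-dimensional (job AFin: all)

Work with submodules of `R = Cob k l`; `Submodule k R` is a semiring (`Submodule.mul`, `Submodule.mul_le`, `Submodule.mul_mem_mul`, `mul_assoc`; `Submodule.FG.mul`, `Submodule.fg_span`, `Submodule.fg_span_singleton`, `Submodule.span_mul_span`).
* For `j : ℕ` let `V j = span ({1} ∪ {dot a | a.1 = j} ∪ {sad a r | a.1 = j ∧ r.1 < j})` (finite set), `W 0 = 1` (`= span {1}`: `Submodule.one_eq_span`), `W (j + 1) = V j * W j`.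
 Claim `C j`: for all `p, r : Fin l` with `p.1 < j`, `r.1 < j` and `w ∈ W j`: `dot p * w ∈ W j` and `sad p r * w ∈ W j`.  Induction: `j = 0` is empty.  Step: `w ∈ V j * W j`, by `Submodule.mul_induction_on` / `Submodule.span_induction` we may assume `w = v * w'`, `v ∈ {1, dot a, sad a t}`, `w' ∈ W j`, `a.1 = j`, `t.1 < j`.
 - `dot a * (v * w')`: `v = 1`: in `V j * W j`; `v = dot a`: `0` (`dot_sq`); `v = sad a t`: `dot a * sad a t = dot t * sad a t = sad a t * dot t` (`dot_sad_eq`, `dot_sad`), `dot t * w' ∈ W j` by induction.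
 - `dot p`, `p.1 < j`: `dot p` commutes with `v` (`dot_dot`, `dot_sad`), `dot p * w' ∈ W j`.
 - `sad a r`, `r.1 < j`: `v = 1`: clear.  `v = dot a`: `sad a r * dot a = dot a * sad a r = dot r * sad a r = sad a r * dot r`.  `v = sad a r`: `sad_sq`: `dot a * w' + dot r * w'` (the second in `W j ⊆ V j * W j` since `1 ∈ V j`).  `v = sad a t`, `t ≠ r`: `sad a r * sad a t = sad a t * sad t r`: from `sad_sad_sad` with `(p, r, t) := (t, a, r)`: `sad a r * sad t a = sad t a * sad t r`; and `sad t a = sad a t`.
 - `sad p r` with `p.1, r.1 < j`, (`p = r`: `sad_self`): `v = 1`: clear; `v = dot a`: `dot_sad`; `v = sad a t`, `t ∉ {p, r}`: `sad_sad`; `v = sad a r`: `sad p r * sad a r = sad r p * sad a r = sad a r * sad a p` (`sad_sad_sad` with `(a, r, p)`) `= sad a p * sad p r` (the identity just shown), `sad p r * w' ∈ W j`; `v = sad a p`: the same, by `sad_symm`.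
 - `sad r a` with `r.1 < j`, `a.1 = j`: `sad_symm`.
 So `W l` is stable under left multiplication by all `dot p`, `sad p r`; `1 ∈ W j` for all `j`; `W j` is finitely generated.
* `U = span {prj p q}`.  `U * V j ≤ V j * U`: `prj p q * 1 = 1 * prj p q`, `prj p q * dot a = dot a * prj p q` (`dot_prj`), `prj p q * sad a t = sad a t * prj (swap a t p) q` (`sad_prj_swap` with `t := swap a t p`, `Equiv.swap_apply_self`-like).  So `U * W j ≤ W j * U` by induction (`U V W ≤ V U W ≤ V W U`).
* `B = (span {1, prj p₁ q₁}) * (span {1, prj p₂ q₂}) * …` over the list of all pairs (`Finset.univ.toList : List (Fin l × Fin l)`): define `B : List (Fin l × Fin l) → Submodule k R`, `B [] = 1`, `B (a :: L) = span {1, prj a.1 a.2} * B L`.  For `c ∈ L`: `prj c.1 c.2 * b ∈ B L` for `b ∈ B L`: if `c = a`: `prj_idem`; otherwise commute (`prj_prj`) and induct.  `1 ∈ B L`.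
* `T = W l * B univ`: finitely generated, `1 ∈ T`, stable under left multiplication by `dot p`, `sad p r` (`(dot p * w) * b`) and by `prj p q`: `prj p q * w ∈ U * W l ≤ W l * U`, and `U * B ≤ B`.  So `T` is stable under left multiplication by every `y` (`cob_ind` with `C y := ∀ t ∈ T, y * t ∈ T`), hence `T = ⊤` (`y = y * 1`), and `Module.finite_def.2` (`(⊤ : Submodule k R).FG`). -/

set_option autoImplicit false
set_option linter.unusedVariables false
set_option linter.unusedSectionVars false

namespace Pool.Agent.Lib.MP_f2e65a_lc.Alg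

variable {k : Type} [Field k] {l : ℕ}

private theorem afin_mul {R : Type} [Ring R] [Algebra k R] (y : R) (G : Set R)
    (W X : Submodule k R) (h : ∀ v ∈ G, ∀ w ∈ W, y * (v * w) ∈ X) :
    ∀ x ∈ Submodule.span k G * W, y * x ∈ X := by
  intro x hx
  induction hx using Submodule.mul_induction_on' with
  | mem_mul_mem v hv w hw =>
    induction hv using Submodule.span_induction with
    | mem v hv => exact h v hv w hw
    | zero => rw [zero_mul, mul_zero]; exact X.zero_mem
    | add a b _ _ ha hb => rw [add_mul, mul_add]; exact X.add_mem ha hb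
    | smul c a _ ha => rw [smul_mul_assoc, mul_smul_comm]; exact X.smul_mem c ha
  | add a _ b _ ha hb => rw [mul_add]; exact X.add_mem ha hb

/-- the generators of the factor `j` -/
private def afinG (k : Type) [Field k] (l j : ℕ) : Set (Cob k l) :=
  {1} ∪ (dot '' {a : Fin l | a.1 = j} ∪
    (fun x : Fin l × Fin l => sad x.1 x.2) '' {x : Fin l × Fin l | x.1.1 = j ∧ x.2.1 < j})

private theorem afinG_finite (j : ℕ) : (afinG k l j).Finite :=
  (Set.finite_singleton _).union (((Set.toFinite _).image _).union ((Set.toFinite _).image _))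

private theorem afinG_one (j : ℕ) : (1 : Cob k l) ∈ afinG k l j := Or.inl rfl

private theorem afinG_dot {j : ℕ} {a : Fin l} (ha : a.1 = j) : (dot a : Cob k l) ∈ afinG k l j :=
  Or.inr (Or.inl ⟨a, ha, rfl⟩)

private theorem afinG_sad {j : ℕ} {a t : Fin l} (ha : a.1 = j) (ht : t.1 < j) :
    (sad a t : Cob k l) ∈ afinG k l j :=
  Or.inr (Or.inr ⟨(a, t), ⟨ha, ht⟩, rfl⟩)

private theorem afinG_cases {j : ℕ} {v : Cob k l} (hv : v ∈ afinG k l j) :
    v = 1 ∨ (∃ a : Fin l, a.1 = j ∧ v = dot a) ∨
      ∃ a t : Fin l, a.1 = j ∧ t.1 < j ∧ v = sad a t := by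
  rcases hv with hv | ⟨a, ha, rfl⟩ | ⟨⟨a, t⟩, ⟨ha, ht⟩, rfl⟩
  · exact Or.inl hv
  · exact Or.inr (Or.inl ⟨a, ha, rfl⟩)
  · exact Or.inr (Or.inr ⟨a, t, ha, ht, rfl⟩)

private noncomputable def afinW (k : Type) [Field k] (l : ℕ) : ℕ → Submodule k (Cob k l)
  | 0 => 1
  | j + 1 => Submodule.span k (afinG k l j) * afinW k l j

private theorem afinW_succ (j : ℕ) :
    afinW k l (j + 1) = Submodule.span k (afinG k l j) * afinW k l j := rfl

private theorem afinW_mem {j : ℕ} {v w : Cob k l} (hv : v ∈ afinG k l j) (hw : w ∈ afinW k l j) :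
    v * w ∈ afinW k l (j + 1) :=
  Submodule.mul_mem_mul (Submodule.subset_span hv) hw

private theorem afinW_le {j : ℕ} {w : Cob k l} (hw : w ∈ afinW k l j) : w ∈ afinW k l (j + 1) := by
  have h := afinW_mem (afinG_one j) hw
  rwa [one_mul] at h

private theorem afinW_one (j : ℕ) : (1 : Cob k l) ∈ afinW k l j := by
  induction j with
  | zero => exact Submodule.one_le.1 le_rfl
  | succ j ih => exact afinW_le ih

private theorem afinW_fg (j : ℕ) : (afinW k l j).FG := by
  induction j with
  | zero =>
    show (1 : Submodule k (Cob k l)).FG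
    rw [Submodule.one_eq_span]
    exact Submodule.fg_span_singleton _
  | succ j ih => exact (Submodule.fg_span (afinG_finite j)).mul ih

/-- the basic identity for two saddles at the same end -/
private theorem afin_ss {a r t : Fin l} (har : a ≠ r) (hat : a ≠ t) (hrt : r ≠ t) :
    (sad a r * sad a t : Cob k l) = sad a t * sad t r := by
  have h := sad_sad_sad (k := k) (p := t) (r := a) (t := r) hat.symm har hrt.symm
  rwa [sad_symm t a] at h

private theorem afinW_stab (j : ℕ) :
    (∀ p : Fin l, p.1 < j → ∀ w ∈ afinW k l j, dot p * w ∈ afinW k l j) ∧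
    (∀ p r : Fin l, p.1 < j → r.1 < j → ∀ w ∈ afinW k l j, sad p r * w ∈ afinW k l j) := by
  induction j with
  | zero => exact ⟨fun p hp => absurd hp (Nat.not_lt_zero _), fun p r hp => absurd hp (Nat.not_lt_zero _)⟩
  | succ j ih =>
    obtain ⟨ih1, ih2⟩ := ih
    -- dots
    have hd1 : ∀ p : Fin l, p.1 < j → ∀ w ∈ afinW k l (j + 1), dot p * w ∈ afinW k l (j + 1) := by
      intro p hp
      refine afin_mul _ _ _ _ fun v hv w hw => ?_
      rcases afinG_cases hv with rfl | ⟨a, ha, rfl⟩ | ⟨a, t, ha, ht, rfl⟩
      · rw [one_mul]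
        exact afinW_le (ih1 p hp w hw)
      · rw [← mul_assoc, dot_dot, mul_assoc]
        exact afinW_mem (afinG_dot ha) (ih1 p hp w hw)
      · rw [← mul_assoc, dot_sad, mul_assoc]
        exact afinW_mem (afinG_sad ha ht) (ih1 p hp w hw)
    have hd2 : ∀ a : Fin l, a.1 = j → ∀ w ∈ afinW k l (j + 1), dot a * w ∈ afinW k l (j + 1) := by
      intro a ha
      refine afin_mul _ _ _ _ fun v hv w hw => ?_
      rcases afinG_cases hv with rfl | ⟨a', ha', rfl⟩ | ⟨a', t, ha', ht, rfl⟩
      · rw [one_mul]
        exact afinW_mem (afinG_dot ha) hw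
      · have e : a = a' := Fin.ext (ha.trans ha'.symm)
        subst e
        rw [← mul_assoc, dot_sq, zero_mul]
        exact Submodule.zero_mem _
      · have e : a = a' := Fin.ext (ha.trans ha'.symm)
        subst e
        rw [← mul_assoc, dot_sad_eq, dot_sad, mul_assoc]
        exact afinW_mem (afinG_sad ha ht) (ih1 t ht w hw)
    -- saddles
    have hs1 : ∀ a r : Fin l, a.1 = j → r.1 < j → ∀ w ∈ afinW k l (j + 1),
        sad a r * w ∈ afinW k l (j + 1) := by
      intro a r ha hr
      refine afin_mul _ _ _ _ fun v hv w hw => ?_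
      rcases afinG_cases hv with rfl | ⟨a', ha', rfl⟩ | ⟨a', t, ha', ht, rfl⟩
      · rw [one_mul]
        exact afinW_mem (afinG_sad ha hr) hw
      · have e : a = a' := Fin.ext (ha.trans ha'.symm)
        subst e
        rw [← mul_assoc, ← dot_sad, dot_sad_eq, dot_sad, mul_assoc]
        exact afinW_mem (afinG_sad ha hr) (ih1 r hr w hw)
      · have e : a = a' := Fin.ext (ha.trans ha'.symm)
        subst e
        have har : a ≠ r := fun h => by rw [h] at ha; omega
        have hat : a ≠ t := fun h => by rw [h] at ha; omega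
        by_cases hrt : r = t
        · subst hrt
          rw [← mul_assoc, sad_sq har, add_mul]
          exact Submodule.add_mem _ (afinW_mem (afinG_dot ha) hw) (afinW_le (ih1 r hr w hw))
        · rw [← mul_assoc, afin_ss har hat hrt, mul_assoc]
          exact afinW_mem (afinG_sad ha ht) (ih2 t r ht hr w hw)
    have hs2 : ∀ p r : Fin l, p.1 < j → r.1 < j → ∀ w ∈ afinW k l (j + 1),
        sad p r * w ∈ afinW k l (j + 1) := by
      intro p r hp hr
      by_cases hpr : p = r
      · subst hpr
        intro w _
        rw [sad_self, zero_mul]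
        exact Submodule.zero_mem _
      refine afin_mul _ _ _ _ fun v hv w hw => ?_
      rcases afinG_cases hv with rfl | ⟨a, ha, rfl⟩ | ⟨a, t, ha, ht, rfl⟩
      · rw [one_mul]
        exact afinW_le (ih2 p r hp hr w hw)
      · rw [← mul_assoc, ← dot_sad, mul_assoc]
        exact afinW_mem (afinG_dot ha) (ih2 p r hp hr w hw)
      · have hap : a ≠ p := fun h => by rw [h] at ha; omega
        have har : a ≠ r := fun h => by rw [h] at ha; omega
        by_cases htr : t = r
        · subst htr
          have e : (sad p t * sad a t : Cob k l) = sad a p * sad p t := by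
            rw [sad_symm p t, sad_sad_sad har (Ne.symm hpr) hap, afin_ss har hap (Ne.symm hpr),
              sad_symm t p]
          rw [← mul_assoc, e, mul_assoc]
          exact afinW_mem (afinG_sad ha hp) (ih2 p t hp hr w hw)
        · by_cases htp : t = p
          · subst htp
            have e : (sad t r * sad a t : Cob k l) = sad a r * sad r t := by
              rw [sad_sad_sad hap hpr har, afin_ss hap har hpr]
            rw [← mul_assoc, e, mul_assoc]
            exact afinW_mem (afinG_sad ha hr) (ih2 r t hr hp w hw)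
          · rw [← mul_assoc, sad_sad (Ne.symm hap) (Ne.symm htp) (Ne.symm har) (Ne.symm htr),
              mul_assoc]
            exact afinW_mem (afinG_sad ha ht) (ih2 p r hp hr w hw)
    refine ⟨?_, ?_⟩
    · intro p hp
      rcases Nat.lt_succ_iff_lt_or_eq.1 hp with hp | hp
      · exact hd1 p hp
      · exact hd2 p hp
    · intro p r hp hr
      rcases Nat.lt_succ_iff_lt_or_eq.1 hp with hp | hp
      · rcases Nat.lt_succ_iff_lt_or_eq.1 hr with hr | hr
        · exact hs2 p r hp hr
        · rw [sad_symm p r]
          exact hs1 r p hr hp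
      · rcases Nat.lt_succ_iff_lt_or_eq.1 hr with hr | hr
        · exact hs1 p r hp hr
        · have e : p = r := Fin.ext (hp.trans hr.symm)
          subst e
          intro w _
          rw [sad_self, zero_mul]
          exact Submodule.zero_mem _

private def afinU (k : Type) [Field k] (l : ℕ) : Submodule k (Cob k l) :=
  Submodule.span k (Set.range fun x : Fin l × Fin l => prj x.1 x.2)

private theorem afinU_mem (p q : Fin l) : (prj p q : Cob k l) ∈ afinU k l :=
  Submodule.subset_span ⟨(p, q), rfl⟩

private theorem afinW_prj (j : ℕ) : ∀ p q : Fin l, ∀ w ∈ afinW k l j,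
    prj p q * w ∈ afinW k l j * afinU k l := by
  induction j with
  | zero =>
    intro p q w hw
    have hw1 : w ∈ (1 : Submodule k (Cob k l)) := hw
    obtain ⟨c, rfl⟩ := Submodule.mem_one.1 hw1
    rw [← Algebra.commutes]
    exact Submodule.mul_mem_mul hw (afinU_mem p q)
  | succ j ih =>
    intro p q
    have key : ∀ v ∈ afinG k l j, ∀ w ∈ afinW k l j, ∀ p' : Fin l,
        v * (prj p' q * w) ∈ afinW k l (j + 1) * afinU k l := by
      intro v hv w hw p'
      rw [afinW_succ, mul_assoc]
      exact Submodule.mul_mem_mul (Submodule.subset_span hv) (ih p' q w hw)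
    refine afin_mul _ _ _ _ fun v hv w hw => ?_
    have hv' := hv
    rcases afinG_cases hv with rfl | ⟨a, ha, rfl⟩ | ⟨a, t, ha, ht, rfl⟩
    · have h := key 1 hv' w hw p
      rwa [one_mul] at h ⊢
    · rw [← mul_assoc, ← dot_prj, mul_assoc]
      exact key _ hv' w hw p
    · have e : (prj p q * sad a t : Cob k l) = sad a t * prj (Equiv.swap a t p) q := by
        rw [sad_prj_swap, Equiv.swap_apply_self]
      rw [← mul_assoc, e, mul_assoc]
      exact key _ hv' w hw _

private noncomputable def afinB (k : Type) [Field k] (l : ℕ) :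
    List (Fin l × Fin l) → Submodule k (Cob k l)
  | [] => 1
  | a :: L => Submodule.span k {1, prj a.1 a.2} * afinB k l L

private theorem afinB_one (L : List (Fin l × Fin l)) : (1 : Cob k l) ∈ afinB k l L := by
  induction L with
  | nil => exact Submodule.one_le.1 le_rfl
  | cons a L ih =>
    have h : (1 : Cob k l) * 1 ∈ Submodule.span k {1, prj a.1 a.2} * afinB k l L :=
      Submodule.mul_mem_mul (Submodule.subset_span (Or.inl rfl)) ih
    rwa [one_mul] at h

private theorem afinB_fg (L : List (Fin l × Fin l)) : (afinB k l L).FG := by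
  induction L with
  | nil =>
    show (1 : Submodule k (Cob k l)).FG
    rw [Submodule.one_eq_span]
    exact Submodule.fg_span_singleton _
  | cons a L ih => exact (Submodule.fg_span ((Set.finite_singleton _).insert _)).mul ih

private theorem afinB_stab (L : List (Fin l × Fin l)) : ∀ c ∈ L, ∀ b ∈ afinB k l L,
    prj c.1 c.2 * b ∈ afinB k l L := by
  induction L with
  | nil =>
    intro c hc
    exact absurd hc List.not_mem_nil
  | cons a L ih =>
    intro c hc
    have hmem : ∀ v ∈ ({1, prj a.1 a.2} : Set (Cob k l)), ∀ b ∈ afinB k l L,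
        v * b ∈ afinB k l (a :: L) := fun v hv b hb =>
      Submodule.mul_mem_mul (Submodule.subset_span hv) hb
    refine afin_mul _ _ _ _ fun v hv w hw => ?_
    by_cases hca : c = a
    · subst hca
      rcases hv with rfl | hv
      · rw [one_mul]
        exact hmem _ (Or.inr rfl) w hw
      · have hv' : v = prj c.1 c.2 := hv
        rw [hv', ← mul_assoc, prj_idem]
        exact hmem _ (Or.inr rfl) w hw
    · have hcL : c ∈ L := by
        rcases List.mem_cons.1 hc with h | h
        · exact absurd h hca
        · exact h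
      have hvc : prj c.1 c.2 * v = v * prj c.1 c.2 := by
        rcases hv with rfl | hv
        · rw [one_mul, mul_one]
        · have hv' : v = prj a.1 a.2 := hv
          rw [hv', prj_prj]
      rw [← mul_assoc, hvc, mul_assoc]
      exact hmem v hv _ (ih c hcL w hw)

private theorem afin_stab {R : Type} [Ring R] [Algebra k R] {y : R} {W B : Submodule k R}
    (h : ∀ w ∈ W, y * w ∈ W) : ∀ t ∈ W * B, y * t ∈ W * B := by
  intro t ht
  induction ht using Submodule.mul_induction_on' with
  | mem_mul_mem w hw b hb =>
    rw [← mul_assoc]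
    exact Submodule.mul_mem_mul (h w hw) hb
  | add a _ b _ ha hb => rw [mul_add]; exact Submodule.add_mem _ ha hb

theorem cob_finite (k : Type) [Field k] (l : ℕ) : FiniteDimensional k (Cob k l) := by
  obtain ⟨B, hB⟩ : ∃ B : Submodule k (Cob k l),
      B = afinB k l (Finset.univ : Finset (Fin l × Fin l)).toList := ⟨_, rfl⟩
  have hUB : afinU k l * B ≤ B := by
    rw [Submodule.mul_le]
    intro u hu b hb
    unfold afinU at hu
    induction hu using Submodule.span_induction with
    | mem u hu =>
      obtain ⟨x, rfl⟩ := hu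
      rw [hB] at hb ⊢
      exact afinB_stab _ x (Finset.mem_toList.2 (Finset.mem_univ x)) b hb
    | zero => rw [zero_mul]; exact B.zero_mem
    | add u u' _ _ h h' => rw [add_mul]; exact B.add_mem h h'
    | smul c u _ h => rw [smul_mul_assoc]; exact B.smul_mem c h
  have hT : ∀ y t : Cob k l, t ∈ afinW k l l * B → y * t ∈ afinW k l l * B := by
    intro y
    refine cob_ind (C := fun y => ∀ t, t ∈ afinW k l l * B → y * t ∈ afinW k l l * B) y
      ?_ ?_ ?_ ?_ ?_ ?_
    · intro c t ht
      rw [← Algebra.smul_def]
      exact Submodule.smul_mem _ c ht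
    · intro p
      exact afin_stab ((afinW_stab l).1 p p.2)
    · intro p r
      exact afin_stab ((afinW_stab l).2 p r p.2 r.2)
    · intro p q t ht
      induction ht using Submodule.mul_induction_on' with
      | mem_mul_mem w hw b hb =>
        rw [← mul_assoc]
        have h1 : prj p q * w * b ∈ afinW k l l * afinU k l * B :=
          Submodule.mul_mem_mul (afinW_prj l p q w hw) hb
        rw [mul_assoc (afinW k l l)] at h1
        exact mul_le_mul_right hUB _ h1
      | add a _ b _ ha hb => rw [mul_add]; exact Submodule.add_mem _ ha hb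
    · intro a b ha hb t ht
      rw [mul_assoc]
      exact ha _ (hb t ht)
    · intro a b ha hb t ht
      rw [add_mul]
      exact Submodule.add_mem _ (ha t ht) (hb t ht)
  have h1 : (1 : Cob k l) ∈ afinW k l l * B := by
    have h : (1 : Cob k l) * 1 ∈ afinW k l l * B :=
      Submodule.mul_mem_mul (afinW_one l) (by rw [hB]; exact afinB_one _)
    rwa [one_mul] at h
  have htop : afinW k l l * B = ⊤ := by
    rw [eq_top_iff]
    intro y _
    have h := hT y 1 h1
    rwa [mul_one] at h
  refine Module.finite_def.2 ?_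
  rw [← htop]
  refine (afinW_fg l).mul ?_
  rw [hB]
  exact afinB_fg _

end Pool.Agent.Lib.MP_f2e65a_lc.Alg
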