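import Pool.Agent.Lib.MP_f2e65a_lc.AT
import Pool.Agent.Lib.MP_f2e65a_lc.ALab
import Pool.Agent.Lib.MP_f2e65a_lc.AArc

/-! # AFr: reindexing of free generators, gradings -/

set_option autoImplicit false
set_option linter.unusedVariables false
set_option linter.unusedSectionVars false

namespace Pool.Agent.Lib.MP_f2e65a_lc.Alg

variable {k : Type} [Field k] {l : ℕ}

theorem isFree_reindex {I J : Type} (ε : J ≃ I) {lab : I → Equiv.Perm (Fin l)}
    {A : BN k (Fin l) (Fin l)} {g : I → A.M} (h : IsFree lab A g) :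
    IsFree (fun j => lab (ε j)) A (fun j => g (ε j)) where
  mem j := h.mem (ε j)
  hom B m hm := by
    have hm' : ∀ i, m (ε.symm i) ∈ clo B (lab i) := fun i => by
      have h1 := hm (ε.symm i)
      rwa [ε.apply_symm_apply] at h1
    obtain ⟨f, hf⟩ := h.hom B (fun i => m (ε.symm i)) hm'
    exact ⟨f, fun j => by rw [hf, ε.symm_apply_apply]⟩
  ext B f f' hff := h.ext B f f' fun i => by
    have h1 := hff (ε.symm i)
    rwa [ε.apply_symm_apply] at h1

theorem isFree_congr {I : Type} {lab lab' : I → Equiv.Perm (Fin l)}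
    {A : BN k (Fin l) (Fin l)} {g g' : I → A.M} (h : IsFree lab A g)
    (hl : ∀ i, lab i = lab' i) (hg : ∀ i, g i = g' i) : IsFree lab' A g' := by
  have h1 : lab = lab' := funext hl
  have h2 : g = g' := funext hg
  rwa [h1, h2] at h

/-- the projections to the degrees -/
noncomputable def gr (s : ASt k l) (t : ℤ) : Hom (T s).tot.A (T s).tot.A :=
  grP (fun i => Φ k (s.lab i)) s.deg t

theorem gr_gen (s : ASt k l) (t : ℤ) (i : Fin s.N) :
    (gr s t).1 ((T s).gen i) = (if s.deg i = t then (1 : k) else 0) • (T s).gen i := by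
  have h0 : cmp (grP (fun i => Φ k (s.lab i)) s.deg t) (inc (fun i => Φ k (s.lab i)) i) =
      if s.deg i = t then inc (fun i => Φ k (s.lab i)) i else 0 := by
    unfold grP
    rw [sum_cmp, Finset.sum_eq_single i]
    · by_cases h : s.deg i = t
      · rw [if_pos h, if_pos h, cmp_assoc, prj_inc, cmp_id]
      · rw [if_neg h, if_neg h, zero_cmp]
    · intro j _ hj
      by_cases h : s.deg j = t
      · rw [if_pos h, cmp_assoc, prj_inc_ne _ hj, cmp_zero]
      · rw [if_neg h, zero_cmp]
    · intro h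
      exact absurd (Finset.mem_univ i) h
  refine (congrArg (fun F => F.1 (gΦ k (s.lab i))) h0).trans ?_
  by_cases h1 : s.deg i = t
  · rw [if_pos h1, if_pos h1, one_smul]
    rfl
  · rw [if_neg h1, if_neg h1, zero_smul]
    rfl

theorem gr_cmp (s : ASt k l) (t : ℤ) :
    cmp (T s).tot.d (gr s t) = cmp (gr s (t + 1)) (T s).tot.d := by
  refine gr_comm (fun i => Φ k (s.lab i)) s.deg _ (fun i j hij => ?_) t
  refine (T s).d_deg i j fun h0 => hij ?_
  exact (entry_mat _ _ (T s).d i j).trans h0

end Pool.Agent.Lib.MP_f2e65a_lc.Alg
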