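import Pool.Agent.Lib.MP_f2e65a_lc.AFr

/-! # AHdim: the homology of a complex without ends (job AHdim: both theorems)

`l = 0`, `A = (T s).tot.A`, `δ = (T s).tot.d.1`, `gen = (T s).gen`.
* `cob_zero`: every `y : Cob k 0` is `algebraMap k _ c` (`cob_ind`; `Fin 0` is empty: `Fin.elim0`; products and sums: `map_mul`, `map_add`), so `rho A y m = c • m`.
* `idm a = 1` (`List.ofFn` over `Fin 0` is `[]`).  `clo A a = ⊤` (no `p`).
* `Ψ : (Fin s.N → Cob k 0) →ₗ[k] A.M`, `Ψ v = ∑ j, rho A (v j) (gen j)` (build it with `map_add'`, `map_smul'`: `rho_add`, `rho_smul`): injective by `coef_unique (T s).gen_free`.  Every `m : A.M` is `∑ i, rho A (y i) (gen i) = ∑ i, c i • gen i` (`coef_exists` with any `a`, `cob_zero`).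
* `Module.finrank k A.M = s.N`: `A.M = ∀ i, (Φ k (s.lab i)).M`, `Module.finrank_pi_fintype`, `(Φ_good k a).dim : .. = (Fintype.card (Fin 0) + 1)! = 1` (see `closed_state` in XMain.lean).
* `range δ = (span (Set.range s.d)).map Ψ`: `δ (gen i) = Ψ (s.d i)` (`tot_d`), `δ m = ∑ i, c i • Ψ (s.d i)`; conversely `Submodule.map_span_le` / `Submodule.map_span`.  So `finrank (range δ) = finrank (span (Set.range s.d))` (`(Submodule.equivMapOfInjective Ψ hΨ _).finrank_eq`).
* `hd δ = finrank (ker δ) - finrank (range δ)` (definition of `hd`), `finrank (range δ) + finrank (ker δ) = finrank A.M = s.N` (`LinearMap.finrank_range_add_finrank_ker`), `hdim s = s.N - 2 * finrank (span (Set.range s.d))`: `omega`. -/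

set_option autoImplicit false
set_option linter.unusedVariables false
set_option linter.unusedSectionVars false

namespace Pool.Agent.Lib.MP_f2e65a_lc.Alg

variable {k : Type} [Field k]

theorem cob_zero (y : Cob k 0) : ∃ c : k, y = algebraMap k (Cob k 0) c := by
  refine cob_ind (C := fun y => ∃ c : k, y = algebraMap k (Cob k 0) c) y ?_ ?_ ?_ ?_ ?_ ?_
  · intro c
    exact ⟨c, rfl⟩
  · intro p
    exact Fin.elim0 p
  · intro p
    exact Fin.elim0 p
  · intro p
    exact Fin.elim0 p
  · rintro a b ⟨c, rfl⟩ ⟨c', rfl⟩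
    exact ⟨c * c', by rw [map_mul]⟩
  · rintro a b ⟨c, rfl⟩ ⟨c', rfl⟩
    exact ⟨c + c', by rw [map_add]⟩

private theorem ahdim_idm (a : Equiv.Perm (Fin 0)) : (idm a : Cob k 0) = 1 := by
  unfold idm
  rw [List.ofFn_zero, List.prod_nil]

private noncomputable def ahdimP (s : ASt k 0) :
    (Fin s.N → Cob k 0) →ₗ[k] (T s).tot.A.M where
  toFun v := ∑ j, rho (T s).tot.A (v j) ((T s).gen j)
  map_add' v w := by
    rw [← Finset.sum_add_distrib]
    exact Finset.sum_congr rfl fun j _ => rho_add _ _ _ _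
  map_smul' c v := by
    rw [RingHom.id_apply, Finset.smul_sum]
    exact Finset.sum_congr rfl fun j _ => rho_smul _ _ _ _

private theorem ahdimP_apply (s : ASt k 0) (v : Fin s.N → Cob k 0) :
    ahdimP s v = ∑ j, rho (T s).tot.A (v j) ((T s).gen j) := rfl

private theorem ahdimP_inj (s : ASt k 0) : Function.Injective (ahdimP s) := by
  rw [← LinearMap.ker_eq_bot, LinearMap.ker_eq_bot']
  intro v hv
  refine funext fun i => ?_
  exact coef_unique (T s).gen_free (fun i => by rw [ahdim_idm, mul_one]) hv i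

private theorem ahdimP_span (s : ASt k 0) (m : (T s).tot.A.M) :
    ∃ c : Fin s.N → k, m = ∑ i, c i • (T s).gen i := by
  obtain ⟨y, _, hy⟩ := coef_exists (T s).gen_free (a := Equiv.refl (Fin 0)) (m := m)
    (fun p => Fin.elim0 p)
  choose c hc using fun i => cob_zero (y i)
  refine ⟨c, hy.trans (Finset.sum_congr rfl fun i _ => ?_)⟩
  rw [hc i, AlgHom.commutes]
  rfl

private theorem ahdim_range (s : ASt k 0) : LinearMap.range (T s).tot.d.1 =
    (Submodule.span k (Set.range s.d)).map (ahdimP s) := by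
  have h0 : ∀ i : Fin s.N, (T s).tot.d.1 ((T s).gen i) = ahdimP s (s.d i) := fun i => tot_d s i
  refine le_antisymm ?_ ?_
  · rintro _ ⟨m, rfl⟩
    obtain ⟨c, hc⟩ := ahdimP_span s m
    rw [hc, map_sum]
    refine Submodule.sum_mem _ fun i _ => ?_
    rw [map_smul]
    refine Submodule.smul_mem _ _ ?_
    rw [h0]
    exact Submodule.mem_map_of_mem (Submodule.subset_span ⟨i, rfl⟩)
  · rw [Submodule.map_span, Submodule.span_le]
    rintro _ ⟨_, ⟨i, rfl⟩, rfl⟩
    exact ⟨(T s).gen i, h0 i⟩

private theorem ahdim_fin (s : ASt k 0) : Module.finrank k (T s).tot.A.M = s.N := by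
  have hdim : ∀ i : Fin s.N, Module.finrank k (Φ k (s.lab i)).M = 1 := fun i =>
    (Φ_good k (s.lab i)).dim.trans (by simp)
  change Module.finrank k (∀ i : Fin s.N, (Φ k (s.lab i)).M) = s.N
  rw [Module.finrank_pi_fintype, Finset.sum_congr rfl fun i _ => hdim i, Finset.sum_const,
    Finset.card_univ, smul_eq_mul, mul_one, Fintype.card_fin]

theorem hd_T (s : ASt k 0) : hd (T s).tot.d.1 = hdim s := by
  have h1 : Module.finrank k (LinearMap.range (T s).tot.d.1) =
      Module.finrank k (Submodule.span k (Set.range s.d)) := by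
    rw [ahdim_range]
    exact (Submodule.equivMapOfInjective (ahdimP s) (ahdimP_inj s) _).finrank_eq.symm
  have h2 := LinearMap.finrank_range_add_finrank_ker (T s).tot.d.1
  rw [ahdim_fin] at h2
  unfold hd hdim
  rw [← h1]
  omega

end Pool.Agent.Lib.MP_f2e65a_lc.Alg
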