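import Pool.Agent.Lib.MP_f2e65a_lc.AIdm

/-! # AHm: cobordisms and morphisms of free modules (job AHm: all theorems)

`hm a b y : Hom (Φ k a) (Φ k b)` is the morphism with `gΦ k a ↦ rho (Φ k b) (idm a * y) (gΦ k b)`.  Two morphisms from `Φ k a` are equal if they agree on `gΦ k a`: `(Φ_free k a).ext _ f f' (fun _ => h)`.
* `hm_of`: `IsHom a b y` gives `idm a * y = y` (`isHom_iff`).
* `hm_add`, …: `mul_add`, `rho_add`, ….
* `hm_mul`: on `gΦ k a`: left side: `rho (Φ k c) (y * z) g` (`hm_of`, `isHom_mul`); right side: `(hm b c z).1 (rho (Φ k b) y (gΦ k b)) = rho (Φ k c) y ((hm b c z).1 (gΦ k b))` (`hom_rho`) `= rho (Φ k c) y (rho (Φ k c) z (gΦ k c))` (`rho_mul`).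
* `hm_idm`: `rho (Φ k a) (idm a) (gΦ k a) = gΦ k a` (`rho_idm`, `(Φ_free k a).mem ()`).
* `hm_inj`: `rho (Φ k b) y (gΦ k b) = 0`.  `idm b ∈ clo (reg k l) b` (`(reg k l).E p q m = prj p q * m` is definitional, `prj_idm`), so there is `f : Hom (Φ k b) (reg k l)` with `f.1 (gΦ k b) = idm b` (`(Φ_free k b).hom`), and `0 = f.1 (rho _ y (gΦ k b)) = rho (reg k l) y (idm b) = y * idm b = y` (`hom_rho`, `rho_reg`, `isHom_iff`).
* `hm_surj`: `W = {rho (Φ k b) y (gΦ k b) | y}` (range of the linear map `y ↦ rho (Φ k b) y (gΦ k b)`: `LinearMap.range` of `(LinearMap.applyₗ (gΦ k b)) ∘ₗ (rho _).toLinearMap`) is `Closed` (`rho_dot`, `rho_sad`, `rho_prj`, `rho_mul`), contains `gΦ k b` (`rho_one`), which is not in `rad` (`(Φ_good k b).g_not`), so `W = ⊤` (`(Φ_good k b).gen`).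
 So `f.1 (gΦ k a) = rho _ y' (gΦ k b)`; let `y = idm a * y' * idm b` (`isHom_mid`): `rho _ y (gΦ k b) = rho _ (idm a) (rho _ y' (rho _ (idm b) (gΦ k b))) = rho _ (idm a) (f.1 (gΦ k a)) = f.1 (gΦ k a)` since `f.1 (gΦ k a) ∈ clo (Φ k b) a` (`f.2.2.2`, `(Φ_free k a).mem ()`).
* `hm_inv`: `hm_mul`, `hm_idm` and `IsInv`.
* `exists_isInv`: the inverse of the bijective `f = (hm a b y).1` (`LinearEquiv.ofBijective`) is a morphism `g` (apply `f` to both sides, injectivity); `g = hm b a ψ` with `IsHom b a ψ` (`hm_surj`); `hm a a (y * ψ) = cmp g f = idH = hm a a (idm a)`, so `hm a a (y * ψ - idm a) = 0` (`hm_sub`) and `y * ψ = idm a` by `hm_inj`; similarly `ψ * y = idm b`.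
* `finrank_isHom_le`: the linear map `V → Hom (Φ k a) (Φ k b)`, `y ↦ hm a b y`, is injective (`hm_inj`), so `Module.finrank k V ≤ Module.finrank k (Hom _ _) ≤ 2 ^ l` (`LinearMap.finrank_le_finrank_of_injective`, `finrank_hom_le`, `Fintype.card_fin`; `hm_smul`). -/

set_option autoImplicit false
set_option linter.unusedVariables false
set_option linter.unusedSectionVars false

namespace Pool.Agent.Lib.MP_f2e65a_lc.Alg

variable {k : Type} [Field k] {l : ℕ}

private theorem ahm_aux (a : Equiv.Perm (Fin l)) (y : Cob k l) :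
    (idm a * (idm a * y) : Cob k l) = idm a * y := by
  rw [← mul_assoc, idm_idm]

/-- the morphism of free modules given by a cobordism -/
noncomputable def hm (a b : Equiv.Perm (Fin l)) (y : Cob k l) : Hom (Φ k a) (Φ k b) :=
  ((Φ_free k a).hom (Φ k b) (fun _ => rho (Φ k b) (idm a * y) (gΦ k b))
    (fun _ => rho_clo (Φ k b) (ahm_aux a y) _)).choose

theorem hm_g (a b : Equiv.Perm (Fin l)) (y : Cob k l) :
    (hm a b y).1 (gΦ k a) = rho (Φ k b) (idm a * y) (gΦ k b) :=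
  ((Φ_free k a).hom (Φ k b) (fun _ => rho (Φ k b) (idm a * y) (gΦ k b))
    (fun _ => rho_clo (Φ k b) (ahm_aux a y) _)).choose_spec ()

variable {a b c : Equiv.Perm (Fin l)} {y z ψ : Cob k l}

private theorem ahm_ext {a : Equiv.Perm (Fin l)} {B : BN k (Fin l) (Fin l)}
    {f f' : Hom (Φ k a) B} (h : f.1 (gΦ k a) = f'.1 (gΦ k a)) : f = f' :=
  (Φ_free k a).ext B f f' (fun _ => h)

private theorem ahm_gclo (a : Equiv.Perm (Fin l)) : gΦ k a ∈ clo (Φ k a) a :=
  (Φ_free k a).mem ()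

theorem hm_of (h : IsHom a b y) : (hm a b y).1 (gΦ k a) = rho (Φ k b) y (gΦ k b) := by
  rw [hm_g, (isHom_iff.1 h).1]

theorem hm_zero : hm a b (0 : Cob k l) = 0 := by
  refine ahm_ext ?_
  rw [hm_g, mul_zero, rho_zero]
  rfl

theorem hm_add : hm a b (y + z) = hm a b y + hm a b z := by
  refine ahm_ext ?_
  rw [hm_g, mul_add, rho_add, ← hm_g, ← hm_g]
  rfl

theorem hm_sub : hm a b (y - z) = hm a b y - hm a b z := by
  refine ahm_ext ?_
  rw [hm_g, mul_sub, rho_sub, ← hm_g, ← hm_g]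
  rfl

theorem hm_neg : hm a b (-y) = -hm a b y := by
  have h : (-y : Cob k l) = 0 - y := (zero_sub y).symm
  rw [h, hm_sub, hm_zero, zero_sub]

theorem hm_smul (r : k) : hm a b (r • y) = r • hm a b y := by
  refine ahm_ext ?_
  rw [hm_g, mul_smul_comm, rho_smul, ← hm_g]
  rfl

theorem hm_sum {J : Type} (s : Finset J) (y : J → Cob k l) :
    hm a b (∑ j ∈ s, y j) = ∑ j ∈ s, hm a b (y j) :=
  map_sum (AddMonoidHom.mk' (fun y : Cob k l => hm a b y) (fun _ _ => hm_add)) y s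

theorem hm_mul (h : IsHom a b y) (h' : IsHom b c z) :
    hm a c (y * z) = cmp (hm b c z) (hm a b y) := by
  refine ahm_ext ?_
  rw [hm_of (isHom_mul h h'), cmp_apply, hm_of h, hom_rho, hm_of h', rho_mul]

theorem hm_idm (a : Equiv.Perm (Fin l)) : hm a a (idm a : Cob k l) = idH (Φ k a) := by
  refine ahm_ext ?_
  rw [hm_g, idm_idm, rho_idm (ahm_gclo a)]
  rfl

theorem hm_inj (h : IsHom a b y) (h0 : hm a b y = 0) : y = 0 := by
  have h1 : rho (Φ k b) y (gΦ k b) = 0 := by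
    rw [← hm_of h, h0]
    rfl
  obtain ⟨f, hf⟩ := (Φ_free k b).hom (reg k l) (fun _ => (idm b : Cob k l))
    (fun _ p => prj_idm b p)
  have h2 := hom_rho f y (gΦ k b)
  rw [h1, map_zero, hf ()] at h2
  have h3 : rho (reg k l) y (idm b : Cob k l) = y := (rho_reg y (idm b)).trans (isHom_iff.1 h).2
  exact h3.symm.trans h2.symm

/-- the action on the generator as a linear map -/
private noncomputable def ahmR (b : Equiv.Perm (Fin l)) : Cob k l →ₗ[k] (Φ k b).M where
  toFun y := rho (Φ k b) y (gΦ k b)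
  map_add' y z := rho_add _ y z _
  map_smul' r y := rho_smul _ r y _

private theorem ahm_closed (b : Equiv.Perm (Fin l)) :
    Closed (Φ k b) (LinearMap.range (ahmR (k := k) b)) := by
  refine ⟨?_, ?_, ?_⟩
  · rintro p _ ⟨y, rfl⟩
    refine ⟨dot p * y, ?_⟩
    change rho (Φ k b) (dot p * y) (gΦ k b) = (Φ k b).x p (rho (Φ k b) y (gΦ k b))
    rw [rho_mul, rho_dot]
  · rintro p r _ hpr ⟨y, rfl⟩
    refine ⟨sad p r * y, ?_⟩
    change rho (Φ k b) (sad p r * y) (gΦ k b) = (Φ k b).S p r (rho (Φ k b) y (gΦ k b))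
    rw [rho_mul, rho_sad _ hpr]
  · rintro p q _ ⟨y, rfl⟩
    refine ⟨prj p q * y, ?_⟩
    change rho (Φ k b) (prj p q * y) (gΦ k b) = (Φ k b).E p q (rho (Φ k b) y (gΦ k b))
    rw [rho_mul, rho_prj]

private theorem ahm_onto (b : Equiv.Perm (Fin l)) (m : (Φ k b).M) :
    ∃ y : Cob k l, rho (Φ k b) y (gΦ k b) = m := by
  have h1 : LinearMap.range (ahmR (k := k) b) = ⊤ :=
    (Φ_good k b).gen _ (gΦ k b) (ahm_closed b) ⟨1, rho_one _ _⟩ (Φ_good k b).g_not
  have h2 : m ∈ LinearMap.range (ahmR (k := k) b) := by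
    rw [h1]
    exact Submodule.mem_top
  exact h2

theorem hm_surj (f : Hom (Φ k a) (Φ k b)) : ∃ y, IsHom a b y ∧ hm a b y = f := by
  obtain ⟨y', hy'⟩ := ahm_onto b (f.1 (gΦ k a))
  have hclo : f.1 (gΦ k a) ∈ clo (Φ k b) a := by
    intro p
    rw [← f.2.2.2, ahm_gclo a p]
  refine ⟨idm a * y' * idm b, isHom_mid a b y', ahm_ext ?_⟩
  rw [hm_of (isHom_mid a b y'), rho_mul, rho_mul, rho_idm (ahm_gclo b), hy', rho_idm hclo]

theorem hm_inv (hy : IsHom a b y) (h : IsInv a b y ψ) :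
    cmp (hm b a ψ) (hm a b y) = idH (Φ k a) ∧ cmp (hm a b y) (hm b a ψ) = idH (Φ k b) := by
  obtain ⟨h1, h2, h3⟩ := h
  constructor
  · rw [← hm_mul hy h1, h2, hm_idm]
  · rw [← hm_mul h1 hy, h3, hm_idm]

/-- the inverse of a bijective morphism -/
private noncomputable def ahmInv {A B : BN k (Fin l) (Fin l)} (f : Hom A B)
    (h : Function.Bijective f.1) : Hom B A :=
  ⟨((LinearEquiv.ofBijective f.1 h).symm : B.M →ₗ[k] A.M), by
    have e1 : ∀ m, f.1 ((LinearEquiv.ofBijective f.1 h).symm m) = m := fun m =>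
      LinearEquiv.apply_symm_apply (LinearEquiv.ofBijective f.1 h) m
    refine ⟨fun p m => ?_, fun p r m hpr => ?_, fun p q m => ?_⟩
    · refine h.1 ?_
      refine (e1 _).trans ?_
      refine Eq.trans ?_ (f.2.1 p _).symm
      exact congrArg (fun z => B.x p z) (e1 m).symm
    · refine h.1 ?_
      refine (e1 _).trans ?_
      refine Eq.trans ?_ (f.2.2.1 p r _ hpr).symm
      exact congrArg (fun z => B.S p r z) (e1 m).symm
    · refine h.1 ?_
      refine (e1 _).trans ?_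
      refine Eq.trans ?_ (f.2.2.2 p q _).symm
      exact congrArg (fun z => B.E p q z) (e1 m).symm⟩

private theorem ahmInv_left {A B : BN k (Fin l) (Fin l)} (f : Hom A B)
    (h : Function.Bijective f.1) : cmp (ahmInv f h) f = idH A :=
  hom_ext fun m => LinearEquiv.symm_apply_apply (LinearEquiv.ofBijective f.1 h) m

private theorem ahmInv_right {A B : BN k (Fin l) (Fin l)} (f : Hom A B)
    (h : Function.Bijective f.1) : cmp f (ahmInv f h) = idH B :=
  hom_ext fun m => LinearEquiv.apply_symm_apply (LinearEquiv.ofBijective f.1 h) m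

theorem exists_isInv (hy : IsHom a b y) (h : Function.Bijective (hm a b y).1) :
    ∃ ψ, IsInv a b y ψ := by
  obtain ⟨ψ, hψ, hψe⟩ := hm_surj (ahmInv (hm a b y) h)
  refine ⟨ψ, hψ, ?_, ?_⟩
  · have h1 : hm a a (y * ψ - idm a) = 0 := by
      rw [hm_sub, hm_mul hy hψ, hψe, ahmInv_left, hm_idm, sub_self]
    exact sub_eq_zero.1 (hm_inj (isHom_sub (isHom_mul hy hψ) (isHom_idm a)) h1)
  · have h1 : hm b b (ψ * y - idm b) = 0 := by
      rw [hm_sub, hm_mul hψ hy, hψe, ahmInv_right, hm_idm, sub_self]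
    exact sub_eq_zero.1 (hm_inj (isHom_sub (isHom_mul hψ hy) (isHom_idm b)) h1)

theorem finrank_isHom_le (V : Submodule k (Cob k l)) (h : ∀ y ∈ V, IsHom a b y) :
    Module.finrank k V ≤ 2 ^ l := by
  let L : V →ₗ[k] Hom (Φ k a) (Φ k b) :=
    { toFun := fun y => hm a b y.1
      map_add' := fun y z => hm_add
      map_smul' := fun r y => hm_smul r }
  have hL : Function.Injective L := by
    intro y z hyz
    have h1 : hm a b (y.1 - z.1) = 0 := by
      rw [hm_sub]
      exact sub_eq_zero.2 hyz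
    exact Subtype.ext (sub_eq_zero.1 (hm_inj (h _ (V.sub_mem y.2 z.2)) h1))
  have h2 := (LinearMap.finrank_le_finrank_of_injective hL).trans (finrank_hom_le k a b)
  rwa [Fintype.card_fin] at h2

end Pool.Agent.Lib.MP_f2e65a_lc.Alg
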