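import Pool.Agent.Lib.MP_f2e65a_lc.ARho

/-! # AIdm: identity cobordisms and morphisms (job AIdm: all)

`idm α = (List.ofFn fun p => prj p (α p)).prod`.
* General lemma (private), in a monoid: if `L` is a list, `a ∈ L`, `a * a = a` and `a * b = b * a` for all `b ∈ L` then `a * L.prod = L.prod` and `L.prod * a = L.prod` (induction on `L`; for the second one first `L.prod * a = a * L.prod`: `a` commutes with the product).  Apply it to `List.ofFn`, `a = prj p (α p)` (`List.mem_ofFn`, `prj_idem`, `prj_prj`): `prj_idm`, `idm_prj`.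
* General lemma: if `a * y = y` for all `a ∈ L` then `L.prod * y = y`; if `y * a = y` for all `a ∈ L` then `y * L.prod = y`.  So `idm_of`, `of_idm`.
* `isHom_iff`: `→` `idm_of`, `of_idm`; `←`: `prj p (α p) * y = prj p (α p) * (idm α * y) = idm α * y = y`.
* the other lemmas on `IsHom`: from `isHom_iff` or directly from the definition.
* `rho_idm`: `m ∈ clo A α`: `A.E p (α p) m = m` for all `p`; general lemma: if `rho A a m = m` for all `a ∈ L` then `rho A L.prod m = m` (`rho_mul`, `rho_one`, `rho_prj`).
* `rho_clo`: `A.E p (α p) (rho A y m) = rho A (prj p (α p) * y) m` (`rho_prj`, `rho_mul`), and `prj p (α p) * y = prj p (α p) * (idm α * y) = idm α * y = y`. -/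

set_option autoImplicit false
set_option linter.unusedVariables false
set_option linter.unusedSectionVars false

namespace Pool.Agent.Lib.MP_f2e65a_lc.Alg

private theorem list_comm {M : Type} [Monoid M] (L : List M) (a : M)
    (h : ∀ b ∈ L, a * b = b * a) : a * L.prod = L.prod * a := by
  induction L with
  | nil => rw [List.prod_nil, mul_one, one_mul]
  | cons b L ih =>
    rw [List.prod_cons, ← mul_assoc, h b (List.mem_cons_self ..), mul_assoc, mul_assoc,
      ih fun c hc => h c (List.mem_cons_of_mem _ hc)]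

private theorem list_left {M : Type} [Monoid M] (L : List M) (a : M) (ha : a ∈ L)
    (haa : a * a = a) (h : ∀ b ∈ L, a * b = b * a) : a * L.prod = L.prod := by
  induction L with
  | nil => exact absurd ha (List.not_mem_nil)
  | cons b L ih =>
    rw [List.prod_cons]
    rcases List.mem_cons.1 ha with h1 | h1
    · rw [← mul_assoc, ← h1, haa]
    · rw [← mul_assoc, h b (List.mem_cons_self ..), mul_assoc,
        ih h1 fun c hc => h c (List.mem_cons_of_mem _ hc)]

private theorem list_fixL {M : Type} [Monoid M] (L : List M) (y : M)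
    (h : ∀ a ∈ L, a * y = y) : L.prod * y = y := by
  induction L with
  | nil => rw [List.prod_nil, one_mul]
  | cons b L ih =>
    rw [List.prod_cons, mul_assoc, ih fun c hc => h c (List.mem_cons_of_mem _ hc),
      h b (List.mem_cons_self ..)]

private theorem list_fixR {M : Type} [Monoid M] (L : List M) (y : M)
    (h : ∀ a ∈ L, y * a = y) : y * L.prod = y := by
  induction L with
  | nil => rw [List.prod_nil, mul_one]
  | cons b L ih =>
    rw [List.prod_cons, ← mul_assoc, h b (List.mem_cons_self ..),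
      ih fun c hc => h c (List.mem_cons_of_mem _ hc)]

variable {k : Type} [Field k] {l : ℕ}

private theorem mem_idm {α : Equiv.Perm (Fin l)} {b : Cob k l}
    (h : b ∈ List.ofFn fun p => prj (k := k) p (α p)) : ∃ p, prj p (α p) = b := by
  rw [List.mem_ofFn'] at h
  exact h

theorem prj_idm (α : Equiv.Perm (Fin l)) (p : Fin l) :
    (prj p (α p) * idm α : Cob k l) = idm α := by
  refine list_left _ _ ?_ (prj_idem p (α p)) ?_
  · rw [List.mem_ofFn']
    exact ⟨p, rfl⟩
  · intro b hb
    obtain ⟨q, rfl⟩ := mem_idm hb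
    exact prj_prj _ _ _ _

theorem idm_prj (α : Equiv.Perm (Fin l)) (p : Fin l) :
    (idm α * prj p (α p) : Cob k l) = idm α := by
  have h : (prj p (α p) * idm α : Cob k l) = idm α * prj p (α p) := by
    refine list_comm _ _ ?_
    intro b hb
    obtain ⟨q, rfl⟩ := mem_idm hb
    exact prj_prj _ _ _ _
  rw [← h, prj_idm]

theorem idm_of {α : Equiv.Perm (Fin l)} {y : Cob k l} (h : ∀ p, prj p (α p) * y = y) :
    idm α * y = y := by
  refine list_fixL _ _ ?_
  intro b hb
  obtain ⟨q, rfl⟩ := mem_idm hb
  exact h q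

theorem of_idm {α : Equiv.Perm (Fin l)} {y : Cob k l} (h : ∀ p, y * prj p (α p) = y) :
    y * idm α = y := by
  refine list_fixR _ _ ?_
  intro b hb
  obtain ⟨q, rfl⟩ := mem_idm hb
  exact h q

theorem isHom_iff {α β : Equiv.Perm (Fin l)} {y : Cob k l} :
    IsHom α β y ↔ idm α * y = y ∧ y * idm β = y := by
  constructor
  · intro h
    exact ⟨idm_of fun p => (h p).1, of_idm fun p => (h p).2⟩
  · intro h p
    constructor
    · rw [← h.1, ← mul_assoc, prj_idm]
    · rw [← h.2, mul_assoc, idm_prj]

theorem isHom_idm (α : Equiv.Perm (Fin l)) : IsHom α α (idm α : Cob k l) :=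
  fun p => ⟨prj_idm α p, idm_prj α p⟩

theorem idm_idm (α : Equiv.Perm (Fin l)) : (idm α * idm α : Cob k l) = idm α :=
  idm_of fun p => prj_idm α p

theorem isHom_mid (α β : Equiv.Perm (Fin l)) (y : Cob k l) :
    IsHom α β (idm α * y * idm β) := by
  intro p
  constructor
  · rw [← mul_assoc, ← mul_assoc, prj_idm]
  · rw [mul_assoc, idm_prj]

theorem isHom_zero (α β : Equiv.Perm (Fin l)) : IsHom α β (0 : Cob k l) :=
  fun p => ⟨mul_zero _, zero_mul _⟩

theorem isHom_add {α β : Equiv.Perm (Fin l)} {y z : Cob k l} (hy : IsHom α β y)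
    (hz : IsHom α β z) : IsHom α β (y + z) := by
  intro p
  constructor
  · rw [mul_add, (hy p).1, (hz p).1]
  · rw [add_mul, (hy p).2, (hz p).2]

theorem isHom_sub {α β : Equiv.Perm (Fin l)} {y z : Cob k l} (hy : IsHom α β y)
    (hz : IsHom α β z) : IsHom α β (y - z) := by
  intro p
  constructor
  · rw [mul_sub, (hy p).1, (hz p).1]
  · rw [sub_mul, (hy p).2, (hz p).2]

theorem isHom_neg {α β : Equiv.Perm (Fin l)} {y : Cob k l} (hy : IsHom α β y) :
    IsHom α β (-y) := by
  intro p
  constructor
  · exact (mul_neg (prj p (α p)) y).trans (congrArg Neg.neg (hy p).1)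
  · exact (neg_mul y (prj p (β p))).trans (congrArg Neg.neg (hy p).2)

theorem isHom_mul {α β γ : Equiv.Perm (Fin l)} {y z : Cob k l} (hy : IsHom α β y)
    (hz : IsHom β γ z) : IsHom α γ (y * z) := by
  intro p
  constructor
  · rw [← mul_assoc, (hy p).1]
  · rw [mul_assoc, (hz p).2]

theorem isHom_sum {J : Type} {α β : Equiv.Perm (Fin l)} (s : Finset J) {y : J → Cob k l}
    (hy : ∀ j ∈ s, IsHom α β (y j)) : IsHom α β (∑ j ∈ s, y j) := by
  intro p
  constructor
  · rw [Finset.mul_sum]
    exact Finset.sum_congr rfl fun j hj => (hy j hj p).1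
  · rw [Finset.sum_mul]
    exact Finset.sum_congr rfl fun j hj => (hy j hj p).2

private theorem rho_list {A : BN k (Fin l) (Fin l)} {m : A.M} (L : List (Cob k l))
    (h : ∀ a ∈ L, rho A a m = m) : rho A L.prod m = m := by
  induction L with
  | nil => rw [List.prod_nil, rho_one]
  | cons b L ih =>
    rw [List.prod_cons, rho_mul, ih fun c hc => h c (List.mem_cons_of_mem _ hc),
      h b (List.mem_cons_self ..)]

theorem rho_idm {A : BN k (Fin l) (Fin l)} {α : Equiv.Perm (Fin l)} {m : A.M}
    (h : m ∈ clo A α) : rho A (idm α) m = m := by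
  refine rho_list _ ?_
  intro b hb
  obtain ⟨q, rfl⟩ := mem_idm hb
  rw [rho_prj]
  exact h q

theorem rho_clo (A : BN k (Fin l) (Fin l)) {α : Equiv.Perm (Fin l)} {y : Cob k l}
    (h : idm α * y = y) (m : A.M) : rho A y m ∈ clo A α := by
  intro p
  rw [← rho_prj, ← rho_mul]
  have h1 : prj p (α p) * y = y := by
    rw [← h, ← mul_assoc, prj_idm]
  rw [h1]

end Pool.Agent.Lib.MP_f2e65a_lc.Alg
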