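import Pool.Agent.Lib.MP_f2e65a_lc.ARunC

/-! # AMain: the scanning algorithm is polynomial on torus links -/

set_option autoImplicit false
set_option linter.unusedVariables false
set_option linter.unusedSectionVars false

namespace Pool.Agent.Lib.MP_f2e65a_lc.Alg

private theorem amain_hdim {k : Type} [Field k] {σ : SOb k} (hl : σ.l = 0) {o : COb k}
    (h : Rel (TOb σ) o) : hdim σ.s = o.hdim := by
  obtain ⟨a, l, s⟩ := σ
  change l = 0 at hl
  subst hl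
  exact (hd_T s).symm.trans (hdim_rel h)

theorem main3 (k : Type) [Field k] (n : ℕ) (hn : 2 ≤ n) :
    (∀ (l : ℕ) (α β : Equiv.Perm (Fin l)) (V : Submodule k (Cob k l)),
      (∀ y ∈ V, IsHom α β y) → Module.Finite k V ∧ Module.finrank k V ≤ 2 ^ l) ∧
    ∃ C : ℕ, ∀ m : ℕ, 1 ≤ m →
      (∃ (σ : SOb k) (c M : ℕ), Scan k n m (m * (n - 1)) σ c M) ∧
      (∀ j ≤ m * (n - 1), ∀ (σ : SOb k) (c M : ℕ), Scan k n m j σ c M →
        M ≤ C * m ^ (n / 2) ∧ c ≤ C * m ^ (3 * (n / 2) + 1)) ∧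
      (∃ τ : SOb k, Cube k n m (m * (n - 1)) τ) ∧
      ∀ (σ τ : SOb k) (c M : ℕ), Scan k n m (m * (n - 1)) σ c M →
        Cube k n m (m * (n - 1)) τ → σ.l = 0 ∧ τ.l = 0 ∧ σ.s.N = hdim τ.s := by
  refine ⟨fun l α β V hV => ?_, ?_⟩
  · have := cob_finite k l
    exact ⟨inferInstance, finrank_isHom_le V hV⟩
  obtain ⟨C₁, hC₁⟩ := top_bound2 k n hn
  obtain ⟨u, hu⟩ : ∃ u, u = 6 * 243 ^ 3 * (16 * (2 ^ (n + 5)) ^ 3) := ⟨_, rfl⟩
  refine ⟨243 * (C₁ + 1) + u * (C₁ + 1) ^ 3 * (n - 1), fun m hm => ⟨?_, ?_, ?_, ?_⟩⟩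
  · exact scanA_exists n m hn hm _ le_rfl
  · intro j hj σ c M h
    have hmp : 1 ≤ m ^ (n / 2) := Nat.one_le_pow _ _ hm
    have ha : 1 ≤ (C₁ + 1) * m ^ (n / 2) := Nat.mul_pos (Nat.succ_pos _) hmp
    obtain ⟨h1, h2⟩ := scanA_size hn hm h _ ha hj (fun j' hj' => (hC₁ m j' hm (hj'.trans hj)).trans
      (Nat.mul_le_mul_right _ (Nat.le_succ _)))
    rw [← hu] at h2
    constructor
    · refine h1.trans ?_
      rw [← mul_assoc]
      exact Nat.mul_le_mul_right _ (Nat.le_add_right _ _)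
    · refine h2.trans ((Nat.mul_le_mul_left _ hj).trans ?_)
      have h3 : u * ((C₁ + 1) * m ^ (n / 2)) ^ 3 * (m * (n - 1)) =
          u * (C₁ + 1) ^ 3 * (n - 1) * m ^ (3 * (n / 2) + 1) := by
        rw [mul_pow, ← pow_mul, pow_succ m (3 * (n / 2)), mul_comm 3 (n / 2)]
        ring
      rw [h3]
      exact Nat.mul_le_mul_right _ (Nat.le_add_left _ _)
  · exact cube_exists n m hn hm _ le_rfl
  · intro σ τ c M h hτ
    have h0 : shL n m (m * (n - 1)) = 0 := by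
      unfold shL shA
      rw [if_pos rfl]
      refine Nat.sub_eq_zero_of_le ?_
      split_ifs
      · exact Nat.zero_le _
      · exact min_le_right _ _
    have hl : σ.l = 0 := (scanA_sh hn hm h).2.trans h0
    have hl' : τ.l = 0 := (cube_sh hn hm hτ).2.trans h0
    obtain ⟨h1, h2⟩ := closed_state (σ := TOb σ) hl (scanA_reduced h)
    refine ⟨hl, hl', ?_⟩
    rw [← TOb_card, ← h2, amain_hdim hl' (cube_rel hτ)]
    exact hdim_rel (scanA_rel h)

end Pool.Agent.Lib.MP_f2e65a_lc.Alg
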