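import Pool.Agent.Lib.MP_f2e65a_lc.ADefs

/-! # Relations in the algebra of dotted cobordisms -/

set_option autoImplicit false
set_option linter.unusedVariables false
set_option linter.unusedSectionVars false

namespace Pool.Agent.Lib.MP_f2e65a_lc.Alg

variable {k : Type} [Field k] {l : ℕ}

theorem mk_rel {a b : FreeAlgebra k (Gen l)} (h : BRel k l a b) : (mk a : Cob k l) = mk b :=
  RingQuot.mkAlgHom_rel k h

theorem mk_surj (y : Cob k l) : ∃ w : FreeAlgebra k (Gen l), mk w = y :=
  RingQuot.mkAlgHom_surjective k (BRel k l) y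

theorem dot_dot (p r : Fin l) : (dot p * dot r : Cob k l) = dot r * dot p := by
  have h := mk_rel (BRel.x_x (k := k) p r)
  rwa [map_mul, map_mul] at h

theorem dot_sq (p : Fin l) : (dot p * dot p : Cob k l) = 0 := by
  have h := mk_rel (BRel.x_sq (k := k) p)
  rwa [map_mul, map_zero] at h

theorem sad_self (p : Fin l) : (sad p p : Cob k l) = 0 := by
  have h := mk_rel (BRel.S_self (k := k) p)
  rwa [map_zero] at h

theorem sad_symm (p r : Fin l) : (sad p r : Cob k l) = sad r p :=
  mk_rel (BRel.S_symm (k := k) p r)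

theorem dot_sad (t p r : Fin l) : (dot t * sad p r : Cob k l) = sad p r * dot t := by
  have h := mk_rel (BRel.x_S (k := k) t p r)
  rwa [map_mul, map_mul] at h

theorem dot_sad_eq (p r : Fin l) : (dot p * sad p r : Cob k l) = dot r * sad p r := by
  have h := mk_rel (BRel.x_S_eq (k := k) p r)
  rwa [map_mul, map_mul] at h

theorem sad_sq {p r : Fin l} (h : p ≠ r) : (sad p r * sad p r : Cob k l) = dot p + dot r := by
  have h := mk_rel (BRel.S_sq (k := k) p r h)
  rwa [map_mul, map_add] at h

theorem sad_sad {p r t u : Fin l} (h1 : p ≠ t) (h2 : p ≠ u) (h3 : r ≠ t) (h4 : r ≠ u) :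
    (sad p r * sad t u : Cob k l) = sad t u * sad p r := by
  have h := mk_rel (BRel.S_S (k := k) p r t u h1 h2 h3 h4)
  rwa [map_mul, map_mul] at h

theorem sad_sad_sad {p r t : Fin l} (h1 : p ≠ r) (h2 : r ≠ t) (h3 : p ≠ t) :
    (sad r t * sad p r : Cob k l) = sad p r * sad p t := by
  have h := mk_rel (BRel.S_S_S (k := k) p r t h1 h2 h3)
  rwa [map_mul, map_mul] at h

theorem prj_prj (p q r s : Fin l) : (prj p q * prj r s : Cob k l) = prj r s * prj p q := by
  have h := mk_rel (BRel.E_E (k := k) p q r s)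
  rwa [map_mul, map_mul] at h

theorem prj_idem (p q : Fin l) : (prj p q * prj p q : Cob k l) = prj p q := by
  have h := mk_rel (BRel.E_idem (k := k) p q)
  rwa [map_mul] at h

theorem prj_row {p q s : Fin l} (h : q ≠ s) : (prj p q * prj p s : Cob k l) = 0 := by
  have h := mk_rel (BRel.E_row (k := k) p q s h)
  rwa [map_mul, map_zero] at h

theorem prj_col {p r q : Fin l} (h : p ≠ r) : (prj p q * prj r q : Cob k l) = 0 := by
  have h := mk_rel (BRel.E_col (k := k) p r q h)
  rwa [map_mul, map_zero] at h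

theorem prj_sum_row (p : Fin l) : (∑ q, prj p q : Cob k l) = 1 := by
  have h := mk_rel (BRel.sum_row (k := k) p)
  rwa [map_sum, map_one] at h

theorem prj_sum_col (q : Fin l) : (∑ p, prj p q : Cob k l) = 1 := by
  have h := mk_rel (BRel.sum_col (k := k) q)
  rwa [map_sum, map_one] at h

theorem dot_prj (t p q : Fin l) : (dot t * prj p q : Cob k l) = prj p q * dot t := by
  have h := mk_rel (BRel.x_E (k := k) t p q)
  rwa [map_mul, map_mul] at h

theorem sad_prj (p r q : Fin l) : (sad p r * prj p q : Cob k l) = prj r q * sad p r := by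
  have h := mk_rel (BRel.S_E (k := k) p r q)
  rwa [map_mul, map_mul] at h

theorem sad_prj' {p r t : Fin l} (q : Fin l) (h1 : t ≠ p) (h2 : t ≠ r) :
    (sad p r * prj t q : Cob k l) = prj t q * sad p r := by
  have h := mk_rel (BRel.S_E' (k := k) p r t q h1 h2)
  rwa [map_mul, map_mul] at h

/-- `sad p r` and `prj` in general -/
theorem sad_prj_swap (p r t q : Fin l) :
    (sad p r * prj t q : Cob k l) = prj (Equiv.swap p r t) q * sad p r := by
  by_cases h1 : t = p
  · subst h1
    rw [Equiv.swap_apply_left, sad_prj]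
  · by_cases h2 : t = r
    · subst h2
      rw [Equiv.swap_apply_right, sad_symm p t, sad_prj]
    · rw [Equiv.swap_apply_of_ne_of_ne h1 h2, sad_prj' q h1 h2]

/-- induction for cobordisms -/
theorem cob_ind {C : Cob k l → Prop} (y : Cob k l) (h1 : ∀ c : k, C (algebraMap k (Cob k l) c))
    (hx : ∀ p, C (dot p)) (hS : ∀ p r, C (sad p r)) (hE : ∀ p q, C (prj p q))
    (hm : ∀ a b, C a → C b → C (a * b)) (ha : ∀ a b, C a → C b → C (a + b)) : C y := by
  obtain ⟨w, rfl⟩ := mk_surj y
  induction w using FreeAlgebra.induction with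
  | grade0 c => rw [AlgHom.commutes]; exact h1 c
  | grade1 g => exact match g with
    | Gen.x p => hx p
    | Gen.S p r => hS p r
    | Gen.E p q => hE p q
  | mul a b h h' => rw [map_mul]; exact hm _ _ h h'
  | add a b h h' => rw [map_add]; exact ha _ _ h h'

end Pool.Agent.Lib.MP_f2e65a_lc.Alg
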