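import Pool.Agent.Lib.MP_f2e65a_lc.FreeC

/-! # XLab: invertible entries join equal flat tangles (job XLab: all)

* `rad_E`: the radical is stable under `E p q`: `E p q (x t m) = x t (E p q m)` (`x_E`); `E p q (S r s m)`, `r ≠ s`: if `p = s`: `= S r s (E r q m)` (`S_E`); if `p = r`: `S r s = S s r` (`S_symm`) and `S_E s r`; otherwise `S_E'`.  Use `rad_le` for the comap of `rad A` under `A.E p q`.
* `lab_eq_of_bij`: let `f` be bijective; suppose `a p ≠ b p`.  `y = f (gΦ a)`: `E p (a p) y = y` (`(Φ_free k a).mem ()`, `f.2.2.2`).  `(Φ_good k b).top y` gives `c` with `y - c • gΦ b ∈ rad`.  `E p (a p) (gΦ b) = E p (a p) (E p (b p) (gΦ b)) = 0` (`E_row`), so `y = E p (a p) (y - c • gΦ b) ∈ rad (Φ k b)`.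
 Then `f m ∈ rad` for all `m` (as in `hom_bij_or`, FreeC.lean), so `f` is not surjective (`g_not`).
* `hom_ne`: for `a ≠ b` every morphism has its values in the radical (`hom_bij_or`). -/

set_option autoImplicit false
set_option linter.unusedVariables false
set_option linter.unusedSectionVars false

namespace Pool.Agent.Lib.MP_f2e65a_lc

variable {k : Type} [Field k] {P Q : Type} [Fintype P] [DecidableEq P] [Fintype Q]
  [DecidableEq Q]

theorem rad_E (A : BN k P Q) (p : P) (q : Q) {m : A.M} (h : m ∈ rad A) : A.E p q m ∈ rad A := by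
  have h1 : rad A ≤ (rad A).comap (A.E p q) := by
    refine rad_le ?_ ?_
    · intro t m
      change A.E p q (A.x t m) ∈ rad A
      rw [← A.x_E]
      exact x_mem_rad A t _
    · intro t r m htr
      change A.E p q (A.S t r m) ∈ rad A
      by_cases h1 : p = r
      · subst h1
        rw [← A.S_E t p q m htr]
        exact S_mem_rad A htr _
      · by_cases h2 : p = t
        · subst h2
          rw [A.S_symm p r m htr, ← A.S_E r p q m htr.symm]
          exact S_mem_rad A htr.symm _
        · rw [← A.S_E' t r p q m htr h2 h1]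
          exact S_mem_rad A htr _
  exact h1 h

theorem lab_eq_of_bij {a b : P ≃ Q} (f : Hom (Φ k a) (Φ k b)) (h : Function.Bijective f.1) :
    a = b := by
  by_contra hne
  obtain ⟨p, hp⟩ : ∃ p, a p ≠ b p := by
    by_contra hall
    push Not at hall
    exact hne (Equiv.ext hall)
  have hy : (Φ k b).E p (a p) (f.1 (gΦ k a)) = f.1 (gΦ k a) := by
    rw [← f.2.2.2, (Φ_free k a).mem () p]
  obtain ⟨c, hc⟩ := (Φ_good k b).top (f.1 (gΦ k a))
  have h1 := rad_E (Φ k b) p (a p) hc
  have h2 : (Φ k b).E p (a p) (gΦ k b) = 0 := by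
    rw [← (Φ_free k b).mem () p]
    exact (Φ k b).E_row p (a p) (b p) _ hp
  rw [map_sub, map_smul, hy, h2, smul_zero, sub_zero] at h1
  have h3 : ∀ m, f.1 m ∈ rad (Φ k b) := by
    intro m
    obtain ⟨c, hc⟩ := (Φ_good k a).top m
    have h4 := map_mem_rad f hc
    rw [map_sub, map_smul] at h4
    have h5 := (rad (Φ k b)).add_mem h4 ((rad (Φ k b)).smul_mem c h1)
    rwa [sub_add_cancel] at h5
  obtain ⟨m, hm⟩ := h.2 (gΦ k b)
  apply (Φ_good k b).g_not
  rw [← hm]
  exact h3 m

end Pool.Agent.Lib.MP_f2e65a_lc
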