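import Pool.Agent.Lib.MP_f2e65a_lc.XTop

/-! # XTopB: bound for the number of generators (job XTopB; the proof is in the header of XTop.lean, item `top_bound2`) -/

set_option autoImplicit false
set_option linter.unusedVariables false
set_option linter.unusedSectionVars false

namespace Pool.Agent.Lib.MP_f2e65a_lc

private theorem XTopB_list (k : Type) [Field k] (n : ℕ) (hn : 2 ≤ n) (Y : Cx k (Fin n) (Fin n))
    (ts : List (Tst k (Fin n) (Fin n))) :
    ∃ C : ℕ, ∀ t : ℕ,
      (ts.map fun T => T.N (mid n t Y)).sum ≤ C * (t / (n - 1) + 1) ^ (n / 2) := by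
  induction ts with
  | nil => exact ⟨0, fun t => by simp⟩
  | cons T ts ih =>
    obtain ⟨C, hC⟩ := ih
    obtain ⟨D, hD⟩ := mid_growth k n hn Y T
    refine ⟨D + C, fun t => ?_⟩
    rw [List.map_cons, List.sum_cons, add_mul]
    exact Nat.add_le_add (hD t) (hC t)

private theorem XTopB_last (k : Type) [Field k] (n : ℕ) (hn : 2 ≤ n) (Y : Cx k (Fin n) (Fin n))
    (i : ℕ) : ∃ C : ℕ, ∀ t : ℕ,
      (evs (lastw n i) ⟨0, n, mid n t Y⟩ : COb k).topN ≤ C * (t / (n - 1) + 1) ^ (n / 2) := by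
  obtain ⟨ts, hts⟩ := pull_top (k := k) (lastw n i) 0 n
  obtain ⟨C, hC⟩ := XTopB_list k n hn Y ts
  exact ⟨C, fun t => (hts (mid n t Y)).trans (hC t)⟩

theorem top_bound2 (k : Type) [Field k] (n : ℕ) (hn : 2 ≤ n) : ∃ C : ℕ, ∀ m j : ℕ, 1 ≤ m →
    j ≤ m * (n - 1) → (linkCx k n m j).topN ≤ C * m ^ (n / 2) := by
  obtain ⟨Y, hY⟩ := link_Y k n hn
  obtain ⟨C3, hC3⟩ := mid_growth k n hn Y (topT k (Fin n) (Fin n))
  choose C4 hC4 using XTopB_last k n hn Y
  have hsum : ∀ (g : ℕ → ℕ) (i : ℕ), i ≤ n - 1 → g i ≤ ∑ j ∈ Finset.range n, g j := by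
    intro g i hi
    exact Finset.single_le_sum (f := g) (fun _ _ => Nat.zero_le _)
      (Finset.mem_range.2 (by omega))
  refine ⟨(∑ j ∈ Finset.range n, (linkCx k n 1 j).topN) +
    (∑ j ∈ Finset.range n, (linkCx k n 2 j).topN) + C3 + ∑ i ∈ Finset.range n, C4 i, ?_⟩
  intro m j hm hj
  have hpow : 1 ≤ m ^ (n / 2) := Nat.one_le_pow _ _ hm
  have hmono : ∀ A B : ℕ, A ≤ B → A ≤ B * m ^ (n / 2) := by
    intro A B h
    exact h.trans (Nat.le_mul_of_pos_right B hpow)
  rcases Nat.lt_or_ge m 2 with h1 | h2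
  · have hm1 : m = 1 := by omega
    subst hm1
    have h3 := hsum (fun j => (linkCx k n 1 j).topN) j (by omega)
    refine hmono _ _ (h3.trans ?_)
    omega
  · obtain ⟨q, rfl⟩ : ∃ q, m = q + 2 := ⟨m - 2, by omega⟩
    have e1 : q + 2 - 1 = q + 1 := by omega
    have e2 : q + 2 - 2 = q := by omega
    have e3 : (q + 2) * (n - 1) = (q + 1) * (n - 1) + (n - 1) := by ring
    have e4 : (q + 1) * (n - 1) = q * (n - 1) + (n - 1) := by ring
    have hN : 0 < n - 1 := by omega
    rcases Nat.le_total j (n - 1) with h3 | h3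
    · rw [link_first k n (q + 2) j hn h2 h3]
      have h4 := hsum (fun j => (linkCx k n 2 j).topN) j h3
      refine hmono _ _ (h4.trans ?_)
      omega
    · rcases Nat.le_total j ((q + 1) * (n - 1)) with h4 | h4
      · obtain ⟨t, rfl⟩ : ∃ t, j = n - 1 + t := ⟨j - (n - 1), by omega⟩
        have ht : t ≤ (q + 2 - 2) * (n - 1) := by
          rw [e2]
          omega
        rw [link_mid k n (q + 2) t hn h2 Y hY ht]
        rw [e2] at ht
        have h5 : t / (n - 1) ≤ q := Nat.div_le_of_le_mul (by rw [mul_comm]; exact ht)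
        have h6 : (t / (n - 1) + 1) ^ (n / 2) ≤ (q + 2) ^ (n / 2) :=
          Nat.pow_le_pow_left (by omega) _
        have h7 : (⟨0, n, mid n t Y⟩ : COb k).topN ≤ C3 * (t / (n - 1) + 1) ^ (n / 2) := hC3 t
        refine h7.trans (Nat.mul_le_mul ?_ h6)
        omega
      · obtain ⟨i, rfl⟩ : ∃ i, j = (q + 2 - 1) * (n - 1) + i := by
          rw [e1]
          exact ⟨j - (q + 1) * (n - 1), by omega⟩
        rw [e1] at hj
        have hi : i ≤ n - 1 := by omega
        rw [link_last k n (q + 2) i hn h2 Y hY hi]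
        have h5 := hC4 i ((q + 2 - 2) * (n - 1))
        have h6 : ((q + 2 - 2) * (n - 1) / (n - 1) + 1) ^ (n / 2) ≤ (q + 2) ^ (n / 2) := by
          rw [e2, Nat.mul_div_cancel _ hN]
          exact Nat.pow_le_pow_left (by omega) _
        refine h5.trans (Nat.mul_le_mul ?_ h6)
        have h7 := hsum C4 i hi
        omega

end Pool.Agent.Lib.MP_f2e65a_lc
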