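import Pool.Agent.Lib.MP_f2e65a_lc.XRunC
import Pool.Agent.Lib.MP_f2e65a_lc.XTopB

/-! # XMain: the scanning algorithm is polynomial on torus links (job XMain: all)

* `closed_state`: `l = 0`: `Fin 0` is empty, `Module.finrank k (Φ k a).M = (0 + 1)! = 1` (`(Φ_good k a).dim`, `Fintype.card_fin`).  If an entry `f = s.d i j` is not bijective then it is `0`: if `f y ≠ 0` then `f` is a nonzero linear map between spaces of dimension `1`, so it is bijective (`finrank_eq_one_iff'`, or `LinearMap.injective_iff_surjective_of_finrank_eq_finrank` and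
 the range of `f` is not `⊥`, so it is `⊤`: `Submodule.eq_top_of_finrank_eq`).  So `s.tot.d = 0` (`mat` of zeros: `entry_ext`, `entry_mat`) and `hd 0 = finrank (BN.pi ..).M = ∑ i, 1 = card s.I` (`LinearMap.ker_zero`, `LinearMap.range_zero`, `finrank_top`, `finrank_bot`, `Module.finrank_pi_fintype`).
* `hdim_rel`: `hd X.d.1` is `N` of the forgetful test (`obj A = A.M`, `map f = f.1`), `N_le` in both directions.
* `main2`: `C₁` from `top_bound2`; `a = C₁ * m ^ (n / 2) + 1 ≤ (C₁ + 1) * m ^ (n / 2)`; `scan_exists`; `scan_size` with `j ≤ m * (n - 1)`: `M ≤ 243 (C₁ + 1) m ^ (n / 2)`, `c ≤ K ((C₁ + 1) m ^ (n / 2)) ^ 3 * (m * (n - 1)) = K (C₁ + 1) ^ 3 (n - 1) m ^ (3 * (n / 2) + 1)`.  `C` = the sum of the two constants.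
 For `j = m * (n - 1)`: `shA = n`, `shL = 0` (`scan_sh`), `closed_state`, `scan_reduced`, `scan_rel`, `hdim_rel`. -/

set_option autoImplicit false
set_option linter.unusedVariables false
set_option linter.unusedSectionVars false

namespace Pool.Agent.Lib.MP_f2e65a_lc

/-- forgetting everything but the vector space -/
private noncomputable def XMain_fgt (k : Type) [Field k] (P Q : Type) [Fintype P] [DecidableEq P]
    [Fintype Q] [DecidableEq Q] : Tst k P Q where
  obj A := A.M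
  map f := f.1
  map_id _ := rfl
  map_cmp _ _ := rfl
  map_add _ _ := rfl
  map_smul _ _ := rfl

theorem closed_state {k : Type} [Field k] {σ : SOb k} (hl : σ.l = 0) (h : Reduced σ.s) :
    (∀ i j, σ.s.d i j = 0) ∧ hd σ.s.tot.d.1 = σ.card := by
  obtain ⟨a, l, s⟩ := σ
  change l = 0 at hl
  subst hl
  change Reduced s at h
  have hdim : ∀ i : s.I, Module.finrank k (Φ k (s.lab i)).M = 1 := fun i =>
    (Φ_good k (s.lab i)).dim.trans (by simp)
  have hz : ∀ i j, s.d i j = 0 := by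
    intro i j
    by_contra hne
    obtain ⟨m, hm⟩ : ∃ m, (s.d i j).1 m ≠ 0 := by
      by_contra hc
      push Not at hc
      exact hne (hom_ext fun m => hc m)
    have hs : Function.Surjective (s.d i j).1 := by
      intro y
      obtain ⟨c, hc⟩ := exists_smul_eq_of_finrank_eq_one (hdim j) hm y
      exact ⟨c • m, by rw [map_smul, hc]⟩
    exact h i j ⟨(LinearMap.injective_iff_surjective_of_finrank_eq_finrank
      ((hdim i).trans (hdim j).symm)).2 hs, hs⟩
  refine ⟨hz, ?_⟩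
  have h0 : s.tot.d = 0 := by
    refine entry_ext fun i j => ?_
    refine (entry_mat _ _ s.d i j).trans ((hz i j).trans ?_)
    refine hom_ext fun m => ?_
    change (0 : (Φ k (s.lab j)).M) = (prj (fun i => Φ k (s.lab i)) j).1 0
    rw [map_zero]
  change Module.finrank k (LinearMap.ker s.tot.d.1) - Module.finrank k (LinearMap.range s.tot.d.1) =
    Fintype.card s.I
  have h1 : s.tot.d.1 = 0 := by rw [h0]; rfl
  rw [h1, LinearMap.ker_zero, LinearMap.range_zero, finrank_top, finrank_bot, Nat.sub_zero]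
  change Module.finrank k (∀ i : s.I, (Φ k (s.lab i)).M) = Fintype.card s.I
  rw [Module.finrank_pi_fintype, Finset.sum_congr rfl fun i _ => hdim i, Finset.sum_const,
    Finset.card_univ, smul_eq_mul, mul_one]

theorem hdim_rel {k : Type} [Field k] {σ : SOb k} {o : COb k} (h : Rel σ o) :
    hd σ.s.tot.d.1 = o.hdim := by
  cases h with
  | @mk a l s X h1 h2 =>
    exact le_antisymm (N_le (XMain_fgt k (Fin l) (Fin l)) h1) (N_le (XMain_fgt k (Fin l) (Fin l)) h2)

theorem main2 (k : Type) [Field k] (n : ℕ) (hn : 2 ≤ n) : ∃ C : ℕ, ∀ m : ℕ, 1 ≤ m →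
    (∃ (σ : SOb k) (c M : ℕ), Scan n m (m * (n - 1)) σ c M) ∧
    (∀ j ≤ m * (n - 1), ∀ (σ : SOb k) (c M : ℕ), Scan n m j σ c M →
      M ≤ C * m ^ (n / 2) ∧ c ≤ C * m ^ (3 * (n / 2) + 1)) ∧
    ∀ (σ : SOb k) (c M : ℕ), Scan n m (m * (n - 1)) σ c M →
      σ.l = 0 ∧ (∀ i j, σ.s.d i j = 0) ∧ σ.card = khDim k n m := by
  obtain ⟨C₁, hC₁⟩ := top_bound2 k n hn
  obtain ⟨u, hu⟩ : ∃ u, u = 6 * 243 ^ 3 * (16 * (2 ^ (n + 5)) ^ 3) := ⟨_, rfl⟩
  refine ⟨243 * (C₁ + 1) + u * (C₁ + 1) ^ 3 * (n - 1), fun m hm => ⟨?_, ?_, ?_⟩⟩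
  · exact scan_exists n m hn hm _ le_rfl
  · intro j hj σ c M h
    have hmp : 1 ≤ m ^ (n / 2) := Nat.one_le_pow _ _ hm
    have ha : 1 ≤ (C₁ + 1) * m ^ (n / 2) := Nat.mul_pos (Nat.succ_pos _) hmp
    obtain ⟨h1, h2⟩ := scan_size hn hm h _ ha hj (fun j' hj' => (hC₁ m j' hm (hj'.trans hj)).trans
      (Nat.mul_le_mul_right _ (Nat.le_succ _)))
    rw [← hu] at h2
    constructor
    · refine h1.trans ?_
      rw [← mul_assoc]
      exact Nat.mul_le_mul_right _ (Nat.le_add_right _ _)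
    · refine h2.trans ((Nat.mul_le_mul_left _ hj).trans ?_)
      have h3 : u * ((C₁ + 1) * m ^ (n / 2)) ^ 3 * (m * (n - 1)) =
          u * (C₁ + 1) ^ 3 * (n - 1) * m ^ (3 * (n / 2) + 1) := by
        rw [mul_pow, ← pow_mul, pow_succ m (3 * (n / 2)), mul_comm 3 (n / 2)]
        ring
      rw [h3]
      exact Nat.mul_le_mul_right _ (Nat.le_add_left _ _)
  · intro σ c M h
    have hl : σ.l = 0 := by
      rw [(scan_sh hn hm h).2]
      unfold shL shA
      rw [if_pos rfl]
      refine Nat.sub_eq_zero_of_le ?_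
      split_ifs
      · exact Nat.zero_le _
      · exact min_le_right _ _
    obtain ⟨h1, h2⟩ := closed_state hl (scan_reduced h)
    exact ⟨hl, h1, h2.symm.trans (hdim_rel (scan_rel h))⟩

end Pool.Agent.Lib.MP_f2e65a_lc
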