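import Pool.Agent.Lib.MP_f2e65a_lc.AFin
import Pool.Agent.Lib.MP_f2e65a_lc.XLab
import Pool.Agent.Lib.MP_f2e65a_lc.XMain

/-! # The regular Bar-Natan module and the action of cobordisms on Bar-Natan modules -/

set_option autoImplicit false
set_option linter.unusedVariables false
set_option linter.unusedSectionVars false

namespace Pool.Agent.Lib.MP_f2e65a_lc.Alg

variable {k : Type} [Field k] {l : ℕ}

private theorem arho_mul {a b c d : Cob k l} (h : a * b = c * d) (m : Cob k l) :
    a * (b * m) = c * (d * m) := by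
  rw [← mul_assoc, h, mul_assoc]

/-- the regular module -/
noncomputable def reg (k : Type) [Field k] (l : ℕ) : BN k (Fin l) (Fin l) where
  M := Cob k l
  fin := cob_finite k l
  x p := LinearMap.mulLeft k (dot p)
  S p r := LinearMap.mulLeft k (sad p r)
  E p q := LinearMap.mulLeft k (prj p q)
  x_x p r m := arho_mul (dot_dot p r) m
  x_sq p m := by
    change dot p * (dot p * m) = 0
    rw [← mul_assoc, dot_sq, zero_mul]
  S_symm p r m h := by
    change sad p r * m = sad r p * m
    rw [sad_symm]
  x_S t p r m h := arho_mul (dot_sad t p r) m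
  x_S_eq p r m h := arho_mul (dot_sad_eq p r) m
  S_sq p r m h := by
    change sad p r * (sad p r * m) = dot p * m + dot r * m
    rw [← mul_assoc, sad_sq h, add_mul]
  S_S p r t u m h1 h2 h3 h4 h5 h6 := arho_mul (sad_sad h3 h4 h5 h6) m
  S_S_S p r t m h1 h2 h3 := arho_mul (sad_sad_sad h1 h2 h3) m
  E_E p q r s m := arho_mul (prj_prj p q r s) m
  E_idem p q m := by
    change prj p q * (prj p q * m) = prj p q * m
    rw [← mul_assoc, prj_idem]
  E_row p q s m h := by
    change prj p q * (prj p s * m) = 0
    rw [← mul_assoc, prj_row h, zero_mul]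
  E_col p r q m h := by
    change prj p q * (prj r q * m) = 0
    rw [← mul_assoc, prj_col h, zero_mul]
  sum_row p m := by
    change ∑ q, prj p q * m = m
    rw [← Finset.sum_mul, prj_sum_row, one_mul]
  sum_col q m := by
    change ∑ p, prj p q * m = m
    rw [← Finset.sum_mul, prj_sum_col, one_mul]
  x_E t p q m := arho_mul (dot_prj t p q) m
  S_E p r q m h := arho_mul (sad_prj p r q) m
  S_E' p r t q m h1 h2 h3 := arho_mul (sad_prj' q h2 h3) m

/-- the action of the generators -/
noncomputable def genOp (A : BN k (Fin l) (Fin l)) : Gen l → Module.End k A.M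
  | Gen.x p => A.x p
  | Gen.S p r => if p = r then 0 else A.S p r
  | Gen.E p q => A.E p q

private noncomputable def rho0 (A : BN k (Fin l) (Fin l)) :
    FreeAlgebra k (Gen l) →ₐ[k] Module.End k A.M := FreeAlgebra.lift k (genOp A)

private theorem rho0_x (A : BN k (Fin l) (Fin l)) (p : Fin l) : rho0 A (gx p) = A.x p :=
  FreeAlgebra.lift_ι_apply _ _

private theorem rho0_S (A : BN k (Fin l) (Fin l)) {p r : Fin l} (h : p ≠ r) :
    rho0 A (gS p r) = A.S p r := by
  refine (FreeAlgebra.lift_ι_apply _ _).trans ?_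
  exact if_neg h

private theorem rho0_S_self (A : BN k (Fin l) (Fin l)) (p : Fin l) : rho0 A (gS p p) = 0 := by
  refine (FreeAlgebra.lift_ι_apply _ _).trans ?_
  exact if_pos rfl

private theorem rho0_E (A : BN k (Fin l) (Fin l)) (p q : Fin l) : rho0 A (gE p q) = A.E p q :=
  FreeAlgebra.lift_ι_apply _ _

private theorem rho0_rel (A : BN k (Fin l) (Fin l)) {a b : FreeAlgebra k (Gen l)}
    (h : BRel k l a b) : rho0 A a = rho0 A b := by
  cases h with
  | x_x p r =>
    rw [map_mul, map_mul, rho0_x, rho0_x]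
    exact LinearMap.ext fun m => A.x_x p r m
  | x_sq p =>
    rw [map_mul, rho0_x, map_zero]
    exact LinearMap.ext fun m => A.x_sq p m
  | S_self p => rw [rho0_S_self, map_zero]
  | S_symm p r =>
    by_cases h : p = r
    · subst h; rfl
    · rw [rho0_S A h, rho0_S A (Ne.symm h)]
      exact LinearMap.ext fun m => A.S_symm p r m h
  | x_S t p r =>
    by_cases h : p = r
    · subst h; rw [map_mul, map_mul, rho0_S_self, mul_zero, zero_mul]
    · rw [map_mul, map_mul, rho0_S A h, rho0_x]
      exact LinearMap.ext fun m => A.x_S t p r m h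
  | x_S_eq p r =>
    by_cases h : p = r
    · subst h; rfl
    · rw [map_mul, map_mul, rho0_S A h, rho0_x, rho0_x]
      exact LinearMap.ext fun m => A.x_S_eq p r m h
  | S_sq p r h =>
    rw [map_mul, map_add, rho0_S A h, rho0_x, rho0_x]
    exact LinearMap.ext fun m => A.S_sq p r m h
  | S_S p r t u h1 h2 h3 h4 =>
    by_cases h : p = r
    · subst h; rw [map_mul, map_mul, rho0_S_self, mul_zero, zero_mul]
    · by_cases h' : t = u
      · subst h'; rw [map_mul, map_mul, rho0_S_self, mul_zero, zero_mul]
      · rw [map_mul, map_mul, rho0_S A h, rho0_S A h']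
        exact LinearMap.ext fun m => A.S_S p r t u m h h' h1 h2 h3 h4
  | S_S_S p r t h1 h2 h3 =>
    rw [map_mul, map_mul, rho0_S A h1, rho0_S A h2, rho0_S A h3]
    exact LinearMap.ext fun m => A.S_S_S p r t m h1 h2 h3
  | E_E p q r s =>
    rw [map_mul, map_mul, rho0_E, rho0_E]
    exact LinearMap.ext fun m => A.E_E p q r s m
  | E_idem p q =>
    rw [map_mul, rho0_E]
    exact LinearMap.ext fun m => A.E_idem p q m
  | E_row p q s h =>
    rw [map_mul, rho0_E, rho0_E, map_zero]
    exact LinearMap.ext fun m => A.E_row p q s m h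
  | E_col p r q h =>
    rw [map_mul, rho0_E, rho0_E, map_zero]
    exact LinearMap.ext fun m => A.E_col p r q m h
  | sum_row p =>
    rw [map_sum, map_one, Finset.sum_congr rfl fun q _ => rho0_E A p q]
    refine LinearMap.ext fun m => ?_
    rw [LinearMap.sum_apply]
    exact A.sum_row p m
  | sum_col q =>
    rw [map_sum, map_one, Finset.sum_congr rfl fun p _ => rho0_E A p q]
    refine LinearMap.ext fun m => ?_
    rw [LinearMap.sum_apply]
    exact A.sum_col q m
  | x_E t p q =>
    rw [map_mul, map_mul, rho0_E, rho0_x]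
    exact LinearMap.ext fun m => A.x_E t p q m
  | S_E p r q =>
    by_cases h : p = r
    · subst h; rw [map_mul, map_mul, rho0_S_self, mul_zero, zero_mul]
    · rw [map_mul, map_mul, rho0_S A h, rho0_E, rho0_E]
      exact LinearMap.ext fun m => A.S_E p r q m h
  | S_E' p r t q h1 h2 =>
    by_cases h : p = r
    · subst h; rw [map_mul, map_mul, rho0_S_self, mul_zero, zero_mul]
    · rw [map_mul, map_mul, rho0_S A h, rho0_E]
      exact LinearMap.ext fun m => A.S_E' p r t q m h h1 h2

/-- the action of cobordisms -/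
noncomputable def rho (A : BN k (Fin l) (Fin l)) : Cob k l →ₐ[k] Module.End k A.M :=
  RingQuot.liftAlgHom k ⟨rho0 A, fun _ _ h => rho0_rel A h⟩

private theorem rho_mk' (A : BN k (Fin l) (Fin l)) (w : FreeAlgebra k (Gen l)) :
    rho A (mk w) = rho0 A w := RingQuot.liftAlgHom_mkAlgHom_apply k _ _ _

theorem rho_dot (A : BN k (Fin l) (Fin l)) (p : Fin l) (m : A.M) : rho A (dot p) m = A.x p m := by
  rw [dot, rho_mk', rho0_x]

theorem rho_sad (A : BN k (Fin l) (Fin l)) {p r : Fin l} (h : p ≠ r) (m : A.M) :
    rho A (sad p r) m = A.S p r m := by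
  rw [sad, rho_mk', rho0_S A h]

theorem rho_sad_self (A : BN k (Fin l) (Fin l)) (p : Fin l) (m : A.M) :
    rho A (sad p p) m = 0 := by
  rw [sad_self, map_zero]
  rfl

theorem rho_prj (A : BN k (Fin l) (Fin l)) (p q : Fin l) (m : A.M) :
    rho A (prj p q) m = A.E p q m := by
  rw [prj, rho_mk', rho0_E]

theorem rho_mul (A : BN k (Fin l) (Fin l)) (y z : Cob k l) (m : A.M) :
    rho A (y * z) m = rho A y (rho A z m) := by
  rw [map_mul]
  rfl

theorem rho_add (A : BN k (Fin l) (Fin l)) (y z : Cob k l) (m : A.M) :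
    rho A (y + z) m = rho A y m + rho A z m := by
  rw [map_add]
  rfl

theorem rho_sub (A : BN k (Fin l) (Fin l)) (y z : Cob k l) (m : A.M) :
    rho A (y - z) m = rho A y m - rho A z m := by
  rw [map_sub]
  rfl

theorem rho_neg (A : BN k (Fin l) (Fin l)) (y : Cob k l) (m : A.M) :
    rho A (-y) m = -rho A y m := by
  rw [map_neg]
  rfl

theorem rho_zero (A : BN k (Fin l) (Fin l)) (m : A.M) : rho A 0 m = 0 := by
  rw [map_zero]
  rfl

theorem rho_one (A : BN k (Fin l) (Fin l)) (m : A.M) : rho A 1 m = m := by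
  rw [map_one]
  rfl

theorem rho_smul (A : BN k (Fin l) (Fin l)) (c : k) (y : Cob k l) (m : A.M) :
    rho A (c • y) m = c • rho A y m := by
  rw [map_smul]
  rfl

theorem rho_sum {J : Type} (A : BN k (Fin l) (Fin l)) (s : Finset J) (y : J → Cob k l)
    (m : A.M) : rho A (∑ j ∈ s, y j) m = ∑ j ∈ s, rho A (y j) m := by
  rw [map_sum, LinearMap.sum_apply]

/-- morphisms commute with the action -/
theorem hom_rho {A B : BN k (Fin l) (Fin l)} (f : Hom A B) (y : Cob k l) (m : A.M) :
    f.1 (rho A y m) = rho B y (f.1 m) := by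
  revert m
  refine cob_ind (C := fun y => ∀ m, f.1 (rho A y m) = rho B y (f.1 m)) y ?_ ?_ ?_ ?_ ?_ ?_
  · intro c m
    rw [AlgHom.commutes, AlgHom.commutes]
    exact map_smul f.1 c m
  · intro p m
    rw [rho_dot, rho_dot]
    exact f.2.1 p m
  · intro p r m
    by_cases h : p = r
    · subst h
      rw [rho_sad_self, rho_sad_self, map_zero]
    · rw [rho_sad A h, rho_sad B h]
      exact f.2.2.1 p r m h
  · intro p q m
    rw [rho_prj, rho_prj]
    exact f.2.2.2 p q m
  · intro a b ha hb m
    rw [rho_mul, rho_mul, ha, hb]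
  · intro a b ha hb m
    rw [rho_add, rho_add, map_add, ha, hb]

/-- the action on the regular module -/
theorem rho_reg (y z : Cob k l) : rho (reg k l) y z = y * z := by
  revert z
  refine cob_ind (C := fun y => ∀ z : Cob k l, rho (reg k l) y z = y * z) y ?_ ?_ ?_ ?_ ?_ ?_
  · intro c z
    rw [AlgHom.commutes]
    exact Algebra.smul_def c z
  · intro p z
    exact rho_dot (reg k l) p z
  · intro p r z
    by_cases h : p = r
    · subst h
      rw [sad_self, zero_mul]
      exact rho_zero (reg k l) z
    · exact rho_sad (reg k l) h z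
  · intro p q z
    exact rho_prj (reg k l) p q z
  · intro a b ha hb z
    refine (rho_mul (reg k l) a b z).trans ?_
    rw [hb]
    refine (ha (b * z)).trans ?_
    rw [mul_assoc]
  · intro a b ha hb z
    refine (rho_add (reg k l) a b z).trans ?_
    rw [ha, hb]
    exact (add_mul a b z).symm

/-- a submodule stable under the generators is stable under the action -/
theorem rho_mem {A : BN k (Fin l) (Fin l)} {W : Submodule k A.M} (hW : Closed A W) (y : Cob k l)
    {m : A.M} (hm : m ∈ W) : rho A y m ∈ W := by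
  revert m
  refine cob_ind (C := fun y => ∀ {m : A.M}, m ∈ W → rho A y m ∈ W) y ?_ ?_ ?_ ?_ ?_ ?_
  · intro c m hm
    rw [AlgHom.commutes]
    exact W.smul_mem c hm
  · intro p m hm
    rw [rho_dot]
    exact hW.hx p m hm
  · intro p r m hm
    by_cases h : p = r
    · subst h
      rw [rho_sad_self]
      exact W.zero_mem
    · rw [rho_sad A h]
      exact hW.hS p r m h hm
  · intro p q m hm
    rw [rho_prj]
    exact hW.hE p q m hm
  · intro a b ha hb m hm
    rw [rho_mul]
    exact ha (hb hm)
  · intro a b ha hb m hm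
    rw [rho_add]
    exact W.add_mem (ha hm) (hb hm)

end Pool.Agent.Lib.MP_f2e65a_lc.Alg
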