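import Pool.Agent.Lib.MP_f2e65a_lc.AAdd
import Pool.Agent.Lib.MP_f2e65a_lc.ACrossB
import Pool.Agent.Lib.MP_f2e65a_lc.AElim

/-! # ARunA: elementary operations, eliminations -/

set_option autoImplicit false
set_option linter.unusedVariables false
set_option linter.unusedSectionVars false

namespace Pool.Agent.Lib.MP_f2e65a_lc.Alg

variable {k : Type} [Field k]

/-- the elementary operations -/
def insT : Ins → MP_f2e65a_lc.Ins
  | Ins.add => MP_f2e65a_lc.Ins.add
  | Ins.crs i => MP_f2e65a_lc.Ins.crs i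
  | Ins.cls => MP_f2e65a_lc.Ins.cls

theorem stepOf_T (n m j : ℕ) : (stepOf n m j).map insT = MP_f2e65a_lc.stepOf n m j := by
  unfold stepOf MP_f2e65a_lc.stepOf
  rw [List.map_append, List.map_append, List.map_cons, List.map_append]
  congr 1
  · split_ifs <;> rfl
  · congr 1
    · split_ifs <;> rfl
    · congr 1
      congr 1
      · split_ifs <;> rfl
      · split_ifs <;> rfl

/-- the state -/
noncomputable def TOb (σ : SOb k) : MP_f2e65a_lc.SOb k := ⟨σ.a, σ.l, T σ.s⟩

theorem TOb_card (σ : SOb k) : (TOb σ).card = σ.s.N := Fintype.card_fin σ.s.N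

theorem unit_eq (l : ℕ) : unitC (Fin l) = unit l := by
  unfold unitC unit
  rw [Fintype.card_fin]

theorem op_glue {ι : Ins} {σ σ' : SOb k} (h : Op k ι σ σ') :
    OGlue (insT ι) (TOb σ) (TOb σ') := by
  cases h with
  | add h => exact OGlue.add (add_glue h)
  | crs h h' => exact OGlue.crs h (cross_glue h')
  | cls h => exact OGlue.cls (close_glue h)

theorem ops_glues {w : List Ins} {σ σ' : SOb k} {c M : ℕ} (h : Ops k w σ σ' c M) :
    Glues (w.map insT) (TOb σ) (TOb σ') c M := by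
  induction h with
  | nil σ =>
    rw [← TOb_card]
    exact Glues.nil _
  | @cons ι w σ σ' σ'' c M ho _ ih =>
    rw [← TOb_card, ← TOb_card, ← unit_eq]
    exact Glues.cons (op_glue ho) ih

theorem exists_op (ι : Ins) (σ : SOb k) (a' l' : ℕ)
    (h : sh (insT ι) (σ.a, σ.l) = some (a', l')) : ∃ s' : ASt k l', Op k ι σ ⟨a', l', s'⟩ := by
  obtain ⟨a, l, s⟩ := σ
  cases ι with
  | add =>
    have h1 : (a, l + 1) = (a', l') := Option.some.inj h
    obtain ⟨rfl, rfl⟩ := Prod.mk.inj h1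
    obtain ⟨s', hs'⟩ := exists_addA s
    exact ⟨s', Op.add hs'⟩
  | crs i =>
    have h0 : (if a ≤ i ∧ i + 1 < a + l then some (a, l) else none) = some (a', l') := h
    by_cases hc : a ≤ i ∧ i + 1 < a + l
    · rw [if_pos hc] at h0
      obtain ⟨rfl, rfl⟩ := Prod.mk.inj (Option.some.inj h0)
      cases l with
      | zero => omega
      | succ l =>
        obtain ⟨s', hs'⟩ := exists_cross (posP hc) (posQ hc) s
        exact ⟨s', Op.crs hc hs'⟩
    · rw [if_neg hc] at h0
      exact absurd h0 (Option.some_ne_none _).symm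
  | cls =>
    cases l with
    | zero =>
      have h0 : (none : Option (ℕ × ℕ)) = some (a', l') := h
      exact absurd h0 (Option.some_ne_none _).symm
    | succ l =>
      have h1 : (a + 1, l) = (a', l') := Option.some.inj h
      obtain ⟨rfl, rfl⟩ := Prod.mk.inj h1
      obtain ⟨s', hs'⟩ := exists_close s
      exact ⟨s', Op.cls hs'⟩

theorem exists_ops (w : List Ins) : ∀ (σ : SOb k) (a' l' : ℕ),
    shs (w.map insT) (σ.a, σ.l) = some (a', l') →
    ∃ (s' : ASt k l') (c M : ℕ), Ops k w σ ⟨a', l', s'⟩ c M := by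
  induction w with
  | nil =>
    intro σ a' l' h
    have h1 : (σ.a, σ.l) = (a', l') := Option.some.inj h
    obtain ⟨a, l, s⟩ := σ
    obtain ⟨rfl, rfl⟩ := Prod.mk.inj h1
    exact ⟨s, 0, _, Ops.nil _⟩
  | cons ι w ih =>
    intro σ a' l' h
    obtain ⟨⟨a₁, l₁⟩, h1, h2⟩ := Option.bind_eq_some_iff.1 h
    obtain ⟨s₁, hs₁⟩ := exists_op ι σ a₁ l₁ h1
    obtain ⟨s', c, M, hw⟩ := ih ⟨a₁, l₁, s₁⟩ a' l' h2
    exact ⟨s', _, _, Ops.cons hs₁ hw⟩

theorem elimsA_ret {l : ℕ} {s s' : ASt k l} {c : ℕ} (h : Elims k s s' c) :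
    Ret (T s').tot (T s).tot ∧ Ret (T s).tot (T s').tot := by
  induction h with
  | nil s => exact ⟨Ret.refl _, Ret.refl _⟩
  | cons h _ ih =>
    obtain ⟨h1, h2⟩ := elimA_ret h
    exact ⟨ih.1.trans h1, h2.trans ih.2⟩

theorem elimsA_exists {l : ℕ} (s : ASt k l) : ∃ s' c, Elims k s s' c ∧ Reduced s' := by
  have key : ∀ n : ℕ, ∀ s : ASt k l, s.N ≤ n → ∃ s' c, Elims k s s' c ∧ Reduced s' := by
    intro n
    induction n with
    | zero =>
      intro s hs
      refine ⟨s, 0, Elims.nil s, fun i => ?_⟩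
      have h1 := i.2
      omega
    | succ n ih =>
      intro s hs
      by_cases hr : Reduced s
      · exact ⟨s, 0, Elims.nil s, hr⟩
      · obtain ⟨s₁, h1⟩ := exists_elimA hr
        have hc := elimA_N h1
        obtain ⟨s', c, h3, h4⟩ := ih s₁ (by omega)
        exact ⟨s', _, Elims.cons h1 h3, h4⟩
  exact key _ s le_rfl

theorem elimsA_cost {l : ℕ} {s s' : ASt k l} {c : ℕ} (h : Elims k s s' c) :
    c ≤ unit l * s.N ^ 3 ∧ s'.N ≤ s.N := by
  induction h with
  | nil s => exact ⟨Nat.zero_le _, le_rfl⟩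
  | @cons s s₁ s' c h _ ih =>
    have hc := elimA_N h
    refine ⟨?_, by omega⟩
    rw [← hc]
    refine (Nat.add_le_add_left ih.1 _).trans ?_
    rw [← mul_add]
    refine Nat.mul_le_mul_left _ ?_
    nlinarith [sq_nonneg s₁.N]

end Pool.Agent.Lib.MP_f2e65a_lc.Alg
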