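import Pool.Agent.Lib.MP_f2e65a_lc.ARunA
import Pool.Agent.Lib.MP_f2e65a_lc.AHdim

/-! # ARunB: runs -/

set_option autoImplicit false
set_option linter.unusedVariables false
set_option linter.unusedSectionVars false

namespace Pool.Agent.Lib.MP_f2e65a_lc.Alg

variable {k : Type} [Field k]

private theorem arunb_empty : Iso (T (ASt.empty k)).tot (St.one k (Equiv.refl (Fin 0))).tot := by
  have e : Fin 1 ≃ Unit := Equiv.ofUnique _ _
  refine iso_of_gens (ASt.empty k) (St.one k (Equiv.refl (Fin 0))).tot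
    (fun _ : Fin 1 => (St.one k (Equiv.refl (Fin 0))).gen ()) ?_ ?_
  · exact isFree_reindex e (St.one k (Equiv.refl (Fin 0))).gen_free
  · intro i
    have h0 : (St.one k (Equiv.refl (Fin 0))).tot.d = 0 := by
      refine entry_ext fun i j => ?_
      refine (entry_mat _ _ (St.one k (Equiv.refl (Fin 0))).d i j).trans ?_
      refine hom_ext fun m => ?_
      change (0 : (Φ k (Equiv.refl (Fin 0))).M) = (MP_f2e65a_lc.prj (fun _ : Unit =>
        Φ k (Equiv.refl (Fin 0))) j).1 0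
      rw [map_zero]
    rw [h0, Finset.sum_eq_zero]
    · rfl
    · intro j _
      exact rho_zero _ _

private theorem arunb_elims {a l : ℕ} {s s' : ASt k l} {c : ℕ} {o : COb k}
    (h : Rel (TOb ⟨a, l, s⟩) o) (he : Elims k s s' c) : Rel (TOb ⟨a, l, s'⟩) o := by
  obtain ⟨g1, g2⟩ := elimsA_ret he
  obtain ⟨a', l', X⟩ := o
  cases h with
  | mk h1 h2 => exact Rel.mk (g1.trans h1) (h2.trans g2)

theorem scanA_rel {n m j : ℕ} {σ : SOb k} {c M : ℕ} (h : Scan k n m j σ c M) :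
    Rel (TOb σ) (linkCx k n m j) := by
  induction h with
  | zero =>
    obtain ⟨h1, h2⟩ := Ret.of_iso (arunb_empty (k := k))
    exact Rel.mk h1 h2
  | step _ _ hg he _ ih =>
    refine arunb_elims ?_ he
    have h1 := glues_rel (ops_glues hg) ih
    rw [stepOf_T] at h1
    exact h1

theorem cube_rel {n m j : ℕ} {σ : SOb k} (h : Cube k n m j σ) :
    Rel (TOb σ) (linkCx k n m j) := by
  induction h with
  | zero =>
    obtain ⟨h1, h2⟩ := Ret.of_iso (arunb_empty (k := k))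
    exact Rel.mk h1 h2
  | step _ _ hg ih =>
    have h1 := glues_rel (ops_glues hg) ih
    rw [stepOf_T] at h1
    exact h1

theorem scanA_reduced {n m j : ℕ} {σ : SOb k} {c M : ℕ} (h : Scan k n m j σ c M) :
    MP_f2e65a_lc.Reduced (T σ.s) := by
  cases h with
  | zero =>
    intro i j h
    refine gΦ_ne k ((T (ASt.empty k)).lab i) (h.1 ?_)
    have h0 : (T (ASt.empty k)).d i j = 0 := hm_zero
    rw [h0]
    rfl
  | step _ _ _ _ hr => exact reducedA hr

private theorem arunb_zero (n m : ℕ) (hn : 2 ≤ n) (hm : 1 ≤ m) :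
    (0 : ℕ) = shA n m 0 ∧ (0 : ℕ) = shL n m 0 := by
  have h1 : 0 < m * (n - 1) := Nat.mul_pos hm (by omega)
  have h2 : shA n m 0 = 0 := by
    unfold shA
    rw [if_neg (by omega), Nat.zero_sub]
  refine ⟨h2.symm, ?_⟩
  unfold shL
  rw [if_pos rfl, Nat.zero_sub]

theorem scanA_sh {n m j : ℕ} (hn : 2 ≤ n) (hm : 1 ≤ m) {σ : SOb k} {c M : ℕ}
    (h : Scan k n m j σ c M) : σ.a = shA n m j ∧ σ.l = shL n m j := by
  induction h with
  | zero => exact arunb_zero n m hn hm
  | @step j a l σ c M c' M' c'' s' s'' _ hj hg _ _ ih =>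
    have h1 := glues_sh (ops_glues hg)
    rw [stepOf_T] at h1
    have h0 : MP_f2e65a_lc.shs (MP_f2e65a_lc.stepOf n m j) (σ.a, σ.l) = some (a, l) := h1
    rw [ih.1, ih.2, shs_step n m j hn hm hj] at h0
    have h2 := Prod.mk.inj (Option.some.inj h0)
    exact ⟨h2.1.symm, h2.2.symm⟩

theorem cube_sh {n m j : ℕ} (hn : 2 ≤ n) (hm : 1 ≤ m) {σ : SOb k}
    (h : Cube k n m j σ) : σ.a = shA n m j ∧ σ.l = shL n m j := by
  induction h with
  | zero => exact arunb_zero n m hn hm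
  | @step j σ σ' c M _ hj hg ih =>
    have h1 := glues_sh (ops_glues hg)
    rw [stepOf_T] at h1
    have h0 : MP_f2e65a_lc.shs (MP_f2e65a_lc.stepOf n m j) (σ.a, σ.l) = some (σ'.a, σ'.l) := h1
    rw [ih.1, ih.2, shs_step n m j hn hm hj] at h0
    have h2 := Prod.mk.inj (Option.some.inj h0)
    exact ⟨h2.1.symm, h2.2.symm⟩

theorem scanA_exists (n m : ℕ) (hn : 2 ≤ n) (hm : 1 ≤ m) (j : ℕ) (hj : j ≤ m * (n - 1)) :
    ∃ (σ : SOb k) (c M : ℕ), Scan k n m j σ c M := by
  induction j with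
  | zero => exact ⟨_, _, _, Scan.zero⟩
  | succ j ih =>
    obtain ⟨σ, c, M, h⟩ := ih (by omega)
    obtain ⟨h1, h2⟩ := scanA_sh hn hm h
    obtain ⟨s', c', M', hg⟩ := exists_ops (stepOf n m j) σ (shA n m (j + 1)) (shL n m (j + 1))
      (by rw [h1, h2, stepOf_T]; exact shs_step n m j hn hm (by omega))
    obtain ⟨s'', c'', he, hr⟩ := elimsA_exists s'
    exact ⟨_, _, _, Scan.step h (by omega) hg he hr⟩

theorem cube_exists (n m : ℕ) (hn : 2 ≤ n) (hm : 1 ≤ m) (j : ℕ) (hj : j ≤ m * (n - 1)) :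
    ∃ σ : SOb k, Cube k n m j σ := by
  induction j with
  | zero => exact ⟨_, Cube.zero⟩
  | succ j ih =>
    obtain ⟨σ, h⟩ := ih (by omega)
    obtain ⟨h1, h2⟩ := cube_sh hn hm h
    obtain ⟨s', c', M', hg⟩ := exists_ops (stepOf n m j) σ (shA n m (j + 1)) (shL n m (j + 1))
      (by rw [h1, h2, stepOf_T]; exact shs_step n m j hn hm (by omega))
    exact ⟨_, Cube.step h (by omega) hg⟩

end Pool.Agent.Lib.MP_f2e65a_lc.Alg
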