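import Pool.Agent.Lib.MP_f2e65a_lc.ARunB

/-! # ARunC: size and cost -/

set_option autoImplicit false
set_option linter.unusedVariables false
set_option linter.unusedSectionVars false

namespace Pool.Agent.Lib.MP_f2e65a_lc.Alg

variable {k : Type} [Field k]

private theorem arunc_unit {l L : ℕ} (h : l ≤ L) : unit l ≤ 16 * (2 ^ L) ^ 3 := by
  unfold unit
  exact Nat.mul_le_mul_left _ (Nat.pow_le_pow_left (Nat.pow_le_pow_right (by norm_num) h) 3)

theorem scanA_size {n m j : ℕ} (hn : 2 ≤ n) (hm : 1 ≤ m) {σ : SOb k} {c M : ℕ}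
    (h : Scan k n m j σ c M) (a : ℕ) (ha : 1 ≤ a) (hj : j ≤ m * (n - 1))
    (hN : ∀ j' ≤ j, (linkCx k n m j').topN ≤ a) :
    M ≤ 243 * a ∧ c ≤ 6 * 243 ^ 3 * (16 * (2 ^ (n + 5)) ^ 3) * a ^ 3 * j := by
  induction h with
  | zero =>
    exact ⟨by omega, Nat.zero_le _⟩
  | @step j b l σ c M c' M' c'' s' s'' hs hlt hg he hr ih =>
    obtain ⟨i1, i2⟩ := ih hlt.le fun j' hj' => hN j' (by omega)
    have h1 : (TOb σ).card ≤ a :=
      (reduced_card (scanA_reduced hs) (scanA_rel hs)).trans (hN j (by omega))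
    have h2 : σ.l ≤ n := by
      rw [(scanA_sh hn hm hs).2]
      exact shL_le n m j
    have hlen := stepOf_length n m j
    rw [← stepOf_T] at hlen
    have h2' : (TOb σ).l ≤ n := h2
    obtain ⟨g1, g2, g3, g4⟩ := glues_size (ops_glues hg) (n + 5) a (by omega) h1
    have h3 : 3 ^ ((stepOf n m j).map insT).length * a ≤ 243 * a := by
      refine Nat.mul_le_mul_right a ?_
      calc 3 ^ ((stepOf n m j).map insT).length ≤ 3 ^ 5 :=
            Nat.pow_le_pow_right (by norm_num) hlen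
        _ = 243 := by norm_num
    rw [TOb_card] at g2
    have h4 : s'.N ≤ 243 * a := g2.trans h3
    have h5 : l ≤ n + 5 := g3
    have h6 := (elimsA_cost he).1
    refine ⟨max_le i1 (g1.trans h3), ?_⟩
    generalize hu : 16 * (2 ^ (n + 5)) ^ 3 = u at *
    have h7 : unit l ≤ u := by
      rw [← hu]
      exact arunc_unit h5
    have h8 : c'' ≤ u * (243 * a) ^ 3 :=
      h6.trans (Nat.mul_le_mul h7 (Nat.pow_le_pow_left h4 3))
    have h9 : c' ≤ 5 * (u * (243 * a) ^ 2) := by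
      refine g4.trans ?_
      exact Nat.mul_le_mul hlen (Nat.mul_le_mul_left u (Nat.pow_le_pow_left h3 2))
    have h10 : u * (243 * a) ^ 2 ≤ u * (243 * a) ^ 3 :=
      Nat.mul_le_mul_left u (Nat.pow_le_pow_right (by omega) (by norm_num))
    have h11 : 6 * 243 ^ 3 * u * a ^ 3 * (j + 1) =
        6 * 243 ^ 3 * u * a ^ 3 * j + 6 * (u * (243 * a) ^ 3) := by ring
    rw [h11]
    omega

end Pool.Agent.Lib.MP_f2e65a_lc.Alg
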