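import Pool.Agent.Lib.MP_f2e65a_lc.AHm
import Pool.Agent.Lib.MP_f2e65a_lc.ACoef

/-! # AT: the state of a complex over the category of cobordisms (job AT: all theorems)

`T s` is the state with the generators `Fin s.N`, the labels `s.lab i` and the entries `hm (s.lab i) (s.lab j) (s.d i j)`; `(T s).gen i = (inc _ i).1 (gΦ k (s.lab i))` (`St.gen`, definitional).
* `tot_d`: `(T s).tot.d = mat _ _ (T s).d`, `(mat A B d).1 ((inc A i).1 m) = ∑ j, (inc B j).1 ((d i j).1 m)` (`pi_ext`, `entry_mat`, or directly: `cmp (mat ..) (inc i) = ∑ j, cmp (inc j) (entry (mat ..) i j)` by `sum_inc_prj`), `(hm .. (s.d i j)).1 (gΦ ..) = rho _ (s.d i j) (gΦ ..)` (`hm_of`, `s.hom`), and `(inc _ j).1 (rho _ y m) = rho _ y ((inc _ j).1 m)` (`hom_rho`).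
* `iso_of_gens`: `isFree_iso (T s).gen_free hb` gives `f`, `f'` with `f.1 ((T s).gen i) = b i`; `cmp f (T s).tot.d = cmp E.d f` by `(T s).gen_free.ext`: on `gen i`: `f (∑ j, rho (s.d i j) (gen j)) = ∑ j, rho E.A (s.d i j) (b j) = E.d (b i)` (`tot_d`, `map_sum`, `hom_rho`, `hd`).
* `mat_dd`: `0 = E.d (E.d (b i)) = ∑ m, rho (y i m) (E.d (b m)) = ∑ m, ∑ j, rho (y i m * y m j) (b j) = ∑ j, rho (∑ m, y i m * y m j) (b j)` (`Cx.dd_apply`, `hom_rho`, `rho_mul`, `Finset.sum_comm`, `rho_sum`); use `coef_unique` (`isHom_iff`: `(y i m * y m j) * idm (lab j) = y i m * y m j`; `Finset.sum_mul`).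
* `exists_mat`: `E.d.1 (b i) ∈ clo E.A (lab i)` (`E.d.2.2.2`, `hb.mem i`); `coef_exists hb` gives `z i j` with `IsHom (lab i) (lab j) (z i j)` and `E.d (b i) = ∑ j, rho (z i j) (b j)`.  Let `y i j = if deg j = deg i + 1 then z i j else 0` (`isHom_zero`).
 `E.d (b i) = E.d (γ (deg i) (b i)) = γ (deg i + 1) (E.d (b i)) = ∑ j, rho (z i j) (γ (deg i + 1) (b j))` (`hγ`, `hcomm`, `map_sum`, `hom_rho`) `= ∑ j, rho (y i j) (b j)`. -/

set_option autoImplicit false
set_option linter.unusedVariables false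
set_option linter.unusedSectionVars false

namespace Pool.Agent.Lib.MP_f2e65a_lc.Alg

variable {k : Type} [Field k] {l : ℕ}

/-- the state of a complex -/
noncomputable def T (s : ASt k l) : St k (Fin l) (Fin l) where
  I := Fin s.N
  lab := s.lab
  deg := s.deg
  d i j := hm (s.lab i) (s.lab j) (s.d i j)
  d_deg i j h := s.d_deg i j fun h0 => h (by rw [h0, hm_zero])
  d_d i j := by
    have h : ∀ m, cmp (hm (s.lab m) (s.lab j) (s.d m j)) (hm (s.lab i) (s.lab m) (s.d i m)) =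
        hm (s.lab i) (s.lab j) (s.d i m * s.d m j) := fun m =>
      (hm_mul (s.hom i m) (s.hom m j)).symm
    rw [Finset.sum_congr rfl fun m _ => h m, ← hm_sum, s.d_d, hm_zero]

private theorem AT_mat_inc {P Q I J : Type} [Fintype P] [DecidableEq P] [Fintype Q]
    [DecidableEq Q] [Fintype I] [DecidableEq I] [Fintype J] [DecidableEq J]
    (A : I → BN k P Q) (B : J → BN k P Q) (d : ∀ i j, Hom (A i) (B j)) (i : I) (m : (A i).M) :
    (mat A B d).1 ((inc A i).1 m) = ∑ j, (inc B j).1 ((d i j).1 m) := by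
  refine pi_ext B fun j => ?_
  have h1 : (MP_f2e65a_lc.prj B j).1 ((mat A B d).1 ((inc A i).1 m)) = (d i j).1 m := by
    have h2 := entry_mat A B d i j
    exact congrArg (fun F => F.1 m) h2
  rw [h1, map_sum, Finset.sum_eq_single j]
  · exact (congrArg (fun F => F.1 ((d i j).1 m)) (prj_inc B j)).symm
  · intro j' _ h
    exact congrArg (fun F => F.1 ((d i j').1 m)) (prj_inc_ne B h.symm)
  · intro h
    exact absurd (Finset.mem_univ j) h

theorem tot_d (s : ASt k l) (i : Fin s.N) : (T s).tot.d.1 ((T s).gen i) =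
    ∑ j : Fin s.N, rho (T s).tot.A (s.d i j) ((T s).gen j) := by
  refine (AT_mat_inc (fun i => Φ k (s.lab i)) (fun i => Φ k (s.lab i))
    (fun i j => hm (s.lab i) (s.lab j) (s.d i j)) i (gΦ k (s.lab i))).trans ?_
  refine Finset.sum_congr rfl fun j _ => ?_
  refine (congrArg (fun n => (inc (fun i => Φ k (s.lab i)) j).1 n) (hm_of (s.hom i j))).trans ?_
  exact hom_rho (inc (fun i => Φ k (s.lab i)) j) (s.d i j) (gΦ k (s.lab j))

theorem iso_of_gens (s : ASt k l) (E : Cx k (Fin l) (Fin l)) (b : Fin s.N → E.A.M)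
    (hb : IsFree s.lab E.A b) (hd : ∀ i, E.d.1 (b i) = ∑ j, rho E.A (s.d i j) (b j)) :
    Iso (T s).tot E := by
  obtain ⟨f, f', h1, h2, h3⟩ := isFree_iso (T s).gen_free hb
  refine ⟨f, f', h1, h2, (T s).gen_free.ext _ _ _ fun i => ?_⟩
  change f.1 ((T s).tot.d.1 ((T s).gen i)) = E.d.1 (f.1 ((T s).gen i))
  have h4 : f.1 ((T s).gen i) = b i := h3 i
  refine (congrArg (fun n => f.1 n) (tot_d s i)).trans ?_
  refine Eq.trans ?_ (congrArg (fun n => E.d.1 n) h4).symm
  refine Eq.trans ?_ (hd i).symm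
  refine (map_sum f.1 _ _).trans (Finset.sum_congr rfl fun j _ => ?_)
  refine (hom_rho f (s.d i j) ((T s).gen j)).trans ?_
  exact congrArg (fun n => rho E.A (s.d i j) n) (h3 j)

theorem mat_dd {N : ℕ} (E : Cx k (Fin l) (Fin l)) (lab : Fin N → Equiv.Perm (Fin l))
    (b : Fin N → E.A.M) (hb : IsFree lab E.A b) (y : Fin N → Fin N → Cob k l)
    (hy : ∀ i j, IsHom (lab i) (lab j) (y i j))
    (hd : ∀ i, E.d.1 (b i) = ∑ j, rho E.A (y i j) (b j)) (i j : Fin N) :
    ∑ m, y i m * y m j = 0 := by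
  refine coef_unique hb (y := fun j => ∑ m, y i m * y m j) (fun j => ?_) ?_ j
  · rw [Finset.sum_mul]
    refine Finset.sum_congr rfl fun m _ => ?_
    rw [mul_assoc, (isHom_iff.1 (hy m j)).2]
  · have h1 : ∀ m, rho E.A (y i m) (E.d.1 (b m)) = ∑ j, rho E.A (y i m * y m j) (b j) := by
      intro m
      rw [hd m, map_sum]
      exact Finset.sum_congr rfl fun j _ => (rho_mul E.A _ _ _).symm
    have h2 : E.d.1 (E.d.1 (b i)) = ∑ m, ∑ j, rho E.A (y i m * y m j) (b j) := by
      rw [hd i, map_sum]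
      refine Finset.sum_congr rfl fun m _ => ?_
      rw [hom_rho, h1]
    rw [E.dd_apply] at h2
    rw [Finset.sum_comm] at h2
    rw [h2]
    refine Finset.sum_congr rfl fun j _ => ?_
    exact rho_sum E.A _ _ _

theorem exists_mat {N : ℕ} (E : Cx k (Fin l) (Fin l)) (lab : Fin N → Equiv.Perm (Fin l))
    (deg : Fin N → ℤ) (b : Fin N → E.A.M) (hb : IsFree lab E.A b) (γ : ℤ → Hom E.A E.A)
    (hγ : ∀ t j, (γ t).1 (b j) = (if deg j = t then (1 : k) else 0) • b j)
    (hcomm : ∀ t, cmp E.d (γ t) = cmp (γ (t + 1)) E.d) :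
    ∃ y : Fin N → Fin N → Cob k l, (∀ i j, IsHom (lab i) (lab j) (y i j)) ∧
      (∀ i j, y i j ≠ 0 → deg j = deg i + 1) ∧
      ∀ i, E.d.1 (b i) = ∑ j, rho E.A (y i j) (b j) := by
  have h1 : ∀ i, E.d.1 (b i) ∈ clo E.A (lab i) := by
    intro i p
    rw [← E.d.2.2.2, hb.mem i p]
  have h2 : ∀ i, ∃ z : Fin N → Cob k l, (∀ j, IsHom (lab i) (lab j) (z j)) ∧
      E.d.1 (b i) = ∑ j, rho E.A (z j) (b j) := fun i => coef_exists hb (h1 i)
  choose z hz hzd using h2
  refine ⟨fun i j => if deg j = deg i + 1 then z i j else 0, fun i j => ?_, fun i j h => ?_,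
    fun i => ?_⟩
  · change IsHom (lab i) (lab j) (if deg j = deg i + 1 then z i j else 0)
    by_cases h : deg j = deg i + 1
    · rw [if_pos h]
      exact hz i j
    · rw [if_neg h]
      exact isHom_zero _ _
  · by_contra h'
    exact h (if_neg h')
  · have h3 : (γ (deg i)).1 (b i) = b i := by
      rw [hγ, if_pos rfl, one_smul]
    have h4 : E.d.1 ((γ (deg i)).1 (b i)) = (γ (deg i + 1)).1 (E.d.1 (b i)) :=
      congrArg (fun F => F.1 (b i)) (hcomm (deg i))
    rw [h3] at h4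
    rw [h4, hzd i, map_sum]
    refine Finset.sum_congr rfl fun j _ => ?_
    rw [hom_rho, hγ]
    change _ = rho E.A (if deg j = deg i + 1 then z i j else 0) (b j)
    by_cases h : deg j = deg i + 1
    · rw [if_pos h, if_pos h, one_smul]
    · rw [if_neg h, if_neg h, zero_smul, map_zero, rho_zero]

end Pool.Agent.Lib.MP_f2e65a_lc.Alg
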