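import Pool.Agent.Lib.MP_f2e65a_lc.RetDefs

/-! # CapRet: morphisms between caps, from linear maps

`(capF e f).obj A = capObj ((relabel e f).obj A)`, its elements are the `m : A.M` with `A.E (e none) (f none) m = m` (`capSub`, `mem_capSub`; use
`capι`, `capMk`, `capι_injective`, `capι_x`, `capι_S`, `capι_E`, `capι_map` of UDefs.lean; `((relabel e f).obj A).x t = A.x (e t)`, etc. by `rfl`).
* `CapHom.hom`: restrict `F` to `capSub` (`LinearMap.restrict`, or `LinearMap.codRestrict` of `F ∘ capι`).
* `ret_cap`: the three restrictions give the maps of `Ret`; check the equations after applying the injective `capι` (`hom_ext`); `C.d` preserves `capSub` (it commutes with `E`). -/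

set_option autoImplicit false
set_option linter.unusedVariables false

namespace Pool.Agent.Lib.MP_f2e65a_lc

variable {k : Type} [Field k] {P Q P' Q' : Type} [Fintype P] [DecidableEq P] [Fintype Q]
  [DecidableEq Q] [Fintype P'] [DecidableEq P'] [Fintype Q'] [DecidableEq Q']

/-- the linear map `F : A.M → B.M` restricts to a morphism of the caps -/
structure CapHom (e e' : Option P' ≃ P) (f f' : Option Q' ≃ Q) (A B : BN k P Q)
    (F : A.M →ₗ[k] B.M) : Prop where
  mem : ∀ y, A.E (e none) (f none) y = y → B.E (e' none) (f' none) (F y) = F y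
  hx : ∀ t y, A.E (e none) (f none) y = y → F (A.x (e (some t)) y) = B.x (e' (some t)) (F y)
  hS : ∀ t s y, t ≠ s → A.E (e none) (f none) y = y →
    F (A.S (e (some t)) (e (some s)) y) = B.S (e' (some t)) (e' (some s)) (F y)
  hE : ∀ t s y, A.E (e none) (f none) y = y →
    F (A.E (e (some t)) (f (some s)) y) = B.E (e' (some t)) (f' (some s)) (F y)

theorem CapHom.hom {e e' : Option P' ≃ P} {f f' : Option Q' ≃ Q} {A B : BN k P Q}
    {F : A.M →ₗ[k] B.M} (h : CapHom e e' f f' A B F) :
    ∃ G : Hom ((capF e f).obj A) ((capF e' f').obj B),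
      ∀ m, capι ((relabel e' f').obj B) (G.1 m) = F (capι ((relabel e f).obj A) m) := by
  have hm : ∀ m : (capObj ((relabel e f).obj A)).M,
      (show A.M →ₗ[k] B.M from F) (capι ((relabel e f).obj A) m) ∈
        capSub ((relabel e' f').obj B) := fun m =>
    (mem_capSub _ _).2 (h.mem _ (capι_E_none ((relabel e f).obj A) m))
  let G₀ : (capObj ((relabel e f).obj A)).M →ₗ[k] (capObj ((relabel e' f').obj B)).M :=
    LinearMap.codRestrict (capSub ((relabel e' f').obj B))
      ((show A.M →ₗ[k] B.M from F) ∘ₗ capι ((relabel e f).obj A)) hm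
  have hG : ∀ m, capι ((relabel e' f').obj B) (G₀ m) = F (capι ((relabel e f).obj A) m) :=
    fun m => rfl
  refine ⟨⟨G₀, ?_, ?_, ?_⟩, hG⟩
  · intro t m
    apply capι_injective ((relabel e' f').obj B)
    exact h.hx t _ (capι_E_none ((relabel e f).obj A) m)
  · intro t s m hts
    apply capι_injective ((relabel e' f').obj B)
    have e1 := capι_S ((relabel e f).obj A) t s hts m
    have e2 := capι_S ((relabel e' f').obj B) t s hts (G₀ m)
    have e3 := h.hS t s _ hts (capι_E_none ((relabel e f).obj A) m)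
    exact ((congrArg (fun z => F z) e1).trans e3).trans e2.symm
  · intro t s m
    apply capι_injective ((relabel e' f').obj B)
    exact h.hE t s _ (capι_E_none ((relabel e f).obj A) m)

theorem ret_cap {e e' : Option P' ≃ P} {f f' : Option Q' ≃ Q} {C D : Cx k P Q} {ε : k}
    (hε : ε * ε = 1) {F : C.A.M →ₗ[k] D.A.M} {G : D.A.M →ₗ[k] C.A.M} {H : C.A.M →ₗ[k] C.A.M}
    (hF : CapHom e e' f f' C.A D.A F) (hG : CapHom e' e f' f D.A C.A G)
    (hH : CapHom e e f f C.A C.A H)
    (h1 : ∀ y, C.A.E (e none) (f none) y = y → F (C.d.1 y) = ε • D.d.1 (F y))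
    (h2 : ∀ w, D.A.E (e' none) (f' none) w = w → G (D.d.1 w) = ε • C.d.1 (G w))
    (h3 : ∀ y, C.A.E (e none) (f none) y = y →
      G (F y) = y + (C.d.1 (H y) + H (C.d.1 y))) :
    Ret ((capF e f).cx C) ((capF e' f').cx D) := by
  obtain ⟨f₁, hf₁⟩ := hF.hom
  obtain ⟨g₁, hg₁⟩ := hG.hom
  obtain ⟨k₁, hk₁⟩ := hH.hom
  refine ⟨ε, f₁, g₁, k₁, hε, ?_, ?_, ?_⟩
  · refine hom_ext fun m => capι_injective ((relabel e' f').obj D.A) ?_
    have e0 := capι_E_none ((relabel e f).obj C.A) m
    have e1 : capι ((relabel e' f').obj D.A) (f₁.1 (((capF e f).cx C).d.1 m)) =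
        F (C.d.1 (capι ((relabel e f).obj C.A) m)) := hf₁ _
    have e2 : capι ((relabel e' f').obj D.A) (ε • ((capF e' f').cx D).d.1 (f₁.1 m)) =
        ε • D.d.1 (capι ((relabel e' f').obj D.A) (f₁.1 m)) :=
      map_smul (capι ((relabel e' f').obj D.A)) ε _
    refine e1.trans ((h1 _ e0).trans ?_)
    refine Eq.trans ?_ e2.symm
    exact congrArg (fun z => ε • D.d.1 z) (hf₁ m).symm
  · refine hom_ext fun m => capι_injective ((relabel e f).obj C.A) ?_
    have e0 := capι_E_none ((relabel e' f').obj D.A) m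
    have e1 : capι ((relabel e f).obj C.A) (g₁.1 (((capF e' f').cx D).d.1 m)) =
        G (D.d.1 (capι ((relabel e' f').obj D.A) m)) := hg₁ _
    have e2 : capι ((relabel e f).obj C.A) (ε • ((capF e f).cx C).d.1 (g₁.1 m)) =
        ε • C.d.1 (capι ((relabel e f).obj C.A) (g₁.1 m)) :=
      map_smul (capι ((relabel e f).obj C.A)) ε _
    refine e1.trans ((h2 _ e0).trans ?_)
    refine Eq.trans ?_ e2.symm
    exact congrArg (fun z => ε • C.d.1 z) (hg₁ m).symm
  · refine hom_ext fun m => capι_injective ((relabel e f).obj C.A) ?_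
    have e0 := capι_E_none ((relabel e f).obj C.A) m
    have e1 : capι ((relabel e f).obj C.A) (g₁.1 (f₁.1 m)) =
        G (F (capι ((relabel e f).obj C.A) m)) :=
      (hg₁ _).trans (congrArg (fun z => G z) (hf₁ m))
    have e2 : capι ((relabel e f).obj C.A) (((capF e f).cx C).d.1 (k₁.1 m)) =
        C.d.1 (H (capι ((relabel e f).obj C.A) m)) :=
      congrArg (fun z => C.d.1 z) (hk₁ m)
    have e3 : capι ((relabel e f).obj C.A) (k₁.1 (((capF e f).cx C).d.1 m)) =
        H (C.d.1 (capι ((relabel e f).obj C.A) m)) := hk₁ _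
    have e4 : ∀ a b c : (capObj ((relabel e f).obj C.A)).M,
        capι ((relabel e f).obj C.A) (a + (b + c)) = capι ((relabel e f).obj C.A) a +
          (capι ((relabel e f).obj C.A) b + capι ((relabel e f).obj C.A) c) := by
      intro a b c
      rw [map_add, map_add]
    refine e1.trans ((h3 _ e0).trans ?_)
    refine Eq.trans ?_ (e4 m (((capF e f).cx C).d.1 (k₁.1 m))
      (k₁.1 (((capF e f).cx C).d.1 m))).symm
    rw [e2, e3]
    rfl

end Pool.Agent.Lib.MP_f2e65a_lc
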