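import Pool.Agent.Lib.MP_f2e65a_lc.CupDefs

/-! # CupEE: projections of a cup

JOB CupEE (100 lines).  For every statement: `rcases` on the elements of `Option P`, `Option Q`; then `CupM.ext` and the lemmas
`cupE_..` of CupDefs.lean (all `rfl` or `if_pos`/`if_neg`), `by_cases` on equalities of points, and the axioms of
`N`: `N.E_E`, `N.E_idem`, `N.E_row`, `N.E_col`, `N.sum_row`, `N.sum_col`, `map_zero`.
Sums: `Fintype.sum_option`; the coordinates of a sum: `Prod.fst_sum`, `Prod.snd_sum`, `Finset.sum_apply`.
`cup_sum_row none`: component `v`, `none`: only the term `none`; component `some r`: `0 + ∑ q, N.E r q (w.2 (some r))`.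
`cup_sum_row (some s)`: component `v`, `none`: `∑ q, N.E s q`; component `some s`: only the term `none`; component `some r`, `r ≠ s`: `∑ q, N.E s q`.
`cup_sum_col none`: component `some r`: only the term `p = some r` (`Finset.sum_eq_single`).
`cup_sum_col (some q)`: component `v`, `none`: `0 + ∑ s, N.E s q`; component `some r`: `N.E r q + ∑ s, if r = s then 0 else N.E s q = ∑ s, N.E s q`.
All statements were tested numerically. -/

set_option autoImplicit false

namespace Pool.Agent.Lib.MP_f2e65a_lc

variable {k : Type} [Field k] {P Q : Type} [Fintype P] [DecidableEq P] [Fintype Q]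
  [DecidableEq Q] (N : BN k P Q)

private theorem CupEE_sn (w : CupM N) (s t : P) :
    (cupE N (some s) none w).2 (some t) = if t = s then w.2 (some t) else 0 := by
  by_cases h : t = s
  · subst h
    rw [if_pos rfl, cupE_sn_self]
  · rw [if_neg h, cupE_sn_ne N w t s h]

private theorem CupEE_ss (w : CupM N) (q : Q) (s t : P) :
    (cupE N (some s) (some q) w).2 (some t) = if t = s then 0 else N.E s q (w.2 (some t)) := by
  by_cases h : t = s
  · subst h
    rw [if_pos rfl, cupE_ss_self]
  · rw [if_neg h, cupE_ss_ne N w q t s h]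

private theorem CupEE_sumv {ι : Type} [Fintype ι] (f : ι → CupM N) :
    (∑ i, f i).1 = ∑ i, (f i).1 := map_sum (cv N) _ _

private theorem CupEE_summ {ι : Type} [Fintype ι] (f : ι → CupM N) (τ : Option P) :
    (∑ i, f i).2 τ = ∑ i, (f i).2 τ := map_sum (cm N τ) _ _

theorem cup_E_E (p r : Option P) (q s : Option Q) (w : CupM N) :
    cupE N p q (cupE N r s w) = cupE N r s (cupE N p q w) := by
  rcases p with _ | p <;> rcases r with _ | r <;> rcases q with _ | q <;>
    rcases s with _ | s <;> refine CupM.ext ?_ ?_ fun t => ?_ <;>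
    simp only [cupE_nn_v, cupE_nn_none, cupE_nn_some, cupE_ns_v, cupE_ns_none, cupE_ns_some,
      cupE_sn_v, cupE_sn_none, cupE_ss_v, cupE_ss_none, CupEE_sn, CupEE_ss, map_zero] <;>
    first
    | done
    | exact N.E_E _ _ _ _ _
    | (split_ifs <;> first | rfl | exact N.E_E _ _ _ _ _ | simp only [map_zero])

theorem cup_E_idem (p : Option P) (q : Option Q) (w : CupM N) :
    cupE N p q (cupE N p q w) = cupE N p q w := by
  rcases p with _ | p <;> rcases q with _ | q <;> refine CupM.ext ?_ ?_ fun t => ?_ <;>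
    simp only [cupE_nn_v, cupE_nn_none, cupE_nn_some, cupE_ns_v, cupE_ns_none, cupE_ns_some,
      cupE_sn_v, cupE_sn_none, cupE_ss_v, cupE_ss_none, CupEE_sn, CupEE_ss, map_zero] <;>
    first
    | done
    | exact N.E_idem _ _ _
    | (split_ifs <;> first | rfl | exact N.E_idem _ _ _)

theorem cup_E_row (p : Option P) (q s : Option Q) (w : CupM N) (h : q ≠ s) :
    cupE N p q (cupE N p s w) = 0 := by
  rcases p with _ | p <;> rcases q with _ | q <;> rcases s with _ | s <;>
    first
    | exact absurd rfl h
    | (refine CupM.ext ?_ ?_ fun t => ?_ <;>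
        simp only [cupE_nn_v, cupE_nn_none, cupE_nn_some, cupE_ns_v, cupE_ns_none, cupE_ns_some,
      cupE_sn_v, cupE_sn_none, cupE_ss_v, cupE_ss_none, CupEE_sn, CupEE_ss, map_zero] <;>
        first
        | rfl
        | exact N.E_row _ _ _ _ (fun e => h (congrArg some e))
        | (split_ifs <;> (try simp only [map_zero]) <;>
            first
            | rfl
            | exact N.E_row _ _ _ _ (fun e => h (congrArg some e))))

theorem cup_E_col (p r : Option P) (q : Option Q) (w : CupM N) (h : p ≠ r) :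
    cupE N p q (cupE N r q w) = 0 := by
  rcases p with _ | p <;> rcases r with _ | r <;> rcases q with _ | q <;>
    first
    | exact absurd rfl h
    | (refine CupM.ext ?_ ?_ fun t => ?_ <;>
        simp only [cupE_nn_v, cupE_nn_none, cupE_nn_some, cupE_ns_v, cupE_ns_none, cupE_ns_some,
      cupE_sn_v, cupE_sn_none, cupE_ss_v, cupE_ss_none, CupEE_sn, CupEE_ss, map_zero] <;>
        first
        | rfl
        | exact N.E_col _ _ _ _ (fun e => h (congrArg some e))
        | (split_ifs with h1 h2 <;> (try simp only [map_zero]) <;>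
            first
            | rfl
            | exact absurd (congrArg some (h1.symm.trans h2)) h
            | exact N.E_col _ _ _ _ (fun e => h (congrArg some e))
            | exact N.E_col _ _ _ _ h1
            | exact N.E_col _ _ _ _ (fun e => h1 e.symm)))

theorem cup_sum_row (p : Option P) (w : CupM N) : ∑ q, cupE N p q w = w := by
  rcases p with _ | p
  · refine CupM.ext ?_ ?_ fun t => ?_
    · rw [CupEE_sumv, Fintype.sum_option]
      simp only [cupE_nn_v, cupE_nn_none, cupE_nn_some, cupE_ns_v, cupE_ns_none, cupE_ns_some,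
      cupE_sn_v, cupE_sn_none, cupE_ss_v, cupE_ss_none, CupEE_sn, CupEE_ss, map_zero, Finset.sum_const_zero, add_zero]
    · rw [CupEE_summ, Fintype.sum_option]
      simp only [cupE_nn_v, cupE_nn_none, cupE_nn_some, cupE_ns_v, cupE_ns_none, cupE_ns_some,
      cupE_sn_v, cupE_sn_none, cupE_ss_v, cupE_ss_none, CupEE_sn, CupEE_ss, map_zero, Finset.sum_const_zero, add_zero]
    · rw [CupEE_summ, Fintype.sum_option]
      simp only [cupE_nn_v, cupE_nn_none, cupE_nn_some, cupE_ns_v, cupE_ns_none, cupE_ns_some,
      cupE_sn_v, cupE_sn_none, cupE_ss_v, cupE_ss_none, CupEE_sn, CupEE_ss, map_zero, zero_add]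
      exact N.sum_row _ _
  · refine CupM.ext ?_ ?_ fun t => ?_
    · rw [CupEE_sumv, Fintype.sum_option]
      simp only [cupE_nn_v, cupE_nn_none, cupE_nn_some, cupE_ns_v, cupE_ns_none, cupE_ns_some,
      cupE_sn_v, cupE_sn_none, cupE_ss_v, cupE_ss_none, CupEE_sn, CupEE_ss, map_zero, zero_add]
      exact N.sum_row _ _
    · rw [CupEE_summ, Fintype.sum_option]
      simp only [cupE_nn_v, cupE_nn_none, cupE_nn_some, cupE_ns_v, cupE_ns_none, cupE_ns_some,
      cupE_sn_v, cupE_sn_none, cupE_ss_v, cupE_ss_none, CupEE_sn, CupEE_ss, map_zero, zero_add]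
      exact N.sum_row _ _
    · rw [CupEE_summ, Fintype.sum_option]
      simp only [cupE_nn_v, cupE_nn_none, cupE_nn_some, cupE_ns_v, cupE_ns_none, cupE_ns_some,
      cupE_sn_v, cupE_sn_none, cupE_ss_v, cupE_ss_none, CupEE_sn, CupEE_ss, map_zero]
      by_cases h : t = p
      · simp only [if_pos h, Finset.sum_const_zero, add_zero]
      · simp only [if_neg h, zero_add]
        exact N.sum_row _ _

theorem cup_sum_col (q : Option Q) (w : CupM N) : ∑ p, cupE N p q w = w := by
  rcases q with _ | q
  · refine CupM.ext ?_ ?_ fun t => ?_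
    · rw [CupEE_sumv, Fintype.sum_option]
      simp only [cupE_nn_v, cupE_nn_none, cupE_nn_some, cupE_ns_v, cupE_ns_none, cupE_ns_some,
      cupE_sn_v, cupE_sn_none, cupE_ss_v, cupE_ss_none, CupEE_sn, CupEE_ss, map_zero, Finset.sum_const_zero, add_zero]
    · rw [CupEE_summ, Fintype.sum_option]
      simp only [cupE_nn_v, cupE_nn_none, cupE_nn_some, cupE_ns_v, cupE_ns_none, cupE_ns_some,
      cupE_sn_v, cupE_sn_none, cupE_ss_v, cupE_ss_none, CupEE_sn, CupEE_ss, map_zero, Finset.sum_const_zero, add_zero]
    · rw [CupEE_summ, Fintype.sum_option]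
      simp only [cupE_nn_v, cupE_nn_none, cupE_nn_some, cupE_ns_v, cupE_ns_none, cupE_ns_some,
      cupE_sn_v, cupE_sn_none, cupE_ss_v, cupE_ss_none, CupEE_sn, CupEE_ss, map_zero, zero_add]
      rw [Finset.sum_ite_eq]
      exact if_pos (Finset.mem_univ _)
  · refine CupM.ext ?_ ?_ fun t => ?_
    · rw [CupEE_sumv, Fintype.sum_option]
      simp only [cupE_nn_v, cupE_nn_none, cupE_nn_some, cupE_ns_v, cupE_ns_none, cupE_ns_some,
      cupE_sn_v, cupE_sn_none, cupE_ss_v, cupE_ss_none, CupEE_sn, CupEE_ss, map_zero, zero_add]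
      exact N.sum_col _ _
    · rw [CupEE_summ, Fintype.sum_option]
      simp only [cupE_nn_v, cupE_nn_none, cupE_nn_some, cupE_ns_v, cupE_ns_none, cupE_ns_some,
      cupE_sn_v, cupE_sn_none, cupE_ss_v, cupE_ss_none, CupEE_sn, CupEE_ss, map_zero, zero_add]
      exact N.sum_col _ _
    · rw [CupEE_summ, Fintype.sum_option]
      simp only [cupE_nn_v, cupE_nn_none, cupE_nn_some, cupE_ns_v, cupE_ns_none, cupE_ns_some,
      cupE_sn_v, cupE_sn_none, cupE_ss_v, cupE_ss_none, CupEE_sn, CupEE_ss, map_zero]
      refine Eq.trans ?_ (N.sum_col q (w.2 (some t)))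
      have h1 : ∀ s : P, N.E s q (w.2 (some t)) =
          (if t = s then N.E t q (w.2 (some t)) else 0) +
            (if t = s then 0 else N.E s q (w.2 (some t))) := by
        intro s
        by_cases h : t = s
        · subst h
          rw [if_pos rfl, if_pos rfl, add_zero]
        · rw [if_neg h, if_neg h, zero_add]
      rw [Finset.sum_congr rfl fun s _ => h1 s, Finset.sum_add_distrib, Finset.sum_ite_eq,
        if_pos (Finset.mem_univ _)]

end Pool.Agent.Lib.MP_f2e65a_lc
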