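import Pool.Agent.Lib.MP_f2e65a_lc.CupDefs

/-! # CupSE: saddles and projections of a cup

JOB CupSE (100 lines).  For every statement: `rcases` on the elements of `Option P`, `Option Q`; then `CupM.ext` and the lemmas
`cupS1_..`, `cupS_..`, `cupE_..` of CupDefs.lean (all `rfl` or `if_pos`/`if_neg`), `by_cases` on equalities of points, and the axioms of
`N`: `N.x_E`, `N.S_E`, `N.S_E'`, `N.S_symm`, `map_zero`, `map_add`.
Example: `cup_S_E none (some r)`, `q = some q`: `S1_r (E none (some q) w) = E (some r) (some q) (S1_r w)`: component `v`: LHS `N.E r q (w.2 (some r))`,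
RHS `N.E r q ((S1_r w).1)`: equal.  Component `none`: LHS `N.x r (N.E r q (w.2 (some r)))`, RHS `N.E r q (N.x r (w.2 (some r)))`.  Component
`some r`: LHS `0 + N.x r 0 = 0`, RHS `0`.  Component `some t`: LHS `N.S t r (N.E t q (w.2 (some t)))`, RHS `N.E r q (N.S t r (w.2 (some t)))`: `S_E`.
All statements were tested numerically. -/

set_option autoImplicit false

namespace Pool.Agent.Lib.MP_f2e65a_lc

variable {k : Type} [Field k] {P Q : Type} [Fintype P] [DecidableEq P] [Fintype Q]
  [DecidableEq Q] (N : BN k P Q)

private theorem cupSE_S1E' (r t : P) (q : Option Q) (w : CupM N) (h : t ≠ r) :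
    cupS1 N r (cupE N (some t) q w) = cupE N (some t) q (cupS1 N r w) := by
  rcases q with _ | q
  · refine CupM.ext ?_ ?_ fun s => ?_
    · rw [cupS1_v, cupE_sn_ne _ _ _ _ h.symm, cupE_sn_v]
    · rw [cupS1_none, cupE_sn_ne _ _ _ _ h.symm, cupE_sn_none, map_zero]
    · by_cases hs : s = r
      · subst hs
        rw [cupS1_self, cupE_sn_none, cupE_sn_v, map_zero, add_zero, cupE_sn_ne _ _ _ _ h.symm]
      · rw [cupS1_ne _ _ _ _ hs]
        by_cases hst : s = t
        · subst hst
          rw [cupE_sn_self, cupE_sn_self, cupS1_ne _ _ _ _ hs]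
        · rw [cupE_sn_ne _ _ _ _ hst, cupE_sn_ne _ _ _ _ hst, map_zero]
  · refine CupM.ext ?_ ?_ fun s => ?_
    · rw [cupS1_v, cupE_ss_ne _ _ _ _ _ h.symm, cupE_ss_v, cupS1_v]
    · rw [cupS1_none, cupE_ss_ne _ _ _ _ _ h.symm, cupE_ss_none, cupS1_none, N.x_E]
    · by_cases hs : s = r
      · subst hs
        rw [cupS1_self, cupE_ss_none, cupE_ss_v, cupE_ss_ne _ _ _ _ _ h.symm, cupS1_self,
          map_add, N.x_E]
      · rw [cupS1_ne _ _ _ _ hs]
        by_cases hst : s = t
        · subst hst
          rw [cupE_ss_self, cupE_ss_self, map_zero]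
        · rw [cupE_ss_ne _ _ _ _ _ hst, cupE_ss_ne _ _ _ _ _ hst, cupS1_ne _ _ _ _ hs,
            N.S_E' s r t q _ hs (Ne.symm hst) h]

theorem cup_S_E (p r : Option P) (q : Option Q) (w : CupM N) (h : p ≠ r) :
    cupS N p r (cupE N p q w) = cupE N r q (cupS N p r w) := by
  rcases p with _ | p
  · rcases r with _ | r
    · exact absurd rfl h
    · rcases q with _ | q
      · change cupS1 N r (cupE N none none w) = cupE N (some r) none (cupS1 N r w)
        refine CupM.ext ?_ ?_ fun t => ?_
        · rw [cupS1_v, cupE_nn_some, cupE_sn_v]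
        · rw [cupS1_none, cupE_nn_some, cupE_sn_none, map_zero]
        · by_cases ht : t = r
          · subst ht
            rw [cupS1_self, cupE_nn_none, cupE_nn_v, cupE_sn_self, cupS1_self]
          · rw [cupS1_ne _ _ _ _ ht, cupE_nn_some, cupE_sn_ne _ _ _ _ ht, map_zero]
      · change cupS1 N r (cupE N none (some q) w) = cupE N (some r) (some q) (cupS1 N r w)
        refine CupM.ext ?_ ?_ fun t => ?_
        · rw [cupS1_v, cupE_ns_some, cupE_ss_v, cupS1_v]
        · rw [cupS1_none, cupE_ns_some, cupE_ss_none, cupS1_none, N.x_E]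
        · by_cases ht : t = r
          · subst ht
            rw [cupS1_self, cupE_ns_none, cupE_ns_v, cupE_ss_self, map_zero, add_zero]
          · rw [cupS1_ne _ _ _ _ ht, cupE_ns_some, cupE_ss_ne _ _ _ _ _ ht,
              cupS1_ne _ _ _ _ ht, N.S_E t r q _ ht]
  · rcases r with _ | r
    · rcases q with _ | q
      · change cupS1 N p (cupE N (some p) none w) = cupE N none none (cupS1 N p w)
        refine CupM.ext ?_ ?_ fun t => ?_
        · rw [cupS1_v, cupE_sn_self, cupE_nn_v, cupS1_v]
        · rw [cupS1_none, cupE_sn_self, cupE_nn_none, cupS1_none]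
        · by_cases ht : t = p
          · subst ht
            rw [cupS1_self, cupE_sn_none, cupE_sn_v, cupE_nn_some, map_zero, add_zero]
          · rw [cupS1_ne _ _ _ _ ht, cupE_sn_ne _ _ _ _ ht, cupE_nn_some, map_zero]
      · change cupS1 N p (cupE N (some p) (some q) w) = cupE N none (some q) (cupS1 N p w)
        refine CupM.ext ?_ ?_ fun t => ?_
        · rw [cupS1_v, cupE_ss_self, cupE_ns_v]
        · rw [cupS1_none, cupE_ss_self, cupE_ns_none, map_zero]
        · by_cases ht : t = p
          · subst ht
            rw [cupS1_self, cupE_ss_none, cupE_ss_v, cupE_ns_some, cupS1_self, map_add, N.x_E]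
          · rw [cupS1_ne _ _ _ _ ht, cupE_ss_ne _ _ _ _ _ ht, cupE_ns_some,
              cupS1_ne _ _ _ _ ht, N.S_symm t p _ ht, N.S_symm t p _ ht,
              N.S_E p t q _ (Ne.symm ht)]
    · have hpr : p ≠ r := fun h0 => h (by rw [h0])
      have hsw : ∀ t, t ≠ r → Equiv.swap p r t ≠ p := by
        intro t ht h0
        have h5 : Equiv.swap p r (Equiv.swap p r t) = Equiv.swap p r p := congrArg _ h0
        rw [Equiv.swap_apply_self, Equiv.swap_apply_left] at h5
        exact ht h5
      rcases q with _ | q
      · refine CupM.ext ?_ ?_ fun t => ?_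
        · rw [cupS_some_v, cupE_sn_v, cupE_sn_v, map_zero]
        · rw [cupS_some_none, cupE_sn_none, cupE_sn_none, map_zero]
        · rw [cupS_some_some]
          by_cases ht : t = r
          · subst ht
            rw [Equiv.swap_apply_right, cupE_sn_self, cupE_sn_self, cupS_some_some,
              Equiv.swap_apply_right]
          · rw [cupE_sn_ne _ _ _ _ (hsw t ht), cupE_sn_ne _ _ _ _ ht, map_zero]
      · refine CupM.ext ?_ ?_ fun t => ?_
        · rw [cupS_some_v, cupE_ss_v, cupE_ss_v, cupS_some_v, N.S_E p r q _ hpr]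
        · rw [cupS_some_none, cupE_ss_none, cupE_ss_none, cupS_some_none, N.S_E p r q _ hpr]
        · rw [cupS_some_some]
          by_cases ht : t = r
          · subst ht
            rw [Equiv.swap_apply_right, cupE_ss_self, cupE_ss_self, map_zero]
          · rw [cupE_ss_ne _ _ _ _ _ (hsw t ht), cupE_ss_ne _ _ _ _ _ ht, cupS_some_some,
              N.S_E p r q _ hpr]

theorem cup_S_E' (p r t : Option P) (q : Option Q) (w : CupM N) (h1 : p ≠ r) (h2 : t ≠ p)
    (h3 : t ≠ r) : cupS N p r (cupE N t q w) = cupE N t q (cupS N p r w) := by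
  rcases p with _ | p
  · rcases r with _ | r
    · exact absurd rfl h1
    · rcases t with _ | t
      · exact absurd rfl h2
      · exact cupSE_S1E' N r t q w fun h0 => h3 (by rw [h0])
  · rcases r with _ | r
    · rcases t with _ | t
      · exact absurd rfl h3
      · exact cupSE_S1E' N p t q w fun h0 => h2 (by rw [h0])
    · have hpr : p ≠ r := fun h0 => h1 (by rw [h0])
      rcases t with _ | t
      · rcases q with _ | q
        · refine CupM.ext ?_ ?_ fun s => ?_
          · rw [cupS_some_v, cupE_nn_v, cupE_nn_v, cupS_some_v]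
          · rw [cupS_some_none, cupE_nn_none, cupE_nn_none, cupS_some_none]
          · rw [cupS_some_some, cupE_nn_some, cupE_nn_some, map_zero]
        · refine CupM.ext ?_ ?_ fun s => ?_
          · rw [cupS_some_v, cupE_ns_v, cupE_ns_v, map_zero]
          · rw [cupS_some_none, cupE_ns_none, cupE_ns_none, map_zero]
          · rw [cupS_some_some, cupE_ns_some, cupE_ns_some, cupS_some_some]
            by_cases hs : s = p
            · subst hs
              rw [Equiv.swap_apply_left, N.S_symm s r _ hpr, N.S_symm s r _ hpr,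
                N.S_E r s q _ (Ne.symm hpr)]
            · by_cases hs' : s = r
              · subst hs'
                rw [Equiv.swap_apply_right, N.S_E p s q _ hpr]
              · rw [Equiv.swap_apply_of_ne_of_ne hs hs', N.S_E' p r s q _ hpr hs hs']
      · have htp : t ≠ p := fun h0 => h2 (by rw [h0])
        have htr : t ≠ r := fun h0 => h3 (by rw [h0])
        have hsw : ∀ s, s ≠ t → Equiv.swap p r s ≠ t := by
          intro s hs h0
          apply hs
          rw [← Equiv.swap_apply_self p r s, h0, Equiv.swap_apply_of_ne_of_ne htp htr]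
        rcases q with _ | q
        · refine CupM.ext ?_ ?_ fun s => ?_
          · rw [cupS_some_v, cupE_sn_v, cupE_sn_v, map_zero]
          · rw [cupS_some_none, cupE_sn_none, cupE_sn_none, map_zero]
          · rw [cupS_some_some]
            by_cases hs : s = t
            · subst hs
              rw [Equiv.swap_apply_of_ne_of_ne htp htr, cupE_sn_self, cupE_sn_self,
                cupS_some_some, Equiv.swap_apply_of_ne_of_ne htp htr]
            · rw [cupE_sn_ne _ _ _ _ (hsw s hs), cupE_sn_ne _ _ _ _ hs, map_zero]
        · refine CupM.ext ?_ ?_ fun s => ?_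
          · rw [cupS_some_v, cupE_ss_v, cupE_ss_v, cupS_some_v, N.S_E' p r t q _ hpr htp htr]
          · rw [cupS_some_none, cupE_ss_none, cupE_ss_none, cupS_some_none,
              N.S_E' p r t q _ hpr htp htr]
          · rw [cupS_some_some]
            by_cases hs : s = t
            · subst hs
              rw [Equiv.swap_apply_of_ne_of_ne htp htr, cupE_ss_self, cupE_ss_self, map_zero]
            · rw [cupE_ss_ne _ _ _ _ _ (hsw s hs), cupE_ss_ne _ _ _ _ _ hs, cupS_some_some,
                N.S_E' p r t q _ hpr htp htr]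

end Pool.Agent.Lib.MP_f2e65a_lc
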