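import Pool.Agent.Lib.MP_f2e65a_lc.CupDefs

/-! # CupSS: saddles of a cup

JOB CupSS (120 lines).  For every statement: `rcases` on the elements of `Option P`; then `CupM.ext` and the lemmas
`cupS1_..`, `cupS_..` of CupDefs.lean (all `rfl` or `if_pos`/`if_neg`), `by_cases` on equalities of points, and the axioms of
`N`: `N.x_x`, `N.x_sq`, `N.x_S`, `N.x_S_eq`, `N.S_symm`, `N.S_sq`, `N.S_S`, `N.S_S_S`, `map_add`.
`cup_S_symm`: `Equiv.swap_comm`, `N.S_symm`.
`cup_S_sq` for `(none, some r)`: component `v`: `(S1 w).2 (some r) = w.2 none + N.x r w.1` ; component `none`: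
`N.x r ((S1 w).2 (some r)) = N.x r (w.2 none)` (as `x_sq`); component `some r`: `(S1 w).2 none + N.x r ((S1 w).1) = 2 N.x r (w.2 (some r))`, to compare
with `x none + x (some r)` on the component `some r`: `N.x r + N.x r`; component `some t`: `S_sq`.
`cup_S_S_S`: the cases where one of `p`, `r`, `t` is `none`: e.g. `p = none`: `S (some r) (some t) (S1_r w) = S1_r (S1_t w)`: component `some r`: LHS
`N.S r t ((S1_r w).2 (some t)) = N.S r t (N.S t r (w.2 (some t))) = N.x r (w.2 (some t)) + N.x t (w.2 (some t))`; RHS
`(S1_t w).2 none + N.x r ((S1_t w).1) = N.x t (w.2 (some t)) + N.x r (w.2 (some t))`.  Component `some t`: LHS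
`N.S r t (w.2 none + N.x r w.1)`; RHS `N.S t r ((S1_t w).2 (some t)) = N.S t r (w.2 none + N.x t w.1)`: `S_symm`, `x_S`, `x_S_eq`.  Component
`some u`: `S r t (S u r (w.2 (some u))) = S u r (S u t (w.2 (some u)))`: `S_S_S` (with `S_symm`).  The others are similar.
All statements were tested numerically. -/

set_option autoImplicit false

namespace Pool.Agent.Lib.MP_f2e65a_lc

variable {k : Type} [Field k] {P Q : Type} [Fintype P] [DecidableEq P] [Fintype Q]
  [DecidableEq Q] (N : BN k P Q)

theorem cup_S_symm (p r : Option P) (w : CupM N) (h : p ≠ r) : cupS N p r w = cupS N r p w := by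
  rcases p with _ | p <;> rcases r with _ | r
  · exact absurd rfl h
  · rfl
  · rfl
  · have h' : p ≠ r := fun e => h (congrArg some e)
    refine CupM.ext ?_ ?_ fun t => ?_
    · exact N.S_symm _ _ _ h'
    · exact N.S_symm _ _ _ h'
    · rw [cupS_some_some, cupS_some_some, Equiv.swap_comm r p]
      exact N.S_symm _ _ _ h'

private theorem CupSS_sq1 (r : P) (w : CupM N) :
    cupS1 N r (cupS1 N r w) = cupx N none w + cupx N (some r) w := by
  refine CupM.ext ?_ ?_ fun t => ?_
  · change (cupS1 N r w).2 (some r) = w.2 none + N.x r w.1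
    exact cupS1_self N w r
  · change N.x r ((cupS1 N r w).2 (some r)) = 0 + N.x r (w.2 none)
    rw [cupS1_self, map_add, N.x_sq, add_zero, zero_add]
  · by_cases h : t = r
    · subst h
      rw [cupS1_self]
      rfl
    · rw [cupS1_ne N _ r t h, cupS1_ne N _ r t h]
      exact N.S_sq _ _ _ h

private theorem CupSS_sw {p r t : P} (h1 : p ≠ r) (h2 : p ≠ t) : Equiv.swap r t p = p :=
  Equiv.swap_apply_of_ne_of_ne h1 h2

theorem cup_S_sq (p r : Option P) (w : CupM N) (h : p ≠ r) :
    cupS N p r (cupS N p r w) = cupx N p w + cupx N r w := by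
  rcases p with _ | p <;> rcases r with _ | r
  · exact absurd rfl h
  · exact CupSS_sq1 N r w
  · rw [add_comm]
    exact CupSS_sq1 N p w
  · have h' : p ≠ r := fun e => h (congrArg some e)
    refine CupM.ext ?_ ?_ fun t => ?_
    · exact N.S_sq _ _ _ h'
    · exact N.S_sq _ _ _ h'
    · rw [cupS_some_some, cupS_some_some, Equiv.swap_apply_self]
      exact N.S_sq _ _ _ h'

private theorem CupSS_SS1 (r t u : P) (w : CupM N) (h2 : t ≠ u) (h5 : r ≠ t) (h6 : r ≠ u) :
    cupS1 N r (cupS N (some t) (some u) w) = cupS N (some t) (some u) (cupS1 N r w) := by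
  have hr : Equiv.swap t u r = r := CupSS_sw h5 h6
  refine CupM.ext ?_ ?_ fun a => ?_
  · rw [cupS1_v, cupS_some_some, hr, cupS_some_v, cupS1_v]
  · rw [cupS1_none, cupS_some_some, hr, cupS_some_none, cupS1_none]
    exact N.x_S _ _ _ _ h2
  · by_cases h : a = r
    · subst h
      rw [cupS1_self, cupS_some_some, hr, cupS1_self, cupS_some_none, cupS_some_v, map_add,
        N.x_S _ _ _ _ h2]
    · rw [cupS1_ne N _ r a h, cupS_some_some, cupS_some_some]
      by_cases ht : a = t
      · subst ht
        rw [Equiv.swap_apply_left, cupS1_ne N _ r u (Ne.symm h6), N.S_symm _ _ _ h2,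
          N.S_S_S _ _ _ _ (Ne.symm h2) h (Ne.symm h6), N.S_symm _ _ _ (Ne.symm h2)]
      · by_cases hu : a = u
        · subst hu
          rw [Equiv.swap_apply_right, cupS1_ne N _ r t (Ne.symm h5)]
          exact N.S_S_S _ _ _ _ h2 h (Ne.symm h5)
        · rw [CupSS_sw ht hu, cupS1_ne N _ r a h]
          exact N.S_S _ _ _ _ _ h h2 ht hu h5 h6

theorem cup_S_S (p r t u : Option P) (w : CupM N) (h1 : p ≠ r) (h2 : t ≠ u) (h3 : p ≠ t)
    (h4 : p ≠ u) (h5 : r ≠ t) (h6 : r ≠ u) :
    cupS N p r (cupS N t u w) = cupS N t u (cupS N p r w) := by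
  have hs : ∀ a b : P, (some a : Option P) ≠ some b → a ≠ b := fun a b h e => h (congrArg some e)
  rcases p with _ | p
  · rcases r with _ | r
    · exact absurd rfl h1
    · rcases t with _ | t
      · exact absurd rfl h3
      · rcases u with _ | u
        · exact absurd rfl h4
        · exact CupSS_SS1 N r t u w (hs _ _ h2) (hs _ _ h5) (hs _ _ h6)
  · rcases r with _ | r
    · rcases t with _ | t
      · exact absurd rfl h5
      · rcases u with _ | u
        · exact absurd rfl h6
        · exact CupSS_SS1 N p t u w (hs _ _ h2) (hs _ _ h3) (hs _ _ h4)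
    · rcases t with _ | t
      · rcases u with _ | u
        · exact absurd rfl h2
        · exact (CupSS_SS1 N u p r w (hs _ _ h1) (hs _ _ h4).symm (hs _ _ h6).symm).symm
      · rcases u with _ | u
        · exact (CupSS_SS1 N t p r w (hs _ _ h1) (hs _ _ h3).symm (hs _ _ h5).symm).symm
        · have g1 := hs _ _ h1
          have g2 := hs _ _ h2
          have g3 := hs _ _ h3
          have g4 := hs _ _ h4
          have g5 := hs _ _ h5
          have g6 := hs _ _ h6
          refine CupM.ext ?_ ?_ fun a => ?_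
          · exact N.S_S _ _ _ _ _ g1 g2 g3 g4 g5 g6
          · exact N.S_S _ _ _ _ _ g1 g2 g3 g4 g5 g6
          · rw [cupS_some_some, cupS_some_some, cupS_some_some, cupS_some_some]
            have hsw : Equiv.swap t u (Equiv.swap p r a) = Equiv.swap p r (Equiv.swap t u a) := by
              by_cases e1 : a = p
              · subst e1
                rw [Equiv.swap_apply_left, CupSS_sw g5 g6, CupSS_sw g3 g4, Equiv.swap_apply_left]
              · by_cases e2 : a = r
                · subst e2
                  rw [Equiv.swap_apply_right, CupSS_sw g3 g4, CupSS_sw g5 g6,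
                    Equiv.swap_apply_right]
                · rw [CupSS_sw e1 e2]
                  by_cases e3 : a = t
                  · subst e3
                    rw [Equiv.swap_apply_left, CupSS_sw g4.symm g6.symm]
                  · by_cases e4 : a = u
                    · subst e4
                      rw [Equiv.swap_apply_right, CupSS_sw g3.symm g5.symm]
                    · rw [CupSS_sw e3 e4, CupSS_sw e1 e2]
            rw [hsw]
            exact N.S_S _ _ _ _ _ g1 g2 g3 g4 g5 g6

private theorem CupSS_T1 (r t : P) (w : CupM N) (h : r ≠ t) :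
    cupS N (some r) (some t) (cupS1 N r w) = cupS1 N r (cupS1 N t w) := by
  refine CupM.ext ?_ ?_ fun a => ?_
  · rw [cupS_some_v, cupS1_v, cupS1_v, cupS1_ne N _ t r h]
  · rw [cupS_some_none, cupS1_none, cupS1_none, cupS1_ne N _ t r h, N.x_S _ _ _ _ h]
  · by_cases h1 : a = r
    · subst h1
      rw [cupS_some_some, Equiv.swap_apply_left, cupS1_ne N _ a t h.symm, cupS1_self, cupS1_none,
        cupS1_v, N.S_symm t a _ h.symm, N.S_sq _ _ _ h, add_comm]
    · by_cases h2 : a = t
      · subst h2
        rw [cupS_some_some, Equiv.swap_apply_right, cupS1_self, cupS1_ne N _ r a h1, cupS1_self,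
          map_add, map_add, N.S_symm a r _ h1, N.S_symm a r _ h1, ← N.x_S _ _ _ _ h,
          ← N.x_S _ _ _ _ h, N.x_S_eq _ _ _ h]
      · rw [cupS_some_some, CupSS_sw h1 h2, cupS1_ne N _ r a h1, cupS1_ne N _ r a h1,
          cupS1_ne N _ t a h2]
        exact N.S_S_S _ _ _ _ h1 h h2

private theorem CupSS_T2 (p t : P) (w : CupM N) (h : p ≠ t) :
    cupS1 N t (cupS1 N p w) = cupS1 N p (cupS N (some p) (some t) w) := by
  refine CupM.ext ?_ ?_ fun a => ?_
  · rw [cupS1_v, cupS1_ne N _ p t h.symm, cupS1_v, cupS_some_some, Equiv.swap_apply_left]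
    exact N.S_symm _ _ _ h.symm
  · rw [cupS1_none, cupS1_ne N _ p t h.symm, cupS1_none, cupS_some_some, Equiv.swap_apply_left,
      N.S_symm t p _ h.symm]
    exact (N.x_S_eq _ _ _ h).symm
  · by_cases h1 : a = t
    · subst h1
      rw [cupS1_self, cupS1_none, cupS1_v, cupS1_ne N _ p a h.symm, cupS_some_some,
        Equiv.swap_apply_right, N.S_symm a p _ h.symm, N.S_sq _ _ _ h]
    · by_cases h2 : a = p
      · subst h2
        rw [cupS1_ne N _ t a h1, cupS1_self, cupS1_self, cupS_some_none, cupS_some_v, map_add,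
          N.x_S _ _ _ _ h]
      · rw [cupS1_ne N _ t a h1, cupS1_ne N _ p a h2, cupS1_ne N _ p a h2, cupS_some_some,
          CupSS_sw h2 h1, N.S_symm a p _ h2, N.S_symm a p _ h2]
        exact N.S_S_S _ _ _ _ (Ne.symm h2) h1 h

private theorem CupSS_T3 (p r : P) (w : CupM N) (h : p ≠ r) :
    cupS1 N r (cupS N (some p) (some r) w) = cupS N (some p) (some r) (cupS1 N p w) := by
  refine CupM.ext ?_ ?_ fun a => ?_
  · rw [cupS1_v, cupS_some_some, Equiv.swap_apply_right, cupS_some_v, cupS1_v]
  · rw [cupS1_none, cupS_some_some, Equiv.swap_apply_right, cupS_some_none, cupS1_none,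
      ← N.x_S _ _ _ _ h]
    exact (N.x_S_eq _ _ _ h).symm
  · by_cases h1 : a = r
    · subst h1
      rw [cupS1_self, cupS_some_none, cupS_some_v, cupS_some_some, Equiv.swap_apply_right,
        cupS1_self, map_add, ← N.x_S p _ _ _ h, N.x_S_eq _ _ _ h]
    · by_cases h2 : a = p
      · subst h2
        rw [cupS1_ne N _ r a h1, cupS_some_some, cupS_some_some, Equiv.swap_apply_left,
          cupS1_ne N _ a r h.symm, N.S_symm r a _ h.symm]
      · rw [cupS1_ne N _ r a h1, cupS_some_some, cupS_some_some, CupSS_sw h2 h1,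
          cupS1_ne N _ p a h2, N.S_symm a r _ h1, N.S_symm a p _ h2]
        exact N.S_S_S _ _ _ _ h (Ne.symm h1) (Ne.symm h2)

theorem cup_S_S_S (p r t : Option P) (w : CupM N) (h1 : p ≠ r) (h2 : r ≠ t) (h3 : p ≠ t) :
    cupS N r t (cupS N p r w) = cupS N p r (cupS N p t w) := by
  have hs : ∀ a b : P, (some a : Option P) ≠ some b → a ≠ b := fun a b h e => h (congrArg some e)
  rcases p with _ | p
  · rcases r with _ | r
    · exact absurd rfl h1
    · rcases t with _ | t
      · exact absurd rfl h3
      · exact CupSS_T1 N r t w (hs _ _ h2)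
  · rcases r with _ | r
    · rcases t with _ | t
      · exact absurd rfl h2
      · exact CupSS_T2 N p t w (hs _ _ h3)
    · rcases t with _ | t
      · exact CupSS_T3 N p r w (hs _ _ h1)
      · have g1 := hs _ _ h1
        have g2 := hs _ _ h2
        have g3 := hs _ _ h3
        refine CupM.ext ?_ ?_ fun a => ?_
        · exact N.S_S_S _ _ _ _ g1 g2 g3
        · exact N.S_S_S _ _ _ _ g1 g2 g3
        · rw [cupS_some_some, cupS_some_some, cupS_some_some, cupS_some_some]
          have hsw : Equiv.swap p r (Equiv.swap r t a) = Equiv.swap p t (Equiv.swap p r a) := by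
            by_cases e1 : a = p
            · subst e1
              rw [CupSS_sw g1 g3, Equiv.swap_apply_left, CupSS_sw g1.symm g2]
            · by_cases e2 : a = r
              · subst e2
                rw [Equiv.swap_apply_left, Equiv.swap_apply_right, Equiv.swap_apply_left,
                  CupSS_sw g3.symm g2.symm]
              · rw [CupSS_sw e1 e2]
                by_cases e3 : a = t
                · subst e3
                  rw [Equiv.swap_apply_right, Equiv.swap_apply_right, Equiv.swap_apply_right]
                · rw [CupSS_sw e2 e3, CupSS_sw e1 e2, CupSS_sw e1 e3]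
          rw [hsw]
          exact N.S_S_S _ _ _ _ g1 g2 g3

end Pool.Agent.Lib.MP_f2e65a_lc
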