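import Pool.Agent.Lib.MP_f2e65a_lc.CupX
import Pool.Agent.Lib.MP_f2e65a_lc.CupSS
import Pool.Agent.Lib.MP_f2e65a_lc.CupEE
import Pool.Agent.Lib.MP_f2e65a_lc.CupSE

/-! # The functors `cup0` and `cap0` -/

set_option autoImplicit false
set_option linter.unusedVariables false

namespace Pool.Agent.Lib.MP_f2e65a_lc

variable {k : Type} [Field k] {P Q : Type} [Fintype P] [DecidableEq P] [Fintype Q]
  [DecidableEq Q]

/-- the cup of a Bar-Natan module -/
def cupObj (N : BN k P Q) : BN k (Option P) (Option Q) where
  M := CupM N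
  x := cupx N
  S := cupS N
  E := cupE N
  x_x := cup_x_x N
  x_sq := cup_x_sq N
  S_symm := cup_S_symm N
  x_S := cup_x_S N
  x_S_eq := cup_x_S_eq N
  S_sq := cup_S_sq N
  S_S := cup_S_S N
  S_S_S := cup_S_S_S N
  E_E p q r s w := cup_E_E N p r q s w
  E_idem := cup_E_idem N
  E_row := cup_E_row N
  E_col := cup_E_col N
  sum_row := cup_sum_row N
  sum_col := cup_sum_col N
  x_E := cup_x_E N
  S_E := cup_S_E N
  S_E' := cup_S_E' N

/-- the cup of a morphism -/
def cupMap {A B : BN k P Q} (f : Hom A B) : Hom (cupObj A) (cupObj B) :=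
  ⟨LinearMap.prodMap f.1 (LinearMap.pi fun τ => f.1 ∘ₗ LinearMap.proj τ), by
    refine ⟨?_, ?_, ?_⟩
    · intro p w
      rcases p with _ | t
      · refine CupM.ext rfl (map_zero f.1) fun r => ?_
        exact f.2.1 r _
      · exact CupM.ext (f.2.1 t _) (f.2.1 t _) fun r => f.2.1 t _
    · intro p r w h
      have key : ∀ r : P, ∀ w : CupM A, (LinearMap.prodMap f.1 (LinearMap.pi fun τ =>
          f.1 ∘ₗ LinearMap.proj τ)) (cupS1 A r w) = cupS1 B r ((LinearMap.prodMap f.1
          (LinearMap.pi fun τ => f.1 ∘ₗ LinearMap.proj τ)) w) := by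
        intro r w
        refine CupM.ext rfl (f.2.1 r _) fun t => ?_
        by_cases ht : t = r
        · subst ht
          rw [cupS1_self]
          change f.1 ((cupS1 A t w).2 (some t)) = _
          rw [cupS1_self, map_add, f.2.1]
          rfl
        · rw [cupS1_ne _ _ _ _ ht]
          change f.1 ((cupS1 A r w).2 (some t)) = _
          rw [cupS1_ne _ _ _ _ ht]
          exact f.2.2.1 t r _ ht
      rcases p with _ | p <;> rcases r with _ | r
      · exact absurd rfl h
      · exact key r w
      · exact key p w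
      · have hpr : p ≠ r := fun h' => h (congrArg some h')
        exact CupM.ext (f.2.2.1 p r _ hpr) (f.2.2.1 p r _ hpr) fun t => f.2.2.1 p r _ hpr
    · intro p q w
      have key1 : ∀ s : P, ∀ w : CupM A, (LinearMap.prodMap f.1 (LinearMap.pi fun τ =>
          f.1 ∘ₗ LinearMap.proj τ)) (cupE A (some s) none w) = cupE B (some s) none
          ((LinearMap.prodMap f.1 (LinearMap.pi fun τ => f.1 ∘ₗ LinearMap.proj τ)) w) := by
        intro s w
        refine CupM.ext (map_zero f.1) (map_zero f.1) fun r => ?_
        by_cases hr : r = s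
        · subst hr
          rw [cupE_sn_self]
          change f.1 ((cupE A (some r) none w).2 (some r)) = _
          rw [cupE_sn_self]
          rfl
        · rw [cupE_sn_ne _ _ _ _ hr]
          change f.1 ((cupE A (some s) none w).2 (some r)) = _
          rw [cupE_sn_ne _ _ _ _ hr, map_zero]
      have key2 : ∀ (s : P) (q : Q), ∀ w : CupM A, (LinearMap.prodMap f.1 (LinearMap.pi fun τ =>
          f.1 ∘ₗ LinearMap.proj τ)) (cupE A (some s) (some q) w) = cupE B (some s) (some q)
          ((LinearMap.prodMap f.1 (LinearMap.pi fun τ => f.1 ∘ₗ LinearMap.proj τ)) w) := by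
        intro s q w
        refine CupM.ext (f.2.2.2 s q _) (f.2.2.2 s q _) fun r => ?_
        by_cases hr : r = s
        · subst hr
          rw [cupE_ss_self]
          change f.1 ((cupE A (some r) (some q) w).2 (some r)) = _
          rw [cupE_ss_self, map_zero]
        · rw [cupE_ss_ne _ _ _ _ _ hr]
          change f.1 ((cupE A (some s) (some q) w).2 (some r)) = _
          rw [cupE_ss_ne _ _ _ _ _ hr]
          exact f.2.2.2 s q _
      rcases p with _ | s <;> rcases q with _ | q
      · exact CupM.ext rfl rfl fun r => map_zero f.1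
      · exact CupM.ext (map_zero f.1) (map_zero f.1) fun r => f.2.2.2 r q _
      · exact key1 s w
      · exact key2 s q w⟩

/-- the cup functor -/
def cup0 : Fct k P Q (Option P) (Option Q) where
  obj := cupObj
  map := cupMap
  map_id _ := rfl
  map_cmp _ _ := rfl
  map_add _ _ := rfl
  map_smul _ _ := rfl

/-- the cap of a Bar-Natan module -/
def capObj (A : BN k (Option P) (Option Q)) : BN k P Q where
  M := capSub A
  x := capx A
  S := capS A
  E := capE A
  x_x p r m := Subtype.ext (A.x_x _ _ _)
  x_sq p m := Subtype.ext (A.x_sq _ _)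
  S_symm p r m h := Subtype.ext (by
    rw [capS_coe A h, capS_coe A h.symm, A.S_symm _ _ _ (fun h' => h (Option.some.inj h'))])
  x_S t p r m h := Subtype.ext (by
    rw [capx_coe, capS_coe A h, capS_coe A h, capx_coe,
      A.x_S _ _ _ _ (fun h' => h (Option.some.inj h'))])
  x_S_eq p r m h := Subtype.ext (by
    rw [capx_coe, capx_coe, capS_coe A h, A.x_S_eq _ _ _ (fun h' => h (Option.some.inj h'))])
  S_sq p r m h := Subtype.ext (by
    rw [capS_coe A h, capS_coe A h, A.S_sq _ _ _ (fun h' => h (Option.some.inj h'))]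
    rfl)
  S_S p r t u m h1 h2 h3 h4 h5 h6 := Subtype.ext (by
    rw [capS_coe A h1, capS_coe A h2, capS_coe A h2, capS_coe A h1,
      A.S_S _ _ _ _ _ (fun h' => h1 (Option.some.inj h')) (fun h' => h2 (Option.some.inj h'))
        (fun h' => h3 (Option.some.inj h')) (fun h' => h4 (Option.some.inj h'))
        (fun h' => h5 (Option.some.inj h')) (fun h' => h6 (Option.some.inj h'))])
  S_S_S p r t m h1 h2 h3 := Subtype.ext (by
    rw [capS_coe A h2, capS_coe A h1, capS_coe A h1, capS_coe A h3,
      A.S_S_S _ _ _ _ (fun h' => h1 (Option.some.inj h')) (fun h' => h2 (Option.some.inj h'))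
        (fun h' => h3 (Option.some.inj h'))])
  E_E p q r s m := Subtype.ext (A.E_E _ _ _ _ _)
  E_idem p q m := Subtype.ext (A.E_idem _ _ _)
  E_row p q s m h := Subtype.ext (A.E_row _ _ _ _ (fun h' => h (Option.some.inj h')))
  E_col p r q m h := Subtype.ext (A.E_col _ _ _ _ (fun h' => h (Option.some.inj h')))
  sum_row p m := Subtype.ext (by
    have h := A.sum_row (some p) (m : A.M)
    rw [Fintype.sum_option] at h
    have h0 : A.E (some p) none (m : A.M) = 0 := by
      rw [← (mem_capSub A _).1 m.2]
      exact A.E_col _ _ _ _ (Option.some_ne_none p)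
    rw [h0, zero_add] at h
    rw [Submodule.coe_sum]
    exact h)
  sum_col q m := Subtype.ext (by
    have h := A.sum_col (some q) (m : A.M)
    rw [Fintype.sum_option] at h
    have h0 : A.E none (some q) (m : A.M) = 0 := by
      rw [← (mem_capSub A _).1 m.2]
      exact A.E_row _ _ _ _ (Option.some_ne_none q)
    rw [h0, zero_add] at h
    rw [Submodule.coe_sum]
    exact h)
  x_E t p q m := Subtype.ext (A.x_E _ _ _ _)
  S_E p r q m h := Subtype.ext (by
    rw [capS_coe A h, capE_coe, capE_coe, capS_coe A h,
      A.S_E _ _ _ _ (fun h' => h (Option.some.inj h'))])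
  S_E' p r t q m h1 h2 h3 := Subtype.ext (by
    rw [capS_coe A h1, capE_coe, capE_coe, capS_coe A h1,
      A.S_E' _ _ _ _ _ (fun h' => h1 (Option.some.inj h')) (fun h' => h2 (Option.some.inj h'))
        (fun h' => h3 (Option.some.inj h'))])

/-- the cap of a linear map -/
def capLin {A B : BN k (Option P) (Option Q)} (f : Hom A B) : capSub A →ₗ[k] capSub B :=
  f.1.restrict fun m hm => by
    rw [mem_capSub] at hm ⊢
    rw [← f.2.2.2, hm]

theorem capLin_coe {A B : BN k (Option P) (Option Q)} (f : Hom A B) (m : capSub A) :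
    (capLin f m : B.M) = f.1 m := rfl

/-- the cap of a morphism -/
def capMap {A B : BN k (Option P) (Option Q)} (f : Hom A B) : Hom (capObj A) (capObj B) :=
  ⟨capLin f,
    fun p m => Subtype.ext (f.2.1 _ _),
    fun p r (m : capSub A) h => Subtype.ext ((congrArg f.1 (capS_coe A h m)).trans
      ((f.2.2.1 _ _ _ (fun h' => h (Option.some.inj h'))).trans
        (capS_coe B h (capLin f m)).symm)),
    fun p q m => Subtype.ext (f.2.2.2 _ _ _)⟩

/-- the cap functor -/
def cap0 : Fct k (Option P) (Option Q) P Q where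
  obj := capObj
  map := capMap
  map_id _ := rfl
  map_cmp _ _ := rfl
  map_add _ _ := hom_ext fun m => Subtype.ext rfl
  map_smul _ _ := hom_ext fun m => Subtype.ext rfl

variable {P' Q' : Type} [Fintype P'] [DecidableEq P'] [Fintype Q'] [DecidableEq Q']

/-- join the endpoints `e none`, `f none` -/
def capF (e : Option P' ≃ P) (f : Option Q' ≃ Q) : Fct k P Q P' Q' := cap0.comp (relabel e f)

/-- add an arc between the new endpoints `e none`, `f none` -/
def cupF (e : Option P' ≃ P) (f : Option Q' ≃ Q) : Fct k P' Q' P Q :=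
  (relabel e.symm f.symm).comp cup0

end Pool.Agent.Lib.MP_f2e65a_lc
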