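import Pool.Agent.Lib.MP_f2e65a_lc.U

/-! # Basic lemmas on morphisms -/

set_option autoImplicit false
set_option linter.unusedVariables false

namespace Pool.Agent.Lib.MP_f2e65a_lc

variable {k : Type} [Field k] {P Q P' Q' : Type} [Fintype P] [DecidableEq P] [Fintype Q]
  [DecidableEq Q] [Fintype P'] [DecidableEq P'] [Fintype Q'] [DecidableEq Q']

theorem cmp_apply {A B C : BN k P Q} (g : Hom B C) (f : Hom A B) (m : A.M) :
    (cmp g f).1 m = g.1 (f.1 m) := rfl
theorem idH_apply (A : BN k P Q) (m : A.M) : (idH A).1 m = m := rfl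
theorem add_apply {A B : BN k P Q} (f g : Hom A B) (m : A.M) :
    (f + g).1 m = f.1 m + g.1 m := rfl
theorem smul_apply {A B : BN k P Q} (c : k) (f : Hom A B) (m : A.M) :
    (c • f).1 m = c • f.1 m := rfl
theorem zero_apply {A B : BN k P Q} (m : A.M) : (0 : Hom A B).1 m = 0 := rfl
theorem neg_apply {A B : BN k P Q} (f : Hom A B) (m : A.M) : (-f).1 m = -f.1 m := rfl
theorem sub_apply {A B : BN k P Q} (f g : Hom A B) (m : A.M) :
    (f - g).1 m = f.1 m - g.1 m := rfl

theorem cmp_id {A B : BN k P Q} (f : Hom A B) : cmp f (idH A) = f := rfl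
theorem id_cmp {A B : BN k P Q} (f : Hom A B) : cmp (idH B) f = f := rfl
theorem cmp_assoc {A B C D : BN k P Q} (h : Hom C D) (g : Hom B C) (f : Hom A B) :
    cmp (cmp h g) f = cmp h (cmp g f) := rfl
theorem cmp_add {A B C : BN k P Q} (g : Hom B C) (f f' : Hom A B) :
    cmp g (f + f') = cmp g f + cmp g f' := hom_ext fun m => map_add g.1 _ _
theorem add_cmp {A B C : BN k P Q} (g g' : Hom B C) (f : Hom A B) :
    cmp (g + g') f = cmp g f + cmp g' f := rfl
theorem cmp_sub {A B C : BN k P Q} (g : Hom B C) (f f' : Hom A B) :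
    cmp g (f - f') = cmp g f - cmp g f' := hom_ext fun m => map_sub g.1 _ _
theorem sub_cmp {A B C : BN k P Q} (g g' : Hom B C) (f : Hom A B) :
    cmp (g - g') f = cmp g f - cmp g' f := hom_ext fun _ => rfl
theorem cmp_neg {A B C : BN k P Q} (g : Hom B C) (f : Hom A B) :
    cmp g (-f) = -cmp g f := hom_ext fun m => map_neg g.1 _
theorem neg_cmp {A B C : BN k P Q} (g : Hom B C) (f : Hom A B) :
    cmp (-g) f = -cmp g f := hom_ext fun _ => rfl
theorem cmp_smul {A B C : BN k P Q} (c : k) (g : Hom B C) (f : Hom A B) :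
    cmp g (c • f) = c • cmp g f := hom_ext fun m => map_smul g.1 _ _
theorem smul_cmp {A B C : BN k P Q} (c : k) (g : Hom B C) (f : Hom A B) :
    cmp (c • g) f = c • cmp g f := rfl
theorem cmp_zero {A B C : BN k P Q} (g : Hom B C) : cmp g (0 : Hom A B) = 0 :=
  hom_ext fun m => map_zero g.1
theorem zero_cmp {A B C : BN k P Q} (f : Hom A B) : cmp (0 : Hom B C) f = 0 := rfl

theorem Cx.dd_apply (D : Cx k P Q) (m : D.A.M) : D.d.1 (D.d.1 m) = 0 :=
  congrArg (fun f => f.1 m) D.dd

theorem Fct.map_zero (F : Fct k P Q P' Q') (A B : BN k P Q) : F.map (0 : Hom A B) = 0 := by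
  have h := F.map_smul (0 : k) (0 : Hom A B)
  rw [zero_smul, zero_smul] at h
  exact h

theorem Fct.map_neg (F : Fct k P Q P' Q') {A B : BN k P Q} (f : Hom A B) :
    F.map (-f) = -F.map f := by
  have h := F.map_smul (-1 : k) f
  have e1 : (-1 : k) • f = -f := neg_one_smul k f
  have e2 : (-1 : k) • F.map f = -F.map f := neg_one_smul k (F.map f)
  rw [e1, e2] at h
  exact h

theorem Fct.map_sub (F : Fct k P Q P' Q') {A B : BN k P Q} (f g : Hom A B) :
    F.map (f - g) = F.map f - F.map g := by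
  rw [sub_eq_add_neg, F.map_add, F.map_neg, ← sub_eq_add_neg]

theorem Tst.map_zero (F : Tst k P Q) (A B : BN k P Q) : F.map (0 : Hom A B) = 0 := by
  have h := F.map_smul (0 : k) (0 : Hom A B)
  rw [zero_smul, zero_smul] at h
  exact h

section prod

variable (A B : BN k P Q)

/-- inclusion of the first factor -/
def inlH : Hom A (A.prod B) :=
  ⟨LinearMap.inl k A.M B.M, fun p m => Prod.ext rfl (map_zero (B.x p)).symm,
    fun p r m h => Prod.ext rfl (map_zero (B.S p r)).symm,
    fun p q m => Prod.ext rfl (map_zero (B.E p q)).symm⟩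

/-- inclusion of the second factor -/
def inrH : Hom B (A.prod B) :=
  ⟨LinearMap.inr k A.M B.M, fun p m => Prod.ext (map_zero (A.x p)).symm rfl,
    fun p r m h => Prod.ext (map_zero (A.S p r)).symm rfl,
    fun p q m => Prod.ext (map_zero (A.E p q)).symm rfl⟩

/-- first projection -/
def fstH : Hom (A.prod B) A :=
  ⟨LinearMap.fst k A.M B.M, fun p m => rfl, fun p r m h => rfl, fun p q m => rfl⟩

/-- second projection -/
def sndH : Hom (A.prod B) B :=
  ⟨LinearMap.snd k A.M B.M, fun p m => rfl, fun p r m h => rfl, fun p q m => rfl⟩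

theorem inlH_apply (m : A.M) : (inlH A B).1 m = ((m, 0) : A.M × B.M) := rfl
theorem inrH_apply (m : B.M) : (inrH A B).1 m = ((0, m) : A.M × B.M) := rfl
theorem fst_inl : cmp (fstH A B) (inlH A B) = idH A := rfl
theorem snd_inr : cmp (sndH A B) (inrH A B) = idH B := rfl
theorem fst_inr : cmp (fstH A B) (inrH A B) = 0 := rfl
theorem snd_inl : cmp (sndH A B) (inlH A B) = 0 := rfl
theorem inl_fst_add : cmp (inlH A B) (fstH A B) + cmp (inrH A B) (sndH A B) =
    idH (A.prod B) :=
  hom_ext fun m => Prod.ext (add_zero (m : A.M × B.M).1) (zero_add (m : A.M × B.M).2)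

end prod

/-- the coordinates of an element of the cone -/
theorem cone_d_apply (G : PFct k P Q) (D : Cx k P Q) (m : D.A.M) (w : (G.obj D.A).M) :
    (cone G D).d.1 ((m, w) : D.A.M × (G.obj D.A).M) =
      ((D.d.1 m, (G.eta D.A).1 m - (G.map D.d).1 w) : D.A.M × (G.obj D.A).M) := rfl

end Pool.Agent.Lib.MP_f2e65a_lc
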