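import Pool.Agent.Lib.MP_f2e65a_lc.CupAdjS
import Pool.Agent.Lib.MP_f2e65a_lc.RetDefs

/-! # CupAdj: morphisms from a cup and from `U p q`

`cgen n = (0, single none n)`, `ugen b = (0, single p b)` (for `E p q b = b`).
* `cup_hom`: `cupAdj` is a morphism (`cupAdj_x`, `cupAdj_S`, `cupAdj_E`), `cupAdj (cgen n) = X 0 + u n + ∑ S 0 = u n`.
* `cup_ext`: `(v, m) = x none (cgen v) + cgen (m none) + ∑ r, S none (some r) (cgen (m (some r)))`: coordinates: `cupx none (0, single none v) = (v, 0)`, `cupS1 r (0, single none n) = (0, single (some r) n)`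
 (`CupM.ext`, `Finset.sum_apply`, `Prod.fst_sum`, `Finset.sum_eq_single`).  Two morphisms which agree on all `cgen n` agree on `(v, m)`.
* `U_hom`, `U_ext`: the same for `U p q`, through the isomorphism `uΦ` with the cup of the cap: `e = Equiv.optionSubtypeNe p`, `f = Equiv.optionSubtypeNe q`, `N = (capF e f).obj B`,
 `C' = (relabel e f).obj C`.  `u` restricted to `N` (`u ∘ capι`) is a `CupHom N C'`.  The morphism `cup_hom` from `cupObj N` to `C'`, composed with `uΦ`, commutes with all operators: `uΦ_x'`,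
 `uΦ_S'`, `uΦ_E'` and `((cupF e f).obj N).x t = (cupObj N).x (e.symm t)`.  `uΦ (ugen b) = cgen (capMk b)`.  The formula of `U_hom`: `cupAdj_apply` and
 `∑ r : {b // b ≠ p}, g (e (some r)) = ∑ τ, if τ = p then 0 else g τ` (`e.sum_comp`, `Fintype.sum_option`).
 Or prove them directly as in the files CupAdjX, CupAdjS.  `U_ext`: `w = x p (ugen v) + ugen (m p) + ∑ τ ≠ p, S p τ (ugen (m τ))`, as above with `ux_*`, `uS1_*`. -/

set_option autoImplicit false
set_option linter.unusedVariables false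

namespace Pool.Agent.Lib.MP_f2e65a_lc

variable {k : Type} [Field k] {P Q : Type} [Fintype P] [DecidableEq P] [Fintype Q]
  [DecidableEq Q]

/-- generators of the cup -/
def cgen (N : BN k P Q) : N.M →ₗ[k] (cupObj N).M :=
  LinearMap.inr k N.M (Option P → N.M) ∘ₗ LinearMap.single k (fun _ : Option P => N.M) none

/-- the generator as a pair -/
private def CupAdj_cg (N : BN k P Q) (n : N.M) : CupM N := (0, Pi.single none n)

private theorem CupAdj_cgen (N : BN k P Q) (n : N.M) :
    (cgen N n : CupM N) = CupAdj_cg N n := rfl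

private theorem CupAdj_cg_v (N : BN k P Q) (n : N.M) : (CupAdj_cg N n).1 = 0 := rfl

private theorem CupAdj_cg_none (N : BN k P Q) (n : N.M) : (CupAdj_cg N n).2 none = n :=
  Pi.single_eq_same (M := fun _ : Option P => N.M) none n

private theorem CupAdj_cg_some (N : BN k P Q) (n : N.M) (r : P) :
    (CupAdj_cg N n).2 (some r) = 0 :=
  Pi.single_eq_of_ne (M := fun _ : Option P => N.M) (Option.some_ne_none r) n

/-- the map from the cup as a morphism -/
private def CupAdj_hom (N : BN k P Q) (C : BN k (Option P) (Option Q)) (u : N.M →ₗ[k] C.M)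
    (h : CupHom N C u) : Hom (cupObj N) C :=
  ⟨cupAdj N C u, fun t w => cupAdj_x N C u h t w,
    fun t s w hts => cupAdj_S N C u h t s hts w, fun t s w => cupAdj_E N C u h t s w⟩

private theorem CupAdj_hom_apply (N : BN k P Q) (C : BN k (Option P) (Option Q))
    (u : N.M →ₗ[k] C.M) (h : CupHom N C u) (w : CupM N) :
    (CupAdj_hom N C u h).1 w = cupAdj N C u w := rfl

theorem cup_hom (N : BN k P Q) (C : BN k (Option P) (Option Q)) (u : N.M →ₗ[k] C.M)
    (h : CupHom N C u) : ∃ F : Hom (cupObj N) C, ∀ n, F.1 (cgen N n) = u n := by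
  refine ⟨CupAdj_hom N C u h, fun n => ?_⟩
  change cupAdj N C u (CupAdj_cg N n) = u n
  rw [cupAdj_apply, CupAdj_cg_v, CupAdj_cg_none, map_zero, map_zero, zero_add,
    Finset.sum_eq_zero, add_zero]
  intro r _
  rw [CupAdj_cg_some, map_zero, map_zero]

private theorem CupAdj_decomp (N : BN k P Q) (w : CupM N) :
    w = cupx N none (CupAdj_cg N w.1) + CupAdj_cg N (w.2 none) +
      ∑ r, cupS1 N r (CupAdj_cg N (w.2 (some r))) := by
  refine CupM.ext ?_ ?_ fun t => ?_
  · rw [Prod.fst_add, Prod.fst_add, Prod.fst_sum, cupx_none_v, CupAdj_cg_none, CupAdj_cg_v,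
      add_zero, Finset.sum_eq_zero, add_zero]
    intro r _
    rw [cupS1_v, CupAdj_cg_some]
  · rw [Prod.snd_add, Prod.snd_add, Prod.snd_sum, Pi.add_apply, Pi.add_apply,
      Finset.sum_apply, cupx_none_none, CupAdj_cg_none, zero_add, Finset.sum_eq_zero, add_zero]
    intro r _
    rw [cupS1_none, CupAdj_cg_some, map_zero]
  · rw [Prod.snd_add, Prod.snd_add, Prod.snd_sum, Pi.add_apply, Pi.add_apply,
      Finset.sum_apply, cupx_none_some, CupAdj_cg_some, CupAdj_cg_some, map_zero, zero_add,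
      zero_add, Finset.sum_eq_single t]
    · rw [cupS1_self, CupAdj_cg_none, CupAdj_cg_v, map_zero, add_zero]
    · intro r _ hr
      rw [cupS1_ne _ _ _ _ hr.symm, CupAdj_cg_some, map_zero]
    · intro h
      exact absurd (Finset.mem_univ t) h

theorem cup_ext (N : BN k P Q) (C : BN k (Option P) (Option Q)) (F F' : Hom (cupObj N) C)
    (h : ∀ n, F.1 (cgen N n) = F'.1 (cgen N n)) : F = F' := by
  refine hom_ext fun (w : CupM N) => ?_
  have key : ∀ G : Hom (cupObj N) C, G.1 w = C.x none (G.1 (cgen N w.1)) +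
      G.1 (cgen N (w.2 none)) + ∑ r, C.S none (some r) (G.1 (cgen N (w.2 (some r)))) := by
    intro G
    have h1 : G.1 w = G.1 ((cupObj N).x none (cgen N w.1) + cgen N (w.2 none) +
        ∑ r, (cupObj N).S none (some r) (cgen N (w.2 (some r)))) :=
      congrArg G.1 (CupAdj_decomp N w)
    rw [h1, map_add, map_add, map_sum, G.2.1]
    congr 1
    refine Finset.sum_congr rfl fun r _ => ?_
    exact G.2.2.1 none (some r) _ (Option.some_ne_none r).symm
  rw [key F, key F', h, h]
  congr 1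
  exact Finset.sum_congr rfl fun r _ => by rw [h]

/-- generators of `U p q B` -/
def ugen (B : BN k P Q) (p : P) (q : Q) (b : B.M) (hb : B.E p q b = b) : (uobj B p q).M :=
  ucMk B p q (0, Pi.single p b) (by
    refine ⟨map_zero _, fun τ => ?_⟩
    by_cases hτ : τ = p
    · subst hτ
      change B.E τ q (Pi.single (M := fun _ => B.M) τ b τ) = Pi.single (M := fun _ => B.M) τ b τ
      rw [Pi.single_eq_same, hb]
    · change B.E p q (Pi.single (M := fun _ => B.M) p b τ) = Pi.single (M := fun _ => B.M) p b τ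
      rw [Pi.single_eq_of_ne hτ, map_zero])

/-- the linear map `u : B.M → C.M` restricts to a morphism of the caps at `p`, `q` -/
structure UHom (B C : BN k P Q) (p : P) (q : Q) (u : B.M →ₗ[k] C.M) : Prop where
  mem : ∀ b, B.E p q b = b → C.E p q (u b) = u b
  hx : ∀ t b, t ≠ p → B.E p q b = b → u (B.x t b) = C.x t (u b)
  hS : ∀ t s b, t ≠ s → t ≠ p → s ≠ p → B.E p q b = b → u (B.S t s b) = C.S t s (u b)
  hE : ∀ t s b, t ≠ p → s ≠ q → B.E p q b = b → u (B.E t s b) = C.E t s (u b)

section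

variable {P' Q' : Type} [Fintype P'] [DecidableEq P'] [Fintype Q'] [DecidableEq Q']

private theorem CupAdj_capHom (B C : BN k P Q) {p : P} {q : Q} (e : Option P' ≃ P)
    (f : Option Q' ≃ Q) (he : e none = p) (hf : f none = q) (u : B.M →ₗ[k] C.M)
    (h : UHom B C p q u) :
    CupHom (capObj ((relabel e f).obj B)) ((relabel e f).obj C)
      (u ∘ₗ capι ((relabel e f).obj B)) := by
  have hne : ∀ t : P', e (some t) ≠ p := fun t h' =>
    Option.some_ne_none t (e.injective (h'.trans he.symm))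
  have hnf : ∀ s : Q', f (some s) ≠ q := fun s h' =>
    Option.some_ne_none s (f.injective (h'.trans hf.symm))
  have hmem : ∀ n, B.E p q (capι ((relabel e f).obj B) n) = capι ((relabel e f).obj B) n := by
    intro n
    subst he hf
    exact capι_E_none ((relabel e f).obj B) n
  refine ⟨fun n => ?_, fun t n => ?_, fun t s n hts => ?_, fun t s n => ?_⟩
  · subst he hf
    exact h.mem _ (hmem n)
  · exact h.hx (e (some t)) _ (hne t) (hmem n)
  · refine (congrArg u (capι_S ((relabel e f).obj B) t s hts n)).trans ?_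
    exact h.hS (e (some t)) (e (some s)) _
      (fun h' => hts (Option.some.inj (e.injective h'))) (hne t) (hne s) (hmem n)
  · exact h.hE (e (some t)) (f (some s)) _ (hne t) (hnf s) (hmem n)

private theorem CupAdj_U (B C : BN k P Q) (p : P) (q : Q) (e : Option P' ≃ P)
    (f : Option Q' ≃ Q) (he : e none = p) (hf : f none = q) (u : B.M →ₗ[k] C.M)
    (h : UHom B C p q u) :
    ∃ F : Usub B p q →ₗ[k] C.M,
      (∀ t w, F (uxR B p q t w) = C.x t (F w)) ∧
      (∀ t s, t ≠ s → ∀ w, F (uSR B p q t s w) = C.S t s (F w)) ∧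
      (∀ t s w, F (uER B p q t s w) = C.E t s (F w)) ∧
      ∀ w : Usub B p q, F w = C.x p (u w.1.1) + u (w.1.2 p) +
        ∑ τ, if τ = p then 0 else C.S p τ (u (w.1.2 τ)) := by
  have hc := CupAdj_capHom B C e f he hf u h
  have hH := CupAdj_hom_apply _ _ _ hc
  generalize hHdef : CupAdj_hom _ _ _ hc = H at hH
  refine ⟨H.1 ∘ₗ uΦ B e f he hf, fun t w => ?_, fun t s hts w => ?_, fun t s w => ?_,
    fun w => ?_⟩
  · change H.1 (uΦ B e f he hf (uxR B p q t w)) = C.x t (H.1 (uΦ B e f he hf w))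
    rw [uΦ_x']
    have h1 := H.2.1 (e.symm t) (uΦ B e f he hf w)
    refine h1.trans ?_
    change C.x (e (e.symm t)) _ = _
    rw [e.apply_symm_apply]
  · change H.1 (uΦ B e f he hf (uSR B p q t s w)) = C.S t s (H.1 (uΦ B e f he hf w))
    rw [uΦ_S' _ _ _ _ _ _ _ hts]
    have h1 := H.2.2.1 (e.symm t) (e.symm s) (uΦ B e f he hf w)
      (fun h' => hts (e.symm.injective h'))
    refine h1.trans ?_
    change C.S (e (e.symm t)) (e (e.symm s)) _ = _
    rw [e.apply_symm_apply, e.apply_symm_apply]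
  · change H.1 (uΦ B e f he hf (uER B p q t s w)) = C.E t s (H.1 (uΦ B e f he hf w))
    rw [uΦ_E']
    have h1 := H.2.2.2 (e.symm t) (f.symm s) (uΦ B e f he hf w)
    refine h1.trans ?_
    change C.E (e (e.symm t)) (f (f.symm s)) _ = _
    rw [e.apply_symm_apply, f.apply_symm_apply]
  · change H.1 (uΦ B e f he hf w) = _
    refine (hH _).trans ((cupAdj_apply _ _ _ _).trans ?_)
    change C.x (e none) (u w.1.1) + u (w.1.2 (e none)) +
      ∑ r : P', C.S (e none) (e (some r)) (u (w.1.2 (e (some r)))) = _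
    rw [← e.sum_comp, Fintype.sum_option, if_pos he, zero_add, he]
    congr 1
    refine Finset.sum_congr rfl fun r _ => ?_
    rw [if_neg fun h' => Option.some_ne_none r (e.injective (h'.trans he.symm))]

end

theorem U_hom (B C : BN k P Q) (p : P) (q : Q) (u : B.M →ₗ[k] C.M) (h : UHom B C p q u) :
    ∃ F : Hom (uobj B p q) C, (∀ b hb, F.1 (ugen B p q b hb) = u b) ∧
      ∀ w, F.1 w = C.x p (u (uc B p q w).1) + u ((uc B p q w).2 p) +
        ∑ τ, if τ = p then 0 else C.S p τ (u ((uc B p q w).2 τ)) := by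
  obtain ⟨F0, hF0⟩ := CupAdj_U B C p q (Equiv.optionSubtypeNe p) (Equiv.optionSubtypeNe q)
    (Equiv.optionSubtypeNe_none p) (Equiv.optionSubtypeNe_none q) u h
  have hform : ∀ w : Usub B p q, F0 w = C.x p (u w.1.1) + u (w.1.2 p) +
      ∑ τ, if τ = p then 0 else C.S p τ (u (w.1.2 τ)) := hF0.2.2.2
  refine ⟨⟨F0, fun t w => hF0.1 t w, fun t s w hts => hF0.2.1 t s hts w,
    fun t s w => hF0.2.2.1 t s w⟩, fun b hb => ?_, fun w => hform w⟩
  refine (hform (ugen B p q b hb)).trans ?_
  change C.x p (u 0) + u ((Pi.single p b : P → B.M) p) +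
    (∑ τ, if τ = p then 0 else C.S p τ (u ((Pi.single p b : P → B.M) τ))) = u b
  rw [map_zero, map_zero, zero_add, Pi.single_eq_same, Finset.sum_eq_zero, add_zero]
  intro τ _
  by_cases hτ : τ = p
  · rw [if_pos hτ]
  · rw [if_neg hτ, Pi.single_eq_of_ne hτ, map_zero, map_zero]

private theorem CupAdj_ugen_v (B : BN k P Q) (p : P) (q : Q) (b : B.M) (hb : B.E p q b = b) :
    (uc B p q (ugen B p q b hb)).1 = 0 := rfl

private theorem CupAdj_ugen_p (B : BN k P Q) (p : P) (q : Q) (b : B.M) (hb : B.E p q b = b) :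
    (uc B p q (ugen B p q b hb)).2 p = b :=
  Pi.single_eq_same (M := fun _ : P => B.M) p b

private theorem CupAdj_ugen_ne (B : BN k P Q) (p : P) (q : Q) (b : B.M) (hb : B.E p q b = b)
    (τ : P) (hτ : τ ≠ p) : (uc B p q (ugen B p q b hb)).2 τ = 0 :=
  Pi.single_eq_of_ne (M := fun _ : P => B.M) hτ b

private theorem CupAdj_udecomp (B : BN k P Q) (p : P) (q : Q) (w : (uobj B p q).M) :
    w = (uobj B p q).x p (ugen B p q (uc B p q w).1 (uc_v B p q w)) +
      ugen B p q ((uc B p q w).2 p) (uc_m B p q w p) +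
      ∑ τ, if τ = p then 0 else
        (uobj B p q).S p τ (ugen B p q ((uc B p q w).2 τ) (uc_m B p q w τ)) := by
  apply uc_injective
  rw [map_add, map_add, map_sum, uc_x]
  have hS : ∀ τ, uc B p q (if τ = p then 0 else
      (uobj B p q).S p τ (ugen B p q ((uc B p q w).2 τ) (uc_m B p q w τ))) =
      if τ = p then 0 else uS1 B p τ (uc B p q
        (ugen B p q ((uc B p q w).2 τ) (uc_m B p q w τ))) := by
    intro τ
    by_cases hτ : τ = p
    · rw [if_pos hτ, if_pos hτ, map_zero]
    · rw [if_neg hτ, if_neg hτ, uc_S, uS_p B hτ]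
  rw [Finset.sum_congr rfl fun τ _ => hS τ]
  refine Prod.ext ?_ (funext fun t => ?_)
  · rw [Prod.fst_add, Prod.fst_add, Prod.fst_sum, ux_p_v, CupAdj_ugen_p, CupAdj_ugen_v,
      add_zero, Finset.sum_eq_zero, add_zero]
    intro τ _
    by_cases hτ : τ = p
    · rw [if_pos hτ, Prod.fst_zero]
    · rw [if_neg hτ, uS1_v, CupAdj_ugen_ne _ _ _ _ _ _ hτ]
  · rw [Prod.snd_add, Prod.snd_add, Prod.snd_sum, Pi.add_apply, Pi.add_apply,
      Finset.sum_apply]
    by_cases ht : t = p
    · subst ht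
      rw [ux_p_p, CupAdj_ugen_p, zero_add, Finset.sum_eq_zero, add_zero]
      intro τ _
      by_cases hτ : τ = t
      · rw [if_pos hτ, Prod.snd_zero, Pi.zero_apply]
      · rw [if_neg hτ, uS1_p, CupAdj_ugen_ne _ _ _ _ _ _ hτ, map_zero]
    · rw [ux_p_ne _ _ ht, CupAdj_ugen_ne _ _ _ _ _ _ ht, CupAdj_ugen_ne _ _ _ _ _ _ ht,
        map_zero, zero_add, zero_add, Finset.sum_eq_single t]
      · rw [if_neg ht, uS1_self B _ ht, CupAdj_ugen_p, CupAdj_ugen_v, map_zero, add_zero]
      · intro τ _ hτ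
        by_cases hτp : τ = p
        · rw [if_pos hτp, Prod.snd_zero, Pi.zero_apply]
        · rw [if_neg hτp, uS1_ne B _ ht hτ.symm, CupAdj_ugen_ne _ _ _ _ _ _ ht, map_zero]
      · intro h
        exact absurd (Finset.mem_univ t) h

theorem U_ext (B C : BN k P Q) (p : P) (q : Q) (F F' : Hom (uobj B p q) C)
    (h : ∀ b hb, F.1 (ugen B p q b hb) = F'.1 (ugen B p q b hb)) : F = F' := by
  refine hom_ext fun w => ?_
  have key : ∀ G : Hom (uobj B p q) C,
      G.1 w = C.x p (G.1 (ugen B p q (uc B p q w).1 (uc_v B p q w))) +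
      G.1 (ugen B p q ((uc B p q w).2 p) (uc_m B p q w p)) +
      ∑ τ, if τ = p then 0 else
        C.S p τ (G.1 (ugen B p q ((uc B p q w).2 τ) (uc_m B p q w τ))) := by
    intro G
    refine (congrArg G.1 (CupAdj_udecomp B p q w)).trans ?_
    rw [map_add, map_add, map_sum, G.2.1]
    congr 1
    refine Finset.sum_congr rfl fun τ _ => ?_
    by_cases hτ : τ = p
    · rw [if_pos hτ, if_pos hτ, map_zero]
    · rw [if_neg hτ, if_neg hτ]
      exact G.2.2.1 p τ _ (Ne.symm hτ)
  rw [key F, key F', h, h]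
  congr 1
  exact Finset.sum_congr rfl fun τ _ => by rw [h]

end Pool.Agent.Lib.MP_f2e65a_lc
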