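import Pool.Agent.Lib.MP_f2e65a_lc.CupAdjX

/-! # CupAdjS: morphisms from a cup: saddles

`F (v, m) = X (u v) + u m_none + ∑ r, S_r (u m_r)`, `X = C.x none`, `S_r = C.S none (some r)` (`cupAdj_apply`).
* `(none, some r)` and `(some r, none)` (`C.S_symm`; `cupS N none (some r) = cupS N (some r) none = cupS1 N r` by `rfl`): state it for `cupS1 N r`:
 `F (cupS1 r (v, m)) = X u m_r + u (x_r m_r) + S_r u (m_none + x_r v) + ∑_{t ≠ r} S_t u (S_{tr} m_t)`,
 `S_r F (v, m) = S_r X u v + S_r u m_none + S_r S_r u m_r + ∑_{t ≠ r} S_r S_t u m_t` (split the term `r` of the sums: `Finset.add_sum_erase` or `Fintype.sum_eq_add_sum_compl`..).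
 `S_r S_r = X + x_r` (`S_sq`), `S_r X = X S_r = x_r S_r = S_r x_r` (`x_S`, `x_S_eq`), and for `t ≠ r`: `S_r S_t = S_t S_{tr}`, i.e.
 `S none r (S none t n) = S none t (S t r n)`: `S_S_S` with `(p, r, t) := (some t, none, some r)`: `S none r (S t none n) = S t none (S t r n)`, and `S_symm`.
* `(some t, some s)`: `F (cupS (v, m)) = X u S_{ts} v + u S_{ts} m_none + ∑_r S_r u (S_{ts} m_{swap t s r})`, reindex the sum with `Equiv.swap t s` (`Equiv.sum_comp`):
 `∑_r S_{swap t s r} S_{ts} u m_r`, and `S_{ts} S_r = S_{swap t s r} S_{ts}`: for `r ≠ t, s` by `S_S`; for `r = t`: `S_{ts} S_{none t} = S_{none s} S_{ts}`: `S_S_S` with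
 `(p, r, t) := (some t, some s, none)`: `S s none (S t s n) = S t s (S t none n)`, and `S_symm`; `r = s` the same with `t`, `s` exchanged. -/

set_option autoImplicit false
set_option linter.unusedVariables false

namespace Pool.Agent.Lib.MP_f2e65a_lc

variable {k : Type} [Field k] {P Q : Type} [Fintype P] [DecidableEq P] [Fintype Q]
  [DecidableEq Q]

private theorem CupAdjS_one (N : BN k P Q) (C : BN k (Option P) (Option Q)) (u : N.M →ₗ[k] C.M)
    (h : CupHom N C u) (r : P) (w : CupM N) :
    cupAdj N C u (cupS1 N r w) = C.S none (some r) (cupAdj N C u w) := by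
  have hnr : ∀ t : P, (none : Option P) ≠ some t := fun t => (Option.some_ne_none t).symm
  rw [cupAdj_apply, cupAdj_apply, cupS1_v, cupS1_none, map_add, map_add, map_sum]
  rw [← Finset.add_sum_erase Finset.univ
      (fun t => C.S none (some t) (u ((cupS1 N r w).2 (some t)))) (Finset.mem_univ r),
    ← Finset.add_sum_erase Finset.univ
      (fun t => C.S none (some r) (C.S none (some t) (u (w.2 (some t))))) (Finset.mem_univ r)]
  have h1 : ∑ t ∈ Finset.univ.erase r, C.S none (some t) (u ((cupS1 N r w).2 (some t))) =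
      ∑ t ∈ Finset.univ.erase r, C.S none (some r) (C.S none (some t) (u (w.2 (some t)))) := by
    refine Finset.sum_congr rfl fun t ht => ?_
    have htr : t ≠ r := Finset.ne_of_mem_erase ht
    have htr' : some t ≠ some r := fun h' => htr (Option.some.inj h')
    rw [cupS1_ne N w r t htr, h.hS t r _ htr]
    have h2 := C.S_S_S (some t) none (some r) (u (w.2 (some t))) (hnr t).symm (hnr r) htr'
    rw [C.S_symm (some t) none _ (hnr t).symm, C.S_symm (some t) none _ (hnr t).symm] at h2
    exact h2.symm
  have h3 : C.S none (some r) (C.x none (u w.1)) = C.S none (some r) (C.x (some r) (u w.1)) := by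
    rw [← C.x_S none none (some r) _ (hnr r), C.x_S_eq none (some r) _ (hnr r),
      C.x_S (some r) none (some r) _ (hnr r)]
  have h4 : C.S none (some r) (u ((cupS1 N r w).2 (some r))) =
      C.S none (some r) (u (w.2 none)) + C.S none (some r) (C.x none (u w.1)) := by
    rw [cupS1_self, map_add, map_add, h.hx, h3]
  have h5 : C.S none (some r) (C.S none (some r) (u (w.2 (some r)))) =
      C.x none (u (w.2 (some r))) + C.x (some r) (u (w.2 (some r))) :=
    C.S_sq none (some r) _ (hnr r)
  rw [h1, h4, h5, h.hx]
  abel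

private theorem CupAdjS_two (N : BN k P Q) (C : BN k (Option P) (Option Q)) (u : N.M →ₗ[k] C.M)
    (h : CupHom N C u) (t s : P) (hts : t ≠ s) (w : CupM N) :
    cupAdj N C u (cupS N (some t) (some s) w) = C.S (some t) (some s) (cupAdj N C u w) := by
  have hnr : ∀ t : P, (none : Option P) ≠ some t := fun t => (Option.some_ne_none t).symm
  have hne : ∀ {a b : P}, a ≠ b → some a ≠ some b := fun hab h' => hab (Option.some.inj h')
  rw [cupAdj_apply, cupAdj_apply, cupS_some_v, cupS_some_none, map_add, map_add, map_sum]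
  have h1 : C.x none (u (N.S t s w.1)) = C.S (some t) (some s) (C.x none (u w.1)) := by
    rw [h.hS t s _ hts, C.x_S none (some t) (some s) _ (hne hts)]
  have h2 : u (N.S t s (w.2 none)) = C.S (some t) (some s) (u (w.2 none)) := h.hS t s _ hts
  have h3 : ∑ r, C.S none (some r) (u ((cupS N (some t) (some s) w).2 (some r))) =
      ∑ r, C.S (some t) (some s) (C.S none (some r) (u (w.2 (some r)))) := by
    rw [← Equiv.sum_comp (Equiv.swap t s)
      (fun r => C.S none (some r) (u ((cupS N (some t) (some s) w).2 (some r))))]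
    refine Finset.sum_congr rfl fun r _ => ?_
    rw [cupS_some_some, Equiv.swap_apply_self, h.hS t s _ hts]
    by_cases hrt : r = t
    · subst hrt
      rw [Equiv.swap_apply_left]
      have h4 := C.S_S_S (some r) (some s) none (u (w.2 (some r))) (hne hts) (hnr s).symm
        (hnr r).symm
      rw [C.S_symm (some s) none _ (hnr s).symm, C.S_symm (some r) none _ (hnr r).symm] at h4
      exact h4
    · by_cases hrs : r = s
      · subst hrs
        rw [Equiv.swap_apply_right]
        have h4 := C.S_S_S (some r) (some t) none (u (w.2 (some r))) (hne hts.symm) (hnr t).symm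
          (hnr r).symm
        rw [C.S_symm (some t) none _ (hnr t).symm, C.S_symm (some r) none _ (hnr r).symm,
          C.S_symm (some r) (some t) _ (hne hts.symm),
          C.S_symm (some r) (some t) _ (hne hts.symm)] at h4
        exact h4
      · rw [Equiv.swap_apply_of_ne_of_ne hrt hrs]
        exact C.S_S none (some r) (some t) (some s) _ (hnr r) (hne hts) (hnr t) (hnr s)
          (hne hrt) (hne hrs)
  rw [h1, h2, h3]

theorem cupAdj_S (N : BN k P Q) (C : BN k (Option P) (Option Q)) (u : N.M →ₗ[k] C.M)
    (h : CupHom N C u) (t s : Option P) (hts : t ≠ s) (w : CupM N) :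
    cupAdj N C u (cupS N t s w) = C.S t s (cupAdj N C u w) := by
  rcases t with _ | t
  · rcases s with _ | s
    · exact absurd rfl hts
    · exact CupAdjS_one N C u h s w
  · rcases s with _ | s
    · rw [C.S_symm (some t) none _ hts]
      exact CupAdjS_one N C u h t w
    · exact CupAdjS_two N C u h t s (fun h' => hts (congrArg some h')) w

end Pool.Agent.Lib.MP_f2e65a_lc
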