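import Pool.Agent.Lib.MP_f2e65a_lc.Cup

/-! # CupAdjX: morphisms from a cup: dots and projections

`F (v, m) = x none (u v) + u (m none) + ∑ r, S none (some r) (u (m (some r)))` for a linear map `u : N.M → C.M` with `E none none (u n) = u n` which commutes with the
operators.  Write `X = C.x none`, `S_r = C.S none (some r)`.
* `x none`: `F (cupx none (v, m)) = X u m_none + 0 + ∑ S_r u (x_r m_r)`; `X F (v, m) = 0 + X u m_none + ∑ X S_r u m_r` and `X S_r = x_r S_r = S_r x_r` (`x_S_eq`, `x_S`; symmetric forms).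
* `x (some t)`: `x_x`, `x_S`.
* `E none none`: `F (v, m_none, 0)`; `E X u v = X E u v = X u v`; `E none none (S_r (u n)) = 0`: `u n = E none none (u n)`, `S_r E_{none none} = E_{r none} S_r` (`S_E`), `E_col`.
* `E none (some q)`: `X u v`, `u m_none` are killed (`x_E`, `E_row`: `E none (some q) (E none none _) = 0`), `E_{none q} S_r = S_r E_{r q}` (`S_E (some r) none q` and `S_symm`).
* `E (some s) none`: `X u v`, `u m_none` are killed (`E_col`), `E_{s none} (S_r (u n)) = E_{s none} E_{r none} S_r u n`: `0` if `r ≠ s` (`E_col`), `S_s u n` if `r = s` (`E_idem`, then back with `S_E`).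
* `E (some s) (some q)`: `E_{s q} S_r = S_r E_{s q}` if `r ≠ s` (`S_E'`), and for `r = s`: `E_{s q} S_s (u n) = E_{s q} E_{s none} S_s u n = 0` (`E_row`).
Sums: `map_sum`, `Finset.sum_congr`, `Finset.sum_eq_single`. -/

set_option autoImplicit false
set_option linter.unusedVariables false

namespace Pool.Agent.Lib.MP_f2e65a_lc

variable {k : Type} [Field k] {P Q : Type} [Fintype P] [DecidableEq P] [Fintype Q]
  [DecidableEq Q]

/-- the linear map `u : N.M → C.M` restricts to a morphism from `N` to the cap of `C` -/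
structure CupHom (N : BN k P Q) (C : BN k (Option P) (Option Q)) (u : N.M →ₗ[k] C.M) : Prop where
  mem : ∀ n, C.E none none (u n) = u n
  hx : ∀ t n, u (N.x t n) = C.x (some t) (u n)
  hS : ∀ t s n, t ≠ s → u (N.S t s n) = C.S (some t) (some s) (u n)
  hE : ∀ t s n, u (N.E t s n) = C.E (some t) (some s) (u n)

/-- the map from the cup -/
def cupAdj (N : BN k P Q) (C : BN k (Option P) (Option Q)) (u : N.M →ₗ[k] C.M) :
    CupM N →ₗ[k] C.M :=
  C.x none ∘ₗ u ∘ₗ cv N + u ∘ₗ cm N none + ∑ r, C.S none (some r) ∘ₗ u ∘ₗ cm N (some r)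

theorem cupAdj_apply (N : BN k P Q) (C : BN k (Option P) (Option Q)) (u : N.M →ₗ[k] C.M)
    (w : CupM N) : cupAdj N C u w = C.x none (u w.1) + u (w.2 none) +
      ∑ r, C.S none (some r) (u (w.2 (some r))) := by
  unfold cupAdj
  rw [LinearMap.add_apply, LinearMap.add_apply, LinearMap.sum_apply]
  rfl

theorem cupAdj_x (N : BN k P Q) (C : BN k (Option P) (Option Q)) (u : N.M →ₗ[k] C.M)
    (h : CupHom N C u) (t : Option P) (w : CupM N) :
    cupAdj N C u (cupx N t w) = C.x t (cupAdj N C u w) := by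
  have hn : ∀ r : P, (none : Option P) ≠ some r := fun r => (Option.some_ne_none r).symm
  rcases t with _ | t
  · rw [cupAdj_apply, cupAdj_apply, cupx_none_v, cupx_none_none, map_zero, add_zero, map_add,
      map_add, C.x_sq, zero_add, map_sum]
    refine congrArg _ (Finset.sum_congr rfl fun r _ => ?_)
    rw [cupx_none_some, h.hx, C.x_S_eq _ _ _ (hn r), C.x_S _ _ _ _ (hn r)]
  · rw [cupAdj_apply, cupAdj_apply, cupx_some_v, cupx_some, h.hx, h.hx, map_add,
      map_add, C.x_x, map_sum]
    refine congrArg _ (Finset.sum_congr rfl fun r _ => ?_)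
    rw [cupx_some, h.hx, C.x_S _ _ _ _ (hn r)]

private theorem cupAdjX_row (N : BN k P Q) (C : BN k (Option P) (Option Q)) (u : N.M →ₗ[k] C.M)
    (h : CupHom N C u) (q : Q) (n : N.M) : C.E none (some q) (u n) = 0 := by
  rw [← h.mem n]
  exact C.E_row _ _ _ _ (Option.some_ne_none q)

private theorem cupAdjX_col (N : BN k P Q) (C : BN k (Option P) (Option Q)) (u : N.M →ₗ[k] C.M)
    (h : CupHom N C u) (s : P) (n : N.M) : C.E (some s) none (u n) = 0 := by
  rw [← h.mem n]
  exact C.E_col _ _ _ _ (Option.some_ne_none s)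

private theorem cupAdjX_S (N : BN k P Q) (C : BN k (Option P) (Option Q)) (u : N.M →ₗ[k] C.M)
    (h : CupHom N C u) (r : P) (n : N.M) :
    C.E (some r) none (C.S none (some r) (u n)) = C.S none (some r) (u n) := by
  rw [← C.S_E _ _ _ _ (Option.some_ne_none r).symm, h.mem n]

theorem cupAdj_E (N : BN k P Q) (C : BN k (Option P) (Option Q)) (u : N.M →ₗ[k] C.M)
    (h : CupHom N C u) (t : Option P) (s : Option Q) (w : CupM N) :
    cupAdj N C u (cupE N t s w) = C.E t s (cupAdj N C u w) := by
  have hn : ∀ r : P, (none : Option P) ≠ some r := fun r => (Option.some_ne_none r).symm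
  rw [cupAdj_apply, cupAdj_apply, map_add, map_add, map_sum, ← C.x_E]
  rcases t with _ | t <;> rcases s with _ | q
  · rw [cupE_nn_v, cupE_nn_none, h.mem, h.mem]
    refine congrArg _ (Finset.sum_congr rfl fun r _ => ?_)
    rw [cupE_nn_some, map_zero, map_zero, ← cupAdjX_S N C u h r]
    exact (C.E_col _ _ _ _ (hn r)).symm
  · rw [cupE_ns_v, cupE_ns_none, cupAdjX_row N C u h, cupAdjX_row N C u h, map_zero, map_zero]
    refine congrArg _ (Finset.sum_congr rfl fun r _ => ?_)
    rw [cupE_ns_some, h.hE, C.S_symm _ _ _ (hn r), C.S_symm _ _ _ (hn r),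
      C.S_E _ _ _ _ (hn r).symm]
  · rw [cupE_sn_v, cupE_sn_none, cupAdjX_col N C u h, cupAdjX_col N C u h, map_zero, map_zero]
    refine congrArg _ (Finset.sum_congr rfl fun r _ => ?_)
    by_cases hr : r = t
    · subst hr
      rw [cupE_sn_self, cupAdjX_S N C u h]
    · rw [cupE_sn_ne _ _ _ _ hr, map_zero, map_zero, ← cupAdjX_S N C u h r]
      exact (C.E_col _ _ _ _ (fun h' => hr (Option.some.inj h').symm)).symm
  · rw [cupE_ss_v, cupE_ss_none, h.hE, h.hE]
    refine congrArg _ (Finset.sum_congr rfl fun r _ => ?_)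
    by_cases hr : r = t
    · subst hr
      rw [cupE_ss_self, map_zero, map_zero, ← cupAdjX_S N C u h r]
      exact (C.E_row _ _ _ _ (Option.some_ne_none q)).symm
    · rw [cupE_ss_ne _ _ _ _ _ hr, h.hE]
      exact C.S_E' _ _ _ _ _ (hn r) (Option.some_ne_none t) (fun h' => hr (Option.some.inj h').symm)

end Pool.Agent.Lib.MP_f2e65a_lc
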