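import Pool.Agent.Lib.MP_f2e65a_lc.Defs

/-! # Caps and cups: definitions of the operators

`cap0`: join the endpoints `none : Option P` and `none : Option Q`: the part of `A` where the closure
joins them.  `cup0`: add an arc from `none` to `none`.  An element of the cup of `N` is a pair
`(v, m)` with `v : N.M`, `m : Option P → N.M`: `(v, m none)` is the part `N ⊗ V` where the closure joins
`none` to `none` (`m none` is the coefficient of `1`, `v` the coefficient of `X`) and `m (some r)` is the part
where the closure joins `r` to `none`. -/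

set_option autoImplicit false
set_option linter.unusedVariables false

namespace Pool.Agent.Lib.MP_f2e65a_lc

variable {k : Type} [Field k] {P Q : Type} [Fintype P] [DecidableEq P] [Fintype Q]
  [DecidableEq Q]

/-- the underlying space of a cup -/
abbrev CupM (N : BN k P Q) : Type := N.M × (Option P → N.M)

/-- the coordinate `v` -/
abbrev cv (N : BN k P Q) : CupM N →ₗ[k] N.M := LinearMap.fst k N.M (Option P → N.M)

/-- the coordinate `m τ` -/
abbrev cm (N : BN k P Q) (τ : Option P) : CupM N →ₗ[k] N.M :=
  LinearMap.proj τ ∘ₗ LinearMap.snd k N.M (Option P → N.M)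

/-- dots -/
def cupx (N : BN k P Q) : Option P → CupM N →ₗ[k] CupM N
  | none => LinearMap.prod (cm N none) (LinearMap.pi fun τ => match τ with
      | none => 0
      | some r => N.x r ∘ₗ cm N (some r))
  | some t => LinearMap.prod (N.x t ∘ₗ cv N) (LinearMap.pi fun τ => N.x t ∘ₗ cm N τ)

/-- the saddle between the new strand and the strand `r` -/
def cupS1 (N : BN k P Q) (r : P) : CupM N →ₗ[k] CupM N :=
  LinearMap.prod (cm N (some r)) (LinearMap.pi fun τ => match τ with
      | none => N.x r ∘ₗ cm N (some r)
      | some t => if t = r then cm N none + N.x r ∘ₗ cv N else N.S t r ∘ₗ cm N (some t))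

/-- saddles -/
def cupS (N : BN k P Q) : Option P → Option P → CupM N →ₗ[k] CupM N
  | none, none => 0
  | none, some r => cupS1 N r
  | some r, none => cupS1 N r
  | some r, some s => LinearMap.prod (N.S r s ∘ₗ cv N) (LinearMap.pi fun τ => match τ with
      | none => N.S r s ∘ₗ cm N none
      | some t => N.S r s ∘ₗ cm N (some (Equiv.swap r s t)))

/-- projections -/
def cupE (N : BN k P Q) : Option P → Option Q → CupM N →ₗ[k] CupM N
  | none, none => LinearMap.prod (cv N) (LinearMap.pi fun τ => match τ with
      | none => cm N none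
      | some _ => 0)
  | none, some q => LinearMap.prod 0 (LinearMap.pi fun τ => match τ with
      | none => 0
      | some r => N.E r q ∘ₗ cm N (some r))
  | some s, none => LinearMap.prod 0 (LinearMap.pi fun τ => match τ with
      | none => 0
      | some r => if r = s then cm N (some r) else 0)
  | some s, some q => LinearMap.prod (N.E s q ∘ₗ cv N) (LinearMap.pi fun τ => match τ with
      | none => N.E s q ∘ₗ cm N none
      | some r => if r = s then 0 else N.E s q ∘ₗ cm N (some r))

section apply

variable (N : BN k P Q) (w : CupM N) (q : Q) (r s t : P) (τ : Option P)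

theorem cupx_none_v : (cupx N none w).1 = w.2 none := rfl
theorem cupx_none_none : (cupx N none w).2 none = 0 := rfl
theorem cupx_none_some : (cupx N none w).2 (some r) = N.x r (w.2 (some r)) := rfl
theorem cupx_some_v : (cupx N (some t) w).1 = N.x t w.1 := rfl
theorem cupx_some : (cupx N (some t) w).2 τ = N.x t (w.2 τ) := rfl
theorem cupS1_v : (cupS1 N r w).1 = w.2 (some r) := rfl
theorem cupS1_none : (cupS1 N r w).2 none = N.x r (w.2 (some r)) := rfl
theorem cupS1_self : (cupS1 N r w).2 (some r) = w.2 none + N.x r w.1 := by
  change (if r = r then cm N none + N.x r ∘ₗ cv N else N.S r r ∘ₗ cm N (some r)) w = _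
  rw [if_pos rfl]
  rfl
theorem cupS1_ne (h : t ≠ r) : (cupS1 N r w).2 (some t) = N.S t r (w.2 (some t)) := by
  change (if t = r then cm N none + N.x r ∘ₗ cv N else N.S t r ∘ₗ cm N (some t)) w = _
  rw [if_neg h]
  rfl
theorem cupS_some_v : (cupS N (some r) (some s) w).1 = N.S r s w.1 := rfl
theorem cupS_some_none : (cupS N (some r) (some s) w).2 none = N.S r s (w.2 none) := rfl
theorem cupS_some_some : (cupS N (some r) (some s) w).2 (some t) =
    N.S r s (w.2 (some (Equiv.swap r s t))) := rfl
theorem cupE_nn_v : (cupE N none none w).1 = w.1 := rfl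
theorem cupE_nn_none : (cupE N none none w).2 none = w.2 none := rfl
theorem cupE_nn_some : (cupE N none none w).2 (some r) = 0 := rfl
theorem cupE_ns_v : (cupE N none (some q) w).1 = 0 := rfl
theorem cupE_ns_none : (cupE N none (some q) w).2 none = 0 := rfl
theorem cupE_ns_some : (cupE N none (some q) w).2 (some r) = N.E r q (w.2 (some r)) := rfl
theorem cupE_sn_v : (cupE N (some s) none w).1 = 0 := rfl
theorem cupE_sn_none : (cupE N (some s) none w).2 none = 0 := rfl
theorem cupE_sn_self : (cupE N (some s) none w).2 (some s) = w.2 (some s) := by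
  change (if s = s then cm N (some s) else 0 : CupM N →ₗ[k] N.M) w = _
  rw [if_pos rfl]
  rfl
theorem cupE_sn_ne (h : r ≠ s) : (cupE N (some s) none w).2 (some r) = 0 := by
  change (if r = s then cm N (some r) else 0 : CupM N →ₗ[k] N.M) w = _
  rw [if_neg h]
  rfl
theorem cupE_ss_v : (cupE N (some s) (some q) w).1 = N.E s q w.1 := rfl
theorem cupE_ss_none : (cupE N (some s) (some q) w).2 none = N.E s q (w.2 none) := rfl
theorem cupE_ss_self : (cupE N (some s) (some q) w).2 (some s) = 0 := by
  change (if s = s then 0 else N.E s q ∘ₗ cm N (some s) : CupM N →ₗ[k] N.M) w = _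
  rw [if_pos rfl]
  rfl
theorem cupE_ss_ne (h : r ≠ s) : (cupE N (some s) (some q) w).2 (some r) =
    N.E s q (w.2 (some r)) := by
  change (if r = s then 0 else N.E s q ∘ₗ cm N (some r) : CupM N →ₗ[k] N.M) w = _
  rw [if_neg h]
  rfl

theorem CupM.ext {N : BN k P Q} {w w' : CupM N} (h1 : w.1 = w'.1) (h2 : w.2 none = w'.2 none)
    (h3 : ∀ r, w.2 (some r) = w'.2 (some r)) : w = w' :=
  Prod.ext h1 (funext fun τ => by
    rcases τ with _ | r
    · exact h2
    · exact h3 r)

end apply

/-- the closures which join `none` to `none` -/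
def capSub (A : BN k (Option P) (Option Q)) : Submodule k A.M where
  carrier := {m | A.E none none m = m}
  add_mem' := by
    intro a b ha hb
    change A.E none none (a + b) = a + b
    rw [map_add, ha, hb]
  zero_mem' := map_zero _
  smul_mem' := by
    intro c a ha
    change A.E none none (c • a) = c • a
    rw [map_smul, ha]

theorem mem_capSub (A : BN k (Option P) (Option Q)) (m : A.M) :
    m ∈ capSub A ↔ A.E none none m = m := Iff.rfl

/-- dots -/
def capx (A : BN k (Option P) (Option Q)) (t : P) : capSub A →ₗ[k] capSub A :=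
  (A.x (some t)).restrict fun m hm => by
    rw [mem_capSub] at hm ⊢
    rw [← A.x_E, hm]

/-- saddles -/
def capS (A : BN k (Option P) (Option Q)) (r s : P) : capSub A →ₗ[k] capSub A :=
  if h : r = s then 0 else (A.S (some r) (some s)).restrict fun m hm => by
    rw [mem_capSub] at hm ⊢
    rw [← A.S_E' (some r) (some s) none none m (fun h' => h (Option.some.inj h'))
      (Option.some_ne_none r).symm (Option.some_ne_none s).symm, hm]

/-- projections -/
def capE (A : BN k (Option P) (Option Q)) (t : P) (q : Q) : capSub A →ₗ[k] capSub A :=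
  (A.E (some t) (some q)).restrict fun m hm => by
    rw [mem_capSub] at hm ⊢
    rw [A.E_E, hm]

theorem capx_coe (A : BN k (Option P) (Option Q)) (t : P) (m : capSub A) :
    (capx A t m : A.M) = A.x (some t) m := rfl

theorem capS_coe (A : BN k (Option P) (Option Q)) {r s : P} (h : r ≠ s) (m : capSub A) :
    (capS A r s m : A.M) = A.S (some r) (some s) m := by
  unfold capS
  rw [dif_neg h]
  rfl

theorem capE_coe (A : BN k (Option P) (Option Q)) (t : P) (q : Q) (m : capSub A) :
    (capE A t q m : A.M) = A.E (some t) (some q) m := rfl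

end Pool.Agent.Lib.MP_f2e65a_lc
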