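import Pool.Agent.Lib.MP_f2e65a_lc.CupDefs

/-! # CupX: dots of a cup

JOB CupX (80 lines).  For every statement: `rcases` on the elements of `Option P`, `Option Q`; then `CupM.ext` and the lemmas
`cupx_..`, `cupS_..`, `cupE_..` of CupDefs.lean (all `rfl` or `if_pos`/`if_neg`), `by_cases` on equalities of points, and the axioms of
`N`: `N.x_x`, `N.x_sq`, `N.x_S`, `N.x_S_eq`, `N.S_symm`, `N.S_sq`, `N.x_E`, `map_add`, `map_zero`.
`cup_x_S`, saddle `S none (some r)` (`= cupS1 N r`) and dot `x none`: component `none`: both `0`?  LHS `(x none (S1 w)).2 none = 0`; RHS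
`(S1 (x none w)).2 none = N.x r ((x none w).2 (some r)) = N.x r (N.x r (w.2 (some r))) = 0` by `x_sq`.
Component `v`: LHS `(S1 w).2 none = N.x r (w.2 (some r))`, RHS `(x none w).2 (some r) = N.x r (w.2 (some r))`.  Component `some r`: LHS
`N.x r (w.2 none + N.x r w.1) = N.x r (w.2 none)`; RHS `(x none w).2 none + N.x r (x none w).1 = 0 + N.x r (w.2 none)`.  Component
`some t`, `t ≠ r`: LHS `N.x t (N.S t r (w.2 (some t)))`, RHS `N.S t r (N.x t (w.2 (some t)))`: `x_S`.
Dot `x none` and saddle `S (some r) (some s)`: component `some t`: LHS `N.x t (N.S r s (w.2 (some (swap r s t))))`, RHS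
`N.S r s (N.x (swap r s t) (w.2 (some (swap r s t))))`: `x_S` and, if `t = r` or `t = s`, `x_S_eq`.  The others are similar or easier.
All statements were tested numerically. -/

set_option autoImplicit false

namespace Pool.Agent.Lib.MP_f2e65a_lc

variable {k : Type} [Field k] {P Q : Type} [Fintype P] [DecidableEq P] [Fintype Q]
  [DecidableEq Q] (N : BN k P Q)

private theorem CupX_comm (t : P) (w : CupM N) :
    cupx N none (cupx N (some t) w) = cupx N (some t) (cupx N none w) := by
  apply CupM.ext
  · rfl
  · change (0 : N.M) = N.x t 0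
    rw [map_zero]
  · intro r
    change N.x r (N.x t (w.2 (some r))) = N.x t (N.x r (w.2 (some r)))
    exact N.x_x r t _

theorem cup_x_x (p r : Option P) (w : CupM N) : cupx N p (cupx N r w) = cupx N r (cupx N p w) := by
  rcases p with _ | p <;> rcases r with _ | r
  · rfl
  · exact CupX_comm N r w
  · exact (CupX_comm N p w).symm
  · apply CupM.ext
    · change N.x p (N.x r w.1) = N.x r (N.x p w.1)
      exact N.x_x p r _
    · change N.x p (N.x r (w.2 none)) = N.x r (N.x p (w.2 none))
      exact N.x_x p r _
    · intro t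
      change N.x p (N.x r (w.2 (some t))) = N.x r (N.x p (w.2 (some t)))
      exact N.x_x p r _

theorem cup_x_sq (p : Option P) (w : CupM N) : cupx N p (cupx N p w) = 0 := by
  rcases p with _ | p
  · apply CupM.ext
    · rfl
    · rfl
    · intro r
      change N.x r (N.x r (w.2 (some r))) = 0
      exact N.x_sq r _
  · apply CupM.ext
    · exact N.x_sq p _
    · exact N.x_sq p _
    · intro t
      exact N.x_sq p _

private theorem CupX_nS1 (r : P) (w : CupM N) :
    cupx N none (cupS1 N r w) = cupS1 N r (cupx N none w) := by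
  apply CupM.ext
  · rfl
  · change (0 : N.M) = N.x r (N.x r (w.2 (some r)))
    exact (N.x_sq r _).symm
  · intro t
    by_cases h : t = r
    · subst h
      rw [cupx_none_some, cupS1_self, cupS1_self]
      change N.x t (w.2 none + N.x t w.1) = 0 + N.x t (w.2 none)
      rw [map_add, N.x_sq, add_zero, zero_add]
    · rw [cupx_none_some, cupS1_ne N w r t h, cupS1_ne N _ r t h]
      exact N.x_S t t r _ h

private theorem CupX_sS1 (u r : P) (w : CupM N) :
    cupx N (some u) (cupS1 N r w) = cupS1 N r (cupx N (some u) w) := by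
  apply CupM.ext
  · rfl
  · change N.x u (N.x r (w.2 (some r))) = N.x r (N.x u (w.2 (some r)))
    exact N.x_x u r _
  · intro t
    by_cases h : t = r
    · subst h
      rw [cupx_some, cupS1_self, cupS1_self]
      change N.x u (w.2 none + N.x t w.1) = N.x u (w.2 none) + N.x t (N.x u w.1)
      rw [map_add, N.x_x u t]
    · rw [cupx_some, cupS1_ne N w r t h, cupS1_ne N _ r t h]
      exact N.x_S u t r _ h

private theorem CupX_nSs (r s : P) (w : CupM N) (h : r ≠ s) :
    cupx N none (cupS N (some r) (some s) w) = cupS N (some r) (some s) (cupx N none w) := by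
  apply CupM.ext
  · rfl
  · change (0 : N.M) = N.S r s 0
    rw [map_zero]
  · intro t
    rw [cupx_none_some, cupS_some_some, cupS_some_some, cupx_none_some]
    rcases Decidable.eq_or_ne t r with rfl | h1
    · rw [Equiv.swap_apply_left, N.x_S_eq t s _ h, N.x_S s t s _ h]
    · rcases Decidable.eq_or_ne t s with rfl | h2
      · rw [Equiv.swap_apply_right, ← N.x_S_eq r t _ h, N.x_S r r t _ h]
      · rw [Equiv.swap_apply_of_ne_of_ne h1 h2, N.x_S t r s _ h]

private theorem CupX_sSs (u r s : P) (w : CupM N) (h : r ≠ s) :
    cupx N (some u) (cupS N (some r) (some s) w) =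
      cupS N (some r) (some s) (cupx N (some u) w) := by
  apply CupM.ext
  · exact N.x_S u r s _ h
  · exact N.x_S u r s _ h
  · intro t
    rw [cupx_some, cupS_some_some, cupS_some_some, cupx_some]
    exact N.x_S u r s _ h

theorem cup_x_S (t p r : Option P) (w : CupM N) (h : p ≠ r) :
    cupx N t (cupS N p r w) = cupS N p r (cupx N t w) := by
  rcases p with _ | p <;> rcases r with _ | r
  · exact absurd rfl h
  · change cupx N t (cupS1 N r w) = cupS1 N r (cupx N t w)
    rcases t with _ | t
    · exact CupX_nS1 N r w
    · exact CupX_sS1 N t r w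
  · change cupx N t (cupS1 N p w) = cupS1 N p (cupx N t w)
    rcases t with _ | t
    · exact CupX_nS1 N p w
    · exact CupX_sS1 N t p w
  · have h' : p ≠ r := fun e => h (congrArg some e)
    rcases t with _ | t
    · exact CupX_nSs N p r w h'
    · exact CupX_sSs N t p r w h'

private theorem CupX_eqS1 (r : P) (w : CupM N) :
    cupx N none (cupS1 N r w) = cupx N (some r) (cupS1 N r w) := by
  apply CupM.ext
  · rfl
  · change (0 : N.M) = N.x r (N.x r (w.2 (some r)))
    exact (N.x_sq r _).symm
  · intro t
    by_cases h : t = r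
    · subst h
      rfl
    · rw [cupx_none_some, cupx_some, cupS1_ne N w r t h]
      exact N.x_S_eq t r _ h

theorem cup_x_S_eq (p r : Option P) (w : CupM N) (h : p ≠ r) :
    cupx N p (cupS N p r w) = cupx N r (cupS N p r w) := by
  rcases p with _ | p <;> rcases r with _ | r
  · exact absurd rfl h
  · exact CupX_eqS1 N r w
  · exact (CupX_eqS1 N p w).symm
  · have h' : p ≠ r := fun e => h (congrArg some e)
    apply CupM.ext
    · exact N.x_S_eq p r _ h'
    · exact N.x_S_eq p r _ h'
    · intro t
      rw [cupx_some, cupx_some, cupS_some_some]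
      exact N.x_S_eq p r _ h'

theorem cup_x_E (t p : Option P) (q : Option Q) (w : CupM N) :
    cupx N t (cupE N p q w) = cupE N p q (cupx N t w) := by
  rcases p with _ | p <;> rcases q with _ | q <;> rcases t with _ | t
  · apply CupM.ext
    · rfl
    · rfl
    · intro r
      change N.x r 0 = 0
      rw [map_zero]
  · apply CupM.ext
    · rfl
    · rfl
    · intro r
      change N.x t 0 = 0
      rw [map_zero]
  · apply CupM.ext
    · rfl
    · rfl
    · intro r
      exact N.x_E r r q _
  · apply CupM.ext
    · change N.x t 0 = 0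
      rw [map_zero]
    · change N.x t 0 = 0
      rw [map_zero]
    · intro r
      exact N.x_E t r q _
  · apply CupM.ext
    · rfl
    · rfl
    · intro r
      rw [cupx_none_some]
      by_cases h : r = p
      · subst h
        rw [cupE_sn_self, cupE_sn_self, cupx_none_some]
      · rw [cupE_sn_ne N _ _ _ h, cupE_sn_ne N _ _ _ h, map_zero]
  · apply CupM.ext
    · change N.x t 0 = 0
      rw [map_zero]
    · change N.x t 0 = 0
      rw [map_zero]
    · intro r
      rw [cupx_some]
      by_cases h : r = p
      · subst h
        rw [cupE_sn_self, cupE_sn_self, cupx_some]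
      · rw [cupE_sn_ne N _ _ _ h, cupE_sn_ne N _ _ _ h, map_zero]
  · apply CupM.ext
    · rfl
    · change (0 : N.M) = N.E p q 0
      rw [map_zero]
    · intro r
      rw [cupx_none_some]
      by_cases h : r = p
      · subst h
        rw [cupE_ss_self, cupE_ss_self, map_zero]
      · rw [cupE_ss_ne N _ _ _ _ h, cupE_ss_ne N _ _ _ _ h, cupx_none_some]
        exact N.x_E r p q _
  · apply CupM.ext
    · exact N.x_E t p q _
    · exact N.x_E t p q _
    · intro r
      rw [cupx_some]
      by_cases h : r = p
      · subst h
        rw [cupE_ss_self, cupE_ss_self, map_zero]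
      · rw [cupE_ss_ne N _ _ _ _ h, cupE_ss_ne N _ _ _ _ h, cupx_some]
        exact N.x_E t p q _

end Pool.Agent.Lib.MP_f2e65a_lc
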