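import Mathlib

/-! # Bar-Natan modules

`P` and `Q` are the two kinds of endpoints of an (oriented) tangle; flat tangles and closures are
bijections `P ≃ Q`.  A Bar-Natan module is a module `M` graded by the closures (`E p q` is the
projection to the closures which join `p` to `q`) with a dot `x p` for every strand, starting at `p`, and
a saddle `S p r` which cuts and reglues the closure at `p` and `r`, subject to the local relations of
Bar-Natan's cobordism category (`x ^ 2 = 0`, neck cutting `S ^ 2 = x + x`, isotopies). -/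

set_option autoImplicit false
set_option linter.unusedVariables false

namespace Pool.Agent.Lib.MP_f2e65a_lc

/-- Bar-Natan modules for the endpoints `P`, `Q` over the field `k` -/
structure BN (k : Type) [Field k] (P Q : Type) [Fintype P] [DecidableEq P] [Fintype Q]
    [DecidableEq Q] where
  M : Type
  [grp : AddCommGroup M]
  [mod : Module k M]
  [fin : FiniteDimensional k M]
  x : P → M →ₗ[k] M
  S : P → P → M →ₗ[k] M
  E : P → Q → M →ₗ[k] M
  x_x : ∀ p r m, x p (x r m) = x r (x p m)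
  x_sq : ∀ p m, x p (x p m) = 0
  S_symm : ∀ p r m, p ≠ r → S p r m = S r p m
  x_S : ∀ t p r m, p ≠ r → x t (S p r m) = S p r (x t m)
  x_S_eq : ∀ p r m, p ≠ r → x p (S p r m) = x r (S p r m)
  S_sq : ∀ p r m, p ≠ r → S p r (S p r m) = x p m + x r m
  S_S : ∀ p r t u m, p ≠ r → t ≠ u → p ≠ t → p ≠ u → r ≠ t → r ≠ u →
    S p r (S t u m) = S t u (S p r m)
  S_S_S : ∀ p r t m, p ≠ r → r ≠ t → p ≠ t → S r t (S p r m) = S p r (S p t m)
  E_E : ∀ p q r s m, E p q (E r s m) = E r s (E p q m)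
  E_idem : ∀ p q m, E p q (E p q m) = E p q m
  E_row : ∀ p q s m, q ≠ s → E p q (E p s m) = 0
  E_col : ∀ p r q m, p ≠ r → E p q (E r q m) = 0
  sum_row : ∀ p m, ∑ q, E p q m = m
  sum_col : ∀ q m, ∑ p, E p q m = m
  x_E : ∀ t p q m, x t (E p q m) = E p q (x t m)
  S_E : ∀ p r q m, p ≠ r → S p r (E p q m) = E r q (S p r m)
  S_E' : ∀ p r t q m, p ≠ r → t ≠ p → t ≠ r → S p r (E t q m) = E t q (S p r m)

attribute [instance] BN.grp BN.mod BN.fin

variable {k : Type} [Field k] {P Q P' Q' : Type} [Fintype P] [DecidableEq P] [Fintype Q]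
  [DecidableEq Q] [Fintype P'] [DecidableEq P'] [Fintype Q'] [DecidableEq Q']

/-- morphisms of Bar-Natan modules -/
def HomS (A B : BN k P Q) : Submodule k (A.M →ₗ[k] B.M) where
  carrier := {f | (∀ p m, f (A.x p m) = B.x p (f m)) ∧
    (∀ p r m, p ≠ r → f (A.S p r m) = B.S p r (f m)) ∧
    (∀ p q m, f (A.E p q m) = B.E p q (f m))}
  add_mem' := by
    rintro f g ⟨h1, h2, h3⟩ ⟨g1, g2, g3⟩
    refine ⟨fun p m => ?_, fun p r m h => ?_, fun p q m => ?_⟩
    · simp only [LinearMap.add_apply, h1, g1, map_add]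
    · simp only [LinearMap.add_apply, h2 p r m h, g2 p r m h, map_add]
    · simp only [LinearMap.add_apply, h3, g3, map_add]
  zero_mem' := by
    refine ⟨fun p m => ?_, fun p r m h => ?_, fun p q m => ?_⟩ <;> simp
  smul_mem' := by
    rintro c f ⟨h1, h2, h3⟩
    refine ⟨fun p m => ?_, fun p r m h => ?_, fun p q m => ?_⟩
    · simp only [LinearMap.smul_apply, h1, map_smul]
    · simp only [LinearMap.smul_apply, h2 p r m h, map_smul]
    · simp only [LinearMap.smul_apply, h3, map_smul]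

/-- morphisms of Bar-Natan modules -/
abbrev Hom (A B : BN k P Q) := ↥(HomS A B)

/-- the identity -/
def idH (A : BN k P Q) : Hom A A :=
  ⟨LinearMap.id, fun _ _ => rfl, fun _ _ _ _ => rfl, fun _ _ _ => rfl⟩

/-- composition -/
def cmp {A B C : BN k P Q} (g : Hom B C) (f : Hom A B) : Hom A C :=
  ⟨g.1 ∘ₗ f.1, fun p m => by
    rw [LinearMap.comp_apply, LinearMap.comp_apply, f.2.1, g.2.1],
   fun p r m h => by
    rw [LinearMap.comp_apply, LinearMap.comp_apply, f.2.2.1 p r m h, g.2.2.1 p r _ h],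
   fun p q m => by
    rw [LinearMap.comp_apply, LinearMap.comp_apply, f.2.2.2, g.2.2.2]⟩

theorem hom_ext {A B : BN k P Q} {f g : Hom A B} (h : ∀ m, f.1 m = g.1 m) : f = g :=
  Subtype.ext (LinearMap.ext h)

/-- additive functors between the categories of Bar-Natan modules -/
structure Fct (k : Type) [Field k] (P Q P' Q' : Type) [Fintype P] [DecidableEq P] [Fintype Q]
    [DecidableEq Q] [Fintype P'] [DecidableEq P'] [Fintype Q'] [DecidableEq Q'] where
  obj : BN k P Q → BN k P' Q'
  map : ∀ {A B : BN k P Q}, Hom A B → Hom (obj A) (obj B)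
  map_id : ∀ A, map (idH A) = idH (obj A)
  map_cmp : ∀ {A B C : BN k P Q} (g : Hom B C) (f : Hom A B), map (cmp g f) = cmp (map g) (map f)
  map_add : ∀ {A B : BN k P Q} (f g : Hom A B), map (f + g) = map f + map g
  map_smul : ∀ {A B : BN k P Q} (c : k) (f : Hom A B), map (c • f) = c • map f

/-- additive functors from Bar-Natan modules to vector spaces -/
structure Tst (k : Type) [Field k] (P Q : Type) [Fintype P] [DecidableEq P] [Fintype Q]
    [DecidableEq Q] where
  obj : BN k P Q → Type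
  [grp : ∀ A, AddCommGroup (obj A)]
  [mod : ∀ A, Module k (obj A)]
  [fin : ∀ A, FiniteDimensional k (obj A)]
  map : ∀ {A B : BN k P Q}, Hom A B → (obj A →ₗ[k] obj B)
  map_id : ∀ A, map (idH A) = LinearMap.id
  map_cmp : ∀ {A B C : BN k P Q} (g : Hom B C) (f : Hom A B), map (cmp g f) = map g ∘ₗ map f
  map_add : ∀ {A B : BN k P Q} (f g : Hom A B), map (f + g) = map f + map g
  map_smul : ∀ {A B : BN k P Q} (c : k) (f : Hom A B), map (c • f) = c • map f

attribute [instance] Tst.grp Tst.mod Tst.fin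

/-- complexes: Bar-Natan modules with a differential -/
structure Cx (k : Type) [Field k] (P Q : Type) [Fintype P] [DecidableEq P] [Fintype Q]
    [DecidableEq Q] where
  A : BN k P Q
  d : Hom A A
  dd : cmp d d = 0

/-- a functor applied to a complex -/
def Fct.cx (F : Fct k P Q P' Q') (D : Cx k P Q) : Cx k P' Q' where
  A := F.obj D.A
  d := F.map D.d
  dd := by
    rw [← F.map_cmp, D.dd]
    have h := F.map_smul (0 : k) (0 : Hom D.A D.A)
    rw [zero_smul, zero_smul] at h
    exact h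

/-- composition of functors -/
def Fct.comp {P'' Q'' : Type} [Fintype P''] [DecidableEq P''] [Fintype Q''] [DecidableEq Q'']
    (G : Fct k P' Q' P'' Q'') (F : Fct k P Q P' Q') : Fct k P Q P'' Q'' where
  obj A := G.obj (F.obj A)
  map f := G.map (F.map f)
  map_id A := by rw [F.map_id, G.map_id]
  map_cmp g f := by rw [F.map_cmp, G.map_cmp]
  map_add f g := by rw [F.map_add, G.map_add]
  map_smul c f := by rw [F.map_smul, G.map_smul]

/-- a test composed with a functor -/
def Tst.pull (T : Tst k P' Q') (F : Fct k P Q P' Q') : Tst k P Q where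
  obj A := T.obj (F.obj A)
  map f := T.map (F.map f)
  map_id A := by rw [F.map_id, T.map_id]
  map_cmp g f := by rw [F.map_cmp, T.map_cmp]
  map_add f g := by rw [F.map_add, T.map_add]
  map_smul c f := by rw [F.map_smul, T.map_smul]

/-- the dimension of the homology of a vector space with a differential -/
noncomputable def hd {V : Type} [AddCommGroup V] [Module k V] (δ : V →ₗ[k] V) : ℕ :=
  Module.finrank k (LinearMap.ker δ) - Module.finrank k (LinearMap.range δ)

/-- the dimension of the homology of `T D` -/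
noncomputable def Tst.N (T : Tst k P Q) (D : Cx k P Q) : ℕ := hd (T.map D.d)

/-- `C` is a retract of `D` up to homotopy (and up to a sign of the differential) -/
def Ret (C D : Cx k P Q) : Prop :=
  ∃ (ε : k) (f : Hom C.A D.A) (g : Hom D.A C.A) (h : Hom C.A C.A), ε * ε = 1 ∧
    cmp f C.d = ε • cmp D.d f ∧ cmp g D.d = ε • cmp C.d g ∧
    cmp g f = idH C.A + (cmp C.d h + cmp h C.d)

/-- direct sum -/
def BN.prod (A B : BN k P Q) : BN k P Q where
  M := A.M × B.M
  x p := (A.x p).prodMap (B.x p)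
  S p r := (A.S p r).prodMap (B.S p r)
  E p q := (A.E p q).prodMap (B.E p q)
  x_x p r m := Prod.ext (A.x_x p r m.1) (B.x_x p r m.2)
  x_sq p m := Prod.ext (A.x_sq p m.1) (B.x_sq p m.2)
  S_symm p r m h := Prod.ext (A.S_symm p r m.1 h) (B.S_symm p r m.2 h)
  x_S t p r m h := Prod.ext (A.x_S t p r m.1 h) (B.x_S t p r m.2 h)
  x_S_eq p r m h := Prod.ext (A.x_S_eq p r m.1 h) (B.x_S_eq p r m.2 h)
  S_sq p r m h := Prod.ext (A.S_sq p r m.1 h) (B.S_sq p r m.2 h)
  S_S p r t u m h1 h2 h3 h4 h5 h6 :=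
    Prod.ext (A.S_S p r t u m.1 h1 h2 h3 h4 h5 h6) (B.S_S p r t u m.2 h1 h2 h3 h4 h5 h6)
  S_S_S p r t m h1 h2 h3 := Prod.ext (A.S_S_S p r t m.1 h1 h2 h3) (B.S_S_S p r t m.2 h1 h2 h3)
  E_E p q r s m := Prod.ext (A.E_E p q r s m.1) (B.E_E p q r s m.2)
  E_idem p q m := Prod.ext (A.E_idem p q m.1) (B.E_idem p q m.2)
  E_row p q s m h := Prod.ext (A.E_row p q s m.1 h) (B.E_row p q s m.2 h)
  E_col p r q m h := Prod.ext (A.E_col p r q m.1 h) (B.E_col p r q m.2 h)
  sum_row p m := by
    refine Prod.ext ?_ ?_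
    · rw [Prod.fst_sum]
      exact A.sum_row p m.1
    · rw [Prod.snd_sum]
      exact B.sum_row p m.2
  sum_col q m := by
    refine Prod.ext ?_ ?_
    · rw [Prod.fst_sum]
      exact A.sum_col q m.1
    · rw [Prod.snd_sum]
      exact B.sum_col q m.2
  x_E t p q m := Prod.ext (A.x_E t p q m.1) (B.x_E t p q m.2)
  S_E p r q m h := Prod.ext (A.S_E p r q m.1 h) (B.S_E p r q m.2 h)
  S_E' p r t q m h1 h2 h3 := Prod.ext (A.S_E' p r t q m.1 h1 h2 h3) (B.S_E' p r t q m.2 h1 h2 h3)

/-- relabelling of the endpoints -/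
def relabel (e : P' ≃ P) (f : Q' ≃ Q) : Fct k P Q P' Q' where
  obj A :=
    { M := A.M
      x := fun p => A.x (e p)
      S := fun p r => A.S (e p) (e r)
      E := fun p q => A.E (e p) (f q)
      x_x := fun p r => A.x_x _ _
      x_sq := fun p => A.x_sq _
      S_symm := fun p r m h => A.S_symm _ _ m (e.injective.ne h)
      x_S := fun t p r m h => A.x_S _ _ _ m (e.injective.ne h)
      x_S_eq := fun p r m h => A.x_S_eq _ _ m (e.injective.ne h)
      S_sq := fun p r m h => A.S_sq _ _ m (e.injective.ne h)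
      S_S := fun p r t u m h1 h2 h3 h4 h5 h6 => A.S_S _ _ _ _ m (e.injective.ne h1)
        (e.injective.ne h2) (e.injective.ne h3) (e.injective.ne h4) (e.injective.ne h5)
        (e.injective.ne h6)
      S_S_S := fun p r t m h1 h2 h3 => A.S_S_S _ _ _ m (e.injective.ne h1) (e.injective.ne h2)
        (e.injective.ne h3)
      E_E := fun p q r s => A.E_E _ _ _ _
      E_idem := fun p q => A.E_idem _ _
      E_row := fun p q s m h => A.E_row _ _ _ m (f.injective.ne h)
      E_col := fun p r q m h => A.E_col _ _ _ m (e.injective.ne h)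
      sum_row := fun p m => (f.sum_comp (fun q => A.E (e p) q m)).trans (A.sum_row (e p) m)
      sum_col := fun q m => (e.sum_comp (fun p => A.E p (f q) m)).trans (A.sum_col (f q) m)
      x_E := fun t p q => A.x_E _ _ _
      S_E := fun p r q m h => A.S_E _ _ _ m (e.injective.ne h)
      S_E' := fun p r t q m h1 h2 h3 => A.S_E' _ _ _ _ m (e.injective.ne h1) (e.injective.ne h2)
        (e.injective.ne h3) }
  map g := ⟨g.1, fun p m => g.2.1 _ m, fun p r m h => g.2.2.1 _ _ m (e.injective.ne h),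
    fun p q m => g.2.2.2 _ _ m⟩
  map_id _ := rfl
  map_cmp _ _ := rfl
  map_add _ _ := rfl
  map_smul _ _ := rfl

/-- isomorphisms of complexes -/
def Iso (C D : Cx k P Q) : Prop :=
  ∃ (f : Hom C.A D.A) (g : Hom D.A C.A), cmp g f = idH C.A ∧ cmp f g = idH D.A ∧
    cmp f C.d = cmp D.d f

/-- functors with a natural map from the identity -/
structure PFct (k : Type) [Field k] (P Q : Type) [Fintype P] [DecidableEq P] [Fintype Q]
    [DecidableEq Q] extends Fct k P Q P Q where
  eta : ∀ A, Hom A (obj A)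
  nat : ∀ {A B : BN k P Q} (f : Hom A B), cmp (map f) (eta A) = cmp (eta B) f

/-- the differential `(m, w) ↦ (d m, η m - G (d) w)` -/
def coneD (G : PFct k P Q) (D : Cx k P Q) :
    Hom (D.A.prod (G.obj D.A)) (D.A.prod (G.obj D.A)) :=
  ⟨LinearMap.prod (D.d.1 ∘ₗ LinearMap.fst k D.A.M (G.obj D.A).M)
    ((G.eta D.A).1 ∘ₗ LinearMap.fst k D.A.M (G.obj D.A).M -
      (G.map D.d).1 ∘ₗ LinearMap.snd k D.A.M (G.obj D.A).M),
    fun p m => by
      refine Prod.ext (D.d.2.1 p m.1) ?_
      change (G.eta D.A).1 (D.A.x p m.1) - (G.map D.d).1 ((G.obj D.A).x p m.2) =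
        (G.obj D.A).x p ((G.eta D.A).1 m.1 - (G.map D.d).1 m.2)
      rw [(G.eta D.A).2.1, (G.map D.d).2.1, map_sub],
    fun p r m h => by
      refine Prod.ext (D.d.2.2.1 p r m.1 h) ?_
      change (G.eta D.A).1 (D.A.S p r m.1) - (G.map D.d).1 ((G.obj D.A).S p r m.2) =
        (G.obj D.A).S p r ((G.eta D.A).1 m.1 - (G.map D.d).1 m.2)
      rw [(G.eta D.A).2.2.1 p r _ h, (G.map D.d).2.2.1 p r _ h, map_sub],
    fun p q m => by
      refine Prod.ext (D.d.2.2.2 p q m.1) ?_
      change (G.eta D.A).1 (D.A.E p q m.1) - (G.map D.d).1 ((G.obj D.A).E p q m.2) =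
        (G.obj D.A).E p q ((G.eta D.A).1 m.1 - (G.map D.d).1 m.2)
      rw [(G.eta D.A).2.2.2, (G.map D.d).2.2.2, map_sub]⟩

/-- the cone of `D ⟶ G D` -/
def cone (G : PFct k P Q) (D : Cx k P Q) : Cx k P Q where
  A := D.A.prod (G.obj D.A)
  d := coneD G D
  dd := by
    have h1 : ∀ m, D.d.1 (D.d.1 m) = 0 := fun m => congrArg (fun f => f.1 m) D.dd
    have h2 : ∀ m, (G.map D.d).1 ((G.map D.d).1 m) = 0 :=
      fun m => congrArg (fun f => f.1 m) (G.toFct.cx D).dd
    have h3 : ∀ m, (G.map D.d).1 ((G.eta D.A).1 m) = (G.eta D.A).1 (D.d.1 m) :=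
      fun m => congrArg (fun f => f.1 m) (G.nat D.d)
    refine hom_ext fun m => Prod.ext (h1 m.1) ?_
    change (G.eta D.A).1 (D.d.1 m.1) - (G.map D.d).1 ((G.eta D.A).1 m.1 - (G.map D.d).1 m.2) = 0
    rw [map_sub, h2, h3, sub_zero, sub_self]

end Pool.Agent.Lib.MP_f2e65a_lc
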