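import Pool.Agent.Lib.MP_f2e65a_lc.UDefs

/-! # EtaA: the natural map commutes with the dots and the saddles

Coordinates: `uη m = (E p q m, τ ↦ if τ = p then x p (E p q m) else S p τ (E τ q m))` (`uη_v`, `uη_p`, `uη_ne`).  Compare the coordinates `1`, `2 p`, `2 τ`
(`Prod.ext`, `funext`), using `ux_*`, `uS_*`, `uS1_*`.
* `x`, `t = p`: coordinate `v`: `x p (E p q m) = E p q (x p m)` (`x_E`).  Coordinate `p`: `0 = x p (E p q (x p m))` (`x_E`, `x_sq`).  Coordinate `τ ≠ p`: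
 `x τ (S p τ (E τ q m)) = S p τ (E τ q (x p m))`: `x_S_eq` (`x τ S = x p S`), `x_S`, `x_E`.
* `x`, `t ≠ p`: `x_x`, `x_S`, `x_E`.
* `S`, `t = p` (`s = r ≠ p`; the case `s = p` is the same by `S_symm` and `uS_p'`): state it for `uS1 A p r`:
 `v`: `S p r (E r q m) = E p q (S p r m)` (`S_E r p q` and `S_symm`).
 `p`: `x r (S p r (E r q m)) = x p (E p q (S p r m))`: `x_S_eq` and the previous one.
 `r`: `x p (E p q m) + x r (E p q m) = S p r (E r q (S p r m))`: `S_E` (`S p r (E p q m) = E r q (S p r m)`), `S_sq`.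
 `τ ≠ p, r`: `S τ r (S p τ (E τ q m)) = S p τ (E τ q (S p r m))`: `S_E'` (`E τ q (S p r m) = S p r (E τ q m)`), then `S_S_S p τ r`:
 `S τ r (S p τ m') = S p τ (S p r m')`.
* `S`, `t, s ≠ p`: `v`: `S_E'`.  `p`: `x_S`, `S_E'`.
 `τ = t` (`Equiv.swap t s t = s`): `S t s (S p s (E s q m)) = S p t (E t q (S t s m))`: `E t q (S t s m) = S t s (E s q m)` (`S_E s t q` and `S_symm`), and
 `S_S_S s t p`: `S t p (S s t m') = S s t (S s p m')` with `S_symm`.
 `τ = s`: the same with `t`, `s` exchanged.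
 other `τ` (`Equiv.swap_apply_of_ne_of_ne`): `S t s (S p τ (E τ q m)) = S p τ (E τ q (S t s m))`: `S_S`, `S_E'`. -/

set_option autoImplicit false
set_option linter.unusedVariables false

namespace Pool.Agent.Lib.MP_f2e65a_lc

variable {k : Type} [Field k] {P Q : Type} [Fintype P] [DecidableEq P] [Fintype Q]
  [DecidableEq Q]

theorem uη_x (A : BN k P Q) (p : P) (q : Q) (t : P) (m : A.M) :
    uη A p q (A.x t m) = ux A p t (uη A p q m) := by
  by_cases ht : t = p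
  · subst ht
    refine Prod.ext ?_ (funext fun τ => ?_)
    · rw [ux_p_v, uη_v, uη_p, A.x_E]
    · by_cases hτ : τ = t
      · subst hτ
        rw [ux_p_p, uη_p, ← A.x_E, A.x_sq]
      · rw [ux_p_ne A _ hτ, uη_ne A _ hτ, uη_ne A _ hτ, ← A.x_S_eq t τ _ (Ne.symm hτ),
          A.x_S t t τ _ (Ne.symm hτ), A.x_E]
  · refine Prod.ext ?_ (funext fun τ => ?_)
    · rw [ux_ne_v A _ ht, uη_v, uη_v, A.x_E]
    · rw [ux_ne A _ ht]
      by_cases hτ : τ = p
      · subst hτ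
        rw [uη_p, uη_p, ← A.x_E, A.x_x]
      · rw [uη_ne A _ hτ, uη_ne A _ hτ, A.x_S t p τ _ (Ne.symm hτ), A.x_E]

/-- exchange of a saddle and a projection -/
private theorem etaA_swap (A : BN k P Q) (t s : P) (q : Q) (m : A.M) (h : t ≠ s) :
    A.E t q (A.S t s m) = A.S t s (A.E s q m) := by
  rw [A.S_symm t s m h, ← A.S_E s t q m (Ne.symm h), A.S_symm s t _ (Ne.symm h)]

/-- saddles at the distinguished endpoint -/
private theorem etaA_S1 (A : BN k P Q) (p : P) (q : Q) (r : P) (m : A.M) (h : r ≠ p) :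
    uη A p q (A.S p r m) = uS1 A p r (uη A p q m) := by
  refine Prod.ext ?_ (funext fun τ => ?_)
  · rw [uS1_v, uη_v, uη_ne A _ h, etaA_swap A p r q m (Ne.symm h)]
  · by_cases hτ : τ = p
    · subst hτ
      rw [uS1_p, uη_p, uη_ne A _ h, etaA_swap A τ r q m (Ne.symm h),
        A.x_S_eq τ r _ (Ne.symm h)]
    · by_cases hτ' : τ = r
      · subst hτ'
        rw [uS1_self A _ h, uη_ne A _ h, uη_p, uη_v, ← A.S_E p τ q m (Ne.symm h),
          A.S_sq p τ _ (Ne.symm h)]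
      · rw [uS1_ne A _ hτ hτ', uη_ne A _ hτ, uη_ne A _ hτ,
          ← A.S_E' p r τ q m (Ne.symm h) hτ hτ', A.S_S_S p τ r _ (Ne.symm hτ) hτ' (Ne.symm h)]

theorem uη_S (A : BN k P Q) (p : P) (q : Q) (t s : P) (m : A.M) (h : t ≠ s) :
    uη A p q (A.S t s m) = uS A p t s (uη A p q m) := by
  by_cases ht : t = p
  · subst ht
    rw [uS_p A (Ne.symm h)]
    exact etaA_S1 A t q s m (Ne.symm h)
  by_cases hs : s = p
  · subst hs
    rw [uS_p' A h, A.S_symm t s m h]
    exact etaA_S1 A s q t m h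
  refine Prod.ext ?_ (funext fun τ => ?_)
  · rw [uS_ne_v A _ h ht hs, uη_v, uη_v, A.S_E' t s p q m h (Ne.symm ht) (Ne.symm hs)]
  · rw [uS_ne A _ h ht hs]
    by_cases hτ : τ = p
    · subst hτ
      rw [Equiv.swap_apply_of_ne_of_ne (Ne.symm ht) (Ne.symm hs), uη_p, uη_p,
        ← A.S_E' t s τ q m h (Ne.symm ht) (Ne.symm hs), A.x_S τ t s _ h]
    · by_cases hτt : τ = t
      · subst hτt
        rw [Equiv.swap_apply_left, uη_ne A _ ht, uη_ne A _ hs, etaA_swap A τ s q m h,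
          A.S_symm p τ _ (Ne.symm ht), A.S_symm τ s _ h, A.S_symm τ s _ h,
          A.S_symm p s _ (Ne.symm hs), A.S_S_S s τ p _ (Ne.symm h) ht hs]
      · by_cases hτs : τ = s
        · subst hτs
          rw [Equiv.swap_apply_right, uη_ne A _ hs, uη_ne A _ ht, ← A.S_E t τ q m h,
            A.S_symm p τ _ (Ne.symm hs), A.S_symm p t _ (Ne.symm ht),
            A.S_S_S t τ p _ h hs ht]
        · rw [Equiv.swap_apply_of_ne_of_ne hτt hτs, uη_ne A _ hτ, uη_ne A _ hτ,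
            ← A.S_E' t s τ q m h hτt hτs,
            A.S_S t s p τ _ h (Ne.symm hτ) ht (Ne.symm hτt) hs (Ne.symm hτs)]

end Pool.Agent.Lib.MP_f2e65a_lc
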