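import Pool.Agent.Lib.MP_f2e65a_lc.UDefs

/-! # EtaB: the natural map commutes with the projections

Coordinates: `uη m = (E p q m, τ ↦ if τ = p then x p (E p q m) else S p τ (E τ q m))` (`uη_v`, `uη_p`, `uη_ne`).  Compare the coordinates `1`, `2 p`, `2 τ`
(`Prod.ext`, `funext`), using `uE_*`.
* `t = p`, `s = q`: `E_idem`; at `τ ≠ p`: `S p τ (E τ q (E p q m)) = 0` (`E_col`, `map_zero`).
* `t = p`, `s ≠ q`: `E p q (E p s m) = 0` (`E_row`); at `τ ≠ p`: `E τ s (S p τ (E τ q m)) = S p τ (E τ q (E p s m))`: `S_E p τ s`: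
 `S p τ (E p s m') = E τ s (S p τ m')` for `m' = E τ q m`, and `E_E`.
* `t ≠ p`, `s = q`: `E p q (E t q m) = 0` (`E_col`), at `t`: `E_idem`, at the other `τ`: `E_col`.
* `t ≠ p`, `s ≠ q`: `v`: `E_E`; `p`: `E_E`, `x_E`; `τ = t`: `S p t (E t q (E t s m)) = 0` (`E_row`); `τ ≠ t, p`:
 `E t s (S p τ (E τ q m)) = S p τ (E τ q (E t s m))`: `S_E'`, `E_E`. -/

set_option autoImplicit false
set_option linter.unusedVariables false

namespace Pool.Agent.Lib.MP_f2e65a_lc

variable {k : Type} [Field k] {P Q : Type} [Fintype P] [DecidableEq P] [Fintype Q]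
  [DecidableEq Q]

theorem uη_E (A : BN k P Q) (p : P) (q : Q) (t : P) (s : Q) (m : A.M) :
    uη A p q (A.E t s m) = uE A p q t s (uη A p q m) := by
  by_cases ht : t = p
  · subst ht
    by_cases hs : s = q
    · subst hs
      refine Prod.ext ?_ (funext fun τ => ?_)
      · rw [uE_pq_v, uη_v, uη_v, A.E_idem]
      · by_cases hτ : τ = t
        · subst hτ
          rw [uE_pq_p, uη_p, uη_p, A.E_idem]
        · rw [uE_pq_ne A _ hτ, uη_ne A _ hτ, A.E_col τ t s m hτ, map_zero]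
    · refine Prod.ext ?_ (funext fun τ => ?_)
      · rw [uE_pu_v A _ hs, uη_v, A.E_row t q s m (Ne.symm hs)]
      · by_cases hτ : τ = t
        · subst hτ
          rw [uE_pu_p A _ hs, uη_p, A.E_row τ q s m (Ne.symm hs), map_zero]
        · rw [uE_pu_ne A _ hs hτ, uη_ne A _ hτ, uη_ne A _ hτ, A.E_E τ q t s m,
            A.S_E t τ s _ (Ne.symm hτ)]
  · by_cases hs : s = q
    · subst hs
      refine Prod.ext ?_ (funext fun τ => ?_)
      · rw [uE_tq_v A _ ht, uη_v, A.E_col p t s m (Ne.symm ht)]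
      · by_cases hτ : τ = t
        · subst hτ
          rw [uE_tq_t A _ ht, uη_ne A _ ht, uη_ne A _ ht, A.E_idem]
        · rw [uE_tq_ne A _ ht hτ]
          by_cases hτ' : τ = p
          · subst hτ'
            rw [uη_p, A.E_col τ t s m hτ, map_zero]
          · rw [uη_ne A _ hτ', A.E_col τ t s m hτ, map_zero]
    · refine Prod.ext ?_ (funext fun τ => ?_)
      · rw [uE_tu_v A _ ht hs, uη_v, uη_v, A.E_E]
      · by_cases hτ : τ = t
        · subst hτ
          rw [uE_tu_t A _ ht hs, uη_ne A _ ht, A.E_row τ q s m (Ne.symm hs), map_zero]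
        · rw [uE_tu_ne A _ ht hs hτ]
          by_cases hτ' : τ = p
          · subst hτ'
            rw [uη_p, uη_p, A.E_E τ q t s m, A.x_E]
          · rw [uη_ne A _ hτ', uη_ne A _ hτ', A.E_E τ q t s m,
              A.S_E' p τ t s _ (Ne.symm hτ') ht (Ne.symm hτ)]

end Pool.Agent.Lib.MP_f2e65a_lc
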