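import Pool.Agent.Lib.MP_f2e65a_lc.RetDefs

/-! # RetA: retracts up to homotopy

`Ret C D`: `ε`, `f : C → D`, `g : D → C`, `h : C → C` with `ε ε = 1`, `f C.d = ε D.d f`, `g D.d = ε C.d g`, `g f = 1 + (C.d h + h C.d)`.
Use the lemmas of RetDefs.lean (`cmp_add`, `smul_cmp`, ...) or compute on elements (`hom_ext`).
* `refl`: `ε = 1`, identities, `h = 0`.
* `trans`: from `(ε₁, f₁, g₁, h₁)` and `(ε₂, f₂, g₂, h₂)`: `ε = ε₁ ε₂`, `f = f₂ f₁`, `g = g₁ g₂`, `h = h₁ + ε₁ g₁ h₂ f₁`: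
 `g₁ g₂ f₂ f₁ = g₁ f₁ + g₁ D.d h₂ f₁ + g₁ h₂ D.d f₁`, `g₁ D.d = ε₁ C.d g₁`, `D.d f₁ = ε₁ f₁ C.d`.
* `map`: apply `F` (`F.map_cmp`, `F.map_add`, `F.map_smul`, `F.map_id`).
* `cone`: `f̂ (m, w) = (f m, ε G(f) w)`, `ĝ (m, w) = (g m, ε G(g) w)`, `ĥ (m, w) = (h m, - G(h) w)` (morphisms: build them from `inlH`, `inrH`, `fstH`, `sndH`, e.g.
 `f̂ = inlH f fstH + inrH (ε G.map f) sndH`, or with `LinearMap.prodMap`).  The differential of the cone is `(m, w) ↦ (d m, η m - G(d) w)` (`cone_d_apply`).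
 `f̂ D̂ (m, w) = (f d m, ε G(f) η m - ε G(f d) w) = (ε d f m, ε η f m - ε ε G(d f) w)` (`G.nat`: `G(f) η = η f`) `= ε D̂ f̂ (m, w)`; the same for `ĝ`.
 `ĝ f̂ = (g f, ε ε G(g f)) = (1 + d h + h d, 1 + G(d) G(h) + G(h) G(d))`; `D̂ ĥ (m, w) = (d h m, η h m + G(d) G(h) w)`, `ĥ D̂ (m, w) = (h d m, - G(h) η m + G(h) G(d) w)`,
 and `η h m = G(h) η m`. -/

set_option autoImplicit false
set_option linter.unusedVariables false

namespace Pool.Agent.Lib.MP_f2e65a_lc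

variable {k : Type} [Field k] {P Q P' Q' : Type} [Fintype P] [DecidableEq P] [Fintype Q]
  [DecidableEq Q] [Fintype P'] [DecidableEq P'] [Fintype Q'] [DecidableEq Q']

/-- equality of morphisms on elements -/
private theorem retA_apply {A B : BN k P Q} {f g : Hom A B} (h : f = g) (m : A.M) :
    f.1 m = g.1 m := congrArg (fun φ : Hom A B => φ.1 m) h

/-- the product of two morphisms -/
private def retA_prod {A A' B B' : BN k P Q} (f : Hom A B) (g : Hom A' B') :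
    Hom (A.prod A') (B.prod B') :=
  ⟨LinearMap.prodMap f.1 g.1,
    fun p m => Prod.ext (f.2.1 p (m : A.M × A'.M).1) (g.2.1 p (m : A.M × A'.M).2),
    fun p r m h => Prod.ext (f.2.2.1 p r (m : A.M × A'.M).1 h) (g.2.2.1 p r (m : A.M × A'.M).2 h),
    fun p q m => Prod.ext (f.2.2.2 p q (m : A.M × A'.M).1) (g.2.2.2 p q (m : A.M × A'.M).2)⟩

private theorem retA_prod_ext {A A' B : BN k P Q} {f g : Hom (A.prod A') B}
    (h : ∀ (m : A.M) (w : A'.M), f.1 ((m, w) : A.M × A'.M) = g.1 ((m, w) : A.M × A'.M)) :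
    f = g := hom_ext fun m => h (m : A.M × A'.M).1 (m : A.M × A'.M).2

theorem Ret.refl (C : Cx k P Q) : Ret C C := by
  refine ⟨1, idH _, idH _, 0, mul_one 1, ?_, ?_, ?_⟩
  · rw [one_smul]
    rfl
  · rw [one_smul]
    rfl
  · rw [cmp_zero, zero_cmp, add_zero, add_zero]
    rfl

theorem Ret.trans {C D E : Cx k P Q} (h1 : Ret C D) (h2 : Ret D E) : Ret C E := by
  obtain ⟨ε₁, f₁, g₁, h₁, e1, a1, b1, c1⟩ := h1
  obtain ⟨ε₂, f₂, g₂, h₂, e2, a2, b2, c2⟩ := h2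
  have a1' : ∀ m, f₁.1 (C.d.1 m) = ε₁ • D.d.1 (f₁.1 m) := retA_apply a1
  have b1' : ∀ m, g₁.1 (D.d.1 m) = ε₁ • C.d.1 (g₁.1 m) := retA_apply b1
  have c1' : ∀ m, g₁.1 (f₁.1 m) = m + (C.d.1 (h₁.1 m) + h₁.1 (C.d.1 m)) := retA_apply c1
  have a2' : ∀ m, f₂.1 (D.d.1 m) = ε₂ • E.d.1 (f₂.1 m) := retA_apply a2
  have b2' : ∀ m, g₂.1 (E.d.1 m) = ε₂ • D.d.1 (g₂.1 m) := retA_apply b2
  have c2' : ∀ m, g₂.1 (f₂.1 m) = m + (D.d.1 (h₂.1 m) + h₂.1 (D.d.1 m)) := retA_apply c2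
  have a1'' : ∀ m, D.d.1 (f₁.1 m) = ε₁ • f₁.1 (C.d.1 m) := fun m => by
    rw [a1', smul_smul, e1, one_smul]
  refine ⟨ε₁ * ε₂, cmp f₂ f₁, cmp g₁ g₂, h₁ + ε₁ • cmp g₁ (cmp h₂ f₁), ?_, ?_, ?_, ?_⟩
  · rw [mul_mul_mul_comm, e1, e2, mul_one]
  · refine hom_ext fun m => ?_
    change f₂.1 (f₁.1 (C.d.1 m)) = (ε₁ * ε₂) • E.d.1 (f₂.1 (f₁.1 m))
    rw [a1', map_smul, a2', smul_smul]
  · refine hom_ext fun m => ?_
    change g₁.1 (g₂.1 (E.d.1 m)) = (ε₁ * ε₂) • C.d.1 (g₁.1 (g₂.1 m))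
    rw [b2', map_smul, b1', smul_smul, mul_comm]
  · refine hom_ext fun m => ?_
    change g₁.1 (g₂.1 (f₂.1 (f₁.1 m))) = m + (C.d.1 (h₁.1 m + ε₁ • g₁.1 (h₂.1 (f₁.1 m))) +
      (h₁.1 (C.d.1 m) + ε₁ • g₁.1 (h₂.1 (f₁.1 (C.d.1 m)))))
    rw [c2', map_add, map_add, c1', b1', a1'', map_smul, map_smul, map_add, map_smul]
    abel

theorem Ret.map (F : Fct k P Q P' Q') {C D : Cx k P Q} (h : Ret C D) :
    Ret (F.cx C) (F.cx D) := by
  obtain ⟨ε, f, g, h, e, a, b, c⟩ := h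
  refine ⟨ε, F.map f, F.map g, F.map h, e, ?_, ?_, ?_⟩
  · change cmp (F.map f) (F.map C.d) = ε • cmp (F.map D.d) (F.map f)
    rw [← F.map_cmp, ← F.map_cmp, a, F.map_smul]
  · change cmp (F.map g) (F.map D.d) = ε • cmp (F.map C.d) (F.map g)
    rw [← F.map_cmp, ← F.map_cmp, b, F.map_smul]
  · change cmp (F.map g) (F.map f) = idH (F.obj C.A) +
      (cmp (F.map C.d) (F.map h) + cmp (F.map h) (F.map C.d))
    rw [← F.map_cmp, ← F.map_cmp, ← F.map_cmp, c, F.map_add, F.map_add, F.map_id]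

theorem Ret.cone (G : PFct k P Q) {C D : Cx k P Q} (h : Ret C D) :
    Ret (cone G C) (cone G D) := by
  obtain ⟨ε, f, g, h, e, a, b, c⟩ := h
  have a' : ∀ m, f.1 (C.d.1 m) = ε • D.d.1 (f.1 m) := retA_apply a
  have b' : ∀ m, g.1 (D.d.1 m) = ε • C.d.1 (g.1 m) := retA_apply b
  have c' : ∀ m, g.1 (f.1 m) = m + (C.d.1 (h.1 m) + h.1 (C.d.1 m)) := retA_apply c
  have Ga : ∀ w, (G.map f).1 ((G.map C.d).1 w) = ε • (G.map D.d).1 ((G.map f).1 w) := by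
    have h1 : cmp (G.map f) (G.map C.d) = ε • cmp (G.map D.d) (G.map f) := by
      rw [← G.map_cmp, ← G.map_cmp, a, G.map_smul]
    exact retA_apply h1
  have Gb : ∀ w, (G.map g).1 ((G.map D.d).1 w) = ε • (G.map C.d).1 ((G.map g).1 w) := by
    have h1 : cmp (G.map g) (G.map D.d) = ε • cmp (G.map C.d) (G.map g) := by
      rw [← G.map_cmp, ← G.map_cmp, b, G.map_smul]
    exact retA_apply h1
  have Gc : ∀ w, (G.map g).1 ((G.map f).1 w) =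
      w + ((G.map C.d).1 ((G.map h).1 w) + (G.map h).1 ((G.map C.d).1 w)) := by
    have h1 : cmp (G.map g) (G.map f) = idH (G.obj C.A) +
        (cmp (G.map C.d) (G.map h) + cmp (G.map h) (G.map C.d)) := by
      rw [← G.map_cmp, ← G.map_cmp, ← G.map_cmp, c, G.map_add, G.map_add, G.map_id]
    exact retA_apply h1
  have nf : ∀ m, (G.map f).1 ((G.eta C.A).1 m) = (G.eta D.A).1 (f.1 m) := retA_apply (G.nat f)
  have ng : ∀ m, (G.map g).1 ((G.eta D.A).1 m) = (G.eta C.A).1 (g.1 m) := retA_apply (G.nat g)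
  have nh : ∀ m, (G.map h).1 ((G.eta C.A).1 m) = (G.eta C.A).1 (h.1 m) := retA_apply (G.nat h)
  refine ⟨ε, retA_prod f (ε • G.map f), retA_prod g (ε • G.map g), retA_prod h (-G.map h), e,
    ?_, ?_, ?_⟩
  · refine retA_prod_ext fun m w => Prod.ext (a' m) ?_
    change ε • (G.map f).1 ((G.eta C.A).1 m - (G.map C.d).1 w) =
      ε • ((G.eta D.A).1 (f.1 m) - (G.map D.d).1 (ε • (G.map f).1 w))
    rw [map_sub, nf, Ga, map_smul]
  · refine retA_prod_ext fun m w => Prod.ext (b' m) ?_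
    change ε • (G.map g).1 ((G.eta D.A).1 m - (G.map D.d).1 w) =
      ε • ((G.eta C.A).1 (g.1 m) - (G.map C.d).1 (ε • (G.map g).1 w))
    rw [map_sub, ng, Gb, map_smul]
  · refine retA_prod_ext fun m w => Prod.ext (c' m) ?_
    change ε • (G.map g).1 (ε • (G.map f).1 w) = w +
      (((G.eta C.A).1 (h.1 m) - (G.map C.d).1 (-(G.map h).1 w)) +
        -(G.map h).1 ((G.eta C.A).1 m - (G.map C.d).1 w))
    rw [map_smul, smul_smul, e, one_smul, Gc, map_neg, map_sub, nh]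
    abel

theorem Ret.cross (p : P) (q : Q) {C D : Cx k P Q} (h : Ret C D) :
    Ret (cross p q C) (cross p q D) := Ret.cone (U k p q) h

theorem Ret.of_iso {C D : Cx k P Q} (h : Iso C D) : Ret C D ∧ Ret D C := by
  obtain ⟨f, g, h1, h2, h3⟩ := h
  have h4 : cmp g D.d = cmp C.d g := by
    have e1 : cmp g D.d = cmp (cmp g (cmp D.d f)) g := by
      rw [cmp_assoc, cmp_assoc, h2]
      rfl
    rw [e1, ← h3, ← cmp_assoc, h1, id_cmp]
  refine ⟨⟨1, f, g, 0, mul_one 1, ?_, ?_, ?_⟩, ⟨1, g, f, 0, mul_one 1, ?_, ?_, ?_⟩⟩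
  · rw [one_smul, h3]
  · rw [one_smul, h4]
  · rw [cmp_zero, zero_cmp, add_zero, add_zero, h1]
  · rw [one_smul, h4]
  · rw [one_smul, h3]
  · rw [cmp_zero, zero_cmp, add_zero, add_zero, h2]

end Pool.Agent.Lib.MP_f2e65a_lc
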