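import Pool.Agent.Lib.MP_f2e65a_lc.ThB
import Pool.Agent.Lib.MP_f2e65a_lc.RetA

/-! # FF: far crossings commute

`X₁ = cross r s D`, `Y₁ = cross p q X₁`, `X₂ = cross p q D`, `Y₂ = cross r s X₂`, `A = D.A`.  `Y₁.A = (A ⊕ U_rs A) ⊕ U_pq (A ⊕ U_rs A)`.
Define `Ψ : Y₁.A → Y₂.A` by morphisms: for `y = (x, w)`, `x = (m, a)`:
`Ψ (x, w) = ((m, U_pq(fst) w), U_rs(inl) a - U_rs(inr) (Θ (U_pq(snd) w)))` (`fstH`, `sndH`, `inlH`, `inrH`, `(U k p q).map`, `Θ = theta A`).
The inverse is given by the same formula with the roles of `(p, q)` and `(r, s)` exchanged and `Θ' = theta A hpr.symm hqs.symm`: `U_rs(fst) (U_rs(inl) a - U_rs(inr) b) = a`, `U_rs(snd) (..) = - b`, `Θ' Θ = 1` (`theta_inv`), and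
`U_pq(inl) U_pq(fst) + U_pq(inr) U_pq(snd) = 1` (`inl_fst_add`, `map_add`, `map_cmp`, `map_id`).
Differentials (`cone_d_apply`; write `w' = U_pq(fst) w`, `w'' = U_pq(snd) w`): `D_{X₁} (m, a) = (d m, η_rs m - U_rs(d) a)`, `D_{Y₁} (x, w) = (D_{X₁} x, η_pq x - U_pq(D_{X₁}) w)`.
 `U_pq(fst) η_pq x = η_pq m`, `U_pq(snd) η_pq x = η_pq a` (`nat`), `U_pq(fst) U_pq(D_{X₁}) w = U_pq(d) w'`, `U_pq(snd) U_pq(D_{X₁}) w = U_pq(η_rs) w' - U_pq(U_rs(d)) w''` (`snd D_{X₁} = η_rs fst - U_rs(d) snd`).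
 So `Ψ D_{Y₁} y = ((d m, η_pq m - U_pq(d) w'), U_rs(inl) (η_rs m - U_rs(d) a) - U_rs(inr) Θ (η_pq a - U_pq(η_rs) w' + U_pq(U_rs(d)) w''))`.
 `D_{Y₂} Ψ y = ((d m, η_pq m - U_pq(d) w'), η_rs (m, w') - U_rs(D_{X₂}) (U_rs(inl) a - U_rs(inr) Θ w''))`, with `η_rs (m, w') = U_rs(inl) η_rs m + U_rs(inr) η_rs w'` (`nat` for `inlH`, `inrH`), and
 `D_{X₂} inl = inl d + inr η_pq`, `D_{X₂} inr = - inr U_pq(d)`; so the second component is
 `U_rs(inl) (η_rs m - U_rs(d) a) + U_rs(inr) (η_rs w' - U_rs(η_pq) a - U_rs(U_pq(d)) Θ w'')`.  They agree by `theta_eta` (`Θ η_pq a = U_rs(η_pq) a`), `theta_eta'` (`Θ U_pq(η_rs) w' = η_rs w'`), `theta_nat`.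
Conclude with `Iso` and `Ret.of_iso`. -/

set_option autoImplicit false
set_option linter.unusedVariables false

namespace Pool.Agent.Lib.MP_f2e65a_lc

variable {k : Type} [Field k] {P Q : Type} [Fintype P] [DecidableEq P] [Fintype Q]
  [DecidableEq Q]

/-- equality of morphisms on elements -/
private theorem ff_apply {A B : BN k P Q} {f g : Hom A B} (h : f = g) (m : A.M) :
    f.1 m = g.1 m := congrArg (fun φ : Hom A B => φ.1 m) h

private theorem ff_ext {A B C E : BN k P Q} {f g : Hom ((A.prod B).prod C) E}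
    (h : ∀ (m : A.M) (a : B.M) (w : C.M), f.1 (((m, a), w) : (A.M × B.M) × C.M) =
      g.1 (((m, a), w) : (A.M × B.M) × C.M)) : f = g :=
  hom_ext fun y => h (y : (A.M × B.M) × C.M).1.1 (y : (A.M × B.M) × C.M).1.2
    (y : (A.M × B.M) × C.M).2

/-- the morphism to a product -/
private def ff_pair {A B C : BN k P Q} (f : Hom C A) (g : Hom C B) : Hom C (A.prod B) :=
  ⟨LinearMap.prod f.1 g.1, fun p m => Prod.ext (f.2.1 p m) (g.2.1 p m),
    fun p r m h => Prod.ext (f.2.2.1 p r m h) (g.2.2.1 p r m h),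
    fun p q m => Prod.ext (f.2.2.2 p q m) (g.2.2.2 p q m)⟩

/-- the functor `U p q` on morphisms -/
private def ffM (p : P) (q : Q) {B C : BN k P Q} (g : Hom B C) : Hom (uobj B p q) (uobj C p q) :=
  (U k p q).map g

/-- the natural map -/
private def ffη (p : P) (q : Q) (B : BN k P Q) : Hom B (uobj B p q) := (U k p q).eta B

/-- the differential of a crossing -/
private def ffd (p : P) (q : Q) (D : Cx k P Q) :
    Hom (D.A.prod (uobj D.A p q)) (D.A.prod (uobj D.A p q)) := (cross p q D).d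

/-- the isomorphism -/
private noncomputable def ffΨ (A : BN k P Q) {p r : P} {q s : Q} (hpr : p ≠ r) (hqs : q ≠ s) :
    Hom ((A.prod (uobj A r s)).prod (uobj (A.prod (uobj A r s)) p q))
      ((A.prod (uobj A p q)).prod (uobj (A.prod (uobj A p q)) r s)) :=
  ff_pair
    (ff_pair (cmp (fstH A (uobj A r s)) (fstH (A.prod (uobj A r s)) (uobj (A.prod (uobj A r s)) p q)))
      (cmp (ffM p q (fstH A (uobj A r s)))
        (sndH (A.prod (uobj A r s)) (uobj (A.prod (uobj A r s)) p q))))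
    (cmp (ffM r s (inlH A (uobj A p q)))
        (cmp (sndH A (uobj A r s)) (fstH (A.prod (uobj A r s)) (uobj (A.prod (uobj A r s)) p q))) -
      cmp (ffM r s (inrH A (uobj A p q))) (cmp (theta A hpr hqs)
        (cmp (ffM p q (sndH A (uobj A r s)))
          (sndH (A.prod (uobj A r s)) (uobj (A.prod (uobj A r s)) p q)))))

/-- the value of a functor on a composition -/
private theorem ff_cmp (p : P) (q : Q) {B C E : BN k P Q} (g : Hom C E) (f : Hom B C)
    (w : (uobj B p q).M) : (ffM p q g).1 ((ffM p q f).1 w) = (ffM p q (cmp g f)).1 w := rfl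

private theorem ff_id (p : P) (q : Q) (B : BN k P Q) (w : (uobj B p q).M) :
    (ffM p q (idH B)).1 w = w := rfl

private theorem ff_zero (p : P) (q : Q) (B C : BN k P Q) (w : (uobj B p q).M) :
    (ffM p q (0 : Hom B C)).1 w = 0 :=
  ff_apply ((U k p q).toFct.map_zero B C) w

private theorem ff_add (p : P) (q : Q) {B C : BN k P Q} (f g : Hom B C) (w : (uobj B p q).M) :
    (ffM p q (f + g)).1 w = (ffM p q f).1 w + (ffM p q g).1 w :=
  ff_apply ((U k p q).map_add f g) w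

private theorem ff_sub (p : P) (q : Q) {B C : BN k P Q} (f g : Hom B C) (w : (uobj B p q).M) :
    (ffM p q (f - g)).1 w = (ffM p q f).1 w - (ffM p q g).1 w :=
  ff_apply ((U k p q).toFct.map_sub f g) w

private theorem ff_neg (p : P) (q : Q) {B C : BN k P Q} (f : Hom B C) (w : (uobj B p q).M) :
    (ffM p q (-f)).1 w = -(ffM p q f).1 w :=
  ff_apply ((U k p q).toFct.map_neg f) w

private theorem ff_nat (p : P) (q : Q) {B C : BN k P Q} (f : Hom B C) (m : B.M) :
    (ffM p q f).1 ((ffη p q B).1 m) = (ffη p q C).1 (f.1 m) :=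
  ff_apply ((U k p q).nat f) m

private theorem ff_inv (A : BN k P Q) {p r : P} {q s : Q} (hpr : p ≠ r) (hqs : q ≠ s) :
    cmp (ffΨ A hpr.symm hqs.symm) (ffΨ A hpr hqs) = idH _ := by
  refine ff_ext fun m a w => Prod.ext (Prod.ext rfl ?_) ?_
  · change (ffM r s (fstH A (uobj A p q))).1 ((ffM r s (inlH A (uobj A p q))).1 a -
      (ffM r s (inrH A (uobj A p q))).1 ((theta A hpr hqs).1
        ((ffM p q (sndH A (uobj A r s))).1 w))) = a
    rw [_root_.map_sub, ff_cmp, ff_cmp, fst_inl, fst_inr, ff_id, ff_zero, sub_zero]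
  · change (ffM p q (inlH A (uobj A r s))).1 ((ffM p q (fstH A (uobj A r s))).1 w) -
      (ffM p q (inrH A (uobj A r s))).1 ((theta A hpr.symm hqs.symm).1
        ((ffM r s (sndH A (uobj A p q))).1 ((ffM r s (inlH A (uobj A p q))).1 a -
          (ffM r s (inrH A (uobj A p q))).1 ((theta A hpr hqs).1
            ((ffM p q (sndH A (uobj A r s))).1 w))))) = w
    have h1 : ∀ c, (theta A hpr.symm hqs.symm).1 ((theta A hpr hqs).1 c) = c :=
      ff_apply (theta_inv A hpr hqs)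
    have h2 : (ffM p q (inlH A (uobj A r s))).1 ((ffM p q (fstH A (uobj A r s))).1 w) +
        (ffM p q (inrH A (uobj A r s))).1 ((ffM p q (sndH A (uobj A r s))).1 w) = w := by
      rw [ff_cmp, ff_cmp, ← ff_add, inl_fst_add, ff_id]
    rw [_root_.map_sub (ffM r s (sndH A (uobj A p q))).1, ff_cmp r s, ff_cmp r s, snd_inl,
      snd_inr, ff_id, ff_zero, zero_sub, _root_.map_neg, h1, _root_.map_neg, sub_neg_eq_add, h2]

/-- the morphism commutes with the differentials -/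
private theorem ff_d (D : Cx k P Q) {p r : P} {q s : Q} (hpr : p ≠ r) (hqs : q ≠ s) :
    cmp (ffΨ D.A hpr hqs) (cross p q (cross r s D)).d =
      cmp (cross r s (cross p q D)).d (ffΨ D.A hpr hqs) := by
  refine ff_ext fun m a w => Prod.ext (Prod.ext rfl ?_) ?_
  · change (ffM p q (fstH D.A (uobj D.A r s))).1
        ((ffη p q (D.A.prod (uobj D.A r s))).1 ((m, a) : D.A.M × (uobj D.A r s).M) -
          (ffM p q (ffd r s D)).1 w) =
      (ffη p q D.A).1 m - (ffM p q D.d).1 ((ffM p q (fstH D.A (uobj D.A r s))).1 w)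
    rw [_root_.map_sub, ff_nat]
    rfl
  · change (ffM r s (inlH D.A (uobj D.A p q))).1
        ((ffη r s D.A).1 m - (ffM r s D.d).1 a) -
      (ffM r s (inrH D.A (uobj D.A p q))).1 ((theta D.A hpr hqs).1
        ((ffM p q (sndH D.A (uobj D.A r s))).1
          ((ffη p q (D.A.prod (uobj D.A r s))).1 ((m, a) : D.A.M × (uobj D.A r s).M) -
            (ffM p q (ffd r s D)).1 w))) =
      (ffη r s (D.A.prod (uobj D.A p q))).1
        ((m, (ffM p q (fstH D.A (uobj D.A r s))).1 w) : D.A.M × (uobj D.A p q).M) -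
      (ffM r s (ffd p q D)).1 ((ffM r s (inlH D.A (uobj D.A p q))).1 a -
        (ffM r s (inrH D.A (uobj D.A p q))).1 ((theta D.A hpr hqs).1
          ((ffM p q (sndH D.A (uobj D.A r s))).1 w)))
    obtain ⟨w', hw'⟩ : ∃ w', w' = (ffM p q (fstH D.A (uobj D.A r s))).1 w := ⟨_, rfl⟩
    obtain ⟨w'', hw''⟩ : ∃ w'', w'' = (ffM p q (sndH D.A (uobj D.A r s))).1 w := ⟨_, rfl⟩
    have h1 : (ffM p q (sndH D.A (uobj D.A r s))).1
        ((ffη p q (D.A.prod (uobj D.A r s))).1 ((m, a) : D.A.M × (uobj D.A r s).M)) =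
        (ffη p q (uobj D.A r s)).1 a := ff_nat p q _ _
    have h2 : (ffM p q (sndH D.A (uobj D.A r s))).1 ((ffM p q (ffd r s D)).1 w) =
        (ffM p q (ffη r s D.A)).1 w' - (ffM p q (ffM r s D.d)).1 w'' := by
      have e1 : cmp (sndH D.A (uobj D.A r s)) (ffd r s D) =
          cmp (ffη r s D.A) (fstH D.A (uobj D.A r s)) -
            cmp (ffM r s D.d) (sndH D.A (uobj D.A r s)) := hom_ext fun _ => rfl
      rw [hw', hw'', ff_cmp, ff_cmp, ff_cmp, e1, ff_sub]
    have h3 : (theta D.A hpr hqs).1 ((ffη p q (uobj D.A r s)).1 a) =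
        (ffM r s (ffη p q D.A)).1 a := ff_apply (theta_eta D.A hpr hqs) a
    have h4 : (theta D.A hpr hqs).1 ((ffM p q (ffη r s D.A)).1 w') =
        (ffη r s (uobj D.A p q)).1 w' := ff_apply (theta_eta' D.A hpr hqs) w'
    have h5 : (theta D.A hpr hqs).1 ((ffM p q (ffM r s D.d)).1 w'') =
        (ffM r s (ffM p q D.d)).1 ((theta D.A hpr hqs).1 w'') :=
      ff_apply (theta_nat D.d hpr hqs) w''
    have h6 : (ffη r s (D.A.prod (uobj D.A p q))).1
        ((m, w') : D.A.M × (uobj D.A p q).M) =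
        (ffM r s (inlH D.A (uobj D.A p q))).1 ((ffη r s D.A).1 m) +
          (ffM r s (inrH D.A (uobj D.A p q))).1 ((ffη r s (uobj D.A p q)).1 w') := by
      rw [ff_nat, ff_nat, ← _root_.map_add]
      refine congrArg _ (Prod.ext ?_ ?_)
      · exact (add_zero m).symm
      · exact (zero_add w').symm
    have h7 : (ffM r s (ffd p q D)).1 ((ffM r s (inlH D.A (uobj D.A p q))).1 a) =
        (ffM r s (inlH D.A (uobj D.A p q))).1 ((ffM r s D.d).1 a) +
          (ffM r s (inrH D.A (uobj D.A p q))).1 ((ffM r s (ffη p q D.A)).1 a) := by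
      have e1 : cmp (ffd p q D) (inlH D.A (uobj D.A p q)) =
          cmp (inlH D.A (uobj D.A p q)) D.d +
            cmp (inrH D.A (uobj D.A p q)) (ffη p q D.A) := by
        refine hom_ext fun n => Prod.ext (add_zero _).symm ?_
        change (ffη p q D.A).1 n - (ffM p q D.d).1 0 = 0 + (ffη p q D.A).1 n
        rw [_root_.map_zero, sub_zero, zero_add]
      rw [ff_cmp, e1, ff_add, ff_cmp, ff_cmp]
    have h8 : ∀ c, (ffM r s (ffd p q D)).1 ((ffM r s (inrH D.A (uobj D.A p q))).1 c) =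
        -(ffM r s (inrH D.A (uobj D.A p q))).1 ((ffM r s (ffM p q D.d)).1 c) := by
      intro c
      have e1 : cmp (ffd p q D) (inrH D.A (uobj D.A p q)) =
          -cmp (inrH D.A (uobj D.A p q)) (ffM p q D.d) := by
        refine hom_ext fun n => Prod.ext ?_ ?_
        · change D.d.1 0 = -0
          rw [_root_.map_zero, neg_zero]
        · change (ffη p q D.A).1 0 - (ffM p q D.d).1 n = -(ffM p q D.d).1 n
          rw [_root_.map_zero, zero_sub]
      rw [ff_cmp, e1, ff_neg, ff_cmp]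
    rw [← hw', ← hw'', _root_.map_sub (ffM p q (sndH D.A (uobj D.A r s))).1, h1, h2,
      _root_.map_sub (theta D.A hpr hqs).1, _root_.map_sub (theta D.A hpr hqs).1, h3, h4, h5, h6,
      _root_.map_sub (ffM r s (ffd p q D)).1, h7, h8,
      _root_.map_sub (ffM r s (inlH D.A (uobj D.A p q))).1,
      _root_.map_sub (ffM r s (inrH D.A (uobj D.A p q))).1,
      _root_.map_sub (ffM r s (inrH D.A (uobj D.A p q))).1]
    abel

theorem relFF (D : Cx k P Q) {p r : P} {q s : Q} (hpr : p ≠ r) (hqs : q ≠ s) :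
    Ret (cross p q (cross r s D)) (cross r s (cross p q D)) := by
  refine (Ret.of_iso ⟨ffΨ D.A hpr hqs, ffΨ D.A hpr.symm hqs.symm, ff_inv D.A hpr hqs,
    ff_inv D.A hpr.symm hqs.symm, ff_d D hpr hqs⟩).1

end Pool.Agent.Lib.MP_f2e65a_lc
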