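import Pool.Agent.Lib.MP_f2e65a_lc.FreeDefs

/-! # FreeA: elementary properties of free modules

* `isFree_unit`, `good_unit` (`P`, `Q` empty): `clo B a = ⊤`, a morphism from `BN.unit` is a linear map `k → B.M` (all conditions are empty); `rad = ⊥` (`rad_le`, no generators), `1 ∉ ⊥`; every submodule of `k` with a nonzero element is `⊤`;
 `finrank k k = 1 = (0 + 1)!`, `finrank (clo ..) ≤ 1 = 2 ^ 0`.
* `isFree_relabel`: morphisms `(relabel e f).obj A → B` are the morphisms `A → (relabel e.symm f.symm).obj B` with the same underlying linear map (`e.symm (e p) = p`, `e (e.symm p) = p`); `E' p' (a' p') = A.E (e p') (f (f.symm (lab i (e p'))))`.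
* `good_relabel`: the radical and the closed submodules are the same (`p' = e.symm p`); `clo ((relabel e f).obj A) c = clo A (e.symm.trans (c.trans f))`; `Fintype.card_congr`.
* `isFree_pi`: `f = ∑ i, f_i ∘ prj i`; uniqueness: `f = ∑ f ∘ inc i ∘ prj i` (`sum_inc_prj`), and `f ∘ inc i = f' ∘ inc i` by `(h i).ext`.
* `isFree_prod`: `f (m, m') = f₁ m + f₂ m'` (`fstH`, `sndH`, `inlH`, `inrH`, `inl_fst_add`).
* `isFree_iso`: the usual argument. -/

set_option autoImplicit false
set_option linter.unusedVariables false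
set_option linter.unusedSectionVars false

namespace Pool.Agent.Lib.MP_f2e65a_lc

variable {k : Type} [Field k] {P Q P' Q' : Type} [Fintype P] [DecidableEq P] [Fintype Q]
  [DecidableEq Q] [Fintype P'] [DecidableEq P'] [Fintype Q'] [DecidableEq Q']

/-- morphisms from a relabelled module -/
private def freeA_to (e : P' ≃ P) (f : Q' ≃ Q) {A : BN k P Q} {B : BN k P' Q'}
    (F : Hom ((relabel e f).obj A) B) : Hom A ((relabel e.symm f.symm).obj B) :=
  ⟨F.1, fun p m => by
      have h := F.2.1 (e.symm p) m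
      change F.1 (A.x (e (e.symm p)) m) = B.x (e.symm p) (F.1 m) at h
      rw [e.apply_symm_apply] at h
      exact h,
    fun p r m hpr => by
      have h := F.2.2.1 (e.symm p) (e.symm r) m (e.symm.injective.ne hpr)
      change F.1 (A.S (e (e.symm p)) (e (e.symm r)) m) = B.S (e.symm p) (e.symm r) (F.1 m) at h
      rw [e.apply_symm_apply, e.apply_symm_apply] at h
      exact h,
    fun p q m => by
      have h := F.2.2.2 (e.symm p) (f.symm q) m
      change F.1 (A.E (e (e.symm p)) (f (f.symm q)) m) = B.E (e.symm p) (f.symm q) (F.1 m) at h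
      rw [e.apply_symm_apply, f.apply_symm_apply] at h
      exact h⟩

/-- morphisms to a relabelled module -/
private def freeA_from (e : P' ≃ P) (f : Q' ≃ Q) {A : BN k P Q} {B : BN k P' Q'}
    (F : Hom A ((relabel e.symm f.symm).obj B)) : Hom ((relabel e f).obj A) B :=
  ⟨F.1, fun p m => by
      have h := F.2.1 (e p) m
      change F.1 (A.x (e p) m) = B.x (e.symm (e p)) (F.1 m) at h
      rw [e.symm_apply_apply] at h
      exact h,
    fun p r m hpr => by
      have h := F.2.2.1 (e p) (e r) m (e.injective.ne hpr)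
      change F.1 (A.S (e p) (e r) m) = B.S (e.symm (e p)) (e.symm (e r)) (F.1 m) at h
      rw [e.symm_apply_apply, e.symm_apply_apply] at h
      exact h,
    fun p q m => by
      have h := F.2.2.2 (e p) (f q) m
      change F.1 (A.E (e p) (f q) m) = B.E (e.symm (e p)) (f.symm (f q)) (F.1 m) at h
      rw [e.symm_apply_apply, f.symm_apply_apply] at h
      exact h⟩

private theorem freeA_apply {A B : BN k P Q} {f g : Hom A B} (h : f = g) (m : A.M) :
    f.1 m = g.1 m := congrArg (fun φ : Hom A B => φ.1 m) h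

private theorem freeA_rad_unit [IsEmpty P] [IsEmpty Q] : rad (BN.unit k P Q) = ⊥ :=
  le_bot_iff.1 (rad_le (fun p => isEmptyElim p) (fun p => isEmptyElim p))

private theorem freeA_rad_relabel (e : P' ≃ P) (f : Q' ≃ Q) (A : BN k P Q) (m : A.M) :
    m ∈ rad ((relabel e f).obj A) ↔ m ∈ rad A := by
  constructor
  · intro h
    have h1 : rad ((relabel e f).obj A) ≤ rad A := rad_le (A := (relabel e f).obj A)
      (fun p m => x_mem_rad A (e p) m) (fun p r m h => S_mem_rad A (e.injective.ne h) m)
    exact h1 h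
  · intro h
    have h1 : rad A ≤ rad ((relabel e f).obj A) := rad_le (A := A)
      (fun p m => by
        have h2 := x_mem_rad ((relabel e f).obj A) (e.symm p) m
        change A.x (e (e.symm p)) m ∈ _ at h2
        rw [e.apply_symm_apply] at h2
        exact h2)
      (fun p r m h => by
        have h2 := S_mem_rad ((relabel e f).obj A) (e.symm.injective.ne h) m
        change A.S (e (e.symm p)) (e (e.symm r)) m ∈ _ at h2
        rw [e.apply_symm_apply, e.apply_symm_apply] at h2
        exact h2)
    exact h1 h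

private theorem freeA_mono {A : BN k P Q} {W W' : Submodule k A.M} (h : W ≤ W') :
    Module.finrank k W ≤ Module.finrank k W' := Submodule.finrank_mono h

theorem isFree_unit [IsEmpty P] [IsEmpty Q] (a : P ≃ Q) :
    IsFree (fun _ : Unit => a) (BN.unit k P Q) (fun _ => (1 : k)) := by
  refine ⟨fun _ p => isEmptyElim p, fun B m _ => ?_, fun B f f' h => ?_⟩
  · refine ⟨⟨(LinearMap.toSpanSingleton k B.M (m ()) : k →ₗ[k] B.M), fun p => isEmptyElim p,
      fun p => isEmptyElim p, fun p => isEmptyElim p⟩, fun i => ?_⟩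
    change (1 : k) • m () = m i
    rw [one_smul]
  · refine hom_ext fun c => ?_
    have h0 := h ()
    let F : k →ₗ[k] B.M := f.1
    let F' : k →ₗ[k] B.M := f'.1
    have h1 : F 1 = F' 1 := h0
    have h2 : ∀ c : k, F c = F' c := fun c => by
      have e1 : c = c • (1 : k) := by rw [smul_eq_mul, mul_one]
      rw [e1, map_smul, map_smul, h1]
    exact h2 c

theorem good_unit [IsEmpty P] [IsEmpty Q] : Good (BN.unit k P Q) (1 : k) := by
  refine ⟨?_, fun m => ?_, fun W w _ hw hn => ?_, ?_, fun c => ?_⟩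
  · rw [freeA_rad_unit]
    intro h
    exact one_ne_zero ((Submodule.mem_bot k).1 h : (1 : k) = 0)
  · refine ⟨(m : k), ?_⟩
    rw [freeA_rad_unit]
    have h1 : ∀ z : k, z - z • (1 : k) = 0 := fun z => by rw [smul_eq_mul, mul_one, sub_self]
    exact (Submodule.mem_bot k).2 (h1 m)
  · rw [freeA_rad_unit] at hn
    have h1 : w ≠ 0 := fun h => hn ((Submodule.mem_bot k).2 h)
    have h3 : ∀ c z : k, z ≠ 0 → (c / z) • z = c := fun c z hz => by
      rw [smul_eq_mul, div_mul_cancel₀ _ hz]
    have h4 : ∀ c z : k, z ≠ 0 → ∃ a : k, a • z = c := fun c z hz => ⟨c / z, h3 c z hz⟩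
    refine (Submodule.eq_top_iff').2 fun c => ?_
    obtain ⟨a, ha⟩ := h4 c w h1
    have h2 := W.smul_mem a hw
    exact (congrArg (fun z => z ∈ W) ha).mp h2
  · change Module.finrank k k = _
    rw [Module.finrank_self, Fintype.card_eq_zero]
    rfl
  · have h1 : Module.finrank k (clo (BN.unit k P Q) c) ≤ Module.finrank k (BN.unit k P Q).M :=
      Submodule.finrank_le _
    have h2 : Module.finrank k (BN.unit k P Q).M = 1 := Module.finrank_self k
    rw [Fintype.card_eq_zero, pow_zero]
    exact h1.trans h2.le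

theorem isFree_relabel {I : Type} (e : P' ≃ P) (f : Q' ≃ Q) {lab : I → (P ≃ Q)}
    {A : BN k P Q} {g : I → A.M} (h : IsFree lab A g) :
    IsFree (fun i => e.trans ((lab i).trans f.symm)) ((relabel e f).obj A) g := by
  refine ⟨fun i p => ?_, fun B m hm => ?_, fun B F F' hF => ?_⟩
  · change A.E (e p) (f (f.symm (lab i (e p)))) (g i) = g i
    rw [f.apply_symm_apply]
    exact h.mem i (e p)
  · obtain ⟨F, hF⟩ := h.hom ((relabel e.symm f.symm).obj B) m (fun i p => by
      have h1 := hm i (e.symm p)
      change B.E (e.symm p) (f.symm (lab i (e (e.symm p)))) (m i) = m i at h1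
      rw [e.apply_symm_apply] at h1
      exact h1)
    exact ⟨freeA_from e f F, hF⟩
  · have h1 := h.ext ((relabel e.symm f.symm).obj B) (freeA_to e f F) (freeA_to e f F') hF
    exact hom_ext fun m => freeA_apply h1 m

theorem good_relabel (e : P' ≃ P) (f : Q' ≃ Q) {A : BN k P Q} {g : A.M} (h : Good A g) :
    Good ((relabel e f).obj A) g := by
  refine ⟨fun h1 => h.g_not ((freeA_rad_relabel e f A g).1 h1), fun m => ?_,
    fun W w hW hw hn => ?_, ?_, fun c => ?_⟩
  · obtain ⟨c, hc⟩ := h.top m
    exact ⟨c, (freeA_rad_relabel e f A _).2 hc⟩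
  · refine h.gen W w ⟨fun p m hm => ?_, fun p r m hpr hm => ?_, fun p q m hm => ?_⟩ hw
      fun h1 => hn ((freeA_rad_relabel e f A w).2 h1)
    · have h1 := hW.hx (e.symm p) m hm
      change A.x (e (e.symm p)) m ∈ W at h1
      rw [e.apply_symm_apply] at h1
      exact h1
    · have h1 := hW.hS (e.symm p) (e.symm r) m (e.symm.injective.ne hpr) hm
      change A.S (e (e.symm p)) (e (e.symm r)) m ∈ W at h1
      rw [e.apply_symm_apply, e.apply_symm_apply] at h1
      exact h1
    · have h1 := hW.hE (e.symm p) (f.symm q) m hm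
      change A.E (e (e.symm p)) (f (f.symm q)) m ∈ W at h1
      rw [e.apply_symm_apply, f.apply_symm_apply] at h1
      exact h1
  · rw [Fintype.card_congr e]
    exact h.dim
  · have h1 : clo ((relabel e f).obj A) c ≤ clo A (e.symm.trans (c.trans f)) := by
      intro m hm p
      have h2 := hm (e.symm p)
      change A.E (e (e.symm p)) (f (c (e.symm p))) m = m at h2
      rw [e.apply_symm_apply] at h2
      exact h2
    rw [Fintype.card_congr e]
    exact (freeA_mono (A := A) (W := clo ((relabel e f).obj A) c) h1).trans (h.clo_le _)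

theorem isFree_pi {I : Type} [Fintype I] [DecidableEq I] (lab : I → (P ≃ Q))
    (A : I → BN k P Q) (g : ∀ i, (A i).M)
    (h : ∀ i, IsFree (fun _ : Unit => lab i) (A i) (fun _ => g i)) :
    IsFree lab (BN.pi A) (fun i => (inc A i).1 (g i)) := by
  refine ⟨fun i p => ?_, fun B m hm => ?_, fun B f f' hf => ?_⟩
  · rw [← (inc A i).2.2.2]
    exact congrArg (fun z => (inc A i).1 z) ((h i).mem () p)
  · choose F hF using fun i => (h i).hom B (fun _ => m i) (fun _ => hm i)
    refine ⟨∑ i, cmp (F i) (prj A i), fun i => ?_⟩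
    rw [sum_apply', Finset.sum_eq_single i]
    · change (F i).1 ((cmp (prj A i) (inc A i)).1 (g i)) = m i
      rw [prj_inc]
      exact hF i ()
    · intro j _ hj
      change (F j).1 ((cmp (prj A j) (inc A i)).1 (g i)) = 0
      rw [prj_inc_ne _ hj, zero_apply, map_zero]
    · intro h1
      exact absurd (Finset.mem_univ i) h1
  · have h1 : ∀ i, cmp f (inc A i) = cmp f' (inc A i) := fun i =>
      (h i).ext B _ _ fun _ => hf i
    have h2 : ∀ F : Hom (BN.pi A) B, F = ∑ i, cmp (cmp F (inc A i)) (prj A i) := fun F => by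
      have h3 : F = cmp F (∑ i, cmp (inc A i) (prj A i)) := by
        rw [sum_inc_prj]
        rfl
      rw [cmp_sum] at h3
      exact h3
    rw [h2 f, h2 f']
    exact Finset.sum_congr rfl fun i _ => by rw [h1]

theorem isFree_prod {I J : Type} {lab : I → (P ≃ Q)} {lab' : J → (P ≃ Q)} {A B : BN k P Q}
    {g : I → A.M} {g' : J → B.M} (h : IsFree lab A g) (h' : IsFree lab' B g') :
    IsFree (Sum.elim lab lab') (A.prod B)
      (Sum.elim (fun i => (inlH A B).1 (g i)) (fun j => (inrH A B).1 (g' j))) := by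
  refine ⟨fun i => ?_, fun C m hm => ?_, fun C f f' hf => ?_⟩
  · rcases i with i | j
    · intro p
      change (A.prod B).E p (lab i p) ((inlH A B).1 (g i)) = (inlH A B).1 (g i)
      rw [← (inlH A B).2.2.2]
      exact congrArg (fun z => (inlH A B).1 z) (h.mem i p)
    · intro p
      change (A.prod B).E p (lab' j p) ((inrH A B).1 (g' j)) = (inrH A B).1 (g' j)
      rw [← (inrH A B).2.2.2]
      exact congrArg (fun z => (inrH A B).1 z) (h'.mem j p)
  · obtain ⟨F, hF⟩ := h.hom C (fun i => m (Sum.inl i)) (fun i => hm (Sum.inl i))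
    obtain ⟨F', hF'⟩ := h'.hom C (fun j => m (Sum.inr j)) (fun j => hm (Sum.inr j))
    refine ⟨cmp F (fstH A B) + cmp F' (sndH A B), fun i => ?_⟩
    rcases i with i | j
    · change F.1 (g i) + F'.1 0 = m (Sum.inl i)
      rw [map_zero, add_zero]
      exact hF i
    · change F.1 0 + F'.1 (g' j) = m (Sum.inr j)
      rw [map_zero, zero_add]
      exact hF' j
  · have h1 : cmp f (inlH A B) = cmp f' (inlH A B) := h.ext C _ _ fun i => hf (Sum.inl i)
    have h2 : cmp f (inrH A B) = cmp f' (inrH A B) := h'.ext C _ _ fun j => hf (Sum.inr j)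
    have h3 : ∀ F : Hom (A.prod B) C, F = cmp (cmp F (inlH A B)) (fstH A B) +
        cmp (cmp F (inrH A B)) (sndH A B) := fun F => by
      have h4 : F = cmp F (cmp (inlH A B) (fstH A B) + cmp (inrH A B) (sndH A B)) := by
        rw [inl_fst_add]
        rfl
      rw [cmp_add] at h4
      exact h4
    rw [h3 f, h3 f', h1, h2]

theorem isFree_iso {I : Type} {lab : I → (P ≃ Q)} {A B : BN k P Q} {g : I → A.M}
    {g' : I → B.M} (h : IsFree lab A g) (h' : IsFree lab B g') :
    ∃ (f : Hom A B) (f' : Hom B A), cmp f' f = idH A ∧ cmp f f' = idH B ∧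
      ∀ i, f.1 (g i) = g' i := by
  obtain ⟨f, hf⟩ := h.hom B g' h'.mem
  obtain ⟨f', hf'⟩ := h'.hom A g h.mem
  refine ⟨f, f', h.ext A _ _ fun i => ?_, h'.ext B _ _ fun i => ?_, hf⟩
  · change f'.1 (f.1 (g i)) = g i
    rw [hf, hf']
  · change f.1 (f'.1 (g' i)) = g' i
    rw [hf', hf]

end Pool.Agent.Lib.MP_f2e65a_lc
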