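import Pool.Agent.Lib.MP_f2e65a_lc.FreeDefs

/-! # FreeB: cups of free modules

* `isFree_cup`: membership: `cgen N g = (0, single none g)`; `E none none` keeps it, `E (some p) (some (a p))` acts by `N.E p (a p)` (`cupE_nn_*`, `cupE_ss_*`; `Equiv.optionCongr a none = none`, `Equiv.optionCongr a (some p) = some (a p)`).
 `hom`: given `C`, `m ∈ clo C (optionCongr a)`: `m` has `E none none m = m`, so it is an element of `capObj C` (`capMk`), in `clo (capObj C) a`; `h.hom` gives `f : Hom N (capObj C)`; `u = capι C ∘ f` is a `CupHom N C` (`capι_x`, `capι_S`, `capι_E`, `capι_E_none`);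
 `cup_hom` gives `F` with `F (cgen n) = u n`.
 `ext`: `F (cgen n)`, as a function of `n`, is a morphism `N → capObj C` composed with `capι` (`cgen (x t n) = x (some t) (cgen n)`, etc., and `E none none (cgen n) = cgen n`), so `h.ext` gives `F (cgen n) = F' (cgen n)` for all `n`, and `cup_ext`.
* `good_cup`: write `w = (v, m)`.  Claim: `rad (cupObj N) = {w | m none ∈ rad N}`.  `≤` by `rad_le`: the coordinate `none` of `x none w` is `0`, of `x (some t) w` is `x t (m none)`, of `S none (some r) w` is `x r (m (some r))`, of `S (some r) (some s) w` is `S r s (m none)`.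
 `≥`: `w = x none (0, single none v) + (0, single none (m none)) + ∑ r, S none (some r) (0, single none (m (some r)))`, and `(0, single none n) ∈ rad` for `n ∈ rad N` (`rad_le` for the comap of the linear map `cgen N`; `cgen (x t n) = x (some t) (cgen n)`, ...).
 `g_not`, `top`: `w - c • cgen g` has the coordinate `m none - c • g`.
 `gen`: let `W` be closed, `w ∈ W`, `m none ∉ rad N`.  `w₁ = E none none w = (v, single none (m none)) ∈ W`, `x none w₁ = (m none, 0) ∈ W`.  The `n : N.M` with `(n, 0) ∈ W` form a closed submodule (comap) containing `m none`, so it is `⊤`; so `(v, 0) ∈ W`, `(0, single none (m none)) ∈ W`; the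
 `n` with `(0, single none n) ∈ W` form a closed submodule (`x (some t)`, `S (some t) (some s)`, `E (some t) (some s)` act by `x t`, `S t s`, `E t s`), so it is `⊤`, and then `W = ⊤` by the formula for `w` above.
 `dim`: `finrank (N.M × (Option P → N.M)) = (1 + card (Option P)) * finrank N.M` (`Module.finrank_prod`, `Module.finrank_pi_fintype`), `Fintype.card_option`, `Nat.factorial_succ`.
 `clo_le`: `c : Option P ≃ Option Q`, `c' = Equiv.removeNone c : P ≃ Q` (`Equiv.some_removeNone_iff`, `Equiv.removeNone_some`, `Equiv.removeNone_none`).  If `c none = none` then `w ∈ clo c` has `m (some r) = 0` and `v, m none ∈ clo N c'`, so `finrank ≤ 2 * 2 ^ card P`.  If `c none = some q` and `c (some r) = none`: `E none (some q) w = w` gives `v = 0`,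
 `m none = 0`, `E r q (m (some r)) = m (some r)`; `E (some r) none w = w` gives `m (some t) = 0` for `t ≠ r`; `E (some t) (c (some t))` for `t ≠ r` gives `E t (c' t) (m (some r)) = m (some r)`; so `m (some r) ∈ clo N c'` (`c' r = q`), `finrank ≤ 2 ^ card P`
 (`LinearMap.finrank_le_finrank_of_injective`). -/

set_option autoImplicit false
set_option linter.unusedVariables false
set_option linter.unusedSectionVars false

namespace Pool.Agent.Lib.MP_f2e65a_lc

variable {k : Type} [Field k] {P Q : Type} [Fintype P] [DecidableEq P] [Fintype Q]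
  [DecidableEq Q]

/-- the generator as a pair -/
private def FreeB_cg (N : BN k P Q) (n : N.M) : CupM N := (0, Pi.single none n)

private theorem FreeB_cg_v (N : BN k P Q) (n : N.M) : (FreeB_cg N n).1 = 0 := rfl

private theorem FreeB_cg_none (N : BN k P Q) (n : N.M) : (FreeB_cg N n).2 none = n :=
  Pi.single_eq_same (M := fun _ : Option P => N.M) none n

private theorem FreeB_cg_some (N : BN k P Q) (n : N.M) (r : P) :
    (FreeB_cg N n).2 (some r) = 0 :=
  Pi.single_eq_of_ne (M := fun _ : Option P => N.M) (Option.some_ne_none r) n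

private theorem FreeB_cg_x (N : BN k P Q) (t : P) (n : N.M) :
    FreeB_cg N (N.x t n) = cupx N (some t) (FreeB_cg N n) := by
  refine CupM.ext ?_ ?_ fun r => ?_
  · rw [cupx_some_v, FreeB_cg_v, FreeB_cg_v, map_zero]
  · rw [cupx_some, FreeB_cg_none, FreeB_cg_none]
  · rw [cupx_some, FreeB_cg_some, FreeB_cg_some, map_zero]

private theorem FreeB_cg_S (N : BN k P Q) (t s : P) (n : N.M) :
    FreeB_cg N (N.S t s n) = cupS N (some t) (some s) (FreeB_cg N n) := by
  refine CupM.ext ?_ ?_ fun r => ?_
  · rw [cupS_some_v, FreeB_cg_v, FreeB_cg_v, map_zero]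
  · rw [cupS_some_none, FreeB_cg_none, FreeB_cg_none]
  · rw [cupS_some_some, FreeB_cg_some, FreeB_cg_some, map_zero]

private theorem FreeB_cg_E (N : BN k P Q) (t : P) (s : Q) (n : N.M) :
    FreeB_cg N (N.E t s n) = cupE N (some t) (some s) (FreeB_cg N n) := by
  refine CupM.ext ?_ ?_ fun r => ?_
  · rw [cupE_ss_v, FreeB_cg_v, FreeB_cg_v, map_zero]
  · rw [cupE_ss_none, FreeB_cg_none, FreeB_cg_none]
  · rw [FreeB_cg_some]
    by_cases h : r = t
    · subst h
      rw [cupE_ss_self]
    · rw [cupE_ss_ne _ _ _ _ _ h, FreeB_cg_some, map_zero]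

private theorem FreeB_cg_nn (N : BN k P Q) (n : N.M) :
    cupE N none none (FreeB_cg N n) = FreeB_cg N n := by
  refine CupM.ext rfl rfl fun r => ?_
  rw [cupE_nn_some, FreeB_cg_some]

private theorem FreeB_x (N : BN k P Q) (t : P) (n : N.M) :
    cgen N (N.x t n) = (cupObj N).x (some t) (cgen N n) := FreeB_cg_x N t n

private theorem FreeB_S (N : BN k P Q) (t s : P) (n : N.M) :
    cgen N (N.S t s n) = (cupObj N).S (some t) (some s) (cgen N n) := FreeB_cg_S N t s n

private theorem FreeB_E (N : BN k P Q) (t : P) (s : Q) (n : N.M) :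
    cgen N (N.E t s n) = (cupObj N).E (some t) (some s) (cgen N n) := FreeB_cg_E N t s n

private theorem FreeB_nn (N : BN k P Q) (n : N.M) :
    (cupObj N).E none none (cgen N n) = cgen N n := FreeB_cg_nn N n

private theorem FreeB_decomp (N : BN k P Q) (w : CupM N) :
    w = cupx N none (FreeB_cg N w.1) + FreeB_cg N (w.2 none) +
      ∑ r, cupS1 N r (FreeB_cg N (w.2 (some r))) := by
  refine CupM.ext ?_ ?_ fun t => ?_
  · rw [Prod.fst_add, Prod.fst_add, Prod.fst_sum, cupx_none_v, FreeB_cg_none, FreeB_cg_v,
      add_zero, Finset.sum_eq_zero, add_zero]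
    intro r _
    rw [cupS1_v, FreeB_cg_some]
  · rw [Prod.snd_add, Prod.snd_add, Prod.snd_sum, Pi.add_apply, Pi.add_apply,
      Finset.sum_apply, cupx_none_none, FreeB_cg_none, zero_add, Finset.sum_eq_zero, add_zero]
    intro r _
    rw [cupS1_none, FreeB_cg_some, map_zero]
  · rw [Prod.snd_add, Prod.snd_add, Prod.snd_sum, Pi.add_apply, Pi.add_apply,
      Finset.sum_apply, cupx_none_some, FreeB_cg_some, FreeB_cg_some, map_zero, zero_add,
      zero_add, Finset.sum_eq_single t]
    · rw [cupS1_self, FreeB_cg_none, FreeB_cg_v, map_zero, add_zero]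
    · intro r _ hr
      rw [cupS1_ne _ _ _ _ hr.symm, FreeB_cg_some, map_zero]
    · intro h
      exact absurd (Finset.mem_univ t) h

private theorem FreeB_dec (N : BN k P Q) (w : CupM N) :
    (w : (cupObj N).M) = (cupObj N).x none (cgen N w.1) + cgen N (w.2 none) +
      ∑ r, (cupObj N).S none (some r) (cgen N (w.2 (some r))) := FreeB_decomp N w

/-- a morphism from the cup as a morphism to the cap -/
private def FreeB_adj {N : BN k P Q} {C : BN k (Option P) (Option Q)} (G : Hom (cupObj N) C) :
    Hom N (capObj C) :=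
  ⟨(LinearMap.codRestrict (capSub C) (G.1 ∘ₗ cgen N) (fun n => by
      change C.E none none (G.1 (cgen N n)) = G.1 (cgen N n)
      rw [← G.2.2.2, FreeB_nn]) : N.M →ₗ[k] capSub C),
    fun t n => capι_injective C (by
      rw [capι_x]
      change G.1 (cgen N (N.x t n)) = C.x (some t) (G.1 (cgen N n))
      rw [FreeB_x, G.2.1]),
    fun t s n hts => capι_injective C (by
      rw [capι_S C t s hts]
      change G.1 (cgen N (N.S t s n)) = C.S (some t) (some s) (G.1 (cgen N n))
      rw [FreeB_S, G.2.2.1 _ _ _ (fun h => hts (Option.some.inj h))]),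
    fun t s n => capι_injective C (by
      rw [capι_E]
      change G.1 (cgen N (N.E t s n)) = C.E (some t) (some s) (G.1 (cgen N n))
      rw [FreeB_E, G.2.2.2])⟩

private theorem FreeB_adj_apply {N : BN k P Q} {C : BN k (Option P) (Option Q)}
    (G : Hom (cupObj N) C) (n : N.M) : capι C ((FreeB_adj G).1 n) = G.1 (cgen N n) := rfl

theorem isFree_cup (a : P ≃ Q) (N : BN k P Q) (g : N.M)
    (h : IsFree (fun _ : Unit => a) N (fun _ => g)) :
    IsFree (fun _ : Unit => Equiv.optionCongr a) (cupObj N) (fun _ => cgen N g) := by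
  refine ⟨fun i => ?_, fun C m hm => ?_, fun C F F' hF => ?_⟩
  · rw [mem_clo]
    intro p
    rcases p with _ | p
    · exact FreeB_nn N g
    · change (cupObj N).E (some p) (some (a p)) (cgen N g) = cgen N g
      rw [← FreeB_E, (mem_clo.1 (h.mem i)) p]
  · have h0 := mem_clo.1 (hm ())
    have h00 : C.E none none (m ()) = m () := h0 none
    obtain ⟨f, hf⟩ := h.hom (capObj C) (fun _ => capMk C (m ()) h00) (fun _ => by
      rw [mem_clo]
      intro p
      refine capι_injective C ?_
      rw [capι_E]
      exact h0 (some p))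
    obtain ⟨F, hF⟩ := cup_hom N C (capι C ∘ₗ f.1) ⟨fun n => capι_E_none C _, fun t n => by
        rw [LinearMap.comp_apply, LinearMap.comp_apply, f.2.1, capι_x],
      fun t s n hts => by
        rw [LinearMap.comp_apply, LinearMap.comp_apply, f.2.2.1 _ _ _ hts, capι_S C t s hts],
      fun t s n => by
        rw [LinearMap.comp_apply, LinearMap.comp_apply, f.2.2.2, capι_E]⟩
    refine ⟨F, fun i => ?_⟩
    rw [hF, LinearMap.comp_apply, hf i, capι_mk]
  · refine cup_ext N C F F' fun n => ?_
    have h1 : FreeB_adj F = FreeB_adj F' := by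
      refine h.ext (capObj C) _ _ fun i => ?_
      refine capι_injective C ?_
      rw [FreeB_adj_apply, FreeB_adj_apply]
      exact hF i
    rw [← FreeB_adj_apply, ← FreeB_adj_apply, h1]

private theorem FreeB_rad_le (N : BN k P Q) (w : CupM N) (h : w ∈ rad (cupObj N)) :
    w.2 none ∈ rad N := by
  have h1 : rad (cupObj N) ≤ ((rad N).comap (cm N none) : Submodule k (CupM N)) := by
    refine rad_le (fun p (w : CupM N) => ?_) fun p r (w : CupM N) hpr => ?_
    · change (cupx N p w).2 none ∈ rad N
      rcases p with _ | t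
      · rw [cupx_none_none]
        exact Submodule.zero_mem _
      · rw [cupx_some]
        exact x_mem_rad _ _ _
    · change (cupS N p r w).2 none ∈ rad N
      rcases p with _ | p <;> rcases r with _ | r
      · exact absurd rfl hpr
      · change (cupS1 N r w).2 none ∈ rad N
        rw [cupS1_none]
        exact x_mem_rad _ _ _
      · change (cupS1 N p w).2 none ∈ rad N
        rw [cupS1_none]
        exact x_mem_rad _ _ _
      · rw [cupS_some_none]
        exact S_mem_rad _ (fun h' => hpr (congrArg some h')) _
  exact h1 h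

private theorem FreeB_cgen_rad (N : BN k P Q) {n : N.M} (h : n ∈ rad N) :
    cgen N n ∈ rad (cupObj N) := by
  have h1 : rad N ≤ (rad (cupObj N)).comap (cgen N) := by
    refine rad_le (fun p n => ?_) fun p r n hpr => ?_
    · change cgen N (N.x p n) ∈ rad (cupObj N)
      rw [FreeB_x]
      exact x_mem_rad _ _ _
    · change cgen N (N.S p r n) ∈ rad (cupObj N)
      rw [FreeB_S]
      exact S_mem_rad _ (fun h' => hpr (Option.some.inj h')) _
  exact h1 h

private theorem FreeB_mem_rad (N : BN k P Q) (w : CupM N) :
    (w : (cupObj N).M) ∈ rad (cupObj N) ↔ w.2 none ∈ rad N := by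
  refine ⟨FreeB_rad_le N w, fun h => ?_⟩
  rw [FreeB_dec N w]
  refine Submodule.add_mem _ (Submodule.add_mem _ (x_mem_rad _ _ _) (FreeB_cgen_rad N h))
    (Submodule.sum_mem _ fun r _ => S_mem_rad _ (Option.some_ne_none r).symm _)

private theorem FreeB_gen (N : BN k P Q) (g : N.M) (h : Good N g)
    (W : Submodule k (cupObj N).M) (w : CupM N) (hW : Closed (cupObj N) W)
    (hw : (w : (cupObj N).M) ∈ W) (hr : w.2 none ∉ rad N) : W = ⊤ := by
  -- the elements `(n, 0)`
  let il : N.M →ₗ[k] (cupObj N).M := LinearMap.inl k N.M (Option P → N.M)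
  have hil : ∀ n, il n = ((n, 0) : CupM N) := fun n => rfl
  have hV : W.comap il = ⊤ := by
    refine h.gen _ (w.2 none) ⟨fun p n hn => ?_, fun p r n hpr hn => ?_, fun p q n hn => ?_⟩
      ?_ hr
    · have h1 := hW.hx (some p) _ (Submodule.mem_comap.1 hn)
      rw [Submodule.mem_comap]
      have h2 : (il (N.x p n) : CupM N) = cupx N (some p) ((n, 0) : CupM N) := by
        refine CupM.ext rfl ?_ fun r => ?_
        · exact (map_zero (N.x p)).symm
        · exact (map_zero (N.x p)).symm
      exact h2 ▸ h1
    · have h1 := hW.hS (some p) (some r) _ (fun h' => hpr (Option.some.inj h'))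
        (Submodule.mem_comap.1 hn)
      rw [Submodule.mem_comap]
      have h2 : (il (N.S p r n) : CupM N) = cupS N (some p) (some r) ((n, 0) : CupM N) := by
        refine CupM.ext rfl ?_ fun t => ?_
        · exact (map_zero (N.S p r)).symm
        · exact (map_zero (N.S p r)).symm
      exact h2 ▸ h1
    · have h1 := hW.hE (some p) (some q) _ (Submodule.mem_comap.1 hn)
      rw [Submodule.mem_comap]
      have h2 : (il (N.E p q n) : CupM N) = cupE N (some p) (some q) ((n, 0) : CupM N) := by
        refine CupM.ext rfl ?_ fun t => ?_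
        · exact (map_zero (N.E p q)).symm
        · by_cases ht : t = p
          · subst ht
            rw [cupE_ss_self]
            rfl
          · rw [cupE_ss_ne _ _ _ _ _ ht]
            exact (map_zero (N.E p q)).symm
      exact h2 ▸ h1
    · rw [Submodule.mem_comap]
      have h1 := hW.hx none _ (hW.hE none none _ hw)
      have h2 : (il (w.2 none) : CupM N) = cupx N none (cupE N none none w) := by
        refine CupM.ext rfl rfl fun r => ?_
        rw [cupx_none_some, cupE_nn_some, map_zero]
        rfl
      exact h2 ▸ h1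
  have hV1 : ∀ n, il n ∈ W := fun n => by
    have h1 : n ∈ W.comap il := by
      rw [hV]
      exact Submodule.mem_top
    exact h1
  have hcw : cgen N (w.2 none) ∈ W := by
    have h1 := W.sub_mem (hW.hE none none _ hw) (hV1 w.1)
    have h2 : FreeB_cg N (w.2 none) = cupE N none none w - ((w.1, 0) : CupM N) := by
      refine CupM.ext ?_ ?_ fun r => ?_
      · rw [Prod.fst_sub, cupE_nn_v, FreeB_cg_v, sub_self]
      · rw [Prod.snd_sub, Pi.sub_apply, cupE_nn_none, FreeB_cg_none]
        exact (sub_zero _).symm
      · rw [Prod.snd_sub, Pi.sub_apply, cupE_nn_some, FreeB_cg_some]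
        exact (sub_zero _).symm
    have h3 : cgen N (w.2 none) = (cupObj N).E none none w - il w.1 := h2
    rw [h3]
    exact h1
  have hV' : W.comap (cgen N) = ⊤ := by
    refine h.gen _ (w.2 none) ⟨fun p n hn => ?_, fun p r n hpr hn => ?_, fun p q n hn => ?_⟩
      hcw hr
    · rw [Submodule.mem_comap, FreeB_x]
      exact hW.hx _ _ hn
    · rw [Submodule.mem_comap, FreeB_S]
      exact hW.hS _ _ _ (fun h' => hpr (Option.some.inj h')) hn
    · rw [Submodule.mem_comap, FreeB_E]
      exact hW.hE _ _ _ hn
  have hV2 : ∀ n, cgen N n ∈ W := fun n => by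
    have h1 : n ∈ W.comap (cgen N) := by
      rw [hV']
      exact Submodule.mem_top
    exact h1
  rw [Submodule.eq_top_iff']
  intro w'
  have h5 := FreeB_dec N (w' : CupM N)
  have h6 : (cupObj N).x none (cgen N (w' : CupM N).1) + cgen N ((w' : CupM N).2 none) +
      ∑ r, (cupObj N).S none (some r) (cgen N ((w' : CupM N).2 (some r))) ∈ W :=
    Submodule.add_mem _ (Submodule.add_mem _ (hW.hx _ _ (hV2 _)) (hV2 _))
      (Submodule.sum_mem _ fun r _ => hW.hS _ _ _ (Option.some_ne_none r).symm (hV2 _))
  exact h5 ▸ h6

private theorem FreeB_dim (N : BN k P Q)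
    (h : Module.finrank k N.M = (Fintype.card P + 1).factorial) :
    Module.finrank k (CupM N) = (Fintype.card (Option P) + 1).factorial := by
  rw [Module.finrank_prod, Module.finrank_pi_fintype, Finset.sum_const, Finset.card_univ,
    Fintype.card_option, h, Nat.factorial_succ (Fintype.card P + 1), smul_eq_mul]
  ring

private theorem FreeB_mem (N : BN k P Q) (c : Option P ≃ Option Q) {w : CupM N}
    (hw : (w : (cupObj N).M) ∈ clo (cupObj N) c) (p : Option P) : cupE N p (c p) w = w :=
  mem_clo.1 hw p

private theorem FreeB_clo1 (N : BN k P Q) (b : ∀ c : P ≃ Q,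
    Module.finrank k (clo N c) ≤ 2 ^ Fintype.card P) (c : Option P ≃ Option Q)
    (hc : c none = none) :
    Module.finrank k (clo (cupObj N) c) ≤ 2 ^ Fintype.card (Option P) := by
  have hc' : ∀ p, c (some p) = some (Equiv.removeNone c p) := by
    intro p
    refine (Equiv.removeNone_some c ?_).symm
    have h1 : c (some p) ≠ none := fun h2 =>
      Option.some_ne_none p (c.injective (h2.trans hc.symm))
    exact Option.ne_none_iff_exists'.1 h1
  let F : clo (cupObj N) c →ₗ[k] clo N (Equiv.removeNone c) × clo N (Equiv.removeNone c) :=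
    LinearMap.prod
      (LinearMap.codRestrict _ (cv N ∘ₗ (clo (cupObj N) c).subtype) fun w => by
        rw [mem_clo]
        intro p
        have h1 := FreeB_mem N c w.2 (some p)
        rw [hc'] at h1
        have h2 := congrArg (fun w : CupM N => w.1) h1
        exact h2)
      (LinearMap.codRestrict _ (cm N none ∘ₗ (clo (cupObj N) c).subtype) fun w => by
        rw [mem_clo]
        intro p
        have h1 := FreeB_mem N c w.2 (some p)
        rw [hc'] at h1
        have h2 := congrArg (fun w : CupM N => w.2 none) h1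
        exact h2)
  have hF : Function.Injective F := by
    intro w w' hww
    have h1 : (w.1 : CupM N).1 = (w'.1 : CupM N).1 :=
      congrArg (fun z => (z.1 : N.M)) hww
    have h2 : (w.1 : CupM N).2 none = (w'.1 : CupM N).2 none :=
      congrArg (fun z => (z.2 : N.M)) hww
    have h3 : ∀ (w : clo (cupObj N) c) (r : P), (w.1 : CupM N).2 (some r) = 0 := by
      intro w r
      have h4 := FreeB_mem N c w.2 none
      rw [hc] at h4
      have h5 := congrArg (fun w : CupM N => w.2 (some r)) h4
      exact h5.symm
    exact Subtype.ext (CupM.ext h1 h2 fun r => (h3 w r).trans (h3 w' r).symm)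
  have h6 := LinearMap.finrank_le_finrank_of_injective hF
  rw [Module.finrank_prod] at h6
  have h7 := b (Equiv.removeNone c)
  rw [Fintype.card_option, pow_succ]
  omega

private theorem FreeB_clo2 (N : BN k P Q) (b : ∀ c : P ≃ Q,
    Module.finrank k (clo N c) ≤ 2 ^ Fintype.card P) (c : Option P ≃ Option Q) (q : Q) (r : P)
    (hc : c none = some q) (hr : c (some r) = none) :
    Module.finrank k (clo (cupObj N) c) ≤ 2 ^ Fintype.card (Option P) := by
  have hc' : ∀ p, p ≠ r → c (some p) = some (Equiv.removeNone c p) := by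
    intro p hp
    refine (Equiv.removeNone_some c ?_).symm
    have h1 : c (some p) ≠ none := fun h2 =>
      hp (Option.some.inj (c.injective (h2.trans hr.symm)))
    exact Option.ne_none_iff_exists'.1 h1
  have hcr : Equiv.removeNone c r = q := by
    have h1 := Equiv.removeNone_none c hr
    exact Option.some.inj (h1.trans hc)
  let F : clo (cupObj N) c →ₗ[k] clo N (Equiv.removeNone c) :=
      LinearMap.codRestrict _ (cm N (some r) ∘ₗ (clo (cupObj N) c).subtype) fun w => by
        rw [mem_clo]
        intro p
        by_cases hp : p = r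
        · subst hp
          have h1 := FreeB_mem N c w.2 none
          rw [hc] at h1
          have h2 := congrArg (fun w : CupM N => w.2 (some p)) h1
          rw [hcr]
          exact h2
        · have h1 := FreeB_mem N c w.2 (some p)
          rw [hc' p hp] at h1
          have h2 := congrArg (fun w : CupM N => w.2 (some r)) h1
          exact (cupE_ss_ne N (w.1 : CupM N) _ _ _ (Ne.symm hp)).symm.trans h2
  have hF : Function.Injective F := by
    intro w w' hww
    have h1 : (w.1 : CupM N).2 (some r) = (w'.1 : CupM N).2 (some r) :=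
      congrArg (fun z => (z.1 : N.M)) hww
    have h2 : ∀ w : clo (cupObj N) c, (w.1 : CupM N).1 = 0 ∧ (w.1 : CupM N).2 none = 0 := by
      intro w
      have h4 := FreeB_mem N c w.2 none
      rw [hc] at h4
      have h5 := congrArg (fun w : CupM N => w.1) h4
      have h6 := congrArg (fun w : CupM N => w.2 none) h4
      exact ⟨h5.symm, h6.symm⟩
    have h3 : ∀ (w : clo (cupObj N) c) (t : P), t ≠ r → (w.1 : CupM N).2 (some t) = 0 := by
      intro w t ht
      have h4 := FreeB_mem N c w.2 (some r)
      rw [hr] at h4
      have h5 := congrArg (fun w : CupM N => w.2 (some t)) h4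
      exact h5.symm.trans (cupE_sn_ne N (w.1 : CupM N) _ _ ht)
    refine Subtype.ext (CupM.ext ((h2 w).1.trans (h2 w').1.symm)
      ((h2 w).2.trans (h2 w').2.symm) fun t => ?_)
    by_cases ht : t = r
    · subst ht
      exact h1
    · exact (h3 w t ht).trans (h3 w' t ht).symm
  have h6 := LinearMap.finrank_le_finrank_of_injective hF
  have h7 := b (Equiv.removeNone c)
  rw [Fintype.card_option, pow_succ]
  omega

theorem good_cup (N : BN k P Q) (g : N.M) (h : Good N g) : Good (cupObj N) (cgen N g) := by
  refine ⟨fun hg => ?_, fun (w : CupM N) => ?_, fun W (w : CupM N) hW hw hr => ?_,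
    FreeB_dim N h.dim, fun c => ?_⟩
  · have h1 := FreeB_rad_le N (FreeB_cg N g) hg
    rw [FreeB_cg_none] at h1
    exact h.g_not h1
  · obtain ⟨c, hc⟩ := h.top (w.2 none)
    refine ⟨c, (FreeB_mem_rad N (w - c • FreeB_cg N g)).2 ?_⟩
    rw [Prod.snd_sub, Pi.sub_apply, Prod.smul_snd, Pi.smul_apply, FreeB_cg_none]
    exact hc
  · exact FreeB_gen N g h W w hW hw fun h' => hr ((FreeB_mem_rad N w).2 h')
  · rcases hc : c none with _ | q
    · exact FreeB_clo1 N h.clo_le c hc
    · rcases hr : c.symm none with _ | r
      · have h1 : c none = none := by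
          rw [← hr, c.apply_symm_apply]
        rw [hc] at h1
        exact absurd h1 (Option.some_ne_none q)
      · refine FreeB_clo2 N h.clo_le c q r hc ?_
        rw [← hr, c.apply_symm_apply]

end Pool.Agent.Lib.MP_f2e65a_lc
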