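import Pool.Agent.Lib.MP_f2e65a_lc.FreeA
import Pool.Agent.Lib.MP_f2e65a_lc.FreeB

/-! # FreeC: the free module on a flat tangle, and the top test

* `exists_free`: induction on `n = card P` (for all `P`, `Q`, `a`).  `n = 0`: `P`, `Q` empty, `BN.unit`.  `n + 1`: let `p : P`, `P' = {b // b ≠ p}`, `Q' = {b // b ≠ a p}`, `a' : P' ≃ Q'` the restriction (`a.subtypeEquiv`), `e = Equiv.optionSubtypeNe p : Option P' ≃ P`, `f = Equiv.optionSubtypeNe (a p)`;
 `(N, g)` for `a'`; `A = (relabel e.symm f.symm).obj (cupObj N)`, the label is `e.symm.trans ((optionCongr a').trans f) = a` (check on `e none`, `e (some t)`).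
* `hom_bij_or`: if `f (gΦ a) ∈ rad` then `f m ∈ rad` for all `m` (`top`, `map_mem_rad`).  Otherwise the range of `f` is closed, contains `f (gΦ a) ∉ rad`, so it is `⊤` (`gen`); the dimensions are equal (`dim`), so `f` is bijective (`LinearMap.injective_iff_surjective_of_finrank_eq_finrank`).
* `finrank_hom_le`: `f ↦ f (gΦ a)` is an injective linear map to `clo (Φ b) a`.
* `gΦ_ne`: `g_not`.
* `topT`: the quotient by the radical; `Submodule.mapQ`, `map_mem_rad`; equalities of linear maps on a quotient by `Submodule.linearMap_qext` or `Submodule.Quotient.induction_on`.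
* `card_le_top`: `V = (BN.pi A).M ⧸ rad`, `A i = Φ k (lab i)`.  The map `topT.map d` is `0`: `d m = ∑ i, ∑ j, inc j (entry d i j (m i))` (`mat_entry`), and `inc j` maps `rad` to `rad`.  So `hd = finrank V - 0` (`LinearMap.ker_zero`, `LinearMap.range_zero`).  `V → ∀ i, k`-bound: the map `(BN.pi A).M → ∀ i, (A i).M ⧸ rad (A i)` is surjective and kills
 `rad (BN.pi A)` (`map_mem_rad` for `prj`), so `finrank V ≥ ∑ i, finrank ((A i).M ⧸ rad (A i)) ≥ card I`, as `rad (A i) ≠ ⊤` (`g_not`): the quotient is not trivial.  (`LinearMap.finrank_le_of_surjective`-like lemma, `Module.finrank_pi_fintype`, `Module.finrank_pos`.) -/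

set_option autoImplicit false
set_option linter.unusedVariables false
set_option linter.unusedSectionVars false

namespace Pool.Agent.Lib.MP_f2e65a_lc

theorem exists_free (k : Type) [Field k] (n : ℕ) : ∀ (P Q : Type) [Fintype P] [DecidableEq P]
    [Fintype Q] [DecidableEq Q] (a : P ≃ Q), Fintype.card P = n →
    ∃ (A : BN k P Q) (g : A.M), IsFree (fun _ : Unit => a) A (fun _ => g) ∧ Good A g := by
  induction n with
  | zero =>
    intro P Q _ _ _ _ a h
    have hP : IsEmpty P := Fintype.card_eq_zero_iff.1 h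
    have hQ : IsEmpty Q := ⟨fun q => hP.false (a.symm q)⟩
    exact ⟨BN.unit k P Q, (1 : k), isFree_unit a, good_unit⟩
  | succ n ih =>
    intro P Q _ _ _ _ a h
    obtain ⟨p⟩ : Nonempty P := Fintype.card_pos_iff.1 (by omega)
    obtain ⟨a', ha'⟩ : ∃ a' : {b // b ≠ p} ≃ {b // b ≠ a p}, ∀ b, (a' b : Q) = a b :=
      ⟨a.subtypeEquiv (fun b => by rw [Ne, Ne, a.apply_eq_iff_eq]), fun b => rfl⟩
    have hcard : Fintype.card {b // b ≠ p} = n := by
      have h1 := Fintype.card_congr (Equiv.optionSubtypeNe p)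
      rw [Fintype.card_option, h] at h1
      omega
    obtain ⟨N, g, hN, hg⟩ := ih {b // b ≠ p} {b // b ≠ a p} a' hcard
    have h1 := isFree_relabel (Equiv.optionSubtypeNe p).symm (Equiv.optionSubtypeNe (a p)).symm
      (isFree_cup a' N g hN)
    have h2 := good_relabel (Equiv.optionSubtypeNe p).symm (Equiv.optionSubtypeNe (a p)).symm
      (good_cup N g hg)
    have h3 : (Equiv.optionSubtypeNe p).symm.trans ((Equiv.optionCongr a').trans
        (Equiv.optionSubtypeNe (a p)).symm.symm) = a := by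
      ext b
      obtain ⟨o, rfl⟩ := (Equiv.optionSubtypeNe p).surjective b
      rw [Equiv.trans_apply, Equiv.symm_apply_apply, Equiv.trans_apply, Equiv.symm_symm]
      rcases o with _ | t
      · simp
      · simp [ha']
    have h4 : (fun _ : Unit => (Equiv.optionSubtypeNe p).symm.trans ((Equiv.optionCongr a').trans
        (Equiv.optionSubtypeNe (a p)).symm.symm)) = fun _ => a := by rw [h3]
    exact ⟨_, _, h4 ▸ h1, h2⟩

variable (k : Type) [Field k] {P Q : Type} [Fintype P] [DecidableEq P] [Fintype Q]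
  [DecidableEq Q]

/-- the free module on the flat tangle `a` -/
noncomputable def Φ (a : P ≃ Q) : BN k P Q := (exists_free k _ P Q a rfl).choose

/-- its generator -/
noncomputable def gΦ (a : P ≃ Q) : (Φ k a).M :=
  (exists_free k _ P Q a rfl).choose_spec.choose

theorem Φ_free (a : P ≃ Q) : IsFree (fun _ : Unit => a) (Φ k a) (fun _ => gΦ k a) :=
  (exists_free k _ P Q a rfl).choose_spec.choose_spec.1

theorem Φ_good (a : P ≃ Q) : Good (Φ k a) (gΦ k a) :=
  (exists_free k _ P Q a rfl).choose_spec.choose_spec.2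

theorem hom_bij_or {a b : P ≃ Q} (f : Hom (Φ k a) (Φ k b)) :
    Function.Bijective f.1 ∨ ∀ m, f.1 m ∈ rad (Φ k b) := by
  by_cases h : f.1 (gΦ k a) ∈ rad (Φ k b)
  · right
    intro m
    obtain ⟨c, hc⟩ := (Φ_good k a).top m
    have h1 := map_mem_rad f hc
    rw [map_sub, map_smul] at h1
    have h2 := (rad (Φ k b)).add_mem h1 ((rad (Φ k b)).smul_mem c h)
    rwa [sub_add_cancel] at h2
  · left
    have hcl : Closed (Φ k b) (LinearMap.range f.1) := by
      refine ⟨?_, ?_, ?_⟩
      · rintro p _ ⟨m, rfl⟩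
        exact ⟨(Φ k a).x p m, f.2.1 p m⟩
      · rintro p r _ hpr ⟨m, rfl⟩
        exact ⟨(Φ k a).S p r m, f.2.2.1 p r m hpr⟩
      · rintro p q _ ⟨m, rfl⟩
        exact ⟨(Φ k a).E p q m, f.2.2.2 p q m⟩
    have htop := (Φ_good k b).gen _ _ hcl ⟨gΦ k a, rfl⟩ h
    have hs : Function.Surjective f.1 := LinearMap.range_eq_top.1 htop
    have hd : Module.finrank k (Φ k a).M = Module.finrank k (Φ k b).M := by
      rw [(Φ_good k a).dim, (Φ_good k b).dim]
    exact ⟨(LinearMap.injective_iff_surjective_of_finrank_eq_finrank hd).2 hs, hs⟩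

theorem finrank_hom_le (a b : P ≃ Q) :
    Module.finrank k (Hom (Φ k a) (Φ k b)) ≤ 2 ^ Fintype.card P := by
  have hmem : ∀ f : Hom (Φ k a) (Φ k b), f.1 (gΦ k a) ∈ clo (Φ k b) a := by
    intro f p
    rw [← f.2.2.2, (Φ_free k a).mem () p]
  let F : Hom (Φ k a) (Φ k b) →ₗ[k] clo (Φ k b) a :=
    { toFun := fun f => ⟨f.1 (gΦ k a), hmem f⟩
      map_add' := fun f g => rfl
      map_smul' := fun c f => rfl }
  have hF : Function.Injective F := by
    intro f g hfg
    exact (Φ_free k a).ext _ f g fun _ => congrArg Subtype.val hfg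
  exact (LinearMap.finrank_le_finrank_of_injective hF).trans ((Φ_good k b).clo_le a)

theorem gΦ_ne (a : P ≃ Q) : gΦ k a ≠ 0 := by
  intro h
  apply (Φ_good k a).g_not
  rw [h]
  exact Submodule.zero_mem _

/-- the quotient by the radical -/
noncomputable def topT (P Q : Type) [Fintype P] [DecidableEq P] [Fintype Q] [DecidableEq Q] :
    Tst k P Q where
  obj A := A.M ⧸ rad A
  map {A B} f := (rad A).mapQ (rad B) f.1 (fun m hm => map_mem_rad f hm)
  map_id A := by
    exact Submodule.linearMap_qext _ (LinearMap.ext fun m => rfl)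
  map_cmp g f := by
    exact Submodule.linearMap_qext _ (LinearMap.ext fun m => rfl)
  map_add f g := by
    exact Submodule.linearMap_qext _ (LinearMap.ext fun m => rfl)
  map_smul c f := by
    exact Submodule.linearMap_qext _ (LinearMap.ext fun m => rfl)

theorem card_le_top {I : Type} [Fintype I] [DecidableEq I] (lab : I → (P ≃ Q))
    (d : Hom (BN.pi fun i => Φ k (lab i)) (BN.pi fun i => Φ k (lab i))) (hd : cmp d d = 0)
    (h : ∀ i j m, (entry d i j).1 m ∈ rad (Φ k (lab j))) :
    Fintype.card I ≤ (topT k P Q).N ⟨BN.pi fun i => Φ k (lab i), d, hd⟩ := by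
  obtain ⟨A, hA⟩ : ∃ A : I → BN k P Q, A = fun i => Φ k (lab i) := ⟨_, rfl⟩
  have hdrad : ∀ m, d.1 m ∈ rad (BN.pi fun i => Φ k (lab i)) := by
    intro m
    rw [← mat_entry d]
    unfold mat
    rw [sum_apply']
    refine Submodule.sum_mem _ fun i _ => ?_
    rw [sum_apply']
    refine Submodule.sum_mem _ fun j _ => ?_
    exact map_mem_rad (inc (fun i => Φ k (lab i)) j) (h i j _)
  have h0 : (topT k P Q).map d = 0 := by
    refine Submodule.linearMap_qext _ (LinearMap.ext fun m => ?_)
    exact (Submodule.Quotient.mk_eq_zero _).2 (hdrad m)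
  have h1 : (topT k P Q).N ⟨BN.pi fun i => Φ k (lab i), d, hd⟩ =
      Module.finrank k ((BN.pi fun i => Φ k (lab i)).M ⧸ rad (BN.pi fun i => Φ k (lab i))) := by
    change Module.finrank k (LinearMap.ker ((topT k P Q).map d)) -
      Module.finrank k (LinearMap.range ((topT k P Q).map d)) = _
    rw [h0, LinearMap.ker_zero, LinearMap.range_zero, finrank_top, finrank_bot, Nat.sub_zero]
    rfl
  rw [h1]
  let F : (BN.pi fun i => Φ k (lab i)).M →ₗ[k] (∀ i, (Φ k (lab i)).M ⧸ rad (Φ k (lab i))) :=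
    LinearMap.pi fun i => (rad (Φ k (lab i))).mkQ ∘ₗ (prj (fun i => Φ k (lab i)) i).1
  have hFk : rad (BN.pi fun i => Φ k (lab i)) ≤ LinearMap.ker F := by
    intro m hm
    rw [LinearMap.mem_ker]
    funext i
    exact (Submodule.Quotient.mk_eq_zero _).2 (map_mem_rad (prj (fun i => Φ k (lab i)) i) hm)
  have hFs : Function.Surjective ((rad (BN.pi fun i => Φ k (lab i))).liftQ F hFk) := by
    intro y
    choose m hm using fun i => Submodule.mkQ_surjective (rad (Φ k (lab i))) (y i)
    exact ⟨Submodule.Quotient.mk m, funext hm⟩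
  have h2 := LinearMap.finrank_range_le ((rad (BN.pi fun i => Φ k (lab i))).liftQ F hFk)
  rw [LinearMap.range_eq_top.2 hFs, finrank_top, Module.finrank_pi_fintype] at h2
  refine le_trans ?_ h2
  have h3 : ∀ i, 1 ≤ Module.finrank k ((Φ k (lab i)).M ⧸ rad (Φ k (lab i))) := by
    intro i
    have h4 : Nontrivial ((Φ k (lab i)).M ⧸ rad (Φ k (lab i))) :=
      ⟨Submodule.Quotient.mk (gΦ k (lab i)), 0, fun h5 =>
        (Φ_good k (lab i)).g_not ((Submodule.Quotient.mk_eq_zero _).1 h5)⟩
    exact Module.finrank_pos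
  calc Fintype.card I = ∑ _i : I, 1 := by rw [Finset.sum_const, Finset.card_univ, smul_eq_mul, mul_one]
    _ ≤ _ := Finset.sum_le_sum fun i _ => h3 i

end Pool.Agent.Lib.MP_f2e65a_lc
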