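import Pool.Agent.Lib.MP_f2e65a_lc.RetDefs

/-! # Inclusions of coordinates in `U p q B` -/

set_option autoImplicit false
set_option linter.unusedVariables false

namespace Pool.Agent.Lib.MP_f2e65a_lc

variable {k : Type} [Field k] {P Q : Type} [Fintype P] [DecidableEq P] [Fintype Q]
  [DecidableEq Q]

/-- `b ↦ (0, single τ (E p q b))` -/
def uin (B : BN k P Q) (p : P) (q : Q) (τ : P) : B.M →ₗ[k] (uobj B p q).M :=
  (LinearMap.codRestrict (Usub B p q)
    (LinearMap.inr k B.M (P → B.M) ∘ₗ LinearMap.single k (fun _ : P => B.M) τ ∘ₗ B.E p q)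
    (fun b => by
      refine ⟨map_zero _, fun σ => ?_⟩
      change B.E p q (Pi.single (M := fun _ => B.M) τ (B.E p q b) σ) =
        Pi.single (M := fun _ => B.M) τ (B.E p q b) σ
      by_cases hτ : σ = τ
      · subst hτ
        rw [Pi.single_eq_same, B.E_idem]
      · rw [Pi.single_eq_of_ne hτ, map_zero]) : B.M →ₗ[k] Usub B p q)

/-- `b ↦ (E p q b, 0)` -/
def uiv (B : BN k P Q) (p : P) (q : Q) : B.M →ₗ[k] (uobj B p q).M :=
  (LinearMap.codRestrict (Usub B p q) (LinearMap.inl k B.M (P → B.M) ∘ₗ B.E p q)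
    (fun b => ⟨B.E_idem _ _ _, fun σ => map_zero _⟩) : B.M →ₗ[k] Usub B p q)

theorem uc_uin_v (B : BN k P Q) (p : P) (q : Q) (τ : P) (b : B.M) :
    (uc B p q (uin B p q τ b)).1 = 0 := rfl
theorem uc_uin_m (B : BN k P Q) (p : P) (q : Q) (τ σ : P) (b : B.M) :
    (uc B p q (uin B p q τ b)).2 σ = if σ = τ then B.E p q b else 0 := by
  change Pi.single (M := fun _ => B.M) τ (B.E p q b) σ = _
  by_cases hτ : σ = τ
  · subst hτ
    rw [Pi.single_eq_same, if_pos rfl]
  · rw [Pi.single_eq_of_ne hτ, if_neg hτ]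
theorem uc_uiv_v (B : BN k P Q) (p : P) (q : Q) (b : B.M) :
    (uc B p q (uiv B p q b)).1 = B.E p q b := rfl
theorem uc_uiv_m (B : BN k P Q) (p : P) (q : Q) (σ : P) (b : B.M) :
    (uc B p q (uiv B p q b)).2 σ = 0 := rfl

/-- equality in `U p q B` -/
theorem uobj_ext {B : BN k P Q} {p : P} {q : Q} {w w' : (uobj B p q).M}
    (h1 : (uc B p q w).1 = (uc B p q w').1)
    (h2 : ∀ τ, (uc B p q w).2 τ = (uc B p q w').2 τ) : w = w' :=
  uc_injective B p q (Prod.ext h1 (funext h2))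

/-- every element is a sum of its coordinates -/
theorem uobj_eq (B : BN k P Q) (p : P) (q : Q) (w : (uobj B p q).M) :
    w = uiv B p q (uc B p q w).1 + ∑ τ, uin B p q τ ((uc B p q w).2 τ) := by
  refine uobj_ext ?_ fun σ => ?_
  · rw [map_add, map_sum]
    change (uc B p q w).1 = (uc B p q (uiv B p q (uc B p q w).1)).1 +
      (∑ τ, uc B p q (uin B p q τ ((uc B p q w).2 τ))).1
    rw [uc_uiv_v, uc_v, Prod.fst_sum, Finset.sum_eq_zero, add_zero]
    intro τ _
    rfl
  · rw [map_add, map_sum]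
    change (uc B p q w).2 σ = (uc B p q (uiv B p q (uc B p q w).1)).2 σ +
      (∑ τ, uc B p q (uin B p q τ ((uc B p q w).2 τ))).2 σ
    rw [uc_uiv_m, Prod.snd_sum, Finset.sum_apply, zero_add,
      Finset.sum_eq_single σ (fun τ _ h => by rw [uc_uin_m, if_neg (Ne.symm h)])
        (fun h => absurd (Finset.mem_univ σ) h), uc_uin_m, if_pos rfl, uc_m]

end Pool.Agent.Lib.MP_f2e65a_lc
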