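import Pool.Agent.Lib.MP_f2e65a_lc.Pi
import Pool.Agent.Lib.MP_f2e65a_lc.CupAdj
import Pool.Agent.Lib.MP_f2e65a_lc.Uin

/-! # Free Bar-Natan modules: definitions

A flat tangle is a bijection `a : P ≃ Q`.  The free module on flat tangles `lab i`, `i : I`, is the module which represents the morphisms of Bar-Natan's category. -/

set_option autoImplicit false
set_option linter.unusedVariables false

namespace Pool.Agent.Lib.MP_f2e65a_lc

variable {k : Type} [Field k] {P Q : Type} [Fintype P] [DecidableEq P] [Fintype Q]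
  [DecidableEq Q]

/-- the part of `A` where the closure is `c` -/
def clo (A : BN k P Q) (c : P ≃ Q) : Submodule k A.M where
  carrier := {m | ∀ p, A.E p (c p) m = m}
  add_mem' := by
    intro a b ha hb p
    rw [map_add, ha, hb]
  zero_mem' := fun p => map_zero _
  smul_mem' := by
    intro c a ha p
    rw [map_smul, ha]

theorem mem_clo {A : BN k P Q} {c : P ≃ Q} {m : A.M} :
    m ∈ clo A c ↔ ∀ p, A.E p (c p) m = m := Iff.rfl

/-- `A` is free on the elements `g i` of closure `lab i` -/
structure IsFree {I : Type} (lab : I → (P ≃ Q)) (A : BN k P Q) (g : I → A.M) : Prop where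
  mem : ∀ i, g i ∈ clo A (lab i)
  hom : ∀ (B : BN k P Q) (m : I → B.M), (∀ i, m i ∈ clo B (lab i)) →
    ∃ f : Hom A B, ∀ i, f.1 (g i) = m i
  ext : ∀ (B : BN k P Q) (f f' : Hom A B), (∀ i, f.1 (g i) = f'.1 (g i)) → f = f'

/-- the radical: the span of the images of all dots and saddles -/
def rad (A : BN k P Q) : Submodule k A.M :=
  Submodule.span k ({y | ∃ p m, y = A.x p m} ∪ {y | ∃ p r m, p ≠ r ∧ y = A.S p r m})

theorem x_mem_rad (A : BN k P Q) (p : P) (m : A.M) : A.x p m ∈ rad A :=
  Submodule.subset_span (Or.inl ⟨p, m, rfl⟩)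
theorem S_mem_rad (A : BN k P Q) {p r : P} (h : p ≠ r) (m : A.M) : A.S p r m ∈ rad A :=
  Submodule.subset_span (Or.inr ⟨p, r, m, h, rfl⟩)

/-- induction for the elements of the radical -/
theorem rad_le {A : BN k P Q} {W : Submodule k A.M} (hx : ∀ p m, A.x p m ∈ W)
    (hS : ∀ p r m, p ≠ r → A.S p r m ∈ W) : rad A ≤ W := by
  unfold rad
  rw [Submodule.span_le]
  rintro y (⟨p, m, rfl⟩ | ⟨p, r, m, h, rfl⟩)
  · exact hx p m
  · exact hS p r m h

theorem map_mem_rad {A B : BN k P Q} (f : Hom A B) {m : A.M} (hm : m ∈ rad A) :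
    f.1 m ∈ rad B := by
  have h : rad A ≤ (rad B).comap f.1 := rad_le
    (fun p m => by
      change f.1 (A.x p m) ∈ rad B
      rw [f.2.1]
      exact x_mem_rad _ _ _)
    (fun p r m h => by
      change f.1 (A.S p r m) ∈ rad B
      rw [f.2.2.1 _ _ _ h]
      exact S_mem_rad _ h _)
  exact h hm

/-- submodules closed under all operators -/
structure Closed (A : BN k P Q) (W : Submodule k A.M) : Prop where
  hx : ∀ p m, m ∈ W → A.x p m ∈ W
  hS : ∀ p r m, p ≠ r → m ∈ W → A.S p r m ∈ W
  hE : ∀ p q m, m ∈ W → A.E p q m ∈ W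

/-- properties of the free module on one flat tangle -/
structure Good (A : BN k P Q) (g : A.M) : Prop where
  g_not : g ∉ rad A
  top : ∀ m, ∃ c : k, m - c • g ∈ rad A
  gen : ∀ (W : Submodule k A.M) (w : A.M), Closed A W → w ∈ W → w ∉ rad A → W = ⊤
  dim : Module.finrank k A.M = (Fintype.card P + 1).factorial
  clo_le : ∀ c : P ≃ Q, Module.finrank k (clo A c) ≤ 2 ^ Fintype.card P

/-- the module `k` for the empty tangle -/
def BN.unit (k : Type) [Field k] (P Q : Type) [Fintype P] [DecidableEq P] [Fintype Q]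
    [DecidableEq Q] [hP : IsEmpty P] [hQ : IsEmpty Q] : BN k P Q where
  M := k
  x p := hP.elim p
  S p := hP.elim p
  E p := hP.elim p
  x_x p := hP.elim p
  x_sq p := hP.elim p
  S_symm p := hP.elim p
  x_S p := hP.elim p
  x_S_eq p := hP.elim p
  S_sq p := hP.elim p
  S_S p := hP.elim p
  S_S_S p := hP.elim p
  E_E p := hP.elim p
  E_idem p := hP.elim p
  E_row p := hP.elim p
  E_col p := hP.elim p
  sum_row p := hP.elim p
  sum_col p := hQ.elim p
  x_E p := hP.elim p
  S_E p := hP.elim p
  S_E' p := hP.elim p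

/-- the smoothing of the flat tangle `a` at `p`, `q`: it joins `p` to `q` -/
def smooth (p : P) (q : Q) (a : P ≃ Q) : P ≃ Q := (Equiv.swap p (a.symm q)).trans a

end Pool.Agent.Lib.MP_f2e65a_lc
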