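import Pool.Agent.Lib.MP_f2e65a_lc.FreeDefs

/-! # FreeU: `U p q` of a free module is free

* `umapU`: for `u : A.M → B.M` with `UHom A B p q u` the map `(v, m) ↦ (u v, τ ↦ u (m τ))` is a morphism `uobj A p q → uobj B p q`: it preserves `Usub` (`u` maps the image of `E p q` into the image of `E p q`), and
 the formulas `ux`, `uS`, `uE` on `(v, m)` (with `v`, `m τ` in the image of `E p q`) involve only `x τ`, `S τ r` with `τ, r ≠ p` and `E τ s` with `τ ≠ p`, `s ≠ q`, which commute with `u` by `UHom`.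
* `uhom_of_hom`: if `f : Hom A (uobj B p q)`, then `u y = (uc (f y)).1` is a `UHom A B p q`: `ux_ne_v`, `uS_ne_v`, `uE_tu_v`, `uc_v`.
* `U_free`: the label of `⟨i, c⟩` is `smooth p q (lab i)` (it is `lab i` if `lab i p = q`); the generators: if `lab i p = q`: `uin p (g i)` for `c = 0`, `uin p (x p (g i))` for `c ≠ 0`; if `lab i p ≠ q`: `uin p (S p r (g i))`, `r = (lab i).symm q ≠ p` (`ugen'`).  Write `a = lab i`, `a' = smooth p q a`: `a' p = q`, and if
 `a p ≠ q`: `a' r = a p`, `a' t = a t` for `t ≠ p, r`.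
 `mem`: `uin p b = (0, single p b)` (`E p q b = b`): `E p q` keeps it; for `t ≠ p`: `E t (a' t)` acts on the coordinate `p` by `A.E t (a' t)` (`uE_tu_ne`, `a' t ≠ q`); for `b = S p r (g i)`: `E r (a p) (S p r g) = S p r (E p (a p) g)` (`S_E`), `E t (a t) S p r g = S p r E t (a t) g` (`S_E'`), `E p q (S p r g) = S p r (E r q g)` (`S_E` and `S_symm`), `g ∈ clo A a`.
 `hom`: given `B`, `m ⟨i, c⟩ ∈ clo B (smooth p q (lab i))`.  Let `b_i : uobj B p q` be `(m ⟨i, 0⟩, single p (m ⟨i, 1⟩))` if `a p = q` (`= uiv (m ⟨i, 0⟩) + uin p (m ⟨i, 1⟩)`), `(0, single r (m ⟨i, 0⟩))` (`= uin r (m ⟨i, 0⟩)`) otherwise; `b_i ∈ clo (uobj B p q) a`: `a p = q`: clear; `a p ≠ q`: `E r q` keeps it (`uE_tq_t`),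
 `E p (a p)`: coordinate `r`: `E r (a p) m = m` as `a' r = a p` (`uE_pu_ne`); `E t (a t)`: `uE_tu_ne`.  `h.hom` gives `f : Hom A (uobj B p q)` with `f (g i) = b_i`; `u y = (uc (f y)).1`; `U_hom` gives `F : Hom (uobj A p q) B` with `F (ugen y) = u y`.  `a p = q`: `F (uin p g) = (uc b_i).1 = m ⟨i, 0⟩`, `F (uin p (x p g)) = (ux p (b_i)).1 = m ⟨i, 1⟩` (`ux_p_v`).
 `a p ≠ q`: `F (uin p (S p r g)) = (uc (S p r (f g))).1 = (uS1 p r (0, single r m)).1 = m` (`uS_p`, `uS1_v`).
 `ext`: let `G = F - F'`, `γ y = G (uin p y)` (linear in `y : A.M`, `UHom A B p q γ`: `uin p (x t y) = x t (uin p y)` for `t ≠ p`, etc., on the image of `E p q`).  `f = umapU γ ∘ η : A → uobj B p q`, `f y = (γ (E p q y), p ↦ γ (x p (E p q y)), τ ↦ γ (S p τ (E τ q y)))`.  `f (g i) = 0`: `a p = q`: `E p q g = g`, `E τ q g = 0` for `τ ≠ p`,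
 `γ g = 0`, `γ (x p g) = 0`; `a p ≠ q`: `E p q g = 0`, `E τ q g = 0` for `τ ≠ r`, `γ (S p r g) = 0`.  So `f = 0` (`h.ext`), so `γ (E p q y) = 0` for all `y`, and `U_ext` gives `F = F'`. -/

set_option autoImplicit false
set_option linter.unusedVariables false
set_option linter.unusedSectionVars false

namespace Pool.Agent.Lib.MP_f2e65a_lc

variable {k : Type} [Field k] {P Q : Type} [Fintype P] [DecidableEq P] [Fintype Q]
  [DecidableEq Q]

/-- the map on pairs given by a linear map -/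
private def FreeU_W (A B : BN k P Q) (u : A.M →ₗ[k] B.M) : UW A →ₗ[k] UW B :=
  LinearMap.prodMap u (LinearMap.pi fun τ => u ∘ₗ LinearMap.proj τ)

private theorem FreeU_W_v (A B : BN k P Q) (u : A.M →ₗ[k] B.M) (w : UW A) :
    (FreeU_W A B u w).1 = u w.1 := rfl

private theorem FreeU_W_m (A B : BN k P Q) (u : A.M →ₗ[k] B.M) (w : UW A) (τ : P) :
    (FreeU_W A B u w).2 τ = u (w.2 τ) := rfl

private theorem FreeU_x (A B : BN k P Q) (p : P) (q : Q) (u : A.M →ₗ[k] B.M) (h : UHom A B p q u)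
    (t : P) (w : UW A) (hw : w ∈ Usub A p q) :
    FreeU_W A B u (ux A p t w) = ux B p t (FreeU_W A B u w) := by
  obtain ⟨h1, h2⟩ := hw
  by_cases ht : t = p
  · subst ht
    refine Prod.ext ?_ (funext fun τ => ?_)
    · rw [FreeU_W_v, ux_p_v, ux_p_v, FreeU_W_m]
    · by_cases hτ : τ = t
      · rw [hτ, FreeU_W_m, ux_p_p, ux_p_p, map_zero]
      · rw [FreeU_W_m, ux_p_ne _ _ hτ, ux_p_ne _ _ hτ, FreeU_W_m, h.hx τ _ hτ (h2 τ)]
  · refine Prod.ext ?_ (funext fun τ => ?_)
    · rw [FreeU_W_v, ux_ne_v _ _ ht, ux_ne_v _ _ ht, FreeU_W_v, h.hx t _ ht h1]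
    · rw [FreeU_W_m, ux_ne _ _ ht, ux_ne _ _ ht, FreeU_W_m, h.hx t _ ht (h2 τ)]

private theorem FreeU_S1 (A B : BN k P Q) (p : P) (q : Q) (u : A.M →ₗ[k] B.M) (h : UHom A B p q u)
    (r : P) (hr : r ≠ p) (w : UW A) (hw : w ∈ Usub A p q) :
    FreeU_W A B u (uS1 A p r w) = uS1 B p r (FreeU_W A B u w) := by
  obtain ⟨h1, h2⟩ := hw
  refine Prod.ext ?_ (funext fun τ => ?_)
  · rw [FreeU_W_v, uS1_v, uS1_v, FreeU_W_m]
  · by_cases hτ : τ = p
    · rw [hτ, FreeU_W_m, uS1_p, uS1_p, FreeU_W_m, h.hx r _ hr (h2 r)]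
    · by_cases hτ' : τ = r
      · rw [hτ', FreeU_W_m, uS1_self A w hr, uS1_self B _ hr, FreeU_W_m, FreeU_W_v, map_add,
          h.hx r _ hr h1]
      · rw [FreeU_W_m, uS1_ne A w hτ hτ', uS1_ne B _ hτ hτ', FreeU_W_m,
          h.hS τ r _ hτ' hτ hr (h2 τ)]

private theorem FreeU_S (A B : BN k P Q) (p : P) (q : Q) (u : A.M →ₗ[k] B.M) (h : UHom A B p q u)
    (t s : P) (hts : t ≠ s) (w : UW A) (hw : w ∈ Usub A p q) :
    FreeU_W A B u (uS A p t s w) = uS B p t s (FreeU_W A B u w) := by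
  by_cases ht : t = p
  · subst ht
    rw [uS_p A (Ne.symm hts), uS_p B (Ne.symm hts)]
    exact FreeU_S1 A B t q u h s (Ne.symm hts) w hw
  by_cases hs : s = p
  · subst hs
    rw [uS_p' A hts, uS_p' B hts]
    exact FreeU_S1 A B s q u h t hts w hw
  obtain ⟨h1, h2⟩ := hw
  refine Prod.ext ?_ (funext fun τ => ?_)
  · rw [FreeU_W_v, uS_ne_v A w hts ht hs, uS_ne_v B _ hts ht hs, FreeU_W_v,
      h.hS t s _ hts ht hs h1]
  · rw [FreeU_W_m, uS_ne A w hts ht hs, uS_ne B _ hts ht hs, FreeU_W_m,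
      h.hS t s _ hts ht hs (h2 _)]

private theorem FreeU_E (A B : BN k P Q) (p : P) (q : Q) (u : A.M →ₗ[k] B.M) (h : UHom A B p q u)
    (t : P) (s : Q) (w : UW A) (hw : w ∈ Usub A p q) :
    FreeU_W A B u (uE A p q t s w) = uE B p q t s (FreeU_W A B u w) := by
  obtain ⟨h1, h2⟩ := hw
  by_cases ht : t = p
  · subst ht
    by_cases hs : s = q
    · subst hs
      refine Prod.ext ?_ (funext fun τ => ?_)
      · rw [FreeU_W_v, uE_pq_v, uE_pq_v, FreeU_W_v]
      · by_cases hτ : τ = t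
        · rw [hτ, FreeU_W_m, uE_pq_p, uE_pq_p, FreeU_W_m]
        · rw [FreeU_W_m, uE_pq_ne A w hτ, uE_pq_ne B _ hτ, map_zero]
    · refine Prod.ext ?_ (funext fun τ => ?_)
      · rw [FreeU_W_v, uE_pu_v A w hs, uE_pu_v B _ hs, map_zero]
      · by_cases hτ : τ = t
        · rw [hτ, FreeU_W_m, uE_pu_p A w hs, uE_pu_p B _ hs, map_zero]
        · rw [FreeU_W_m, uE_pu_ne A w hs hτ, uE_pu_ne B _ hs hτ, FreeU_W_m,
            h.hE τ s _ hτ hs (h2 τ)]
  · by_cases hs : s = q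
    · subst hs
      refine Prod.ext ?_ (funext fun τ => ?_)
      · rw [FreeU_W_v, uE_tq_v A w ht, uE_tq_v B _ ht, map_zero]
      · by_cases hτ : τ = t
        · rw [hτ, FreeU_W_m, uE_tq_t A w ht, uE_tq_t B _ ht, FreeU_W_m]
        · rw [FreeU_W_m, uE_tq_ne A w ht hτ, uE_tq_ne B _ ht hτ, map_zero]
    · refine Prod.ext ?_ (funext fun τ => ?_)
      · rw [FreeU_W_v, uE_tu_v A w ht hs, uE_tu_v B _ ht hs, FreeU_W_v, h.hE t s _ ht hs h1]
      · by_cases hτ : τ = t
        · rw [hτ, FreeU_W_m, uE_tu_t A w ht hs, uE_tu_t B _ ht hs, map_zero]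
        · rw [FreeU_W_m, uE_tu_ne A w ht hs hτ, uE_tu_ne B _ ht hs hτ, FreeU_W_m,
            h.hE t s _ ht hs (h2 τ)]

private theorem FreeU_mem (A B : BN k P Q) (p : P) (q : Q) (u : A.M →ₗ[k] B.M)
    (h : UHom A B p q u) (w : UW A) (hw : w ∈ Usub A p q) : FreeU_W A B u w ∈ Usub B p q :=
  ⟨h.mem _ hw.1, fun τ => h.mem _ (hw.2 τ)⟩

theorem umapU (A B : BN k P Q) (p : P) (q : Q) (u : A.M →ₗ[k] B.M) (h : UHom A B p q u) :
    ∃ F : Hom (uobj A p q) (uobj B p q), ∀ w, (uc B p q (F.1 w)).1 = u (uc A p q w).1 ∧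
      ∀ τ, (uc B p q (F.1 w)).2 τ = u ((uc A p q w).2 τ) := by
  let F0 : Usub A p q →ₗ[k] Usub B p q := (FreeU_W A B u).restrict (FreeU_mem A B p q u h)
  refine ⟨⟨F0, fun t w => ?_, fun t s w hts => ?_, fun t s w => ?_⟩, fun w => ⟨rfl, fun τ => rfl⟩⟩
  · apply uc_injective
    exact FreeU_x A B p q u h t (uc A p q w) (uc_mem A p q w)
  · apply uc_injective
    exact FreeU_S A B p q u h t s hts (uc A p q w) (uc_mem A p q w)
  · apply uc_injective
    exact FreeU_E A B p q u h t s (uc A p q w) (uc_mem A p q w)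

/-- the first coordinate of a morphism to `U p q B` -/
private def FreeU_u (A B : BN k P Q) (p : P) (q : Q) (f : Hom A (uobj B p q)) : A.M →ₗ[k] B.M :=
  uv B ∘ₗ uc B p q ∘ₗ f.1

private theorem FreeU_u_apply (A B : BN k P Q) (p : P) (q : Q) (f : Hom A (uobj B p q)) (y : A.M) :
    FreeU_u A B p q f y = (uc B p q (f.1 y)).1 := rfl

private theorem FreeU_uhom (A B : BN k P Q) (p : P) (q : Q) (f : Hom A (uobj B p q)) :
    UHom A B p q (FreeU_u A B p q f) := by
  refine ⟨fun b _ => uc_v B p q _, fun t b ht _ => ?_, fun t s b hts ht hs _ => ?_,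
    fun t s b ht hs _ => ?_⟩
  · rw [FreeU_u_apply, FreeU_u_apply, f.2.1, uc_x, ux_ne_v _ _ ht]
  · rw [FreeU_u_apply, FreeU_u_apply, f.2.2.1 _ _ _ hts, uc_S, uS_ne_v _ _ hts ht hs]
  · rw [FreeU_u_apply, FreeU_u_apply, f.2.2.2, uc_E, uE_tu_v _ _ ht hs]

/-- the generators of `U p q` of a free module -/
def ugen' {I : Type} (lab : I → (P ≃ Q)) (A : BN k P Q) (g : I → A.M) (p : P) (q : Q)
    (j : Σ i, Fin (if lab i p = q then 2 else 1)) : (uobj A p q).M :=
  if lab j.1 p = q then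
    (if (j.2 : ℕ) = 0 then uin A p q p (g j.1) else uin A p q p (A.x p (g j.1)))
  else uin A p q p (A.S p ((lab j.1).symm q) (g j.1))

/-! ### properties of the smoothing -/

private theorem FreeU_sm_p (p : P) (q : Q) (a : P ≃ Q) : smooth p q a p = q := by
  change a (Equiv.swap p (a.symm q) p) = q
  rw [Equiv.swap_apply_left, Equiv.apply_symm_apply]

private theorem FreeU_sm_eq (p : P) (q : Q) (a : P ≃ Q) (h : a p = q) : smooth p q a = a := by
  have h1 : a.symm q = p := by rw [← h, Equiv.symm_apply_apply]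
  ext t
  change a (Equiv.swap p (a.symm q) t) = a t
  rw [h1, Equiv.swap_self]
  rfl

private theorem FreeU_sm_r (p : P) (q : Q) (a : P ≃ Q) : smooth p q a (a.symm q) = a p := by
  change a (Equiv.swap p (a.symm q) (a.symm q)) = a p
  rw [Equiv.swap_apply_right]

private theorem FreeU_sm_ne (p : P) (q : Q) (a : P ≃ Q) {t : P} (h1 : t ≠ p)
    (h2 : t ≠ a.symm q) : smooth p q a t = a t := by
  change a (Equiv.swap p (a.symm q) t) = a t
  rw [Equiv.swap_apply_of_ne_of_ne h1 h2]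

private theorem FreeU_r_ne (p : P) (q : Q) (a : P ≃ Q) (h : a p ≠ q) : a.symm q ≠ p := by
  intro h1
  apply h
  rw [← h1, Equiv.apply_symm_apply]

/-! ### membership -/

private theorem FreeU_uin_clo (A : BN k P Q) (p : P) (q : Q) (b : A.M) (hb : A.E p q b = b)
    (c : P ≃ Q) (hc : c p = q) (h : ∀ t, t ≠ p → A.E t (c t) b = b) :
    uin A p q p b ∈ clo (uobj A p q) c := by
  intro t
  by_cases ht : t = p
  · subst ht
    rw [hc]
    refine uobj_ext ?_ fun τ => ?_
    · rw [uc_E, uE_pq_v]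
    · rw [uc_E]
      by_cases hτ : τ = t
      · rw [hτ, uE_pq_p]
      · rw [uE_pq_ne _ _ hτ, uc_uin_m, if_neg hτ]
  · have hs : c t ≠ q := by
      intro h1
      exact ht (c.injective (h1.trans hc.symm))
    refine uobj_ext ?_ fun τ => ?_
    · rw [uc_E, uE_tu_v _ _ ht hs, uc_uin_v, map_zero]
    · rw [uc_E]
      by_cases hτ : τ = t
      · rw [hτ, uE_tu_t _ _ ht hs, uc_uin_m, if_neg ht]
      · rw [uE_tu_ne _ _ ht hs hτ, uc_uin_m]
        by_cases hp : τ = p
        · rw [if_pos hp, hb, h t ht]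
        · rw [if_neg hp, map_zero]

private theorem FreeU_Spq (A : BN k P Q) (p r : P) (q : Q) (h : r ≠ p) (m : A.M)
    (hm : A.E r q m = m) : A.E p q (A.S p r m) = A.S p r m := by
  rw [A.S_symm p r _ (Ne.symm h), ← A.S_E r p q _ h, hm]

private theorem FreeU_mem0 (A : BN k P Q) (p : P) (q : Q) (a : P ≃ Q) (m : A.M) (hg : m ∈ clo A a)
    (c : ℕ) : (if a p = q then (if c = 0 then uin A p q p m else uin A p q p (A.x p m))
      else uin A p q p (A.S p (a.symm q) m) : (uobj A p q).M) ∈ clo (uobj A p q) (smooth p q a) := by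
  by_cases ha : a p = q
  · rw [if_pos ha, FreeU_sm_eq p q a ha]
    have h1 : A.E p q m = m := by
      have h2 := hg p
      rw [ha] at h2
      exact h2
    split_ifs
    · exact FreeU_uin_clo A p q m h1 a ha fun t _ => hg t
    · refine FreeU_uin_clo A p q _ ?_ a ha fun t _ => ?_
      · rw [← A.x_E, h1]
      · rw [← A.x_E, hg t]
  · rw [if_neg ha]
    have hr := FreeU_r_ne p q a ha
    have h1 : A.E (a.symm q) q m = m := by
      have h2 := hg (a.symm q)
      rw [Equiv.apply_symm_apply] at h2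
      exact h2
    refine FreeU_uin_clo A p q _ (FreeU_Spq A p _ q hr m h1) _ (FreeU_sm_p p q a) fun t ht => ?_
    by_cases hτ : t = a.symm q
    · rw [hτ, FreeU_sm_r, ← A.S_E p _ _ _ (Ne.symm hr), hg p]
    · rw [FreeU_sm_ne p q a ht hτ, ← A.S_E' p _ t _ _ (Ne.symm hr) ht hτ, hg t]

private theorem FreeU_mem' {I : Type} (lab : I → (P ≃ Q)) (A : BN k P Q) (g : I → A.M)
    (h : IsFree lab A g) (p : P) (q : Q) (j : Σ i, Fin (if lab i p = q then 2 else 1)) :
    ugen' lab A g p q j ∈ clo (uobj A p q) (smooth p q (lab j.1)) :=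
  FreeU_mem0 A p q (lab j.1) (g j.1) (h.mem j.1) (j.2 : ℕ)

/-! ### existence -/

private theorem FreeU_two {I : Type} (lab : I → (P ≃ Q)) (p : P) (q : Q) (i : I) :
    0 < (if lab i p = q then 2 else 1) := by
  split_ifs <;> norm_num

private theorem FreeU_b1 (B : BN k P Q) (p : P) (q : Q) (a : P ≃ Q) (ha : a p = q) (m0 m1 : B.M)
    (h0 : m0 ∈ clo B a) (h1 : m1 ∈ clo B a) :
    uiv B p q m0 + uin B p q p m1 ∈ clo (uobj B p q) a := by
  refine Submodule.add_mem _ ?_ ?_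
  · have h2 : B.E p q m0 = m0 := by
      have h2 := h0 p
      rw [ha] at h2
      exact h2
    intro t
    by_cases ht : t = p
    · subst ht
      rw [ha]
      refine uobj_ext ?_ fun τ => ?_
      · rw [uc_E, uE_pq_v]
      · rw [uc_E]
        by_cases hτ : τ = t
        · rw [hτ, uE_pq_p]
        · rw [uE_pq_ne _ _ hτ, uc_uiv_m]
    · have hs : a t ≠ q := by
        intro h1
        exact ht (a.injective (h1.trans ha.symm))
      refine uobj_ext ?_ fun τ => ?_
      · rw [uc_E, uE_tu_v _ _ ht hs, uc_uiv_v, h2, h0 t]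
      · rw [uc_E]
        by_cases hτ : τ = t
        · rw [hτ, uE_tu_t _ _ ht hs, uc_uiv_m]
        · rw [uE_tu_ne _ _ ht hs hτ, uc_uiv_m, map_zero]
  · have h2 : B.E p q m1 = m1 := by
      have h2 := h1 p
      rw [ha] at h2
      exact h2
    exact FreeU_uin_clo B p q m1 h2 a ha fun t _ => h1 t

private theorem FreeU_b2 (B : BN k P Q) (p : P) (q : Q) (a : P ≃ Q) (ha : a p ≠ q) (m0 : B.M)
    (h0 : m0 ∈ clo B (smooth p q a)) : uin B p q (a.symm q) m0 ∈ clo (uobj B p q) a := by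
  have hr := FreeU_r_ne p q a ha
  have h2 : B.E p q m0 = m0 := by
    have h2 := h0 p
    rw [FreeU_sm_p] at h2
    exact h2
  intro t
  by_cases ht : t = p
  · subst ht
    refine uobj_ext ?_ fun τ => ?_
    · rw [uc_E, uE_pu_v _ _ ha, uc_uin_v]
    · rw [uc_E]
      by_cases hτ : τ = t
      · rw [hτ, uE_pu_p _ _ ha, uc_uin_m, if_neg (Ne.symm hr)]
      · rw [uE_pu_ne _ _ ha hτ, uc_uin_m]
        by_cases hτr : τ = a.symm q
        · rw [if_pos hτr, h2, hτr]
          have h3 := h0 (a.symm q)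
          rw [FreeU_sm_r] at h3
          exact h3
        · rw [if_neg hτr, map_zero]
  · by_cases htr : t = a.symm q
    · have hat : a t = q := by rw [htr, Equiv.apply_symm_apply]
      rw [hat]
      refine uobj_ext ?_ fun τ => ?_
      · rw [uc_E, uE_tq_v _ _ ht, uc_uin_v]
      · rw [uc_E]
        by_cases hτ : τ = t
        · rw [hτ, uE_tq_t _ _ ht]
        · rw [uE_tq_ne _ _ ht hτ, uc_uin_m, if_neg (fun h => hτ (h.trans htr.symm))]
    · have hs : a t ≠ q := by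
        intro h1
        apply htr
        rw [← h1, Equiv.symm_apply_apply]
      refine uobj_ext ?_ fun τ => ?_
      · rw [uc_E, uE_tu_v _ _ ht hs, uc_uin_v, map_zero]
      · rw [uc_E]
        by_cases hτ : τ = t
        · rw [hτ, uE_tu_t _ _ ht hs, uc_uin_m, if_neg htr]
        · rw [uE_tu_ne _ _ ht hs hτ, uc_uin_m]
          by_cases hτr : τ = a.symm q
          · rw [if_pos hτr, h2]
            have h3 := h0 t
            rw [FreeU_sm_ne p q a ht htr] at h3
            exact h3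
          · rw [if_neg hτr, map_zero]

private theorem FreeU_F (A B : BN k P Q) (p : P) (q : Q) (u : A.M →ₗ[k] B.M)
    (F : Hom (uobj A p q) B) (hF : ∀ w, F.1 w = B.x p (u (uc A p q w).1) + u ((uc A p q w).2 p) +
        ∑ τ, if τ = p then 0 else B.S p τ (u ((uc A p q w).2 τ))) (b : A.M) (hb : A.E p q b = b) :
    F.1 (uin A p q p b) = u b := by
  rw [hF, uc_uin_v, map_zero, map_zero, zero_add, uc_uin_m, if_pos rfl, hb, Finset.sum_eq_zero,
    add_zero]
  intro τ _
  by_cases hτ : τ = p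
  · rw [if_pos hτ]
  · rw [if_neg hτ, uc_uin_m, if_neg hτ, map_zero, map_zero]

private theorem FreeU_hom {I : Type} (lab : I → (P ≃ Q)) (A : BN k P Q) (g : I → A.M)
    (h : IsFree lab A g) (p : P) (q : Q) (B : BN k P Q)
    (m : (Σ i, Fin (if lab i p = q then 2 else 1)) → B.M)
    (hm : ∀ j, m j ∈ clo B (smooth p q (lab j.1))) :
    ∃ F : Hom (uobj A p q) B, ∀ j, F.1 (ugen' lab A g p q j) = m j := by
  classical
  have hlt : ∀ i, lab i p = q → 1 < (if lab i p = q then 2 else 1) := fun i hi => by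
    rw [if_pos hi]
    norm_num
  let m0 : I → B.M := fun i => m ⟨i, ⟨0, FreeU_two lab p q i⟩⟩
  let m1 : I → B.M := fun i => if hi : lab i p = q then m ⟨i, ⟨1, hlt i hi⟩⟩ else 0
  let b : I → (uobj B p q).M := fun i => if lab i p = q then
    uiv B p q (m0 i) + uin B p q p (m1 i) else uin B p q ((lab i).symm q) (m0 i)
  have hm0 : ∀ i, m0 i ∈ clo B (smooth p q (lab i)) := fun i => hm ⟨i, _⟩
  have hm1 : ∀ i, m1 i ∈ clo B (smooth p q (lab i)) := by
    intro i
    by_cases hi : lab i p = q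
    · have h1 : m1 i = m ⟨i, ⟨1, hlt i hi⟩⟩ := dif_pos hi
      rw [h1]
      exact hm ⟨i, _⟩
    · have h1 : m1 i = 0 := dif_neg hi
      rw [h1]
      exact Submodule.zero_mem _
  have hb1 : ∀ i, lab i p = q → b i = uiv B p q (m0 i) + uin B p q p (m1 i) :=
    fun i hi => if_pos hi
  have hb2 : ∀ i, lab i p ≠ q → b i = uin B p q ((lab i).symm q) (m0 i) := fun i hi => if_neg hi
  have hb : ∀ i, b i ∈ clo (uobj B p q) (lab i) := by
    intro i
    by_cases hi : lab i p = q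
    · rw [hb1 i hi]
      have h1 := hm0 i
      have h2 := hm1 i
      rw [FreeU_sm_eq p q _ hi] at h1 h2
      exact FreeU_b1 B p q _ hi _ _ h1 h2
    · rw [hb2 i hi]
      exact FreeU_b2 B p q _ hi _ (hm0 i)
  obtain ⟨f, hf⟩ := h.hom (uobj B p q) b hb
  obtain ⟨F, -, hF⟩ := U_hom A B p q _ (FreeU_uhom A B p q f)
  have hFu := FreeU_F A B p q _ F hF
  have hE0 : ∀ i, B.E p q (m0 i) = m0 i := by
    intro i
    have h1 := hm0 i p
    rw [FreeU_sm_p] at h1
    exact h1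
  have hE1 : ∀ i, B.E p q (m1 i) = m1 i := by
    intro i
    have h1 := hm1 i p
    rw [FreeU_sm_p] at h1
    exact h1
  refine ⟨F, ?_⟩
  rintro ⟨i, c⟩
  have hg := h.mem i
  unfold ugen'
  by_cases hi : lab i p = q
  · rw [if_pos (show lab (⟨i, c⟩ : Σ i, Fin (if lab i p = q then 2 else 1)).1 p = q from hi)]
    have hgE : A.E p q (g i) = g i := by
      have h1 := hg p
      rw [hi] at h1
      exact h1
    by_cases hc : (c : ℕ) = 0
    · rw [if_pos hc, hFu _ hgE, FreeU_u_apply, hf, hb1 i hi, map_add]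
      change (uc B p q (uiv B p q (m0 i))).1 + (uc B p q (uin B p q p (m1 i))).1 = _
      rw [uc_uiv_v, uc_uin_v, add_zero, hE0]
      have h2 : c = ⟨0, FreeU_two lab p q i⟩ := Fin.ext hc
      rw [h2]
    · rw [if_neg hc]
      have hgx : A.E p q (A.x p (g i)) = A.x p (g i) := by rw [← A.x_E, hgE]
      rw [hFu _ hgx, FreeU_u_apply, f.2.1, hf, uc_x, ux_p_v, hb1 i hi, map_add]
      change (uc B p q (uiv B p q (m0 i))).2 p + (uc B p q (uin B p q p (m1 i))).2 p = _
      rw [uc_uiv_m, uc_uin_m, if_pos rfl, zero_add, hE1]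
      have h3 : (c : ℕ) < 2 := lt_of_lt_of_eq c.isLt (if_pos hi)
      have h2 : c = ⟨1, hlt i hi⟩ := Fin.ext (by
        change (c : ℕ) = 1
        omega)
      have h1 : m1 i = m ⟨i, ⟨1, hlt i hi⟩⟩ := dif_pos hi
      rw [h1, h2]
  · rw [if_neg (show ¬ lab (⟨i, c⟩ : Σ i, Fin (if lab i p = q then 2 else 1)).1 p = q from hi)]
    have hr := FreeU_r_ne p q (lab i) hi
    have hgE : A.E ((lab i).symm q) q (g i) = g i := by
      have h1 := hg ((lab i).symm q)
      rw [Equiv.apply_symm_apply] at h1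
      exact h1
    rw [hFu _ (FreeU_Spq A p _ q hr _ hgE), FreeU_u_apply, f.2.2.1 _ _ _ (Ne.symm hr), hf, uc_S,
      uS_p _ hr, uS1_v, hb2 i hi, uc_uin_m, if_pos rfl, hE0]
    have h3 : (c : ℕ) < 1 := lt_of_lt_of_eq c.isLt (if_neg hi)
    have h2 : c = ⟨0, FreeU_two lab p q i⟩ := Fin.ext (by
      change (c : ℕ) = 0
      omega)
    rw [h2]

/-! ### uniqueness -/

private theorem FreeU_in_x (A : BN k P Q) (p : P) (q : Q) (t : P) (ht : t ≠ p) (b : A.M) :
    uin A p q p (A.x t b) = (uobj A p q).x t (uin A p q p b) := by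
  refine uobj_ext ?_ fun τ => ?_
  · rw [uc_x, ux_ne_v _ _ ht, uc_uin_v, uc_uin_v, map_zero]
  · rw [uc_x, ux_ne _ _ ht, uc_uin_m, uc_uin_m]
    by_cases hτ : τ = p
    · rw [if_pos hτ, if_pos hτ, A.x_E]
    · rw [if_neg hτ, if_neg hτ, map_zero]

private theorem FreeU_in_S (A : BN k P Q) (p : P) (q : Q) (t s : P) (hts : t ≠ s) (ht : t ≠ p)
    (hs : s ≠ p) (b : A.M) :
    uin A p q p (A.S t s b) = (uobj A p q).S t s (uin A p q p b) := by
  refine uobj_ext ?_ fun τ => ?_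
  · rw [uc_S, uS_ne_v _ _ hts ht hs, uc_uin_v, uc_uin_v, map_zero]
  · rw [uc_S, uS_ne _ _ hts ht hs, uc_uin_m, uc_uin_m]
    by_cases hτ : τ = p
    · rw [if_pos hτ, hτ, Equiv.swap_apply_of_ne_of_ne (Ne.symm ht) (Ne.symm hs), if_pos rfl,
        A.S_E' t s p q _ hts (Ne.symm ht) (Ne.symm hs)]
    · have h1 : Equiv.swap t s τ ≠ p := by
        intro h2
        apply hτ
        have h3 := congrArg (Equiv.swap t s) h2
        rw [Equiv.swap_apply_self, Equiv.swap_apply_of_ne_of_ne (Ne.symm ht) (Ne.symm hs)] at h3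
        exact h3
      rw [if_neg hτ, if_neg h1, map_zero]

private theorem FreeU_in_E (A : BN k P Q) (p : P) (q : Q) (t : P) (s : Q) (ht : t ≠ p)
    (hs : s ≠ q) (b : A.M) :
    uin A p q p (A.E t s b) = (uobj A p q).E t s (uin A p q p b) := by
  refine uobj_ext ?_ fun τ => ?_
  · rw [uc_E, uE_tu_v _ _ ht hs, uc_uin_v, uc_uin_v, map_zero]
  · rw [uc_E]
    by_cases hτ : τ = t
    · rw [hτ, uE_tu_t _ _ ht hs, uc_uin_m, if_neg ht]
    · rw [uE_tu_ne _ _ ht hs hτ, uc_uin_m, uc_uin_m]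
      by_cases hp : τ = p
      · rw [if_pos hp, if_pos hp, A.E_E]
      · rw [if_neg hp, if_neg hp, map_zero]

private theorem FreeU_in_pq (A : BN k P Q) (p : P) (q : Q) (b : A.M) :
    (uobj A p q).E p q (uin A p q p b) = uin A p q p b := by
  refine uobj_ext ?_ fun τ => ?_
  · rw [uc_E, uE_pq_v]
  · rw [uc_E]
    by_cases hτ : τ = p
    · rw [hτ, uE_pq_p]
    · rw [uE_pq_ne _ _ hτ, uc_uin_m, if_neg hτ]

private theorem FreeU_ext {I : Type} (lab : I → (P ≃ Q)) (A : BN k P Q) (g : I → A.M)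
    (h : IsFree lab A g) (p : P) (q : Q) (B : BN k P Q) (G G' : Hom (uobj A p q) B)
    (hG : ∀ j, G.1 (ugen' lab A g p q j) = G'.1 (ugen' lab A g p q j)) : G = G' := by
  let F : Hom (uobj A p q) B := G - G'
  have hFa : ∀ w, F.1 w = G.1 w - G'.1 w := fun w => rfl
  let γ : A.M →ₗ[k] B.M := F.1 ∘ₗ uin A p q p
  have hγ : ∀ y, γ y = F.1 (uin A p q p y) := fun y => rfl
  have hU : UHom A B p q γ := by
    refine ⟨fun b _ => ?_, fun t b ht _ => ?_, fun t s b hts ht hs _ => ?_,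
      fun t s b ht hs _ => ?_⟩
    · rw [hγ, ← F.2.2.2, FreeU_in_pq]
    · rw [hγ, hγ, FreeU_in_x A p q t ht, F.2.1]
    · rw [hγ, hγ, FreeU_in_S A p q t s hts ht hs, F.2.2.1 _ _ _ hts]
    · rw [hγ, hγ, FreeU_in_E A p q t s ht hs, F.2.2.2]
  obtain ⟨K, hK⟩ := umapU A B p q γ hU
  let f : Hom A (uobj B p q) := cmp K (ueta A p q)
  have hf1 : ∀ y, (uc B p q (f.1 y)).1 = γ (A.E p q y) := fun y => (hK _).1
  have hf2 : ∀ y τ, (uc B p q (f.1 y)).2 τ = γ ((uη A p q y).2 τ) := fun y τ => (hK _).2 τ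
  have hj : ∀ j, F.1 (ugen' lab A g p q j) = 0 := fun j => by
    rw [hFa, hG, sub_self]
  have hfg : ∀ i, f.1 (g i) = 0 := by
    intro i
    have hg := h.mem i
    have hj0 := hj ⟨i, ⟨0, FreeU_two lab p q i⟩⟩
    unfold ugen' at hj0
    by_cases hi : lab i p = q
    · have hlt : 1 < (if lab i p = q then 2 else 1) := by
        rw [if_pos hi]
        norm_num
      have hj1 := hj ⟨i, ⟨1, hlt⟩⟩
      unfold ugen' at hj1
      rw [if_pos hi, if_pos rfl] at hj0
      rw [if_pos hi, if_neg one_ne_zero] at hj1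
      have hgE : A.E p q (g i) = g i := by
        have h1 := hg p
        rw [hi] at h1
        exact h1
      refine uobj_ext ?_ fun τ => ?_
      · rw [hf1, hgE, hγ, hj0, map_zero]
        rfl
      · rw [hf2, map_zero]
        by_cases hτ : τ = p
        · rw [hτ, uη_p, hgE, hγ, hj1]
          rfl
        · have h2 : A.E τ q (g i) = 0 := by
            rw [← hgE]
            exact A.E_col _ _ _ _ hτ
          rw [uη_ne A _ hτ, h2, map_zero, map_zero]
          rfl
    · rw [if_neg hi] at hj0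
      have hr := FreeU_r_ne p q (lab i) hi
      have hgE : A.E ((lab i).symm q) q (g i) = g i := by
        have h1 := hg ((lab i).symm q)
        rw [Equiv.apply_symm_apply] at h1
        exact h1
      have h0 : ∀ τ, τ ≠ (lab i).symm q → A.E τ q (g i) = 0 := by
        intro τ hτ
        rw [← hgE]
        exact A.E_col _ _ _ _ hτ
      refine uobj_ext ?_ fun τ => ?_
      · rw [hf1, h0 p (Ne.symm hr), map_zero, map_zero]
        rfl
      · rw [hf2, map_zero]
        by_cases hτ : τ = p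
        · rw [hτ, uη_p, h0 p (Ne.symm hr), map_zero, map_zero]
          rfl
        · rw [uη_ne A _ hτ]
          by_cases hτr : τ = (lab i).symm q
          · rw [hτr, hgE, hγ, hj0]
            rfl
          · rw [h0 τ hτr, map_zero, map_zero]
            rfl
  have hf0 : f = 0 := h.ext (uobj B p q) f 0 fun i => by
    rw [hfg]
    rfl
  have hγ0 : ∀ y, γ (A.E p q y) = 0 := by
    intro y
    rw [← hf1, hf0]
    rfl
  refine U_ext A B p q G G' fun b hb => ?_
  have h1 : ugen A p q b hb = uin A p q p b := by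
    refine uobj_ext rfl fun τ => ?_
    rw [uc_uin_m]
    change Pi.single (M := fun _ : P => A.M) p b τ = _
    by_cases hτ : τ = p
    · rw [hτ, Pi.single_eq_same, if_pos rfl, hb]
    · rw [Pi.single_eq_of_ne hτ, if_neg hτ]
  have h2 := hγ0 b
  rw [hb, hγ, hFa] at h2
  rw [h1]
  exact sub_eq_zero.1 h2

theorem U_free {I : Type} (lab : I → (P ≃ Q)) (A : BN k P Q) (g : I → A.M)
    (h : IsFree lab A g) (p : P) (q : Q) :
    IsFree (fun j : Σ i, Fin (if lab i p = q then 2 else 1) => smooth p q (lab j.1))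
      (uobj A p q) (ugen' lab A g p q) :=
  ⟨FreeU_mem' lab A g h p q, fun B m hm => FreeU_hom lab A g h p q B m hm,
    fun B G G' hG => FreeU_ext lab A g h p q B G G' hG⟩

end Pool.Agent.Lib.MP_f2e65a_lc
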