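import Pool.Agent.Lib.MP_f2e65a_lc.RetA

/-! # Gauss: Gaussian elimination, abstractly

`D = C.d`, `e = D h + h D`, `E = 1 - e` (`gE`).  `e e = D h D h + D h h D + h D D h + h D h D = D h + h D = e` (`h D h = h`, `h h = 0`, `D D = 0`), so `E E = E`; `D E = D - D h D = E D`.
`D' = π (D - D h D) ι = π D E ι = π E D E ι`.
`f = E ι`, `g = π E`: `g f = π E ι = π ι - π D h ι - π h D ι = 1`; `f g = E ι π E = E` (`h6`); `f D' = (E ι π E) D E ι = E D E ι = D E ι = D f`, `D' g = π E D (E ι π E) = π E D E = π E D = g D`, `D' D' = g D f g D f = g D E D f = 0`.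
`Ret B C`: `ε = 1`, `f`, `g`, `h = 0`; `Ret C B`: `g`, `f` and the homotopy `- h`: `f g = 1 + (D (- h) + (- h) D)`. -/

set_option autoImplicit false
set_option linter.unusedVariables false

namespace Pool.Agent.Lib.MP_f2e65a_lc

variable {k : Type} [Field k] {P Q : Type} [Fintype P] [DecidableEq P] [Fintype Q]
  [DecidableEq Q]

/-- `1 - (D h + h D)` -/
def gE (C : Cx k P Q) (h : Hom C.A C.A) : Hom C.A C.A :=
  idH C.A - (cmp C.d h + cmp h C.d)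

/-- the differential after the elimination -/
def gD (C : Cx k P Q) (B : BN k P Q) (h : Hom C.A C.A) (ι : Hom B C.A) (π : Hom C.A B) :
    Hom B B := cmp π (cmp (C.d - cmp C.d (cmp h C.d)) ι)

theorem gauss (C : Cx k P Q) (B : BN k P Q) (h : Hom C.A C.A) (ι : Hom B C.A) (π : Hom C.A B)
    (h1 : cmp h (cmp C.d h) = h) (h2 : cmp h h = 0) (h3 : cmp π ι = idH B)
    (h4 : cmp h ι = 0) (h5 : cmp π h = 0)
    (h6 : cmp (gE C h) (cmp ι (cmp π (gE C h))) = gE C h) :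
    ∃ hd : cmp (gD C B h ι π) (gD C B h ι π) = 0,
      Ret (⟨B, gD C B h ι π, hd⟩ : Cx k P Q) C ∧ Ret C (⟨B, gD C B h ι π, hd⟩ : Cx k P Q) := by
  have a1 : ∀ m, h.1 (C.d.1 (h.1 m)) = h.1 m := fun m => congrArg (fun f : Hom C.A C.A => f.1 m) h1
  have a2 : ∀ m, h.1 (h.1 m) = 0 := fun m => congrArg (fun f : Hom C.A C.A => f.1 m) h2
  have a3 : ∀ m, π.1 (ι.1 m) = m := fun m => congrArg (fun f : Hom B B => f.1 m) h3
  have a4 : ∀ m, h.1 (ι.1 m) = 0 := fun m => congrArg (fun f : Hom B C.A => f.1 m) h4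
  have a5 : ∀ m, π.1 (h.1 m) = 0 := fun m => congrArg (fun f : Hom C.A B => f.1 m) h5
  have a6 : ∀ m, (gE C h).1 (ι.1 (π.1 ((gE C h).1 m))) = (gE C h).1 m :=
    fun m => congrArg (fun f : Hom C.A C.A => f.1 m) h6
  have dd : ∀ m, C.d.1 (C.d.1 m) = 0 := C.dd_apply
  have hE : ∀ m, (gE C h).1 m = m - (C.d.1 (h.1 m) + h.1 (C.d.1 m)) := fun m => rfl
  have hD : ∀ m, (gD C B h ι π).1 m = π.1 (C.d.1 (ι.1 m) - C.d.1 (h.1 (C.d.1 (ι.1 m)))) :=
    fun m => rfl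
  have b1 : ∀ m, h.1 ((gE C h).1 m) = 0 := fun m => by
    rw [hE, map_sub, map_add, a1, a2, add_zero, sub_self]
  have b2 : ∀ m, C.d.1 ((gE C h).1 m) = C.d.1 m - C.d.1 (h.1 (C.d.1 m)) := fun m => by
    rw [hE, map_sub, map_add, dd, zero_add]
  have b3 : ∀ m, (gE C h).1 (C.d.1 m) = C.d.1 m - C.d.1 (h.1 (C.d.1 m)) := fun m => by
    rw [hE, dd, map_zero, add_zero]
  have b4 : ∀ m, (gE C h).1 ((gE C h).1 m) = (gE C h).1 m := fun m => by
    rw [hE ((gE C h).1 m), b1, map_zero, zero_add, b2, map_sub, a1, sub_self, sub_zero]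
  have b5 : ∀ m, (gD C B h ι π).1 m = π.1 ((gE C h).1 (C.d.1 (ι.1 m))) := fun m => by
    rw [hD, b3]
  have b6 : ∀ m, C.d.1 ((gE C h).1 m) = (gE C h).1 (C.d.1 m) := fun m => by
    rw [b2, b3]
  have c1 : ∀ m, π.1 ((gE C h).1 ((gE C h).1 (ι.1 m))) = m := fun m => by
    rw [b4, hE, map_sub, map_add, a3, a4, map_zero, map_zero, a5, add_zero, sub_zero]
  have c2 : ∀ m, (gE C h).1 (ι.1 ((gD C B h ι π).1 m)) = C.d.1 ((gE C h).1 (ι.1 m)) := fun m => by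
    rw [b5, a6, b6]
  have c3 : ∀ m, π.1 ((gE C h).1 (C.d.1 m)) = (gD C B h ι π).1 (π.1 ((gE C h).1 m)) := fun m => by
    rw [b5, ← b6 (ι.1 (π.1 ((gE C h).1 m))), a6, b6]
  have hdd : cmp (gD C B h ι π) (gD C B h ι π) = 0 := by
    refine hom_ext fun m => ?_
    change (gD C B h ι π).1 ((gD C B h ι π).1 m) = 0
    have e1 := c1 ((gD C B h ι π).1 ((gD C B h ι π).1 m))
    rw [← e1, c2, c2, dd, map_zero, map_zero]
  refine ⟨hdd, ⟨1, cmp (gE C h) ι, cmp π (gE C h), 0, mul_one 1, ?_, ?_, ?_⟩,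
    ⟨1, cmp π (gE C h), cmp (gE C h) ι, -h, mul_one 1, ?_, ?_, ?_⟩⟩
  · rw [one_smul]
    exact hom_ext c2
  · rw [one_smul]
    exact hom_ext c3
  · rw [cmp_zero, zero_cmp, add_zero, add_zero]
    exact hom_ext c1
  · rw [one_smul]
    exact hom_ext c3
  · rw [one_smul]
    exact hom_ext c2
  · refine hom_ext fun m => ?_
    change (gE C h).1 (ι.1 (π.1 ((gE C h).1 m))) = m + (C.d.1 (-h.1 m) + -h.1 (C.d.1 m))
    rw [a6, hE, map_neg]
    abel

end Pool.Agent.Lib.MP_f2e65a_lc
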