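import Pool.Agent.Lib.MP_f2e65a_lc.Defs

/-! # RetB: dimension of the homology (linear algebra)

`hd δ = finrank (ker δ) - finrank (range δ)` (natural subtraction; `range δ ≤ ker δ` when `δ δ = 0`).
* `hd_le`: let `H = ker δ' ⧸ (range δ' as a submodule of ker δ')` (`Submodule.comap (ker δ').subtype (range δ')`), `finrank H = hd δ'` (`Submodule.finrank_quotient_add_finrank`, and
 the comap is isomorphic to `range δ'`: `Submodule.comapSubtypeEquivOfLe`).  `φ : ker δ → H`, `m ↦ [f m]` (`f m ∈ ker δ'` by `h1` and `ε ≠ 0`).  Its kernel is contained in `range δ`: `f m = δ' y`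
 gives `g f m = g δ' y = ε δ g y`, and `m = g f m - δ h m - h δ m = δ (ε g y - h m)`.  So `finrank (ker δ) ≤ finrank H + finrank (range δ)`
 (`LinearMap.finrank_range_add_finrank_ker`; the kernel of `φ` is a submodule of `ker δ`, its image in `V` is contained in `range δ`).
* `hd_ext`: `φ : ker δ → ker a ⧸ range a`, `v ↦ [π v]`.  Kernel `K`: `π v = a (π y) = π (δ y)` (`π` surjective), so `v - δ y = ι w` by `hex`, and `δ (ι w) = δ v - δ δ y = 0` gives `b w = 0`
 (`ι` injective, `c ≠ 0`).  So `K ≤ ι (ker b) + range δ`, and `ι (range b) ≤ ι (ker b) ∩ range δ` (`ι (b w) = c δ (ι w)`), hence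
 `finrank K ≤ finrank (ker b) + finrank (range δ) - finrank (range b)` (`Submodule.finrank_sup_add_finrank_inf_eq`, `LinearMap.finrank_map_eq`-like lemma for the injective `ι`:
 `LinearEquiv.finrank_eq (Submodule.equivMapOfInjective ..)`).  `finrank (ker δ) ≤ finrank K + hd a`. -/

set_option autoImplicit false
set_option linter.unusedVariables false

namespace Pool.Agent.Lib.MP_f2e65a_lc

variable {k : Type} [Field k]

private theorem RetB_rank {X Y : Type} [AddCommGroup X] [Module k X] [FiniteDimensional k X]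
    [AddCommGroup Y] [Module k Y] (ψ : X →ₗ[k] Y) (U : Submodule k X) :
    Module.finrank k (U.map ψ) + Module.finrank k (U ⊓ LinearMap.ker ψ : Submodule k X) =
      Module.finrank k U := by
  have h1 := LinearMap.finrank_range_add_finrank_ker (ψ.domRestrict U)
  have h2 : LinearMap.range (ψ.domRestrict U) = U.map ψ := by
    ext y
    constructor
    · rintro ⟨x, rfl⟩
      exact ⟨x, x.2, rfl⟩
    · rintro ⟨x, hx, rfl⟩
      exact ⟨⟨x, hx⟩, rfl⟩
  have h3 : (LinearMap.ker (ψ.domRestrict U)).map U.subtype = U ⊓ LinearMap.ker ψ := by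
    ext x
    constructor
    · rintro ⟨y, hy, rfl⟩
      exact ⟨y.2, hy⟩
    · rintro ⟨hx, hx'⟩
      exact ⟨⟨x, hx⟩, hx', rfl⟩
  rw [← h2, ← h3, Submodule.finrank_map_subtype_eq]
  exact h1

private theorem RetB_quot {X : Type} [AddCommGroup X] [Module k X] [FiniteDimensional k X]
    (δ : X →ₗ[k] X) (hδ : ∀ v, δ (δ v) = 0) :
    Module.finrank k ((LinearMap.ker δ).map (LinearMap.range δ).mkQ) +
      Module.finrank k (LinearMap.range δ) = Module.finrank k (LinearMap.ker δ) := by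
  have h1 := RetB_rank (LinearMap.range δ).mkQ (LinearMap.ker δ)
  have h2 : LinearMap.range δ ≤ LinearMap.ker δ := by
    rintro _ ⟨x, rfl⟩
    exact hδ x
  rw [Submodule.ker_mkQ, inf_eq_right.2 h2] at h1
  exact h1

theorem hd_le {V W : Type} [AddCommGroup V] [Module k V] [FiniteDimensional k V]
    [AddCommGroup W] [Module k W] [FiniteDimensional k W] (δ : V →ₗ[k] V) (δ' : W →ₗ[k] W)
    (hδ : ∀ v, δ (δ v) = 0) (hδ' : ∀ w, δ' (δ' w) = 0) (ε : k) (hε : ε * ε = 1)
    (f : V →ₗ[k] W) (g : W →ₗ[k] V) (h : V →ₗ[k] V) (h1 : ∀ v, f (δ v) = ε • δ' (f v))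
    (h2 : ∀ w, g (δ' w) = ε • δ (g w)) (h3 : ∀ v, g (f v) = v + (δ (h v) + h (δ v))) :
    hd δ ≤ hd δ' := by
  have hq := RetB_quot δ' hδ'
  have hr := RetB_rank ((LinearMap.range δ').mkQ.comp f) (LinearMap.ker δ)
  have hε0 : ε ≠ 0 := by
    rintro rfl
    rw [mul_zero] at hε
    exact zero_ne_one hε
  have hA : (LinearMap.ker δ).map ((LinearMap.range δ').mkQ.comp f) ≤
      (LinearMap.ker δ').map (LinearMap.range δ').mkQ := by
    rintro _ ⟨m, hm, rfl⟩
    refine ⟨f m, ?_, rfl⟩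
    have h4 := h1 m
    have hm' : δ m = 0 := hm
    rw [hm', map_zero] at h4
    exact (smul_eq_zero.1 h4.symm).resolve_left hε0
  have hB : LinearMap.ker δ ⊓ LinearMap.ker ((LinearMap.range δ').mkQ.comp f) ≤
      LinearMap.range δ := by
    rintro m ⟨hm, hm'⟩
    have h4 : f m ∈ LinearMap.range δ' := by
      have h5 : (LinearMap.range δ').mkQ (f m) = 0 := hm'
      rwa [Submodule.mkQ_apply, Submodule.Quotient.mk_eq_zero] at h5
    obtain ⟨y, hy⟩ := h4
    have h5 := h3 m
    have hm0 : δ m = 0 := hm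
    rw [hm0, map_zero, add_zero, ← hy, h2] at h5
    refine ⟨ε • g y - h m, ?_⟩
    rw [map_sub, map_smul, h5, add_sub_cancel_right]
  have e1 := Submodule.finrank_mono hA
  have e2 := Submodule.finrank_mono hB
  unfold hd
  omega

theorem hd_ext {V A B : Type} [AddCommGroup V] [Module k V] [FiniteDimensional k V]
    [AddCommGroup A] [Module k A] [FiniteDimensional k A] [AddCommGroup B] [Module k B]
    [FiniteDimensional k B] (δ : V →ₗ[k] V) (a : A →ₗ[k] A) (b : B →ₗ[k] B)
    (hδ : ∀ v, δ (δ v) = 0) (ha : ∀ v, a (a v) = 0) (hb : ∀ v, b (b v) = 0)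
    (ι : B →ₗ[k] V) (π : V →ₗ[k] A) (hι : Function.Injective ι) (hπ : Function.Surjective π)
    (h0 : ∀ w, π (ι w) = 0) (hex : ∀ v, π v = 0 → ∃ w, v = ι w) (c : k) (hc : c * c = 1)
    (h1 : ∀ v, π (δ v) = a (π v)) (h2 : ∀ w, δ (ι w) = c • ι (b w)) :
    hd δ ≤ hd a + hd b := by
  have hq := RetB_quot a ha
  have hr := RetB_rank ((LinearMap.range a).mkQ.comp π) (LinearMap.ker δ)
  have hc0 : c ≠ 0 := by
    rintro rfl
    rw [mul_zero] at hc
    exact zero_ne_one hc
  have hA : (LinearMap.ker δ).map ((LinearMap.range a).mkQ.comp π) ≤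
      (LinearMap.ker a).map (LinearMap.range a).mkQ := by
    rintro _ ⟨m, hm, rfl⟩
    refine ⟨π m, ?_, rfl⟩
    have h4 := h1 m
    have hm' : δ m = 0 := hm
    rw [hm', map_zero] at h4
    exact h4.symm
  have hB : LinearMap.ker δ ⊓ LinearMap.ker ((LinearMap.range a).mkQ.comp π) ≤
      (LinearMap.ker b).map ι ⊔ LinearMap.range δ := by
    rintro v ⟨hv, hv'⟩
    have h4 : π v ∈ LinearMap.range a := by
      have h5 : (LinearMap.range a).mkQ (π v) = 0 := hv'
      rwa [Submodule.mkQ_apply, Submodule.Quotient.mk_eq_zero] at h5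
    obtain ⟨z, hz⟩ := h4
    obtain ⟨y, rfl⟩ := hπ z
    have h5 : π (v - δ y) = 0 := by rw [map_sub, h1, hz, sub_self]
    obtain ⟨w, hw⟩ := hex _ h5
    have hv0 : δ v = 0 := hv
    have h6 : c • ι (b w) = 0 := by rw [← h2, ← hw, map_sub, hδ, hv0, sub_self]
    have h7 : ι (b w) = 0 := (smul_eq_zero.1 h6).resolve_left hc0
    have h8 : b w = 0 := by
      apply hι
      rw [h7, map_zero]
    refine Submodule.mem_sup.2 ⟨ι w, ⟨w, h8, rfl⟩, δ y, ⟨y, rfl⟩, ?_⟩
    rw [← hw, sub_add_cancel]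
  have hC : (LinearMap.range b).map ι ≤ (LinearMap.ker b).map ι ⊓ LinearMap.range δ := by
    rintro _ ⟨_, ⟨w, rfl⟩, rfl⟩
    refine ⟨⟨b w, hb w, rfl⟩, ⟨c • ι w, ?_⟩⟩
    rw [map_smul, h2, smul_smul, hc, one_smul]
  have e1 := Submodule.finrank_mono hA
  have e2 := Submodule.finrank_mono hB
  have e3 := Submodule.finrank_mono hC
  have e4 := Submodule.finrank_sup_add_finrank_inf_eq ((LinearMap.ker b).map ι)
    (LinearMap.range δ)
  have e5 := LinearEquiv.finrank_eq (Submodule.equivMapOfInjective ι hι (LinearMap.ker b))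
  have e6 := LinearEquiv.finrank_eq (Submodule.equivMapOfInjective ι hι (LinearMap.range b))
  have e7 : LinearMap.range b ≤ LinearMap.ker b := by
    rintro _ ⟨x, rfl⟩
    exact hb x
  have e8 := Submodule.finrank_mono e7
  unfold hd
  omega

end Pool.Agent.Lib.MP_f2e65a_lc
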