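import Pool.Agent.Lib.MP_f2e65a_lc.RetDefs
import Pool.Agent.Lib.MP_f2e65a_lc.RetB

/-! # RetC: tests of retracts and of cones; `U` as a composition

* `N_le`: apply `T` to the maps of `Ret` and use `hd_le` (`T.map_cmp`, `T.map_add`, `T.map_smul`, `T.map_id`; `D.dd` gives `δ δ = 0`, `Tst.map_zero`).
* `N_cone_le`: `hd_ext` for `V = T (A ⊕ G A)`, `ι = T (inrH)`, `π = T (fstH)`, `c = -1`: injective by `T sndH ∘ T inrH = id`, surjective by `T fstH ∘ T inlH = id`; if `T fstH v = 0` then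
 `v = T (inl fst + inr snd) v = T inrH (T sndH v)` (`inl_fst_add`).  `fstH ∘ D̂ = d ∘ fstH` and `D̂ ∘ inrH = - inrH ∘ G(d)` (by `hom_ext`, `cone_d_apply`).
* `U_iso`: `f := uΦ D.A e f he hf` is a morphism `uobj D.A p q → (cupF e f).obj ((capF e f).obj D.A)` by `uΦ_x'`, `uΦ_S'`, `uΦ_E'`, it is injective (`uΦ_injective`) and
 surjective: for `z = (v, τ ↦ m τ)` in `CupM (capObj ((relabel e f).obj A))` take the element `(capι v, τ ↦ capι (m (e.symm τ)))` of `Usub A p q` (`capι_E_none`; `subst he hf`).  So it has a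
 linear inverse (`LinearEquiv.ofBijective`), which is a morphism (general fact: the inverse of a bijective morphism is a morphism, `homInv` below).  Compatibility with the differentials: `uΦ_map`. -/

set_option autoImplicit false
set_option linter.unusedVariables false

namespace Pool.Agent.Lib.MP_f2e65a_lc

variable {k : Type} [Field k] {P Q P' Q' : Type} [Fintype P] [DecidableEq P] [Fintype Q]
  [DecidableEq Q] [Fintype P'] [DecidableEq P'] [Fintype Q'] [DecidableEq Q']

theorem N_le (T : Tst k P Q) {C D : Cx k P Q} (h : Ret C D) : T.N C ≤ T.N D := by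
  obtain ⟨ε, f, g, h, hε, h1, h2, h3⟩ := h
  unfold Tst.N
  refine hd_le (T.map C.d) (T.map D.d) ?_ ?_ ε hε (T.map f) (T.map g) (T.map h) ?_ ?_ ?_
  · intro v
    rw [← LinearMap.comp_apply, ← T.map_cmp, C.dd, T.map_zero, LinearMap.zero_apply]
  · intro v
    rw [← LinearMap.comp_apply, ← T.map_cmp, D.dd, T.map_zero, LinearMap.zero_apply]
  · intro v
    rw [← LinearMap.comp_apply, ← T.map_cmp, h1, T.map_smul, T.map_cmp]
    rfl
  · intro w
    rw [← LinearMap.comp_apply, ← T.map_cmp, h2, T.map_smul, T.map_cmp]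
    rfl
  · intro v
    rw [← LinearMap.comp_apply, ← T.map_cmp, h3, T.map_add, T.map_add, T.map_cmp, T.map_cmp,
      T.map_id]
    rfl

private theorem retC_cc (T : Tst k P Q) {A B C : BN k P Q} (g : Hom B C) (f : Hom A B)
    (h : Hom A C) (e : cmp g f = h) (v : T.obj A) : T.map g (T.map f v) = T.map h v := by
  rw [← e, T.map_cmp]
  rfl

private theorem retC_00 (T : Tst k P Q) {A B C : BN k P Q} (g : Hom B C) (f : Hom A B)
    (e : cmp g f = 0) (v : T.obj A) : T.map g (T.map f v) = 0 := by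
  rw [retC_cc T g f 0 e v, T.map_zero]
  rfl

private theorem retC_ii (T : Tst k P Q) {A B : BN k P Q} (g : Hom B A) (f : Hom A B)
    (e : cmp g f = idH A) (v : T.obj A) : T.map g (T.map f v) = v := by
  rw [retC_cc T g f _ e v, T.map_id]
  rfl

theorem N_cone_le (T : Tst k P Q) (G : PFct k P Q) (D : Cx k P Q) :
    T.N (cone G D) ≤ T.N D + (T.pull G.toFct).N D := by
  have key : ∀ (A B V : BN k P Q) (d : Hom V V) (a : Hom A A) (b : Hom B B) (i1 : Hom A V)
      (i2 : Hom B V) (p1 : Hom V A) (p2 : Hom V B), cmp d d = 0 → cmp a a = 0 → cmp b b = 0 →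
      cmp p1 i1 = idH A → cmp p2 i2 = idH B → cmp p1 i2 = 0 →
      cmp i1 p1 + cmp i2 p2 = idH V → cmp p1 d = cmp a p1 → cmp d i2 = (-1 : k) • cmp i2 b →
      hd (T.map d) ≤ hd (T.map a) + hd (T.map b) := by
    intro A B V d a b i1 i2 p1 p2 hd0 ha0 hb0 h11 h22 h12 hsum hfst hinr
    refine hd_ext (T.map d) (T.map a) (T.map b) (retC_00 T _ _ hd0) (retC_00 T _ _ ha0)
      (retC_00 T _ _ hb0) (T.map i2) (T.map p1) ?_ (fun v => ⟨_, retC_ii T _ _ h11 v⟩)
      (retC_00 T _ _ h12) ?_ (-1) (by ring) ?_ ?_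
    · intro v w hvw
      rw [← retC_ii T _ _ h22 v, hvw, retC_ii T _ _ h22 w]
    · intro v hv
      refine ⟨T.map p2 v, ?_⟩
      have h1 : T.map (cmp i1 p1 + cmp i2 p2) v = v := by
        rw [hsum, T.map_id]
        rfl
      rw [T.map_add, T.map_cmp, T.map_cmp, LinearMap.add_apply, LinearMap.comp_apply,
        LinearMap.comp_apply, hv, _root_.map_zero, zero_add] at h1
      exact h1.symm
    · intro v
      rw [retC_cc T _ _ _ hfst v, T.map_cmp]
      rfl
    · intro w
      rw [retC_cc T _ _ _ hinr w, T.map_smul, T.map_cmp]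
      rfl
  exact key D.A (G.obj D.A) (D.A.prod (G.obj D.A)) (coneD G D) D.d (G.map D.d)
    (inlH D.A (G.obj D.A)) (inrH D.A (G.obj D.A)) (fstH D.A (G.obj D.A)) (sndH D.A (G.obj D.A))
    (cone G D).dd D.dd (G.toFct.cx D).dd (fst_inl _ _) (snd_inr _ _) (fst_inr _ _)
    (inl_fst_add _ _) rfl (hom_ext fun m => by
      refine Prod.ext ?_ ?_
      · change D.d.1 (0 : D.A.M) = (-1 : k) • (0 : D.A.M)
        rw [_root_.map_zero, smul_zero]
      · change (G.eta D.A).1 (0 : D.A.M) - (G.map D.d).1 m = (-1 : k) • (G.map D.d).1 m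
        rw [_root_.map_zero, zero_sub, neg_one_smul])

/-- a bijective morphism is an isomorphism -/
theorem homInv {A B : BN k P Q} (f : Hom A B) (hf : Function.Bijective f.1) :
    ∃ g : Hom B A, cmp g f = idH A ∧ cmp f g = idH B := by
  have h1 : ∀ b, f.1 ((LinearEquiv.ofBijective f.1 hf).symm b) = b := fun b =>
    (LinearEquiv.ofBijective f.1 hf).apply_symm_apply b
  refine ⟨⟨(LinearEquiv.ofBijective f.1 hf).symm.toLinearMap, fun p m => hf.1 ?_,
    fun p r m h => hf.1 ?_, fun p q m => hf.1 ?_⟩, hom_ext fun m => hf.1 ?_, hom_ext fun m => ?_⟩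
  · rw [f.2.1]
    exact (h1 _).trans (congrArg (B.x p) (h1 m).symm)
  · rw [f.2.2.1 p r _ h]
    exact (h1 _).trans (congrArg (B.S p r) (h1 m).symm)
  · rw [f.2.2.2]
    exact (h1 _).trans (congrArg (B.E p q) (h1 m).symm)
  · exact h1 _
  · exact h1 _

theorem U_iso (D : Cx k P Q) {p : P} {q : Q} (e : Option P' ≃ P) (f : Option Q' ≃ Q)
    (he : e none = p) (hf : f none = q) :
    Iso ((U k p q).toFct.cx D) ((cupF e f).cx ((capF e f).cx D)) := by
  let F : Hom (uobj D.A p q) ((cupF e f).obj ((capF e f).obj D.A)) :=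
    ⟨uΦ D.A e f he hf, fun t m => uΦ_x' D.A e f he hf t m,
      fun t s m h => uΦ_S' D.A e f he hf t s h m, fun t s m => uΦ_E' D.A e f he hf t s m⟩
  have hbij : Function.Bijective F.1 := by
    refine ⟨uΦ_injective D.A e f he hf, ?_⟩
    subst he hf
    intro (z : CupM (capObj ((relabel e f).obj D.A)))
    have hmem : ((capι ((relabel e f).obj D.A) z.1,
        fun τ => capι ((relabel e f).obj D.A) (z.2 (e.symm τ))) : UW D.A) ∈
        Usub D.A (e none) (f none) :=
      ⟨capι_E_none ((relabel e f).obj D.A) z.1,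
        fun τ => capι_E_none ((relabel e f).obj D.A) (z.2 (e.symm τ))⟩
    refine ⟨(⟨_, hmem⟩ : Usub D.A (e none) (f none)), ?_⟩
    refine Prod.ext (capι_injective _ rfl) (funext fun τ => capι_injective _ ?_)
    change capι ((relabel e f).obj D.A) (z.2 (e.symm (e τ))) = _
    rw [e.symm_apply_apply]
  obtain ⟨G, hG1, hG2⟩ := homInv F hbij
  exact ⟨F, G, hG1, hG2, hom_ext fun m => uΦ_map D.d e f he hf m⟩

end Pool.Agent.Lib.MP_f2e65a_lc
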