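import Pool.Agent.Lib.MP_f2e65a_lc.StDefs
import Pool.Agent.Lib.MP_f2e65a_lc.FreeU
import Pool.Agent.Lib.MP_f2e65a_lc.RetC

/-! # Glue: gluing a crossing

`A = s.tot.A`.  `Glue p q s s'`: the complex of `s'` is isomorphic to the cone of `s.tot ⟶ U p q s.tot` and its generators are those of `s` and, in degree `+ 1`, the smoothing of `lab i` at `p`, `q` (twice, if a circle is created, i.e. `lab i p = q`).
* `grP`: the projection to degree `t`.  `gr_comm`: if `entry D i j ≠ 0 → deg j = deg i + 1` then `D ∘ grP t = grP (t + 1) ∘ D`: compare entries (`entry_ext`, `entry_cmp`): `entry (grP t) i j = if i = j ∧ deg i = t then id else 0`, i.e. it is `0` for `i ≠ j` (`prj_inc_ne`).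
 `gr_conv`: conversely: `D inc i = D (grP (deg i)) inc i = grP (deg i + 1) D inc i`, and `prj j ∘ grP (deg i + 1) = 0` unless `deg j = deg i + 1`.
* `exists_glue`: `h1 : IsFree s.lab A (inc i (gΦ ..))` (`isFree_pi`, `Φ_free`), `h2 = U_free`, `h3 = isFree_prod h1 h2` for `A.prod (uobj A p q) = (cross p q s.tot).A`; `lab' = Sum.elim s.lab (fun j => smooth p q (s.lab j.1))`, `h4 = isFree_pi` for `BN.pi (Φ ∘ lab')`; `isFree_iso h4 h3` gives `f`, `f'`.
 `D̂ = (cross p q s.tot).d`, `D' = f' D̂ f`, `d' = entry D'` (so `mat d' = D'`, `mat_entry`), `deg' = Sum.elim s.deg (fun j => s.deg j.1 + 1)`.  `d'_d'`: entries of `D' D' = f' D̂ D̂ f = 0`.  The isomorphism is `f`.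
 Degrees: `ĝ t = inlH ∘ grP t ∘ fstH + inrH ∘ (U k p q).map (grP (t - 1)) ∘ sndH`; `D̂ ĝ t = ĝ (t + 1) D̂`: on `(m, w)`: `(d gr_t m, η gr_t m - U(d) U(gr_{t-1}) w) = (gr_{t+1} d m, U(gr_t) (η m - U(d) w))` by `gr_comm`, `nat`, `map_cmp`.  `f ∘ grP' t = ĝ t ∘ f`: by `h4.ext` on the generators: `grP' t (inc j g) = inc j g` or `0`; for `j = inl i`:
 `f (..) = inlH (inc i g)`, `ĝ t` keeps it iff `deg i = t`; for `j = inr ⟨i, c⟩`: `f (..) = inrH (ugen' .. ⟨i, c⟩)`, and `U(γ) (uin p b) = uin p (γ b)` for a morphism `γ = grP (t - 1)` (`uc_map`), `b = g i, x p (g i), S p r (g i)` with `g i = inc i (gΦ ..)`, `γ (g i) = g i` if `deg i = t - 1`, else `0`; and `γ` commutes with `x p`, `S p r` (if `p = r` is possible? no: `r ≠ p` since `lab i p ≠ q`).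
 So `D' grP' t = f' D̂ f grP' t = f' D̂ ĝ t f = f' ĝ (t + 1) D̂ f = grP' (t + 1) f' D̂ f`, and `gr_conv` gives `d_deg`.
 Labels: `e = Equiv.refl`. -/

set_option autoImplicit false
set_option linter.unusedVariables false
set_option linter.unusedSectionVars false

namespace Pool.Agent.Lib.MP_f2e65a_lc

variable {k : Type} [Field k] {P Q : Type} [Fintype P] [DecidableEq P] [Fintype Q]
  [DecidableEq Q]

/-- projection to the degree `t` -/
def grP {I : Type} [Fintype I] [DecidableEq I] (A : I → BN k P Q) (deg : I → ℤ) (t : ℤ) :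
    Hom (BN.pi A) (BN.pi A) := ∑ i, if deg i = t then cmp (inc A i) (prj A i) else 0

private theorem glue_gr_inc {I : Type} [Fintype I] [DecidableEq I] (A : I → BN k P Q)
    (deg : I → ℤ) (t : ℤ) (i : I) :
    cmp (grP A deg t) (inc A i) = if deg i = t then inc A i else 0 := by
  unfold grP
  rw [sum_cmp, Finset.sum_eq_single i]
  · by_cases h : deg i = t
    · rw [if_pos h, if_pos h, cmp_assoc, prj_inc, cmp_id]
    · rw [if_neg h, if_neg h, zero_cmp]
  · intro j _ hj
    by_cases h : deg j = t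
    · rw [if_pos h, cmp_assoc, prj_inc_ne A hj, cmp_zero]
    · rw [if_neg h, zero_cmp]
  · intro h
    exact absurd (Finset.mem_univ i) h

private theorem glue_gr_prj {I : Type} [Fintype I] [DecidableEq I] (A : I → BN k P Q)
    (deg : I → ℤ) (t : ℤ) (i : I) :
    cmp (prj A i) (grP A deg t) = if deg i = t then prj A i else 0 := by
  unfold grP
  rw [cmp_sum, Finset.sum_eq_single i]
  · by_cases h : deg i = t
    · rw [if_pos h, if_pos h, ← cmp_assoc, prj_inc, id_cmp]
    · rw [if_neg h, if_neg h, cmp_zero]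
  · intro j _ hj
    by_cases h : deg j = t
    · rw [if_pos h, ← cmp_assoc, prj_inc_ne A hj.symm, zero_cmp]
    · rw [if_neg h, cmp_zero]
  · intro h
    exact absurd (Finset.mem_univ i) h

private theorem glue_entry_l {I : Type} [Fintype I] [DecidableEq I] (A : I → BN k P Q)
    (deg : I → ℤ) (D : Hom (BN.pi A) (BN.pi A)) (t : ℤ) (i j : I) :
    entry (cmp D (grP A deg t)) i j = if deg i = t then entry D i j else 0 := by
  unfold entry
  rw [cmp_assoc, glue_gr_inc]
  by_cases h : deg i = t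
  · rw [if_pos h, if_pos h]
  · rw [if_neg h, if_neg h, cmp_zero, cmp_zero]

private theorem glue_entry_r {I : Type} [Fintype I] [DecidableEq I] (A : I → BN k P Q)
    (deg : I → ℤ) (D : Hom (BN.pi A) (BN.pi A)) (t : ℤ) (i j : I) :
    entry (cmp (grP A deg t) D) i j = if deg j = t then entry D i j else 0 := by
  unfold entry
  rw [cmp_assoc, ← cmp_assoc, glue_gr_prj]
  by_cases h : deg j = t
  · rw [if_pos h, if_pos h]
  · rw [if_neg h, if_neg h, zero_cmp]

theorem gr_comm {I : Type} [Fintype I] [DecidableEq I] (A : I → BN k P Q) (deg : I → ℤ)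
    (D : Hom (BN.pi A) (BN.pi A)) (h : ∀ i j, entry D i j ≠ 0 → deg j = deg i + 1) (t : ℤ) :
    cmp D (grP A deg t) = cmp (grP A deg (t + 1)) D := by
  refine entry_ext fun i j => ?_
  rw [glue_entry_l, glue_entry_r]
  by_cases h0 : entry D i j = 0
  · rw [h0, ite_self, ite_self]
  · have h1 := h i j h0
    by_cases h2 : deg i = t
    · rw [if_pos h2, if_pos (by omega)]
    · rw [if_neg h2, if_neg (by omega)]

theorem gr_conv {I : Type} [Fintype I] [DecidableEq I] (A : I → BN k P Q) (deg : I → ℤ)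
    (D : Hom (BN.pi A) (BN.pi A))
    (h : ∀ t, cmp D (grP A deg t) = cmp (grP A deg (t + 1)) D) (i j : I)
    (hij : entry D i j ≠ 0) : deg j = deg i + 1 := by
  by_contra h1
  have h2 := congrArg (fun F => entry F i j) (h (deg i))
  change entry (cmp D (grP A deg (deg i))) i j = entry (cmp (grP A deg (deg i + 1)) D) i j at h2
  rw [glue_entry_l, glue_entry_r, if_pos rfl, if_neg h1] at h2
  exact hij h2

/-- `s'` is a state for the complex of `s` with a crossing glued at `p`, `q`, circles being removed -/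
structure Glue (p : P) (q : Q) (s s' : St k P Q) : Prop where
  iso : Iso s'.tot (cross p q s.tot)
  gens : ∃ e : s'.I ≃ s.I ⊕ (Σ i : s.I, Fin (if s.lab i p = q then 2 else 1)),
    (∀ i, s'.lab (e.symm (Sum.inl i)) = s.lab i ∧ s'.deg (e.symm (Sum.inl i)) = s.deg i) ∧
    ∀ j, s'.lab (e.symm (Sum.inr j)) = smooth p q (s.lab j.1) ∧
      s'.deg (e.symm (Sum.inr j)) = s.deg j.1 + 1

/-- the grading of the cone -/
private def glue_gr (A : BN k P Q) (p : P) (q : Q) (γ γ' : Hom A A) :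
    Hom (A.prod (uobj A p q)) (A.prod (uobj A p q)) :=
  cmp (inlH A (uobj A p q)) (cmp γ (fstH A (uobj A p q))) +
    cmp (inrH A (uobj A p q)) (cmp ((U k p q).map γ') (sndH A (uobj A p q)))

private theorem glue_gr_apply (A : BN k P Q) (p : P) (q : Q) (γ γ' : Hom A A) (m : A.M)
    (w : (uobj A p q).M) :
    (glue_gr A p q γ γ').1 ((m, w) : A.M × (uobj A p q).M) =
      ((γ.1 m, ((U k p q).map γ').1 w) : A.M × (uobj A p q).M) := by
  refine Prod.ext ?_ ?_
  · change γ.1 m + 0 = γ.1 m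
    rw [add_zero]
  · change 0 + ((U k p q).map γ').1 w = ((U k p q).map γ').1 w
    rw [zero_add]

private theorem glue_cone_comm (D : Cx k P Q) (p : P) (q : Q) (γ γ' γ'' : Hom D.A D.A)
    (h1 : cmp D.d γ = cmp γ'' D.d) (h2 : cmp D.d γ' = cmp γ D.d) :
    cmp (cross p q D).d (glue_gr D.A p q γ γ') = cmp (glue_gr D.A p q γ'' γ) (cross p q D).d := by
  refine hom_ext fun (z : D.A.M × (uobj D.A p q).M) => ?_
  obtain ⟨m, w⟩ := z
  change (cone (U k p q) D).d.1 ((glue_gr D.A p q γ γ').1 ((m, w) : D.A.M × (uobj D.A p q).M)) =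
    (glue_gr D.A p q γ'' γ).1 ((cone (U k p q) D).d.1 ((m, w) : D.A.M × (uobj D.A p q).M))
  rw [glue_gr_apply]
  refine ((cone_d_apply (U k p q) D _ _).trans ?_).trans
    (congrArg (glue_gr D.A p q γ'' γ).1 (cone_d_apply (U k p q) D m w)).symm
  refine Eq.trans ?_ (glue_gr_apply D.A p q γ'' γ _ _).symm
  have e1 : D.d.1 (γ.1 m) = γ''.1 (D.d.1 m) := congrArg (fun F => F.1 m) h1
  have e2 : ((U k p q).eta D.A).1 (γ.1 m) = ((U k p q).map γ).1 (((U k p q).eta D.A).1 m) :=
    (congrArg (fun F => F.1 m) ((U k p q).nat γ)).symm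
  have e3 : ((U k p q).map D.d).1 (((U k p q).map γ').1 w) =
      ((U k p q).map γ).1 (((U k p q).map D.d).1 w) := by
    have e4 : cmp ((U k p q).map D.d) ((U k p q).map γ') =
        cmp ((U k p q).map γ) ((U k p q).map D.d) := by
      rw [← (U k p q).map_cmp, ← (U k p q).map_cmp, h2]
    exact congrArg (fun F => F.1 w) e4
  refine Prod.ext e1 ?_
  change ((U k p q).eta D.A).1 (γ.1 m) - ((U k p q).map D.d).1 (((U k p q).map γ').1 w) =
    ((U k p q).map γ).1 (((U k p q).eta D.A).1 m - ((U k p q).map D.d).1 w)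
  rw [map_sub, e2, e3]

private theorem glue_uin {A : BN k P Q} (p : P) (q : Q) (γ : Hom A A) (b : A.M) :
    ((U k p q).map γ).1 (uin A p q p b) = uin A p q p (γ.1 b) := by
  refine uobj_ext ?_ fun τ => ?_
  · rw [uc_map, umapW_v, uc_uin_v, uc_uin_v, map_zero]
  · rw [uc_map, umapW_m, uc_uin_m, uc_uin_m]
    by_cases h : τ = p
    · rw [if_pos h, if_pos h, γ.2.2.2]
    · rw [if_neg h, if_neg h, map_zero]

private theorem glue_ugen {I : Type} (lab : I → (P ≃ Q)) (A : BN k P Q) (g : I → A.M) (p : P)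
    (q : Q) (γ : Hom A A) (c : I → k) (hγ : ∀ i, γ.1 (g i) = c i • g i)
    (j : Σ i, Fin (if lab i p = q then 2 else 1)) :
    ((U k p q).map γ).1 (ugen' lab A g p q j) = c j.1 • ugen' lab A g p q j := by
  unfold ugen'
  by_cases h : lab j.1 p = q
  · rw [if_pos h]
    by_cases h0 : (j.2 : ℕ) = 0
    · rw [if_pos h0, glue_uin, hγ, map_smul]
    · rw [if_neg h0, glue_uin, γ.2.1, hγ, map_smul, map_smul]
  · rw [if_neg h, glue_uin]
    have hne : p ≠ (lab j.1).symm q := by
      intro h1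
      exact h ((congrArg (lab j.1) h1).trans ((lab j.1).apply_symm_apply q))
    rw [γ.2.2.1 _ _ _ hne, hγ, map_smul, map_smul]

private theorem glue_gr_g {I : Type} [Fintype I] [DecidableEq I] (A : I → BN k P Q)
    (deg : I → ℤ) (t : ℤ) (i : I) (g : (A i).M) :
    (grP A deg t).1 ((inc A i).1 g) = (if deg i = t then (1 : k) else 0) • (inc A i).1 g := by
  have h := congrArg (fun F => F.1 g) (glue_gr_inc A deg t i)
  refine Eq.trans h ?_
  by_cases h1 : deg i = t
  · rw [if_pos h1, if_pos h1, one_smul]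
  · rw [if_neg h1, if_neg h1, zero_smul]
    rfl

/-- the gluing, for an abstract complex `C` free on `g` -/
private theorem glue_abs {I : Type} (lab : I → (P ≃ Q)) (deg : I → ℤ) (C : Cx k P Q)
    (g : I → C.A.M) (p : P) (q : Q) (γ : ℤ → Hom C.A C.A)
    (hγ : ∀ t i, (γ t).1 (g i) = (if deg i = t then (1 : k) else 0) • g i)
    (hcomm : ∀ t, cmp C.d (γ t) = cmp (γ (t + 1)) C.d) (B : BN k P Q)
    (b : (I ⊕ (Σ i : I, Fin (if lab i p = q then 2 else 1))) → B.M)
    (lab' : (I ⊕ (Σ i : I, Fin (if lab i p = q then 2 else 1))) → (P ≃ Q))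
    (hb : IsFree lab' B b)
    (γ' : ℤ → Hom B B)
    (hγ' : ∀ t j, (γ' t).1 (b j) = (if Sum.elim deg
      (fun j : Σ i : I, Fin (if lab i p = q then 2 else 1) => deg j.1 + 1) j = t
        then (1 : k) else 0) • b j)
    (f : Hom B (C.A.prod (uobj C.A p q))) (f' : Hom (C.A.prod (uobj C.A p q)) B)
    (hff : cmp f' f = idH B) (hff' : cmp f f' = idH (C.A.prod (uobj C.A p q)))
    (hfl : ∀ i, f.1 (b (Sum.inl i)) = (inlH C.A (uobj C.A p q)).1 (g i))
    (hfr : ∀ j, f.1 (b (Sum.inr j)) = (inrH C.A (uobj C.A p q)).1 (ugen' lab C.A g p q j))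
    (D : Hom (C.A.prod (uobj C.A p q)) (C.A.prod (uobj C.A p q)))
    (hD : D = (cross p q C).d) (t : ℤ) :
    cmp (cmp f' (cmp D f)) (γ' t) = cmp (γ' (t + 1)) (cmp f' (cmp D f)) := by
  have hG : ∀ t, cmp D (glue_gr C.A p q (γ t) (γ (t - 1))) =
      cmp (glue_gr C.A p q (γ (t + 1)) (γ (t + 1 - 1))) D := by
    intro t
    have e1 := hcomm (t - 1)
    rw [sub_add_cancel] at e1
    have e2 := glue_cone_comm C p q (γ t) (γ (t - 1)) (γ (t + 1)) (hcomm t) e1
    rw [add_sub_cancel_right, hD]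
    exact e2
  have hfG : ∀ t, cmp f (γ' t) = cmp (glue_gr C.A p q (γ t) (γ (t - 1))) f := by
    intro t
    refine hb.ext _ _ _ fun j => ?_
    change f.1 ((γ' t).1 (b j)) = (glue_gr C.A p q (γ t) (γ (t - 1))).1 (f.1 (b j))
    rw [hγ', map_smul]
    rcases j with i | j
    · rw [hfl]
      change (if deg i = t then (1 : k) else 0) • (inlH C.A (uobj C.A p q)).1 (g i) =
        (glue_gr C.A p q (γ t) (γ (t - 1))).1 ((g i, 0) : C.A.M × (uobj C.A p q).M)
      refine Eq.trans ?_ (glue_gr_apply C.A p q _ _ _ _).symm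
      refine Prod.ext ?_ ?_
      · exact (hγ t i).symm
      · change (if deg i = t then (1 : k) else 0) • (0 : (uobj C.A p q).M) =
          ((U k p q).map (γ (t - 1))).1 0
        exact (smul_zero _).trans (map_zero _).symm
    · rw [hfr]
      change (if deg j.1 + 1 = t then (1 : k) else 0) • (inrH C.A (uobj C.A p q)).1
        (ugen' lab C.A g p q j) = (glue_gr C.A p q (γ t) (γ (t - 1))).1
          ((0, ugen' lab C.A g p q j) : C.A.M × (uobj C.A p q).M)
      refine Eq.trans ?_ (glue_gr_apply C.A p q _ _ _ _).symm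
      have e5 : (if deg j.1 + 1 = t then (1 : k) else 0) =
          if deg j.1 = t - 1 then (1 : k) else 0 := by
        by_cases h : deg j.1 + 1 = t
        · rw [if_pos h, if_pos (by omega)]
        · rw [if_neg h, if_neg (by omega)]
      rw [e5]
      refine Prod.ext ?_ ?_
      · change (if deg j.1 = t - 1 then (1 : k) else 0) • (0 : C.A.M) = (γ t).1 0
        exact (smul_zero _).trans (map_zero _).symm
      · exact (glue_ugen lab C.A g p q (γ (t - 1))
          (fun i => if deg i = t - 1 then (1 : k) else 0) (hγ (t - 1)) j).symm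
  have hf'G : ∀ t, cmp (γ' t) f' = cmp f' (glue_gr C.A p q (γ t) (γ (t - 1))) := by
    intro t
    have e1 : cmp (γ' t) f' = cmp (cmp f' f) (cmp (γ' t) f') := by
      rw [hff, id_cmp]
    have e2 : cmp (cmp f' f) (cmp (γ' t) f') = cmp f' (cmp (cmp f (γ' t)) f') := rfl
    have e3 : cmp f' (cmp (cmp (glue_gr C.A p q (γ t) (γ (t - 1))) f) f') =
        cmp f' (cmp (glue_gr C.A p q (γ t) (γ (t - 1))) (cmp f f')) := rfl
    rw [e1, e2, hfG, e3, hff', cmp_id]
  have e1 : cmp (cmp f' (cmp D f)) (γ' t) = cmp f' (cmp D (cmp f (γ' t))) := rfl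
  have e2 : cmp (γ' (t + 1)) (cmp f' (cmp D f)) = cmp (cmp (γ' (t + 1)) f') (cmp D f) := rfl
  have e3 : cmp f' (cmp D (cmp (glue_gr C.A p q (γ t) (γ (t - 1))) f)) =
      cmp f' (cmp (cmp D (glue_gr C.A p q (γ t) (γ (t - 1)))) f) := rfl
  rw [e1, e2, hfG, hf'G, e3, hG]
  rfl

private theorem glue_dd {E B : BN k P Q} (D : Hom E E) (hD : cmp D D = 0) (f : Hom B E)
    (f' : Hom E B) (hff' : cmp f f' = idH E) :
    cmp (cmp f' (cmp D f)) (cmp f' (cmp D f)) = 0 := by
  have e1 : cmp (cmp f' (cmp D f)) (cmp f' (cmp D f)) =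
      cmp f' (cmp (cmp D (cmp (cmp f f') D)) f) := rfl
  rw [e1, hff', id_cmp, hD, zero_cmp, cmp_zero]

private theorem glue_fD {E B : BN k P Q} (D : Hom E E) (f : Hom B E)
    (f' : Hom E B) (hff' : cmp f f' = idH E) :
    cmp f (cmp f' (cmp D f)) = cmp D f := by
  have e1 : cmp f (cmp f' (cmp D f)) = cmp (cmp f f') (cmp D f) := rfl
  rw [e1, hff', id_cmp]

/-- the new state from the data -/
private theorem glue_state {J : Type} [Fintype J] [DecidableEq J] (lab' : J → (P ≃ Q))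
    (deg' : J → ℤ) (D' : Hom (BN.pi fun j => Φ k (lab' j)) (BN.pi fun j => Φ k (lab' j)))
    (hDG : ∀ t, cmp D' (grP (fun j => Φ k (lab' j)) deg' t) =
      cmp (grP (fun j => Φ k (lab' j)) deg' (t + 1)) D') (hD'D' : cmp D' D' = 0)
    (E : Cx k P Q) (f : Hom (BN.pi fun j => Φ k (lab' j)) E.A)
    (f' : Hom E.A (BN.pi fun j => Φ k (lab' j))) (hff : cmp f' f = idH _)
    (hff' : cmp f f' = idH _) (hfD : cmp f D' = cmp E.d f) :
    ∃ s' : St k P Q, ∃ e : s'.I ≃ J, Iso s'.tot E ∧ (∀ j, s'.lab (e.symm j) = lab' j) ∧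
      ∀ j, s'.deg (e.symm j) = deg' j := by
  let s' : St k P Q :=
    { I := J
      lab := lab'
      deg := deg'
      d := entry D'
      d_deg := fun i j hij => gr_conv (fun j => Φ k (lab' j)) deg' D' hDG i j hij
      d_d := fun i l => by
        rw [← entry_cmp D' D' i l, hD'D']
        refine hom_ext fun m => ?_
        change (prj (fun j => Φ k (lab' j)) l).1 0 = 0
        rw [map_zero] }
  have htot : s'.tot.d = D' := mat_entry D'
  refine ⟨s', Equiv.refl _, ⟨f, f', hff, hff', ?_⟩, fun i => rfl, fun j => rfl⟩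
  exact (congrArg (fun F => cmp f F) htot).trans hfD

theorem exists_glue (p : P) (q : Q) (s : St k P Q) : ∃ s' : St k P Q, Glue p q s s' := by
  have h1 : IsFree s.lab s.tot.A
      (fun i => (inc (fun i => Φ k (s.lab i)) i).1 (gΦ k (s.lab i))) :=
    isFree_pi s.lab (fun i => Φ k (s.lab i)) (fun i => gΦ k (s.lab i))
      (fun i => Φ_free k (s.lab i))
  have h2 := U_free s.lab s.tot.A _ h1 p q
  have h3 := isFree_prod h1 h2
  let lab' : (s.I ⊕ (Σ i : s.I, Fin (if s.lab i p = q then 2 else 1))) → (P ≃ Q) :=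
    Sum.elim s.lab
      (fun j : Σ i : s.I, Fin (if s.lab i p = q then 2 else 1) => smooth p q (s.lab j.1))
  let deg' : (s.I ⊕ (Σ i : s.I, Fin (if s.lab i p = q then 2 else 1))) → ℤ :=
    Sum.elim s.deg
      (fun j : Σ i : s.I, Fin (if s.lab i p = q then 2 else 1) => s.deg j.1 + 1)
  have h4 : IsFree lab' (BN.pi fun j => Φ k (lab' j))
      (fun j => (inc (fun j => Φ k (lab' j)) j).1 (gΦ k (lab' j))) :=
    isFree_pi lab' (fun j => Φ k (lab' j)) (fun j => gΦ k (lab' j))
      (fun j => Φ_free k (lab' j))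
  obtain ⟨f, f', hff, hff', hfg⟩ := isFree_iso h4 h3
  have hcomm : ∀ t, cmp s.tot.d (grP (fun i => Φ k (s.lab i)) s.deg t) =
      cmp (grP (fun i => Φ k (s.lab i)) s.deg (t + 1)) s.tot.d := by
    intro t
    refine gr_comm (fun i => Φ k (s.lab i)) s.deg _ (fun i j hij => ?_) t
    refine s.d_deg i j fun h0 => hij ?_
    refine Eq.trans (entry_mat _ _ s.d i j) h0
  have hDG : ∀ t, cmp (cmp f' (cmp (cross p q s.tot).d f)) (grP (fun j => Φ k (lab' j)) deg' t) =
      cmp (grP (fun j => Φ k (lab' j)) deg' (t + 1)) (cmp f' (cmp (cross p q s.tot).d f)) :=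
    fun t => glue_abs s.lab s.deg s.tot
      (fun i => (inc (fun i => Φ k (s.lab i)) i).1 (gΦ k (s.lab i))) p q
      (grP (fun i => Φ k (s.lab i)) s.deg)
      (fun t i => glue_gr_g (fun i => Φ k (s.lab i)) s.deg t i (gΦ k (s.lab i))) hcomm
      (BN.pi fun j => Φ k (lab' j))
      (fun j => (inc (fun j => Φ k (lab' j)) j).1 (gΦ k (lab' j))) lab' h4
      (grP (fun j => Φ k (lab' j)) deg')
      (fun t j => glue_gr_g (fun j => Φ k (lab' j)) deg' t j (gΦ k (lab' j)))
      f f' hff hff' (fun i => hfg (Sum.inl i)) (fun j => hfg (Sum.inr j))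
      (cross p q s.tot).d rfl t
  obtain ⟨s', e, hiso, hlab, hdeg⟩ := glue_state lab' deg'
    (cmp f' (cmp (cross p q s.tot).d f)) hDG
    (glue_dd (cross p q s.tot).d (cross p q s.tot).dd f f' hff') (cross p q s.tot) f f' hff hff'
    (glue_fD (cross p q s.tot).d f f' hff')
  exact ⟨s', hiso, e, fun i => ⟨hlab _, hdeg _⟩, fun j => ⟨hlab _, hdeg _⟩⟩

theorem glue_card {p : P} {q : Q} {s s' : St k P Q} (h : Glue p q s s') :
    Fintype.card s'.I ≤ 3 * Fintype.card s.I := by
  obtain ⟨e, -, -⟩ := h.gens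
  rw [Fintype.card_congr e, Fintype.card_sum, Fintype.card_sigma]
  have h1 : ∑ i : s.I, Fintype.card (Fin (if s.lab i p = q then 2 else 1)) ≤
      ∑ _i : s.I, 2 := by
    refine Finset.sum_le_sum fun i _ => ?_
    rw [Fintype.card_fin]
    split_ifs <;> omega
  rw [Finset.sum_const, Finset.card_univ, smul_eq_mul] at h1
  omega

end Pool.Agent.Lib.MP_f2e65a_lc
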