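import Pool.Agent.Lib.MP_f2e65a_lc.InstDefs

/-! # InstB: the relations for the strands in a row: far crossings

* `inst_f1`: `j + 2 ≤ i ≤ 2 l + ε`, so `2 ≤ 2 l + ε` and `1 ≤ l` (`ε ≤ 1`); write `l = l' + 1`.  `lcr_eq` for level `l' + 2` (`j ≤ 2 (l' + 1) + ε`) and for level `l' + 1` (`j ≤ 2 l' + ε`).
 With `e = eCap (ε + l) B (pI ε l i)`, `f = eCap l B' (qI l i)`: `inl (pI ε (l' + 1) j) = e (some (inl (pI ε l' j)))`: `Fin.succAbove` of an element with value `(j + 1) / 2 < (i + 1) / 2` keeps the value; `j / 2 < i / 2` for `f`.  `relF`.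
* `inst_f2`: `i ≤ j`, `j + 2 ≤ 2 l + ε`: again `l = l' + 1`, `j ≤ 2 l' + ε`.  `inl (pI ε (l' + 1) (j + 2)) = e (some (inl (pI ε l' j)))`: value `(j + 3) / 2 = (j + 1) / 2 + 1`, `(j + 1) / 2 ≥ (i + 1) / 2`; the same for `f`.  `relF`.
* `inst_ff`: `lcr_eq` twice, `relFF`: `(i + 1) / 2 ≠ (j + 1) / 2`, `i / 2 ≠ j / 2` as `i + 2 ≤ j`.
* `inst_cr_R`: cases on `l` (`lcr` of level `0` is the identity), and on `i ≤ 2 l + ε`; `Ret.cross`.
Types: `ε + (l + 1) = ε + l + 1` by `rfl`. -/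

set_option autoImplicit false
set_option linter.unusedVariables false

namespace Pool.Agent.Lib.MP_f2e65a_lc

private theorem instB_lt {n : ℕ} {a : Fin (n + 1)} {x : Fin n} {y : Fin (n + 1)}
    (h : (x : ℕ) < a) (hy : (y : ℕ) = x) : a.succAbove x = y := by
  rw [Fin.succAbove_of_castSucc_lt a x (Fin.lt_def.2 h)]
  exact Fin.ext hy.symm

private theorem instB_ge {n : ℕ} {a : Fin (n + 1)} {x : Fin n} {y : Fin (n + 1)}
    (h : (a : ℕ) ≤ x) (hy : (y : ℕ) = x + 1) : a.succAbove x = y := by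
  rw [Fin.succAbove_of_le_castSucc a x (Fin.le_def.2 h)]
  exact Fin.ext hy.symm

variable (k : Type) [Field k] (ε : ℕ) (B B' : Type) [Fintype B] [DecidableEq B] [Fintype B']
  [DecidableEq B']

theorem inst_cr_R {l : ℕ} (i : ℕ) {X Y : LCx k ε B B' l} (h : Ret X Y) :
    Ret (lcr k ε B B' l i X) (lcr k ε B B' l i Y) := by
  cases l with
  | zero => exact h
  | succ l =>
    by_cases hi : i ≤ 2 * l + ε
    · rw [lcr_eq k ε B B' hi X, lcr_eq k ε B B' hi Y]
      exact Ret.cross _ _ h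
    · have h1 : ∀ Z : LCx k ε B B' (l + 1), lcr k ε B B' (l + 1) i Z = Z :=
        fun Z => if_neg hi
      rw [h1 X, h1 Y]
      exact h

/-- the general case of `relF` -/
private theorem instB_relF {l : ℕ} (i j' j : ℕ) (X : LCx k ε B B' (l + 1 + 1))
    (hj' : j' ≤ 2 * (l + 1) + ε) (hj : j ≤ 2 * l + ε)
    (hp : (pI ε (l + 1) i).succAbove (pI ε l j) = pI ε (l + 1) j')
    (hq : (qI (l + 1) i).succAbove (qI l j) = qI (l + 1) j') :
    Ret (lcap k ε B B' (l + 1) i (lcr k ε B B' (l + 1 + 1) j' X))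
      (lcr k ε B B' (l + 1) j (lcap k ε B B' (l + 1) i X)) := by
  rw [lcr_eq k ε B B' hj' X, lcr_eq k ε B B' hj (lcap k ε B B' (l + 1) i X), ← hp, ← hq]
  exact relF (P := Fin (ε + (l + 1) + 1) ⊕ B) (Q := Fin (l + 1 + 1) ⊕ B')
    (P' := Fin (ε + (l + 1)) ⊕ B) (Q' := Fin (l + 1) ⊕ B') X
    (eCap (ε + (l + 1)) B (pI ε (l + 1) i)) (eCap (l + 1) B' (qI (l + 1) i))
    (Sum.inl (pI ε l j)) (Sum.inl (qI l j))

theorem inst_f1 (hε : ε ≤ 1) {l : ℕ} (i j : ℕ) (X : LCx k ε B B' (l + 1)) (hj : j + 2 ≤ i)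
    (hi : i ≤ 2 * l + ε) :
    Ret (lcap k ε B B' l i (lcr k ε B B' (l + 1) j X))
      (lcr k ε B B' l j (lcap k ε B B' l i X)) := by
  cases l with
  | zero => omega
  | succ l =>
    have h1 : j ≤ 2 * l + ε := by omega
    have h2 : j ≤ 2 * (l + 1) + ε := by omega
    have hp1 := pI_val hε hi
    have hp2 := pI_val hε h1
    have hp3 := pI_val hε h2
    have hq1 := qI_val hε hi
    have hq2 := qI_val hε h1
    have hq3 := qI_val hε h2
    refine instB_relF k ε B B' i j j X h2 h1 ?_ ?_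
    · apply instB_lt
      · rw [hp1, hp2]
        omega
      · rw [hp2, hp3]
    · apply instB_lt
      · rw [hq1, hq2]
        omega
      · rw [hq2, hq3]

theorem inst_f2 (hε : ε ≤ 1) {l : ℕ} (i j : ℕ) (X : LCx k ε B B' (l + 1)) (hj : i ≤ j)
    (hi : j + 2 ≤ 2 * l + ε) :
    Ret (lcap k ε B B' l i (lcr k ε B B' (l + 1) (j + 2) X))
      (lcr k ε B B' l j (lcap k ε B B' l i X)) := by
  cases l with
  | zero => omega
  | succ l =>
    have h1 : j ≤ 2 * l + ε := by omega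
    have h2 : i ≤ 2 * (l + 1) + ε := by omega
    have hp1 := pI_val hε h2
    have hp2 := pI_val hε h1
    have hp3 := pI_val hε hi
    have hq1 := qI_val hε h2
    have hq2 := qI_val hε h1
    have hq3 := qI_val hε hi
    refine instB_relF k ε B B' i (j + 2) j X hi h1 ?_ ?_
    · apply instB_ge
      · rw [hp1, hp2]
        omega
      · rw [hp2, hp3]
        omega
    · apply instB_ge
      · rw [hq1, hq2]
        omega
      · rw [hq2, hq3]
        omega

theorem inst_ff (hε : ε ≤ 1) {l : ℕ} (i j : ℕ) (X : LCx k ε B B' (l + 1)) (hj : i + 2 ≤ j)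
    (hi : j ≤ 2 * l + ε) :
    Ret (lcr k ε B B' (l + 1) i (lcr k ε B B' (l + 1) j X))
      (lcr k ε B B' (l + 1) j (lcr k ε B B' (l + 1) i X)) := by
  have h1 : i ≤ 2 * l + ε := by omega
  rw [lcr_eq k ε B B' h1 X, lcr_eq k ε B B' hi X, lcr_eq k ε B B' h1, lcr_eq k ε B B' hi]
  refine relFF (P := Fin (ε + l + 1) ⊕ B) (Q := Fin (l + 1) ⊕ B') X ?_ ?_
  · intro h
    have h2 := congrArg Fin.val (Sum.inl_injective h)
    rw [pI_val hε h1, pI_val hε hi] at h2
    omega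
  · intro h
    have h2 := congrArg Fin.val (Sum.inl_injective h)
    rw [qI_val hε h1, qI_val hε hi] at h2
    omega

end Pool.Agent.Lib.MP_f2e65a_lc
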