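import Pool.Agent.Lib.MP_f2e65a_lc.SysA

/-! # SysB: the growth of the number of generators

`M = 2 * l + ε`; level `l + 1` has `M + 2` strands, the crossings are `i ≤ M`.
* `expC`: for every test `t` of level `l` and `j ≤ M` there is a finite list `L` of triples `(t', i, a)` (tests `t'` of level `l`, `i : ℕ`, `a ≤ M`) with
 `N t (cap j (pre (l + 1) j Z)) ≤ ∑_{(t', i, a) ∈ L} N t' (pre l i (cap a Z))` for all `Z`.  Induction on `j` (for all `t`): `j = 0`: `[(t, 0, 0)]`.  Step: `pre (j + 1) Z = cr j Y`, `Y = pre j Z`; `N t (cap (j + 1) (cr j Y)) = N (up (j + 1) t) (cr j Y) ≤ N (up (j + 1) t) Y + N (dn j (up (j + 1) t)) (cap j Y)`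
 (`N_up`, `skein`); the first is `N t (cap (j + 1) (pre j Z)) ≤ N t (pre l j (cap (j + 1) Z))` (`cap_pre_lt`), the second by induction for the test `dn l j (up l (j + 1) t)`.
* `expP`: for every test `t` of level `l + 1` and `j ≤ M + 1` there is such a list with `N t (pre (l + 1) j Z) ≤ N t Z + ∑_{(t', i, a) ∈ L} N t' (pre l i (cap a Z))`.  Induction on `j`: `N t (cr j Y) ≤ N t Y + N (dn j t) (cap j Y)`, `Y = pre j Z`; `expC` for the second.
 In both lists `i ≤ M` (in `expC`: `i = j < M`), which is not needed if the main theorem is stated for all `i` (see below).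
* `growth`: `∀ l (t : Te l) (X : Ob l) (j : ℕ), j ≤ 2 * l + ε - 1 → ∃ C, ∀ q, N t (pre l j (tws l q X)) ≤ C * (q + 1) ^ l`.  Induction on `l`.  `l = 0`: `2 * 0 + ε - 1 = 0`, so `j = 0`, `tw 0 = id`, `tws 0 q X = X`: `C = N t X`.
 Step: by `abs_all`, `pre_R`, `N_R` and the induction hypothesis (finitely many objects `cap b X`, `cap M (tw X)`; `q' ≤ q`, so `(q' + 1) ^ l ≤ (q + 1) ^ l`), every term `N t' (pre l i (cap a (tws (l + 1) q X)))` with `i ≤ M - 1` is `≤ C (q + 1) ^ l`.  So by `expP`: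
 `N t (pre (l + 1) j (tws (l + 1) q X)) ≤ N t (tws (l + 1) q X) + C₁ (q + 1) ^ l` for `j ≤ M + 1`; for `j = M + 1` the left side is `N t (tws (l + 1) (q + 1) X)`, so by induction on `q`:
 `N t (tws (l + 1) q X) ≤ N t X + C₁ * q * (q + 1) ^ l ≤ (N t X + C₁) (q + 1) ^ (l + 1)`, and then for all `j`.
 (Keep the condition `i ≤ 2 * l + ε - 1` in the lists: in `expC` the new triple has `i = j` with `j + 1 ≤ M`, and `(t, 0, 0)` has `i = 0`.) -/

set_option autoImplicit false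
set_option linter.unusedVariables false

namespace Pool.Agent.Lib.MP_f2e65a_lc

universe u v

namespace Sys

variable (s : Sys.{u, v})

theorem expC {l : ℕ} (j : ℕ) (hj : j ≤ 2 * l + s.ε) : ∀ t : s.Te l,
    ∃ L : List (s.Te l × ℕ × ℕ), (∀ c ∈ L, c.2.1 ≤ 2 * l + s.ε - 1 ∧ c.2.2 ≤ 2 * l + s.ε) ∧
      ∀ Z : s.Ob (l + 1), s.N t (s.cap l j (s.pre (l + 1) j Z)) ≤
        (L.map fun c => s.N c.1 (s.pre l c.2.1 (s.cap l c.2.2 Z))).sum := by
  induction j with
  | zero =>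
    intro t
    refine ⟨[(t, 0, 0)], ?_, fun Z => ?_⟩
    · intro c hc
      rw [List.mem_singleton] at hc
      subst hc
      exact ⟨Nat.zero_le _, Nat.zero_le _⟩
    · rw [List.map_singleton, List.sum_singleton]
      exact le_refl _
  | succ j ih =>
    intro t
    obtain ⟨L, hL, hL'⟩ := ih (by omega) (s.dn l j (s.up l (j + 1) t))
    refine ⟨(t, j, j + 1) :: L, ?_, fun Z => ?_⟩
    · intro c hc
      rw [List.mem_cons] at hc
      rcases hc with hc | hc
      · subst hc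
        exact ⟨by change j ≤ 2 * l + s.ε - 1; omega, hj⟩
      · exact hL c hc
    · rw [List.map_cons, List.sum_cons]
      have h1 := s.N_up (j + 1) t (s.pre (l + 1) (j + 1) Z) hj
      have h2 := s.skein j (s.up l (j + 1) t) (s.pre (l + 1) j Z) (by omega)
      have h3 := s.N_up (j + 1) t (s.pre (l + 1) j Z) hj
      have h4 := s.N_R t (s.cap_pre_lt (j + 1) j Z (le_refl _) hj)
      have h5 := hL' Z
      change s.N (s.up l (j + 1) t) (s.cr (l + 1) j (s.pre (l + 1) j Z)) = _ at h1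
      rw [← h1]
      rw [h3] at h2
      exact h2.trans (Nat.add_le_add h4 h5)

theorem expP {l : ℕ} (t : s.Te (l + 1)) (j : ℕ) (hj : j ≤ 2 * l + s.ε + 1) :
    ∃ L : List (s.Te l × ℕ × ℕ), (∀ c ∈ L, c.2.1 ≤ 2 * l + s.ε - 1 ∧ c.2.2 ≤ 2 * l + s.ε) ∧
      ∀ Z : s.Ob (l + 1), s.N t (s.pre (l + 1) j Z) ≤ s.N t Z +
        (L.map fun c => s.N c.1 (s.pre l c.2.1 (s.cap l c.2.2 Z))).sum := by
  induction j with
  | zero =>
    refine ⟨[], fun c hc => absurd hc List.not_mem_nil, fun Z => ?_⟩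
    rw [List.map_nil, List.sum_nil]
    exact le_refl _
  | succ j ih =>
    obtain ⟨L, hL, hL'⟩ := ih (by omega)
    obtain ⟨K, hK, hK'⟩ := s.expC j (by omega) (s.dn l j t)
    refine ⟨L ++ K, ?_, fun Z => ?_⟩
    · intro c hc
      rw [List.mem_append] at hc
      exact hc.elim (hL c) (hK c)
    · rw [List.map_append, List.sum_append, ← add_assoc]
      exact (s.skein j t (s.pre (l + 1) j Z) (by omega)).trans
        (Nat.add_le_add (hL' Z) (hK' Z))

private theorem sysB_A {l : ℕ} (ih : ∀ (t : s.Te l) (X : s.Ob l) (j : ℕ),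
    j ≤ 2 * l + s.ε - 1 → ∃ C : ℕ, ∀ q : ℕ, s.N t (s.pre l j (s.tws l q X)) ≤ C * (q + 1) ^ l)
    (X : s.Ob (l + 1)) (t : s.Te l) (i a : ℕ) (hi : i ≤ 2 * l + s.ε - 1)
    (ha : a ≤ 2 * l + s.ε) :
    ∃ C : ℕ, ∀ q : ℕ, s.N t (s.pre l i (s.cap l a (s.tws (l + 1) q X))) ≤ C * (q + 1) ^ l := by
  choose C hC using fun Y : s.Ob l => ih t Y i hi
  refine ⟨(∑ b ∈ Finset.range (2 * l + s.ε + 1), C (s.cap l b X)) +
    C (s.cap l (2 * l + s.ε) (s.tw (l + 1) X)), fun q => ?_⟩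
  obtain ⟨q', hq', h⟩ := s.abs_all X q a ha
  have hpow : (q' + 1) ^ l ≤ (q + 1) ^ l := Nat.pow_le_pow_left (by omega) l
  rcases h with ⟨b, hb, h⟩ | h
  · refine (s.N_R t (s.pre_R i h)).trans ((hC _ q').trans (Nat.mul_le_mul ?_ hpow))
    refine le_trans ?_ (Nat.le_add_right _ _)
    exact Finset.single_le_sum (f := fun b => C (s.cap l b X)) (fun _ _ => Nat.zero_le _)
      (Finset.mem_range.2 (by omega))
  · exact (s.N_R t (s.pre_R i h)).trans ((hC _ q').trans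
      (Nat.mul_le_mul (Nat.le_add_left _ _) hpow))

private theorem sysB_B {l : ℕ} (ih : ∀ (t : s.Te l) (X : s.Ob l) (j : ℕ),
    j ≤ 2 * l + s.ε - 1 → ∃ C : ℕ, ∀ q : ℕ, s.N t (s.pre l j (s.tws l q X)) ≤ C * (q + 1) ^ l)
    (X : s.Ob (l + 1)) (L : List (s.Te l × ℕ × ℕ)) :
    (∀ c ∈ L, c.2.1 ≤ 2 * l + s.ε - 1 ∧ c.2.2 ≤ 2 * l + s.ε) →
    ∃ C : ℕ, ∀ q : ℕ, (L.map fun c => s.N c.1 (s.pre l c.2.1 (s.cap l c.2.2
      (s.tws (l + 1) q X)))).sum ≤ C * (q + 1) ^ l := by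
  induction L with
  | nil =>
    intro _
    exact ⟨0, fun q => by rw [List.map_nil, List.sum_nil]; exact Nat.zero_le _⟩
  | cons c L ihL =>
    intro h
    obtain ⟨C, hC⟩ := ihL fun c' hc' => h c' (List.mem_cons_of_mem _ hc')
    obtain ⟨h1, h2⟩ := h c List.mem_cons_self
    obtain ⟨C', hC'⟩ := s.sysB_A ih X c.1 c.2.1 c.2.2 h1 h2
    refine ⟨C' + C, fun q => ?_⟩
    rw [List.map_cons, List.sum_cons, add_mul]
    exact Nat.add_le_add (hC' q) (hC q)

theorem growth (l : ℕ) : ∀ (t : s.Te l) (X : s.Ob l) (j : ℕ), j ≤ 2 * l + s.ε - 1 →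
    ∃ C : ℕ, ∀ q : ℕ, s.N t (s.pre l j (s.tws l q X)) ≤ C * (q + 1) ^ l := by
  induction l with
  | zero =>
    intro t X j hj
    have hε := s.hε
    have hj0 : j = 0 := by omega
    subst hj0
    refine ⟨s.N t X, fun q => ?_⟩
    have h1 : 2 * 0 + s.ε - 1 = 0 := by omega
    have h2 : ∀ Y : s.Ob 0, s.tw 0 Y = Y := by
      intro Y
      unfold tw
      rw [h1]
      rfl
    have h3 : s.tws 0 q X = X := by
      unfold tws
      exact Function.iterate_fixed (h2 X) q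
    rw [h3, pow_zero, mul_one]
    exact le_refl _
  | succ l ih =>
    intro t X
    have hM : 2 * (l + 1) + s.ε - 1 = 2 * l + s.ε + 1 := by omega
    have hC : ∀ j, j ≤ 2 * l + s.ε + 1 → ∃ C : ℕ, ∀ q : ℕ,
        s.N t (s.pre (l + 1) j (s.tws (l + 1) q X)) ≤
          s.N t (s.tws (l + 1) q X) + C * (q + 1) ^ l := by
      intro j hj
      obtain ⟨L, hL, hL'⟩ := s.expP t j hj
      obtain ⟨C, hC⟩ := s.sysB_B ih X L hL
      exact ⟨C, fun q => (hL' _).trans (Nat.add_le_add_left (hC q) _)⟩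
    obtain ⟨C₁, hC₁⟩ := hC (2 * l + s.ε + 1) (le_refl _)
    have hD : ∀ q : ℕ, s.N t (s.tws (l + 1) q X) ≤ s.N t X + C₁ * (q * (q + 1) ^ l) := by
      intro q
      induction q with
      | zero => exact Nat.le_add_right _ _
      | succ q ihq =>
        have h1 : s.tws (l + 1) (q + 1) X =
            s.pre (l + 1) (2 * l + s.ε + 1) (s.tws (l + 1) q X) := by
          unfold tws
          rw [Function.iterate_succ_apply']
          unfold tw
          rw [hM]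
        rw [h1]
        refine (hC₁ q).trans ?_
        have h2 : (q + 1) ^ l ≤ (q + 1 + 1) ^ l := Nat.pow_le_pow_left (by omega) l
        calc s.N t (s.tws (l + 1) q X) + C₁ * (q + 1) ^ l
            ≤ s.N t X + C₁ * (q * (q + 1) ^ l) + C₁ * (q + 1) ^ l :=
              Nat.add_le_add_right ihq _
          _ = s.N t X + C₁ * ((q + 1) * (q + 1) ^ l) := by ring
          _ ≤ s.N t X + C₁ * ((q + 1) * (q + 1 + 1) ^ l) :=
              Nat.add_le_add_left (Nat.mul_le_mul_left _ (Nat.mul_le_mul_left _ h2)) _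
    intro j hj
    obtain ⟨C₂, hC₂⟩ := hC j (by omega)
    refine ⟨s.N t X + C₁ + C₂, fun q => ?_⟩
    have h3 : 1 ≤ (q + 1) ^ l := Nat.one_le_pow _ _ (Nat.succ_pos q)
    have h4 : (q + 1) ^ l ≤ (q + 1) ^ (l + 1) := Nat.pow_le_pow_right (Nat.succ_pos q) (by omega)
    have h5 : q * (q + 1) ^ l ≤ (q + 1) ^ (l + 1) := by
      rw [pow_succ, mul_comm ((q + 1) ^ l) (q + 1)]
      exact Nat.mul_le_mul_right _ (by omega)
    calc s.N t (s.pre (l + 1) j (s.tws (l + 1) q X))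
        ≤ s.N t (s.tws (l + 1) q X) + C₂ * (q + 1) ^ l := hC₂ q
      _ ≤ s.N t X + C₁ * (q * (q + 1) ^ l) + C₂ * (q + 1) ^ l := Nat.add_le_add_right (hD q) _
      _ ≤ s.N t X * (q + 1) ^ (l + 1) + C₁ * (q + 1) ^ (l + 1) + C₂ * (q + 1) ^ (l + 1) :=
          Nat.add_le_add (Nat.add_le_add (Nat.le_mul_of_pos_right _ (lt_of_lt_of_le
            Nat.one_pos (h3.trans h4))) (Nat.mul_le_mul_left _ h5)) (Nat.mul_le_mul_left _ h4)
      _ = (s.N t X + C₁ + C₂) * (q + 1) ^ (l + 1) := by ring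

end Sys

end Pool.Agent.Lib.MP_f2e65a_lc
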