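import Pool.Agent.Lib.MP_f2e65a_lc.InstA
import Pool.Agent.Lib.MP_f2e65a_lc.InstB
import Pool.Agent.Lib.MP_f2e65a_lc.SysB

/-! # The system of the strands in a row -/

set_option autoImplicit false
set_option linter.unusedVariables false

namespace Pool.Agent.Lib.MP_f2e65a_lc

variable (k : Type) [Field k] (ε : ℕ) (B B' : Type) [Fintype B] [DecidableEq B] [Fintype B']
  [DecidableEq B']

/-- the system -/
noncomputable def bnSys (hε : ε ≤ 1) : Sys.{1, 1} where
  ε := ε
  hε := hε
  Ob l := LCx k ε B B' l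
  Te l := LTst k ε B B' l
  N t X := t.N X
  R X Y := Ret X Y
  cr l i X := lcr k ε B B' l i X
  cap l i X := lcap k ε B B' l i X
  up l i t := t.pull (lcapF k ε B B' l i)
  dn l i t := t.pull (lcupF k ε B B' l i)
  R_refl X := Ret.refl X
  R_trans h h' := Ret.trans h h'
  N_R t _ _ h := N_le t h
  cr_R i _ _ h := inst_cr_R k ε B B' i h
  cap_R i _ _ _ h := Ret.map _ h
  N_up i t X _ := rfl
  skein i t X hi := inst_skein k ε B B' hε i t X hi
  r1 i X hi := inst_r1 k ε B B' hε i X hi
  a1 i X hi := inst_a1 k ε B B' hε i X hi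
  a2 i X hi := inst_a2 k ε B B' hε i X hi
  f1 i j X hj hi := inst_f1 k ε B B' hε i j X hj hi
  f2 i j X hj hi := inst_f2 k ε B B' hε i j X hj hi
  ff i j X hj hi := inst_ff k ε B B' hε i j X hj hi

/-- the crossings `is` (in this order) -/
noncomputable def lcrs (l : ℕ) (is : List ℕ) (X : LCx k ε B B' l) : LCx k ε B B' l :=
  is.foldl (fun Y i => lcr k ε B B' l i Y) X

end Pool.Agent.Lib.MP_f2e65a_lc
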