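import Pool.Agent.Lib.MP_f2e65a_lc.InstDefs

/-! # InstA: the relations for the strands in a row: near crossings

* `eCap_swap`: for `b = a + 1` or `a = b + 1` (as numbers): `(eCap n B a).trans (swap (inl a) (inl b)) = eCap n B b`: on `none`: `swap a b a = b`; on `some (inl x)`: `swap (inl a) (inl b) (inl (a.succAbove x)) = inl (b.succAbove x)`:
 by the values (`Fin.succAbove` is `x` if `x < a` and `x + 1` else; `Fin.ext`, `split_ifs`, `omega`; `Equiv.swap_apply_def`).  Example `b = a + 1`: `x < a`: both `x`; `x = a`: `a.succAbove x = a + 1 ↦ a = b.succAbove x`; `x > a`: both `x + 1`.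
* `inst_r1`: `lcr_eq`, `relR`.
* `inst_a1`: `lcr_eq` twice (`i ≤ 2 l + ε`, `i + 1 ≤ 2 l + ε`).  `i = 2 c`: `pI i = c`, `qI i = c`, `pI (i + 1) = c + 1`, `qI (i + 1) = c` (values by `pI_val`, `qI_val`): `qI (i + 1) = qI i`; `relA` with `r = inl (pI (i + 1))`, and `eCap_swap`.
 `i = 2 c + 1`: `pI i = c + 1 = pI (i + 1)`, `qI i = c`, `qI (i + 1) = c + 1`: `relB` with `s = inl (qI (i + 1))`, and `eCap_swap`.
* `inst_a2`: the same with `i` and `i + 1` exchanged: cap at `i + 1`; `i = 2 c`: `relA` with `e = eCap (pI (i + 1))`, `r = inl (pI i)`; `i = 2 c + 1`: `relB`.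
* `inst_skein`: `lcr_eq`, `N_cone_le` for `U k _ _`, and `(T.pull U).N X = T.N (U.cx X) ≤ T.N ((cupF e f).cx ((capF e f).cx X))` by `U_iso`, `Ret.of_iso`, `N_le`; `(T.pull F).N X = T.N (F.cx X)` by `rfl`. -/

set_option autoImplicit false
set_option linter.unusedVariables false

namespace Pool.Agent.Lib.MP_f2e65a_lc

theorem eCap_swap (n : ℕ) (B : Type) [DecidableEq B] (a b : Fin (n + 1))
    (h : (b : ℕ) = a + 1 ∨ (a : ℕ) = b + 1) :
    (eCap n B a).trans (Equiv.swap (Sum.inl a) (Sum.inl b)) = eCap n B b := by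
  refine Equiv.ext fun z => ?_
  rcases z with _ | x | y
  · change Equiv.swap (Sum.inl a) (Sum.inl b) (Sum.inl a) = Sum.inl b
    exact Equiv.swap_apply_left _ _
  · change Equiv.swap (Sum.inl a) (Sum.inl b) (Sum.inl (a.succAbove x)) = Sum.inl (b.succAbove x)
    have ha : a.succAbove x ≠ a := Fin.succAbove_ne a x
    rw [Equiv.swap_apply_def, if_neg (fun h' => ha (Sum.inl.inj h'))]
    by_cases hb : a.succAbove x = b
    · rw [if_pos (congrArg Sum.inl hb)]
      refine congrArg Sum.inl (Fin.ext ?_)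
      have hb' := congrArg Fin.val hb
      simp only [Fin.succAbove, Fin.lt_def, Fin.val_castSucc] at hb' ⊢
      split_ifs at hb' ⊢ <;> simp only [Fin.val_castSucc, Fin.val_succ] at hb' ⊢ <;> omega
    · rw [if_neg (fun h' => hb (Sum.inl.inj h'))]
      refine congrArg Sum.inl (Fin.ext ?_)
      have hb' : ((a.succAbove x : Fin (n + 1)) : ℕ) ≠ b := fun h' => hb (Fin.ext h')
      simp only [Fin.succAbove, Fin.lt_def, Fin.val_castSucc] at hb' ⊢
      split_ifs at hb' ⊢ <;> simp only [Fin.val_castSucc, Fin.val_succ] at hb' ⊢ <;> omega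
  · change Equiv.swap (Sum.inl a) (Sum.inl b) (Sum.inr y) = Sum.inr y
    exact Equiv.swap_apply_of_ne_of_ne (fun h' => Sum.inr_ne_inl h') (fun h' => Sum.inr_ne_inl h')

variable (k : Type) [Field k] (ε : ℕ) (B B' : Type) [Fintype B] [DecidableEq B] [Fintype B']
  [DecidableEq B']

theorem inst_r1 (hε : ε ≤ 1) {l : ℕ} (i : ℕ) (X : LCx k ε B B' (l + 1)) (hi : i ≤ 2 * l + ε) :
    Ret (lcap k ε B B' l i (lcr k ε B B' (l + 1) i X)) (lcap k ε B B' l i X) := by
  rw [lcr_eq k ε B B' hi]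
  exact relR X (eCap (ε + l) B (pI ε l i)) (eCap l B' (qI l i))

/-- relA with the new cap given by an equality -/
private theorem InstA_relA {P Q P' Q' : Type} [Fintype P] [DecidableEq P] [Fintype Q]
    [DecidableEq Q] [Fintype P'] [DecidableEq P'] [Fintype Q'] [DecidableEq Q']
    (D : Cx k P Q) (e e' : Option P' ≃ P) (f f' : Option Q' ≃ Q) (p r : P) (q q' : Q)
    (hr : r ≠ p) (hp : e none = p) (hq : f none = q)
    (he : e.trans (Equiv.swap p r) = e') (hf : f = f') (hq' : q' = q) :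
    Ret ((capF e f).cx (cross r q' (cross p q D))) ((capF e' f').cx D) := by
  subst he hf hq' hp hq
  exact relA D e f r hr

private theorem InstA_relB {P Q P' Q' : Type} [Fintype P] [DecidableEq P] [Fintype Q]
    [DecidableEq Q] [Fintype P'] [DecidableEq P'] [Fintype Q'] [DecidableEq Q']
    (D : Cx k P Q) (e e' : Option P' ≃ P) (f f' : Option Q' ≃ Q) (p p' : P) (q s : Q)
    (hs : s ≠ q) (hp : e none = p) (hq : f none = q)
    (he : e = e') (hf : f.trans (Equiv.swap q s) = f') (hp' : p' = p) :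
    Ret ((capF e f).cx (cross p' s (cross p q D))) ((capF e' f').cx D) := by
  subst he hf hp' hp hq
  exact relB D e f s hs

theorem inst_a1 (hε : ε ≤ 1) {l : ℕ} (i : ℕ) (X : LCx k ε B B' (l + 1))
    (hi : i + 1 ≤ 2 * l + ε) :
    Ret (lcap k ε B B' l i (lcr k ε B B' (l + 1) (i + 1) (lcr k ε B B' (l + 1) i X)))
      (lcap k ε B B' l (i + 1) X) := by
  have hi' : i ≤ 2 * l + ε := by omega
  rw [lcr_eq k ε B B' hi, lcr_eq k ε B B' hi']
  have hp := pI_val (l := l) hε hi'
  have hp1 := pI_val (l := l) hε hi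
  have hq := qI_val (l := l) hε hi'
  have hq1 := qI_val (l := l) hε hi
  rcases Nat.even_or_odd' i with ⟨c, hc | hc⟩
  · have h1 : qI l (i + 1) = qI l i := Fin.ext (by omega)
    exact InstA_relA k X (eCap (ε + l) B (pI ε l i)) (eCap (ε + l) B (pI ε l (i + 1)))
      (eCap l B' (qI l i)) (eCap l B' (qI l (i + 1))) (Sum.inl (pI ε l i))
      (Sum.inl (pI ε l (i + 1))) (Sum.inl (qI l i)) (Sum.inl (qI l (i + 1)))
      (fun h' => by
        have h2 := congrArg Fin.val (Sum.inl.inj h')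
        omega) rfl rfl (eCap_swap (ε + l) B _ _ (Or.inl (by omega))) (by rw [h1]) (by rw [h1])
  · have h1 : pI ε l (i + 1) = pI ε l i := Fin.ext (by omega)
    exact InstA_relB k X (eCap (ε + l) B (pI ε l i)) (eCap (ε + l) B (pI ε l (i + 1)))
      (eCap l B' (qI l i)) (eCap l B' (qI l (i + 1))) (Sum.inl (pI ε l i))
      (Sum.inl (pI ε l (i + 1))) (Sum.inl (qI l i)) (Sum.inl (qI l (i + 1)))
      (fun h' => by
        have h2 := congrArg Fin.val (Sum.inl.inj h')
        omega) rfl rfl (by rw [h1]) (eCap_swap l B' _ _ (Or.inl (by omega))) (by rw [h1])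

theorem inst_a2 (hε : ε ≤ 1) {l : ℕ} (i : ℕ) (X : LCx k ε B B' (l + 1))
    (hi : i + 1 ≤ 2 * l + ε) :
    Ret (lcap k ε B B' l (i + 1) (lcr k ε B B' (l + 1) i (lcr k ε B B' (l + 1) (i + 1) X)))
      (lcap k ε B B' l i X) := by
  have hi' : i ≤ 2 * l + ε := by omega
  rw [lcr_eq k ε B B' hi, lcr_eq k ε B B' hi']
  have hp := pI_val (l := l) hε hi'
  have hp1 := pI_val (l := l) hε hi
  have hq := qI_val (l := l) hε hi'
  have hq1 := qI_val (l := l) hε hi
  rcases Nat.even_or_odd' i with ⟨c, hc | hc⟩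
  · have h1 : qI l (i + 1) = qI l i := Fin.ext (by omega)
    exact InstA_relA k X (eCap (ε + l) B (pI ε l (i + 1))) (eCap (ε + l) B (pI ε l i))
      (eCap l B' (qI l (i + 1))) (eCap l B' (qI l i)) (Sum.inl (pI ε l (i + 1)))
      (Sum.inl (pI ε l i)) (Sum.inl (qI l (i + 1))) (Sum.inl (qI l i))
      (fun h' => by
        have h2 := congrArg Fin.val (Sum.inl.inj h')
        omega) rfl rfl (eCap_swap (ε + l) B _ _ (Or.inr (by omega))) (by rw [h1]) (by rw [h1])
  · have h1 : pI ε l (i + 1) = pI ε l i := Fin.ext (by omega)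
    exact InstA_relB k X (eCap (ε + l) B (pI ε l (i + 1))) (eCap (ε + l) B (pI ε l i))
      (eCap l B' (qI l (i + 1))) (eCap l B' (qI l i)) (Sum.inl (pI ε l (i + 1)))
      (Sum.inl (pI ε l i)) (Sum.inl (qI l (i + 1))) (Sum.inl (qI l i))
      (fun h' => by
        have h2 := congrArg Fin.val (Sum.inl.inj h')
        omega) rfl rfl (by rw [h1]) (eCap_swap l B' _ _ (Or.inr (by omega))) (by rw [h1])

theorem inst_skein (hε : ε ≤ 1) {l : ℕ} (i : ℕ) (t : LTst k ε B B' (l + 1))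
    (X : LCx k ε B B' (l + 1)) (hi : i ≤ 2 * l + ε) :
    t.N (lcr k ε B B' (l + 1) i X) ≤ t.N X +
      (t.pull (lcupF k ε B B' l i)).N (lcap k ε B B' l i X) := by
  rw [lcr_eq k ε B B' hi]
  have h1 := N_cone_le t (U k (Sum.inl (pI ε l i) : Fin (ε + l + 1) ⊕ B)
    (Sum.inl (qI l i) : Fin (l + 1) ⊕ B')) X
  have h2 := N_le t (Ret.of_iso (U_iso X (eCap (ε + l) B (pI ε l i)) (eCap l B' (qI l i))
    rfl rfl)).1
  exact h1.trans (Nat.add_le_add_left h2 _)

end Pool.Agent.Lib.MP_f2e65a_lc
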