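import Pool.Agent.Lib.MP_f2e65a_lc.Uin
import Pool.Agent.Lib.MP_f2e65a_lc.CapRet

/-! # RelA: the second Reidemeister move (sliding a cap over a strand)

`p = e none`, `q = f none`, `r ≠ p`, `X = cross p q D`, `Y = cross r q X`.  `ret_cap` with `e' = e.trans (swap p r)`, `f' = f`, `ε = -1`; so `e' none = r`, `e' (some t) = swap p r (e (some t))`.
An element of `Y` is `y = ((m, w₁), w₂)`, `w₁ : (uobj D.A p q).M`, `w₂ : (uobj X.A r q).M`.  If `E p q y = y` then
`m = E p q m`, `w₁ = (v, single p μ)` (`uE_pq_*`), `w₂ = (0, single p (w, ω))` (`uE_tq_*` with `t = p ≠ r`; `w : D.A.M`, `ω : (uobj D.A p q).M`), and `E r q (w, ω) = (w, ω)` (`uc_m`) gives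
`E r q w = w`, `ω = (0, single r z)`; `v, μ, z` are in the image of `E p q` (`uc_v`, `uc_m`).  Write `y = (m, v, μ, w, z)`.  Then
`D y = (d m, m - d v, x_p m - d μ, S_rp m - d w, μ + x_r v - S_pr w + d z)`:
 `D_X (m, w₁) = (d m, η_pq m - d w₁)`, `η_pq m = (m, single p (x_p m))` (`S p τ (E τ q m) = 0` by `E_col`);
 `η_rq (m, w₁)` has the only coordinate `p`: `S r p (m, w₁) = (S_rp m, (0, single r (μ + x_r v)))` (`uS_p'`, `uS1_*`), as `E p q (m, w₁) = (m, w₁)`, the others vanish by `E_col`;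
 `D_X (w, (0, single r z)) = (d w, (0, single r (S_pr w - d z)))` (`η_pq w = (0, single r (S p r w))` since `E r q w = w`).
* `F y = w - S_rp v`, `G w = ((0, uin p (S_pr w)), uin' p (w, 0))` (`uin D.A p q p`, `uin X.A r q p`; `= (0, 0, S_pr w, w, 0)`), `H y = - ((v, uin p z), 0) = - (v, 0, z, 0, 0)`; in terms of `y`:
 `v = (uc w₁).1`, `(w, ω) = (uc w₂).2 p`, `z = (uc ω).2 r`.
* `F D y = S_rp m - d w - S_rp (m - d v) = - d (w - S_rp v)`.  `D G w = (0, 0, - d S_pr w, - d w, S_pr w - S_pr w) = - G (d w)`.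
* `D (v,0,z,0,0) = (d v, v, x_p v - d z, S_rp v, z)`, `(D y ↦ (m - d v, 0, μ + x_r v - S_pr w + d z, 0, 0))`; so `1 + D H + H D = (0, 0, S_pr w - x_p v - x_r v, w - S_rp v, 0) = G F y`, as
 `S_pr S_rp v = x_p v + x_r v` (`S_symm`, `S_sq`).
* `CapHom`: `F`: for `t ∉ {p}`: `F (x t y) = x (swap p r t) (F y)`: for `t ≠ r` clear; for `t = r`: the coordinate `w` of `x r y`: `(ux r r w₂).2 p = x_p (w, ω)` (`ux_p_ne`), so it is `x_p w`, and `x_r v`:
 `x_p w - S_rp x_r v = x_p (w - S_rp v)` (`x_S`, `x_S_eq`).  Saddles `S t s` with `t, s ≠ p, r`: clear (`swap t s p = p`).  Saddle `S r t` (`t ≠ p, r`): coordinate `w` of it: `(uS1 r t w₂).2 p = S p t (w, ω)`, so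
 `S_pt w`, and `v ↦ S_rt v`: `S_pt w - S_rp S_rt v = S_pt (w - S_rp v)` (`S_S_S`).  Projections `E t u`, `u ≠ q`, `t ≠ p`: `t ≠ r`: clear.  `t = r`: coordinate `w`: `(uE r q r u w₂).2 p = E p u (w, ω)`: `E_pu w`,
 `v ↦ E_ru v`: `E_pu w - S_rp E_ru v = E_pu (w - S_rp v)` (`S_E`).  The same for `G`, `H` (compare all coordinates, `uobj_ext`, `Prod.ext`).
All formulas were tested numerically. -/

set_option autoImplicit false
set_option linter.unusedVariables false
set_option linter.unusedSectionVars false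

namespace Pool.Agent.Lib.MP_f2e65a_lc

variable {k : Type} [Field k] {P Q P' Q' : Type} [Fintype P] [DecidableEq P] [Fintype Q]
  [DecidableEq Q] [Fintype P'] [DecidableEq P'] [Fintype Q'] [DecidableEq Q']

/-! ### products -/

/-- pairs -/
private def RelA_mk {A B : BN k P Q} (a : A.M) (b : B.M) : (A.prod B).M := ((a, b) : A.M × B.M)
private def RelA_1 {A B : BN k P Q} (y : (A.prod B).M) : A.M := (y : A.M × B.M).1
private def RelA_2 {A B : BN k P Q} (y : (A.prod B).M) : B.M := (y : A.M × B.M).2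

private theorem RelA_mk_1 {A B : BN k P Q} (a : A.M) (b : B.M) : RelA_1 (RelA_mk a b) = a := rfl
private theorem RelA_mk_2 {A B : BN k P Q} (a : A.M) (b : B.M) : RelA_2 (RelA_mk a b) = b := rfl
private theorem RelA_mk_eq {A B : BN k P Q} (y : (A.prod B).M) :
    y = RelA_mk (RelA_1 y) (RelA_2 y) := rfl
private theorem RelA_mk_x {A B : BN k P Q} (a : A.M) (b : B.M) (t : P) :
    (A.prod B).x t (RelA_mk a b) = RelA_mk (A.x t a) (B.x t b) := rfl
private theorem RelA_mk_S {A B : BN k P Q} (a : A.M) (b : B.M) (t s : P) :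
    (A.prod B).S t s (RelA_mk a b) = RelA_mk (A.S t s a) (B.S t s b) := rfl
private theorem RelA_mk_E {A B : BN k P Q} (a : A.M) (b : B.M) (t : P) (s : Q) :
    (A.prod B).E t s (RelA_mk a b) = RelA_mk (A.E t s a) (B.E t s b) := rfl
private theorem RelA_mk_add {A B : BN k P Q} (a a' : A.M) (b b' : B.M) :
    RelA_mk a b + RelA_mk a' b' = RelA_mk (a + a') (b + b') := rfl
private theorem RelA_mk_sub {A B : BN k P Q} (a a' : A.M) (b b' : B.M) :
    RelA_mk a b - RelA_mk a' b' = RelA_mk (a - a') (b - b') := rfl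
private theorem RelA_mk_neg {A B : BN k P Q} (a : A.M) (b : B.M) :
    -RelA_mk a b = RelA_mk (-a) (-b) := rfl
private theorem RelA_mk_zero {A B : BN k P Q} :
    (RelA_mk 0 0 : (A.prod B).M) = 0 := rfl
private theorem RelA_mk_smul {A B : BN k P Q} (c : k) (a : A.M) (b : B.M) :
    c • RelA_mk a b = RelA_mk (c • a) (c • b) := rfl
private theorem RelA_1x {A B : BN k P Q} (y : (A.prod B).M) (t : P) :
    RelA_1 ((A.prod B).x t y) = A.x t (RelA_1 y) := rfl
private theorem RelA_1S {A B : BN k P Q} (y : (A.prod B).M) (t s : P) :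
    RelA_1 ((A.prod B).S t s y) = A.S t s (RelA_1 y) := rfl
private theorem RelA_1E {A B : BN k P Q} (y : (A.prod B).M) (t : P) (s : Q) :
    RelA_1 ((A.prod B).E t s y) = A.E t s (RelA_1 y) := rfl
private theorem RelA_2x {A B : BN k P Q} (y : (A.prod B).M) (t : P) :
    RelA_2 ((A.prod B).x t y) = B.x t (RelA_2 y) := rfl
private theorem RelA_2S {A B : BN k P Q} (y : (A.prod B).M) (t s : P) :
    RelA_2 ((A.prod B).S t s y) = B.S t s (RelA_2 y) := rfl
private theorem RelA_2E {A B : BN k P Q} (y : (A.prod B).M) (t : P) (s : Q) :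
    RelA_2 ((A.prod B).E t s y) = B.E t s (RelA_2 y) := rfl
private theorem RelA_1sub {A B : BN k P Q} (y y' : (A.prod B).M) :
    RelA_1 (y - y') = RelA_1 y - RelA_1 y' := rfl
private theorem RelA_2sub {A B : BN k P Q} (y y' : (A.prod B).M) :
    RelA_2 (y - y') = RelA_2 y - RelA_2 y' := rfl

/-! ### inclusions of coordinates -/

private theorem RelA_ueta (A : BN k P Q) (p : P) (q : Q) (m : A.M) :
    uc A p q ((ueta A p q).1 m) = uη A p q m := rfl

private theorem RelA_umap {A B : BN k P Q} (g : Hom A B) (p : P) (q : Q) (w : (uobj A p q).M) :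
    uc B p q ((umap g p q).1 w) = umapW g (uc A p q w) := rfl

private theorem RelA_swap {t s p : P} (ht : t ≠ p) (hs : s ≠ p) (σ : P) :
    Equiv.swap t s σ = p ↔ σ = p := by
  have h0 : Equiv.swap t s p = p := Equiv.swap_apply_of_ne_of_ne (Ne.symm ht) (Ne.symm hs)
  constructor
  · intro h
    exact (Equiv.swap t s).injective (h.trans h0.symm)
  · rintro rfl
    exact h0

private theorem RelA_uin_x (A : BN k P Q) (p : P) (q : Q) (τ t : P) (ht : t ≠ p) (u : A.M) :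
    (uobj A p q).x t (uin A p q τ u) = uin A p q τ (A.x t u) := by
  refine uobj_ext ?_ fun σ => ?_
  · rw [uc_x, ux_ne_v A _ ht, uc_uin_v, uc_uin_v, map_zero]
  · rw [uc_x, ux_ne A _ ht, uc_uin_m, uc_uin_m]
    split_ifs with h
    · exact A.x_E _ _ _ _
    · exact map_zero _

private theorem RelA_uin_x' (A : BN k P Q) (p : P) (q : Q) (τ : P) (hτ : τ ≠ p) (u : A.M) :
    (uobj A p q).x p (uin A p q τ u) = uin A p q τ (A.x τ u) := by
  refine uobj_ext ?_ fun σ => ?_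
  · rw [uc_x, ux_p_v, uc_uin_v, uc_uin_m, if_neg (Ne.symm hτ)]
  · rw [uc_x, uc_uin_m]
    by_cases h : σ = p
    · subst h
      rw [ux_p_p, if_neg (Ne.symm hτ)]
    · rw [ux_p_ne A _ h, uc_uin_m]
      split_ifs with h'
      · subst h'
        exact A.x_E _ _ _ _
      · exact map_zero _

private theorem RelA_uin_S (A : BN k P Q) (p : P) (q : Q) (τ t s : P) (hts : t ≠ s)
    (ht : t ≠ p) (hs : s ≠ p) (ht' : t ≠ τ) (hs' : s ≠ τ) (u : A.M) :
    (uobj A p q).S t s (uin A p q τ u) = uin A p q τ (A.S t s u) := by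
  refine uobj_ext ?_ fun σ => ?_
  · rw [uc_S, uS_ne_v A _ hts ht hs, uc_uin_v, uc_uin_v, map_zero]
  · rw [uc_S, uS_ne A _ hts ht hs, uc_uin_m, uc_uin_m]
    by_cases h : σ = τ
    · rw [if_pos h, if_pos ((RelA_swap ht' hs' σ).2 h)]
      exact A.S_E' t s p q _ hts (Ne.symm ht) (Ne.symm hs)
    · rw [if_neg h, if_neg fun h' => h ((RelA_swap ht' hs' σ).1 h'), map_zero]

private theorem RelA_uin_S' (A : BN k P Q) (p : P) (q : Q) (τ s : P) (hτ : τ ≠ p) (hs : s ≠ p)
    (hs' : s ≠ τ) (u : A.M) :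
    (uobj A p q).S p s (uin A p q τ u) = uin A p q τ (A.S τ s u) := by
  refine uobj_ext ?_ fun σ => ?_
  · rw [uc_S, uS_p A hs, uS1_v, uc_uin_v, uc_uin_m, if_neg hs']
  · rw [uc_S, uS_p A hs, uc_uin_m A p q τ σ (A.S τ s u)]
    by_cases h : σ = p
    · subst h
      rw [uS1_p, uc_uin_m, if_neg hs', if_neg (Ne.symm hτ), map_zero]
    · by_cases h' : σ = s
      · subst h'
        rw [uS1_self A _ hs, uc_uin_v, uc_uin_m, if_neg (Ne.symm hτ), if_neg hs', map_zero,
          add_zero]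
      · rw [uS1_ne A _ h h', uc_uin_m]
        split_ifs with h3
        · subst h3
          exact A.S_E' σ s p q _ h' (Ne.symm h) (Ne.symm hs)
        · exact map_zero _

private theorem RelA_uin_S1 (A : BN k P Q) (p : P) (q : Q) (r : P) (hr : r ≠ p) (u : A.M) :
    (uobj A p q).S p r (uin A p q p u) = uin A p q r u := by
  refine uobj_ext ?_ fun σ => ?_
  · rw [uc_S, uS_p A hr, uS1_v, uc_uin_v, uc_uin_m, if_neg hr]
  · rw [uc_S, uS_p A hr, uc_uin_m A p q r σ u]
    by_cases h : σ = p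
    · subst h
      rw [uS1_p, uc_uin_m, if_neg hr, if_neg (Ne.symm hr), map_zero]
    · by_cases h' : σ = r
      · subst h'
        rw [uS1_self A _ hr, uc_uin_v, uc_uin_m, if_pos rfl, if_pos rfl, map_zero, add_zero]
      · rw [uS1_ne A _ h h', uc_uin_m, if_neg h, if_neg h', map_zero]

private theorem RelA_uin_E (A : BN k P Q) (p : P) (q : Q) (τ t : P) (s : Q) (ht : t ≠ p)
    (hs : s ≠ q) (ht' : t ≠ τ) (u : A.M) :
    (uobj A p q).E t s (uin A p q τ u) = uin A p q τ (A.E t s u) := by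
  refine uobj_ext ?_ fun σ => ?_
  · rw [uc_E, uE_tu_v A _ ht hs, uc_uin_v, uc_uin_v, map_zero]
  · rw [uc_E, uc_uin_m A p q τ σ (A.E t s u)]
    by_cases hσ : σ = t
    · subst hσ
      rw [uE_tu_t A _ ht hs, if_neg ht']
    · rw [uE_tu_ne A _ ht hs hσ, uc_uin_m]
      split_ifs with h
      · exact A.E_E _ _ _ _ _
      · exact map_zero _

private theorem RelA_uin_E' (A : BN k P Q) (p : P) (q : Q) (τ : P) (s : Q) (hτ : τ ≠ p)
    (hs : s ≠ q) (u : A.M) :
    (uobj A p q).E p s (uin A p q τ u) = uin A p q τ (A.E τ s u) := by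
  refine uobj_ext ?_ fun σ => ?_
  · rw [uc_E, uE_pu_v A _ hs, uc_uin_v]
  · rw [uc_E, uc_uin_m A p q τ σ (A.E τ s u)]
    by_cases hσ : σ = p
    · subst hσ
      rw [uE_pu_p A _ hs, if_neg (Ne.symm hτ)]
    · rw [uE_pu_ne A _ hs hσ, uc_uin_m]
      split_ifs with h
      · subst h
        exact A.E_E _ _ _ _ _
      · exact map_zero _

private theorem RelA_uin_E0 (A : BN k P Q) (p : P) (q : Q) (u : A.M) :
    (uobj A p q).E p q (uin A p q p u) = uin A p q p u := by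
  refine uobj_ext ?_ fun σ => ?_
  · rw [uc_E, uE_pq_v]
  · rw [uc_E]
    by_cases h : σ = p
    · subst h
      rw [uE_pq_p]
    · rw [uE_pq_ne A _ h, uc_uin_m, if_neg h]

private theorem RelA_uin_E1 (A : BN k P Q) (p : P) (q : Q) (τ : P) (hτ : τ ≠ p) (u : A.M) :
    (uobj A p q).E τ q (uin A p q τ u) = uin A p q τ u := by
  refine uobj_ext ?_ fun σ => ?_
  · rw [uc_E, uE_tq_v A _ hτ, uc_uin_v]
  · rw [uc_E]
    by_cases h : σ = τ
    · subst h
      rw [uE_tq_t A _ hτ]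
    · rw [uE_tq_ne A _ hτ h, uc_uin_m, if_neg h]

private theorem RelA_uin_map {A B : BN k P Q} (g : Hom A B) (p : P) (q : Q) (τ : P) (u : A.M) :
    (umap g p q).1 (uin A p q τ u) = uin B p q τ (g.1 u) := by
  refine uobj_ext ?_ fun σ => ?_
  · rw [RelA_umap, umapW_v, uc_uin_v, uc_uin_v, map_zero]
  · rw [RelA_umap, umapW_m, uc_uin_m, uc_uin_m]
    split_ifs with h
    · exact g.2.2.2 _ _ _
    · exact map_zero _

/-- the natural map on the part of the closures which join `t` to `q` -/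
private theorem RelA_eta_ne (B : BN k P Q) (p : P) (q : Q) (t : P) (ht : t ≠ p) (b : B.M)
    (hb : B.E t q b = b) : (ueta B p q).1 b = uin B p q t (B.S p t b) := by
  have h1 : ∀ σ, σ ≠ t → B.E σ q b = 0 := by
    intro σ hσ
    rw [← hb, B.E_col _ _ _ _ hσ]
  have h2 : B.E p q (B.S p t b) = B.S p t b := by
    rw [B.S_symm _ _ _ (Ne.symm ht)]
    conv_rhs => rw [← hb]
    exact (B.S_E t p q b ht).symm
  refine uobj_ext ?_ fun σ => ?_
  · rw [RelA_ueta, uη_v, uc_uin_v, h1 p (Ne.symm ht)]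
  · rw [RelA_ueta, uc_uin_m]
    by_cases h : σ = p
    · subst h
      rw [uη_p, h1 σ (Ne.symm ht), map_zero, if_neg (Ne.symm ht)]
    · rw [uη_ne B _ h]
      by_cases h' : σ = t
      · subst h'
        rw [if_pos rfl, hb, h2]
      · rw [if_neg h', h1 σ h', map_zero]

private theorem RelA_eq_ne (B : BN k P Q) (p : P) (q : Q) (t : P) (ht : t ≠ p)
    (w : (uobj B p q).M) (hw : (uobj B p q).E t q w = w) :
    w = uin B p q t ((uc B p q w).2 t) := by
  refine uobj_ext ?_ fun σ => ?_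
  · rw [uc_uin_v]
    conv_lhs => rw [← hw]
    rw [uc_E, uE_tq_v B _ ht]
  · rw [uc_uin_m]
    by_cases h : σ = t
    · subst h
      rw [if_pos rfl, uc_m]
    · rw [if_neg h]
      conv_lhs => rw [← hw]
      rw [uc_E, uE_tq_ne B _ ht h]

private theorem RelA_eq_p (B : BN k P Q) (p : P) (q : Q) (w : (uobj B p q).M)
    (hw : (uobj B p q).E p q w = w) :
    w = (ueta B p q).1 (uc B p q w).1 - uin B p q p (B.x p (uc B p q w).1) +
      uin B p q p ((uc B p q w).2 p) := by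
  have h0 : ∀ σ, σ ≠ p → (uc B p q w).2 σ = 0 := by
    intro σ hσ
    rw [← hw, uc_E, uE_pq_ne B _ hσ]
  have h1 : uc B p q ((ueta B p q).1 (uc B p q w).1 - uin B p q p (B.x p (uc B p q w).1) +
      uin B p q p ((uc B p q w).2 p)) = uη B p q (uc B p q w).1 -
        uc B p q (uin B p q p (B.x p (uc B p q w).1)) +
        uc B p q (uin B p q p ((uc B p q w).2 p)) := by
    rw [map_add, map_sub, RelA_ueta]
  refine uobj_ext ?_ fun σ => ?_
  · rw [h1]
    change _ = (uη B p q (uc B p q w).1).1 - (uc B p q (uin B p q p _)).1 +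
      (uc B p q (uin B p q p _)).1
    rw [uη_v, uc_v, uc_uin_v, uc_uin_v, sub_zero, add_zero]
  · rw [h1]
    change _ = (uη B p q (uc B p q w).1).2 σ - (uc B p q (uin B p q p _)).2 σ +
      (uc B p q (uin B p q p _)).2 σ
    rw [uc_uin_m, uc_uin_m]
    by_cases h : σ = p
    · subst h
      rw [uη_p, if_pos rfl, if_pos rfl, ← B.x_E, uc_v, uc_m, sub_self, zero_add]
    · rw [uη_ne B _ h, if_neg h, if_neg h, h0 σ h, sub_zero, add_zero, ← uc_v,
        B.E_col _ _ _ _ h, map_zero]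

/-! ### the maps -/

/-- the double crossing -/
private abbrev RelA_Y (A : BN k P Q) (p r : P) (q : Q) : BN k P Q :=
  (A.prod (uobj A p q)).prod (uobj (A.prod (uobj A p q)) r q)

private def RelA_F (A : BN k P Q) (p r : P) (q : Q) : (RelA_Y A p r q).M →ₗ[k] A.M :=
  (fstH A (uobj A p q)).1 ∘ₗ um (A.prod (uobj A p q)) p ∘ₗ uc (A.prod (uobj A p q)) r q ∘ₗ
    (sndH (A.prod (uobj A p q)) (uobj (A.prod (uobj A p q)) r q)).1 -
  A.S r p ∘ₗ uv A ∘ₗ uc A p q ∘ₗ (sndH A (uobj A p q)).1 ∘ₗ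
    (fstH (A.prod (uobj A p q)) (uobj (A.prod (uobj A p q)) r q)).1

private def RelA_G (A : BN k P Q) (p r : P) (q : Q) : A.M →ₗ[k] (RelA_Y A p r q).M :=
  (inlH (A.prod (uobj A p q)) (uobj (A.prod (uobj A p q)) r q)).1 ∘ₗ
    (inrH A (uobj A p q)).1 ∘ₗ uin A p q p ∘ₗ A.S p r +
  (inrH (A.prod (uobj A p q)) (uobj (A.prod (uobj A p q)) r q)).1 ∘ₗ
    uin (A.prod (uobj A p q)) r q p ∘ₗ (inlH A (uobj A p q)).1

private def RelA_H (A : BN k P Q) (p r : P) (q : Q) :
    (RelA_Y A p r q).M →ₗ[k] (RelA_Y A p r q).M :=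
  -((inlH (A.prod (uobj A p q)) (uobj (A.prod (uobj A p q)) r q)).1 ∘ₗ
    ((inlH A (uobj A p q)).1 ∘ₗ uv A ∘ₗ uc A p q ∘ₗ (sndH A (uobj A p q)).1 ∘ₗ
      (fstH (A.prod (uobj A p q)) (uobj (A.prod (uobj A p q)) r q)).1 +
    (inrH A (uobj A p q)).1 ∘ₗ uin A p q p ∘ₗ um A r ∘ₗ uc A p q ∘ₗ
      (sndH A (uobj A p q)).1 ∘ₗ um (A.prod (uobj A p q)) p ∘ₗ
      uc (A.prod (uobj A p q)) r q ∘ₗ
      (sndH (A.prod (uobj A p q)) (uobj (A.prod (uobj A p q)) r q)).1))

private theorem RelA_F_apply (A : BN k P Q) (p r : P) (q : Q) (m : A.M) (w₁ : (uobj A p q).M)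
    (w₂ : (uobj (A.prod (uobj A p q)) r q).M) :
    RelA_F A p r q (RelA_mk (RelA_mk m w₁) w₂) =
      RelA_1 ((uc (A.prod (uobj A p q)) r q w₂).2 p) - A.S r p (uc A p q w₁).1 := rfl

private theorem RelA_G_apply (A : BN k P Q) (p r : P) (q : Q) (w : A.M) :
    RelA_G A p r q w = RelA_mk (RelA_mk 0 (uin A p q p (A.S p r w)))
      (uin (A.prod (uobj A p q)) r q p (RelA_mk w 0)) := by
  have h1 : RelA_G A p r q w = RelA_mk (RelA_mk (0 : A.M) (uin A p q p (A.S p r w)))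
      (0 : (uobj (A.prod (uobj A p q)) r q).M) +
      RelA_mk (0 : (A.prod (uobj A p q)).M)
        (uin (A.prod (uobj A p q)) r q p (RelA_mk w (0 : (uobj A p q).M))) := rfl
  rw [h1, RelA_mk_add, add_zero, zero_add]

private theorem RelA_H_apply (A : BN k P Q) (p r : P) (q : Q) (m : A.M) (w₁ : (uobj A p q).M)
    (w₂ : (uobj (A.prod (uobj A p q)) r q).M) :
    RelA_H A p r q (RelA_mk (RelA_mk m w₁) w₂) =
      RelA_mk (RelA_mk (-(uc A p q w₁).1) (-uin A p q p ((uc A p q (RelA_2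
        ((uc (A.prod (uobj A p q)) r q w₂).2 p))).2 r))) 0 := by
  have h1 : RelA_H A p r q (RelA_mk (RelA_mk m w₁) w₂) =
      -RelA_mk (RelA_mk (uc A p q w₁).1 (0 : (uobj A p q).M) + RelA_mk (0 : A.M)
        (uin A p q p ((uc A p q (RelA_2 ((uc (A.prod (uobj A p q)) r q w₂).2 p))).2 r)))
        (0 : (uobj (A.prod (uobj A p q)) r q).M) := rfl
  rw [h1, RelA_mk_add, RelA_mk_neg, RelA_mk_neg, add_zero, zero_add, neg_zero]

section

variable (A : BN k P Q) (e : Option P' ≃ P) (f : Option Q' ≃ Q) (r : P) (hr : r ≠ e none)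
  (he : ∀ t : P', e (some t) ≠ e none) (hf : ∀ t : Q', f (some t) ≠ f none)
  (hes : ∀ t s : P', t ≠ s → e (some t) ≠ e (some s))

include hr he hf hes

private theorem RelA_capF : CapHom e (e.trans (Equiv.swap (e none) r)) f f
    (RelA_Y A (e none) r (f none)) A (RelA_F A (e none) r (f none)) := by
  have hr' : e none ≠ r := Ne.symm hr
  refine ⟨?_, ?_, ?_, ?_⟩
  · rintro ⟨⟨m, w₁⟩, w₂⟩ -
    change A.E (Equiv.swap (e none) r (e none)) (f none)
      (RelA_F A (e none) r (f none) (RelA_mk (RelA_mk m w₁) w₂)) =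
      RelA_F A (e none) r (f none) (RelA_mk (RelA_mk m w₁) w₂)
    have h1 := congrArg RelA_1 (uc_m (A.prod (uobj A (e none) (f none))) r (f none) w₂ (e none))
    rw [RelA_1E] at h1
    rw [Equiv.swap_apply_left, RelA_F_apply, map_sub, h1, A.S_symm _ _ _ hr,
      ← uc_v A (e none) (f none) w₁, A.S_E _ _ _ _ hr', A.E_idem]
  · rintro t ⟨⟨m, w₁⟩, w₂⟩ -
    change RelA_F A (e none) r (f none) (RelA_mk (RelA_mk (A.x (e (some t)) m)
      ((uobj A (e none) (f none)).x (e (some t)) w₁))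
      ((uobj (A.prod (uobj A (e none) (f none))) r (f none)).x (e (some t)) w₂)) =
      A.x (Equiv.swap (e none) r (e (some t)))
        (RelA_F A (e none) r (f none) (RelA_mk (RelA_mk m w₁) w₂))
    rw [RelA_F_apply, RelA_F_apply, map_sub, uc_x, uc_x, ux_ne_v A _ (he t)]
    by_cases h : e (some t) = r
    · rw [h, Equiv.swap_apply_right, ux_p_ne _ _ hr', RelA_1x,
        ← A.x_S _ _ _ _ hr, A.x_S_eq _ _ _ hr]
    · rw [Equiv.swap_apply_of_ne_of_ne (he t) h, ux_ne _ _ h, RelA_1x, A.x_S _ _ _ _ hr]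
  · rintro t s ⟨⟨m, w₁⟩, w₂⟩ hts -
    change RelA_F A (e none) r (f none) (RelA_mk (RelA_mk (A.S (e (some t)) (e (some s)) m)
      ((uobj A (e none) (f none)).S (e (some t)) (e (some s)) w₁))
      ((uobj (A.prod (uobj A (e none) (f none))) r (f none)).S (e (some t)) (e (some s)) w₂)) =
      A.S (Equiv.swap (e none) r (e (some t))) (Equiv.swap (e none) r (e (some s)))
        (RelA_F A (e none) r (f none) (RelA_mk (RelA_mk m w₁) w₂))
    rw [RelA_F_apply, RelA_F_apply, map_sub, uc_S, uc_S, uS_ne_v A _ (hes t s hts) (he t) (he s)]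
    by_cases h : e (some t) = r
    · have h' : e (some s) ≠ r := fun h' => hes t s hts (h.trans h'.symm)
      rw [h, Equiv.swap_apply_right, Equiv.swap_apply_of_ne_of_ne (he s) h',
        uS_p _ h', uS1_ne _ _ hr' (Ne.symm (he s)), RelA_1S,
        A.S_S_S _ _ _ _ hr (Ne.symm (he s)) (Ne.symm h')]
    · by_cases h' : e (some s) = r
      · rw [h', Equiv.swap_apply_right, Equiv.swap_apply_of_ne_of_ne (he t) h,
          uS_p' _ h, uS1_ne _ _ hr' (Ne.symm (he t)), RelA_1S,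
          A.S_symm _ _ (uc A (e none) (f none) w₁).1 h,
          ← A.S_S_S _ _ _ _ hr (Ne.symm (he t)) (Ne.symm h),
          A.S_symm _ _ _ (he t), A.S_symm _ _ (A.S r (e none) _) (he t)]
      · rw [Equiv.swap_apply_of_ne_of_ne (he t) h, Equiv.swap_apply_of_ne_of_ne (he s) h',
          uS_ne _ _ (hes t s hts) h h',
          Equiv.swap_apply_of_ne_of_ne (Ne.symm (he t)) (Ne.symm (he s)), RelA_1S,
          A.S_S _ _ _ _ _ hr (hes t s hts) (Ne.symm h) (Ne.symm h') (Ne.symm (he t))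
            (Ne.symm (he s))]
  · rintro t s ⟨⟨m, w₁⟩, w₂⟩ -
    change RelA_F A (e none) r (f none) (RelA_mk (RelA_mk (A.E (e (some t)) (f (some s)) m)
      ((uobj A (e none) (f none)).E (e (some t)) (f (some s)) w₁))
      ((uobj (A.prod (uobj A (e none) (f none))) r (f none)).E (e (some t)) (f (some s)) w₂)) =
      A.E (Equiv.swap (e none) r (e (some t))) (f (some s))
        (RelA_F A (e none) r (f none) (RelA_mk (RelA_mk m w₁) w₂))
    rw [RelA_F_apply, RelA_F_apply, map_sub, uc_E, uc_E, uE_tu_v A _ (he t) (hf s)]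
    by_cases h : e (some t) = r
    · rw [h, Equiv.swap_apply_right, uE_pu_ne _ _ (hf s) hr', RelA_1E, A.S_E _ _ _ _ hr]
    · rw [Equiv.swap_apply_of_ne_of_ne (he t) h, uE_tu_ne _ _ h (hf s) (Ne.symm (he t)),
        RelA_1E, A.S_E' _ _ _ _ _ hr h (he t)]

private theorem RelA_capG : CapHom (e.trans (Equiv.swap (e none) r)) e f f A
    (RelA_Y A (e none) r (f none)) (RelA_G A (e none) r (f none)) := by
  have hr' : e none ≠ r := Ne.symm hr
  refine ⟨?_, ?_, ?_, ?_⟩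
  · intro w _
    rw [RelA_G_apply, RelA_mk_E, RelA_mk_E, map_zero, RelA_uin_E0, RelA_uin_E1 _ _ _ _ hr']
  · intro t w _
    change RelA_G A (e none) r (f none) (A.x (Equiv.swap (e none) r (e (some t))) w) =
      (RelA_Y A (e none) r (f none)).x (e (some t)) (RelA_G A (e none) r (f none) w)
    rw [RelA_G_apply, RelA_G_apply, RelA_mk_x, RelA_mk_x, map_zero, RelA_uin_x _ _ _ _ _ (he t)]
    by_cases h : e (some t) = r
    · rw [h, Equiv.swap_apply_right, RelA_uin_x' _ _ _ _ hr', RelA_mk_x, map_zero,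
        ← A.x_S_eq _ _ _ hr', A.x_S _ _ _ _ hr']
    · rw [Equiv.swap_apply_of_ne_of_ne (he t) h, RelA_uin_x _ _ _ _ _ h, RelA_mk_x, map_zero,
        A.x_S _ _ _ _ hr']
  · intro t s w hts _
    change RelA_G A (e none) r (f none) (A.S (Equiv.swap (e none) r (e (some t)))
      (Equiv.swap (e none) r (e (some s))) w) =
      (RelA_Y A (e none) r (f none)).S (e (some t)) (e (some s))
        (RelA_G A (e none) r (f none) w)
    rw [RelA_G_apply, RelA_G_apply, RelA_mk_S, RelA_mk_S, map_zero,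
      RelA_uin_S _ _ _ _ _ _ (hes t s hts) (he t) (he s) (he t) (he s)]
    by_cases h : e (some t) = r
    · have h' : e (some s) ≠ r := fun h' => hes t s hts (h.trans h'.symm)
      rw [h, Equiv.swap_apply_right, Equiv.swap_apply_of_ne_of_ne (he s) h',
        RelA_uin_S' _ _ _ _ _ hr' h' (he s), RelA_mk_S, map_zero,
        A.S_S_S _ _ _ _ hr' (Ne.symm h') (Ne.symm (he s))]
    · by_cases h' : e (some s) = r
      · rw [h', Equiv.swap_apply_right, Equiv.swap_apply_of_ne_of_ne (he t) h,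
          (uobj (A.prod (uobj A (e none) (f none))) r (f none)).S_symm _ _ _ h,
          RelA_uin_S' _ _ _ _ _ hr' h (he t), RelA_mk_S, map_zero,
          A.S_symm _ _ (A.S (e none) r w) h,
          A.S_S_S _ _ _ _ hr' (Ne.symm h) (Ne.symm (he t)), A.S_symm _ _ _ (he t)]
      · rw [Equiv.swap_apply_of_ne_of_ne (he t) h, Equiv.swap_apply_of_ne_of_ne (he s) h',
          RelA_uin_S _ _ _ _ _ _ (hes t s hts) h h' (he t) (he s), RelA_mk_S, map_zero,
          A.S_S _ _ _ _ _ hr' (hes t s hts) (Ne.symm (he t)) (Ne.symm (he s)) (Ne.symm h)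
            (Ne.symm h')]
  · intro t s w _
    change RelA_G A (e none) r (f none) (A.E (Equiv.swap (e none) r (e (some t)))
      (f (some s)) w) =
      (RelA_Y A (e none) r (f none)).E (e (some t)) (f (some s))
        (RelA_G A (e none) r (f none) w)
    rw [RelA_G_apply, RelA_G_apply, RelA_mk_E, RelA_mk_E, map_zero,
      RelA_uin_E _ _ _ _ _ _ (he t) (hf s) (he t)]
    by_cases h : e (some t) = r
    · rw [h, Equiv.swap_apply_right, RelA_uin_E' _ _ _ _ _ hr' (hf s), RelA_mk_E, map_zero,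
        A.S_E _ _ _ _ hr']
    · rw [Equiv.swap_apply_of_ne_of_ne (he t) h, RelA_uin_E _ _ _ _ _ _ h (hf s) (he t),
        RelA_mk_E, map_zero, A.S_E' _ _ _ _ _ hr' (he t) h]

private theorem RelA_capH : CapHom e e f f (RelA_Y A (e none) r (f none))
    (RelA_Y A (e none) r (f none)) (RelA_H A (e none) r (f none)) := by
  have hr' : e none ≠ r := Ne.symm hr
  refine ⟨?_, ?_, ?_, ?_⟩
  · rintro ⟨⟨m, w₁⟩, w₂⟩ -
    change (RelA_Y A (e none) r (f none)).E (e none) (f none)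
      (RelA_H A (e none) r (f none) (RelA_mk (RelA_mk m w₁) w₂)) =
      RelA_H A (e none) r (f none) (RelA_mk (RelA_mk m w₁) w₂)
    rw [RelA_H_apply, RelA_mk_E, RelA_mk_E, map_neg, map_neg, map_zero, RelA_uin_E0, uc_v]
  · rintro t ⟨⟨m, w₁⟩, w₂⟩ -
    change RelA_H A (e none) r (f none) (RelA_mk (RelA_mk (A.x (e (some t)) m)
      ((uobj A (e none) (f none)).x (e (some t)) w₁))
      ((uobj (A.prod (uobj A (e none) (f none))) r (f none)).x (e (some t)) w₂)) =
      (RelA_Y A (e none) r (f none)).x (e (some t))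
        (RelA_H A (e none) r (f none) (RelA_mk (RelA_mk m w₁) w₂))
    rw [RelA_H_apply, RelA_H_apply, RelA_mk_x, RelA_mk_x, map_neg, map_neg, map_zero,
      RelA_uin_x _ _ _ _ _ (he t), uc_x, uc_x, ux_ne_v A _ (he t)]
    by_cases h : e (some t) = r
    · rw [h, ux_p_ne _ _ hr', RelA_2x, uc_x, ux_p_ne _ _ hr]
    · rw [ux_ne _ _ h, RelA_2x, uc_x, ux_ne _ _ (he t)]
  · rintro t s ⟨⟨m, w₁⟩, w₂⟩ hts -
    change RelA_H A (e none) r (f none) (RelA_mk (RelA_mk (A.S (e (some t)) (e (some s)) m)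
      ((uobj A (e none) (f none)).S (e (some t)) (e (some s)) w₁))
      ((uobj (A.prod (uobj A (e none) (f none))) r (f none)).S (e (some t)) (e (some s)) w₂)) =
      (RelA_Y A (e none) r (f none)).S (e (some t)) (e (some s))
        (RelA_H A (e none) r (f none) (RelA_mk (RelA_mk m w₁) w₂))
    rw [RelA_H_apply, RelA_H_apply, RelA_mk_S, RelA_mk_S, map_neg, map_neg, map_zero,
      RelA_uin_S _ _ _ _ _ _ (hes t s hts) (he t) (he s) (he t) (he s), uc_S, uc_S,
      uS_ne_v A _ (hes t s hts) (he t) (he s)]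
    by_cases h : e (some t) = r
    · have h' : e (some s) ≠ r := fun h' => hes t s hts (h.trans h'.symm)
      rw [h, uS_p _ h', uS1_ne _ _ hr' (Ne.symm (he s)), RelA_2S, uc_S, uS_p _ (he s),
        uS1_ne _ _ hr (Ne.symm h')]
    · by_cases h' : e (some s) = r
      · rw [h', uS_p' _ h, uS1_ne _ _ hr' (Ne.symm (he t)), RelA_2S, uc_S, uS_p _ (he t),
          uS1_ne _ _ hr (Ne.symm h), A.S_symm _ _ _ (Ne.symm h)]
      · rw [uS_ne _ _ (hes t s hts) h h',
          Equiv.swap_apply_of_ne_of_ne (Ne.symm (he t)) (Ne.symm (he s)), RelA_2S, uc_S,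
          uS_ne _ _ (hes t s hts) (he t) (he s),
          Equiv.swap_apply_of_ne_of_ne (Ne.symm h) (Ne.symm h')]
  · rintro t s ⟨⟨m, w₁⟩, w₂⟩ -
    change RelA_H A (e none) r (f none) (RelA_mk (RelA_mk (A.E (e (some t)) (f (some s)) m)
      ((uobj A (e none) (f none)).E (e (some t)) (f (some s)) w₁))
      ((uobj (A.prod (uobj A (e none) (f none))) r (f none)).E (e (some t)) (f (some s)) w₂)) =
      (RelA_Y A (e none) r (f none)).E (e (some t)) (f (some s))
        (RelA_H A (e none) r (f none) (RelA_mk (RelA_mk m w₁) w₂))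
    rw [RelA_H_apply, RelA_H_apply, RelA_mk_E, RelA_mk_E, map_neg, map_neg, map_zero,
      RelA_uin_E _ _ _ _ _ _ (he t) (hf s) (he t), uc_E, uc_E, uE_tu_v A _ (he t) (hf s)]
    by_cases h : e (some t) = r
    · rw [h, uE_pu_ne _ _ (hf s) hr', RelA_2E, uc_E, uE_pu_ne _ _ (hf s) hr]
    · rw [uE_tu_ne _ _ h (hf s) (Ne.symm (he t)), RelA_2E, uc_E,
        uE_tu_ne _ _ (he t) (hf s) (Ne.symm h)]

end

section

variable (D : Cx k P Q) (p r : P) (q : Q) (hr : r ≠ p)

/-- the differential of `cross p q D` -/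
private def RelA_dX : Hom (D.A.prod (uobj D.A p q)) (D.A.prod (uobj D.A p q)) :=
  (cross p q D).d

private theorem RelA_dX_apply (m : D.A.M) (w : (uobj D.A p q).M) :
    (RelA_dX D p q).1 (RelA_mk m w) =
      RelA_mk (D.d.1 m) ((ueta D.A p q).1 m - (umap D.d p q).1 w) := rfl

/-- the differential of `cross r q (cross p q D)` -/
private def RelA_dY : (RelA_Y D.A p r q).M →ₗ[k] (RelA_Y D.A p r q).M :=
  (cross r q (cross p q D)).d.1

private theorem RelA_dY_apply (m : D.A.M) (w₁ : (uobj D.A p q).M)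
    (w₂ : (uobj (D.A.prod (uobj D.A p q)) r q).M) :
    RelA_dY D p r q (RelA_mk (RelA_mk m w₁) w₂) =
      RelA_mk (RelA_mk (D.d.1 m) ((ueta D.A p q).1 m - (umap D.d p q).1 w₁))
        ((ueta (D.A.prod (uobj D.A p q)) r q).1 (RelA_mk m w₁) -
          (umap (RelA_dX D p q) r q).1 w₂) := rfl

include hr

private theorem RelA_h1 (m : D.A.M) (w₁ : (uobj D.A p q).M)
    (w₂ : (uobj (D.A.prod (uobj D.A p q)) r q).M)
    (hm : D.A.E p q m = m) (hw₁ : (uobj D.A p q).E p q w₁ = w₁) :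
    RelA_F D.A p r q (RelA_dY D p r q (RelA_mk (RelA_mk m w₁) w₂)) =
      (-1 : k) • D.d.1 (RelA_F D.A p r q (RelA_mk (RelA_mk m w₁) w₂)) := by
  have hx : (D.A.prod (uobj D.A p q)).E p q (RelA_mk m w₁) = RelA_mk m w₁ := by
    rw [RelA_mk_E, hm, hw₁]
  have h1 : (uc D.A p q ((ueta D.A p q).1 m - (umap D.d p q).1 w₁)).1 =
      m - D.d.1 (uc D.A p q w₁).1 := by
    rw [map_sub]
    change (uη D.A p q m).1 - (umapW D.d (uc D.A p q w₁)).1 = _
    rw [uη_v, umapW_v, hm]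
  have h2 : RelA_1 ((uc (D.A.prod (uobj D.A p q)) r q
      ((ueta (D.A.prod (uobj D.A p q)) r q).1 (RelA_mk m w₁) -
        (umap (RelA_dX D p q) r q).1 w₂)).2 p) =
      D.A.S r p m - D.d.1 (RelA_1 ((uc (D.A.prod (uobj D.A p q)) r q w₂).2 p)) := by
    rw [map_sub]
    change RelA_1 ((uη (D.A.prod (uobj D.A p q)) r q (RelA_mk m w₁)).2 p) -
      RelA_1 ((umapW (RelA_dX D p q) (uc (D.A.prod (uobj D.A p q)) r q w₂)).2 p) = _
    rw [uη_ne _ _ (Ne.symm hr), hx, umapW_m]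
    rfl
  rw [RelA_dY_apply, RelA_F_apply, RelA_F_apply, h1, h2, map_sub, map_sub, neg_one_smul,
    D.d.2.2.1 _ _ _ hr]
  abel

private theorem RelA_h2 (w : D.A.M) (hw : D.A.E r q w = w) :
    RelA_G D.A p r q (D.d.1 w) = (-1 : k) • RelA_dY D p r q (RelA_G D.A p r q w) := by
  have hr' : p ≠ r := Ne.symm hr
  have e1 : (ueta D.A p q).1 w = uin D.A p q r (D.A.S p r w) := RelA_eta_ne _ _ _ _ hr _ hw
  have e2 : (D.A.prod (uobj D.A p q)).E p q (RelA_mk 0 (uin D.A p q p (D.A.S p r w))) =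
      RelA_mk 0 (uin D.A p q p (D.A.S p r w)) := by
    rw [RelA_mk_E, map_zero, RelA_uin_E0]
  have e3 : (uobj D.A p q).S r p (uin D.A p q p (D.A.S p r w)) =
      uin D.A p q r (D.A.S p r w) := by
    rw [(uobj D.A p q).S_symm _ _ _ hr, RelA_uin_S1 _ _ _ _ hr]
  have e4 : (ueta (D.A.prod (uobj D.A p q)) r q).1
      (RelA_mk 0 (uin D.A p q p (D.A.S p r w))) =
      uin (D.A.prod (uobj D.A p q)) r q p (RelA_mk 0 (uin D.A p q r (D.A.S p r w))) := by
    rw [RelA_eta_ne _ _ _ _ hr' _ e2, RelA_mk_S, map_zero, e3]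
  rw [RelA_G_apply, RelA_G_apply, RelA_dY_apply, map_zero, map_zero, zero_sub, e4,
    RelA_uin_map, RelA_uin_map, RelA_dX_apply, map_zero, sub_zero, e1, ← map_sub, RelA_mk_sub,
    sub_self, zero_sub, RelA_mk_smul, RelA_mk_smul, smul_zero, neg_one_smul, neg_neg,
    D.d.2.2.1 _ _ _ hr', neg_one_smul, ← map_neg, RelA_mk_neg, neg_neg, neg_zero]

private theorem RelA_h3 (m : D.A.M) (w₁ : (uobj D.A p q).M)
    (w₂ : (uobj (D.A.prod (uobj D.A p q)) r q).M)
    (hm : D.A.E p q m = m) (hw₁ : (uobj D.A p q).E p q w₁ = w₁)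
    (hw₂ : (uobj (D.A.prod (uobj D.A p q)) r q).E p q w₂ = w₂) :
    RelA_G D.A p r q (RelA_F D.A p r q (RelA_mk (RelA_mk m w₁) w₂)) =
      RelA_mk (RelA_mk m w₁) w₂ +
        (RelA_dY D p r q (RelA_H D.A p r q (RelA_mk (RelA_mk m w₁) w₂)) +
          RelA_H D.A p r q (RelA_dY D p r q (RelA_mk (RelA_mk m w₁) w₂))) := by
  have hr' : p ≠ r := Ne.symm hr
  -- the coordinates of `w₂`
  obtain ⟨b, hb⟩ : ∃ b, b = (uc (D.A.prod (uobj D.A p q)) r q w₂).2 p := ⟨_, rfl⟩
  have hbE : (D.A.prod (uobj D.A p q)).E r q b = b := by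
    rw [hb]
    exact uc_m _ _ _ _ _
  have hw₂' : w₂ = uin (D.A.prod (uobj D.A p q)) r q p b := by
    rw [hb]
    exact RelA_eq_ne _ _ _ _ hr' _ hw₂
  obtain ⟨w, hw⟩ : ∃ w, w = RelA_1 b := ⟨_, rfl⟩
  obtain ⟨ω, hω⟩ : ∃ ω, ω = RelA_2 b := ⟨_, rfl⟩
  have hbw : b = RelA_mk w ω := by
    rw [hw, hω]
    exact RelA_mk_eq b
  have hwE : D.A.E r q w = w := by
    rw [hw, ← RelA_1E, hbE]
  have hωE : (uobj D.A p q).E r q ω = ω := by
    rw [hω, ← RelA_2E, hbE]
  obtain ⟨z, hz⟩ : ∃ z, z = (uc D.A p q ω).2 r := ⟨_, rfl⟩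
  have hω' : ω = uin D.A p q r z := by
    rw [hz]
    exact RelA_eq_ne _ _ _ _ hr _ hωE
  -- the coordinates of `w₁`
  obtain ⟨v, hv⟩ : ∃ v, v = (uc D.A p q w₁).1 := ⟨_, rfl⟩
  obtain ⟨μ, hμ⟩ : ∃ μ, μ = (uc D.A p q w₁).2 p := ⟨_, rfl⟩
  have hvE : D.A.E p q v = v := by
    rw [hv]
    exact uc_v _ _ _ _
  have hw₁' := RelA_eq_p D.A p q w₁ hw₁
  rw [← hv, ← hμ] at hw₁'
  -- `F y`
  have hF : RelA_F D.A p r q (RelA_mk (RelA_mk m w₁) w₂) = w - D.A.S r p v := by
    rw [RelA_F_apply, ← hb, ← hw, ← hv]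
  -- `H y`
  have hH : RelA_H D.A p r q (RelA_mk (RelA_mk m w₁) w₂) =
      RelA_mk (RelA_mk (-v) (-uin D.A p q p z)) 0 := by
    rw [RelA_H_apply, ← hb, ← hω, ← hz, ← hv]
  -- `η (v, uin z)`
  have e2 : (D.A.prod (uobj D.A p q)).E p q (RelA_mk v (uin D.A p q p z)) =
      RelA_mk v (uin D.A p q p z) := by
    rw [RelA_mk_E, hvE, RelA_uin_E0]
  have e3 : (uobj D.A p q).S r p (uin D.A p q p z) = uin D.A p q r z := by
    rw [(uobj D.A p q).S_symm _ _ _ hr, RelA_uin_S1 _ _ _ _ hr]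
  have e4 : (ueta (D.A.prod (uobj D.A p q)) r q).1 (RelA_mk v (uin D.A p q p z)) =
      uin (D.A.prod (uobj D.A p q)) r q p (RelA_mk (D.A.S r p v) (uin D.A p q r z)) := by
    rw [RelA_eta_ne _ _ _ _ hr' _ e2, RelA_mk_S, e3]
  have hdH : RelA_dY D p r q (RelA_H D.A p r q (RelA_mk (RelA_mk m w₁) w₂)) =
      RelA_mk (RelA_mk (-D.d.1 v) (-(ueta D.A p q).1 v + uin D.A p q p (D.d.1 z)))
        (-uin (D.A.prod (uobj D.A p q)) r q p (RelA_mk (D.A.S r p v) (uin D.A p q r z))) := by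
    rw [hH, RelA_dY_apply, ← RelA_mk_neg, map_neg, map_neg, map_neg, map_neg, e4, map_zero,
      sub_zero, RelA_uin_map, sub_neg_eq_add]
  -- `H (d y)`
  have hx : (D.A.prod (uobj D.A p q)).E p q (RelA_mk m w₁) = RelA_mk m w₁ := by
    rw [RelA_mk_E, hm, hw₁]
  have h1 : (uc D.A p q ((ueta D.A p q).1 m - (umap D.d p q).1 w₁)).1 = m - D.d.1 v := by
    rw [map_sub]
    change (uη D.A p q m).1 - (umapW D.d (uc D.A p q w₁)).1 = _
    rw [uη_v, umapW_v, hm, hv]
  have h2 : (uc (D.A.prod (uobj D.A p q)) r q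
      ((ueta (D.A.prod (uobj D.A p q)) r q).1 (RelA_mk m w₁) -
        (umap (RelA_dX D p q) r q).1 w₂)).2 p =
      RelA_mk (D.A.S r p m) ((uobj D.A p q).S r p w₁) -
        RelA_mk (D.d.1 w) ((ueta D.A p q).1 w - (umap D.d p q).1 ω) := by
    rw [map_sub]
    change (uη (D.A.prod (uobj D.A p q)) r q (RelA_mk m w₁)).2 p -
      (umapW (RelA_dX D p q) (uc (D.A.prod (uobj D.A p q)) r q w₂)).2 p = _
    rw [uη_ne _ _ (Ne.symm hr), hx, umapW_m, ← hb, hbw, RelA_dX_apply, RelA_mk_S]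
  have h3 : (uc D.A p q (RelA_2 (RelA_mk (D.A.S r p m) ((uobj D.A p q).S r p w₁) -
        RelA_mk (D.d.1 w) ((ueta D.A p q).1 w - (umap D.d p q).1 ω)))).2 r =
      μ + D.A.x r v - (D.A.S p r w - D.d.1 z) := by
    rw [RelA_mk_sub, RelA_mk_2, map_sub, map_sub]
    change (uS D.A p r p (uc D.A p q w₁)).2 r - ((uη D.A p q w).2 r -
      (umapW D.d (uc D.A p q ω)).2 r) = _
    rw [uS_p' _ hr, uS1_self _ _ hr, uη_ne _ _ hr, hwE, umapW_m, hv, hμ, hz]
  have hHd : RelA_H D.A p r q (RelA_dY D p r q (RelA_mk (RelA_mk m w₁) w₂)) =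
      RelA_mk (RelA_mk (-(m - D.d.1 v)) (-uin D.A p q p
        (μ + D.A.x r v - (D.A.S p r w - D.d.1 z)))) 0 := by
    rw [RelA_dY_apply, RelA_H_apply, h1, h2, h3]
  have hsq : D.A.S p r (D.A.S r p v) = D.A.x p v + D.A.x r v := by
    rw [D.A.S_symm r p v hr, D.A.S_sq p r v hr']
  rw [hdH, hHd, hF, RelA_G_apply, hw₂', hbw, hω', RelA_mk_add, RelA_mk_add, RelA_mk_add,
    RelA_mk_add, add_zero]
  refine congrArg₂ RelA_mk (congrArg₂ RelA_mk ?_ ?_) ?_
  · abel
  · rw [map_sub, hsq, map_sub, map_sub, map_add, map_add, map_sub]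
    conv_rhs => rw [hw₁']
    abel
  · rw [← sub_eq_add_neg, ← map_sub, RelA_mk_sub, sub_self]

end

theorem relA (D : Cx k P Q) (e : Option P' ≃ P) (f : Option Q' ≃ Q) (r : P) (hr : r ≠ e none) :
    Ret ((capF e f).cx (cross r (f none) (cross (e none) (f none) D)))
      ((capF (e.trans (Equiv.swap (e none) r)) f).cx D) := by
  have he : ∀ t : P', e (some t) ≠ e none := fun t h => Option.some_ne_none t (e.injective h)
  have hf : ∀ t : Q', f (some t) ≠ f none := fun t h => Option.some_ne_none t (f.injective h)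
  have hes : ∀ t s : P', t ≠ s → e (some t) ≠ e (some s) :=
    fun t s h h' => h (Option.some.inj (e.injective h'))
  refine ret_cap (ε := (-1 : k)) (e' := e.trans (Equiv.swap (e none) r)) (f' := f)
    (C := cross r (f none) (cross (e none) (f none) D)) (D := D) (by ring)
    (F := RelA_F D.A (e none) r (f none)) (G := RelA_G D.A (e none) r (f none))
    (H := RelA_H D.A (e none) r (f none)) (RelA_capF D.A e f r hr he hf hes)
    (RelA_capG D.A e f r hr he hf hes) (RelA_capH D.A e f r hr he hf hes) ?_ ?_ ?_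
  · exact fun y hy => RelA_h1 D (e none) r (f none) hr y.1.1 y.1.2 y.2
      (congrArg (fun z => z.1.1) hy) (congrArg (fun z => z.1.2) hy)
  · intro w hw
    have hw' : D.A.E (Equiv.swap (e none) r (e none)) (f none) w = w := hw
    rw [Equiv.swap_apply_left] at hw'
    exact RelA_h2 D (e none) r (f none) hr w hw'
  · exact fun y hy => RelA_h3 D (e none) r (f none) hr y.1.1 y.1.2 y.2
      (congrArg (fun z => z.1.1) hy) (congrArg (fun z => z.1.2) hy)
      (congrArg (fun z => z.2) hy)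

end Pool.Agent.Lib.MP_f2e65a_lc
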