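import Pool.Agent.Lib.MP_f2e65a_lc.Uin
import Pool.Agent.Lib.MP_f2e65a_lc.CapRet

/-! # RelB: the second Reidemeister move (sliding a cap over a strand), other orientation

`p = e none`, `q = f none`, `s ≠ q`, `X = cross p q D`, `Y = cross p s X`.  `ret_cap` with `e' = e`, `f' = f.trans (swap q s)`, `ε = -1`; so `f' none = s`, `f' (some u) = swap q s (f (some u))`.
An element of `Y` is `y = ((m, w₁), w₂)`, `w₁ : (uobj D.A p q).M`, `w₂ : (uobj X.A p s).M`.  If `E p q y = y` then `m = E p q m`, `w₁ = (v, single p μ)` (`uE_pq_*`),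
`w₂ = (0, τ ↦ (w_τ, ω_τ))` with `(w_p, ω_p) = 0` and `E τ q (w_τ, ω_τ) = (w_τ, ω_τ)` for `τ ≠ p` (`uE_pu_*`, as `q ≠ s`), and `E p s (w_τ, ω_τ) = (w_τ, ω_τ)` (`uc_m`); so `ω_τ = (0, single τ z_τ)` (`uE_tq_*`).
Let `w = ∑_{τ ≠ p} w_τ`, `z = ∑_{τ ≠ p} z_τ`: `w_τ = E τ q w`, `E p s w = w`, `z_τ = E τ s z` (as `E p s ω_τ = ω_τ`: `uE_pu_ne`: `E τ s z_τ = z_τ`), `E p q z = z`.  Write `y = (m, v, μ, w, z)`.  Let
`J_a m = ∑_{t ≠ p} S_pt E_ta m`, `X_s v = ∑_{t ≠ p} x_t E_ts v`.  Then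
`D y = (d m, m - d v, x_p m - d μ, J_s m - d w, μ + X_s v - J_q w + d z)`:
 `η_ps (m, w₁)` has the coordinates `τ ≠ p`: `S p τ (E τ s (m, w₁)) = (S_pτ E_τs m, (0, single τ (E_τs μ + x_τ E_τs v)))` (`uE_tu_*`, `uS_p`, `uS1_*`), the coordinates `v`, `p` vanish (`E_row`: `E p s` of elements of the image of `E p q`);
 `D_X (w_τ, (0, single τ z_τ)) = (d w_τ, (0, single τ (S_pτ w_τ - d z_τ)))`; `∑_{τ ≠ p} E_τs μ = μ` (`sum_col`, `E p s μ = 0` by `E_row`).
* `F y = w - J_s v`; `G w = ((0, uin p (J_q w)), ∑_{t ≠ p} uin' t (E_tq w, 0))` (`uin D.A p q p`, `uin X.A p s t`; `= (0, 0, J_q w, w, 0)`); `H y = - ((v, uin p z), 0)`, i.e. `- (v, 0, z, 0, 0)`; in terms of `y`: `v = (uc w₁).1`,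
 `w = ∑_{t ≠ p} ((uc w₂).2 t).1`, `z = ∑_{t ≠ p} (uc ((uc w₂).2 t).2).2 t`.
* `F D y = J_s m - d w - J_s (m - d v) = - d (w - J_s v)`, `D G w = - G (d w)`, and
 `1 + D H + H D = (0, 0, J_q w - x_p v - X_s v, w - J_s v, 0) = G F y` as `J_q J_s v = x_p v + X_s v` for `E p q v = v`: `E_τq S_pσ E_σs v = S_pσ E_σs v` if `τ = σ`, else `0` (`E σ q S p σ = S p σ E p q`, `E_col`), and `S_sq`.
 (`J_q w ` is in the image of `E p q`, `J_s m` in the image of `E p s`: `S_E`.)
* `CapHom`: `F (x t y) = x t (F y)` for `t ≠ p`: `J_s` commutes with `x t` (`x_S`, `x_E`), and the coordinate `w_τ` of `x t w₂` is `x t w_τ` (`ux_ne`).  `S t u` (`t, u ≠ p`): coordinate `τ` is `S_tu w_{swap t u τ}`, the sum over `τ` is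
 `S_tu w` (`Equiv.sum_comp`), `J_s S_tu = S_tu J_s`: `S_pτ E_τs S_tu m = S_pτ S_tu E_{swap τ, s} m = S_tu S_{p, swap τ} E_{swap τ, s} m` (`S_E`, `S_E'`, `S_S`, `S_S_S`, `S_symm`).  `E t u`, `t ≠ p`, `u ≠ q`:
 `F (E t u y) = E t (swap q s u) (F y)`: `u ≠ s`: coordinate `τ ≠ t` of `E t u w₂` is `E_tu w_τ`, coordinate `t` is `0` (`uE_tu_*`), and `E_tu w_t = E_tu E_tq w_t = 0` (`E_row`); `J_s E_tu = E_tu J_s` on the image of `E p q`
 (`τ = t`: `S_pt E_ts E_tu m = 0`, `E_tu S_pt E_ts m = S_pt E_pu E_ts m`, hmm: `E t u S p t m' = S p t E p u m'` by `S_E`, and `E p u E t s m = E t s E p u m = 0` as `E p q m = m`, `u ≠ q`).  `u = s`: `E t s` on `w₂`: only the coordinate `t`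
 stays (`uE_tq_*`): `w ↦ w_t = E_tq w`, `v ↦ E_ts v`: `F = E_tq w - J_s E_ts v`, to compare with `E t q (w - J_s v)`: `E_tq S_pτ E_τs v = 0` for `τ ≠ t` (it is in the image of `E τ q`), `= S_pt E_ts v` for `τ = t`, and `J_s E_ts v = S_pt E_ts v` (`E_col`).
All formulas were tested numerically. -/

set_option autoImplicit false
set_option linter.unusedVariables false

namespace Pool.Agent.Lib.MP_f2e65a_lc

variable {k : Type} [Field k] {P Q P' Q' : Type} [Fintype P] [DecidableEq P] [Fintype Q]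
  [DecidableEq Q] [Fintype P'] [DecidableEq P'] [Fintype Q'] [DecidableEq Q']

section uobjLemmas

variable (B : BN k P Q) (p : P) (q : Q)

private theorem relb_x_uin {t : P} (ht : t ≠ p) (τ : P) (b : B.M) :
    (uobj B p q).x t (uin B p q τ b) = uin B p q τ (B.x t b) := by
  refine uobj_ext ?_ fun σ => ?_
  · rw [uc_x, ux_ne_v B _ ht, uc_uin_v, uc_uin_v, map_zero]
  · rw [uc_x, ux_ne B _ ht, uc_uin_m, uc_uin_m]
    split_ifs
    · exact B.x_E _ _ _ _
    · exact map_zero _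

private theorem relb_x_uiv {t : P} (ht : t ≠ p) (b : B.M) :
    (uobj B p q).x t (uiv B p q b) = uiv B p q (B.x t b) := by
  refine uobj_ext ?_ fun σ => ?_
  · rw [uc_x, ux_ne_v B _ ht, uc_uiv_v, uc_uiv_v, B.x_E]
  · rw [uc_x, ux_ne B _ ht, uc_uiv_m, uc_uiv_m, map_zero]

private theorem relb_S_uin {t u : P} (htu : t ≠ u) (ht : t ≠ p) (hu : u ≠ p) (τ : P) (b : B.M) :
    (uobj B p q).S t u (uin B p q τ b) = uin B p q (Equiv.swap t u τ) (B.S t u b) := by
  refine uobj_ext ?_ fun σ => ?_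
  · rw [uc_S, uS_ne_v B _ htu ht hu, uc_uin_v, uc_uin_v, map_zero]
  · rw [uc_S, uS_ne B _ htu ht hu, uc_uin_m, uc_uin_m]
    by_cases h : σ = Equiv.swap t u τ
    · rw [if_pos h, if_pos (by rw [h, Equiv.swap_apply_self]),
        B.S_E' t u p q b htu ht.symm hu.symm]
    · rw [if_neg h, if_neg (fun h' => h (by rw [← h', Equiv.swap_apply_self])), map_zero]

private theorem relb_S_uiv {t u : P} (htu : t ≠ u) (ht : t ≠ p) (hu : u ≠ p) (b : B.M) :
    (uobj B p q).S t u (uiv B p q b) = uiv B p q (B.S t u b) := by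
  refine uobj_ext ?_ fun σ => ?_
  · rw [uc_S, uS_ne_v B _ htu ht hu, uc_uiv_v, uc_uiv_v, B.S_E' t u p q b htu ht.symm hu.symm]
  · rw [uc_S, uS_ne B _ htu ht hu, uc_uiv_m, uc_uiv_m, map_zero]

private theorem relb_E_uin {t : P} {r : Q} (ht : t ≠ p) (hr : r ≠ q) (τ : P) (b : B.M) :
    (uobj B p q).E t r (uin B p q τ b) = if τ = t then 0 else uin B p q τ (B.E t r b) := by
  refine uobj_ext ?_ fun σ => ?_
  · rw [uc_E, uE_tu_v B _ ht hr, uc_uin_v, map_zero]
    split_ifs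
    · rfl
    · rfl
  · rw [uc_E]
    by_cases hσ : σ = t
    · subst hσ
      rw [uE_tu_t B _ ht hr]
      split_ifs with h
      · rfl
      · rw [uc_uin_m, if_neg (Ne.symm h)]
    · rw [uE_tu_ne B _ ht hr hσ, uc_uin_m]
      split_ifs with h1 h2 h3
      · exact absurd (h1.trans h2) hσ
      · rw [uc_uin_m, if_pos h1, B.E_E]
      · exact map_zero _
      · rw [uc_uin_m, if_neg h1, map_zero]

private theorem relb_E_uiv {t : P} {r : Q} (ht : t ≠ p) (hr : r ≠ q) (b : B.M) :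
    (uobj B p q).E t r (uiv B p q b) = uiv B p q (B.E t r b) := by
  refine uobj_ext ?_ fun σ => ?_
  · rw [uc_E, uE_tu_v B _ ht hr, uc_uiv_v, uc_uiv_v, B.E_E]
  · rw [uc_E, uc_uiv_m]
    by_cases hσ : σ = t
    · subst hσ
      rw [uE_tu_t B _ ht hr]
    · rw [uE_tu_ne B _ ht hr hσ, uc_uiv_m, map_zero]

private theorem relb_Eq_uin {t : P} (ht : t ≠ p) (τ : P) (b : B.M) :
    (uobj B p q).E t q (uin B p q τ b) = if τ = t then uin B p q t b else 0 := by
  refine uobj_ext ?_ fun σ => ?_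
  · rw [uc_E, uE_tq_v B _ ht]
    split_ifs
    · rfl
    · rfl
  · rw [uc_E]
    by_cases hσ : σ = t
    · subst hσ
      rw [uE_tq_t B _ ht, uc_uin_m]
      split_ifs with h1 h2 h3
      · rw [uc_uin_m, if_pos rfl]
      · exact absurd h1.symm h2
      · exact absurd h3.symm h1
      · rfl
    · rw [uE_tq_ne B _ ht hσ]
      split_ifs
      · rw [uc_uin_m, if_neg hσ]
      · rfl

private theorem relb_Eq_uiv {t : P} (ht : t ≠ p) (b : B.M) :
    (uobj B p q).E t q (uiv B p q b) = 0 := by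
  refine uobj_ext ?_ fun σ => ?_
  · rw [uc_E, uE_tq_v B _ ht]
    rfl
  · rw [uc_E]
    by_cases hσ : σ = t
    · subst hσ
      rw [uE_tq_t B _ ht, uc_uiv_m]
      rfl
    · rw [uE_tq_ne B _ ht hσ]
      rfl

private theorem relb_Epq_uin (b : B.M) :
    (uobj B p q).E p q (uin B p q p b) = uin B p q p b := by
  refine uobj_ext ?_ fun σ => ?_
  · rw [uc_E, uE_pq_v B _]
  · rw [uc_E]
    by_cases hσ : σ = p
    · subst hσ
      rw [uE_pq_p B _]
    · rw [uE_pq_ne B _ hσ, uc_uin_m, if_neg hσ]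

private theorem relb_Epq_uiv (b : B.M) :
    (uobj B p q).E p q (uiv B p q b) = uiv B p q b := by
  refine uobj_ext ?_ fun σ => ?_
  · rw [uc_E, uE_pq_v B _]
  · rw [uc_E]
    by_cases hσ : σ = p
    · subst hσ
      rw [uE_pq_p B _]
    · rw [uE_pq_ne B _ hσ, uc_uiv_m]

private theorem relb_Epr_uin {r : Q} (hr : r ≠ q) (τ : P) (b : B.M) :
    (uobj B p q).E p r (uin B p q τ b) = if τ = p then 0 else uin B p q τ (B.E τ r b) := by
  refine uobj_ext ?_ fun σ => ?_
  · rw [uc_E, uE_pu_v B _ hr]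
    split_ifs
    · rfl
    · rfl
  · rw [uc_E]
    by_cases hσ : σ = p
    · subst hσ
      rw [uE_pu_p B _ hr]
      split_ifs with h
      · rfl
      · rw [uc_uin_m, if_neg (Ne.symm h)]
    · rw [uE_pu_ne B _ hr hσ, uc_uin_m]
      split_ifs with h1 h2 h3
      · exact absurd (h1.trans h2) hσ
      · rw [uc_uin_m, if_pos h1, h1, B.E_E]
      · exact map_zero _
      · rw [uc_uin_m, if_neg h1, map_zero]

private theorem relb_Epr_uiv {r : Q} (hr : r ≠ q) (b : B.M) :
    (uobj B p q).E p r (uiv B p q b) = 0 := by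
  refine uobj_ext ?_ fun σ => ?_
  · rw [uc_E, uE_pu_v B _ hr]
    rfl
  · rw [uc_E]
    by_cases hσ : σ = p
    · subst hσ
      rw [uE_pu_p B _ hr]
      rfl
    · rw [uE_pu_ne B _ hr hσ, uc_uiv_m, map_zero]
      rfl

private theorem relb_Sp_uiv {τ : P} (hτ : τ ≠ p) (b : B.M) :
    (uobj B p q).S p τ (uiv B p q b) = uin B p q τ (B.x τ b) := by
  refine uobj_ext ?_ fun σ => ?_
  · rw [uc_S, uS_p B hτ, uS1_v, uc_uiv_m, uc_uin_v]
  · rw [uc_S, uS_p B hτ, uc_uin_m]
    by_cases hσ : σ = p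
    · subst hσ
      rw [uS1_p, uc_uiv_m, map_zero, if_neg (Ne.symm hτ)]
    · by_cases hσ' : σ = τ
      · subst hσ'
        rw [uS1_self B _ hτ, uc_uiv_m, uc_uiv_v, zero_add, if_pos rfl, B.x_E]
      · rw [uS1_ne B _ hσ hσ', uc_uiv_m, map_zero, if_neg hσ']

private theorem relb_Sp_uin {τ : P} (hτ : τ ≠ p) (b : B.M) :
    (uobj B p q).S p τ (uin B p q p b) = uin B p q τ b := by
  refine uobj_ext ?_ fun σ => ?_
  · rw [uc_S, uS_p B hτ, uS1_v, uc_uin_m, if_neg hτ, uc_uin_v]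
  · rw [uc_S, uS_p B hτ, uc_uin_m]
    by_cases hσ : σ = p
    · subst hσ
      rw [uS1_p, uc_uin_m, if_neg hτ, map_zero, if_neg (Ne.symm hτ)]
    · by_cases hσ' : σ = τ
      · subst hσ'
        rw [uS1_self B _ hτ, uc_uin_m, if_pos rfl, uc_uin_v, map_zero, add_zero, if_pos rfl]
      · rw [uS1_ne B _ hσ hσ', uc_uin_m, if_neg hσ, map_zero, if_neg hσ']

private theorem relb_uin_zero {τ : P} {b : B.M} (h : B.E p q b = 0) : uin B p q τ b = 0 := by
  refine uobj_ext rfl fun σ => ?_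
  rw [uc_uin_m, h]
  split_ifs
  · rfl
  · rfl

private theorem relb_uiv_zero {b : B.M} (h : B.E p q b = 0) : uiv B p q b = 0 := by
  refine uobj_ext ?_ fun σ => ?_
  · rw [uc_uiv_v, h]
    rfl
  · rfl

private theorem relb_uin_E {τ : P} {b : B.M} : uin B p q τ (B.E p q b) = uin B p q τ b := by
  refine uobj_ext rfl fun σ => ?_
  rw [uc_uin_m, uc_uin_m, B.E_idem]

private theorem relb_eta (m : B.M) : ((U k p q).eta B).1 m =
    uiv B p q m + uin B p q p (B.x p m) +
      ∑ τ, if τ = p then 0 else uin B p q τ (B.S p τ (B.E τ q m)) := by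
  refine (uobj_eq B p q _).trans ?_
  rw [uc_eta, uη_v]
  have h1 : uiv B p q (B.E p q m) = uiv B p q m := by
    refine uobj_ext ?_ fun σ => rfl
    rw [uc_uiv_v, uc_uiv_v, B.E_idem]
  rw [h1, add_assoc]
  congr 1
  rw [← Finset.add_sum_erase _ _ (Finset.mem_univ p), uη_p, B.x_E, relb_uin_E]
  congr 1
  rw [← Finset.add_sum_erase Finset.univ
    (fun τ => if τ = p then 0 else uin B p q τ (B.S p τ (B.E τ q m))) (Finset.mem_univ p),
    if_pos rfl, zero_add]
  refine Finset.sum_congr rfl fun τ hτ => ?_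
  have h2 : τ ≠ p := Finset.ne_of_mem_erase hτ
  rw [uη_ne B m h2, if_neg h2]

end uobjLemmas

private theorem relb_map_uin {A B : BN k P Q} (g : Hom A B) (p : P) (q : Q) (τ : P) (b : A.M) :
    ((U k p q).map g).1 (uin A p q τ b) = uin B p q τ (g.1 b) := by
  refine uobj_ext ?_ fun σ => ?_
  · rw [uc_map, umapW_v, uc_uin_v, uc_uin_v, map_zero]
  · rw [uc_map, umapW_m, uc_uin_m, uc_uin_m]
    split_ifs
    · exact g.2.2.2 _ _ _
    · exact map_zero _

private theorem relb_map_uiv {A B : BN k P Q} (g : Hom A B) (p : P) (q : Q) (b : A.M) :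
    ((U k p q).map g).1 (uiv A p q b) = uiv B p q (g.1 b) := by
  refine uobj_ext ?_ fun σ => ?_
  · rw [uc_map, umapW_v, uc_uiv_v, uc_uiv_v, g.2.2.2]
  · rw [uc_map, umapW_m, uc_uiv_m, uc_uiv_m, map_zero]

section J

variable (A : BN k P Q) (p : P)

/-- `J_a m = ∑_{t ≠ p} S_pt E_ta m` -/
private noncomputable def relbJ (a : Q) : A.M →ₗ[k] A.M :=
  ∑ t, if t = p then 0 else A.S p t ∘ₗ A.E t a

/-- `X_a v = ∑_{t ≠ p} x_t E_ta v` -/
private noncomputable def relbX (a : Q) : A.M →ₗ[k] A.M :=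
  ∑ t, if t = p then 0 else A.x t ∘ₗ A.E t a

private theorem relbJ_apply (a : Q) (m : A.M) :
    relbJ A p a m = ∑ t, if t = p then 0 else A.S p t (A.E t a m) := by
  unfold relbJ
  rw [LinearMap.sum_apply]
  refine Finset.sum_congr rfl fun t _ => ?_
  split_ifs
  · rfl
  · rfl

private theorem relbX_apply (a : Q) (m : A.M) :
    relbX A p a m = ∑ t, if t = p then 0 else A.x t (A.E t a m) := by
  unfold relbX
  rw [LinearMap.sum_apply]
  refine Finset.sum_congr rfl fun t _ => ?_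
  split_ifs
  · rfl
  · rfl

private theorem relb_kill {a c : Q} (hac : a ≠ c) {τ : P} {m : A.M} (hm : A.E p c m = m)
    (hτ : τ ≠ p) : A.E τ c m = 0 := by
  rw [← hm, A.E_col _ _ _ _ hτ]

private theorem relb_ES (a c : Q) (hac : a ≠ c) {m : A.M} (hm : A.E p c m = m) {τ t : P}
    (hτ : τ ≠ p) (ht : t ≠ p) :
    A.E τ c (A.S p t (A.E t a m)) = if t = τ then A.S p τ (A.E τ a m) else 0 := by
  split_ifs with h
  · subst h
    rw [← A.S_E p t c _ (Ne.symm ht), A.E_E p c t a, hm]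
  · rw [← A.S_E' p t τ c _ (Ne.symm ht) hτ (Ne.symm h), A.E_E τ c t a,
      relb_kill A p hac hm hτ, map_zero, map_zero]

private theorem relb_EJ (a c : Q) (hac : a ≠ c) {m : A.M} (hm : A.E p c m = m) {τ : P}
    (hτ : τ ≠ p) : A.E τ c (relbJ A p a m) = A.S p τ (A.E τ a m) := by
  rw [relbJ_apply, map_sum, Finset.sum_eq_single τ]
  · rw [if_neg hτ, relb_ES A p a c hac hm hτ hτ, if_pos rfl]
  · intro t _ ht
    by_cases htp : t = p
    · rw [if_pos htp, map_zero]
    · rw [if_neg htp, relb_ES A p a c hac hm hτ htp, if_neg ht]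
  · intro h
    exact absurd (Finset.mem_univ τ) h

private theorem relb_J_self (a : Q) (m : A.M) : A.E p a (relbJ A p a m) = relbJ A p a m := by
  rw [relbJ_apply, map_sum]
  refine Finset.sum_congr rfl fun t _ => ?_
  by_cases htp : t = p
  · rw [if_pos htp, map_zero]
  · rw [if_neg htp, A.S_symm p t _ (Ne.symm htp), A.S_E t p a _ htp, A.E_idem]

private theorem relb_Jx (a : Q) (t : P) (m : A.M) :
    relbJ A p a (A.x t m) = A.x t (relbJ A p a m) := by
  rw [relbJ_apply, relbJ_apply, map_sum]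
  refine Finset.sum_congr rfl fun τ _ => ?_
  by_cases hτ : τ = p
  · rw [if_pos hτ, if_pos hτ, map_zero]
  · rw [if_neg hτ, if_neg hτ, A.x_S t p τ _ (Ne.symm hτ), A.x_E]

private theorem relb_S_E (a : Q) {t u : P} (htu : t ≠ u) (τ : P) (m : A.M) :
    A.S t u (A.E τ a m) = A.E (Equiv.swap t u τ) a (A.S t u m) := by
  by_cases h1 : τ = t
  · subst h1
    rw [Equiv.swap_apply_left, A.S_E τ u a m htu]
  · by_cases h2 : τ = u
    · subst h2
      rw [Equiv.swap_apply_right, A.S_symm t τ _ htu, A.S_E τ t a m htu.symm, A.S_symm t τ _ htu]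
    · rw [Equiv.swap_apply_of_ne_of_ne h1 h2, A.S_E' t u τ a m htu h1 h2]

private theorem relb_SS {t u τ : P} (htu : t ≠ u) (ht : t ≠ p) (hu : u ≠ p) (hτ : τ ≠ p)
    (m : A.M) : A.S p τ (A.S t u m) = A.S t u (A.S p (Equiv.swap t u τ) m) := by
  by_cases h1 : τ = t
  · subst h1
    rw [Equiv.swap_apply_left, A.S_symm τ u m htu, A.S_symm p τ _ ht.symm,
      A.S_S_S u τ p m htu.symm ht hu, A.S_symm u p _ hu, A.S_symm u τ _ htu.symm]
  · by_cases h2 : τ = u
    · subst h2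
      rw [Equiv.swap_apply_right, A.S_symm p τ _ hu.symm, A.S_S_S t τ p m htu hu ht,
        A.S_symm t p _ ht]
    · rw [Equiv.swap_apply_of_ne_of_ne h1 h2,
        A.S_S p τ t u m hτ.symm htu ht.symm hu.symm h1 h2]

omit [Fintype P] in
private theorem relb_swap_ne {t u τ : P} (ht : t ≠ p) (hu : u ≠ p) :
    Equiv.swap t u τ = p ↔ τ = p := by
  constructor
  · intro h
    rw [← Equiv.swap_apply_self t u τ, h, Equiv.swap_apply_of_ne_of_ne ht.symm hu.symm]
  · intro h
    rw [h, Equiv.swap_apply_of_ne_of_ne ht.symm hu.symm]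

private theorem relb_JS (a : Q) {t u : P} (htu : t ≠ u) (ht : t ≠ p) (hu : u ≠ p) (m : A.M) :
    relbJ A p a (A.S t u m) = A.S t u (relbJ A p a m) := by
  rw [relbJ_apply, relbJ_apply, map_sum, ← Equiv.sum_comp (Equiv.swap t u)]
  refine Finset.sum_congr rfl fun τ _ => ?_
  by_cases hτ : τ = p
  · rw [if_pos hτ, if_pos ((relb_swap_ne p ht hu).2 hτ), map_zero]
  · have h1 : ¬ Equiv.swap t u τ = p := fun h => hτ ((relb_swap_ne p ht hu).1 h)
    rw [if_neg hτ, if_neg h1, ← relb_S_E A a htu, relb_SS A p htu ht hu h1,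
      Equiv.swap_apply_self]

private theorem relb_JE (a c : Q) (hac : a ≠ c) {m : A.M} (hm : A.E p c m = m) {t : P} {u : Q}
    (ht : t ≠ p) (hua : u ≠ a) (huc : u ≠ c) :
    relbJ A p a (A.E t u m) = A.E t u (relbJ A p a m) := by
  rw [relbJ_apply, relbJ_apply, map_sum]
  refine Finset.sum_congr rfl fun τ _ => ?_
  by_cases hτ : τ = p
  · rw [if_pos hτ, if_pos hτ, map_zero]
  · rw [if_neg hτ, if_neg hτ]
    by_cases hτt : τ = t
    · subst hτt
      rw [A.E_row τ a u m hua.symm, map_zero, ← A.S_E p τ u _ (Ne.symm hτ), A.E_E p u τ a]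
      have h1 : A.E p u m = 0 := by
        rw [← hm, A.E_row p u c m huc]
      rw [h1, map_zero, map_zero]
    · rw [A.E_E τ a t u, A.S_E' p τ t u _ (Ne.symm hτ) ht (Ne.symm hτt)]

private theorem relb_JE' (a c : Q) (hac : a ≠ c) {m : A.M} (hm : A.E p c m = m) {t : P}
    (ht : t ≠ p) : relbJ A p a (A.E t a m) = A.E t c (relbJ A p a m) := by
  rw [relb_EJ A p a c hac hm ht, relbJ_apply, Finset.sum_eq_single t]
  · rw [if_neg ht, A.E_idem]
  · intro τ _ hτ
    split_ifs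
    · rfl
    · rw [A.E_col τ t a m hτ, map_zero]
  · intro h
    exact absurd (Finset.mem_univ t) h

private theorem relb_JJ (a c : Q) (hac : a ≠ c) {m : A.M} (hm : A.E p c m = m) :
    relbJ A p c (relbJ A p a m) = A.x p m + relbX A p a m := by
  rw [relbJ_apply A p c]
  have h1 : ∀ τ, (if τ = p then 0 else A.S p τ (A.E τ c (relbJ A p a m))) =
      (if τ = p then 0 else A.x p (A.E τ a m)) + (if τ = p then 0 else A.x τ (A.E τ a m)) := by
    intro τ
    by_cases hτ : τ = p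
    · rw [if_pos hτ, if_pos hτ, if_pos hτ, add_zero]
    · rw [if_neg hτ, if_neg hτ, if_neg hτ, relb_EJ A p a c hac hm hτ,
        A.S_sq p τ _ (Ne.symm hτ)]
  rw [Finset.sum_congr rfl fun τ _ => h1 τ, Finset.sum_add_distrib, ← relbX_apply]
  congr 1
  have h2 : A.x p m = A.x p (∑ τ, A.E τ a m) := by rw [A.sum_col]
  rw [h2, map_sum]
  refine Finset.sum_congr rfl fun τ _ => ?_
  split_ifs with h
  · subst h
    rw [← hm, A.E_row τ a c m hac, map_zero]
  · rfl

private theorem relb_EX (a : Q) {τ : P} (hτ : τ ≠ p) (m : A.M) :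
    A.E τ a (relbX A p a m) = A.x τ (A.E τ a m) := by
  rw [relbX_apply, map_sum, Finset.sum_eq_single τ]
  · rw [if_neg hτ, ← A.x_E, A.E_idem]
  · intro t _ ht
    split_ifs
    · exact map_zero _
    · rw [← A.x_E, A.E_col τ t a m ht.symm, map_zero]
  · intro h
    exact absurd (Finset.mem_univ τ) h

private theorem relb_Jg {A B : BN k P Q} (p : P) (a : Q) (g : Hom A B) (m : A.M) :
    relbJ B p a (g.1 m) = g.1 (relbJ A p a m) := by
  rw [relbJ_apply, relbJ_apply, map_sum]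
  refine Finset.sum_congr rfl fun t _ => ?_
  by_cases h : t = p
  · rw [if_pos h, if_pos h, map_zero]
  · rw [if_neg h, if_neg h, g.2.2.1 _ _ _ (Ne.symm h), g.2.2.2]

end J

section main

variable (A : BN k P Q) (p : P) (q s : Q)

private abbrev rX : BN k P Q := A.prod (uobj A p q)

private abbrev rC : BN k P Q := (rX A p q).prod (uobj (rX A p q) p s)

private abbrev rl : Hom A (rX A p q) := inlH A (uobj A p q)

private abbrev rr : Hom (uobj A p q) (rX A p q) := inrH A (uobj A p q)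

private abbrev rL : Hom (rX A p q) (rC A p q s) := inlH (rX A p q) (uobj (rX A p q) p s)

private abbrev rR : Hom (uobj (rX A p q) p s) (rC A p q s) :=
  inrH (rX A p q) (uobj (rX A p q) p s)

private def rIm : A.M →ₗ[k] (rC A p q s).M := (rL A p q s).1 ∘ₗ (rl A p q).1

private def rIv : A.M →ₗ[k] (rC A p q s).M := (rL A p q s).1 ∘ₗ (rr A p q).1 ∘ₗ uiv A p q

private def rIu : A.M →ₗ[k] (rC A p q s).M := (rL A p q s).1 ∘ₗ (rr A p q).1 ∘ₗ uin A p q p

private noncomputable def rIw : A.M →ₗ[k] (rC A p q s).M :=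
  (rR A p q s).1 ∘ₗ ∑ τ, uin (rX A p q) p s τ ∘ₗ (rl A p q).1 ∘ₗ A.E τ q

private noncomputable def rIz : A.M →ₗ[k] (rC A p q s).M :=
  (rR A p q s).1 ∘ₗ ∑ τ, uin (rX A p q) p s τ ∘ₗ (rr A p q).1 ∘ₗ uin A p q τ ∘ₗ A.E τ s

private theorem rIm_apply (m : A.M) :
    rIm A p q s m = (rL A p q s).1 ((rl A p q).1 m) := rfl

private theorem rIv_apply (m : A.M) :
    rIv A p q s m = (rL A p q s).1 ((rr A p q).1 (uiv A p q m)) := rfl

private theorem rIu_apply (m : A.M) :
    rIu A p q s m = (rL A p q s).1 ((rr A p q).1 (uin A p q p m)) := rfl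

private theorem rIw_apply (w : A.M) : rIw A p q s w =
    (rR A p q s).1 (∑ τ, uin (rX A p q) p s τ ((rl A p q).1 (A.E τ q w))) := by
  unfold rIw
  rw [LinearMap.comp_apply, LinearMap.sum_apply]
  rfl

private theorem rIz_apply (w : A.M) : rIz A p q s w =
    (rR A p q s).1 (∑ τ, uin (rX A p q) p s τ ((rr A p q).1 (uin A p q τ (A.E τ s w)))) := by
  unfold rIz
  rw [LinearMap.comp_apply, LinearMap.sum_apply]
  rfl

private theorem rz_w (hs : s ≠ q) (b : A.M) :
    uin (rX A p q) p s p ((rl A p q).1 (A.E p q b)) = 0 := by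
  apply relb_uin_zero
  rw [← (rl A p q).2.2.2, A.E_row p s q b hs, map_zero]

private theorem rz_z (hs : s ≠ q) (b : A.M) :
    uin (rX A p q) p s p ((rr A p q).1 (uin A p q p b)) = 0 := by
  apply relb_uin_zero
  rw [← (rr A p q).2.2.2, relb_Epr_uin A p q hs, if_pos rfl, map_zero]

/-! dots -/

private theorem rIm_x (t : P) (m : A.M) :
    (rC A p q s).x t (rIm A p q s m) = rIm A p q s (A.x t m) := by
  rw [rIm_apply, rIm_apply, ← (rL A p q s).2.1, ← (rl A p q).2.1]

private theorem rIv_x {t : P} (ht : t ≠ p) (m : A.M) :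
    (rC A p q s).x t (rIv A p q s m) = rIv A p q s (A.x t m) := by
  rw [rIv_apply, rIv_apply, ← (rL A p q s).2.1, ← (rr A p q).2.1, relb_x_uiv A p q ht]

private theorem rIu_x {t : P} (ht : t ≠ p) (m : A.M) :
    (rC A p q s).x t (rIu A p q s m) = rIu A p q s (A.x t m) := by
  rw [rIu_apply, rIu_apply, ← (rL A p q s).2.1, ← (rr A p q).2.1, relb_x_uin A p q ht]

private theorem rIw_x {t : P} (ht : t ≠ p) (w : A.M) :
    (rC A p q s).x t (rIw A p q s w) = rIw A p q s (A.x t w) := by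
  rw [rIw_apply, rIw_apply, ← (rR A p q s).2.1, map_sum]
  refine congrArg _ (Finset.sum_congr rfl fun τ _ => ?_)
  rw [relb_x_uin _ p s ht, ← (rl A p q).2.1, A.x_E]

private theorem rIz_x {t : P} (ht : t ≠ p) (w : A.M) :
    (rC A p q s).x t (rIz A p q s w) = rIz A p q s (A.x t w) := by
  rw [rIz_apply, rIz_apply, ← (rR A p q s).2.1, map_sum]
  refine congrArg _ (Finset.sum_congr rfl fun τ _ => ?_)
  rw [relb_x_uin _ p s ht, ← (rr A p q).2.1, relb_x_uin A p q ht, A.x_E]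

/-! saddles -/

private theorem rIm_S {t u : P} (htu : t ≠ u) (m : A.M) :
    (rC A p q s).S t u (rIm A p q s m) = rIm A p q s (A.S t u m) := by
  rw [rIm_apply, rIm_apply, ← (rL A p q s).2.2.1 _ _ _ htu, ← (rl A p q).2.2.1 _ _ _ htu]

private theorem rIv_S {t u : P} (htu : t ≠ u) (ht : t ≠ p) (hu : u ≠ p) (m : A.M) :
    (rC A p q s).S t u (rIv A p q s m) = rIv A p q s (A.S t u m) := by
  rw [rIv_apply, rIv_apply, ← (rL A p q s).2.2.1 _ _ _ htu, ← (rr A p q).2.2.1 _ _ _ htu,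
    relb_S_uiv A p q htu ht hu]

private theorem rIu_S {t u : P} (htu : t ≠ u) (ht : t ≠ p) (hu : u ≠ p) (m : A.M) :
    (rC A p q s).S t u (rIu A p q s m) = rIu A p q s (A.S t u m) := by
  rw [rIu_apply, rIu_apply, ← (rL A p q s).2.2.1 _ _ _ htu, ← (rr A p q).2.2.1 _ _ _ htu,
    relb_S_uin A p q htu ht hu, Equiv.swap_apply_of_ne_of_ne ht.symm hu.symm]

private theorem rIw_S {t u : P} (htu : t ≠ u) (ht : t ≠ p) (hu : u ≠ p) (w : A.M) :
    (rC A p q s).S t u (rIw A p q s w) = rIw A p q s (A.S t u w) := by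
  rw [rIw_apply, rIw_apply, ← (rR A p q s).2.2.1 _ _ _ htu, map_sum,
    ← Equiv.sum_comp (Equiv.swap t u)
      (fun τ => uin (rX A p q) p s τ ((rl A p q).1 (A.E τ q (A.S t u w))))]
  refine congrArg _ (Finset.sum_congr rfl fun τ _ => ?_)
  rw [relb_S_uin _ p s htu ht hu, ← (rl A p q).2.2.1 _ _ _ htu, relb_S_E A q htu]

private theorem rIz_S {t u : P} (htu : t ≠ u) (ht : t ≠ p) (hu : u ≠ p) (w : A.M) :
    (rC A p q s).S t u (rIz A p q s w) = rIz A p q s (A.S t u w) := by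
  rw [rIz_apply, rIz_apply, ← (rR A p q s).2.2.1 _ _ _ htu, map_sum,
    ← Equiv.sum_comp (Equiv.swap t u)
      (fun τ => uin (rX A p q) p s τ ((rr A p q).1 (uin A p q τ (A.E τ s (A.S t u w)))))]
  refine congrArg _ (Finset.sum_congr rfl fun τ _ => ?_)
  rw [relb_S_uin _ p s htu ht hu, ← (rr A p q).2.2.1 _ _ _ htu, relb_S_uin A p q htu ht hu,
    relb_S_E A s htu]

/-! projections -/

private theorem rIm_E (t : P) (u : Q) (m : A.M) :
    (rC A p q s).E t u (rIm A p q s m) = rIm A p q s (A.E t u m) := by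
  rw [rIm_apply, rIm_apply, ← (rL A p q s).2.2.2, ← (rl A p q).2.2.2]

private theorem rIv_E {t : P} {u : Q} (ht : t ≠ p) (hu : u ≠ q) (m : A.M) :
    (rC A p q s).E t u (rIv A p q s m) = rIv A p q s (A.E t u m) := by
  rw [rIv_apply, rIv_apply, ← (rL A p q s).2.2.2, ← (rr A p q).2.2.2, relb_E_uiv A p q ht hu]

private theorem rIu_E {t : P} {u : Q} (ht : t ≠ p) (hu : u ≠ q) (m : A.M) :
    (rC A p q s).E t u (rIu A p q s m) = rIu A p q s (A.E t u m) := by
  rw [rIu_apply, rIu_apply, ← (rL A p q s).2.2.2, ← (rr A p q).2.2.2, relb_E_uin A p q ht hu,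
    if_neg ht.symm]

private theorem rIw_E {t : P} {u : Q} (ht : t ≠ p) (hu : u ≠ q) (hus : u ≠ s) (w : A.M) :
    (rC A p q s).E t u (rIw A p q s w) = rIw A p q s (A.E t u w) := by
  rw [rIw_apply, rIw_apply, ← (rR A p q s).2.2.2, map_sum]
  refine congrArg _ (Finset.sum_congr rfl fun τ _ => ?_)
  rw [relb_E_uin _ p s ht hus]
  split_ifs with h
  · subst h
    rw [A.E_row τ q u w hu.symm, map_zero, map_zero]
  · rw [← (rl A p q).2.2.2, A.E_E]

private theorem rIz_E {t : P} {u : Q} (ht : t ≠ p) (hu : u ≠ q) (hus : u ≠ s) (w : A.M) :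
    (rC A p q s).E t u (rIz A p q s w) = rIz A p q s (A.E t u w) := by
  rw [rIz_apply, rIz_apply, ← (rR A p q s).2.2.2, map_sum]
  refine congrArg _ (Finset.sum_congr rfl fun τ _ => ?_)
  rw [relb_E_uin _ p s ht hus]
  split_ifs with h
  · subst h
    rw [A.E_row τ s u w hus.symm, map_zero, map_zero, map_zero]
  · rw [← (rr A p q).2.2.2, relb_E_uin A p q ht hu, if_neg h, A.E_E]

private theorem rIw_Es {t : P} (ht : t ≠ p) (w : A.M) :
    (rC A p q s).E t s (rIw A p q s w) = rIw A p q s (A.E t q w) := by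
  rw [rIw_apply, rIw_apply, ← (rR A p q s).2.2.2, map_sum]
  refine congrArg _ (Finset.sum_congr rfl fun τ _ => ?_)
  rw [relb_Eq_uin _ p s ht]
  split_ifs with h
  · subst h
    rw [A.E_idem]
  · rw [A.E_col τ t q w h, map_zero, map_zero]

private theorem rIz_Es {t : P} (ht : t ≠ p) (w : A.M) :
    (rC A p q s).E t s (rIz A p q s w) = rIz A p q s (A.E t s w) := by
  rw [rIz_apply, rIz_apply, ← (rR A p q s).2.2.2, map_sum]
  refine congrArg _ (Finset.sum_congr rfl fun τ _ => ?_)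
  rw [relb_Eq_uin _ p s ht]
  split_ifs with h
  · subst h
    rw [A.E_idem]
  · rw [A.E_col τ t s w h, map_zero, map_zero, map_zero]

private theorem rIv_Epq (m : A.M) : (rC A p q s).E p q (rIv A p q s m) = rIv A p q s m := by
  rw [rIv_apply, ← (rL A p q s).2.2.2, ← (rr A p q).2.2.2, relb_Epq_uiv A p q]

private theorem rIu_Epq (m : A.M) : (rC A p q s).E p q (rIu A p q s m) = rIu A p q s m := by
  rw [rIu_apply, ← (rL A p q s).2.2.2, ← (rr A p q).2.2.2, relb_Epq_uin A p q]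

private theorem rIw_Epq (hs : s ≠ q) (w : A.M) :
    (rC A p q s).E p q (rIw A p q s w) = rIw A p q s w := by
  rw [rIw_apply, ← (rR A p q s).2.2.2, map_sum]
  refine congrArg _ (Finset.sum_congr rfl fun τ _ => ?_)
  rw [relb_Epr_uin _ p s hs.symm]
  split_ifs with h
  · subst h
    rw [rz_w A τ q s hs]
  · rw [← (rl A p q).2.2.2, A.E_idem]

private theorem rIz_Epq (hs : s ≠ q) (w : A.M) :
    (rC A p q s).E p q (rIz A p q s w) = rIz A p q s w := by
  rw [rIz_apply, ← (rR A p q s).2.2.2, map_sum]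
  refine congrArg _ (Finset.sum_congr rfl fun τ _ => ?_)
  rw [relb_Epr_uin _ p s hs.symm]
  split_ifs with h
  · subst h
    rw [rz_z A τ q s hs]
  · rw [← (rr A p q).2.2.2, relb_Eq_uin A p q h, if_pos rfl]

/-- the element with the coordinates `m, v, μ, w, z` -/
private noncomputable def rmk (m v μ w z : A.M) : (rC A p q s).M :=
  rIm A p q s m + rIv A p q s v + rIu A p q s μ + rIw A p q s w + rIz A p q s z

private theorem rmk_x {t : P} (ht : t ≠ p) (m v μ w z : A.M) :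
    (rC A p q s).x t (rmk A p q s m v μ w z) =
      rmk A p q s (A.x t m) (A.x t v) (A.x t μ) (A.x t w) (A.x t z) := by
  unfold rmk
  rw [map_add, map_add, map_add, map_add, rIm_x, rIv_x A p q s ht, rIu_x A p q s ht,
    rIw_x A p q s ht, rIz_x A p q s ht]

private theorem rmk_S {t u : P} (htu : t ≠ u) (ht : t ≠ p) (hu : u ≠ p) (m v μ w z : A.M) :
    (rC A p q s).S t u (rmk A p q s m v μ w z) =
      rmk A p q s (A.S t u m) (A.S t u v) (A.S t u μ) (A.S t u w) (A.S t u z) := by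
  unfold rmk
  rw [map_add, map_add, map_add, map_add, rIm_S A p q s htu, rIv_S A p q s htu ht hu,
    rIu_S A p q s htu ht hu, rIw_S A p q s htu ht hu, rIz_S A p q s htu ht hu]

private theorem rmk_E {t : P} {u : Q} (ht : t ≠ p) (hu : u ≠ q) (hus : u ≠ s)
    (m v μ w z : A.M) : (rC A p q s).E t u (rmk A p q s m v μ w z) =
      rmk A p q s (A.E t u m) (A.E t u v) (A.E t u μ) (A.E t u w) (A.E t u z) := by
  unfold rmk
  rw [map_add, map_add, map_add, map_add, rIm_E, rIv_E A p q s ht hu, rIu_E A p q s ht hu,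
    rIw_E A p q s ht hu hus, rIz_E A p q s ht hu hus]

private theorem rmk_Es (hs : s ≠ q) {t : P} (ht : t ≠ p) (m v μ w z : A.M) :
    (rC A p q s).E t s (rmk A p q s m v μ w z) =
      rmk A p q s (A.E t s m) (A.E t s v) (A.E t s μ) (A.E t q w) (A.E t s z) := by
  unfold rmk
  rw [map_add, map_add, map_add, map_add, rIm_E, rIv_E A p q s ht hs, rIu_E A p q s ht hs,
    rIw_Es A p q s ht, rIz_Es A p q s ht]

private theorem rmk_Epq (hs : s ≠ q) (m v μ w z : A.M) :
    (rC A p q s).E p q (rmk A p q s m v μ w z) = rmk A p q s (A.E p q m) v μ w z := by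
  unfold rmk
  rw [map_add, map_add, map_add, map_add, rIm_E, rIv_Epq, rIu_Epq, rIw_Epq A p q s hs,
    rIz_Epq A p q s hs]

/-! coordinates -/

private noncomputable def rV : (rC A p q s).M →ₗ[k] A.M :=
  uv A ∘ₗ uc A p q ∘ₗ (sndH A (uobj A p q)).1 ∘ₗ (fstH (rX A p q) (uobj (rX A p q) p s)).1

private noncomputable def rW : (rC A p q s).M →ₗ[k] A.M :=
  ∑ τ, (fstH A (uobj A p q)).1 ∘ₗ um (rX A p q) τ ∘ₗ uc (rX A p q) p s ∘ₗ
    (sndH (rX A p q) (uobj (rX A p q) p s)).1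

private noncomputable def rZ : (rC A p q s).M →ₗ[k] A.M :=
  ∑ τ, um A τ ∘ₗ uc A p q ∘ₗ (sndH A (uobj A p q)).1 ∘ₗ um (rX A p q) τ ∘ₗ
    uc (rX A p q) p s ∘ₗ (sndH (rX A p q) (uobj (rX A p q) p s)).1

private theorem rV_L (y : (rX A p q).M) :
    rV A p q s ((rL A p q s).1 y) = (uc A p q ((sndH A (uobj A p q)).1 y)).1 := rfl

private theorem rV_R (y : (uobj (rX A p q) p s).M) : rV A p q s ((rR A p q s).1 y) = 0 := rfl

private theorem rW_apply (y : (rC A p q s).M) : rW A p q s y =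
    ∑ τ, (fstH A (uobj A p q)).1 ((uc (rX A p q) p s
      ((sndH (rX A p q) (uobj (rX A p q) p s)).1 y)).2 τ) := by
  unfold rW
  rw [LinearMap.sum_apply]
  rfl

private theorem rZ_apply (y : (rC A p q s).M) : rZ A p q s y =
    ∑ τ, (uc A p q ((sndH A (uobj A p q)).1 ((uc (rX A p q) p s
      ((sndH (rX A p q) (uobj (rX A p q) p s)).1 y)).2 τ))).2 τ := by
  unfold rZ
  rw [LinearMap.sum_apply]
  rfl

private theorem rW_L (y : (rX A p q).M) : rW A p q s ((rL A p q s).1 y) = 0 := by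
  rw [rW_apply]
  exact Finset.sum_eq_zero fun τ _ => rfl

private theorem rZ_L (y : (rX A p q).M) : rZ A p q s ((rL A p q s).1 y) = 0 := by
  rw [rZ_apply]
  exact Finset.sum_eq_zero fun τ _ => rfl

private theorem rW_R (f : P → (rX A p q).M) :
    rW A p q s ((rR A p q s).1 (∑ τ, uin (rX A p q) p s τ (f τ))) =
      ∑ τ, (fstH A (uobj A p q)).1 ((rX A p q).E p s (f τ)) := by
  rw [rW_apply]
  refine Finset.sum_congr rfl fun τ _ => ?_
  refine congrArg _ ?_
  change (uc (rX A p q) p s (∑ τ, uin (rX A p q) p s τ (f τ))).2 τ = _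
  rw [map_sum, Prod.snd_sum, Finset.sum_apply, Finset.sum_eq_single τ]
  · rw [uc_uin_m, if_pos rfl]
  · intro σ _ hσ
    rw [uc_uin_m, if_neg hσ.symm]
  · intro h
    exact absurd (Finset.mem_univ τ) h

private theorem rZ_R (f : P → (rX A p q).M) :
    rZ A p q s ((rR A p q s).1 (∑ τ, uin (rX A p q) p s τ (f τ))) =
      ∑ τ, (uc A p q ((sndH A (uobj A p q)).1 ((rX A p q).E p s (f τ)))).2 τ := by
  rw [rZ_apply]
  refine Finset.sum_congr rfl fun τ _ => ?_
  have h1 : (uc (rX A p q) p s ((sndH (rX A p q) (uobj (rX A p q) p s)).1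
      ((rR A p q s).1 (∑ τ, uin (rX A p q) p s τ (f τ))))).2 τ = (rX A p q).E p s (f τ) := by
    change (uc (rX A p q) p s (∑ τ, uin (rX A p q) p s τ (f τ))).2 τ = _
    rw [map_sum, Prod.snd_sum, Finset.sum_apply, Finset.sum_eq_single τ]
    · rw [uc_uin_m, if_pos rfl]
    · intro σ _ hσ
      rw [uc_uin_m, if_neg hσ.symm]
    · intro h
      exact absurd (Finset.mem_univ τ) h
  rw [h1]

private theorem rV_mk (m v μ w z : A.M) : rV A p q s (rmk A p q s m v μ w z) = A.E p q v := by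
  unfold rmk
  rw [map_add, map_add, map_add, map_add, rIw_apply, rIz_apply, rV_R, rV_R, add_zero, add_zero,
    rIm_apply, rIv_apply, rIu_apply, rV_L, rV_L, rV_L]
  change (0 : A.M) + A.E p q v + 0 = _
  rw [zero_add, add_zero]

private theorem rW_mk (hs : s ≠ q) (m v μ w z : A.M) :
    rW A p q s (rmk A p q s m v μ w z) = A.E p s w := by
  unfold rmk
  rw [map_add, map_add, map_add, map_add, rIm_apply, rIv_apply, rIu_apply, rW_L, rW_L, rW_L,
    rIw_apply, rIz_apply, rW_R, rW_R]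
  have h1 : ∀ τ, (fstH A (uobj A p q)).1 ((rX A p q).E p s ((rl A p q).1 (A.E τ q w))) =
      A.E τ q (A.E p s w) := fun τ => A.E_E p s τ q w
  have h2 : ∀ τ, (fstH A (uobj A p q)).1 ((rX A p q).E p s
      ((rr A p q).1 (uin A p q τ (A.E τ s z)))) = 0 := fun τ => map_zero (A.E p s)
  rw [Finset.sum_congr rfl fun τ _ => h1 τ, Finset.sum_congr rfl fun τ _ => h2 τ,
    Finset.sum_const_zero, A.sum_col, zero_add, zero_add, zero_add, add_zero]

private theorem rZ_mk (hs : s ≠ q) (m v μ w z : A.M) :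
    rZ A p q s (rmk A p q s m v μ w z) = A.E p q z := by
  unfold rmk
  rw [map_add, map_add, map_add, map_add, rIm_apply, rIv_apply, rIu_apply, rZ_L, rZ_L, rZ_L,
    rIw_apply, rIz_apply, rZ_R, rZ_R]
  have h1 : ∀ τ, (uc A p q ((sndH A (uobj A p q)).1 ((rX A p q).E p s
      ((rl A p q).1 (A.E τ q w))))).2 τ = 0 := by
    intro τ
    rw [← (rl A p q).2.2.2]
    rfl
  have h2 : ∀ τ, (uc A p q ((sndH A (uobj A p q)).1 ((rX A p q).E p s
      ((rr A p q).1 (uin A p q τ (A.E τ s z)))))).2 τ = A.E τ s (A.E p q z) := by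
    intro τ
    rw [← (rr A p q).2.2.2]
    change (uc A p q ((uobj A p q).E p s (uin A p q τ (A.E τ s z)))).2 τ = _
    rw [relb_Epr_uin A p q hs]
    split_ifs with h
    · subst h
      rw [A.E_row τ s q z hs]
      rfl
    · rw [uc_uin_m, if_pos rfl, A.E_idem, A.E_E]
  rw [Finset.sum_congr rfl fun τ _ => h1 τ, Finset.sum_congr rfl fun τ _ => h2 τ,
    Finset.sum_const_zero, A.sum_col, zero_add, zero_add, zero_add, zero_add]

end main

section decomp

variable (A : BN k P Q) (p : P) (q s : Q)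

private theorem rl_rr_eq (b : (rX A p q).M) :
    b = (rl A p q).1 ((fstH A (uobj A p q)).1 b) + (rr A p q).1 ((sndH A (uobj A p q)).1 b) :=
  (congrArg (fun f => f.1 b) (inl_fst_add A (uobj A p q))).symm

private theorem rL_rR_eq (y : (rC A p q s).M) :
    y = (rL A p q s).1 ((fstH (rX A p q) (uobj (rX A p q) p s)).1 y) +
      (rR A p q s).1 ((sndH (rX A p q) (uobj (rX A p q) p s)).1 y) :=
  (congrArg (fun f => f.1 y) (inl_fst_add (rX A p q) (uobj (rX A p q) p s))).symm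

private theorem relb_decomp_w (w : (uobj A p q).M) (h : (uobj A p q).E p q w = w) :
    w = uiv A p q (uc A p q w).1 + uin A p q p ((uc A p q w).2 p) := by
  have h1 : ∀ τ, τ ≠ p → (uc A p q w).2 τ = 0 := by
    intro τ hτ
    rw [← h, uc_E, uE_pq_ne A _ hτ]
  refine (uobj_eq A p q w).trans ?_
  congr 1
  rw [Finset.sum_eq_single p]
  · intro τ _ hτ
    rw [h1 τ hτ, map_zero]
  · intro h
    exact absurd (Finset.mem_univ p) h

private theorem relb_decomp_t {τ : P} (hτ : τ ≠ p) (w : (uobj A p q).M)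
    (h : (uobj A p q).E τ q w = w) : w = uin A p q τ ((uc A p q w).2 τ) := by
  have h0 : (uc A p q w).1 = 0 := by
    rw [← h, uc_E, uE_tq_v A _ hτ]
  have h1 : ∀ σ, σ ≠ τ → (uc A p q w).2 σ = 0 := by
    intro σ hσ
    rw [← h, uc_E, uE_tq_ne A _ hτ hσ]
  refine (uobj_eq A p q w).trans ?_
  rw [h0, map_zero, zero_add, Finset.sum_eq_single τ]
  · intro σ _ hσ
    rw [h1 σ hσ, map_zero]
  · intro h
    exact absurd (Finset.mem_univ τ) h

/-- every element of the image of `E p q` is `rmk m v μ w z` -/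
private theorem relb_decomp (hs : s ≠ q) (y : (rC A p q s).M)
    (hy : (rC A p q s).E p q y = y) : ∃ m v μ w z : A.M, A.E p q m = m ∧ A.E p q v = v ∧
      A.E p q μ = μ ∧ A.E p s w = w ∧ A.E p q z = z ∧ y = rmk A p q s m v μ w z := by
  classical
  obtain ⟨y₁, hy₁⟩ : ∃ y₁, y₁ = (fstH (rX A p q) (uobj (rX A p q) p s)).1 y := ⟨_, rfl⟩
  obtain ⟨w₂, hw₂⟩ : ∃ w₂, w₂ = (sndH (rX A p q) (uobj (rX A p q) p s)).1 y := ⟨_, rfl⟩
  obtain ⟨m, hm⟩ : ∃ m, m = (fstH A (uobj A p q)).1 y₁ := ⟨_, rfl⟩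
  obtain ⟨w₁, hw₁⟩ : ∃ w₁, w₁ = (sndH A (uobj A p q)).1 y₁ := ⟨_, rfl⟩
  have e1 : (rX A p q).E p q y₁ = y₁ := by
    rw [hy₁, ← (fstH (rX A p q) (uobj (rX A p q) p s)).2.2.2, hy]
  have e2 : (uobj (rX A p q) p s).E p q w₂ = w₂ := by
    rw [hw₂, ← (sndH (rX A p q) (uobj (rX A p q) p s)).2.2.2, hy]
  have e3 : A.E p q m = m := by
    rw [hm, ← (fstH A (uobj A p q)).2.2.2, e1]
  have e4 : (uobj A p q).E p q w₁ = w₁ := by
    rw [hw₁, ← (sndH A (uobj A p q)).2.2.2, e1]
  -- the coordinates of `w₂`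
  have f0 : (uc (rX A p q) p s w₂).1 = 0 := by
    rw [← e2, uc_E, uE_pu_v _ _ hs.symm]
  have f1 : (uc (rX A p q) p s w₂).2 p = 0 := by
    rw [← e2, uc_E, uE_pu_p _ _ hs.symm]
  have f2 : ∀ τ, τ ≠ p → (rX A p q).E τ q ((uc (rX A p q) p s w₂).2 τ) =
      (uc (rX A p q) p s w₂).2 τ := by
    intro τ hτ
    conv_rhs => rw [← e2, uc_E, uE_pu_ne _ _ hs.symm hτ]
  obtain ⟨a, ha⟩ : ∃ a : P → A.M, ∀ τ, a τ =
      (fstH A (uobj A p q)).1 ((uc (rX A p q) p s w₂).2 τ) := ⟨fun τ => _, fun τ => rfl⟩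
  obtain ⟨ω, hω⟩ : ∃ ω : P → (uobj A p q).M, ∀ τ, ω τ =
      (sndH A (uobj A p q)).1 ((uc (rX A p q) p s w₂).2 τ) := ⟨fun τ => _, fun τ => rfl⟩
  obtain ⟨c, hc⟩ : ∃ c : P → A.M, ∀ τ, c τ = (uc A p q (ω τ)).2 τ := ⟨fun τ => _, fun τ => rfl⟩
  have a0 : a p = 0 := by rw [ha, f1, map_zero]
  have ω0 : ω p = 0 := by rw [hω, f1, map_zero]
  have c0 : c p = 0 := by
    rw [hc, ω0, map_zero]
    rfl
  have a1 : ∀ τ, τ ≠ p → A.E τ q (a τ) = a τ := by
    intro τ hτ
    rw [ha, ← (fstH A (uobj A p q)).2.2.2, f2 τ hτ]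
  have a2 : ∀ τ, A.E p s (a τ) = a τ := by
    intro τ
    rw [ha, ← (fstH A (uobj A p q)).2.2.2, uc_m]
  have ω1 : ∀ τ, τ ≠ p → (uobj A p q).E τ q (ω τ) = ω τ := by
    intro τ hτ
    rw [hω, ← (sndH A (uobj A p q)).2.2.2, f2 τ hτ]
  have ω2 : ∀ τ, (uobj A p q).E p s (ω τ) = ω τ := by
    intro τ
    rw [hω, ← (sndH A (uobj A p q)).2.2.2, uc_m]
  have ω3 : ∀ τ, ω τ = uin A p q τ (c τ) := by
    intro τ
    by_cases hτ : τ = p
    · rw [hτ, ω0, c0, map_zero]
    · rw [hc]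
      exact relb_decomp_t A p q hτ (ω τ) (ω1 τ hτ)
  have c1 : ∀ τ, A.E τ s (c τ) = c τ := by
    intro τ
    by_cases hτ : τ = p
    · rw [hτ, c0, map_zero]
    · rw [hc]
      conv_rhs => rw [← ω2 τ, uc_E, uE_pu_ne _ _ hs hτ]
  have c2 : ∀ τ, A.E p q (c τ) = c τ := by
    intro τ
    rw [hc, uc_m]
  have g1 : ∀ τ, (uc (rX A p q) p s w₂).2 τ =
      (rl A p q).1 (a τ) + (rr A p q).1 (uin A p q τ (c τ)) := by
    intro τ
    rw [← ω3, ha, hω]
    exact rl_rr_eq A p q _
  have hw : ∀ τ, A.E τ q (∑ σ, a σ) = a τ := by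
    intro τ
    by_cases hτ : τ = p
    · subst hτ
      rw [a0, map_sum]
      refine Finset.sum_eq_zero fun σ _ => ?_
      rw [← a2 σ, A.E_row τ q s _ hs.symm]
    · rw [map_sum, Finset.sum_eq_single τ]
      · exact a1 τ hτ
      · intro σ _ hσ
        by_cases hσp : σ = p
        · rw [hσp, a0, map_zero]
        · rw [← a1 σ hσp, A.E_col τ σ q _ hσ.symm]
      · intro h
        exact absurd (Finset.mem_univ τ) h
  have hz : ∀ τ, A.E τ s (∑ σ, c σ) = c τ := by
    intro τ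
    rw [map_sum, Finset.sum_eq_single τ]
    · exact c1 τ
    · intro σ _ hσ
      rw [← c1 σ, A.E_col τ σ s _ hσ.symm]
    · intro h
      exact absurd (Finset.mem_univ τ) h
  refine ⟨m, (uc A p q w₁).1, (uc A p q w₁).2 p, ∑ τ, a τ, ∑ τ, c τ, e3, uc_v A p q w₁,
    uc_m A p q w₁ p, ?_, ?_, ?_⟩
  · rw [map_sum]
    exact Finset.sum_congr rfl fun τ _ => a2 τ
  · rw [map_sum]
    exact Finset.sum_congr rfl fun τ _ => c2 τ
  · refine (rL_rR_eq A p q s y).trans ?_
    rw [← hy₁, ← hw₂]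
    have k1 : (rL A p q s).1 y₁ = rIm A p q s m + rIv A p q s (uc A p q w₁).1 +
        rIu A p q s ((uc A p q w₁).2 p) := by
      rw [rIm_apply, rIv_apply, rIu_apply, add_assoc, ← map_add, ← map_add, ← map_add]
      refine congrArg _ ?_
      rw [← relb_decomp_w A p q w₁ e4, hm, hw₁]
      exact rl_rr_eq A p q _
    have k2 : (rR A p q s).1 w₂ = rIw A p q s (∑ τ, a τ) + rIz A p q s (∑ τ, c τ) := by
      rw [rIw_apply, rIz_apply, ← map_add]
      refine congrArg _ ?_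
      refine (uobj_eq (rX A p q) p s w₂).trans ?_
      rw [f0, map_zero, zero_add, ← Finset.sum_add_distrib]
      refine Finset.sum_congr rfl fun τ _ => ?_
      rw [hw, hz, ← map_add, g1]
    rw [k1, k2]
    unfold rmk
    rw [← add_assoc]

end decomp

section diff

variable (D : Cx k P Q) (p : P) (q s : Q)

private theorem relb_d_inl (G : PFct k P Q) (m : D.A.M) :
    (cone G D).d.1 ((inlH D.A (G.obj D.A)).1 m) =
      (inlH D.A (G.obj D.A)).1 (D.d.1 m) + (inrH D.A (G.obj D.A)).1 ((G.eta D.A).1 m) := by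
  refine Prod.ext ?_ ?_
  · exact (add_zero (D.d.1 m)).symm
  · change (G.eta D.A).1 m - (G.map D.d).1 0 = 0 + (G.eta D.A).1 m
    rw [map_zero, sub_zero, zero_add]

private theorem relb_d_inr (G : PFct k P Q) (w : (G.obj D.A).M) :
    (cone G D).d.1 ((inrH D.A (G.obj D.A)).1 w) =
      -(inrH D.A (G.obj D.A)).1 ((G.map D.d).1 w) := by
  refine Prod.ext ?_ ?_
  · change D.d.1 0 = -0
    rw [map_zero, neg_zero]
  · change (G.eta D.A).1 0 - (G.map D.d).1 w = -(G.map D.d).1 w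
    rw [map_zero, zero_sub]

private theorem rdX_l (m : D.A.M) : (cross p q D).d.1 ((rl D.A p q).1 m) =
    (rl D.A p q).1 (D.d.1 m) + (rr D.A p q).1 (((U k p q).eta D.A).1 m) :=
  relb_d_inl D (U k p q) m

private theorem rdX_r (w : (uobj D.A p q).M) : (cross p q D).d.1 ((rr D.A p q).1 w) =
    -(rr D.A p q).1 (((U k p q).map D.d).1 w) :=
  relb_d_inr D (U k p q) w

private theorem rdC_L (y : (rX D.A p q).M) :
    (cross p s (cross p q D)).d.1 ((rL D.A p q s).1 y) =
      (rL D.A p q s).1 ((cross p q D).d.1 y) +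
        (rR D.A p q s).1 (((U k p s).eta (rX D.A p q)).1 y) :=
  relb_d_inl (cross p q D) (U k p s) y

private theorem rdC_R (f : P → (rX D.A p q).M) :
    (cross p s (cross p q D)).d.1 ((rR D.A p q s).1 (∑ τ, uin (rX D.A p q) p s τ (f τ))) =
      -(rR D.A p q s).1 (∑ τ, uin (rX D.A p q) p s τ ((cross p q D).d.1 (f τ))) := by
  refine (relb_d_inr (cross p q D) (U k p s) _).trans ?_
  refine congrArg Neg.neg (congrArg _ ?_)
  refine (map_sum _ _ _).trans ?_
  exact Finset.sum_congr rfl fun τ _ => relb_map_uin (cross p q D).d p s τ (f τ)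

private theorem rd_Im (hs : s ≠ q) {m : D.A.M} (hm : D.A.E p q m = m) :
    (cross p s (cross p q D)).d.1 (rIm D.A p q s m) =
      rIm D.A p q s (D.d.1 m) + rIv D.A p q s m + rIu D.A p q s (D.A.x p m) +
        rIw D.A p q s (relbJ D.A p s m) := by
  have e1 : ((U k p q).eta D.A).1 m = uiv D.A p q m + uin D.A p q p (D.A.x p m) := by
    rw [relb_eta, Finset.sum_eq_zero, add_zero]
    intro τ _
    split_ifs with h
    · rfl
    · rw [relb_kill D.A p hs hm h, map_zero, map_zero]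
  have e2 : ((U k p s).eta (rX D.A p q)).1 ((rl D.A p q).1 m) =
      ∑ τ, uin (rX D.A p q) p s τ ((rl D.A p q).1 (D.A.E τ q (relbJ D.A p s m))) := by
    have h0 : (rX D.A p q).E p s ((rl D.A p q).1 m) = 0 := by
      rw [← (rl D.A p q).2.2.2, ← hm, D.A.E_row p s q m hs, map_zero]
    rw [relb_eta, relb_uiv_zero _ p s h0, relb_uin_zero _ p s (by
      rw [← (rX D.A p q).x_E, h0, map_zero]), zero_add, zero_add]
    refine Finset.sum_congr rfl fun τ _ => ?_
    split_ifs with h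
    · subst h
      rw [rz_w D.A τ q s hs]
    · rw [← (rl D.A p q).2.2.2, ← (rl D.A p q).2.2.1 _ _ _ (Ne.symm h),
        relb_EJ D.A p s q hs hm h]
  rw [rIm_apply, rdC_L, rdX_l, e1, e2, map_add, map_add, map_add, rIw_apply, ← rIm_apply,
    ← rIv_apply, ← rIu_apply, ← add_assoc]

private theorem rd_Iv (hs : s ≠ q) {v : D.A.M} (hv : D.A.E p q v = v) :
    (cross p s (cross p q D)).d.1 (rIv D.A p q s v) =
      -rIv D.A p q s (D.d.1 v) + rIz D.A p q s (relbX D.A p s v) := by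
  have e2 : ((U k p s).eta (rX D.A p q)).1 ((rr D.A p q).1 (uiv D.A p q v)) =
      ∑ τ, uin (rX D.A p q) p s τ ((rr D.A p q).1
        (uin D.A p q τ (D.A.E τ s (relbX D.A p s v)))) := by
    have h0 : (rX D.A p q).E p s ((rr D.A p q).1 (uiv D.A p q v)) = 0 := by
      rw [← (rr D.A p q).2.2.2, relb_Epr_uiv D.A p q hs, map_zero]
    rw [relb_eta, relb_uiv_zero _ p s h0, relb_uin_zero _ p s (by
      rw [← (rX D.A p q).x_E, h0, map_zero]), zero_add, zero_add]
    refine Finset.sum_congr rfl fun τ _ => ?_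
    split_ifs with h
    · subst h
      rw [rz_z D.A τ q s hs]
    · rw [← (rr D.A p q).2.2.2, relb_E_uiv D.A p q h hs,
        ← (rr D.A p q).2.2.1 _ _ _ (Ne.symm h), relb_Sp_uiv D.A p q h, relb_EX D.A p s h]
  rw [rIv_apply, rdC_L, rdX_r, relb_map_uiv, e2, map_neg, rIz_apply, ← rIv_apply]

private theorem rd_Iu (hs : s ≠ q) (μ : D.A.M) :
    (cross p s (cross p q D)).d.1 (rIu D.A p q s μ) =
      -rIu D.A p q s (D.d.1 μ) + rIz D.A p q s μ := by
  have e2 : ((U k p s).eta (rX D.A p q)).1 ((rr D.A p q).1 (uin D.A p q p μ)) =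
      ∑ τ, uin (rX D.A p q) p s τ ((rr D.A p q).1 (uin D.A p q τ (D.A.E τ s μ))) := by
    have h0 : (rX D.A p q).E p s ((rr D.A p q).1 (uin D.A p q p μ)) = 0 := by
      rw [← (rr D.A p q).2.2.2, relb_Epr_uin D.A p q hs, if_pos rfl, map_zero]
    rw [relb_eta, relb_uiv_zero _ p s h0, relb_uin_zero _ p s (by
      rw [← (rX D.A p q).x_E, h0, map_zero]), zero_add, zero_add]
    refine Finset.sum_congr rfl fun τ _ => ?_
    split_ifs with h
    · subst h
      rw [rz_z D.A τ q s hs]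
    · rw [← (rr D.A p q).2.2.2, relb_E_uin D.A p q h hs, if_neg (Ne.symm h),
        ← (rr D.A p q).2.2.1 _ _ _ (Ne.symm h), relb_Sp_uin D.A p q h]
  rw [rIu_apply, rdC_L, rdX_r, relb_map_uin, e2, map_neg, rIz_apply, ← rIu_apply]

private theorem rd_Iw (hs : s ≠ q) {w : D.A.M} (hw : D.A.E p s w = w) :
    (cross p s (cross p q D)).d.1 (rIw D.A p q s w) =
      -rIw D.A p q s (D.d.1 w) - rIz D.A p q s (relbJ D.A p q w) := by
  have e1 : ∀ τ, uin (rX D.A p q) p s τ ((cross p q D).d.1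
      ((rl D.A p q).1 (D.A.E τ q w))) =
      uin (rX D.A p q) p s τ ((rl D.A p q).1 (D.A.E τ q (D.d.1 w))) +
        uin (rX D.A p q) p s τ ((rr D.A p q).1
          (uin D.A p q τ (D.A.E τ s (relbJ D.A p q w)))) := by
    intro τ
    rw [rdX_l, ← map_add, D.d.2.2.2]
    by_cases h : τ = p
    · subst h
      have h1 : D.A.E τ q w = 0 := by rw [← hw, D.A.E_row τ q s w hs.symm]
      have h4 : (rr D.A τ q).1 (((U k τ q).eta D.A).1 (D.A.E τ q w)) = 0 := by
        rw [h1, map_zero]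
        exact map_zero _
      rw [h4, add_zero, map_add, rz_z D.A τ q s hs, add_zero]
    · refine congrArg _ (congrArg _ (congrArg _ ?_))
      have h1 : D.A.E p q (D.A.E τ q w) = 0 := D.A.E_col p τ q w (Ne.symm h)
      rw [relb_eta, relb_uiv_zero _ p q h1, relb_uin_zero _ p q (by
        rw [← D.A.x_E, h1, map_zero]), zero_add, zero_add, Finset.sum_eq_single τ]
      · rw [if_neg h, D.A.E_idem, relb_EJ D.A p q s hs.symm hw h]
      · intro σ _ hσ
        split_ifs
        · rfl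
        · rw [D.A.E_col σ τ q w hσ, map_zero, map_zero]
      · intro h
        exact absurd (Finset.mem_univ τ) h
  rw [rIw_apply, rdC_R, Finset.sum_congr rfl fun τ _ => e1 τ, Finset.sum_add_distrib, map_add,
    ← rIw_apply, ← rIz_apply, neg_add, sub_eq_add_neg]

private theorem rd_Iz (z : D.A.M) :
    (cross p s (cross p q D)).d.1 (rIz D.A p q s z) = rIz D.A p q s (D.d.1 z) := by
  have e1 : ∀ τ, uin (rX D.A p q) p s τ ((cross p q D).d.1
      ((rr D.A p q).1 (uin D.A p q τ (D.A.E τ s z)))) =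
      -uin (rX D.A p q) p s τ ((rr D.A p q).1
          (uin D.A p q τ (D.A.E τ s (D.d.1 z)))) := by
    intro τ
    rw [rdX_r, relb_map_uin, map_neg, D.d.2.2.2]
  rw [rIz_apply, rdC_R, Finset.sum_congr rfl fun τ _ => e1 τ, Finset.sum_neg_distrib, map_neg,
    neg_neg, ← rIz_apply]

private theorem rd_mk (hs : s ≠ q) {m v μ w z : D.A.M} (hm : D.A.E p q m = m)
    (hv : D.A.E p q v = v) (hw : D.A.E p s w = w) :
    (cross p s (cross p q D)).d.1 (rmk D.A p q s m v μ w z) =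
      rmk D.A p q s (D.d.1 m) (m - D.d.1 v) (D.A.x p m - D.d.1 μ)
        (relbJ D.A p s m - D.d.1 w)
        (μ + relbX D.A p s v - relbJ D.A p q w + D.d.1 z) := by
  unfold rmk
  have h1 := rd_Im D p q s hs hm
  have h2 := rd_Iv D p q s hs hv
  have h3 := rd_Iu D p q s hs μ
  have h4 := rd_Iw D p q s hs hw
  have h5 := rd_Iz D p q s z
  refine (map_add _ _ _).trans ?_
  refine (congrArg₂ _ (map_add _ _ _) h5).trans ?_
  refine (congrArg₂ _ (congrArg₂ _ (map_add _ _ _) h4) rfl).trans ?_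
  refine (congrArg₂ _ (congrArg₂ _ (congrArg₂ _ (map_add _ _ _) h3) rfl) rfl).trans ?_
  rw [h1, h2]
  simp only [map_sub, map_add]
  abel

end diff

section final

private theorem relb_EpqX (A : BN k P Q) (p : P) (q s : Q) {v : A.M} (hv : A.E p q v = v) :
    A.E p q (relbX A p s v) = relbX A p s v := by
  rw [relbX_apply, map_sum]
  refine Finset.sum_congr rfl fun t _ => ?_
  split_ifs
  · exact map_zero _
  · rw [← A.x_E, A.E_E p q t s, hv]

private noncomputable def relbF (A : BN k P Q) (p : P) (q s : Q) : (rC A p q s).M →ₗ[k] A.M :=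
  rW A p q s - relbJ A p s ∘ₗ rV A p q s

private noncomputable def relbG (A : BN k P Q) (p : P) (q s : Q) : A.M →ₗ[k] (rC A p q s).M :=
  rIu A p q s ∘ₗ relbJ A p q + rIw A p q s

private noncomputable def relbH (A : BN k P Q) (p : P) (q s : Q) :
    (rC A p q s).M →ₗ[k] (rC A p q s).M :=
  -(rIm A p q s ∘ₗ rV A p q s + rIu A p q s ∘ₗ rZ A p q s)

private theorem relbF_mk (A : BN k P Q) (p : P) (q s : Q) (hs : s ≠ q) (m v μ w z : A.M) :
    relbF A p q s (rmk A p q s m v μ w z) = A.E p s w - relbJ A p s (A.E p q v) := by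
  unfold relbF
  rw [LinearMap.sub_apply, LinearMap.comp_apply, rW_mk A p q s hs, rV_mk]

private theorem relbG_apply (A : BN k P Q) (p : P) (q s : Q) (w : A.M) :
    relbG A p q s w = rmk A p q s 0 0 (relbJ A p q w) w 0 := by
  unfold relbG rmk
  rw [LinearMap.add_apply, LinearMap.comp_apply, map_zero, map_zero, map_zero, add_zero,
    add_zero, zero_add]

private theorem relbH_mk (A : BN k P Q) (p : P) (q s : Q) (hs : s ≠ q) (m v μ w z : A.M) :
    relbH A p q s (rmk A p q s m v μ w z) =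
      -rmk A p q s (A.E p q v) 0 (A.E p q z) 0 0 := by
  unfold relbH
  rw [LinearMap.neg_apply, LinearMap.add_apply, LinearMap.comp_apply, LinearMap.comp_apply,
    rV_mk, rZ_mk A p q s hs]
  unfold rmk
  rw [map_zero, map_zero, map_zero, add_zero, add_zero, add_zero]

omit [Fintype Q] [Fintype Q'] [DecidableEq Q'] in
private theorem relb_swap_s {f : Option Q' ≃ Q} {s : Q} {u : Q'}
    (h : f (some u) = s) : (f.trans (Equiv.swap (f none) s)) (some u) = f none := by
  rw [Equiv.trans_apply, h, Equiv.swap_apply_right]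

omit [Fintype Q] [Fintype Q'] [DecidableEq Q'] in
private theorem relb_swap_u {f : Option Q' ≃ Q} {s : Q} {u : Q'}
    (h : f (some u) ≠ s) : (f.trans (Equiv.swap (f none) s)) (some u) = f (some u) := by
  rw [Equiv.trans_apply, Equiv.swap_apply_of_ne_of_ne _ h]
  exact f.injective.ne (Option.some_ne_none u)

omit [Fintype Q] [Fintype Q'] [DecidableEq Q'] in
private theorem relb_swap_n {f : Option Q' ≃ Q} {s : Q} :
    (f.trans (Equiv.swap (f none) s)) none = s := by
  rw [Equiv.trans_apply, Equiv.swap_apply_left]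

omit [Fintype P'] [DecidableEq P'] [Fintype Q'] [DecidableEq Q'] in
private theorem relb_capF (A : BN k P Q) (e : Option P' ≃ P) (f : Option Q' ≃ Q) (s : Q)
    (hs : s ≠ f none) : CapHom e e f (f.trans (Equiv.swap (f none) s))
      (rC A (e none) (f none) s) A (relbF A (e none) (f none) s) := by
  have he : ∀ t : P', e (some t) ≠ e none := fun t => e.injective.ne (Option.some_ne_none t)
  have hf : ∀ u : Q', f (some u) ≠ f none := fun u => f.injective.ne (Option.some_ne_none u)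
  refine ⟨fun y hy => ?_, fun t y hy => ?_, fun t u y htu hy => ?_, fun t u y hy => ?_⟩
  · obtain ⟨m, v, μ, w, z, hm, hv, hμ, hw, hz, rfl⟩ := relb_decomp A (e none) (f none) s hs y hy
    rw [relb_swap_n, relbF_mk A _ _ s hs, map_sub, A.E_idem, relb_J_self]
  · obtain ⟨m, v, μ, w, z, hm, hv, hμ, hw, hz, rfl⟩ := relb_decomp A (e none) (f none) s hs y hy
    rw [rmk_x A _ _ s (he t), relbF_mk A _ _ s hs, relbF_mk A _ _ s hs, map_sub, ← A.x_E,
      ← A.x_E, relb_Jx]
  · obtain ⟨m, v, μ, w, z, hm, hv, hμ, hw, hz, rfl⟩ := relb_decomp A (e none) (f none) s hs y hy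
    have htu' : e (some t) ≠ e (some u) := e.injective.ne (fun h => htu (Option.some_injective _ h))
    rw [rmk_S A _ _ s htu' (he t) (he u), relbF_mk A _ _ s hs, relbF_mk A _ _ s hs, map_sub,
      ← A.S_E' _ _ _ _ _ htu' (he t).symm (he u).symm,
      ← A.S_E' _ _ _ _ _ htu' (he t).symm (he u).symm, relb_JS A _ s htu' (he t) (he u)]
  · obtain ⟨m, v, μ, w, z, hm, hv, hμ, hw, hz, rfl⟩ := relb_decomp A (e none) (f none) s hs y hy
    by_cases h : f (some u) = s
    · rw [relb_swap_s h, h, rmk_Es A _ _ s hs (he t), relbF_mk A _ _ s hs,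
        relbF_mk A _ _ s hs, map_sub, A.E_E (e none) s (e (some t)) (f none) w,
        A.E_E (e none) (f none) (e (some t)) s v, hv,
        relb_JE' A (e none) s (f none) hs hv (he t)]
    · rw [relb_swap_u h, rmk_E A _ _ s (he t) (hf u) h, relbF_mk A _ _ s hs,
        relbF_mk A _ _ s hs, map_sub, A.E_E (e none) s (e (some t)) (f (some u)) w,
        A.E_E (e none) (f none) (e (some t)) (f (some u)) v, hv,
        relb_JE A (e none) s (f none) hs hv (he t) h (hf u)]

omit [Fintype P'] [DecidableEq P'] [Fintype Q'] [DecidableEq Q'] in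
private theorem relb_capG (A : BN k P Q) (e : Option P' ≃ P) (f : Option Q' ≃ Q) (s : Q)
    (hs : s ≠ f none) : CapHom e e (f.trans (Equiv.swap (f none) s)) f
      A (rC A (e none) (f none) s) (relbG A (e none) (f none) s) := by
  have he : ∀ t : P', e (some t) ≠ e none := fun t => e.injective.ne (Option.some_ne_none t)
  have hf : ∀ u : Q', f (some u) ≠ f none := fun u => f.injective.ne (Option.some_ne_none u)
  refine ⟨fun w hw => ?_, fun t w hw => ?_, fun t u w htu hw => ?_, fun t u w hw => ?_⟩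
  · rw [relbG_apply, rmk_Epq A _ _ s hs, map_zero]
  · rw [relbG_apply, relbG_apply, rmk_x A _ _ s (he t), relb_Jx, map_zero]
  · have htu' : e (some t) ≠ e (some u) := e.injective.ne (fun h => htu (Option.some_injective _ h))
    rw [relbG_apply, relbG_apply, rmk_S A _ _ s htu' (he t) (he u),
      relb_JS A _ _ htu' (he t) (he u), map_zero]
  · rw [relb_swap_n] at hw
    by_cases h : f (some u) = s
    · rw [relb_swap_s h, h, relbG_apply, relbG_apply, rmk_Es A _ _ s hs (he t),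
        relb_JE' A (e none) (f none) s hs.symm hw (he t), map_zero]
    · rw [relb_swap_u h, relbG_apply, relbG_apply, rmk_E A _ _ s (he t) (hf u) h,
        relb_JE A (e none) (f none) s hs.symm hw (he t) (hf u) h, map_zero]

omit [Fintype P'] [DecidableEq P'] [Fintype Q'] [DecidableEq Q'] in
private theorem relb_capH (A : BN k P Q) (e : Option P' ≃ P) (f : Option Q' ≃ Q) (s : Q)
    (hs : s ≠ f none) : CapHom e e f f (rC A (e none) (f none) s) (rC A (e none) (f none) s)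
      (relbH A (e none) (f none) s) := by
  have he : ∀ t : P', e (some t) ≠ e none := fun t => e.injective.ne (Option.some_ne_none t)
  have hf : ∀ u : Q', f (some u) ≠ f none := fun u => f.injective.ne (Option.some_ne_none u)
  refine ⟨fun y hy => ?_, fun t y hy => ?_, fun t u y htu hy => ?_, fun t u y hy => ?_⟩
  · obtain ⟨m, v, μ, w, z, hm, hv, hμ, hw, hz, rfl⟩ := relb_decomp A (e none) (f none) s hs y hy
    rw [relbH_mk A _ _ s hs, map_neg, rmk_Epq A _ _ s hs, A.E_idem]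
  · obtain ⟨m, v, μ, w, z, hm, hv, hμ, hw, hz, rfl⟩ := relb_decomp A (e none) (f none) s hs y hy
    rw [rmk_x A _ _ s (he t), relbH_mk A _ _ s hs, relbH_mk A _ _ s hs, map_neg,
      rmk_x A _ _ s (he t), map_zero, A.x_E, A.x_E]
  · obtain ⟨m, v, μ, w, z, hm, hv, hμ, hw, hz, rfl⟩ := relb_decomp A (e none) (f none) s hs y hy
    have htu' : e (some t) ≠ e (some u) := e.injective.ne (fun h => htu (Option.some_injective _ h))
    rw [rmk_S A _ _ s htu' (he t) (he u), relbH_mk A _ _ s hs, relbH_mk A _ _ s hs, map_neg,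
      rmk_S A _ _ s htu' (he t) (he u), map_zero,
      A.S_E' _ _ _ _ _ htu' (he t).symm (he u).symm,
      A.S_E' _ _ _ _ _ htu' (he t).symm (he u).symm]
  · obtain ⟨m, v, μ, w, z, hm, hv, hμ, hw, hz, rfl⟩ := relb_decomp A (e none) (f none) s hs y hy
    by_cases h : f (some u) = s
    · rw [h, rmk_Es A _ _ s hs (he t), relbH_mk A _ _ s hs, relbH_mk A _ _ s hs, map_neg,
        rmk_Es A _ _ s hs (he t), map_zero, map_zero,
        A.E_E (e none) (f none) (e (some t)) s v, A.E_E (e none) (f none) (e (some t)) s z]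
    · rw [rmk_E A _ _ s (he t) (hf u) h, relbH_mk A _ _ s hs, relbH_mk A _ _ s hs, map_neg,
        rmk_E A _ _ s (he t) (hf u) h, map_zero,
        A.E_E (e none) (f none) (e (some t)) (f (some u)) v,
        A.E_E (e none) (f none) (e (some t)) (f (some u)) z]

private theorem relb_h1 (D : Cx k P Q) (p : P) (q s : Q) (hs : s ≠ q) (y : (rC D.A p q s).M)
    (hy : (rC D.A p q s).E p q y = y) :
    relbF D.A p q s ((cross p s (cross p q D)).d.1 y) = (-1 : k) • D.d.1 (relbF D.A p q s y) := by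
  obtain ⟨m, v, μ, w, z, hm, hv, hμ, hw, hz, rfl⟩ := relb_decomp D.A p q s hs y hy
  have hd : ∀ (t : P) (u : Q) (b : D.A.M), D.A.E t u (D.d.1 b) = D.d.1 (D.A.E t u b) :=
    fun t u b => (D.d.2.2.2 t u b).symm
  rw [rd_mk D p q s hs hm hv hw, relbF_mk D.A p q s hs, relbF_mk D.A p q s hs, neg_one_smul,
    map_sub, map_sub, map_sub, map_sub, hd, hd, hm, hv, hw, relb_J_self, relb_Jg]
  abel

private theorem relb_h2 (D : Cx k P Q) (p : P) (q s : Q) (hs : s ≠ q) (w : D.A.M)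
    (hw : D.A.E p s w = w) :
    relbG D.A p q s (D.d.1 w) =
      (-1 : k) • (cross p s (cross p q D)).d.1 (relbG D.A p q s w) := by
  rw [relbG_apply, relbG_apply, rd_mk D p q s hs (map_zero _) (map_zero _) hw]
  refine Eq.trans ?_ (neg_one_smul k (rmk D.A p q s _ _ _ _ _)).symm
  unfold rmk
  rw [relb_Jg]
  simp only [map_sub, map_add, map_zero]
  abel

private def rdC (D : Cx k P Q) (p : P) (q s : Q) : (rC D.A p q s).M →ₗ[k] (rC D.A p q s).M :=
  (cross p s (cross p q D)).d.1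

private theorem relb_h3 (D : Cx k P Q) (p : P) (q s : Q) (hs : s ≠ q) (y : (rC D.A p q s).M)
    (hy : (rC D.A p q s).E p q y = y) :
    relbG D.A p q s (relbF D.A p q s y) = y +
      (rdC D p q s (relbH D.A p q s y) + relbH D.A p q s (rdC D p q s y)) := by
  obtain ⟨m, v, μ, w, z, hm, hv, hμ, hw, hz, rfl⟩ := relb_decomp D.A p q s hs y hy
  have hd : ∀ (t : P) (u : Q) (b : D.A.M), D.A.E t u (D.d.1 b) = D.d.1 (D.A.E t u b) :=
    fun t u b => (D.d.2.2.2 t u b).symm
  have e1 : rdC D p q s (relbH D.A p q s (rmk D.A p q s m v μ w z)) =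
      -rmk D.A p q s (D.d.1 v) (v - D.d.1 0) (D.A.x p v - D.d.1 z)
        (relbJ D.A p s v - D.d.1 0)
        (z + relbX D.A p s 0 - relbJ D.A p q 0 + D.d.1 0) := by
    rw [relbH_mk D.A p q s hs, hv, hz, map_neg]
    exact congrArg Neg.neg (rd_mk D p q s hs hv (map_zero _) (map_zero _))
  have e2 : relbH D.A p q s (rdC D p q s (rmk D.A p q s m v μ w z)) =
      -rmk D.A p q s (m - D.d.1 v) 0
        (μ + relbX D.A p s v - relbJ D.A p q w + D.d.1 z) 0 0 := by
    have e3 : rdC D p q s (rmk D.A p q s m v μ w z) = rmk D.A p q s (D.d.1 m) (m - D.d.1 v)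
        (D.A.x p m - D.d.1 μ) (relbJ D.A p s m - D.d.1 w)
        (μ + relbX D.A p s v - relbJ D.A p q w + D.d.1 z) := rd_mk D p q s hs hm hv hw
    have e4 : D.A.E p q (m - D.d.1 v) = m - D.d.1 v := by
      rw [map_sub, hd, hm, hv]
    have e5 : D.A.E p q (μ + relbX D.A p s v - relbJ D.A p q w + D.d.1 z) =
        μ + relbX D.A p s v - relbJ D.A p q w + D.d.1 z := by
      rw [map_add, map_sub, map_add, hd, hμ, hz, relb_J_self, relb_EpqX D.A p q s hv]
    rw [e3, relbH_mk D.A p q s hs, e4, e5]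
  rw [e1, e2, relbF_mk D.A p q s hs, hv, hw, relbG_apply, map_sub (relbJ D.A p q),
    relb_JJ D.A p s q hs hv]
  unfold rmk
  simp only [map_sub, map_add, map_zero]
  abel

end final

theorem relB (D : Cx k P Q) (e : Option P' ≃ P) (f : Option Q' ≃ Q) (s : Q) (hs : s ≠ f none) :
    Ret ((capF e f).cx (cross (e none) s (cross (e none) (f none) D)))
      ((capF e (f.trans (Equiv.swap (f none) s))).cx D) := by
  exact ret_cap (C := cross (e none) s (cross (e none) (f none) D)) (D := D) (ε := -1)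
    (by ring) (F := relbF D.A (e none) (f none) s) (G := relbG D.A (e none) (f none) s)
    (H := relbH D.A (e none) (f none) s) (relb_capF D.A e f s hs) (relb_capG D.A e f s hs)
    (relb_capH D.A e f s hs) (fun y hy => relb_h1 D (e none) (f none) s hs y hy)
    (fun w hw => relb_h2 D (e none) (f none) s hs w (by rwa [relb_swap_n] at hw))
    (fun y hy => relb_h3 D (e none) (f none) s hs y hy)

end Pool.Agent.Lib.MP_f2e65a_lc
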