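import Pool.Agent.Lib.MP_f2e65a_lc.Uin
import Pool.Agent.Lib.MP_f2e65a_lc.RetA

/-! # RelF: caps and far crossings

`p = e none`, `q = f none`, `r = e (some r') ≠ p`, `s = f (some s') ≠ q`, `B = (relabel e f).obj D.A`, `N = capObj B = (capF e f).obj D.A`.
`Y = cross r s D`: elements `(m, w)`, `uc w = (v, μ)`.  If `E p q (m, w) = (m, w)` then `E p q m = m`, `E p q v = v`, `E p q μ_τ = μ_τ` and `μ_p = 0` (`uE_tu_*` for `t = p ≠ r`, `q ≠ s`).
`Z = cross r' s' ((capF e f).cx D)`: elements `(n, z)`, `n : N.M`, `z : (uobj N r' s').M`, coordinates in `N.M` for `X` and `τ' : P'`.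
The map `Φ (m, w) = (m, (v, τ' ↦ μ_{e (some τ')}))` from the cap of `Y` to `Z` is an isomorphism of Bar-Natan modules and commutes with the differentials: prove `Iso`, or give the morphisms `f`, `g` of `Ret` with `ε = 1`, `h = 0` directly, and
use `Ret.of_iso`.  Details: all coordinates are compared after `capι` (injective, `capι_x`, `capι_S`, `capι_E`, `capι_mk`):
* dots: `t' = r'`: `(μ_r, τ ↦ 0 / x τ μ_τ)` on both sides; `t' ≠ r'`: `x t`.
* saddles: `uS` for `r` and `uS` for `r'`: `e (some t') = r` iff `t' = r'`; `Equiv.swap (e (some a)) (e (some b)) (e (some c)) = e (some (Equiv.swap a b c))`.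
* projections: `uE ... r s t u` and `uE ... r' s' t' u'`.
* differential: `η_rs m = (E r s m, τ ↦ S r τ (E τ s m))` (at `r`: `x r (E r s m)`), the coordinate `p` vanishes: `E p s m = 0` (`E_row`).
* inverse: `(n, z) ↦ (n, (v, μ))` with `μ_p = 0`, `μ_{e (some τ')} = z_τ'`, i.e. `μ_τ = match e.symm τ with | none => 0 | some τ' => ..` -/

set_option autoImplicit false
set_option linter.unusedVariables false

namespace Pool.Agent.Lib.MP_f2e65a_lc

variable {k : Type} [Field k] {P Q P' Q' : Type} [Fintype P] [DecidableEq P] [Fintype Q]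
  [DecidableEq Q] [Fintype P'] [DecidableEq P'] [Fintype Q'] [DecidableEq Q']

/-- equality of morphisms on elements -/
private theorem relF_iso {C D : Cx k P Q} (f : Hom C.A D.A) (hf : Function.Bijective f.1)
    (hd : cmp f C.d = cmp D.d f) : Iso C D := by
  have h1 : ∀ m, f.1 ((LinearEquiv.ofBijective f.1 hf).symm m) = m := fun m =>
    (LinearEquiv.ofBijective f.1 hf).apply_symm_apply m
  have h2 : ∀ m, (LinearEquiv.ofBijective f.1 hf).symm (f.1 m) = m := fun m =>
    (LinearEquiv.ofBijective f.1 hf).symm_apply_apply m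
  refine ⟨f, ⟨(LinearEquiv.ofBijective f.1 hf).symm.toLinearMap, fun p m => hf.1 ?_,
    fun p r m h => hf.1 ?_, fun p q m => hf.1 ?_⟩, hom_ext h2, hom_ext h1, hd⟩
  · change f.1 ((LinearEquiv.ofBijective f.1 hf).symm (D.A.x p m)) =
      f.1 (C.A.x p ((LinearEquiv.ofBijective f.1 hf).symm m))
    rw [h1, f.2.1, h1]
  · change f.1 ((LinearEquiv.ofBijective f.1 hf).symm (D.A.S p r m)) =
      f.1 (C.A.S p r ((LinearEquiv.ofBijective f.1 hf).symm m))
    rw [h1, f.2.2.1 p r _ h, h1]
  · change f.1 ((LinearEquiv.ofBijective f.1 hf).symm (D.A.E p q m)) =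
      f.1 (C.A.E p q ((LinearEquiv.ofBijective f.1 hf).symm m))
    rw [h1, f.2.2.2, h1]

omit [Fintype P] [DecidableEq P] [Fintype P'] [DecidableEq P'] in
private theorem relF_cases (e : Option P' ≃ P) {C : P → Prop} (h0 : C (e none))
    (h1 : ∀ τ, C (e (some τ))) (τ : P) : C τ := by
  obtain ⟨o, rfl⟩ := e.surjective τ
  rcases o with _ | τ'
  · exact h0
  · exact h1 τ'

section rel

variable (A : BN k P Q) (e : Option P' ≃ P) (f : Option Q' ≃ Q)

/-- the relabelled module -/
private abbrev rfB : BN k (Option P') (Option Q') := (relabel e f).obj A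

/-- its cap -/
private abbrev rfN : BN k P' Q' := capObj (rfB A e f)

/-- the inclusion of the cap -/
private def rfι : (rfN A e f).M →ₗ[k] A.M := capι (rfB A e f)

private theorem rfι_injective : Function.Injective (rfι A e f) := capι_injective _
private theorem rfι_E_none (n : (rfN A e f).M) :
    A.E (e none) (f none) (rfι A e f n) = rfι A e f n := capι_E_none _ n
private theorem rfι_x (t : P') (n : (rfN A e f).M) :
    rfι A e f ((rfN A e f).x t n) = A.x (e (some t)) (rfι A e f n) := rfl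
private theorem rfι_S (t s : P') (h : t ≠ s) (n : (rfN A e f).M) :
    rfι A e f ((rfN A e f).S t s n) = A.S (e (some t)) (e (some s)) (rfι A e f n) :=
  capι_S (rfB A e f) t s h n
private theorem rfι_E (t : P') (s : Q') (n : (rfN A e f).M) :
    rfι A e f ((rfN A e f).E t s n) = A.E (e (some t)) (f (some s)) (rfι A e f n) := rfl

/-- the coordinates agree -/
private def rfR (w : UW A) (w' : UW (rfN A e f)) : Prop :=
  rfι A e f w'.1 = w.1 ∧ ∀ τ, rfι A e f (w'.2 τ) = w.2 (e (some τ))

omit [Fintype P] [DecidableEq P] [Fintype P'] [DecidableEq P'] in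
private theorem rf_ne {t s : P'} (h : t ≠ s) : e (some t) ≠ e (some s) := fun h' =>
  h (Option.some.inj (e.injective h'))

private theorem rf_x (r t : P') {w : UW A} {w' : UW (rfN A e f)} (h : rfR A e f w w') :
    rfR A e f (ux A (e (some r)) (e (some t)) w) (ux (rfN A e f) r t w') := by
  obtain ⟨h1, h2⟩ := h
  by_cases ht : t = r
  · subst ht
    refine ⟨by rw [ux_p_v, ux_p_v, h2], fun τ => ?_⟩
    by_cases hτ : τ = t
    · subst hτ
      rw [ux_p_p, ux_p_p, map_zero]
    · rw [ux_p_ne _ _ hτ, ux_p_ne _ _ (rf_ne e hτ), rfι_x, h2]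
  · have ht' := rf_ne e ht
    exact ⟨by rw [ux_ne_v _ _ ht, ux_ne_v _ _ ht', rfι_x, h1], fun τ => by
      rw [ux_ne _ _ ht, ux_ne _ _ ht', rfι_x, h2]⟩

private theorem rf_S1 (r u : P') (hu : u ≠ r) {w : UW A} {w' : UW (rfN A e f)}
    (h : rfR A e f w w') :
    rfR A e f (uS1 A (e (some r)) (e (some u)) w) (uS1 (rfN A e f) r u w') := by
  obtain ⟨h1, h2⟩ := h
  have hu' := rf_ne e hu
  refine ⟨by rw [uS1_v, uS1_v, h2], fun τ => ?_⟩
  by_cases hτ : τ = r
  · subst hτ
    rw [uS1_p, uS1_p, rfι_x, h2]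
  · by_cases hτ' : τ = u
    · subst hτ'
      rw [uS1_self _ _ hu, uS1_self _ _ hu', map_add, rfι_x, h1, h2]
    · rw [uS1_ne _ _ hτ hτ', uS1_ne _ _ (rf_ne e hτ) (rf_ne e hτ'), rfι_S _ _ _ _ _ hτ', h2]

private theorem rf_S (r t u : P') (htu : t ≠ u) {w : UW A} {w' : UW (rfN A e f)}
    (h : rfR A e f w w') :
    rfR A e f (uS A (e (some r)) (e (some t)) (e (some u)) w) (uS (rfN A e f) r t u w') := by
  by_cases ht : t = r
  · subst ht
    rw [uS_p _ (Ne.symm htu), uS_p _ (rf_ne e (Ne.symm htu))]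
    exact rf_S1 A e f t u (Ne.symm htu) h
  by_cases hu : u = r
  · subst hu
    rw [uS_p' _ htu, uS_p' _ (rf_ne e htu)]
    exact rf_S1 A e f u t htu h
  obtain ⟨h1, h2⟩ := h
  have htu' := rf_ne e htu
  have ht' := rf_ne e ht
  have hu' := rf_ne e hu
  refine ⟨by rw [uS_ne_v _ _ htu ht hu, uS_ne_v _ _ htu' ht' hu', rfι_S _ _ _ _ _ htu, h1],
    fun τ => ?_⟩
  have hsw : Equiv.swap (e (some t)) (e (some u)) (e (some τ)) =
      e (some (Equiv.swap t u τ)) := by
    rw [← e.injective.map_swap, ← (Option.some_injective P').map_swap]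
  rw [uS_ne _ _ htu ht hu, uS_ne _ _ htu' ht' hu', rfι_S _ _ _ _ _ htu, h2, hsw]

private theorem rf_E (r : P') (s : Q') (t : P') (u : Q') {w : UW A} {w' : UW (rfN A e f)}
    (h : rfR A e f w w') :
    rfR A e f (uE A (e (some r)) (f (some s)) (e (some t)) (f (some u)) w)
      (uE (rfN A e f) r s t u w') := by
  obtain ⟨h1, h2⟩ := h
  by_cases ht : t = r
  · subst ht
    by_cases hu : u = s
    · subst hu
      refine ⟨by rw [uE_pq_v, uE_pq_v, h1], fun τ => ?_⟩
      by_cases hτ : τ = t
      · subst hτ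
        rw [uE_pq_p, uE_pq_p, h2]
      · rw [uE_pq_ne _ _ hτ, uE_pq_ne _ _ (rf_ne e hτ), map_zero]
    · have hu' : f (some u) ≠ f (some s) := fun h' => hu (Option.some.inj (f.injective h'))
      refine ⟨by rw [uE_pu_v _ _ hu, uE_pu_v _ _ hu', map_zero], fun τ => ?_⟩
      by_cases hτ : τ = t
      · subst hτ
        rw [uE_pu_p _ _ hu, uE_pu_p _ _ hu', map_zero]
      · rw [uE_pu_ne _ _ hu hτ, uE_pu_ne _ _ hu' (rf_ne e hτ), rfι_E, h2]
  · have ht' := rf_ne e ht
    by_cases hu : u = s
    · subst hu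
      refine ⟨by rw [uE_tq_v _ _ ht, uE_tq_v _ _ ht', map_zero], fun τ => ?_⟩
      by_cases hτ : τ = t
      · subst hτ
        rw [uE_tq_t _ _ ht, uE_tq_t _ _ ht', h2]
      · rw [uE_tq_ne _ _ ht hτ, uE_tq_ne _ _ ht' (rf_ne e hτ), map_zero]
    · have hu' : f (some u) ≠ f (some s) := fun h' => hu (Option.some.inj (f.injective h'))
      refine ⟨by rw [uE_tu_v _ _ ht hu, uE_tu_v _ _ ht' hu', rfι_E, h1], fun τ => ?_⟩
      by_cases hτ : τ = t
      · subst hτ
        rw [uE_tu_t _ _ ht hu, uE_tu_t _ _ ht' hu', map_zero]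
      · rw [uE_tu_ne _ _ ht hu hτ, uE_tu_ne _ _ ht' hu' (rf_ne e hτ), rfι_E, h2]

private theorem rf_η (r : P') (s : Q') (n : (rfN A e f).M) :
    rfR A e f (uη A (e (some r)) (f (some s)) (rfι A e f n)) (uη (rfN A e f) r s n) := by
  refine ⟨by rw [uη_v, uη_v, rfι_E], fun τ => ?_⟩
  by_cases hτ : τ = r
  · subst hτ
    rw [uη_p, uη_p, rfι_x, rfι_E]
  · rw [uη_ne _ _ hτ, uη_ne _ _ (rf_ne e hτ), rfι_S _ _ _ _ _ (Ne.symm hτ), rfι_E]

/-- the cap of the crossing as a module -/
private abbrev rfL (r : P') (s : Q') : BN k P' Q' :=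
  capObj ((relabel e f).obj (A.prod (uobj A (e (some r)) (f (some s)))))

/-- the elements of the cap of the crossing -/
private def rfj (r : P') (s : Q') :
    (rfL A e f r s).M →ₗ[k] A.M × (uobj A (e (some r)) (f (some s))).M :=
  capι ((relabel e f).obj (A.prod (uobj A (e (some r)) (f (some s)))))

private theorem rfj_none (r : P') (s : Q') (y : (rfL A e f r s).M) :
    A.E (e none) (f none) (rfj A e f r s y).1 = (rfj A e f r s y).1 ∧
    uE A (e (some r)) (f (some s)) (e none) (f none)
      (uc A (e (some r)) (f (some s)) (rfj A e f r s y).2) =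
      uc A (e (some r)) (f (some s)) (rfj A e f r s y).2 := by
  have h : (A.prod (uobj A (e (some r)) (f (some s)))).E (e none) (f none)
      (rfj A e f r s y) = rfj A e f r s y :=
    capι_E_none ((relabel e f).obj (A.prod (uobj A (e (some r)) (f (some s))))) y
  exact ⟨congrArg Prod.fst h,
    congrArg (fun z : A.M × (uobj A (e (some r)) (f (some s))).M =>
      uc A (e (some r)) (f (some s)) z.2) h⟩

omit [Fintype P] [DecidableEq P] [Fintype P'] [DecidableEq P'] in
private theorem rf_n1 (r : P') : e none ≠ e (some r) := fun h' =>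
  (Option.some_ne_none r).symm (e.injective h')

private theorem rfj_v (r : P') (s : Q') (y : (rfL A e f r s).M) :
    A.E (e none) (f none) (uc A (e (some r)) (f (some s)) (rfj A e f r s y).2).1 =
      (uc A (e (some r)) (f (some s)) (rfj A e f r s y).2).1 := by
  have h := congrArg Prod.fst (rfj_none A e f r s y).2
  rw [uE_tu_v _ _ (rf_n1 e r) (rf_n1 f s)] at h
  exact h

private theorem rfj_p (r : P') (s : Q') (y : (rfL A e f r s).M) :
    (uc A (e (some r)) (f (some s)) (rfj A e f r s y).2).2 (e none) = 0 := by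
  have h := congrArg (fun w : UW A => w.2 (e none)) (rfj_none A e f r s y).2
  rw [← h]
  exact uE_tu_t _ _ (rf_n1 e r) (rf_n1 f s)

private theorem rfj_m (r : P') (s : Q') (y : (rfL A e f r s).M) (τ : P') :
    A.E (e none) (f none) ((uc A (e (some r)) (f (some s)) (rfj A e f r s y).2).2
      (e (some τ))) =
      (uc A (e (some r)) (f (some s)) (rfj A e f r s y).2).2 (e (some τ)) := by
  have h := congrArg (fun w : UW A => w.2 (e (some τ))) (rfj_none A e f r s y).2
  refine Eq.trans ?_ h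
  exact (uE_tu_ne _ _ (rf_n1 e r) (rf_n1 f s) (Ne.symm (rf_n1 e τ))).symm

/-- the first coordinate -/
private def rf1 (r : P') (s : Q') : (rfL A e f r s).M →ₗ[k] (rfN A e f).M :=
  (LinearMap.codRestrict (capSub (rfB A e f)) (LinearMap.fst k A.M
    (uobj A (e (some r)) (f (some s))).M ∘ₗ rfj A e f r s)
    (fun y => (rfj_none A e f r s y).1) : (rfL A e f r s).M →ₗ[k] capSub (rfB A e f))

/-- the coordinate `v` -/
private def rfv (r : P') (s : Q') : (rfL A e f r s).M →ₗ[k] (rfN A e f).M :=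
  (LinearMap.codRestrict (capSub (rfB A e f)) (uv A ∘ₗ uc A (e (some r)) (f (some s)) ∘ₗ
    LinearMap.snd k A.M (uobj A (e (some r)) (f (some s))).M ∘ₗ rfj A e f r s)
    (fun y => rfj_v A e f r s y) : (rfL A e f r s).M →ₗ[k] capSub (rfB A e f))

/-- the coordinates `μ τ` -/
private def rfm (r : P') (s : Q') (τ : P') : (rfL A e f r s).M →ₗ[k] (rfN A e f).M :=
  (LinearMap.codRestrict (capSub (rfB A e f)) (um A (e (some τ)) ∘ₗ
    uc A (e (some r)) (f (some s)) ∘ₗ
    LinearMap.snd k A.M (uobj A (e (some r)) (f (some s))).M ∘ₗ rfj A e f r s)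
    (fun y => rfj_m A e f r s y τ) : (rfL A e f r s).M →ₗ[k] capSub (rfB A e f))

private theorem rfι_1 (r : P') (s : Q') (y : (rfL A e f r s).M) :
    rfι A e f (rf1 A e f r s y) = (rfj A e f r s y).1 := rfl
private theorem rfι_v (r : P') (s : Q') (y : (rfL A e f r s).M) :
    rfι A e f (rfv A e f r s y) = (uc A (e (some r)) (f (some s)) (rfj A e f r s y).2).1 := rfl
private theorem rfι_m (r : P') (s : Q') (y : (rfL A e f r s).M) (τ : P') :
    rfι A e f (rfm A e f r s τ y) =
      (uc A (e (some r)) (f (some s)) (rfj A e f r s y).2).2 (e (some τ)) := rfl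

/-- the second coordinate -/
private def rf2 (r : P') (s : Q') : (rfL A e f r s).M →ₗ[k] (uobj (rfN A e f) r s).M :=
  (LinearMap.codRestrict (Usub (rfN A e f) r s) (LinearMap.prod (rfv A e f r s)
    (LinearMap.pi (rfm A e f r s))) (fun y => by
      refine ⟨rfι_injective A e f ?_, fun τ => rfι_injective A e f ?_⟩
      · change rfι A e f ((rfN A e f).E r s (rfv A e f r s y)) = rfι A e f (rfv A e f r s y)
        rw [rfι_E, rfι_v, uc_v]
      · change rfι A e f ((rfN A e f).E r s (rfm A e f r s τ y)) =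
          rfι A e f (rfm A e f r s τ y)
        rw [rfι_E, rfι_m, uc_m]) : (rfL A e f r s).M →ₗ[k] Usub (rfN A e f) r s)

private theorem rf2_R (r : P') (s : Q') (y : (rfL A e f r s).M) :
    rfR A e f (uc A (e (some r)) (f (some s)) (rfj A e f r s y).2)
      (uc (rfN A e f) r s (rf2 A e f r s y)) := ⟨rfl, fun _ => rfl⟩

/-- the isomorphism -/
private def rfΦ0 (r : P') (s : Q') :
    (rfL A e f r s).M →ₗ[k] (rfN A e f).M × (uobj (rfN A e f) r s).M :=
  LinearMap.prod (rf1 A e f r s) (rf2 A e f r s)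

/-- a criterion for equality in the target -/
private theorem rf_eq (r : P') (s : Q') {z z' : (rfN A e f).M × (uobj (rfN A e f) r s).M}
    {m : A.M} {w : UW A} (h1 : rfι A e f z.1 = m) (h1' : rfι A e f z'.1 = m)
    (h2 : rfR A e f w (uc (rfN A e f) r s z.2)) (h2' : rfR A e f w (uc (rfN A e f) r s z'.2)) :
    z = z' := by
  refine Prod.ext (rfι_injective A e f (h1.trans h1'.symm)) (uobj_ext ?_ fun τ => ?_)
  · exact rfι_injective A e f (h2.1.trans h2'.1.symm)
  · exact rfι_injective A e f ((h2.2 τ).trans (h2'.2 τ).symm)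

private theorem rfj_x (r : P') (s : Q') (t : P') (y : (rfL A e f r s).M) :
    rfj A e f r s ((rfL A e f r s).x t y) =
      (A.prod (uobj A (e (some r)) (f (some s)))).x (e (some t)) (rfj A e f r s y) := rfl

private theorem rfj_S (r : P') (s : Q') (t u : P') (h : t ≠ u) (y : (rfL A e f r s).M) :
    rfj A e f r s ((rfL A e f r s).S t u y) =
      (A.prod (uobj A (e (some r)) (f (some s)))).S (e (some t)) (e (some u))
        (rfj A e f r s y) :=
  capι_S ((relabel e f).obj (A.prod (uobj A (e (some r)) (f (some s))))) t u h y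

private theorem rfj_E (r : P') (s : Q') (t : P') (u : Q') (y : (rfL A e f r s).M) :
    rfj A e f r s ((rfL A e f r s).E t u y) =
      (A.prod (uobj A (e (some r)) (f (some s)))).E (e (some t)) (f (some u))
        (rfj A e f r s y) := rfl

/-- the isomorphism of modules -/
private def rfΦ (r : P') (s : Q') : Hom (rfL A e f r s) ((rfN A e f).prod (uobj (rfN A e f) r s)) :=
  ⟨rfΦ0 A e f r s, by
    refine ⟨fun t y => ?_, fun t u y h => ?_, fun t u y => ?_⟩
    · refine rf_eq A e f r s (m := A.x (e (some t)) (rfj A e f r s y).1)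
        (w := ux A (e (some r)) (e (some t))
          (uc A (e (some r)) (f (some s)) (rfj A e f r s y).2)) ?_ ?_ ?_ ?_
      · exact congrArg Prod.fst (rfj_x A e f r s t y)
      · exact rfι_x A e f t _
      · exact rf2_R A e f r s ((rfL A e f r s).x t y)
      · exact rf_x A e f r t (rf2_R A e f r s y)
    · have h0 := rfj_S A e f r s t u h y
      refine rf_eq A e f r s (m := A.S (e (some t)) (e (some u)) (rfj A e f r s y).1)
        (w := uS A (e (some r)) (e (some t)) (e (some u))
          (uc A (e (some r)) (f (some s)) (rfj A e f r s y).2)) ?_ ?_ ?_ ?_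
      · exact congrArg Prod.fst h0
      · exact rfι_S A e f t u h _
      · have h1 := rf2_R A e f r s ((rfL A e f r s).S t u y)
        rw [h0] at h1
        exact h1
      · exact rf_S A e f r t u h (rf2_R A e f r s y)
    · refine rf_eq A e f r s (m := A.E (e (some t)) (f (some u)) (rfj A e f r s y).1)
        (w := uE A (e (some r)) (f (some s)) (e (some t)) (f (some u))
          (uc A (e (some r)) (f (some s)) (rfj A e f r s y).2)) ?_ ?_ ?_ ?_
      · exact congrArg Prod.fst (rfj_E A e f r s t u y)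
      · exact rfι_E A e f t u _
      · exact rf2_R A e f r s ((rfL A e f r s).E t u y)
      · exact rf_E A e f r s t u (rf2_R A e f r s y)⟩

private theorem rfΦ_injective (r : P') (s : Q') : Function.Injective (rfΦ0 A e f r s) := by
  intro y y' h
  have h1 : (rfj A e f r s y).1 = (rfj A e f r s y').1 :=
    congrArg (fun z => rfι A e f (z : (rfN A e f).M × (uobj (rfN A e f) r s).M).1) h
  have h2 := rf2_R A e f r s y
  have h3 := rf2_R A e f r s y'
  have h4 : rf2 A e f r s y = rf2 A e f r s y' := congrArg Prod.snd h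
  rw [h4] at h2
  refine capι_injective _ (Prod.ext h1 (uobj_ext ?_ ?_))
  · exact h2.1.symm.trans h3.1
  · refine relF_cases e ?_ fun τ => ?_
    · exact (rfj_p A e f r s y).trans (rfj_p A e f r s y').symm
    · exact (h2.2 τ).symm.trans (h3.2 τ)

private theorem rfΦ_surjective (r : P') (s : Q') : Function.Surjective (rfΦ0 A e f r s) := by
  rintro ⟨n, z⟩
  obtain ⟨w', hw'⟩ : ∃ w', w' = uc (rfN A e f) r s z := ⟨_, rfl⟩
  obtain ⟨μ, hμ⟩ : ∃ μ : Option P' → A.M, μ = fun o => Option.elim o 0
    fun τ => rfι A e f (w'.2 τ) := ⟨_, rfl⟩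
  have hμ0 : μ none = 0 := by rw [hμ]; rfl
  have hμ1 : ∀ τ, μ (some τ) = rfι A e f (w'.2 τ) := fun τ => by rw [hμ]; rfl
  have hw : ((rfι A e f w'.1, fun τ => μ (e.symm τ)) : UW A) ∈
      Usub A (e (some r)) (f (some s)) := by
    refine ⟨?_, relF_cases e ?_ fun τ => ?_⟩
    · change A.E (e (some r)) (f (some s)) (rfι A e f w'.1) = rfι A e f w'.1
      rw [← rfι_E, hw', uc_v]
    · change A.E (e (some r)) (f (some s)) (μ (e.symm (e none))) = μ (e.symm (e none))
      rw [e.symm_apply_apply, hμ0, map_zero]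
    · change A.E (e (some r)) (f (some s)) (μ (e.symm (e (some τ)))) = μ (e.symm (e (some τ)))
      rw [e.symm_apply_apply, hμ1, ← rfι_E, hw', uc_m]
  obtain ⟨W, hW⟩ : ∃ W : (uobj A (e (some r)) (f (some s))).M,
      uc A (e (some r)) (f (some s)) W = ((rfι A e f w'.1, fun τ => μ (e.symm τ)) : UW A) :=
    ⟨ucMk A _ _ _ hw, uc_mk A _ _ _ hw⟩
  have hy : (A.prod (uobj A (e (some r)) (f (some s)))).E (e none) (f none)
      ((rfι A e f n, W) : A.M × (uobj A (e (some r)) (f (some s))).M) =
      ((rfι A e f n, W) : A.M × (uobj A (e (some r)) (f (some s))).M) := by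
    refine Prod.ext (rfι_E_none A e f n) (uobj_ext ?_ ?_)
    · change (uE A (e (some r)) (f (some s)) (e none) (f none)
        (uc A (e (some r)) (f (some s)) W)).1 = (uc A (e (some r)) (f (some s)) W).1
      rw [uE_tu_v _ _ (rf_n1 e r) (rf_n1 f s), hW]
      exact rfι_E_none A e f w'.1
    · intro τ
      change (uE A (e (some r)) (f (some s)) (e none) (f none)
        (uc A (e (some r)) (f (some s)) W)).2 τ = (uc A (e (some r)) (f (some s)) W).2 τ
      revert τ
      refine relF_cases e ?_ fun τ => ?_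
      · rw [uE_tu_t _ _ (rf_n1 e r) (rf_n1 f s), hW]
        change 0 = μ (e.symm (e none))
        rw [e.symm_apply_apply, hμ0]
      · rw [uE_tu_ne _ _ (rf_n1 e r) (rf_n1 f s) (Ne.symm (rf_n1 e τ)), hW]
        change A.E (e none) (f none) (μ (e.symm (e (some τ)))) = μ (e.symm (e (some τ)))
        rw [e.symm_apply_apply, hμ1, rfι_E_none]
  refine ⟨capMk ((relabel e f).obj (A.prod (uobj A (e (some r)) (f (some s)))))
    ((rfι A e f n, W) : A.M × (uobj A (e (some r)) (f (some s))).M) hy, ?_⟩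
  refine rf_eq A e f r s (m := rfι A e f n) (w := uc A (e (some r)) (f (some s)) W) rfl rfl ?_ ?_
  · exact rf2_R A e f r s _
  · rw [hW, ← hw']
    refine ⟨rfl, fun τ => ?_⟩
    change rfι A e f (w'.2 τ) = μ (e.symm (e (some τ)))
    rw [e.symm_apply_apply, hμ1]

end rel

theorem relF (D : Cx k P Q) (e : Option P' ≃ P) (f : Option Q' ≃ Q) (r' : P') (s' : Q') :
    Ret ((capF e f).cx (cross (e (some r')) (f (some s')) D))
      (cross r' s' ((capF e f).cx D)) := by
  refine (Ret.of_iso (relF_iso (rfΦ D.A e f r' s')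
    ⟨rfΦ_injective D.A e f r' s', rfΦ_surjective D.A e f r' s'⟩ (hom_ext fun y => ?_))).1
  have key : rfR D.A e f (uη D.A (e (some r')) (f (some s')) (rfj D.A e f r' s' y).1)
      (uη (rfN D.A e f) r' s' (rf1 D.A e f r' s' y)) :=
    rf_η D.A e f r' s' (rf1 D.A e f r' s' y)
  have key2 := rf2_R D.A e f r' s' y
  obtain ⟨d', hd'⟩ : ∃ d' : Hom (rfN D.A e f) (rfN D.A e f), d' = (capF e f).map D.d := ⟨_, rfl⟩
  refine rf_eq D.A e f r' s' (m := D.d.1 (rfj D.A e f r' s' y).1)
    (w := uη D.A (e (some r')) (f (some s')) (rfj D.A e f r' s' y).1 -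
      umapW D.d (uc D.A (e (some r')) (f (some s')) (rfj D.A e f r' s' y).2)) ?_ ?_ ?_ ?_
  · rfl
  · rfl
  · exact rf2_R D.A e f r' s' (((capF e f).cx (cross (e (some r')) (f (some s')) D)).d.1 y)
  · refine ⟨?_, fun τ => ?_⟩
    · have h : rfι D.A e f ((uη (rfN D.A e f) r' s' (rf1 D.A e f r' s' y)).1 -
          d'.1 (uc (rfN D.A e f) r' s' (rf2 D.A e f r' s' y)).1) =
          (uη D.A (e (some r')) (f (some s')) (rfj D.A e f r' s' y).1).1 -
            D.d.1 (uc D.A (e (some r')) (f (some s')) (rfj D.A e f r' s' y).2).1 := by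
        rw [map_sub, key.1, ← key2.1, hd']
        rfl
      rw [hd'] at h
      exact h
    · have h : rfι D.A e f ((uη (rfN D.A e f) r' s' (rf1 D.A e f r' s' y)).2 τ -
          d'.1 ((uc (rfN D.A e f) r' s' (rf2 D.A e f r' s' y)).2 τ)) =
          (uη D.A (e (some r')) (f (some s')) (rfj D.A e f r' s' y).1).2 (e (some τ)) -
            D.d.1 ((uc D.A (e (some r')) (f (some s')) (rfj D.A e f r' s' y).2).2
              (e (some τ))) := by
        rw [map_sub, key.2 τ, ← key2.2 τ, hd']
        rfl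
      rw [hd'] at h
      exact h

end Pool.Agent.Lib.MP_f2e65a_lc
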