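import Pool.Agent.Lib.MP_f2e65a_lc.Uin
import Pool.Agent.Lib.MP_f2e65a_lc.CapRet

/-! # RelR: the first Reidemeister move

`p = e none`, `q = f none`.  `ret_cap` with `e' = e`, `f' = f`, `ε = -1`.  An element of `cross p q D` is a pair `(m, w)`, `uc w = (v, μ)`; the differential is
`(d m, η m - G(d) w)` (`cone_d_apply`, `uc_eta`, `uc_map`).  If `E p q (m, w) = (m, w)` then `E p q m = m`, `μ τ = 0` for `τ ≠ p` (`uc_E`, `uE_pq_ne`) and
`η m = (m, p ↦ x p m, τ ↦ S p τ (E τ q m) = 0)` (`E_col`).  In the coordinates `(m, v, μ p)`: `D (m, v, μ) = (d m, m - d v, x p m - d μ)`.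
* `F (m, w) = μ p - x p v`; `G u = (0, uin p p u)` (`uin D.A p q p u = (0, single p (E p q u))`), `H (m, w) = (- v, 0)`.
* `F D (m, v, μ) = x p m - d μ - x p (m - d v) = - d (μ - x p v)`; `D (G u) = (0, 0, - d u) = - G (d u)`;
 `G F (m, v, μ) = (0, 0, μ - x p v)`, `D H (m, v, μ) = - (d v, v, x p v)`, `H D (m, v, μ) = - (m - d v, 0, 0)`; so `1 + D H + H D = (0, 0, μ - x p v)`.
* `CapHom`: for `t, s ≠ p`, `u ≠ q` the operators of `U p q` act on the coordinates `v`, `μ p` by `x t`, `S t s` (`Equiv.swap t s p = p`), `E t u`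
 (`ux_ne_v`, `ux_ne`, `uS_ne_v`, `uS_ne`, `uE_tu_v`, `uE_tu_ne`), and `x p` commutes with them; for `G`, `H` compare the coordinates (`uobj_ext`, `uc_uin_v`, `uc_uin_m`).
Here `e (some t) ≠ p`, `f (some s) ≠ q` (injectivity). -/

set_option autoImplicit false
set_option linter.unusedVariables false
set_option linter.unusedSectionVars false

namespace Pool.Agent.Lib.MP_f2e65a_lc

variable {k : Type} [Field k] {P Q P' Q' : Type} [Fintype P] [DecidableEq P] [Fintype Q]
  [DecidableEq Q] [Fintype P'] [DecidableEq P'] [Fintype Q'] [DecidableEq Q']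

/-- `(m, w) ↦ μ p - x p v` -/
private def RelR_F (A : BN k P Q) (p : P) (q : Q) : (A.prod (uobj A p q)).M →ₗ[k] A.M :=
  (um A p ∘ₗ uc A p q ∘ₗ LinearMap.snd k A.M (uobj A p q).M -
    A.x p ∘ₗ uv A ∘ₗ uc A p q ∘ₗ LinearMap.snd k A.M (uobj A p q).M :
      (A.M × (uobj A p q).M) →ₗ[k] A.M)

private def RelR_G (A : BN k P Q) (p : P) (q : Q) : A.M →ₗ[k] (A.prod (uobj A p q)).M :=
  (LinearMap.inr k A.M (uobj A p q).M ∘ₗ uin A p q p : A.M →ₗ[k] (A.M × (uobj A p q).M))

private def RelR_H (A : BN k P Q) (p : P) (q : Q) :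
    (A.prod (uobj A p q)).M →ₗ[k] (A.prod (uobj A p q)).M :=
  (-(LinearMap.inl k A.M (uobj A p q).M ∘ₗ uv A ∘ₗ uc A p q ∘ₗ
    LinearMap.snd k A.M (uobj A p q).M) :
      (A.M × (uobj A p q).M) →ₗ[k] (A.M × (uobj A p q).M))

private theorem RelR_F_apply (A : BN k P Q) (p : P) (q : Q) (m : A.M) (w : (uobj A p q).M) :
    RelR_F A p q ((m, w) : A.M × (uobj A p q).M) =
      (uc A p q w).2 p - A.x p (uc A p q w).1 := rfl

private theorem RelR_G_apply (A : BN k P Q) (p : P) (q : Q) (u : A.M) :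
    RelR_G A p q u = ((0, uin A p q p u) : A.M × (uobj A p q).M) := rfl

private theorem RelR_H_apply (A : BN k P Q) (p : P) (q : Q) (m : A.M) (w : (uobj A p q).M) :
    RelR_H A p q ((m, w) : A.M × (uobj A p q).M) =
      ((-(uc A p q w).1, 0) : A.M × (uobj A p q).M) := by
  change -((uc A p q w).1, (0 : (uobj A p q).M)) = _
  exact Prod.ext rfl neg_zero

private theorem RelR_eta (A : BN k P Q) (p : P) (q : Q) (m : A.M) :
    uc A p q ((ueta A p q).1 m) = uη A p q m := rfl

private theorem RelR_map {A B : BN k P Q} (g : Hom A B) (p : P) (q : Q) (w : (uobj A p q).M) :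
    uc B p q ((umap g p q).1 w) = umapW g (uc A p q w) := rfl

private theorem RelR_uin_x (A : BN k P Q) (p : P) (q : Q) (t : P) (ht : t ≠ p) (u : A.M) :
    uin A p q p (A.x t u) = (uobj A p q).x t (uin A p q p u) := by
  refine uobj_ext ?_ fun σ => ?_
  · rw [uc_x, ux_ne_v A _ ht, uc_uin_v, uc_uin_v, map_zero]
  · rw [uc_x, ux_ne A _ ht, uc_uin_m, uc_uin_m]
    split_ifs with h
    · exact (A.x_E _ _ _ _).symm
    · exact (map_zero _).symm

private theorem RelR_swap {t s p : P} (ht : t ≠ p) (hs : s ≠ p) (σ : P) :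
    Equiv.swap t s σ = p ↔ σ = p := by
  have h0 : Equiv.swap t s p = p := Equiv.swap_apply_of_ne_of_ne (Ne.symm ht) (Ne.symm hs)
  constructor
  · intro h
    exact (Equiv.swap t s).injective (h.trans h0.symm)
  · rintro rfl
    exact h0

private theorem RelR_uin_S (A : BN k P Q) (p : P) (q : Q) (t s : P) (hts : t ≠ s) (ht : t ≠ p)
    (hs : s ≠ p) (u : A.M) :
    uin A p q p (A.S t s u) = (uobj A p q).S t s (uin A p q p u) := by
  refine uobj_ext ?_ fun σ => ?_
  · rw [uc_S, uS_ne_v A _ hts ht hs, uc_uin_v, uc_uin_v, map_zero]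
  · rw [uc_S, uS_ne A _ hts ht hs, uc_uin_m, uc_uin_m]
    by_cases h : σ = p
    · rw [if_pos h, if_pos ((RelR_swap ht hs σ).2 h)]
      exact (A.S_E' t s p q _ hts (Ne.symm ht) (Ne.symm hs)).symm
    · rw [if_neg h, if_neg fun h' => h ((RelR_swap ht hs σ).1 h'), map_zero]

private theorem RelR_uin_E (A : BN k P Q) (p : P) (q : Q) (t : P) (s : Q) (ht : t ≠ p)
    (hs : s ≠ q) (u : A.M) :
    uin A p q p (A.E t s u) = (uobj A p q).E t s (uin A p q p u) := by
  refine uobj_ext ?_ fun σ => ?_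
  · rw [uc_E, uE_tu_v A _ ht hs, uc_uin_v, uc_uin_v, map_zero]
  · rw [uc_E, uc_uin_m]
    by_cases hσ : σ = t
    · subst hσ
      rw [uE_tu_t A _ ht hs, if_neg ht]
    · rw [uE_tu_ne A _ ht hs hσ, uc_uin_m]
      split_ifs with h
      · exact A.E_E _ _ _ _ _
      · exact (map_zero _).symm

private theorem RelR_uin_E0 (A : BN k P Q) (p : P) (q : Q) (u : A.M) :
    (uobj A p q).E p q (uin A p q p u) = uin A p q p u := by
  refine uobj_ext ?_ fun σ => ?_
  · rw [uc_E, uE_pq_v]
  · rw [uc_E]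
    by_cases h : σ = p
    · subst h
      rw [uE_pq_p]
    · rw [uE_pq_ne A _ h, uc_uin_m, if_neg h]

private theorem RelR_uin_map {A B : BN k P Q} (g : Hom A B) (p : P) (q : Q) (u : A.M) :
    (umap g p q).1 (uin A p q p u) = uin B p q p (g.1 u) := by
  refine uobj_ext ?_ fun σ => ?_
  · rw [RelR_map, umapW_v, uc_uin_v, uc_uin_v, map_zero]
  · rw [RelR_map, umapW_m, uc_uin_m, uc_uin_m]
    split_ifs with h
    · exact g.2.2.2 _ _ _
    · exact map_zero _

section

variable (A : BN k P Q) (e : Option P' ≃ P) (f : Option Q' ≃ Q)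
  (he : ∀ t : P', e (some t) ≠ e none) (hf : ∀ t : Q', f (some t) ≠ f none)
  (hes : ∀ t s : P', t ≠ s → e (some t) ≠ e (some s))

include he hf hes

private theorem RelR_capF : CapHom e e f f (A.prod (uobj A (e none) (f none))) A
    (RelR_F A (e none) (f none)) := by
  refine ⟨?_, ?_, ?_, ?_⟩
  · rintro ⟨m, w⟩ -
    rw [RelR_F_apply, map_sub, uc_m, ← A.x_E, uc_v]
  · rintro t ⟨m, w⟩ -
    change RelR_F A (e none) (f none) ((A.x (e (some t)) m,
      (uobj A (e none) (f none)).x (e (some t)) w) : A.M × (uobj A (e none) (f none)).M) = _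
    rw [RelR_F_apply, RelR_F_apply, map_sub, uc_x, ux_ne A _ (he t), ux_ne_v A _ (he t),
      A.x_x (e none)]
  · rintro t s ⟨m, w⟩ hts -
    change RelR_F A (e none) (f none) ((A.S (e (some t)) (e (some s)) m,
      (uobj A (e none) (f none)).S (e (some t)) (e (some s)) w) :
        A.M × (uobj A (e none) (f none)).M) = _
    rw [RelR_F_apply, RelR_F_apply, map_sub, uc_S, uS_ne A _ (hes t s hts) (he t) (he s),
      uS_ne_v A _ (hes t s hts) (he t) (he s),
      Equiv.swap_apply_of_ne_of_ne (Ne.symm (he t)) (Ne.symm (he s)),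
      A.x_S _ _ _ _ (hes t s hts)]
  · rintro t s ⟨m, w⟩ -
    change RelR_F A (e none) (f none) ((A.E (e (some t)) (f (some s)) m,
      (uobj A (e none) (f none)).E (e (some t)) (f (some s)) w) :
        A.M × (uobj A (e none) (f none)).M) = _
    rw [RelR_F_apply, RelR_F_apply, map_sub, uc_E, uE_tu_ne A _ (he t) (hf s)
      (Ne.symm (he t)), uE_tu_v A _ (he t) (hf s), A.x_E]

private theorem RelR_capG : CapHom e e f f A (A.prod (uobj A (e none) (f none)))
    (RelR_G A (e none) (f none)) := by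
  refine ⟨?_, ?_, ?_, ?_⟩
  · intro u _
    exact Prod.ext (map_zero (A.E (e none) (f none))) (RelR_uin_E0 A _ _ u)
  · intro t u _
    exact Prod.ext (map_zero (A.x (e (some t)))).symm (RelR_uin_x A _ _ _ (he t) u)
  · intro t s u hts _
    exact Prod.ext (map_zero (A.S (e (some t)) (e (some s)))).symm (RelR_uin_S A _ _ _ _ (hes t s hts) (he t) (he s) u)
  · intro t s u _
    exact Prod.ext (map_zero (A.E (e (some t)) (f (some s)))).symm (RelR_uin_E A _ _ _ _ (he t) (hf s) u)

private theorem RelR_capH : CapHom e e f f (A.prod (uobj A (e none) (f none)))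
    (A.prod (uobj A (e none) (f none))) (RelR_H A (e none) (f none)) := by
  refine ⟨?_, ?_, ?_, ?_⟩
  · rintro ⟨m, w⟩ -
    rw [RelR_H_apply]
    refine Prod.ext ?_ (map_zero ((uobj A (e none) (f none)).E (e none) (f none)))
    change A.E (e none) (f none) (-(uc A (e none) (f none) w).1) = _
    rw [map_neg, uc_v]
  · rintro t ⟨m, w⟩ -
    change RelR_H A (e none) (f none) ((A.x (e (some t)) m,
      (uobj A (e none) (f none)).x (e (some t)) w) : A.M × (uobj A (e none) (f none)).M) = _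
    rw [RelR_H_apply, RelR_H_apply]
    refine Prod.ext ?_ (map_zero ((uobj A (e none) (f none)).x (e (some t)))).symm
    change -(uc A (e none) (f none) ((uobj A (e none) (f none)).x (e (some t)) w)).1 =
      A.x (e (some t)) (-(uc A (e none) (f none) w).1)
    rw [map_neg, uc_x, ux_ne_v A _ (he t)]
  · rintro t s ⟨m, w⟩ hts -
    change RelR_H A (e none) (f none) ((A.S (e (some t)) (e (some s)) m,
      (uobj A (e none) (f none)).S (e (some t)) (e (some s)) w) :
        A.M × (uobj A (e none) (f none)).M) = _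
    rw [RelR_H_apply, RelR_H_apply]
    refine Prod.ext ?_ (map_zero ((uobj A (e none) (f none)).S (e (some t)) (e (some s)))).symm
    change -(uc A (e none) (f none) ((uobj A (e none) (f none)).S (e (some t))
      (e (some s)) w)).1 = A.S (e (some t)) (e (some s)) (-(uc A (e none) (f none) w).1)
    rw [map_neg, uc_S, uS_ne_v A _ (hes t s hts) (he t) (he s)]
  · rintro t s ⟨m, w⟩ -
    change RelR_H A (e none) (f none) ((A.E (e (some t)) (f (some s)) m,
      (uobj A (e none) (f none)).E (e (some t)) (f (some s)) w) :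
        A.M × (uobj A (e none) (f none)).M) = _
    rw [RelR_H_apply, RelR_H_apply]
    refine Prod.ext ?_ (map_zero ((uobj A (e none) (f none)).E (e (some t)) (f (some s)))).symm
    change -(uc A (e none) (f none) ((uobj A (e none) (f none)).E (e (some t))
      (f (some s)) w)).1 = A.E (e (some t)) (f (some s)) (-(uc A (e none) (f none) w).1)
    rw [map_neg, uc_E, uE_tu_v A _ (he t) (hf s)]

end

private theorem RelR_h1 (D : Cx k P Q) (p : P) (q : Q) (m : D.A.M) (w : (uobj D.A p q).M) :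
    RelR_F D.A p q ((D.d.1 m, (ueta D.A p q).1 m - (umap D.d p q).1 w) :
      D.A.M × (uobj D.A p q).M) = (-1 : k) • D.d.1 (RelR_F D.A p q
        ((m, w) : D.A.M × (uobj D.A p q).M)) := by
  have h1 : uc D.A p q ((ueta D.A p q).1 m - (umap D.d p q).1 w) =
      uη D.A p q m - umapW D.d (uc D.A p q w) := rfl
  rw [RelR_F_apply, RelR_F_apply, h1]
  change (uη D.A p q m).2 p - (umapW D.d (uc D.A p q w)).2 p -
    D.A.x p ((uη D.A p q m).1 - (umapW D.d (uc D.A p q w)).1) = _
  rw [uη_p, uη_v, umapW_m, umapW_v, map_sub, neg_one_smul, map_sub, D.d.2.1]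
  abel

private theorem RelR_h2 (D : Cx k P Q) (p : P) (q : Q) (u : D.A.M) :
    RelR_G D.A p q (D.d.1 u) = (-1 : k) • (((D.d.1 0, (ueta D.A p q).1 0 -
      (umap D.d p q).1 (uin D.A p q p u))) : D.A.M × (uobj D.A p q).M) := by
  rw [RelR_G_apply, RelR_uin_map, map_zero, map_zero, zero_sub]
  refine Prod.ext (smul_zero _).symm ?_
  change _ = (-1 : k) • -uin D.A p q p (D.d.1 u)
  rw [neg_one_smul, neg_neg]

private theorem RelR_h3 (D : Cx k P Q) (p : P) (q : Q) (m : D.A.M) (w : (uobj D.A p q).M)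
    (hm : D.A.E p q m = m) (hw : (uobj D.A p q).E p q w = w) :
    RelR_G D.A p q (RelR_F D.A p q ((m, w) : D.A.M × (uobj D.A p q).M)) =
      ((m, w) : D.A.M × (uobj D.A p q).M) + (((D.d.1 (-(uc D.A p q w).1),
        (ueta D.A p q).1 (-(uc D.A p q w).1) - (umap D.d p q).1 0) :
          D.A.M × (uobj D.A p q).M) + ((-(uc D.A p q ((ueta D.A p q).1 m -
            (umap D.d p q).1 w)).1, 0) : D.A.M × (uobj D.A p q).M)) := by
  have h0 : ∀ τ, τ ≠ p → (uc D.A p q w).2 τ = 0 := by
    intro τ hτ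
    rw [← hw, uc_E, uE_pq_ne D.A _ hτ]
  have h1 : uc D.A p q ((ueta D.A p q).1 m - (umap D.d p q).1 w) =
      uη D.A p q m - umapW D.d (uc D.A p q w) := rfl
  rw [h1]
  refine Prod.ext ?_ ?_
  · change 0 = m + (D.d.1 (-(uc D.A p q w).1) + -(D.A.E p q m - D.d.1 (uc D.A p q w).1))
    rw [hm, map_neg]
    abel
  · change uin D.A p q p ((uc D.A p q w).2 p - D.A.x p (uc D.A p q w).1) =
      w + (((ueta D.A p q).1 (-(uc D.A p q w).1) - (umap D.d p q).1 0) + 0)
    rw [map_zero, sub_zero, add_zero]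
    refine uobj_ext ?_ fun τ => ?_
    · rw [map_add, RelR_eta, uc_uin_v]
      change 0 = (uc D.A p q w).1 + (uη D.A p q (-(uc D.A p q w).1)).1
      rw [uη_v, map_neg, uc_v, add_neg_cancel]
    · rw [map_add, RelR_eta, uc_uin_m]
      change _ = (uc D.A p q w).2 τ + (uη D.A p q (-(uc D.A p q w).1)).2 τ
      by_cases hτ : τ = p
      · subst hτ
        rw [if_pos rfl, uη_p, map_neg, map_neg, map_sub, uc_m, ← D.A.x_E, uc_v, sub_eq_add_neg]
      · rw [if_neg hτ, uη_ne D.A _ hτ, h0 τ hτ, ← uc_v, map_neg, D.A.E_col _ _ _ _ hτ, neg_zero,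
          map_zero, add_zero]

theorem relR (D : Cx k P Q) (e : Option P' ≃ P) (f : Option Q' ≃ Q) :
    Ret ((capF e f).cx (cross (e none) (f none) D)) ((capF e f).cx D) := by
  have he : ∀ t : P', e (some t) ≠ e none := fun t h => Option.some_ne_none t (e.injective h)
  have hf : ∀ t : Q', f (some t) ≠ f none := fun t h => Option.some_ne_none t (f.injective h)
  have hes : ∀ t s : P', t ≠ s → e (some t) ≠ e (some s) :=
    fun t s h h' => h (Option.some.inj (e.injective h'))
  refine ret_cap (ε := (-1 : k)) (e' := e) (f' := f) (C := cross (e none) (f none) D) (D := D)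
    (by ring) (F := RelR_F D.A (e none) (f none)) (G := RelR_G D.A (e none) (f none))
    (H := RelR_H D.A (e none) (f none)) (RelR_capF D.A e f he hf hes)
    (RelR_capG D.A e f he hf hes) (RelR_capH D.A e f he hf hes) ?_ ?_ ?_
  · exact fun y _ => RelR_h1 D (e none) (f none) y.1 y.2
  · exact fun u _ => RelR_h2 D (e none) (f none) u
  · intro y hy
    have h := RelR_h3 D (e none) (f none) y.1 y.2 (congrArg Prod.fst hy) (congrArg Prod.snd hy)
    have h1 := RelR_H_apply D.A (e none) (f none) y.1 y.2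
    refine h.trans ?_
    refine congrArg (fun z : D.A.M × (uobj D.A (e none) (f none)).M =>
      ((y.1, y.2) : D.A.M × (uobj D.A (e none) (f none)).M) + z) ?_
    refine congrArg₂ (fun z z' : D.A.M × (uobj D.A (e none) (f none)).M => z + z') ?_ ?_
    · exact (congrArg (cross (e none) (f none) D).d.1 h1).symm
    · exact (RelR_H_apply D.A (e none) (f none) _ _).symm

end Pool.Agent.Lib.MP_f2e65a_lc
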