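import Pool.Agent.Lib.MP_f2e65a_lc.SysDefs
import Pool.Agent.Lib.MP_f2e65a_lc.RetC
import Pool.Agent.Lib.MP_f2e65a_lc.RelR
import Pool.Agent.Lib.MP_f2e65a_lc.RelA
import Pool.Agent.Lib.MP_f2e65a_lc.RelB
import Pool.Agent.Lib.MP_f2e65a_lc.RelF
import Pool.Agent.Lib.MP_f2e65a_lc.FF

/-! # Strands in a row

Level `l`: `2 * l + ε` strands `0, 1, …`; the strand `i` is the element `i / 2` of `Fin (ε + l)` (part of `P`) for `i` even and of `Fin l` (part of `Q`) for `i` odd.  So the
strands `i`, `i + 1` are `(i + 1) / 2` in `P` and `i / 2` in `Q`. -/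

set_option autoImplicit false
set_option linter.unusedVariables false

namespace Pool.Agent.Lib.MP_f2e65a_lc

/-- add the element `a` of `Fin (n + 1)` -/
def eCap (n : ℕ) (B : Type) (a : Fin (n + 1)) : Option (Fin n ⊕ B) ≃ Fin (n + 1) ⊕ B where
  toFun
    | none => Sum.inl a
    | some (Sum.inl x) => Sum.inl (a.succAbove x)
    | some (Sum.inr y) => Sum.inr y
  invFun
    | Sum.inl z => (finSuccEquiv' a z).map Sum.inl
    | Sum.inr y => some (Sum.inr y)
  left_inv := by
    intro z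
    rcases z with _ | x | y
    · change (finSuccEquiv' a a).map Sum.inl = none
      rw [finSuccEquiv'_at]
      rfl
    · change (finSuccEquiv' a (a.succAbove x)).map Sum.inl = some (Sum.inl x)
      rw [finSuccEquiv'_succAbove]
      rfl
    · rfl
  right_inv := by
    intro z
    rcases z with z | y
    · rcases Fin.eq_self_or_eq_succAbove a z with h | ⟨x, h⟩
      · subst h
        change (match (finSuccEquiv' z z).map Sum.inl with
          | none => Sum.inl z
          | some (Sum.inl x) => Sum.inl (z.succAbove x)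
          | some (Sum.inr y) => Sum.inr y : Fin (n + 1) ⊕ B) = Sum.inl z
        rw [finSuccEquiv'_at]
        rfl
      · subst h
        change (match (finSuccEquiv' a (a.succAbove x)).map Sum.inl with
          | none => Sum.inl a
          | some (Sum.inl x) => Sum.inl (a.succAbove x)
          | some (Sum.inr y) => Sum.inr y : Fin (n + 1) ⊕ B) = Sum.inl (a.succAbove x)
        rw [finSuccEquiv'_succAbove]
        rfl
    · rfl

theorem eCap_none (n : ℕ) (B : Type) (a : Fin (n + 1)) : eCap n B a none = Sum.inl a := rfl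
theorem eCap_inl (n : ℕ) (B : Type) (a : Fin (n + 1)) (x : Fin n) :
    eCap n B a (some (Sum.inl x)) = Sum.inl (a.succAbove x) := rfl
theorem eCap_inr (n : ℕ) (B : Type) (a : Fin (n + 1)) (y : B) :
    eCap n B a (some (Sum.inr y)) = Sum.inr y := rfl

/-- the strands `i`, `i + 1` in `P` -/
def pI (ε l i : ℕ) : Fin (ε + l + 1) := ⟨min ((i + 1) / 2) (ε + l), by omega⟩

/-- the strands `i`, `i + 1` in `Q` -/
def qI (l i : ℕ) : Fin (l + 1) := ⟨min (i / 2) l, by omega⟩

theorem pI_val {ε l i : ℕ} (hε : ε ≤ 1) (h : i ≤ 2 * l + ε) : (pI ε l i : ℕ) = (i + 1) / 2 := by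
  change min ((i + 1) / 2) (ε + l) = _
  omega
theorem qI_val {l ε i : ℕ} (hε : ε ≤ 1) (h : i ≤ 2 * l + ε) : (qI l i : ℕ) = i / 2 := by
  change min (i / 2) l = _
  omega

variable (k : Type) [Field k] (ε : ℕ) (B B' : Type) [Fintype B] [DecidableEq B] [Fintype B']
  [DecidableEq B']

/-- complexes with `2 * l + ε` strands at the bottom -/
abbrev LCx (l : ℕ) : Type 1 := Cx k (Fin (ε + l) ⊕ B) (Fin l ⊕ B')

/-- tests with `2 * l + ε` strands at the bottom -/
abbrev LTst (l : ℕ) : Type 1 := Tst k (Fin (ε + l) ⊕ B) (Fin l ⊕ B')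

/-- crossing between the strands `i` and `i + 1` -/
noncomputable def lcr : ∀ l : ℕ, ℕ → LCx k ε B B' l → LCx k ε B B' l
  | 0, _, X => X
  | l + 1, i, X => if i ≤ 2 * l + ε then
      cross (P := Fin (ε + l + 1) ⊕ B) (Q := Fin (l + 1) ⊕ B') (Sum.inl (pI ε l i))
        (Sum.inl (qI l i)) X else X

/-- the cap functor at the strands `i`, `i + 1` -/
def lcapF (l i : ℕ) :
    Fct k (Fin (ε + l + 1) ⊕ B) (Fin (l + 1) ⊕ B') (Fin (ε + l) ⊕ B) (Fin l ⊕ B') :=
  capF (eCap (ε + l) B (pI ε l i)) (eCap l B' (qI l i))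

/-- the cup functor at the strands `i`, `i + 1` -/
def lcupF (l i : ℕ) :
    Fct k (Fin (ε + l) ⊕ B) (Fin l ⊕ B') (Fin (ε + l + 1) ⊕ B) (Fin (l + 1) ⊕ B') :=
  cupF (eCap (ε + l) B (pI ε l i)) (eCap l B' (qI l i))

/-- the cap at the strands `i`, `i + 1` -/
def lcap (l i : ℕ) (X : LCx k ε B B' (l + 1)) : LCx k ε B B' l := (lcapF k ε B B' l i).cx X

theorem lcr_eq {l i : ℕ} (h : i ≤ 2 * l + ε) (X : LCx k ε B B' (l + 1)) :
    lcr k ε B B' (l + 1) i X = cross (P := Fin (ε + l + 1) ⊕ B) (Q := Fin (l + 1) ⊕ B')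
      (Sum.inl (pI ε l i)) (Sum.inl (qI l i)) X := if_pos h

end Pool.Agent.Lib.MP_f2e65a_lc
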