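import Pool.Agent.Lib.MP_f2e65a_lc.RunA

/-! # MainB: cost of a run

Induction on `Run` (for all `c`).  `nil`: `0 ≤ _`.  Step: `w ++ [(p, q)]`; the hypothesis for the prefixes of `w` holds (`List.prefix_append`, transitivity).  `n = card s.I ≤ a` by `run_card` (and `w <+: w ++ [(p, q)]`), `card s'.I ≤ 3 n` (`glue_card`), `c' ≤ unitC P * card s'.I ^ 3` (`elims_cost`); so the step costs at most
`unitC P * ((3 a) ^ 2 + (3 a) ^ 3) ≤ 36 * unitC P * a ^ 3` (`a = 0`: it is `0`; `a ≥ 1`: `9 a ^ 2 ≤ 9 a ^ 3`).  `List.length_append`. -/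

set_option autoImplicit false
set_option linter.unusedVariables false
set_option linter.unusedSectionVars false

namespace Pool.Agent.Lib.MP_f2e65a_lc

theorem run_cost {k : Type} [Field k] {P Q : Type} [Fintype P] [DecidableEq P] [Fintype Q]
    [DecidableEq Q] {s₀ : St k P Q} (h₀ : Reduced s₀) (a : ℕ) {w : List (P × Q)}
    {s : St k P Q} {c : ℕ} (h : Run s₀ w s c)
    (ha : ∀ w', w' <+: w → (topT k P Q).N (crs w' s₀.tot) ≤ a) :
    c ≤ 36 * unitC P * a ^ 3 * w.length := by
  induction h with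
  | nil => exact Nat.zero_le _
  | @step w s c p q s' s'' c' hrun hglue helims hred ih =>
    have h1 := ih fun w' hw' => ha w' (hw'.trans (List.prefix_append w _))
    have h2 : Fintype.card s.I ≤ a :=
      (run_card h₀ hrun).2.trans (ha w (List.prefix_append w _))
    have h3 : Fintype.card s'.I ≤ 3 * a := (glue_card hglue).trans (Nat.mul_le_mul_left 3 h2)
    have h4 : c' ≤ unitC P * (3 * a) ^ 3 := (elims_cost helims).1.trans
      (Nat.mul_le_mul_left _ (Nat.pow_le_pow_left h3 3))
    have h5 : unitC P * Fintype.card s'.I ^ 2 ≤ unitC P * (3 * a) ^ 2 :=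
      Nat.mul_le_mul_left _ (Nat.pow_le_pow_left h3 2)
    have h6 : a ^ 2 ≤ a ^ 3 := by
      rcases Nat.eq_zero_or_pos a with h | h
      · rw [h]
        exact le_refl _
      · exact Nat.pow_le_pow_right h (by norm_num)
    have h7 : unitC P * a ^ 2 ≤ unitC P * a ^ 3 := Nat.mul_le_mul_left _ h6
    rw [List.length_append, List.length_singleton]
    have h8 : unitC P * (3 * a) ^ 3 = 27 * (unitC P * a ^ 3) := by ring
    have h9 : unitC P * (3 * a) ^ 2 = 9 * (unitC P * a ^ 2) := by ring
    have h10 : 36 * unitC P * a ^ 3 * (w.length + 1) =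
        36 * unitC P * a ^ 3 * w.length + 36 * (unitC P * a ^ 3) := by ring
    rw [h10]
    omega

end Pool.Agent.Lib.MP_f2e65a_lc
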