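import Pool.Agent.Lib.MP_f2e65a_lc.MainA
import Pool.Agent.Lib.MP_f2e65a_lc.MainB

/-! # Main: the scanning algorithm on torus links is polynomial

`n = 2 * (l + 1) + ε` strands, `B = Fin (l + 1)`, `B' = Fin (ε + l + 1)` (the top ends), `s₀ = St.one k (Equiv.sumComm _ _)` the identity braid, `X₀ = s₀.tot`, level `L = l + 1` of `bnSys`: `tw L = pre L (2 L + ε - 1) = pre L (2 l + ε + 1)`, `n - 1 = 2 l + ε + 1` crossings per factor.
* `crs_pre`: `crs ((List.range j).map (posn ε l)) X = (bnSys ..).pre (l + 1) j X` for `j ≤ 2 l + ε + 1`: induction (`List.range_succ`, `List.map_append`, `List.foldl_append`, `lcr_eq`: `posn ε l i = (inl (pI ε l i), inl (qI l i))`, `i ≤ 2 l + ε`).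
* `crs_word`: `crs ((word ε l q).map (posn ε l)) X = tws (l + 1) q X`: `word (q + 1) = word q ++ List.range (2 l + ε + 1)` (`List.replicate_succ'`, `List.flatten_append`), `Function.iterate_succ_apply'`.
* initial segments: if `w <+: word ε l m` then `w = word ε l q ++ List.range j` with `q ≤ m`, `j ≤ 2 l + ε + 1`: induction on `m` (`word (m + 1) = word m ++ range`; a initial segment of `u ++ v` is a initial segment of `u` or `u ++` a initial segment of `v` (`List.prefix_append_iff` or `List.prefix_append_right_inj`, by length); the initial segments of `List.range N` are the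
 `List.range j`, `j ≤ N` (`List.take_range`, `List.prefix_iff_eq_take`)).
* `top_bound`: `growth` for `t = topT` and `j = 0, …, 2 l + ε + 1` (finitely many constants): `C₁` with `(topT ..).N (crs (w.map posn) X₀) ≤ C₁ (q + 1) ^ (l + 1) ≤ C₁ (m + 1) ^ (l + 1)` for all initial segments `w` of `word m`.
* cost: for a run of `w`: every initial segment of `w` is a initial segment of `word m`, so by `run_card` all reduced states have `≤ C₁ (m + 1) ^ (l + 1) = a` generators; a step costs at most `unitC (3 a) ^ 2 + unitC (3 a) ^ 3 ≤ 36 unitC a ^ 3` (`glue_card`, `elims_cost`; if `a = 0` it is `0`); there are `w.length ≤ m (2 l + ε + 1)` steps: total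
 `≤ 36 unitC C₁ ^ 3 (2 l + ε + 1) (m + 1) ^ (3 (l + 1) + 1)`.  State it as a lemma: `Run s₀ w s c`, every initial segment `w'` of `w` has `(topT ..).N (crs w' ..) ≤ a` implies `c ≤ 36 * unitC * a ^ 3 * w.length` (induction on `Run`).
* the tests: `run_ret` and `N_le` in both directions.
* `s₀` is reduced: its only entry is `0`, not bijective since `gΦ ≠ 0` (`gΦ_ne`). -/

set_option autoImplicit false
set_option linter.unusedVariables false
set_option linter.unusedSectionVars false

namespace Pool.Agent.Lib.MP_f2e65a_lc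

private theorem Main_reduced (k : Type) [Field k] (ε l : ℕ) : Reduced (idBr k ε l) := by
  intro i j h
  refine gΦ_ne k ((idBr k ε l).lab i) (h.1 ?_)
  change (0 : (Φ k ((idBr k ε l).lab i)).M →ₗ[k] (Φ k ((idBr k ε l).lab j)).M) _ =
    (0 : (Φ k ((idBr k ε l).lab i)).M →ₗ[k] (Φ k ((idBr k ε l).lab j)).M) _
  rw [LinearMap.zero_apply, LinearMap.zero_apply]

private theorem Main_word_length (ε l m : ℕ) : (word ε l m).length = m * (2 * l + ε + 1) := by
  unfold word
  rw [List.length_flatten, List.map_replicate, List.sum_replicate, List.length_range, smul_eq_mul]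

theorem main (k : Type) [Field k] (ε l : ℕ) (hε : ε ≤ 1) : ∃ C : ℕ, ∀ m : ℕ,
    (∃ s c, Run (idBr k ε l) ((word ε l m).map (posn ε l)) s c) ∧
    ∀ w : List ℕ, w <+: word ε l m → ∀ s c, Run (idBr k ε l) (w.map (posn ε l)) s c →
      Fintype.card s.I ≤ C * (m + 1) ^ (l + 1) ∧
      c ≤ C * (m + 1) ^ (3 * (l + 1) + 1) ∧
      ∀ T : Tst k (Fin (ε + l + 1) ⊕ Fin (l + 1)) (Fin (l + 1) ⊕ Fin (ε + l + 1)),
        T.N s.tot = T.N (crs (w.map (posn ε l)) (idBr k ε l).tot) := by
  obtain ⟨C₁, hC₁⟩ := top_bound k ε l hε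
  obtain ⟨u, hu⟩ : ∃ u, u = unitC (Fin (ε + l + 1) ⊕ Fin (l + 1)) := ⟨_, rfl⟩
  refine ⟨C₁ + 36 * u * C₁ ^ 3 * (2 * l + ε + 1), fun m => ⟨run_exists _ _, ?_⟩⟩
  intro w hw s c hrun
  have h₀ := Main_reduced k ε l
  obtain ⟨hs, hcard⟩ := run_card h₀ hrun
  refine ⟨?_, ?_, ?_⟩
  · refine hcard.trans ((hC₁ m w hw).trans ?_)
    exact Nat.mul_le_mul_right _ (Nat.le_add_right _ _)
  · have h1 := run_cost h₀ (C₁ * (m + 1) ^ (l + 1)) hrun (fun w' hw' => by
      have h2 : w' = (w.take w'.length).map (posn ε l) := by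
        rw [List.map_take]
        exact List.prefix_iff_eq_take.1 hw'
      rw [h2]
      exact hC₁ m _ ((List.take_prefix _ _).trans hw))
    rw [List.length_map, ← hu] at h1
    have h3 : w.length ≤ m * (2 * l + ε + 1) := by
      rw [← Main_word_length]
      exact hw.length_le
    refine h1.trans ?_
    have h4 : 36 * u * (C₁ * (m + 1) ^ (l + 1)) ^ 3 * w.length ≤
        36 * u * (C₁ * (m + 1) ^ (l + 1)) ^ 3 * ((m + 1) * (2 * l + ε + 1)) := by
      refine Nat.mul_le_mul_left _ (h3.trans (Nat.mul_le_mul_right _ (Nat.le_succ m)))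
    refine h4.trans ?_
    have h5 : 36 * u * (C₁ * (m + 1) ^ (l + 1)) ^ 3 * ((m + 1) * (2 * l + ε + 1)) =
        36 * u * C₁ ^ 3 * (2 * l + ε + 1) * (m + 1) ^ (3 * (l + 1) + 1) := by
      rw [mul_pow, ← pow_mul, pow_succ (m + 1) (3 * (l + 1)), mul_comm 3 (l + 1)]
      ring
    rw [h5]
    exact Nat.mul_le_mul_right _ (Nat.le_add_left _ _)
  · intro T
    obtain ⟨h1, h2⟩ := run_ret hrun
    exact le_antisymm (N_le T h1) (N_le T h2)

end Pool.Agent.Lib.MP_f2e65a_lc
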