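import Pool.Agent.Lib.MP_f2e65a_lc.RunDefs
import Pool.Agent.Lib.MP_f2e65a_lc.Inst

/-! # MainA: the words of the torus links (jobs: the three theorems of this file; the rest of the plan is for Main.lean)

`n = 2 * (l + 1) + ε` strands, `B = Fin (l + 1)`, `B' = Fin (ε + l + 1)` (the top ends), `s₀ = St.one k (Equiv.sumComm _ _)` the identity braid, `X₀ = s₀.tot`, level `L = l + 1` of `bnSys`: `tw L = pre L (2 L + ε - 1) = pre L (2 l + ε + 1)`, `n - 1 = 2 l + ε + 1` crossings per factor.
* `crs_pre`: `crs ((List.range j).map (posn ε l)) X = (bnSys ..).pre (l + 1) j X` for `j ≤ 2 l + ε + 1`: induction (`List.range_succ`, `List.map_append`, `List.foldl_append`, `lcr_eq`: `posn ε l i = (inl (pI ε l i), inl (qI l i))`, `i ≤ 2 l + ε`).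
* `crs_word`: `crs ((word ε l q).map (posn ε l)) X = tws (l + 1) q X`: `word (q + 1) = word q ++ List.range (2 l + ε + 1)` (`List.replicate_succ'`, `List.flatten_append`), `Function.iterate_succ_apply'`.
* initial pieces: if `w <+: word ε l m` then `w = word ε l q ++ List.range j` with `q ≤ m`, `j ≤ 2 l + ε + 1`: induction on `m` (`word (m + 1) = word m ++ range`; an initial piece of `u ++ v` is an initial piece of `u` or `u ++` an initial piece of `v` (`List.prefix_append_iff` or `List.prefix_append_right_inj`, by length); the initial pieces of `List.range N` are the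
 `List.range j`, `j ≤ N` (`List.take_range`, `List.prefix_iff_eq_take`)).
* `top_bound`: `growth` for `t = topT` and `j = 0, …, 2 l + ε + 1` (finitely many constants): `C₁` with `(topT ..).N (crs (w.map posn) X₀) ≤ C₁ (q + 1) ^ (l + 1) ≤ C₁ (m + 1) ^ (l + 1)` for all initial pieces `w` of `word m`.
* cost: for a run of `w`: every initial segment of `w` is an initial piece of `word m`, so by `run_card` all reduced states have `≤ C₁ (m + 1) ^ (l + 1) = a` generators; a step costs at most `unitC (3 a) ^ 2 + unitC (3 a) ^ 3 ≤ 36 unitC a ^ 3` (`glue_card`, `elims_cost`; if `a = 0` it is `0`); there are `w.length ≤ m (2 l + ε + 1)` steps: total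
 `≤ 36 unitC C₁ ^ 3 (2 l + ε + 1) (m + 1) ^ (3 (l + 1) + 1)`.  State it as a lemma: `Run s₀ w s c`, every initial segment `w'` of `w` has `(topT ..).N (crs w' ..) ≤ a` implies `c ≤ 36 * unitC * a ^ 3 * w.length` (induction on `Run`).
* the tests: `run_ret` and `N_le` in both directions.
* `s₀` is reduced: its only entry is `0`, not bijective since `gΦ ≠ 0` (`gΦ_ne`). -/

set_option autoImplicit false
set_option linter.unusedVariables false
set_option linter.unusedSectionVars false

namespace Pool.Agent.Lib.MP_f2e65a_lc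

/-- the ends of the crossing between the strands `i` and `i + 1` -/
def posn (ε l i : ℕ) :
    (Fin (ε + l + 1) ⊕ Fin (l + 1)) × (Fin (l + 1) ⊕ Fin (ε + l + 1)) :=
  (Sum.inl (pI ε l i), Sum.inl (qI l i))

/-- the braid word `(σ_0 σ_1 ⋯ σ_{n - 2}) ^ m`, `n = 2 * (l + 1) + ε` -/
def word (ε l m : ℕ) : List ℕ := (List.replicate m (List.range (2 * l + ε + 1))).flatten

/-- the identity braid -/
noncomputable def idBr (k : Type) [Field k] (ε l : ℕ) :
    St k (Fin (ε + l + 1) ⊕ Fin (l + 1)) (Fin (l + 1) ⊕ Fin (ε + l + 1)) :=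
  St.one k (Equiv.sumComm _ _)

private theorem mainA_append {k : Type} [Field k] {P Q : Type} [Fintype P] [DecidableEq P]
    [Fintype Q] [DecidableEq Q] (w w' : List (P × Q)) (D : Cx k P Q) :
    crs (w ++ w') D = crs w' (crs w D) := List.foldl_append

private theorem mainA_pre (k : Type) [Field k] (ε l : ℕ) (hε : ε ≤ 1) (j : ℕ)
    (hj : j ≤ 2 * l + ε + 1)
    (X : Cx k (Fin (ε + l + 1) ⊕ Fin (l + 1)) (Fin (l + 1) ⊕ Fin (ε + l + 1))) :
    crs ((List.range j).map (posn ε l)) X =
      (bnSys k ε (Fin (l + 1)) (Fin (ε + l + 1)) hε).pre (l + 1) j X := by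
  induction j with
  | zero => rfl
  | succ j ih =>
    rw [List.range_succ, List.map_append, mainA_append, ih (by omega)]
    exact (lcr_eq k ε (Fin (l + 1)) (Fin (ε + l + 1)) (l := l) (i := j) (by omega) _).symm

private theorem mainA_tw (k : Type) [Field k] (ε l : ℕ) (hε : ε ≤ 1)
    (X : Cx k (Fin (ε + l + 1) ⊕ Fin (l + 1)) (Fin (l + 1) ⊕ Fin (ε + l + 1))) :
    (bnSys k ε (Fin (l + 1)) (Fin (ε + l + 1)) hε).tw (l + 1) X =
      (bnSys k ε (Fin (l + 1)) (Fin (ε + l + 1)) hε).pre (l + 1) (2 * l + ε + 1) X := by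
  unfold Sys.tw
  have h : 2 * (l + 1) + (bnSys k ε (Fin (l + 1)) (Fin (ε + l + 1)) hε).ε - 1 =
      2 * l + ε + 1 := by
    change 2 * (l + 1) + ε - 1 = 2 * l + ε + 1
    omega
  rw [h]

private theorem mainA_succ (ε l q : ℕ) :
    word ε l (q + 1) = word ε l q ++ List.range (2 * l + ε + 1) := by
  unfold word
  rw [List.replicate_succ', List.flatten_append]
  congr 1
  exact List.append_nil _

private theorem mainA_word (k : Type) [Field k] (ε l : ℕ) (hε : ε ≤ 1) (q : ℕ)
    (X : Cx k (Fin (ε + l + 1) ⊕ Fin (l + 1)) (Fin (l + 1) ⊕ Fin (ε + l + 1))) :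
    crs ((word ε l q).map (posn ε l)) X =
      (bnSys k ε (Fin (l + 1)) (Fin (ε + l + 1)) hε).tws (l + 1) q X := by
  induction q with
  | zero => rfl
  | succ q ih =>
    rw [mainA_succ, List.map_append, mainA_append, ih]
    refine (mainA_pre k ε l hε (2 * l + ε + 1) le_rfl _).trans ?_
    refine (mainA_tw k ε l hε _).symm.trans ?_
    unfold Sys.tws
    rw [Function.iterate_succ_apply']

theorem crs_word (k : Type) [Field k] (ε l : ℕ) (hε : ε ≤ 1) (q j : ℕ)
    (hj : j ≤ 2 * l + ε + 1)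
    (X : Cx k (Fin (ε + l + 1) ⊕ Fin (l + 1)) (Fin (l + 1) ⊕ Fin (ε + l + 1))) :
    crs ((word ε l q ++ List.range j).map (posn ε l)) X =
      (bnSys k ε (Fin (l + 1)) (Fin (ε + l + 1)) hε).pre (l + 1) j
        ((bnSys k ε (Fin (l + 1)) (Fin (ε + l + 1)) hε).tws (l + 1) q X) := by
  rw [List.map_append, mainA_append, mainA_word k ε l hε q X]
  exact mainA_pre k ε l hε j hj _

theorem prefix_word (ε l m : ℕ) (w : List ℕ) (h : w <+: word ε l m) :
    ∃ q ≤ m, ∃ j ≤ 2 * l + ε + 1, w = word ε l q ++ List.range j := by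
  induction m generalizing w with
  | zero =>
    refine ⟨0, le_rfl, 0, Nat.zero_le _, ?_⟩
    exact List.prefix_nil.1 h
  | succ m ih =>
    rw [mainA_succ] at h
    rcases List.prefix_or_prefix_of_prefix h (List.prefix_append (word ε l m) _) with h1 | h1
    · obtain ⟨q, hq, j, hj, h2⟩ := ih w h1
      exact ⟨q, hq.trans (Nat.le_succ m), j, hj, h2⟩
    · obtain ⟨w', rfl⟩ := h1
      rw [List.prefix_append_right_inj, List.prefix_iff_eq_take, List.take_range] at h
      refine ⟨m, Nat.le_succ m, min w'.length (2 * l + ε + 1), min_le_right _ _, ?_⟩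
      exact congrArg (fun v => word ε l m ++ v) h

theorem top_bound (k : Type) [Field k] (ε l : ℕ) (hε : ε ≤ 1) : ∃ C : ℕ, ∀ m w,
    w <+: word ε l m →
    (topT k (Fin (ε + l + 1) ⊕ Fin (l + 1)) (Fin (l + 1) ⊕ Fin (ε + l + 1))).N
      (crs (w.map (posn ε l)) (idBr k ε l).tot) ≤ C * (m + 1) ^ (l + 1) := by
  have hg : ∀ j : ℕ, ∃ C : ℕ, j ≤ 2 * l + ε + 1 → ∀ q : ℕ,
      (topT k (Fin (ε + l + 1) ⊕ Fin (l + 1)) (Fin (l + 1) ⊕ Fin (ε + l + 1))).N
        (crs ((word ε l q ++ List.range j).map (posn ε l)) (idBr k ε l).tot) ≤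
        C * (q + 1) ^ (l + 1) := by
    intro j
    by_cases hj : j ≤ 2 * l + ε + 1
    · obtain ⟨C, hC⟩ := Sys.growth (bnSys k ε (Fin (l + 1)) (Fin (ε + l + 1)) hε) (l + 1)
        (topT k (Fin (ε + l + 1) ⊕ Fin (l + 1)) (Fin (l + 1) ⊕ Fin (ε + l + 1)))
        (idBr k ε l).tot j (by
          change j ≤ 2 * (l + 1) + ε - 1
          omega)
      refine ⟨C, fun _ q => ?_⟩
      rw [crs_word k ε l hε q j hj]
      exact hC q
    · exact ⟨0, fun h => absurd h hj⟩
  choose C hC using hg
  refine ⟨∑ j ∈ Finset.range (2 * l + ε + 2), C j, fun m w hw => ?_⟩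
  obtain ⟨q, hq, j, hj, rfl⟩ := prefix_word ε l m w hw
  refine (hC j hj q).trans (Nat.mul_le_mul ?_ (Nat.pow_le_pow_left (by omega) _))
  exact Finset.single_le_sum (fun i _ => Nat.zero_le (C i)) (Finset.mem_range.2 (by omega))

end Pool.Agent.Lib.MP_f2e65a_lc
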