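import Pool.Agent.Lib.MP_f2e65a_lc.RetA

/-! # Finite direct sums -/

set_option autoImplicit false
set_option linter.unusedVariables false
set_option linter.unusedSectionVars false

namespace Pool.Agent.Lib.MP_f2e65a_lc

variable {k : Type} [Field k] {P Q : Type} [Fintype P] [DecidableEq P] [Fintype Q]
  [DecidableEq Q]

/-- finite direct sums -/
def BN.pi {I : Type} [Fintype I] (A : I → BN k P Q) : BN k P Q where
  M := ∀ i, (A i).M
  x p := LinearMap.pi fun i => (A i).x p ∘ₗ LinearMap.proj i
  S p r := LinearMap.pi fun i => (A i).S p r ∘ₗ LinearMap.proj i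
  E p q := LinearMap.pi fun i => (A i).E p q ∘ₗ LinearMap.proj i
  x_x p r m := funext fun i => (A i).x_x p r (m i)
  x_sq p m := funext fun i => (A i).x_sq p (m i)
  S_symm p r m h := funext fun i => (A i).S_symm p r (m i) h
  x_S t p r m h := funext fun i => (A i).x_S t p r (m i) h
  x_S_eq p r m h := funext fun i => (A i).x_S_eq p r (m i) h
  S_sq p r m h := funext fun i => (A i).S_sq p r (m i) h
  S_S p r t u m h1 h2 h3 h4 h5 h6 := funext fun i => (A i).S_S p r t u (m i) h1 h2 h3 h4 h5 h6
  S_S_S p r t m h1 h2 h3 := funext fun i => (A i).S_S_S p r t (m i) h1 h2 h3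
  E_E p q r s m := funext fun i => (A i).E_E p q r s (m i)
  E_idem p q m := funext fun i => (A i).E_idem p q (m i)
  E_row p q s m h := funext fun i => (A i).E_row p q s (m i) h
  E_col p r q m h := funext fun i => (A i).E_col p r q (m i) h
  sum_row p m := by
    refine funext fun i => ?_
    rw [Finset.sum_apply]
    exact (A i).sum_row p (m i)
  sum_col q m := by
    refine funext fun i => ?_
    rw [Finset.sum_apply]
    exact (A i).sum_col q (m i)
  x_E t p q m := funext fun i => (A i).x_E t p q (m i)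
  S_E p r q m h := funext fun i => (A i).S_E p r q (m i) h
  S_E' p r t q m h1 h2 h3 := funext fun i => (A i).S_E' p r t q (m i) h1 h2 h3

variable {I J K : Type} [Fintype I] [DecidableEq I] [Fintype J] [DecidableEq J] [Fintype K]
  [DecidableEq K]

/-- projections -/
def prj (A : I → BN k P Q) (i : I) : Hom (BN.pi A) (A i) :=
  ⟨LinearMap.proj i, fun _ _ => rfl, fun _ _ _ _ => rfl, fun _ _ _ => rfl⟩

/-- inclusions -/
def inc (A : I → BN k P Q) (i : I) : Hom (A i) (BN.pi A) :=
  ⟨LinearMap.single k (fun i => (A i).M) i, fun p m => by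
      refine funext fun j => ?_
      change Pi.single (M := fun i => (A i).M) i ((A i).x p m) j =
        (A j).x p (Pi.single (M := fun i => (A i).M) i m j)
      by_cases h : j = i
      · subst h
        rw [Pi.single_eq_same, Pi.single_eq_same]
      · rw [Pi.single_eq_of_ne h, Pi.single_eq_of_ne h, map_zero],
    fun p r m _ => by
      refine funext fun j => ?_
      change Pi.single (M := fun i => (A i).M) i ((A i).S p r m) j =
        (A j).S p r (Pi.single (M := fun i => (A i).M) i m j)
      by_cases h : j = i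
      · subst h
        rw [Pi.single_eq_same, Pi.single_eq_same]
      · rw [Pi.single_eq_of_ne h, Pi.single_eq_of_ne h, map_zero],
    fun p q m => by
      refine funext fun j => ?_
      change Pi.single (M := fun i => (A i).M) i ((A i).E p q m) j =
        (A j).E p q (Pi.single (M := fun i => (A i).M) i m j)
      by_cases h : j = i
      · subst h
        rw [Pi.single_eq_same, Pi.single_eq_same]
      · rw [Pi.single_eq_of_ne h, Pi.single_eq_of_ne h, map_zero]⟩

theorem prj_apply (A : I → BN k P Q) (i : I) (m : ∀ i, (A i).M) :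
    (prj A i).1 m = m i := rfl
theorem inc_apply (A : I → BN k P Q) (i : I) (m : (A i).M) :
    (inc A i).1 m = Pi.single (M := fun i => (A i).M) i m := rfl

theorem prj_inc (A : I → BN k P Q) (i : I) : cmp (prj A i) (inc A i) = idH (A i) :=
  hom_ext fun m => Pi.single_eq_same (M := fun i => (A i).M) i m

theorem prj_inc_ne (A : I → BN k P Q) {i j : I} (h : j ≠ i) :
    cmp (prj A j) (inc A i) = 0 :=
  hom_ext fun m => Pi.single_eq_of_ne (M := fun i => (A i).M) h m

theorem sum_apply' {A B : BN k P Q} (s : Finset J) (f : J → Hom A B) (m : A.M) :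
    (∑ j ∈ s, f j).1 m = ∑ j ∈ s, (f j).1 m := by
  rw [Submodule.coe_sum, LinearMap.sum_apply]

theorem cmp_sum {A B C : BN k P Q} (s : Finset J) (g : Hom B C) (f : J → Hom A B) :
    cmp g (∑ j ∈ s, f j) = ∑ j ∈ s, cmp g (f j) :=
  hom_ext fun m => by
    rw [cmp_apply, sum_apply', map_sum, sum_apply']
    rfl

theorem sum_cmp {A B C : BN k P Q} (s : Finset J) (g : J → Hom B C) (f : Hom A B) :
    cmp (∑ j ∈ s, g j) f = ∑ j ∈ s, cmp (g j) f :=
  hom_ext fun m => by
    rw [cmp_apply, sum_apply', sum_apply']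
    rfl

theorem pi_ext (A : I → BN k P Q) {m m' : (BN.pi A).M}
    (h : ∀ i, (prj A i).1 m = (prj A i).1 m') : m = m' := funext h

theorem sum_inc_prj (A : I → BN k P Q) :
    ∑ i, cmp (inc A i) (prj A i) = idH (BN.pi A) :=
  hom_ext fun m => pi_ext A fun j => by
    rw [sum_apply', map_sum, Finset.sum_eq_single j]
    · change (cmp (prj A j) (inc A j)).1 _ = _
      rw [prj_inc]
      rfl
    · intro i _ h
      change (cmp (prj A j) (inc A i)).1 _ = 0
      rw [prj_inc_ne _ h.symm]
      rfl
    · intro h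
      exact absurd (Finset.mem_univ j) h

/-- the morphism given by a matrix -/
def mat (A : I → BN k P Q) (B : J → BN k P Q) (d : ∀ i j, Hom (A i) (B j)) :
    Hom (BN.pi A) (BN.pi B) :=
  ∑ i, ∑ j, cmp (inc B j) (cmp (d i j) (prj A i))

/-- entries of a morphism -/
def entry {A : I → BN k P Q} {B : J → BN k P Q} (F : Hom (BN.pi A) (BN.pi B)) (i : I) (j : J) :
    Hom (A i) (B j) := cmp (prj B j) (cmp F (inc A i))

theorem entry_mat (A : I → BN k P Q) (B : J → BN k P Q) (d : ∀ i j, Hom (A i) (B j)) (i : I)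
    (j : J) : entry (mat A B d) i j = d i j := by
  unfold entry mat
  rw [sum_cmp, cmp_sum, Finset.sum_eq_single i]
  · rw [sum_cmp, cmp_sum, Finset.sum_eq_single j]
    · refine hom_ext fun m => ?_
      change (cmp (prj B j) (inc B j)).1 ((d i j).1 ((cmp (prj A i) (inc A i)).1 m)) = _
      rw [prj_inc, prj_inc]
      rfl
    · intro j' _ h
      refine hom_ext fun m => ?_
      change (cmp (prj B j) (inc B j')).1 _ = 0
      rw [prj_inc_ne _ h.symm]
      rfl
    · intro h
      exact absurd (Finset.mem_univ j) h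
  · intro i' _ h
    rw [sum_cmp, cmp_sum]
    refine Finset.sum_eq_zero fun j' _ => ?_
    refine hom_ext fun m => ?_
    change (prj B j).1 ((inc B j').1 ((d i' j').1 ((cmp (prj A i') (inc A i)).1 m))) = 0
    rw [prj_inc_ne _ h, zero_apply, map_zero, map_zero, map_zero]
  · intro h
    exact absurd (Finset.mem_univ i) h

theorem mat_entry {A : I → BN k P Q} {B : J → BN k P Q} (F : Hom (BN.pi A) (BN.pi B)) :
    mat A B (entry F) = F := by
  have h1 : F = cmp (∑ j, cmp (inc B j) (prj B j)) (cmp F (∑ i, cmp (inc A i) (prj A i))) := by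
    rw [sum_inc_prj, sum_inc_prj]
    rfl
  conv_rhs => rw [h1]
  rw [cmp_sum, cmp_sum]
  unfold mat
  refine Finset.sum_congr rfl fun i _ => ?_
  rw [sum_cmp]
  rfl

theorem entry_ext {A : I → BN k P Q} {B : J → BN k P Q} {F G : Hom (BN.pi A) (BN.pi B)}
    (h : ∀ i j, entry F i j = entry G i j) : F = G := by
  rw [← mat_entry F, ← mat_entry G]
  have h2 : entry F = entry G := funext fun i => funext fun j => h i j
  rw [h2]

theorem entry_cmp {A : I → BN k P Q} {B : J → BN k P Q} {C : K → BN k P Q}
    (G : Hom (BN.pi B) (BN.pi C)) (F : Hom (BN.pi A) (BN.pi B)) (i : I) (l : K) :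
    entry (cmp G F) i l = ∑ j, cmp (entry G j l) (entry F i j) := by
  have h1 : cmp G F = cmp G (cmp (∑ j, cmp (inc B j) (prj B j)) F) := by
    rw [sum_inc_prj]
    rfl
  unfold entry
  rw [h1, sum_cmp, cmp_sum, sum_cmp, cmp_sum]
  rfl

end Pool.Agent.Lib.MP_f2e65a_lc
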