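import Pool.Agent.Lib.MP_f2e65a_lc.RunDefs

/-! # RunA: runs exist and are correct

* `elims_ret`: induction on `Elims`, `elim_ret`, `Ret.trans`.
* `elims_exists`: strong induction on `card s.I`: if `s` is not reduced some entry is bijective; `homInv` gives `ψ`, eliminate (`elim_card`).
* `elims_cost`: induction: each elimination lowers `card` by `2` and costs `unitC P * card ^ 2 ≤ unitC P * n ^ 2`, `n = card s.I`; so `c ≤ unitC P * n ^ 2 * (number of eliminations)` and the number is `≤ n`: state `c + unitC P * n ^ 2 * card s'.I ≤ unitC P * n ^ 2 * card s.I` for `card s.I ≤ n`, or use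
 `c ≤ unitC P * card s.I ^ 3` with `(n - 2) ^ 3 + n ^ 2 ≤ n ^ 3` for `n ≥ 2`.
* `run_ret`: induction on `Run`: `crs (w ++ [(p, q)]) D = cross p q (crs w D)` (`List.foldl_append`), `Ret.cross`, `Ret.of_iso`, `elims_ret`.
* `run_exists`: induction on the list from the right (`List.reverseRecOn` / `List.reverseRec`), `exists_glue`, `elims_exists`.
* `run_card`: a reduced state has `card s.I ≤ (topT k P Q).N s.tot` by `card_le_top` and `hom_bij_or` (`entry (mat d) = d`), and `N_le` for `run_ret`.
 For `w = []` the state is `s₀`, which is assumed reduced. -/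

set_option autoImplicit false
set_option linter.unusedVariables false
set_option linter.unusedSectionVars false

namespace Pool.Agent.Lib.MP_f2e65a_lc

variable {k : Type} [Field k] {P Q : Type} [Fintype P] [DecidableEq P] [Fintype Q]
  [DecidableEq Q]

theorem elims_ret {s s' : St k P Q} {c : ℕ} (h : Elims s s' c) :
    Ret s'.tot s.tot ∧ Ret s.tot s'.tot := by
  induction h with
  | nil s => exact ⟨Ret.refl _, Ret.refl _⟩
  | cons s s' c i₀ j₀ ψ h _ ih =>
    obtain ⟨h1, h2⟩ := elim_ret s i₀ j₀ ψ h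
    exact ⟨ih.1.trans h1, h2.trans ih.2⟩

theorem elims_exists (s : St k P Q) : ∃ s' c, Elims s s' c ∧ Reduced s' := by
  have key : ∀ n : ℕ, ∀ s : St k P Q, Fintype.card s.I ≤ n →
      ∃ s' c, Elims s s' c ∧ Reduced s' := by
    intro n
    induction n with
    | zero =>
      intro s hs
      refine ⟨s, 0, Elims.nil s, fun i => ?_⟩
      have h1 := Fintype.card_pos_iff.2 ⟨i⟩
      omega
    | succ n ih =>
      intro s hs
      by_cases hr : Reduced s
      · exact ⟨s, 0, Elims.nil s, hr⟩
      · unfold Reduced at hr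
        push Not at hr
        obtain ⟨i₀, j₀, hb⟩ := hr
        obtain ⟨ψ, h1, h2⟩ := homInv (s.d i₀ j₀) hb
        have h : Inv s i₀ j₀ ψ := ⟨h1, h2⟩
        have hc := elim_card s i₀ j₀ ψ h
        obtain ⟨s', c, h3, h4⟩ := ih (s.elim i₀ j₀ ψ h) (by omega)
        exact ⟨s', _, Elims.cons s s' c i₀ j₀ ψ h h3, h4⟩
  exact key _ s le_rfl

theorem elims_cost {s s' : St k P Q} {c : ℕ} (h : Elims s s' c) :
    c ≤ unitC P * Fintype.card s.I ^ 3 ∧ Fintype.card s'.I ≤ Fintype.card s.I := by
  induction h with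
  | nil s => exact ⟨Nat.zero_le _, le_rfl⟩
  | cons s s' c i₀ j₀ ψ h _ ih =>
    have hc := elim_card s i₀ j₀ ψ h
    refine ⟨?_, by omega⟩
    rw [← hc]
    refine (Nat.add_le_add_right ih.1 _).trans ?_
    rw [← mul_add]
    refine Nat.mul_le_mul_left _ ?_
    nlinarith [sq_nonneg (Fintype.card (s.elim i₀ j₀ ψ h).I)]

theorem run_ret {s₀ : St k P Q} {w : List (P × Q)} {s : St k P Q} {c : ℕ}
    (h : Run s₀ w s c) : Ret s.tot (crs w s₀.tot) ∧ Ret (crs w s₀.tot) s.tot := by
  induction h with
  | nil => exact ⟨Ret.refl _, Ret.refl _⟩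
  | @step w s c p q s' s'' c' _ hg he _ ih =>
    have h1 : crs (w ++ [(p, q)]) s₀.tot = cross p q (crs w s₀.tot) := by
      unfold crs
      rw [List.foldl_append]
      rfl
    rw [h1]
    have h2 := Ret.of_iso hg.iso
    have h3 := elims_ret he
    exact ⟨(h3.1.trans h2.1).trans (Ret.cross p q ih.1),
      (Ret.cross p q ih.2).trans (h2.2.trans h3.2)⟩

theorem run_exists (s₀ : St k P Q) (w : List (P × Q)) : ∃ s c, Run s₀ w s c := by
  induction w using List.reverseRecOn with
  | nil => exact ⟨s₀, 0, Run.nil⟩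
  | append_singleton w a ih =>
    obtain ⟨s, c, h⟩ := ih
    obtain ⟨s', hg⟩ := exists_glue a.1 a.2 s
    obtain ⟨s'', c', he, hr⟩ := elims_exists s'
    exact ⟨s'', _, Run.step a.1 a.2 s' s'' c' h hg he hr⟩

theorem run_card {s₀ : St k P Q} (h₀ : Reduced s₀) {w : List (P × Q)} {s : St k P Q} {c : ℕ}
    (h : Run s₀ w s c) :
    Reduced s ∧ Fintype.card s.I ≤ (topT k P Q).N (crs w s₀.tot) := by
  have hr : Reduced s := by
    cases h with
    | nil => exact h₀
    | step p q s' s'' c' h1 h2 h3 h4 => exact h4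
  refine ⟨hr, le_trans ?_ (N_le (topT k P Q) (run_ret h).1)⟩
  refine card_le_top k s.lab s.tot.d s.tot.dd ?_
  intro i j m
  have h1 : entry s.tot.d i j = s.d i j :=
    entry_mat (fun i => Φ k (s.lab i)) (fun i => Φ k (s.lab i)) s.d i j
  rw [h1]
  exact (hom_bij_or k (s.d i j)).resolve_left (hr i j) m

end Pool.Agent.Lib.MP_f2e65a_lc
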