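import Pool.Agent.Lib.MP_f2e65a_lc.StElim
import Pool.Agent.Lib.MP_f2e65a_lc.Glue

/-! # Runs of the scanning algorithm: definitions

`unitC P = 16 K ^ 3`, `K = 2 ^ |P|`: every entry of the differential of a state is a linear combination of at most `K` basis cobordisms (`finrank_hom_le`), so composing two entries costs at most
`K ^ 2` compositions of basis cobordisms and `2 K ^ 3` operations in the field; an entry update `d i j - d i₀ j ψ d i j₀`, the gluing of an entry and the test whether an entry is invertible together cost at most `unitC P`. -/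

set_option autoImplicit false
set_option linter.unusedVariables false

namespace Pool.Agent.Lib.MP_f2e65a_lc

variable {k : Type} [Field k] {P Q : Type} [Fintype P] [DecidableEq P] [Fintype Q]
  [DecidableEq Q]

/-- bound for the cost of the treatment of one entry -/
def unitC (P : Type) [Fintype P] : ℕ := 16 * (2 ^ Fintype.card P) ^ 3

/-- no entry is invertible -/
def Reduced (s : St k P Q) : Prop := ∀ i j, ¬ Function.Bijective (s.d i j).1

/-- `Elims s s' c`: a sequence of Gaussian eliminations from `s` to `s'` of cost `c` -/
inductive Elims : St k P Q → St k P Q → ℕ → Prop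
  | nil (s : St k P Q) : Elims s s 0
  | cons (s s' : St k P Q) (c : ℕ) (i₀ j₀ : s.I)
      (ψ : Hom (Φ k (s.lab j₀)) (Φ k (s.lab i₀))) (h : Inv s i₀ j₀ ψ) :
      Elims (s.elim i₀ j₀ ψ h) s' c → Elims s s' (c + unitC P * Fintype.card s.I ^ 2)

/-- `Run s₀ w s c`: a run of the scanning algorithm from `s₀`, for the crossings `w` (in this order), with the result `s` and the cost `c` -/
inductive Run (s₀ : St k P Q) : List (P × Q) → St k P Q → ℕ → Prop
  | nil : Run s₀ [] s₀ 0
  | step {w : List (P × Q)} {s : St k P Q} {c : ℕ} (p : P) (q : Q) (s' s'' : St k P Q)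
      (c' : ℕ) : Run s₀ w s c → Glue p q s s' → Elims s' s'' c' → Reduced s'' →
      Run s₀ (w ++ [(p, q)]) s'' (c + unitC P * Fintype.card s'.I ^ 2 + c')

/-- the complex of the tangle obtained by gluing the crossings `w` -/
def crs (w : List (P × Q)) (D : Cx k P Q) : Cx k P Q :=
  w.foldl (fun D a => cross a.1 a.2 D) D

/-- one flat tangle -/
noncomputable def St.one (k : Type) [Field k] {P Q : Type} [Fintype P] [DecidableEq P]
    [Fintype Q] [DecidableEq Q] (a : P ≃ Q) : St k P Q where
  I := Unit
  lab _ := a
  deg _ := 0
  d _ _ := 0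
  d_deg _ _ h := absurd rfl h
  d_d _ _ := by
    rw [Finset.sum_eq_zero]
    intro _ _
    exact cmp_zero _

end Pool.Agent.Lib.MP_f2e65a_lc
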