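import Pool.Agent.Lib.MP_f2e65a_lc.FreeC

/-! # States of the scanning algorithm

A state is a complex over Bar-Natan's category: generators `i : I` with a flat tangle `lab i` and a homological degree `deg i`, and a matrix `d` of morphisms. -/

set_option autoImplicit false
set_option linter.unusedVariables false

namespace Pool.Agent.Lib.MP_f2e65a_lc

/-- the states -/
structure St (k : Type) [Field k] (P Q : Type) [Fintype P] [DecidableEq P] [Fintype Q]
    [DecidableEq Q] where
  I : Type
  [fI : Fintype I]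
  [dI : DecidableEq I]
  lab : I → (P ≃ Q)
  deg : I → ℤ
  d : ∀ i j : I, Hom (Φ k (lab i)) (Φ k (lab j))
  d_deg : ∀ i j, d i j ≠ 0 → deg j = deg i + 1
  d_d : ∀ i l, ∑ j, cmp (d j l) (d i j) = 0

attribute [instance] St.fI St.dI

variable {k : Type} [Field k] {P Q : Type} [Fintype P] [DecidableEq P] [Fintype Q]
  [DecidableEq Q]

/-- the total complex of a state -/
noncomputable def St.tot (s : St k P Q) : Cx k P Q where
  A := BN.pi fun i => Φ k (s.lab i)
  d := mat _ _ s.d
  dd := entry_ext fun i l => by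
    rw [entry_cmp]
    simp only [entry_mat]
    rw [s.d_d]
    refine hom_ext fun m => ?_
    change (0 : Φ k (s.lab l) |>.M) = (prj (fun i => Φ k (s.lab i)) l).1 0
    rw [map_zero]

/-- `ψ` is the inverse of the entry `(i₀, j₀)` -/
structure Inv (s : St k P Q) (i₀ j₀ : s.I) (ψ : Hom (Φ k (s.lab j₀)) (Φ k (s.lab i₀))) :
    Prop where
  l : cmp ψ (s.d i₀ j₀) = idH _
  r : cmp (s.d i₀ j₀) ψ = idH _

/-- entries after the elimination -/
noncomputable def St.ed (s : St k P Q) (i₀ j₀ : s.I)
    (ψ : Hom (Φ k (s.lab j₀)) (Φ k (s.lab i₀))) (i j : s.I) :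
    Hom (Φ k (s.lab i)) (Φ k (s.lab j)) :=
  s.d i j - cmp (s.d i₀ j) (cmp ψ (s.d i j₀))

end Pool.Agent.Lib.MP_f2e65a_lc
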