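import Pool.Agent.Lib.MP_f2e65a_lc.StDefs
import Pool.Agent.Lib.MP_f2e65a_lc.Gauss

/-! # StElim: Gaussian elimination for states

`C = s.tot`, `A i = Φ k (s.lab i)`, `A' i = Φ k (s.lab i.1)` for `i : {i // i ≠ i₀ ∧ i ≠ j₀}`, `φ = s.d i₀ j₀`.
* `elim_ne`: `i₀ ≠ j₀`: `φ ≠ 0` (it has an inverse and `gΦ ≠ 0`: `gΦ_ne`), so `deg j₀ = deg i₀ + 1`.
* `elim_deg`: if `s.ed i₀ j₀ ψ i j ≠ 0` then `s.d i j ≠ 0`, or `s.d i₀ j ≠ 0` and `s.d i j₀ ≠ 0`: `deg j = deg i₀ + 1`, `deg j₀ = deg i + 1`, `deg j₀ = deg i₀ + 1`.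
* `gauss` for `h = inc i₀ ∘ ψ ∘ prj j₀`, `ι = ∑ i, inc A i.1 ∘ prj A' i : BN.pi A' → BN.pi A`, `π = ∑ i, inc A' i ∘ prj A i.1`.  `h D h = inc ψ (prj j₀ D inc i₀) ψ prj = inc ψ φ ψ prj = h` (`prj j₀ ∘ D ∘ inc i₀ = entry D i₀ j₀ = φ`, `entry_mat`), `h h = 0` (`prj j₀ inc i₀ = 0`), `π ι = 1`, `h ι = 0`, `π h = 0`.
 `h6`: `1 = ι π + inc i₀ prj i₀ + inc j₀ prj j₀` (`sum_inc_prj`), `gE inc i₀ = inc i₀ - D h inc i₀ - h D inc i₀ = inc i₀ - 0 - inc i₀ ψ φ = 0`, `prj j₀ gE = prj j₀ - prj j₀ D inc i₀ ψ prj j₀ - 0 = 0`; so `gE ι π gE = gE gE - gE inc i₀ prj i₀ gE - gE inc j₀ prj j₀ gE = gE gE = gE` (`gE gE = gE` as in Gauss.lean: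
 `(D h + h D)^2 = D h D h + h D h D = D h + h D`).
 The entries of `gD C _ h ι π` are `s.ed i₀ j₀ ψ i j`: `entry (gD ..) i j = prj j (D - D h D) inc i = d i j - (prj j D inc i₀) ψ (prj j₀ D inc i)`.  So `elim_dd` is the entry `(i, l)` of `gD gD = 0` (`entry_cmp`), and `(s.elim ..).tot = ⟨_, gD .., _⟩` (`entry_ext`, `entry_mat`), which gives `elim_ret`. -/

set_option autoImplicit false
set_option linter.unusedVariables false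
set_option linter.unusedSectionVars false

namespace Pool.Agent.Lib.MP_f2e65a_lc

variable {k : Type} [Field k] {P Q : Type} [Fintype P] [DecidableEq P] [Fintype Q]
  [DecidableEq Q]

private theorem stElim_d_ne (s : St k P Q) (i₀ j₀ : s.I)
    (ψ : Hom (Φ k (s.lab j₀)) (Φ k (s.lab i₀))) (h : Inv s i₀ j₀ ψ) : s.d i₀ j₀ ≠ 0 := by
  intro h0
  have h1 := h.l
  rw [h0] at h1
  have h2 : (cmp ψ (0 : Hom (Φ k (s.lab i₀)) (Φ k (s.lab j₀)))).1 (gΦ k (s.lab i₀)) =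
      (idH (Φ k (s.lab i₀))).1 (gΦ k (s.lab i₀)) := by rw [h1]
  have h3 : (cmp ψ (0 : Hom (Φ k (s.lab i₀)) (Φ k (s.lab j₀)))).1 (gΦ k (s.lab i₀)) = 0 := by
    change ψ.1 0 = 0
    exact map_zero _
  exact gΦ_ne k (s.lab i₀) (h2.symm.trans h3)

private theorem stElim_ap {A B : BN k P Q} {f g : Hom A B} (h : f = g) (m : A.M) :
    f.1 m = g.1 m := by rw [h]

private theorem stElim_cx {B : BN k P Q} {d d' : Hom B B} (h : d = d') (hd : cmp d d = 0)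
    (hd' : cmp d' d' = 0) : (⟨B, d, hd⟩ : Cx k P Q) = ⟨B, d', hd'⟩ := by
  subst h
  rfl

section aux

variable {I : Type} [Fintype I] [DecidableEq I]

/-- the inclusion of the remaining summands -/
private noncomputable def stElim_ι (A : I → BN k P Q) (i₀ j₀ : I) :
    Hom (BN.pi fun i : {i : I // i ≠ i₀ ∧ i ≠ j₀} => A i.1) (BN.pi A) :=
  ∑ i : {i : I // i ≠ i₀ ∧ i ≠ j₀}, cmp (inc A i.1)
    (prj (fun i : {i : I // i ≠ i₀ ∧ i ≠ j₀} => A i.1) i)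

/-- the projection to the remaining summands -/
private noncomputable def stElim_π (A : I → BN k P Q) (i₀ j₀ : I) :
    Hom (BN.pi A) (BN.pi fun i : {i : I // i ≠ i₀ ∧ i ≠ j₀} => A i.1) :=
  ⟨LinearMap.pi fun i : {i : I // i ≠ i₀ ∧ i ≠ j₀} => LinearMap.proj i.1, fun _ _ => rfl,
    fun _ _ _ _ => rfl, fun _ _ _ => rfl⟩

private theorem stElim_prj_π (A : I → BN k P Q) (i₀ j₀ : I) (i : {i : I // i ≠ i₀ ∧ i ≠ j₀})
    (m : (BN.pi A).M) :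
    (prj (fun i : {i : I // i ≠ i₀ ∧ i ≠ j₀} => A i.1) i).1 ((stElim_π A i₀ j₀).1 m) =
      (prj A i.1).1 m := rfl

private theorem stElim_prj_inc (A : I → BN k P Q) (i : I) (x : (A i).M) :
    (prj A i).1 ((inc A i).1 x) = x := stElim_ap (prj_inc A i) x

private theorem stElim_prj_inc_ne (A : I → BN k P Q) {i j : I} (h : j ≠ i) (x : (A i).M) :
    (prj A j).1 ((inc A i).1 x) = 0 := stElim_ap (prj_inc_ne A h) x

private theorem stElim_ι_apply (A : I → BN k P Q) (i₀ j₀ : I)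
    (m : (BN.pi fun i : {i : I // i ≠ i₀ ∧ i ≠ j₀} => A i.1).M) :
    (stElim_ι A i₀ j₀).1 m = ∑ i : {i : I // i ≠ i₀ ∧ i ≠ j₀}, (inc A i.1).1
      ((prj (fun i : {i : I // i ≠ i₀ ∧ i ≠ j₀} => A i.1) i).1 m) := by
  unfold stElim_ι
  rw [sum_apply']
  rfl

private theorem stElim_prj_ι_ne (A : I → BN k P Q) (i₀ j₀ : I) (j : I)
    (hj : ¬ (j ≠ i₀ ∧ j ≠ j₀)) (m : (BN.pi fun i : {i : I // i ≠ i₀ ∧ i ≠ j₀} => A i.1).M) :
    (prj A j).1 ((stElim_ι A i₀ j₀).1 m) = 0 := by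
  rw [stElim_ι_apply, map_sum]
  refine Finset.sum_eq_zero fun i _ => ?_
  have h : j ≠ i.1 := by
    rintro rfl
    exact hj i.2
  exact stElim_prj_inc_ne A h _

private theorem stElim_prj_ι (A : I → BN k P Q) (i₀ j₀ : I) (j : {i : I // i ≠ i₀ ∧ i ≠ j₀})
    (m : (BN.pi fun i : {i : I // i ≠ i₀ ∧ i ≠ j₀} => A i.1).M) :
    (prj A j.1).1 ((stElim_ι A i₀ j₀).1 m) =
      (prj (fun i : {i : I // i ≠ i₀ ∧ i ≠ j₀} => A i.1) j).1 m := by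
  rw [stElim_ι_apply, map_sum, Finset.sum_eq_single j]
  · exact stElim_prj_inc A j.1 _
  · intro i _ h
    have h : j.1 ≠ i.1 := fun h1 => h (Subtype.ext h1.symm)
    exact stElim_prj_inc_ne A h _
  · intro h
    exact absurd (Finset.mem_univ j) h

private theorem stElim_ι_inc (A : I → BN k P Q) (i₀ j₀ : I) (j : {i : I // i ≠ i₀ ∧ i ≠ j₀})
    (x : (A j.1).M) :
    (stElim_ι A i₀ j₀).1 ((inc (fun i : {i : I // i ≠ i₀ ∧ i ≠ j₀} => A i.1) j).1 x) =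
      (inc A j.1).1 x := by
  rw [stElim_ι_apply, Finset.sum_eq_single j]
  · rw [stElim_prj_inc (fun i : {i : I // i ≠ i₀ ∧ i ≠ j₀} => A i.1) j x]
  · intro i _ h
    rw [stElim_prj_inc_ne (fun i : {i : I // i ≠ i₀ ∧ i ≠ j₀} => A i.1) h x, map_zero]
  · intro h
    exact absurd (Finset.mem_univ j) h

private theorem stElim_dec (A : I → BN k P Q) (i₀ j₀ : I) (hne : i₀ ≠ j₀) (m : (BN.pi A).M) :
    (stElim_ι A i₀ j₀).1 ((stElim_π A i₀ j₀).1 m) =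
      m - (inc A i₀).1 ((prj A i₀).1 m) - (inc A j₀).1 ((prj A j₀).1 m) := by
  refine pi_ext A fun j => ?_
  rw [map_sub, map_sub]
  by_cases hj : j ≠ i₀ ∧ j ≠ j₀
  · have e1 := stElim_prj_ι A i₀ j₀ ⟨j, hj⟩ ((stElim_π A i₀ j₀).1 m)
    rw [stElim_prj_π] at e1
    rw [stElim_prj_inc_ne A hj.1, stElim_prj_inc_ne A hj.2, sub_zero, sub_zero]
    exact e1
  · rw [stElim_prj_ι_ne A i₀ j₀ j hj]
    by_cases h1 : j = i₀
    · subst h1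
      rw [stElim_prj_inc, stElim_prj_inc_ne A hne, sub_zero, sub_self]
    · have h2 : j = j₀ := by
        by_contra h3
        exact hj ⟨h1, h3⟩
      subst h2
      rw [stElim_prj_inc, stElim_prj_inc_ne A h1, sub_zero, sub_self]

/-- the homotopy -/
private noncomputable def stElim_h (A : I → BN k P Q) (i₀ j₀ : I) (ψ : Hom (A j₀) (A i₀)) :
    Hom (BN.pi A) (BN.pi A) := cmp (inc A i₀) (cmp ψ (prj A j₀))

private theorem stElim_h_apply (A : I → BN k P Q) (i₀ j₀ : I) (ψ : Hom (A j₀) (A i₀))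
    (m : (BN.pi A).M) :
    (stElim_h A i₀ j₀ ψ).1 m = (inc A i₀).1 (ψ.1 ((prj A j₀).1 m)) := rfl

private theorem stElim_gauss (A : I → BN k P Q) (i₀ j₀ : I) (hne : i₀ ≠ j₀)
    (ψ : Hom (A j₀) (A i₀)) (D : Hom (BN.pi A) (BN.pi A)) (hD : cmp D D = 0)
    (hl : ∀ x, ψ.1 ((prj A j₀).1 (D.1 ((inc A i₀).1 x))) = x)
    (hr : ∀ x, (prj A j₀).1 (D.1 ((inc A i₀).1 (ψ.1 x))) = x) :
    ∃ hd : cmp (gD ⟨BN.pi A, D, hD⟩ (BN.pi fun i : {i : I // i ≠ i₀ ∧ i ≠ j₀} => A i.1)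
        (stElim_h A i₀ j₀ ψ) (stElim_ι A i₀ j₀) (stElim_π A i₀ j₀))
        (gD ⟨BN.pi A, D, hD⟩ (BN.pi fun i : {i : I // i ≠ i₀ ∧ i ≠ j₀} => A i.1)
        (stElim_h A i₀ j₀ ψ) (stElim_ι A i₀ j₀) (stElim_π A i₀ j₀)) = 0,
      Ret (⟨_, _, hd⟩ : Cx k P Q) ⟨BN.pi A, D, hD⟩ ∧
        Ret ⟨BN.pi A, D, hD⟩ (⟨_, _, hd⟩ : Cx k P Q) := by
  have hDD : ∀ m, D.1 (D.1 m) = 0 := fun m => stElim_ap hD m
  have hhh : ∀ m, (stElim_h A i₀ j₀ ψ).1 ((stElim_h A i₀ j₀ ψ).1 m) = 0 := fun m => by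
    rw [stElim_h_apply, stElim_h_apply, stElim_prj_inc_ne A hne.symm, map_zero, map_zero]
  have hhDh : ∀ m, (stElim_h A i₀ j₀ ψ).1 (D.1 ((stElim_h A i₀ j₀ ψ).1 m)) =
      (stElim_h A i₀ j₀ ψ).1 m := fun m => by
    rw [stElim_h_apply, stElim_h_apply, hl]
  have hE : ∀ m, (gE ⟨BN.pi A, D, hD⟩ (stElim_h A i₀ j₀ ψ)).1 m =
      m - (D.1 ((stElim_h A i₀ j₀ ψ).1 m) + (stElim_h A i₀ j₀ ψ).1 (D.1 m)) := fun m => rfl
  refine gauss _ _ _ _ _ ?_ ?_ ?_ ?_ ?_ ?_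
  · exact hom_ext fun m => hhDh m
  · exact hom_ext fun m => hhh m
  · refine hom_ext fun m => pi_ext _ fun i => ?_
    change (prj _ i).1 ((stElim_π A i₀ j₀).1 ((stElim_ι A i₀ j₀).1 m)) = (prj _ i).1 m
    rw [stElim_prj_π, stElim_prj_ι]
  · refine hom_ext fun m => ?_
    change (stElim_h A i₀ j₀ ψ).1 ((stElim_ι A i₀ j₀).1 m) = 0
    rw [stElim_h_apply, stElim_prj_ι_ne A i₀ j₀ j₀ (fun h => h.2 rfl), map_zero, map_zero]
  · refine hom_ext fun m => pi_ext _ fun i => ?_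
    change (prj (fun i : {i : I // i ≠ i₀ ∧ i ≠ j₀} => A i.1) i).1
      ((stElim_π A i₀ j₀).1 ((stElim_h A i₀ j₀ ψ).1 m)) = 0
    rw [stElim_prj_π, stElim_h_apply, stElim_prj_inc_ne A i.2.1]
  · have k1 : ∀ x, (gE ⟨BN.pi A, D, hD⟩ (stElim_h A i₀ j₀ ψ)).1 ((inc A i₀).1 x) = 0 :=
      fun x => by
        rw [hE, stElim_h_apply, stElim_h_apply, stElim_prj_inc_ne A hne.symm, map_zero,
          map_zero, map_zero, zero_add, hl, sub_self]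
    have k2 : ∀ m : (BN.pi A).M,
        (prj A j₀).1 ((gE ⟨BN.pi A, D, hD⟩ (stElim_h A i₀ j₀ ψ)).1 m) = 0 := fun m => by
      rw [hE, map_sub, map_add, stElim_h_apply, stElim_h_apply, hr,
        stElim_prj_inc_ne A hne.symm, add_zero, sub_self]
    have k3 : ∀ m : (BN.pi A).M, (gE ⟨BN.pi A, D, hD⟩ (stElim_h A i₀ j₀ ψ)).1
        ((gE ⟨BN.pi A, D, hD⟩ (stElim_h A i₀ j₀ ψ)).1 m) =
        (gE ⟨BN.pi A, D, hD⟩ (stElim_h A i₀ j₀ ψ)).1 m := fun m => by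
      have k4 : (stElim_h A i₀ j₀ ψ).1
          ((gE ⟨BN.pi A, D, hD⟩ (stElim_h A i₀ j₀ ψ)).1 m) = 0 := by
        rw [hE, map_sub, map_add, hhDh, hhh, add_zero, sub_self]
      have k5 : (stElim_h A i₀ j₀ ψ).1
          (D.1 ((gE ⟨BN.pi A, D, hD⟩ (stElim_h A i₀ j₀ ψ)).1 m)) = 0 := by
        rw [hE, map_sub, map_add, hDD, zero_add, map_sub, hhDh, sub_self]
      rw [hE ((gE ⟨BN.pi A, D, hD⟩ (stElim_h A i₀ j₀ ψ)).1 m), sub_eq_self, k4, k5, map_zero,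
        add_zero]
    refine hom_ext fun m => ?_
    change (gE ⟨BN.pi A, D, hD⟩ (stElim_h A i₀ j₀ ψ)).1 ((stElim_ι A i₀ j₀).1
      ((stElim_π A i₀ j₀).1 ((gE ⟨BN.pi A, D, hD⟩ (stElim_h A i₀ j₀ ψ)).1 m))) =
      (gE ⟨BN.pi A, D, hD⟩ (stElim_h A i₀ j₀ ψ)).1 m
    rw [stElim_dec A i₀ j₀ hne, map_sub, map_sub, k1, k2, map_zero, map_zero, k3, sub_zero,
      sub_zero]

private theorem stElim_edA (A : I → BN k P Q) (i₀ j₀ : I) (ψ : Hom (A j₀) (A i₀))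
    (D : Hom (BN.pi A) (BN.pi A)) (d : ∀ i j, Hom (A i) (A j))
    (hd : ∀ i j x, (prj A j).1 (D.1 ((inc A i).1 x)) = (d i j).1 x)
    (i j : {i : I // i ≠ i₀ ∧ i ≠ j₀}) (x : (A i.1).M) :
    (prj A j.1).1 (D.1 ((stElim_ι A i₀ j₀).1
        ((inc (fun i : {i : I // i ≠ i₀ ∧ i ≠ j₀} => A i.1) i).1 x)) -
      D.1 ((inc A i₀).1 (ψ.1 ((prj A j₀).1 (D.1 ((stElim_ι A i₀ j₀).1
        ((inc (fun i : {i : I // i ≠ i₀ ∧ i ≠ j₀} => A i.1) i).1 x))))))) =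
    (d i.1 j.1).1 x - (d i₀ j.1).1 (ψ.1 ((d i.1 j₀).1 x)) := by
  rw [stElim_ι_inc, map_sub, hd, hd, hd]

end aux

/-- the differential after the elimination, as a morphism -/
private noncomputable def stElim_D (s : St k P Q) (i₀ j₀ : s.I)
    (ψ : Hom (Φ k (s.lab j₀)) (Φ k (s.lab i₀))) :
    Hom (BN.pi fun i : {i : s.I // i ≠ i₀ ∧ i ≠ j₀} => Φ k (s.lab i.1))
      (BN.pi fun i : {i : s.I // i ≠ i₀ ∧ i ≠ j₀} => Φ k (s.lab i.1)) :=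
  gD s.tot (BN.pi fun i : {i : s.I // i ≠ i₀ ∧ i ≠ j₀} => Φ k (s.lab i.1))
    (stElim_h (fun i => Φ k (s.lab i)) i₀ j₀ ψ) (stElim_ι (fun i => Φ k (s.lab i)) i₀ j₀)
    (stElim_π (fun i => Φ k (s.lab i)) i₀ j₀)

private theorem stElim_entry (s : St k P Q) (i j : s.I) (x : (Φ k (s.lab i)).M) :
    (prj (fun i => Φ k (s.lab i)) j).1 (s.tot.d.1 ((inc (fun i => Φ k (s.lab i)) i).1 x)) =
      (s.d i j).1 x :=
  stElim_ap (entry_mat (fun i => Φ k (s.lab i)) (fun i => Φ k (s.lab i)) s.d i j) x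

private theorem stElim_all (s : St k P Q) (i₀ j₀ : s.I) (hne : i₀ ≠ j₀)
    (ψ : Hom (Φ k (s.lab j₀)) (Φ k (s.lab i₀))) (h : Inv s i₀ j₀ ψ) :
    ∃ hd : cmp (stElim_D s i₀ j₀ ψ) (stElim_D s i₀ j₀ ψ) = 0,
      Ret (⟨_, stElim_D s i₀ j₀ ψ, hd⟩ : Cx k P Q) s.tot ∧
        Ret s.tot (⟨_, stElim_D s i₀ j₀ ψ, hd⟩ : Cx k P Q) :=
  stElim_gauss (fun i => Φ k (s.lab i)) i₀ j₀ hne ψ s.tot.d s.tot.dd
    (fun x => (congrArg ψ.1 (stElim_entry s i₀ j₀ x)).trans (stElim_ap h.l x))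
    (fun x => (stElim_entry s i₀ j₀ (ψ.1 x)).trans (stElim_ap h.r x))

private theorem stElim_ed (s : St k P Q) (i₀ j₀ : s.I)
    (ψ : Hom (Φ k (s.lab j₀)) (Φ k (s.lab i₀)))
    (i j : {i : s.I // i ≠ i₀ ∧ i ≠ j₀}) :
    entry (A := fun i : {i : s.I // i ≠ i₀ ∧ i ≠ j₀} => Φ k (s.lab i.1))
      (B := fun i : {i : s.I // i ≠ i₀ ∧ i ≠ j₀} => Φ k (s.lab i.1)) (stElim_D s i₀ j₀ ψ) i j =
      s.ed i₀ j₀ ψ i.1 j.1 := by
  refine hom_ext fun x => ?_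
  exact stElim_edA (fun i => Φ k (s.lab i)) i₀ j₀ ψ s.tot.d s.d (stElim_entry s) i j x

theorem elim_ne (s : St k P Q) (i₀ j₀ : s.I) (ψ : Hom (Φ k (s.lab j₀)) (Φ k (s.lab i₀)))
    (h : Inv s i₀ j₀ ψ) : i₀ ≠ j₀ := by
  rintro rfl
  have h1 := s.d_deg i₀ i₀ (stElim_d_ne s i₀ i₀ ψ h)
  omega

theorem elim_deg (s : St k P Q) (i₀ j₀ : s.I) (ψ : Hom (Φ k (s.lab j₀)) (Φ k (s.lab i₀)))
    (h : Inv s i₀ j₀ ψ) (i j : s.I) (hij : s.ed i₀ j₀ ψ i j ≠ 0) :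
    s.deg j = s.deg i + 1 := by
  have h0 := s.d_deg i₀ j₀ (stElim_d_ne s i₀ j₀ ψ h)
  by_cases h1 : s.d i j = 0
  · by_cases h2 : s.d i₀ j = 0
    · exfalso
      apply hij
      unfold St.ed
      rw [h1, h2]
      refine hom_ext fun m => ?_
      change (0 : (Φ k (s.lab j)).M) - 0 = 0
      exact sub_zero 0
    · by_cases h3 : s.d i j₀ = 0
      · exfalso
        apply hij
        unfold St.ed
        rw [h1, h3]
        refine hom_ext fun m => ?_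
        change (0 : (Φ k (s.lab j)).M) - (s.d i₀ j).1 (ψ.1 0) = 0
        rw [map_zero, map_zero, sub_zero]
      · have h4 := s.d_deg _ _ h2
        have h5 := s.d_deg _ _ h3
        omega
  · exact s.d_deg i j h1

theorem elim_dd (s : St k P Q) (i₀ j₀ : s.I) (ψ : Hom (Φ k (s.lab j₀)) (Φ k (s.lab i₀)))
    (h : Inv s i₀ j₀ ψ) (i l : {i : s.I // i ≠ i₀ ∧ i ≠ j₀}) :
    ∑ j : {i : s.I // i ≠ i₀ ∧ i ≠ j₀}, cmp (s.ed i₀ j₀ ψ j.1 l.1) (s.ed i₀ j₀ ψ i.1 j.1) = 0 := by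
  obtain ⟨hd, -, -⟩ := stElim_all s i₀ j₀ (elim_ne s i₀ j₀ ψ h) ψ h
  have e1 := entry_cmp (A := fun i : {i : s.I // i ≠ i₀ ∧ i ≠ j₀} => Φ k (s.lab i.1))
    (B := fun i : {i : s.I // i ≠ i₀ ∧ i ≠ j₀} => Φ k (s.lab i.1))
    (C := fun i : {i : s.I // i ≠ i₀ ∧ i ≠ j₀} => Φ k (s.lab i.1))
    (stElim_D s i₀ j₀ ψ) (stElim_D s i₀ j₀ ψ) i l
  rw [hd] at e1
  have e2 : entry (A := fun i : {i : s.I // i ≠ i₀ ∧ i ≠ j₀} => Φ k (s.lab i.1))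
      (B := fun i : {i : s.I // i ≠ i₀ ∧ i ≠ j₀} => Φ k (s.lab i.1)) 0 i l = 0 := by
    refine hom_ext fun m => ?_
    rfl
  rw [e2] at e1
  rw [e1]
  refine Finset.sum_congr rfl fun j _ => ?_
  rw [stElim_ed, stElim_ed]

/-- Gaussian elimination of the entry `(i₀, j₀)` -/
noncomputable def St.elim (s : St k P Q) (i₀ j₀ : s.I)
    (ψ : Hom (Φ k (s.lab j₀)) (Φ k (s.lab i₀))) (h : Inv s i₀ j₀ ψ) : St k P Q where
  I := {i : s.I // i ≠ i₀ ∧ i ≠ j₀}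
  lab i := s.lab i.1
  deg i := s.deg i.1
  d i j := s.ed i₀ j₀ ψ i.1 j.1
  d_deg i j hij := elim_deg s i₀ j₀ ψ h i.1 j.1 hij
  d_d i l := elim_dd s i₀ j₀ ψ h i l

theorem elim_card (s : St k P Q) (i₀ j₀ : s.I) (ψ : Hom (Φ k (s.lab j₀)) (Φ k (s.lab i₀)))
    (h : Inv s i₀ j₀ ψ) : Fintype.card (s.elim i₀ j₀ ψ h).I + 2 = Fintype.card s.I := by
  have hne := elim_ne s i₀ j₀ ψ h
  have h1 : Fintype.card (s.elim i₀ j₀ ψ h).I = ((Finset.univ.erase i₀).erase j₀).card :=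
    Fintype.card_of_subtype (p := fun i : s.I => i ≠ i₀ ∧ i ≠ j₀)
      ((Finset.univ.erase i₀).erase j₀) (fun i => by
        simp only [Finset.mem_erase, Finset.mem_univ, and_true]
        exact and_comm)
  have h2 : j₀ ∈ (Finset.univ : Finset s.I).erase i₀ :=
    Finset.mem_erase.2 ⟨hne.symm, Finset.mem_univ _⟩
  have h3 := Finset.card_erase_add_one h2
  have h4 := Finset.card_erase_add_one (Finset.mem_univ i₀)
  rw [Finset.card_univ] at h4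
  omega

theorem elim_ret (s : St k P Q) (i₀ j₀ : s.I) (ψ : Hom (Φ k (s.lab j₀)) (Φ k (s.lab i₀)))
    (h : Inv s i₀ j₀ ψ) :
    Ret (s.elim i₀ j₀ ψ h).tot s.tot ∧ Ret s.tot (s.elim i₀ j₀ ψ h).tot := by
  obtain ⟨hd, r1, r2⟩ := stElim_all s i₀ j₀ (elim_ne s i₀ j₀ ψ h) ψ h
  have e : (s.elim i₀ j₀ ψ h).tot =
      (⟨BN.pi fun i : {i : s.I // i ≠ i₀ ∧ i ≠ j₀} => Φ k (s.lab i.1),
        stElim_D s i₀ j₀ ψ, hd⟩ : Cx k P Q) :=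
    stElim_cx (entry_ext fun i j =>
      (entry_mat _ _ _ i j).trans (stElim_ed s i₀ j₀ ψ i j).symm) _ _
  rw [e]
  exact ⟨r1, r2⟩

end Pool.Agent.Lib.MP_f2e65a_lc
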