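import Pool.Agent.Lib.MP_f2e65a_lc.SysDefs

/-! # SysA: absorption of a cap

`M = 2 * l + ε` (so level `l + 1` has `M + 2` strands and `tw (l + 1) = pre (l + 1) (M + 1)`, as `2 * (l + 1) + ε - 1 = M + 1`; `tw l = pre l (M - 1)`).
* `pre_R`: induction on `j` (`cr_R`).
* `cap_pre_lt`: `j + 1 ≤ i`: all crossings `j' ≤ j - 1` satisfy `j' + 2 ≤ i`: induction on `j` with `f1` and `cr_R`.
* `cap_pre_gt`: crossings above: for `i + 2 ≤ j ≤ M + 1`: `cap i (pre (l + 1) j X)` is a retract of `pre l (j - 2) (cap (i + 1) X)`: induction on `j`.  `j = i + 2`: `pre (i + 2) X = cr (i + 1) (cr i (pre i X))`: `a1` gives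
 `cap (i + 1) (pre i X)`, and `cap_pre_lt` (`i + 1 ≤ i + 1`).  Step: `cap i (cr j Z)`, `j = j' + 2`, `f2 i j'` (`i ≤ j'`, `j' + 2 ≤ M`), `cr_R`.
* `abs1`: `j = M + 1`, `i + 2 ≤ M + 1`; `j - 2 = M - 1`.
* `pre_comm`: `pre (l + 1) a (cr (l + 1) (a + 1) X)` is a retract of `cr (l + 1) (a + 1) (pre (l + 1) a X)`, more generally for `pre (l + 1) b`, `b ≤ a`: induction on `b`: `cr b (pre b (cr (a + 1) X)) → cr b (cr (a + 1) (pre b X)) → cr (a + 1) (cr b (pre b X))`: `ff b (a + 1)`, `b + 2 ≤ a + 1`.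
* `absG`: for `a ≤ M`: `cap a (pre (l + 1) a (pre (l + 1) (a + 1) X))` is a retract of `cap 0 X`: induction on `a`.  `a = 0`: `cap 0 (cr 0 X)`: `r1`.  Step: `pre (a + 1) (pre (a + 2) X) = cr a (pre a (cr (a + 1) (pre (a + 1) X)))`, by `pre_comm` (and `cr_R`, `cap_R`) a retract of
 `cr a (cr (a + 1) (pre a (pre (a + 1) X)))`; `a2`: `cap (a + 1) (cr a (cr (a + 1) Z))` is a retract of `cap a Z`.
* `abs2`: `cap M (pre (M + 1) (pre (M + 1) X))`: `pre (M + 1) W = cr M (pre M W)`, `r1`, then `absG` for `a = M`.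
* `abs_all`: strong induction on `q`: for `a ≤ M` there is `q' ≤ q` and `Y` among `cap b X` (`b ≤ M`) or `cap M (tw (l + 1) X)` with `R (cap a (tws (l + 1) q X)) (tws l q' Y)`.  `q = 0`: `Y = cap a X`.  `q + 1`, `a < M`: `tws (q + 1) X = tw (tws q X)` (`Function.iterate_succ_apply'`), `abs1`,
 then the induction hypothesis for `a + 1` and `pre_R` (`tw l (tws l q' Y) = tws l (q' + 1) Y`).  `a = M`: `q + 1 = 1`: `Y = cap M (tw X)`, `q' = 0`; `q + 2`: `abs2` and the induction hypothesis for `a = 0`, `q`. -/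

set_option autoImplicit false
set_option linter.unusedVariables false

namespace Pool.Agent.Lib.MP_f2e65a_lc

universe u v

namespace Sys

variable (s : Sys.{u, v})

theorem pre_R {l : ℕ} (j : ℕ) {X Y : s.Ob l} (h : s.R X Y) :
    s.R (s.pre l j X) (s.pre l j Y) := by
  induction j with
  | zero => exact h
  | succ j ih => exact s.cr_R j ih

theorem cap_pre_lt {l : ℕ} (i j : ℕ) (X : s.Ob (l + 1)) (h : j + 1 ≤ i)
    (hi : i ≤ 2 * l + s.ε) :
    s.R (s.cap l i (s.pre (l + 1) j X)) (s.pre l j (s.cap l i X)) := by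
  induction j with
  | zero => exact s.R_refl _
  | succ j ih =>
    exact s.R_trans (s.f1 i j (s.pre (l + 1) j X) (by omega) hi) (s.cr_R j (ih (by omega)))

private theorem SysA_gt {l : ℕ} (i k : ℕ) (X : s.Ob (l + 1)) (h : i + 1 + k ≤ 2 * l + s.ε) :
    s.R (s.cap l i (s.pre (l + 1) (i + k + 2) X)) (s.pre l (i + k) (s.cap l (i + 1) X)) := by
  induction k with
  | zero =>
    exact s.R_trans (s.a1 i (s.pre (l + 1) i X) (by omega))
      (s.cap_pre_lt (i + 1) i X le_rfl (by omega))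
  | succ k ih =>
    exact s.R_trans (s.f2 i (i + k) (s.pre (l + 1) (i + k + 2) X) (by omega) (by omega))
      (s.cr_R (i + k) (ih (by omega)))

theorem abs1 {l : ℕ} (i : ℕ) (X : s.Ob (l + 1)) (hi : i + 1 ≤ 2 * l + s.ε) :
    s.R (s.cap l i (s.tw (l + 1) X)) (s.tw l (s.cap l (i + 1) X)) := by
  obtain ⟨k, hk⟩ : ∃ k, 2 * l + s.ε = i + 1 + k := ⟨2 * l + s.ε - (i + 1), by omega⟩
  have e1 : s.tw (l + 1) X = s.pre (l + 1) (i + k + 2) X := by
    have : 2 * (l + 1) + s.ε - 1 = i + k + 2 := by omega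
    unfold tw
    rw [this]
  have e2 : s.tw l (s.cap l (i + 1) X) = s.pre l (i + k) (s.cap l (i + 1) X) := by
    have : 2 * l + s.ε - 1 = i + k := by omega
    unfold tw
    rw [this]
  rw [e1, e2]
  exact s.SysA_gt i k X (by omega)

private theorem SysA_comm {l : ℕ} (a b : ℕ) (X : s.Ob (l + 1)) (h : b ≤ a)
    (ha : a + 1 ≤ 2 * l + s.ε) :
    s.R (s.pre (l + 1) b (s.cr (l + 1) (a + 1) X)) (s.cr (l + 1) (a + 1) (s.pre (l + 1) b X)) := by
  induction b with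
  | zero => exact s.R_refl _
  | succ b ih =>
    exact s.R_trans (s.cr_R b (ih (by omega)))
      (s.ff b (a + 1) (s.pre (l + 1) b X) (by omega) ha)

private theorem SysA_G {l : ℕ} (a : ℕ) (X : s.Ob (l + 1)) (ha : a ≤ 2 * l + s.ε) :
    s.R (s.cap l a (s.pre (l + 1) a (s.pre (l + 1) (a + 1) X))) (s.cap l 0 X) := by
  induction a with
  | zero => exact s.r1 0 X ha
  | succ a ih =>
    have h1 : s.R (s.cap l (a + 1) (s.pre (l + 1) (a + 1) (s.pre (l + 1) (a + 1 + 1) X)))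
        (s.cap l (a + 1) (s.cr (l + 1) a (s.cr (l + 1) (a + 1)
          (s.pre (l + 1) a (s.pre (l + 1) (a + 1) X))))) :=
      s.cap_R (a + 1) ha (s.cr_R a (s.SysA_comm a a (s.pre (l + 1) (a + 1) X) le_rfl ha))
    exact s.R_trans h1 (s.R_trans
      (s.a2 a (s.pre (l + 1) a (s.pre (l + 1) (a + 1) X)) ha) (ih (by omega)))

theorem abs2 {l : ℕ} (X : s.Ob (l + 1)) :
    s.R (s.cap l (2 * l + s.ε) (s.tw (l + 1) (s.tw (l + 1) X))) (s.cap l 0 X) := by
  have e1 : ∀ Z : s.Ob (l + 1), s.tw (l + 1) Z = s.pre (l + 1) (2 * l + s.ε + 1) Z := by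
    intro Z
    have : 2 * (l + 1) + s.ε - 1 = 2 * l + s.ε + 1 := by omega
    unfold tw
    rw [this]
  rw [e1, e1]
  exact s.R_trans (s.r1 (2 * l + s.ε)
    (s.pre (l + 1) (2 * l + s.ε) (s.pre (l + 1) (2 * l + s.ε + 1) X)) le_rfl)
    (s.SysA_G (2 * l + s.ε) X le_rfl)

theorem abs_all {l : ℕ} (X : s.Ob (l + 1)) (q : ℕ) : ∀ a, a ≤ 2 * l + s.ε →
    ∃ q' ≤ q, (∃ b ≤ 2 * l + s.ε, s.R (s.cap l a (s.tws (l + 1) q X))
      (s.tws l q' (s.cap l b X))) ∨
      s.R (s.cap l a (s.tws (l + 1) q X))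
        (s.tws l q' (s.cap l (2 * l + s.ε) (s.tw (l + 1) X))) := by
  induction q using Nat.strong_induction_on with
  | _ q IH =>
  intro a ha
  rcases q with _ | q
  · exact ⟨0, le_rfl, Or.inl ⟨a, ha, s.R_refl _⟩⟩
  have eS : ∀ n : ℕ, s.tws (l + 1) (n + 1) X = s.tw (l + 1) (s.tws (l + 1) n X) := fun n =>
    Function.iterate_succ_apply' _ n X
  have eT : ∀ (n : ℕ) (Y : s.Ob l), s.tws l (n + 1) Y = s.tw l (s.tws l n Y) := fun n Y =>
    Function.iterate_succ_apply' _ n Y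
  rcases Nat.lt_or_ge a (2 * l + s.ε) with hlt | hge
  · have h1 : s.R (s.cap l a (s.tws (l + 1) (q + 1) X))
        (s.tw l (s.cap l (a + 1) (s.tws (l + 1) q X))) := by
      rw [eS]
      exact s.abs1 a _ hlt
    obtain ⟨q', hq', h2⟩ := IH q (Nat.lt_succ_self q) (a + 1) hlt
    refine ⟨q' + 1, by omega, ?_⟩
    rcases h2 with ⟨b, hb, h2⟩ | h2
    · refine Or.inl ⟨b, hb, ?_⟩
      rw [eT]
      exact s.R_trans h1 (s.pre_R _ h2)
    · refine Or.inr ?_
      rw [eT]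
      exact s.R_trans h1 (s.pre_R _ h2)
  · obtain rfl : a = 2 * l + s.ε := le_antisymm ha hge
    rcases q with _ | q
    · exact ⟨0, by omega, Or.inr (s.R_refl _)⟩
    · have h1 : s.R (s.cap l (2 * l + s.ε) (s.tws (l + 1) (q + 1 + 1) X))
          (s.cap l 0 (s.tws (l + 1) q X)) := by
        rw [eS, eS]
        exact s.abs2 _
      obtain ⟨q', hq', h2⟩ := IH q (by omega) 0 (Nat.zero_le _)
      refine ⟨q', by omega, ?_⟩
      rcases h2 with ⟨b, hb, h2⟩ | h2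
      · exact Or.inl ⟨b, hb, s.R_trans h1 h2⟩
      · exact Or.inr (s.R_trans h1 h2)

end Sys

end Pool.Agent.Lib.MP_f2e65a_lc
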