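import Mathlib

/-! # The recursion, abstractly

Level `l` has `2 * l + ε` strands, `ε ≤ 1`.  Objects `X`, tests `t` (`N t X` is the dimension of the homology of the test), `R X Y` means that `X` is a retract of `Y` up to
homotopy, `cr l i` adds a crossing between the strands `i`, `i + 1` (`i + 1 < 2 * l + ε`), `cap l i` closes the strands `i`, `i + 1` of level `l + 1`. -/

set_option autoImplicit false
set_option linter.unusedVariables false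

namespace Pool.Agent.Lib.MP_f2e65a_lc

universe u v

/-- the data of the recursion -/
structure Sys where
  ε : ℕ
  hε : ε ≤ 1
  Ob : ℕ → Type u
  Te : ℕ → Type v
  N : ∀ {l : ℕ}, Te l → Ob l → ℕ
  R : ∀ {l : ℕ}, Ob l → Ob l → Prop
  cr : ∀ l : ℕ, ℕ → Ob l → Ob l
  cap : ∀ l : ℕ, ℕ → Ob (l + 1) → Ob l
  up : ∀ l : ℕ, ℕ → Te l → Te (l + 1)
  dn : ∀ l : ℕ, ℕ → Te (l + 1) → Te l
  R_refl : ∀ {l : ℕ} (X : Ob l), R X X
  R_trans : ∀ {l : ℕ} {X Y Z : Ob l}, R X Y → R Y Z → R X Z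
  N_R : ∀ {l : ℕ} (t : Te l) {X Y : Ob l}, R X Y → N t X ≤ N t Y
  cr_R : ∀ {l : ℕ} (i : ℕ) {X Y : Ob l}, R X Y → R (cr l i X) (cr l i Y)
  cap_R : ∀ {l : ℕ} (i : ℕ) {X Y : Ob (l + 1)}, i ≤ 2 * l + ε → R X Y →
    R (cap l i X) (cap l i Y)
  N_up : ∀ {l : ℕ} (i : ℕ) (t : Te l) (X : Ob (l + 1)), i ≤ 2 * l + ε →
    N (up l i t) X = N t (cap l i X)
  skein : ∀ {l : ℕ} (i : ℕ) (t : Te (l + 1)) (X : Ob (l + 1)), i ≤ 2 * l + ε →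
    N t (cr (l + 1) i X) ≤ N t X + N (dn l i t) (cap l i X)
  r1 : ∀ {l : ℕ} (i : ℕ) (X : Ob (l + 1)), i ≤ 2 * l + ε →
    R (cap l i (cr (l + 1) i X)) (cap l i X)
  a1 : ∀ {l : ℕ} (i : ℕ) (X : Ob (l + 1)), i + 1 ≤ 2 * l + ε →
    R (cap l i (cr (l + 1) (i + 1) (cr (l + 1) i X))) (cap l (i + 1) X)
  a2 : ∀ {l : ℕ} (i : ℕ) (X : Ob (l + 1)), i + 1 ≤ 2 * l + ε →
    R (cap l (i + 1) (cr (l + 1) i (cr (l + 1) (i + 1) X))) (cap l i X)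
  f1 : ∀ {l : ℕ} (i j : ℕ) (X : Ob (l + 1)), j + 2 ≤ i → i ≤ 2 * l + ε →
    R (cap l i (cr (l + 1) j X)) (cr l j (cap l i X))
  f2 : ∀ {l : ℕ} (i j : ℕ) (X : Ob (l + 1)), i ≤ j → j + 2 ≤ 2 * l + ε →
    R (cap l i (cr (l + 1) (j + 2) X)) (cr l j (cap l i X))
  ff : ∀ {l : ℕ} (i j : ℕ) (X : Ob (l + 1)), i + 2 ≤ j → j ≤ 2 * l + ε →
    R (cr (l + 1) i (cr (l + 1) j X)) (cr (l + 1) j (cr (l + 1) i X))

namespace Sys

variable (s : Sys.{u, v})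

/-- the first `j` crossings -/
def pre (l : ℕ) : ℕ → s.Ob l → s.Ob l
  | 0, X => X
  | j + 1, X => s.cr l j (pre l j X)

/-- one full twist factor `σ_1 ⋯ σ_{m - 1}`, `m = 2 * l + ε` strands -/
def tw (l : ℕ) (X : s.Ob l) : s.Ob l := s.pre l (2 * l + s.ε - 1) X

/-- `q` factors -/
def tws (l : ℕ) (q : ℕ) (X : s.Ob l) : s.Ob l := (s.tw l)^[q] X

end Sys

end Pool.Agent.Lib.MP_f2e65a_lc
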