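import Pool.Agent.Lib.MP_f2e65a_lc.Uin
import Pool.Agent.Lib.MP_f2e65a_lc.CupAdj

/-! # ThA: the isomorphism `U p q (U r s A) ≃ U r s (U p q A)` for different strands

`p ≠ r`, `q ≠ s`.  `uin B p q τ b = (0, single τ (E p q b))` (`uc_uin_v`, `uc_uin_m`); `ugen B p q b hb = uin B p q p b` (`uobj_ext`).
* `exists_theta`: `U_hom` for `B = uobj A r s`, `C = uobj (uobj A p q) r s` and `u b = ` the element of `C` with the coordinates `uin A p q p (b_σ)` for the coordinates `b_σ` of `b` (`σ = v` or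
 `σ ∈ P`); it is in `Usub (uobj A p q) r s` because `E r s (uin A p q p a) = uin A p q p (E r s a)` (`uE_tu_*`, `r ≠ p`, `s ≠ q`).  `UHom`: for `t, t' ≠ p`, `u ≠ q` the operators
 `x t`, `S t t'`, `E t u` of `uobj A p q` satisfy `x t (uin p a) = uin p (x t a)`, `S t t' (uin p a) = uin p (S t t' a)` (`Equiv.swap t t' p = p`), `E t u (uin p a) = uin p (E t u a)` (compare coordinates), and the coordinates
 of `x t b`, etc. in `U r s` are given by the same formulas (`ux`, `uS`, `uE` with `r`, `s`) from the coordinates of `b` and the operators of `A`, resp. `uobj A p q`.  Only the case that the formula involves the operator at `p`: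
 `ux_p_ne` (`x r`: coordinate `τ = p` is `x p (b_p)`), `uS1_ne` (`S p t (b_p)`), `uE_pu_ne` (`E p u (b_p)`): but `b_p = 0` for `E p q b = b` (`uE_tu_t`, `p ≠ r`, `q ≠ s`).  `mem`: `E p q` on `U r s (U p q A)`:
 coordinates `E p q (uin p a) = uin p a` (`uE_pq_*`), and at `τ = p`: `0`, `b_p = 0`.
 Value: `u (uin A r s r a)` has only the coordinate `r`: `uin A p q p (E r s a)`; so `Θ (uin p (uin r a)) = Θ (ugen (E p q (uin r a))) = u (uin r (E p q a)) = uin r (uin p a)`.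
* `double_ext`: by `U_ext` it is enough to treat `ugen b`, `b : uobj A r s`, `E p q b = b`; let `G b = F (uin p b) - F' (uin p b)`, linear in `b`; for `E p q b = b`, `t, t' ≠ p`: `G (x t b) = x t (G b)`, `G (S t t' b) = S t t' (G b)`.
 `b = x r (uin r v) + uin r b_r + ∑_{τ ≠ r, p} S r τ (uin r b_τ)` (`b_p = 0`; `uobj_eq` or `uobj_ext`, `ux_p_*`, `uS1_*`), and `G (uin r a) = 0`. -/

set_option autoImplicit false
set_option linter.unusedVariables false

namespace Pool.Agent.Lib.MP_f2e65a_lc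

variable {k : Type} [Field k] {P Q : Type} [Fintype P] [DecidableEq P] [Fintype Q]
  [DecidableEq Q]

/-- `x t` and `uin p` for `t ≠ p` -/
private theorem ThA_x (A : BN k P Q) {p t : P} (q : Q) (ht : t ≠ p) (a : A.M) :
    (uobj A p q).x t (uin A p q p a) = uin A p q p (A.x t a) := by
  refine uobj_ext ?_ fun τ => ?_
  · rw [uc_x, ux_ne_v A _ ht, uc_uin_v, uc_uin_v, map_zero]
  · rw [uc_x, ux_ne A _ ht, uc_uin_m, uc_uin_m]
    by_cases hτ : τ = p
    · rw [if_pos hτ, if_pos hτ, A.x_E]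
    · rw [if_neg hτ, if_neg hτ, map_zero]

/-- `S t t'` and `uin p` for `t, t' ≠ p` -/
private theorem ThA_S (A : BN k P Q) {p t t' : P} (q : Q) (h : t ≠ t') (ht : t ≠ p)
    (ht' : t' ≠ p) (a : A.M) :
    (uobj A p q).S t t' (uin A p q p a) = uin A p q p (A.S t t' a) := by
  refine uobj_ext ?_ fun τ => ?_
  · rw [uc_S, uS_ne_v A _ h ht ht', uc_uin_v, uc_uin_v, map_zero]
  · rw [uc_S, uS_ne A _ h ht ht', uc_uin_m, uc_uin_m]
    by_cases hτ : τ = p
    · rw [hτ, Equiv.swap_apply_of_ne_of_ne ht.symm ht'.symm, if_pos rfl, if_pos rfl,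
        A.S_E' t t' p q a h ht.symm ht'.symm]
    · rw [if_neg hτ, if_neg, map_zero]
      intro h1
      apply hτ
      rw [← Equiv.swap_apply_self t t' τ, h1, Equiv.swap_apply_of_ne_of_ne ht.symm ht'.symm]

/-- `E t u` and `uin p` for `t ≠ p`, `u ≠ q` -/
private theorem ThA_E (A : BN k P Q) {p t : P} {q u : Q} (ht : t ≠ p) (hu : u ≠ q) (a : A.M) :
    (uobj A p q).E t u (uin A p q p a) = uin A p q p (A.E t u a) := by
  refine uobj_ext ?_ fun τ => ?_
  · rw [uc_E, uE_tu_v A _ ht hu, uc_uin_v, uc_uin_v, map_zero]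
  · rw [uc_E, uc_uin_m]
    by_cases hτ : τ = t
    · rw [hτ, uE_tu_t A _ ht hu, if_neg ht]
    · rw [uE_tu_ne A _ ht hu hτ, uc_uin_m]
      by_cases hτ' : τ = p
      · rw [if_pos hτ', if_pos hτ', A.E_E]
      · rw [if_neg hτ', if_neg hτ', map_zero]

/-- `E p q` and `uin p` -/
private theorem ThA_Epq (A : BN k P Q) (p : P) (q : Q) (a : A.M) :
    (uobj A p q).E p q (uin A p q p a) = uin A p q p a := by
  refine uobj_ext ?_ fun τ => ?_
  · rw [uc_E, uE_pq_v]
  · rw [uc_E]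
    by_cases hτ : τ = p
    · rw [hτ, uE_pq_p]
    · rw [uE_pq_ne A _ hτ, uc_uin_m, if_neg hτ]

/-- `uin p` only depends on the image under `E p q` -/
private theorem ThA_uin_E (A : BN k P Q) (p : P) (q : Q) (τ : P) (a : A.M) :
    uin A p q τ (A.E p q a) = uin A p q τ a := by
  refine uobj_ext ?_ fun σ => ?_
  · rw [uc_uin_v, uc_uin_v]
  · rw [uc_uin_m, uc_uin_m, A.E_idem]

/-- `uin p` of `0` has zero coordinates -/
private theorem ThA_uin_zero (A : BN k P Q) (p : P) (q : Q) (τ : P) :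
    uin A p q τ 0 = 0 := map_zero _

/-- the coordinates of an element in the image of `E p q` on `U r s A` -/
private theorem ThA_coord (A : BN k P Q) {p r : P} {q s : Q} (hpr : p ≠ r) (hqs : q ≠ s)
    (b : (uobj A r s).M) (hb : (uobj A r s).E p q b = b) : (uc A r s b).2 p = 0 := by
  have h1 := uE_tu_t A (uc A r s b) hpr hqs
  rw [← uc_E, hb] at h1
  exact h1

/-- `ugen` is `uin p` -/
private theorem ThA_ugen (B : BN k P Q) (p : P) (q : Q) (b : B.M) (hb : B.E p q b = b) :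
    ugen B p q b hb = uin B p q p b := by
  refine uobj_ext rfl fun τ => ?_
  rw [uc_uin_m]
  change (Pi.single (M := fun _ => B.M) p b) τ = _
  by_cases hτ : τ = p
  · subst hτ
    rw [Pi.single_eq_same, if_pos rfl, hb]
  · rw [Pi.single_eq_of_ne hτ, if_neg hτ]

/-- the linear map `(v, m) ↦ (uin p v, uin p m)` -/
private def ThA_uW (A : BN k P Q) (p : P) (q : Q) : UW A →ₗ[k] UW (uobj A p q) :=
  LinearMap.prod (uin A p q p ∘ₗ uv A) (LinearMap.pi fun τ => uin A p q p ∘ₗ um A τ)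

private theorem ThA_uW_v (A : BN k P Q) (p : P) (q : Q) (w : UW A) :
    (ThA_uW A p q w).1 = uin A p q p w.1 := rfl
private theorem ThA_uW_m (A : BN k P Q) (p : P) (q : Q) (w : UW A) (τ : P) :
    (ThA_uW A p q w).2 τ = uin A p q p (w.2 τ) := rfl

/-- the same from `U r s A` to `U r s (U p q A)` -/
private def ThA_u (A : BN k P Q) {p r : P} {q s : Q} (hpr : p ≠ r) (hqs : q ≠ s) :
    (uobj A r s).M →ₗ[k] (uobj (uobj A p q) r s).M :=
  (LinearMap.codRestrict (Usub (uobj A p q) r s) (ThA_uW A p q ∘ₗ uc A r s)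
    (fun b => by
      refine ⟨?_, fun σ => ?_⟩
      · change (uobj A p q).E r s (uin A p q p (uc A r s b).1) = uin A p q p (uc A r s b).1
        rw [ThA_E A hpr.symm hqs.symm, uc_v]
      · change (uobj A p q).E r s (uin A p q p ((uc A r s b).2 σ)) =
          uin A p q p ((uc A r s b).2 σ)
        rw [ThA_E A hpr.symm hqs.symm, uc_m]) :
    (uobj A r s).M →ₗ[k] Usub (uobj A p q) r s)

private theorem ThA_u_v (A : BN k P Q) {p r : P} {q s : Q} (hpr : p ≠ r) (hqs : q ≠ s)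
    (b : (uobj A r s).M) :
    (uc (uobj A p q) r s (ThA_u A hpr hqs b)).1 = uin A p q p (uc A r s b).1 := rfl
private theorem ThA_u_m (A : BN k P Q) {p r : P} {q s : Q} (hpr : p ≠ r) (hqs : q ≠ s)
    (b : (uobj A r s).M) (τ : P) :
    (uc (uobj A p q) r s (ThA_u A hpr hqs b)).2 τ = uin A p q p ((uc A r s b).2 τ) := rfl

private theorem ThA_ux (A : BN k P Q) {p r : P} {q s : Q} (hpr : p ≠ r) (hqs : q ≠ s)
    (t : P) (b : (uobj A r s).M) (ht : t ≠ p) (hb : (uobj A r s).E p q b = b) :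
    ThA_u A hpr hqs ((uobj A r s).x t b) =
      (uobj (uobj A p q) r s).x t (ThA_u A hpr hqs b) := by
  have hp := ThA_coord A hpr hqs b hb
  refine uobj_ext ?_ fun τ => ?_
  · rw [ThA_u_v, uc_x, uc_x]
    by_cases htr : t = r
    · subst htr
      rw [ux_p_v, ux_p_v, ThA_u_m]
    · rw [ux_ne_v A _ htr, ux_ne_v (uobj A p q) _ htr, ThA_u_v, ThA_x A q ht]
  · rw [ThA_u_m, uc_x, uc_x]
    by_cases htr : t = r
    · subst htr
      by_cases hτ : τ = t
      · rw [hτ, ux_p_p, ux_p_p, map_zero]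
      · rw [ux_p_ne A _ hτ, ux_p_ne (uobj A p q) _ hτ, ThA_u_m]
        by_cases hτp : τ = p
        · rw [hτp, hp, map_zero, map_zero, map_zero]
        · rw [ThA_x A q hτp]
    · rw [ux_ne A _ htr, ux_ne (uobj A p q) _ htr, ThA_u_m, ThA_x A q ht]

private theorem ThA_uS1 (A : BN k P Q) {p r : P} {q s : Q} (hpr : p ≠ r) (hqs : q ≠ s)
    (t : P) (b : (uobj A r s).M) (ht : t ≠ p) (htr : t ≠ r)
    (hb : (uobj A r s).E p q b = b) :
    (∀ w : (uobj A r s).M, uc A r s w = uS1 A r t (uc A r s b) →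
      ∀ w' : (uobj (uobj A p q) r s).M,
        uc (uobj A p q) r s w' = uS1 (uobj A p q) r t
          (uc (uobj A p q) r s (ThA_u A hpr hqs b)) → ThA_u A hpr hqs w = w') := by
  intro w hw w' hw'
  have hp := ThA_coord A hpr hqs b hb
  refine uobj_ext ?_ fun τ => ?_
  · rw [ThA_u_v, hw, hw', uS1_v, uS1_v, ThA_u_m]
  · rw [ThA_u_m, hw, hw']
    by_cases hτ : τ = r
    · rw [hτ, uS1_p, uS1_p, ThA_u_m, ThA_x A q ht]
    · by_cases hτt : τ = t
      · rw [hτt, uS1_self A _ htr, uS1_self (uobj A p q) _ htr, map_add, ThA_u_m, ThA_u_v,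
          ThA_x A q ht]
      · rw [uS1_ne A _ hτ hτt, uS1_ne (uobj A p q) _ hτ hτt, ThA_u_m]
        by_cases hτp : τ = p
        · rw [hτp, hp, map_zero, map_zero, map_zero]
        · rw [ThA_S A q hτt hτp ht]

private theorem ThA_uS (A : BN k P Q) {p r : P} {q s : Q} (hpr : p ≠ r) (hqs : q ≠ s)
    (t t' : P) (b : (uobj A r s).M) (htt : t ≠ t') (ht : t ≠ p) (ht' : t' ≠ p)
    (hb : (uobj A r s).E p q b = b) :
    ThA_u A hpr hqs ((uobj A r s).S t t' b) =
      (uobj (uobj A p q) r s).S t t' (ThA_u A hpr hqs b) := by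
  by_cases htr : t = r
  · subst htr
    refine ThA_uS1 A hpr hqs t' b ht' htt.symm hb _ ?_ _ ?_
    · rw [uc_S, uS_p A htt.symm]
    · rw [uc_S, uS_p (uobj A p q) htt.symm]
  by_cases htr' : t' = r
  · subst htr'
    refine ThA_uS1 A hpr hqs t b ht htt hb _ ?_ _ ?_
    · rw [uc_S, uS_p' A htt]
    · rw [uc_S, uS_p' (uobj A p q) htt]
  refine uobj_ext ?_ fun τ => ?_
  · rw [ThA_u_v, uc_S, uc_S, uS_ne_v A _ htt htr htr', uS_ne_v (uobj A p q) _ htt htr htr',
      ThA_u_v, ThA_S A q htt ht ht']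
  · rw [ThA_u_m, uc_S, uc_S, uS_ne A _ htt htr htr', uS_ne (uobj A p q) _ htt htr htr',
      ThA_u_m, ThA_S A q htt ht ht']

private theorem ThA_uE (A : BN k P Q) {p r : P} {q s : Q} (hpr : p ≠ r) (hqs : q ≠ s)
    (t : P) (u : Q) (b : (uobj A r s).M) (ht : t ≠ p) (hu : u ≠ q)
    (hb : (uobj A r s).E p q b = b) :
    ThA_u A hpr hqs ((uobj A r s).E t u b) =
      (uobj (uobj A p q) r s).E t u (ThA_u A hpr hqs b) := by
  have hp := ThA_coord A hpr hqs b hb
  by_cases htr : t = r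
  · subst htr
    by_cases hus : u = s
    · subst hus
      refine uobj_ext ?_ fun τ => ?_
      · rw [ThA_u_v, uc_E, uc_E, uE_pq_v, uE_pq_v, ThA_u_v]
      · rw [ThA_u_m, uc_E, uc_E]
        by_cases hτ : τ = t
        · rw [hτ, uE_pq_p, uE_pq_p, ThA_u_m]
        · rw [uE_pq_ne A _ hτ, uE_pq_ne (uobj A p q) _ hτ, map_zero]
    · refine uobj_ext ?_ fun τ => ?_
      · rw [ThA_u_v, uc_E, uc_E, uE_pu_v A _ hus, uE_pu_v (uobj A p q) _ hus, map_zero]
      · rw [ThA_u_m, uc_E, uc_E]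
        by_cases hτ : τ = t
        · rw [hτ, uE_pu_p A _ hus, uE_pu_p (uobj A p q) _ hus, map_zero]
        · rw [uE_pu_ne A _ hus hτ, uE_pu_ne (uobj A p q) _ hus hτ, ThA_u_m]
          by_cases hτp : τ = p
          · rw [hτp, hp, map_zero, map_zero, map_zero]
          · rw [ThA_E A hτp hu]
  · by_cases hus : u = s
    · subst hus
      refine uobj_ext ?_ fun τ => ?_
      · rw [ThA_u_v, uc_E, uc_E, uE_tq_v A _ htr, uE_tq_v (uobj A p q) _ htr, map_zero]
      · rw [ThA_u_m, uc_E, uc_E]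
        by_cases hτ : τ = t
        · rw [hτ, uE_tq_t A _ htr, uE_tq_t (uobj A p q) _ htr, ThA_u_m]
        · rw [uE_tq_ne A _ htr hτ, uE_tq_ne (uobj A p q) _ htr hτ, map_zero]
    · refine uobj_ext ?_ fun τ => ?_
      · rw [ThA_u_v, uc_E, uc_E, uE_tu_v A _ htr hus, uE_tu_v (uobj A p q) _ htr hus, ThA_u_v,
          ThA_E A ht hu]
      · rw [ThA_u_m, uc_E, uc_E]
        by_cases hτ : τ = t
        · rw [hτ, uE_tu_t A _ htr hus, uE_tu_t (uobj A p q) _ htr hus, map_zero]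
        · rw [uE_tu_ne A _ htr hus hτ, uE_tu_ne (uobj A p q) _ htr hus hτ, ThA_u_m,
            ThA_E A ht hu]

private theorem ThA_umem (A : BN k P Q) {p r : P} {q s : Q} (hpr : p ≠ r) (hqs : q ≠ s)
    (b : (uobj A r s).M) (hb : (uobj A r s).E p q b = b) :
    (uobj (uobj A p q) r s).E p q (ThA_u A hpr hqs b) = ThA_u A hpr hqs b := by
  have hp := ThA_coord A hpr hqs b hb
  refine uobj_ext ?_ fun τ => ?_
  · rw [uc_E, uE_tu_v (uobj A p q) _ hpr hqs, ThA_u_v, ThA_Epq]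
  · rw [uc_E]
    by_cases hτ : τ = p
    · rw [hτ, uE_tu_t (uobj A p q) _ hpr hqs, ThA_u_m, hp, map_zero]
    · rw [uE_tu_ne (uobj A p q) _ hpr hqs hτ, ThA_u_m, ThA_Epq]

theorem exists_theta (A : BN k P Q) {p r : P} {q s : Q} (hpr : p ≠ r) (hqs : q ≠ s) :
    ∃ Θ : Hom (uobj (uobj A r s) p q) (uobj (uobj A p q) r s), ∀ a,
      Θ.1 (uin (uobj A r s) p q p (uin A r s r a)) =
        uin (uobj A p q) r s r (uin A p q p a) := by
  obtain ⟨F, hF, -⟩ := U_hom (uobj A r s) (uobj (uobj A p q) r s) p q (ThA_u A hpr hqs)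
    ⟨fun b hb => ThA_umem A hpr hqs b hb, fun t b ht hb => ThA_ux A hpr hqs t b ht hb,
      fun t t' b htt ht ht' hb => ThA_uS A hpr hqs t t' b htt ht ht' hb,
      fun t u b ht hu hb => ThA_uE A hpr hqs t u b ht hu hb⟩
  refine ⟨F, fun a => ?_⟩
  have h1 : uin (uobj A r s) p q p (uin A r s r a) =
      ugen (uobj A r s) p q ((uobj A r s).E p q (uin A r s r a)) ((uobj A r s).E_idem _ _ _) := by
    rw [ThA_ugen, ThA_uin_E]
  rw [h1, hF]
  refine uobj_ext ?_ fun τ => ?_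
  · rw [ThA_u_v, uc_E, uE_tu_v A _ hpr hqs, uc_uin_v, uc_uin_v, map_zero, map_zero]
  · rw [ThA_u_m, uc_E, uc_uin_m]
    by_cases hτ : τ = p
    · rw [hτ, uE_tu_t A _ hpr hqs, map_zero, if_neg hpr]
    · rw [uE_tu_ne A _ hpr hqs hτ, uc_uin_m, ThA_uin_E]
      by_cases hτr : τ = r
      · rw [if_pos hτr, if_pos hτr, ThA_E A hpr.symm hqs.symm]
      · rw [if_neg hτr, if_neg hτr, map_zero]

/-- `uiv` is `x r` of `uin r` -/
private theorem ThA_uiv_eq (A : BN k P Q) (r : P) (s : Q) (a : A.M) :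
    uiv A r s a = (uobj A r s).x r (uin A r s r a) := by
  refine uobj_ext ?_ fun τ => ?_
  · rw [uc_x, ux_p_v, uc_uiv_v, uc_uin_m, if_pos rfl]
  · rw [uc_x, uc_uiv_m]
    by_cases hτ : τ = r
    · rw [hτ, ux_p_p]
    · rw [ux_p_ne A _ hτ, uc_uin_m, if_neg hτ, map_zero]

/-- `uin τ` is `S r τ` of `uin r` -/
private theorem ThA_uin_eq (A : BN k P Q) {r : P} (s : Q) {τ : P} (hτ : τ ≠ r) (a : A.M) :
    uin A r s τ a = (uobj A r s).S r τ (uin A r s r a) := by
  refine uobj_ext ?_ fun σ => ?_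
  · rw [uc_S, uS_p A hτ, uS1_v, uc_uin_v, uc_uin_m, if_neg hτ]
  · rw [uc_S, uS_p A hτ, uc_uin_m]
    by_cases hσ : σ = r
    · rw [hσ, uS1_p, uc_uin_m, if_neg hτ, map_zero, if_neg hτ.symm]
    · by_cases hστ : σ = τ
      · rw [hστ, uS1_self A _ hτ, uc_uin_m, if_pos rfl, if_pos rfl, uc_uin_v, map_zero, add_zero]
      · rw [uS1_ne A _ hσ hστ, uc_uin_m, if_neg hσ, map_zero, if_neg hστ]

theorem double_ext (A C : BN k P Q) {p r : P} {q s : Q} (hpr : p ≠ r) (hqs : q ≠ s)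
    (F F' : Hom (uobj (uobj A r s) p q) C)
    (h : ∀ a, F.1 (uin (uobj A r s) p q p (uin A r s r a)) =
      F'.1 (uin (uobj A r s) p q p (uin A r s r a))) : F = F' := by
  refine U_ext (uobj A r s) C p q F F' fun b hb => ?_
  rw [ThA_ugen]
  have hp := ThA_coord A hpr hqs b hb
  have hx : ∀ (t : P) (c : (uobj A r s).M), t ≠ p →
      F.1 (uin (uobj A r s) p q p c) = F'.1 (uin (uobj A r s) p q p c) →
      F.1 (uin (uobj A r s) p q p ((uobj A r s).x t c)) =
        F'.1 (uin (uobj A r s) p q p ((uobj A r s).x t c)) := by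
    intro t c ht hc
    rw [← ThA_x (uobj A r s) q ht, F.2.1, F'.2.1, hc]
  have hS : ∀ (t t' : P) (c : (uobj A r s).M), t ≠ t' → t ≠ p → t' ≠ p →
      F.1 (uin (uobj A r s) p q p c) = F'.1 (uin (uobj A r s) p q p c) →
      F.1 (uin (uobj A r s) p q p ((uobj A r s).S t t' c)) =
        F'.1 (uin (uobj A r s) p q p ((uobj A r s).S t t' c)) := by
    intro t t' c htt ht ht' hc
    rw [← ThA_S (uobj A r s) q htt ht ht', F.2.2.1 _ _ _ htt, F'.2.2.1 _ _ _ htt, hc]
  have h0 : ∀ c : (uobj A r s).M, c = uiv A r s (uc A r s b).1 +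
      ∑ τ, uin A r s τ ((uc A r s b).2 τ) →
      F.1 (uin (uobj A r s) p q p c) = F'.1 (uin (uobj A r s) p q p c) := by
    intro c hc
    rw [hc, map_add, map_add, map_add, map_sum, map_sum, map_sum]
    have h1 : F.1 (uin (uobj A r s) p q p (uiv A r s (uc A r s b).1)) =
        F'.1 (uin (uobj A r s) p q p (uiv A r s (uc A r s b).1)) := by
      rw [ThA_uiv_eq]
      exact hx r _ hpr.symm (h _)
    rw [h1]
    refine congrArg _ (Finset.sum_congr rfl fun τ _ => ?_)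
    by_cases hτ : τ = r
    · subst hτ
      exact h _
    · by_cases hτp : τ = p
      · rw [hτp, hp, map_zero, map_zero, map_zero, map_zero]
      · rw [ThA_uin_eq A s hτ]
        exact hS r τ _ (Ne.symm hτ) hpr.symm hτp (h _)
  exact h0 b (uobj_eq A r s b)

end Pool.Agent.Lib.MP_f2e65a_lc
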