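import Pool.Agent.Lib.MP_f2e65a_lc.ThA

/-! # ThB: properties of the isomorphism `U p q (U r s A) ≃ U r s (U p q A)`

`theta` is determined by `theta_uin`.
* `theta_inv`: both compositions are the identity by `double_ext` and `theta_uin`.
* `theta_nat`: `double_ext`: `U p q (U r s g) (uin p (uin r a)) = uin p (uin r (g a))` (`uc_map`, `umapW_v`, `umapW_m`, `g` commutes with `E`), and the same for `U r s (U p q g)`.
* `theta_eta`: both sides are morphisms from `uobj A r s`; by `U_ext` compare them on `uin A r s r a` (`= ugen`), `E r s a = a`.  For `b = uin r a` (only the coordinate `r`, `a`):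
 `η_pq b = x p (uin p (E p q b)) + uin p (x p (E p q b)) + ∑_{τ ≠ p} S p τ (uin p (S p τ (E τ q b)))` in `uobj (uobj A r s) p q` (`uobj_ext`, `uη_v`, `uη_p`, `uη_ne`, `ux_p_*`, `uS1_*`), and
 `E p q b = uin r (E p q a)`, `x p (uin r a') = uin r (x p a')`, `S p τ (E τ q b) = uin r (S p τ (E τ q a))` for `τ ≠ p, r`, and `E r q b = 0` (`uE_pu_*`: coordinates `0` and, at `τ ≠ r`, `E τ q 0`).  Apply `Θ` (a morphism):
 `x p (uin r (uin p (E p q a))) + uin r (uin p (x p (E p q a))) + ∑_{τ ≠ p, r} S p τ (uin r (uin p (S p τ (E τ q a))))`; in `U r s (U p q A)` the operators `x p`, `S p τ` (`p, τ ≠ r`) act on the coordinate `r` by those of `U p q A`: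
 `= uin r (x p (uin p (E p q a)) + uin p (x p (E p q a)) + ∑_{τ ≠ p, r} S p τ (uin p (S p τ (E τ q a)))) = uin r (η_pq a)`, the term `τ = r` is missing, but `S p r (E r q a) = 0` as `E r s a = a`, `q ≠ s` (`E_row`).
 The right side: `U r s (η_pq) (uin r a) = uin r (η_pq a)`.
* `theta_eta'`: morphisms from `uobj A p q`; compare on `uin A p q p a`, `E p q a = a`: `U p q (η_rs) (uin p a) = uin p (η_rs a)`, and
 `η_rs a = x r (uin r (E r s a)) + uin r (x r (E r s a)) + ∑_{τ ≠ r} S r τ (uin r (S r τ (E τ s a)))`, the term `τ = p` vanishes (`E p s a = 0`, as `E p q a = a`); for `t, t' ≠ p`: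
 `uin p (x t b) = x t (uin p b)`, `uin p (S t t' b) = S t t' (uin p b)` (in `U p q B`), so `Θ (uin p (η_rs a)) = x r (uin r (uin p (E r s a))) + uin r (uin p (x r (E r s a))) + ∑_{τ ≠ r, p} S r τ (uin r (uin p (S r τ (E τ s a))))`, and this is
 `η_rs (uin p a)` in `U r s (U p q A)`: `E r s (uin p a) = uin p (E r s a)`, `S r τ (E τ s (uin p a)) = uin p (S r τ (E τ s a))` for `τ ≠ p, r`, and `E p s (uin p a) = 0` (`uE_pu_*`). -/

set_option autoImplicit false
set_option linter.unusedVariables false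
set_option linter.unusedSectionVars false

namespace Pool.Agent.Lib.MP_f2e65a_lc

variable {k : Type} [Field k] {P Q : Type} [Fintype P] [DecidableEq P] [Fintype Q]
  [DecidableEq Q]

/-! ### inclusions of coordinates -/

private theorem ThB_ueta (A : BN k P Q) (p : P) (q : Q) (m : A.M) :
    uc A p q ((ueta A p q).1 m) = uη A p q m := rfl

private theorem ThB_umap {A B : BN k P Q} (g : Hom A B) (p : P) (q : Q) (w : (uobj A p q).M) :
    uc B p q ((umap g p q).1 w) = umapW g (uc A p q w) := rfl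

private theorem ThB_swap {t s p : P} (ht : t ≠ p) (hs : s ≠ p) (σ : P) :
    Equiv.swap t s σ = p ↔ σ = p := by
  have h0 : Equiv.swap t s p = p := Equiv.swap_apply_of_ne_of_ne (Ne.symm ht) (Ne.symm hs)
  constructor
  · intro h
    exact (Equiv.swap t s).injective (h.trans h0.symm)
  · rintro rfl
    exact h0

private theorem ThB_uin_x (A : BN k P Q) (p : P) (q : Q) (τ t : P) (ht : t ≠ p) (u : A.M) :
    (uobj A p q).x t (uin A p q τ u) = uin A p q τ (A.x t u) := by
  refine uobj_ext ?_ fun σ => ?_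
  · rw [uc_x, ux_ne_v A _ ht, uc_uin_v, uc_uin_v, map_zero]
  · rw [uc_x, ux_ne A _ ht, uc_uin_m, uc_uin_m]
    split_ifs with h
    · exact A.x_E _ _ _ _
    · exact map_zero _

private theorem ThB_uin_x' (A : BN k P Q) (p : P) (q : Q) (τ : P) (hτ : τ ≠ p) (u : A.M) :
    (uobj A p q).x p (uin A p q τ u) = uin A p q τ (A.x τ u) := by
  refine uobj_ext ?_ fun σ => ?_
  · rw [uc_x, ux_p_v, uc_uin_v, uc_uin_m, if_neg (Ne.symm hτ)]
  · rw [uc_x, uc_uin_m]
    by_cases h : σ = p
    · subst h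
      rw [ux_p_p, if_neg (Ne.symm hτ)]
    · rw [ux_p_ne A _ h, uc_uin_m]
      split_ifs with h'
      · subst h'
        exact A.x_E _ _ _ _
      · exact map_zero _

private theorem ThB_uin_S (A : BN k P Q) (p : P) (q : Q) (τ t s : P) (hts : t ≠ s)
    (ht : t ≠ p) (hs : s ≠ p) (ht' : t ≠ τ) (hs' : s ≠ τ) (u : A.M) :
    (uobj A p q).S t s (uin A p q τ u) = uin A p q τ (A.S t s u) := by
  refine uobj_ext ?_ fun σ => ?_
  · rw [uc_S, uS_ne_v A _ hts ht hs, uc_uin_v, uc_uin_v, map_zero]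
  · rw [uc_S, uS_ne A _ hts ht hs, uc_uin_m, uc_uin_m]
    by_cases h : σ = τ
    · rw [if_pos h, if_pos ((ThB_swap ht' hs' σ).2 h)]
      exact A.S_E' t s p q _ hts (Ne.symm ht) (Ne.symm hs)
    · rw [if_neg h, if_neg fun h' => h ((ThB_swap ht' hs' σ).1 h'), map_zero]

private theorem ThB_uin_S' (A : BN k P Q) (p : P) (q : Q) (τ s : P) (hτ : τ ≠ p) (hs : s ≠ p)
    (hs' : s ≠ τ) (u : A.M) :
    (uobj A p q).S p s (uin A p q τ u) = uin A p q τ (A.S τ s u) := by
  refine uobj_ext ?_ fun σ => ?_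
  · rw [uc_S, uS_p A hs, uS1_v, uc_uin_v, uc_uin_m, if_neg hs']
  · rw [uc_S, uS_p A hs, uc_uin_m A p q τ σ (A.S τ s u)]
    by_cases h : σ = p
    · subst h
      rw [uS1_p, uc_uin_m, if_neg hs', if_neg (Ne.symm hτ), map_zero]
    · by_cases h' : σ = s
      · subst h'
        rw [uS1_self A _ hs, uc_uin_v, uc_uin_m, if_neg (Ne.symm hτ), if_neg hs', map_zero,
          add_zero]
      · rw [uS1_ne A _ h h', uc_uin_m]
        split_ifs with h3
        · subst h3
          exact A.S_E' σ s p q _ h' (Ne.symm h) (Ne.symm hs)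
        · exact map_zero _

private theorem ThB_uin_S1 (A : BN k P Q) (p : P) (q : Q) (r : P) (hr : r ≠ p) (u : A.M) :
    (uobj A p q).S p r (uin A p q p u) = uin A p q r u := by
  refine uobj_ext ?_ fun σ => ?_
  · rw [uc_S, uS_p A hr, uS1_v, uc_uin_v, uc_uin_m, if_neg hr]
  · rw [uc_S, uS_p A hr, uc_uin_m A p q r σ u]
    by_cases h : σ = p
    · subst h
      rw [uS1_p, uc_uin_m, if_neg hr, if_neg (Ne.symm hr), map_zero]
    · by_cases h' : σ = r
      · subst h'
        rw [uS1_self A _ hr, uc_uin_v, uc_uin_m, if_pos rfl, if_pos rfl, map_zero, add_zero]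
      · rw [uS1_ne A _ h h', uc_uin_m, if_neg h, if_neg h', map_zero]

private theorem ThB_uin_E (A : BN k P Q) (p : P) (q : Q) (τ t : P) (s : Q) (ht : t ≠ p)
    (hs : s ≠ q) (ht' : t ≠ τ) (u : A.M) :
    (uobj A p q).E t s (uin A p q τ u) = uin A p q τ (A.E t s u) := by
  refine uobj_ext ?_ fun σ => ?_
  · rw [uc_E, uE_tu_v A _ ht hs, uc_uin_v, uc_uin_v, map_zero]
  · rw [uc_E, uc_uin_m A p q τ σ (A.E t s u)]
    by_cases hσ : σ = t
    · subst hσ
      rw [uE_tu_t A _ ht hs, if_neg ht']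
    · rw [uE_tu_ne A _ ht hs hσ, uc_uin_m]
      split_ifs with h
      · exact A.E_E _ _ _ _ _
      · exact map_zero _

private theorem ThB_uin_E' (A : BN k P Q) (p : P) (q : Q) (τ : P) (s : Q) (hτ : τ ≠ p)
    (hs : s ≠ q) (u : A.M) :
    (uobj A p q).E p s (uin A p q τ u) = uin A p q τ (A.E τ s u) := by
  refine uobj_ext ?_ fun σ => ?_
  · rw [uc_E, uE_pu_v A _ hs, uc_uin_v]
  · rw [uc_E, uc_uin_m A p q τ σ (A.E τ s u)]
    by_cases hσ : σ = p
    · subst hσ
      rw [uE_pu_p A _ hs, if_neg (Ne.symm hτ)]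
    · rw [uE_pu_ne A _ hs hσ, uc_uin_m]
      split_ifs with h
      · subst h
        exact A.E_E _ _ _ _ _
      · exact map_zero _

private theorem ThB_uin_E0 (A : BN k P Q) (p : P) (q : Q) (u : A.M) :
    (uobj A p q).E p q (uin A p q p u) = uin A p q p u := by
  refine uobj_ext ?_ fun σ => ?_
  · rw [uc_E, uE_pq_v]
  · rw [uc_E]
    by_cases h : σ = p
    · subst h
      rw [uE_pq_p]
    · rw [uE_pq_ne A _ h, uc_uin_m, if_neg h]

private theorem ThB_uin_E1 (A : BN k P Q) (p : P) (q : Q) (τ : P) (hτ : τ ≠ p) (u : A.M) :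
    (uobj A p q).E τ q (uin A p q τ u) = uin A p q τ u := by
  refine uobj_ext ?_ fun σ => ?_
  · rw [uc_E, uE_tq_v A _ hτ, uc_uin_v]
  · rw [uc_E]
    by_cases h : σ = τ
    · subst h
      rw [uE_tq_t A _ hτ]
    · rw [uE_tq_ne A _ hτ h, uc_uin_m, if_neg h]

private theorem ThB_uin_map {A B : BN k P Q} (g : Hom A B) (p : P) (q : Q) (τ : P) (u : A.M) :
    (umap g p q).1 (uin A p q τ u) = uin B p q τ (g.1 u) := by
  refine uobj_ext ?_ fun σ => ?_
  · rw [ThB_umap, umapW_v, uc_uin_v, uc_uin_v, map_zero]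
  · rw [ThB_umap, umapW_m, uc_uin_m, uc_uin_m]
    split_ifs with h
    · exact g.2.2.2 _ _ _
    · exact map_zero _

/-- the natural map on the part of the closures which join `t` to `q` -/
private theorem ThB_eta_ne (B : BN k P Q) (p : P) (q : Q) (t : P) (ht : t ≠ p) (b : B.M)
    (hb : B.E t q b = b) : (ueta B p q).1 b = uin B p q t (B.S p t b) := by
  have h1 : ∀ σ, σ ≠ t → B.E σ q b = 0 := by
    intro σ hσ
    rw [← hb, B.E_col _ _ _ _ hσ]
  have h2 : B.E p q (B.S p t b) = B.S p t b := by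
    rw [B.S_symm _ _ _ (Ne.symm ht)]
    conv_rhs => rw [← hb]
    exact (B.S_E t p q b ht).symm
  refine uobj_ext ?_ fun σ => ?_
  · rw [ThB_ueta, uη_v, uc_uin_v, h1 p (Ne.symm ht)]
  · rw [ThB_ueta, uc_uin_m]
    by_cases h : σ = p
    · subst h
      rw [uη_p, h1 σ (Ne.symm ht), map_zero, if_neg (Ne.symm ht)]
    · rw [uη_ne B _ h]
      by_cases h' : σ = t
      · subst h'
        rw [if_pos rfl, hb, h2]
      · rw [if_neg h', h1 σ h', map_zero]

/-- the natural map on the part of the closures which join `p` to `q` -/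
private theorem ThB_eta_p (B : BN k P Q) (p : P) (q : Q) (b : B.M) (hb : B.E p q b = b) :
    (ueta B p q).1 b = (uobj B p q).x p (uin B p q p b) + uin B p q p (B.x p b) := by
  have h1 : ∀ σ, σ ≠ p → B.E σ q b = 0 := by
    intro σ hσ
    rw [← hb, B.E_col _ _ _ _ hσ]
  have h2 : uc B p q ((uobj B p q).x p (uin B p q p b) + uin B p q p (B.x p b)) =
      ux B p p (uc B p q (uin B p q p b)) + uc B p q (uin B p q p (B.x p b)) := by
    rw [map_add, uc_x]
  refine uobj_ext ?_ fun σ => ?_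
  · rw [h2]
    change (uη B p q b).1 = (ux B p p (uc B p q (uin B p q p b))).1 +
      (uc B p q (uin B p q p (B.x p b))).1
    rw [uη_v, hb, ux_p_v, uc_uin_v, uc_uin_m, if_pos rfl, hb, add_zero]
  · rw [h2]
    change (uη B p q b).2 σ = (ux B p p (uc B p q (uin B p q p b))).2 σ +
      (uc B p q (uin B p q p (B.x p b))).2 σ
    rw [uc_uin_m B p q p σ (B.x p b)]
    by_cases h : σ = p
    · subst h
      rw [uη_p, ux_p_p, if_pos rfl, hb, ← B.x_E, hb, zero_add]
    · rw [uη_ne B _ h, ux_p_ne B _ h, if_neg h, h1 σ h, uc_uin_m, if_neg h, map_zero, map_zero,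
        add_zero]

/-- the natural map on the part of the closures which join `t` to `q` -/
private theorem ThB_eta_t (B : BN k P Q) (p : P) (q : Q) (t : P) (ht : t ≠ p) (b : B.M)
    (hb : B.E t q b = b) :
    (ueta B p q).1 b = (uobj B p q).S p t (uin B p q p (B.S p t b)) := by
  rw [ThB_uin_S1 _ _ _ _ ht, ThB_eta_ne B p q t ht b hb]

private theorem ThB_ugen (B : BN k P Q) (p : P) (q : Q) (b : B.M) (hb : B.E p q b = b) :
    ugen B p q b hb = uin B p q p b := by
  refine uobj_ext rfl fun σ => ?_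
  rw [uc_uin_m]
  change Pi.single (M := fun _ => B.M) p b σ = _
  by_cases h : σ = p
  · subst h
    rw [Pi.single_eq_same, if_pos rfl, hb]
  · rw [Pi.single_eq_of_ne h, if_neg h]

/-- the projection to the closures which join `p` to `u ≠ q` -/
private theorem ThB_uin_E2 (A : BN k P Q) (p : P) (q : Q) (s : Q) (hs : s ≠ q) (u : A.M) :
    (uobj A p q).E p s (uin A p q p u) = 0 := by
  refine uobj_ext ?_ fun σ => ?_
  · rw [uc_E, uE_pu_v A _ hs, map_zero]
    rfl
  · rw [uc_E, map_zero]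
    change _ = (0 : A.M)
    by_cases hσ : σ = p
    · subst hσ
      rw [uE_pu_p A _ hs]
    · rw [uE_pu_ne A _ hs hσ, uc_uin_m, if_neg hσ, map_zero]

/-- the isomorphism -/
noncomputable def theta (A : BN k P Q) {p r : P} {q s : Q} (hpr : p ≠ r) (hqs : q ≠ s) :
    Hom (uobj (uobj A r s) p q) (uobj (uobj A p q) r s) :=
  (exists_theta A hpr hqs).choose

theorem theta_uin (A : BN k P Q) {p r : P} {q s : Q} (hpr : p ≠ r) (hqs : q ≠ s) (a : A.M) :
    (theta A hpr hqs).1 (uin (uobj A r s) p q p (uin A r s r a)) =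
      uin (uobj A p q) r s r (uin A p q p a) :=
  (exists_theta A hpr hqs).choose_spec a

theorem theta_inv (A : BN k P Q) {p r : P} {q s : Q} (hpr : p ≠ r) (hqs : q ≠ s) :
    cmp (theta A hpr.symm hqs.symm) (theta A hpr hqs) = idH (uobj (uobj A r s) p q) := by
  refine double_ext A (uobj (uobj A r s) p q) hpr hqs _ _ fun a => ?_
  rw [cmp_apply, theta_uin, idH_apply]
  exact theta_uin A hpr.symm hqs.symm a

theorem theta_nat {A B : BN k P Q} (g : Hom A B) {p r : P} {q s : Q} (hpr : p ≠ r)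
    (hqs : q ≠ s) : cmp (theta B hpr hqs) ((U k p q).map ((U k r s).map g)) =
      cmp ((U k r s).map ((U k p q).map g)) (theta A hpr hqs) := by
  refine double_ext A (uobj (uobj B p q) r s) hpr hqs _ _ fun a => ?_
  change (theta B hpr hqs).1 ((umap (umap g r s) p q).1
    (uin (uobj A r s) p q p (uin A r s r a))) =
    (umap (umap g p q) r s).1 ((theta A hpr hqs).1 (uin (uobj A r s) p q p (uin A r s r a)))
  rw [theta_uin, ThB_uin_map, ThB_uin_map, ThB_uin_map, ThB_uin_map, theta_uin]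

theorem theta_eta (A : BN k P Q) {p r : P} {q s : Q} (hpr : p ≠ r) (hqs : q ≠ s) :
    cmp (theta A hpr hqs) ((U k p q).eta (uobj A r s)) =
      (U k r s).map ((U k p q).eta A) := by
  have hrp : r ≠ p := hpr.symm
  have key : ∀ (τ : P) (a : A.M), τ ≠ r → A.E τ q a = a →
      (theta A hpr hqs).1 ((ueta (uobj A r s) p q).1 (uin A r s r a)) =
        (umap (ueta A p q) r s).1 (uin A r s r a) := by
    intro τ a hτ ha
    have hb : (uobj A r s).E τ q (uin A r s r a) = uin A r s r a := by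
      rw [ThB_uin_E _ _ _ _ _ _ hτ hqs hτ, ha]
    rw [ThB_uin_map]
    by_cases h : τ = p
    · subst h
      rw [ThB_eta_p _ _ _ _ hb, ThB_eta_p _ _ _ _ ha, map_add, (theta A hpr hqs).2.1,
        theta_uin, ThB_uin_x A _ _ _ _ hpr, theta_uin, ThB_uin_x _ _ _ _ _ hpr, map_add]
    · rw [ThB_eta_t _ _ _ _ h _ hb, ThB_eta_t _ _ _ _ h _ ha,
        (theta A hpr hqs).2.2.1 _ _ _ (Ne.symm h),
        ThB_uin_S _ _ _ _ _ _ (Ne.symm h) hpr hτ hpr hτ, theta_uin,
        ThB_uin_S _ _ _ _ _ _ (Ne.symm h) hpr hτ hpr hτ]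
  have key2 : ∀ a : A.M, (theta A hpr hqs).1 ((ueta (uobj A r s) p q).1 (uin A r s r a)) =
        (umap (ueta A p q) r s).1 (uin A r s r a) := by
    intro a
    rw [← (uobj A r s).sum_col q (uin A r s r a), map_sum, map_sum, map_sum]
    refine Finset.sum_congr rfl fun τ _ => ?_
    by_cases hτ : τ = r
    · subst hτ
      rw [ThB_uin_E2 _ _ _ _ hqs, map_zero, map_zero, map_zero]
    · rw [ThB_uin_E _ _ _ _ _ _ hτ hqs hτ]
      exact key τ _ hτ (A.E_idem _ _ _)
  refine U_ext A (uobj (uobj A p q) r s) r s _ _ fun b hb => ?_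
  rw [ThB_ugen]
  exact key2 b

theorem theta_eta' (A : BN k P Q) {p r : P} {q s : Q} (hpr : p ≠ r) (hqs : q ≠ s) :
    cmp (theta A hpr hqs) ((U k p q).map ((U k r s).eta A)) =
      (U k r s).eta (uobj A p q) := by
  have hrp : r ≠ p := hpr.symm
  have hsq : s ≠ q := hqs.symm
  have key : ∀ (τ : P) (a : A.M), τ ≠ p → A.E τ s a = a →
      (theta A hpr hqs).1 ((umap (ueta A r s) p q).1 (uin A p q p a)) =
        (ueta (uobj A p q) r s).1 (uin A p q p a) := by
    intro τ a hτ ha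
    have hb : (uobj A p q).E τ s (uin A p q p a) = uin A p q p a := by
      rw [ThB_uin_E _ _ _ _ _ _ hτ hsq hτ, ha]
    rw [ThB_uin_map]
    by_cases h : τ = r
    · subst h
      rw [ThB_eta_p _ _ _ _ hb, ThB_eta_p _ _ _ _ ha, map_add, map_add,
        ← ThB_uin_x _ _ _ _ _ hrp, (theta A hpr hqs).2.1, theta_uin, theta_uin,
        ThB_uin_x A _ _ _ _ hrp]
    · rw [ThB_eta_t _ _ _ _ h _ hb, ThB_eta_t _ _ _ _ h _ ha,
        ← ThB_uin_S _ _ _ _ _ _ (Ne.symm h) hrp hτ hrp hτ,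
        (theta A hpr hqs).2.2.1 _ _ _ (Ne.symm h), theta_uin,
        ThB_uin_S A _ _ _ _ _ (Ne.symm h) hrp hτ hrp hτ]
  have key2 : ∀ a : A.M, (theta A hpr hqs).1 ((umap (ueta A r s) p q).1 (uin A p q p a)) =
        (ueta (uobj A p q) r s).1 (uin A p q p a) := by
    intro a
    rw [← (uobj A p q).sum_col s (uin A p q p a), map_sum, map_sum, map_sum]
    refine Finset.sum_congr rfl fun τ _ => ?_
    by_cases hτ : τ = p
    · subst hτ
      rw [ThB_uin_E2 _ _ _ _ hsq, map_zero, map_zero, map_zero]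
    · rw [ThB_uin_E _ _ _ _ _ _ hτ hsq hτ]
      exact key τ _ hτ (A.E_idem _ _ _)
  refine U_ext A (uobj (uobj A p q) r s) p q _ _ fun b hb => ?_
  rw [ThB_ugen]
  exact key2 b

end Pool.Agent.Lib.MP_f2e65a_lc
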