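import Pool.Agent.Lib.MP_f2e65a_lc.UDefs

/-! # UE: the isomorphism `uΦ` commutes with the projections

`subst he hf` first (`p = e none`, `q = f none`).  Both sides are elements of `CupM N`, `N = capObj B`, `B = (relabel e f).obj A`
(`B.x t = A.x (e t)`, `B.S t s = A.S (e t) (e s)`, `B.E t s = A.E (e t) (f s)` by `rfl`).  By `CupM.ext` (three coordinates: `1`, `2 none`,
`2 (some r)`) and `capι_injective` it is enough to compare the images of the coordinates under `capι B`; `uΦ_v`, `uΦ_m` (both `rfl`, use `change` or
`rw`) give `w.1.1`, `w.1.2 (e τ)`, and `capι_E` moves `capι B` through `N.E`.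
Four cases: `t`, `s` `none` or `some`; the coordinates are `cupE_nn_v`, `cupE_nn_none`, `cupE_nn_some` and `uE_pq_v`, `uE_pq_p`, `uE_pq_ne`;
`cupE_ns_*` and `uE_pu_*`; `cupE_sn_*` (cases `r = t`, `r ≠ t`) and `uE_tq_*`; `cupE_ss_*` and `uE_tu_*`; `e (some r) ≠ e none`, `f (some s) ≠ f none`,
`e (some r) = e (some t)` iff `r = t`. -/

set_option autoImplicit false
set_option linter.unusedVariables false

namespace Pool.Agent.Lib.MP_f2e65a_lc

variable {k : Type} [Field k] {P Q : Type} [Fintype P] [DecidableEq P] [Fintype Q]
  [DecidableEq Q] {P' Q' : Type} [Fintype P'] [DecidableEq P'] [Fintype Q'] [DecidableEq Q']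

theorem uΦ_E (A : BN k P Q) {p : P} {q : Q} (e : Option P' ≃ P) (f : Option Q' ≃ Q)
    (he : e none = p) (hf : f none = q) (t : Option P') (s : Option Q') (w : Usub A p q) :
    uΦ A e f he hf (uER A p q (e t) (f s) w) =
      cupE (capObj ((relabel e f).obj A)) t s (uΦ A e f he hf w) := by
  subst he hf
  have hne : ∀ r : P', e (some r) ≠ e none := fun r h => by
    have := e.injective h
    exact absurd this (by simp)
  have hne' : ∀ r : P', e none ≠ e (some r) := fun r => (hne r).symm
  have hnf : ∀ r : Q', f (some r) ≠ f none := fun r h => by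
    have := f.injective h
    exact absurd this (by simp)
  have hns : ∀ r t : P', r ≠ t → e (some r) ≠ e (some t) := fun r t h h' => by
    have := e.injective h'
    exact h (Option.some.inj this)
  rcases t with _ | t <;> rcases s with _ | s
  · refine CupM.ext ?_ ?_ ?_
    · apply capι_injective
      exact uE_pq_v A w.1
    · apply capι_injective
      exact uE_pq_p A w.1
    · intro r
      apply capι_injective
      exact (uE_pq_ne A w.1 (hne r)).trans (map_zero (capι ((relabel e f).obj A))).symm
  · refine CupM.ext ?_ ?_ ?_
    · apply capι_injective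
      exact (uE_pu_v A w.1 (hnf s)).trans (map_zero (capι ((relabel e f).obj A))).symm
    · apply capι_injective
      exact (uE_pu_p A w.1 (hnf s)).trans (map_zero (capι ((relabel e f).obj A))).symm
    · intro r
      apply capι_injective
      exact uE_pu_ne A w.1 (hnf s) (hne r)
  · refine CupM.ext ?_ ?_ ?_
    · apply capι_injective
      exact (uE_tq_v A w.1 (hne t)).trans (map_zero (capι ((relabel e f).obj A))).symm
    · apply capι_injective
      exact (uE_tq_ne A w.1 (hne t) (hne' t)).trans
        (map_zero (capι ((relabel e f).obj A))).symm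
    · intro r
      apply capι_injective
      by_cases hr : r = t
      · subst hr
        exact (uE_tq_t A w.1 (hne r)).trans
          (congrArg (capι ((relabel e f).obj A))
            (cupE_sn_self (capObj ((relabel e f).obj A)) (uΦ A e f rfl rfl w) r)).symm
      · exact (uE_tq_ne A w.1 (hne t) (hns r t hr)).trans
          ((congrArg (capι ((relabel e f).obj A))
            (cupE_sn_ne (capObj ((relabel e f).obj A)) (uΦ A e f rfl rfl w) r t hr)).trans
              (map_zero (capι ((relabel e f).obj A)))).symm
  · refine CupM.ext ?_ ?_ ?_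
    · apply capι_injective
      exact uE_tu_v A w.1 (hne t) (hnf s)
    · apply capι_injective
      exact uE_tu_ne A w.1 (hne t) (hnf s) (hne' t)
    · intro r
      apply capι_injective
      by_cases hr : r = t
      · subst hr
        exact (uE_tu_t A w.1 (hne r) (hnf s)).trans
          ((congrArg (capι ((relabel e f).obj A))
            (cupE_ss_self (capObj ((relabel e f).obj A)) (uΦ A e f rfl rfl w) s r)).trans
              (map_zero (capι ((relabel e f).obj A)))).symm
      · exact (uE_tu_ne A w.1 (hne t) (hnf s) (hns r t hr)).trans
          (congrArg (capι ((relabel e f).obj A))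
            (cupE_ss_ne (capObj ((relabel e f).obj A)) (uΦ A e f rfl rfl w) s r t hr)).symm

end Pool.Agent.Lib.MP_f2e65a_lc
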