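import Pool.Agent.Lib.MP_f2e65a_lc.UDefs

/-! # US: the isomorphism `uΦ` commutes with the saddles

`subst he hf` first (`p = e none`, `q = f none`).  Both sides are elements of `CupM N`, `N = capObj B`, `B = (relabel e f).obj A`
(`B.x t = A.x (e t)`, `B.S t s = A.S (e t) (e s)`, `B.E t s = A.E (e t) (f s)` by `rfl`).  By `CupM.ext` (three coordinates: `1`, `2 none`,
`2 (some r)`) and `capι_injective` it is enough to compare the images of the coordinates under `capι B`; `uΦ_v`, `uΦ_m` (both `rfl`, use `change` or
`rw`) give `w.1.1`, `w.1.2 (e τ)`, and `capι_x`, `capι_S` move `capι B` through `N.x`, `N.S` (`capι_S` needs different indices).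
* `t = none`, `s = some r` or conversely (`cupS N none (some r) = cupS N (some r) none = cupS1 N r` by `rfl`; `uS_p`, `uS_p'`: `uS1 A p (e (some r))`).  State a
 lemma for `uS1` and `cupS1`: coordinates of `cupS1 N r z` (`cupS1_v`, `cupS1_none`, `cupS1_self`, `cupS1_ne`): `z.2 (some r)`,
 `N.x r (z.2 (some r))`, `z.2 none + N.x r z.1` at `some r`, `N.S t r (z.2 (some t))` at `some t`, `t ≠ r`; coordinates of
 `uS1 A p r' w`: `uS1_v`, `uS1_p`, `uS1_self`, `uS1_ne`.
* both `some`: `cupS_some_v`, `cupS_some_none`, `cupS_some_some` and `uS_ne_v`, `uS_ne`; `Equiv.swap (e a) (e b) (e c) = e (Equiv.swap a b c)` (`Equiv.swap_apply_def` and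
 injectivity of `e`, or `Function.Injective.swap_apply e.injective`), and `Equiv.swap (some a) (some b) (some c) = some (Equiv.swap a b c)`, `Equiv.swap (some a) (some b) none = none`.
* `none`, `none` is excluded. -/

set_option autoImplicit false
set_option linter.unusedVariables false

namespace Pool.Agent.Lib.MP_f2e65a_lc

variable {k : Type} [Field k] {P Q : Type} [Fintype P] [DecidableEq P] [Fintype Q]
  [DecidableEq Q] {P' Q' : Type} [Fintype P'] [DecidableEq P'] [Fintype Q'] [DecidableEq Q']

private theorem us_S1 (A : BN k P Q) (e : Option P' ≃ P) (f : Option Q' ≃ Q) (r : P')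
    (w w' : Usub A (e none) (f none)) (h : (w' : UW A) = uS1 A (e none) (e (some r)) w) :
    uΦ A e f rfl rfl w' = cupS1 (capObj ((relabel e f).obj A)) r (uΦ A e f rfl rfl w) := by
  have hne : ∀ t : P', e (some t) ≠ e none := fun t h => Option.some_ne_none t (e.injective h)
  refine CupM.ext ?_ ?_ ?_
  · apply capι_injective
    rw [uΦ_v, h]
    rfl
  · apply capι_injective
    rw [uΦ_m, h, uS1_p]
    rfl
  · intro t
    apply capι_injective
    by_cases ht : t = r
    · subst ht
      rw [uΦ_m, h, uS1_self A _ (hne t)]
      exact (((congrArg (capι ((relabel e f).obj A))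
        (cupS1_self (capObj ((relabel e f).obj A)) (uΦ A e f rfl rfl w) t))).trans
          (map_add (capι ((relabel e f).obj A)) _ _)).symm
    · have ht' : e (some t) ≠ e (some r) := fun h' => ht (Option.some.inj (e.injective h'))
      rw [uΦ_m, h, uS1_ne A _ (hne t) ht']
      exact ((congrArg (capι ((relabel e f).obj A))
        (cupS1_ne (capObj ((relabel e f).obj A)) (uΦ A e f rfl rfl w) r t ht)).trans
          (capι_S ((relabel e f).obj A) t r ht _)).symm

theorem uΦ_S (A : BN k P Q) {p : P} {q : Q} (e : Option P' ≃ P) (f : Option Q' ≃ Q)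
    (he : e none = p) (hf : f none = q) (t s : Option P') (h : t ≠ s) (w : Usub A p q) :
    uΦ A e f he hf (uSR A p q (e t) (e s) w) =
      cupS (capObj ((relabel e f).obj A)) t s (uΦ A e f he hf w) := by
  subst he hf
  have hne : ∀ r : P', e (some r) ≠ e none := fun r h => Option.some_ne_none r (e.injective h)
  rcases t with _ | t <;> rcases s with _ | s
  · exact absurd rfl h
  · exact us_S1 A e f s w _ (by rw [uSR_coe, uS_p A (hne s)])
  · exact us_S1 A e f t w _ (by rw [uSR_coe, uS_p' A (hne t)])
  · have hts : t ≠ s := fun h' => h (congrArg some h')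
    have hts' : e (some t) ≠ e (some s) := fun h' => h (e.injective h')
    refine CupM.ext ?_ ?_ ?_
    · apply capι_injective
      rw [uΦ_v, cupS_some_v, capι_S _ _ _ hts, uΦ_v]
      exact uS_ne_v A w.1 hts' (hne t) (hne s)
    · apply capι_injective
      rw [uΦ_m, cupS_some_none, capι_S _ _ _ hts, uΦ_m, uSR_coe,
        uS_ne A w.1 hts' (hne t) (hne s),
        Equiv.swap_apply_of_ne_of_ne (hne t).symm (hne s).symm]
      rfl
    · intro r
      apply capι_injective
      have hinj : Function.Injective fun r : P' => e (some r) := fun a b hab =>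
        Option.some.inj (e.injective hab)
      have hsw : Equiv.swap (e (some t)) (e (some s)) (e (some r)) =
          e (some (Equiv.swap t s r)) := hinj.swap_apply t s r
      rw [uΦ_m, cupS_some_some, capι_S _ _ _ hts, uΦ_m, uSR_coe,
        uS_ne A w.1 hts' (hne t) (hne s), hsw]
      rfl

end Pool.Agent.Lib.MP_f2e65a_lc
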