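import Pool.Agent.Lib.MP_f2e65a_lc.UX
import Pool.Agent.Lib.MP_f2e65a_lc.US
import Pool.Agent.Lib.MP_f2e65a_lc.UE
import Pool.Agent.Lib.MP_f2e65a_lc.EtaA
import Pool.Agent.Lib.MP_f2e65a_lc.EtaB

/-! # The functor `U p q` -/

set_option autoImplicit false
set_option linter.unusedVariables false

namespace Pool.Agent.Lib.MP_f2e65a_lc

variable {k : Type} [Field k] {P Q : Type} [Fintype P] [DecidableEq P] [Fintype Q]
  [DecidableEq Q]

/-- transport of the structure along an injective map -/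
def BN.ofOps (B : BN k P Q) (M : Type) [AddCommGroup M] [Module k M] [FiniteDimensional k M]
    (Φ : M →ₗ[k] B.M) (hΦ : Function.Injective Φ) (x : P → M →ₗ[k] M) (S : P → P → M →ₗ[k] M)
    (E : P → Q → M →ₗ[k] M) (hx : ∀ p m, Φ (x p m) = B.x p (Φ m))
    (hS : ∀ p r m, p ≠ r → Φ (S p r m) = B.S p r (Φ m))
    (hE : ∀ p q m, Φ (E p q m) = B.E p q (Φ m)) : BN k P Q where
  M := M
  x := x
  S := S
  E := E
  x_x p r m := hΦ (by rw [hx, hx, hx, hx, B.x_x])
  x_sq p m := hΦ (by rw [hx, hx, B.x_sq, map_zero])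
  S_symm p r m h := hΦ (by rw [hS _ _ _ h, hS _ _ _ h.symm, B.S_symm _ _ _ h])
  x_S t p r m h := hΦ (by rw [hx, hS _ _ _ h, hS _ _ _ h, hx, B.x_S _ _ _ _ h])
  x_S_eq p r m h := hΦ (by rw [hx, hx, hS _ _ _ h, B.x_S_eq _ _ _ h])
  S_sq p r m h := hΦ (by rw [map_add, hS _ _ _ h, hS _ _ _ h, hx, hx, B.S_sq _ _ _ h])
  S_S p r t u m h1 h2 h3 h4 h5 h6 := hΦ (by
    rw [hS _ _ _ h1, hS _ _ _ h2, hS _ _ _ h2, hS _ _ _ h1, B.S_S _ _ _ _ _ h1 h2 h3 h4 h5 h6])
  S_S_S p r t m h1 h2 h3 := hΦ (by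
    rw [hS _ _ _ h2, hS _ _ _ h1, hS _ _ _ h1, hS _ _ _ h3, B.S_S_S _ _ _ _ h1 h2 h3])
  E_E p q r s m := hΦ (by rw [hE, hE, hE, hE, B.E_E])
  E_idem p q m := hΦ (by rw [hE, hE, B.E_idem])
  E_row p q s m h := hΦ (by rw [hE, hE, B.E_row _ _ _ _ h, map_zero])
  E_col p r q m h := hΦ (by rw [hE, hE, B.E_col _ _ _ _ h, map_zero])
  sum_row p m := hΦ (by
    rw [map_sum, ← B.sum_row p (Φ m)]
    exact Finset.sum_congr rfl fun q _ => hE p q m)
  sum_col q m := hΦ (by
    rw [map_sum, ← B.sum_col q (Φ m)]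
    exact Finset.sum_congr rfl fun p _ => hE p q m)
  x_E t p q m := hΦ (by rw [hx, hE, hE, hx, B.x_E])
  S_E p r q m h := hΦ (by rw [hS _ _ _ h, hE, hE, hS _ _ _ h, B.S_E _ _ _ _ h])
  S_E' p r t q m h1 h2 h3 := hΦ (by
    rw [hS _ _ _ h1, hE, hE, hS _ _ _ h1, B.S_E' _ _ _ _ _ h1 h2 h3])

section

variable {P' Q' : Type} [Fintype P'] [DecidableEq P'] [Fintype Q'] [DecidableEq Q']

theorem uΦ_x' (A : BN k P Q) {p : P} {q : Q} (e : Option P' ≃ P) (f : Option Q' ≃ Q)
    (he : e none = p) (hf : f none = q) (t : P) (w : Usub A p q) :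
    uΦ A e f he hf (uxR A p q t w) =
      ((cupF e f).obj ((capF e f).obj A)).x t (uΦ A e f he hf w) := by
  have h := uΦ_x A e f he hf (e.symm t) w
  rw [e.apply_symm_apply] at h
  exact h

theorem uΦ_S' (A : BN k P Q) {p : P} {q : Q} (e : Option P' ≃ P) (f : Option Q' ≃ Q)
    (he : e none = p) (hf : f none = q) (t s : P) (hts : t ≠ s) (w : Usub A p q) :
    uΦ A e f he hf (uSR A p q t s w) =
      ((cupF e f).obj ((capF e f).obj A)).S t s (uΦ A e f he hf w) := by
  have h := uΦ_S A e f he hf (e.symm t) (e.symm s) (fun h' => hts (e.symm.injective h')) w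
  rw [e.apply_symm_apply, e.apply_symm_apply] at h
  exact h

theorem uΦ_E' (A : BN k P Q) {p : P} {q : Q} (e : Option P' ≃ P) (f : Option Q' ≃ Q)
    (he : e none = p) (hf : f none = q) (t : P) (s : Q) (w : Usub A p q) :
    uΦ A e f he hf (uER A p q t s w) =
      ((cupF e f).obj ((capF e f).obj A)).E t s (uΦ A e f he hf w) := by
  have h := uΦ_E A e f he hf (e.symm t) (f.symm s) w
  rw [e.apply_symm_apply, f.apply_symm_apply] at h
  exact h

end

/-- `U p q A` -/
def uobj (A : BN k P Q) (p : P) (q : Q) : BN k P Q :=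
  BN.ofOps ((cupF (Equiv.optionSubtypeNe p) (Equiv.optionSubtypeNe q)).obj
      ((capF (Equiv.optionSubtypeNe p) (Equiv.optionSubtypeNe q)).obj A)) (Usub A p q)
    (uΦ A (Equiv.optionSubtypeNe p) (Equiv.optionSubtypeNe q) (Equiv.optionSubtypeNe_none p)
      (Equiv.optionSubtypeNe_none q)) (uΦ_injective A _ _ _ _)
    (uxR A p q) (uSR A p q) (uER A p q)
    (fun t w => uΦ_x' A _ _ _ _ t w) (fun t s w h => uΦ_S' A _ _ _ _ t s h w)
    (fun t s w => uΦ_E' A _ _ _ _ t s w)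

/-- the map `uobj A p q → uobj B p q` given by a morphism, on pairs -/
def umapW {A B : BN k P Q} (g : Hom A B) : UW A →ₗ[k] UW B :=
  LinearMap.prodMap g.1 (LinearMap.pi fun τ => g.1 ∘ₗ LinearMap.proj τ)

theorem umapW_v {A B : BN k P Q} (g : Hom A B) (w : UW A) : (umapW g w).1 = g.1 w.1 := rfl
theorem umapW_m {A B : BN k P Q} (g : Hom A B) (w : UW A) (τ : P) :
    (umapW g w).2 τ = g.1 (w.2 τ) := rfl

/-- the map given by a morphism -/
def umapR {A B : BN k P Q} (g : Hom A B) (p : P) (q : Q) : Usub A p q →ₗ[k] Usub B p q :=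
  (umapW g).restrict fun w hw => by
    refine ⟨?_, fun τ => ?_⟩
    · rw [umapW_v, ← g.2.2.2, hw.1]
    · rw [umapW_m, ← g.2.2.2, hw.2]

section

variable {P' Q' : Type} [Fintype P'] [DecidableEq P'] [Fintype Q'] [DecidableEq Q']

theorem uΦ_map {A B : BN k P Q} (g : Hom A B) {p : P} {q : Q} (e : Option P' ≃ P)
    (f : Option Q' ≃ Q) (he : e none = p) (hf : f none = q) (w : Usub A p q) :
    uΦ B e f he hf (umapR g p q w) = ((cupF e f).map ((capF e f).map g)).1 (uΦ A e f he hf w) :=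
  rfl

end

/-- `U p q` on morphisms -/
def umap {A B : BN k P Q} (g : Hom A B) (p : P) (q : Q) : Hom (uobj A p q) (uobj B p q) :=
  ⟨umapR g p q, by
    have hi := uΦ_injective B (Equiv.optionSubtypeNe p) (Equiv.optionSubtypeNe q)
      (Equiv.optionSubtypeNe_none p) (Equiv.optionSubtypeNe_none q)
    refine ⟨fun t (w : Usub A p q) => hi ?_, fun t s (w : Usub A p q) h => hi ?_,
      fun t s (w : Usub A p q) => hi ?_⟩
    · change uΦ B _ _ _ _ (umapR g p q (uxR A p q t w)) =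
        uΦ B _ _ _ _ (uxR B p q t (umapR g p q w))
      rw [uΦ_map, uΦ_x', uΦ_x', uΦ_map]
      exact ((cupF _ _).map ((capF _ _).map g)).2.1 _ _
    · change uΦ B _ _ _ _ (umapR g p q (uSR A p q t s w)) =
        uΦ B _ _ _ _ (uSR B p q t s (umapR g p q w))
      rw [uΦ_map, uΦ_S' _ _ _ _ _ _ _ h, uΦ_S' _ _ _ _ _ _ _ h, uΦ_map]
      exact ((cupF _ _).map ((capF _ _).map g)).2.2.1 _ _ _ h
    · change uΦ B _ _ _ _ (umapR g p q (uER A p q t s w)) =
        uΦ B _ _ _ _ (uER B p q t s (umapR g p q w))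
      rw [uΦ_map, uΦ_E', uΦ_E', uΦ_map]
      exact ((cupF _ _).map ((capF _ _).map g)).2.2.2 _ _ _⟩

/-- `η` -/
def ueta (A : BN k P Q) (p : P) (q : Q) : Hom A (uobj A p q) :=
  ⟨uηR A p q, fun t m => Subtype.ext (uη_x A p q t m),
    fun t s m h => Subtype.ext (uη_S A p q t s m h), fun t s m => Subtype.ext (uη_E A p q t s m)⟩

/-- the functor `U p q` -/
def U (k : Type) [Field k] {P Q : Type} [Fintype P] [DecidableEq P] [Fintype Q]
    [DecidableEq Q] (p : P) (q : Q) : PFct k P Q where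
  obj A := uobj A p q
  map g := umap g p q
  map_id _ := rfl
  map_cmp _ _ := rfl
  map_add _ _ := hom_ext fun m => Subtype.ext rfl
  map_smul _ _ := hom_ext fun m => Subtype.ext rfl
  eta A := ueta A p q
  nat {A B} g := hom_ext fun m => Subtype.ext (by
    change umapW g (uη A p q m) = uη B p q (g.1 m)
    refine Prod.ext ?_ (funext fun τ => ?_)
    · exact g.2.2.2 p q m
    · by_cases hτ : τ = p
      · subst hτ
        rw [umapW_m, uη_p, uη_p, g.2.1, g.2.2.2]
      · rw [umapW_m, uη_ne A m hτ, uη_ne B _ hτ, g.2.2.1 _ _ _ (Ne.symm hτ), g.2.2.2])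

/-- the crossing at `p`, `q` -/
def cross (p : P) (q : Q) (D : Cx k P Q) : Cx k P Q := cone (U k p q) D

section apply

variable (A : BN k P Q) (p : P) (q : Q)

/-- the coordinates of `U p q A` -/
def uc : (uobj A p q).M →ₗ[k] UW A := (Usub A p q).subtype

/-- elements of `U p q A` -/
def ucMk (w : UW A) (h : w ∈ Usub A p q) : (uobj A p q).M := (⟨w, h⟩ : Usub A p q)

theorem uc_mk (w : UW A) (h : w ∈ Usub A p q) : uc A p q (ucMk A p q w h) = w := rfl
theorem uc_injective : Function.Injective (uc A p q) := Subtype.val_injective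
theorem uc_mem (w : (uobj A p q).M) : uc A p q w ∈ Usub A p q := (show Usub A p q from w).2
theorem uc_v (w : (uobj A p q).M) : A.E p q (uc A p q w).1 = (uc A p q w).1 :=
  (uc_mem A p q w).1
theorem uc_m (w : (uobj A p q).M) (τ : P) : A.E p q ((uc A p q w).2 τ) = (uc A p q w).2 τ :=
  (uc_mem A p q w).2 τ
theorem uc_x (t : P) (w : (uobj A p q).M) :
    uc A p q ((uobj A p q).x t w) = ux A p t (uc A p q w) := rfl
theorem uc_S (t s : P) (w : (uobj A p q).M) :
    uc A p q ((uobj A p q).S t s w) = uS A p t s (uc A p q w) := rfl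
theorem uc_E (t : P) (s : Q) (w : (uobj A p q).M) :
    uc A p q ((uobj A p q).E t s w) = uE A p q t s (uc A p q w) := rfl
theorem uc_eta (m : A.M) : uc A p q (((U k p q).eta A).1 m) = uη A p q m := rfl
theorem uc_map {A B : BN k P Q} (g : Hom A B) (w : (uobj A p q).M) :
    uc B p q (((U k p q).map g).1 w) = umapW g (uc A p q w) := rfl

end apply

end Pool.Agent.Lib.MP_f2e65a_lc
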