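import Pool.Agent.Lib.MP_f2e65a_lc.Cup

/-! # The functor `U p q` (cap at `p`, `q` followed by a cup): definitions of the operators

An element of `U p q A` is a pair `(v, m)`, `v : A.M`, `m : P → A.M`, all entries in the image of `A.E p q`;
`(v, m p)` is the part where the closure joins `p` to `q` (`m p` is the coefficient of `1`, `v` the coefficient of
`X`) and `m r` (`r ≠ p`) is the part where the closure joins `r` to `q`. -/

set_option autoImplicit false
set_option linter.unusedVariables false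

namespace Pool.Agent.Lib.MP_f2e65a_lc

variable {k : Type} [Field k] {P Q : Type} [Fintype P] [DecidableEq P] [Fintype Q]
  [DecidableEq Q]

/-- pairs `(v, m)` -/
abbrev UW (A : BN k P Q) : Type := A.M × (P → A.M)

/-- the coordinate `v` -/
abbrev uv (A : BN k P Q) : UW A →ₗ[k] A.M := LinearMap.fst k A.M (P → A.M)

/-- the coordinate `m τ` -/
abbrev um (A : BN k P Q) (τ : P) : UW A →ₗ[k] A.M :=
  LinearMap.proj τ ∘ₗ LinearMap.snd k A.M (P → A.M)

/-- dots -/
def ux (A : BN k P Q) (p t : P) : UW A →ₗ[k] UW A :=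
  if t = p then LinearMap.prod (um A p)
    (LinearMap.pi fun τ => if τ = p then 0 else A.x τ ∘ₗ um A τ)
  else LinearMap.prod (A.x t ∘ₗ uv A) (LinearMap.pi fun τ => A.x t ∘ₗ um A τ)

/-- the saddle between `p` and `r` -/
def uS1 (A : BN k P Q) (p r : P) : UW A →ₗ[k] UW A :=
  LinearMap.prod (um A r) (LinearMap.pi fun τ => if τ = p then A.x r ∘ₗ um A r else
    if τ = r then um A p + A.x r ∘ₗ uv A else A.S τ r ∘ₗ um A τ)

/-- saddles -/
def uS (A : BN k P Q) (p t s : P) : UW A →ₗ[k] UW A :=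
  if t = s then 0 else if t = p then uS1 A p s else if s = p then uS1 A p t else
    LinearMap.prod (A.S t s ∘ₗ uv A)
      (LinearMap.pi fun τ => A.S t s ∘ₗ um A (Equiv.swap t s τ))

/-- projections -/
def uE (A : BN k P Q) (p : P) (q : Q) (t : P) (s : Q) : UW A →ₗ[k] UW A :=
  if t = p then
    if s = q then LinearMap.prod (uv A) (LinearMap.pi fun τ => if τ = p then um A p else 0)
    else LinearMap.prod 0 (LinearMap.pi fun τ => if τ = p then 0 else A.E τ s ∘ₗ um A τ)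
  else
    if s = q then LinearMap.prod 0 (LinearMap.pi fun τ => if τ = t then um A t else 0)
    else LinearMap.prod (A.E t s ∘ₗ uv A)
      (LinearMap.pi fun τ => if τ = t then 0 else A.E t s ∘ₗ um A τ)

/-- the natural map -/
def uη (A : BN k P Q) (p : P) (q : Q) : A.M →ₗ[k] UW A :=
  LinearMap.prod (A.E p q) (LinearMap.pi fun τ => if τ = p then A.x p ∘ₗ A.E p q else
    A.S p τ ∘ₗ A.E τ q)

section apply

variable (A : BN k P Q) (w : UW A) {p r s t τ : P} {q u : Q}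

theorem ux_p_v : (ux A p p w).1 = w.2 p := by
  unfold ux
  rw [if_pos rfl]
  rfl
theorem ux_p_p : (ux A p p w).2 p = 0 := by
  unfold ux
  rw [if_pos rfl]
  change (if p = p then 0 else A.x p ∘ₗ um A p : UW A →ₗ[k] A.M) w = 0
  rw [if_pos rfl]
  rfl
theorem ux_p_ne (h : τ ≠ p) : (ux A p p w).2 τ = A.x τ (w.2 τ) := by
  unfold ux
  rw [if_pos rfl]
  change (if τ = p then 0 else A.x τ ∘ₗ um A τ : UW A →ₗ[k] A.M) w = _
  rw [if_neg h]
  rfl
theorem ux_ne_v (h : t ≠ p) : (ux A p t w).1 = A.x t w.1 := by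
  unfold ux
  rw [if_neg h]
  rfl
theorem ux_ne (h : t ≠ p) (τ : P) : (ux A p t w).2 τ = A.x t (w.2 τ) := by
  unfold ux
  rw [if_neg h]
  rfl

theorem uS1_v : (uS1 A p r w).1 = w.2 r := rfl
theorem uS1_p : (uS1 A p r w).2 p = A.x r (w.2 r) := by
  change (if p = p then A.x r ∘ₗ um A r else if p = r then um A p + A.x r ∘ₗ uv A else
    A.S p r ∘ₗ um A p : UW A →ₗ[k] A.M) w = _
  rw [if_pos rfl]
  rfl
theorem uS1_self (h : r ≠ p) : (uS1 A p r w).2 r = w.2 p + A.x r w.1 := by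
  change (if r = p then A.x r ∘ₗ um A r else if r = r then um A p + A.x r ∘ₗ uv A else
    A.S r r ∘ₗ um A r : UW A →ₗ[k] A.M) w = _
  rw [if_neg h, if_pos rfl]
  rfl
theorem uS1_ne (h : τ ≠ p) (h' : τ ≠ r) : (uS1 A p r w).2 τ = A.S τ r (w.2 τ) := by
  change (if τ = p then A.x r ∘ₗ um A r else if τ = r then um A p + A.x r ∘ₗ uv A else
    A.S τ r ∘ₗ um A τ : UW A →ₗ[k] A.M) w = _
  rw [if_neg h, if_neg h']
  rfl

theorem uS_self : uS A p t t = 0 := by
  unfold uS
  rw [if_pos rfl]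
theorem uS_p (h : r ≠ p) : uS A p p r = uS1 A p r := by
  unfold uS
  rw [if_neg h.symm, if_pos rfl]
theorem uS_p' (h : r ≠ p) : uS A p r p = uS1 A p r := by
  unfold uS
  rw [if_neg h, if_neg h, if_pos rfl]
theorem uS_ne_v (h : t ≠ s) (ht : t ≠ p) (hs : s ≠ p) : (uS A p t s w).1 = A.S t s w.1 := by
  unfold uS
  rw [if_neg h, if_neg ht, if_neg hs]
  rfl
theorem uS_ne (h : t ≠ s) (ht : t ≠ p) (hs : s ≠ p) (τ : P) :
    (uS A p t s w).2 τ = A.S t s (w.2 (Equiv.swap t s τ)) := by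
  unfold uS
  rw [if_neg h, if_neg ht, if_neg hs]
  rfl

theorem uE_pq_v : (uE A p q p q w).1 = w.1 := by
  unfold uE
  rw [if_pos rfl, if_pos rfl]
  rfl
theorem uE_pq_p : (uE A p q p q w).2 p = w.2 p := by
  unfold uE
  rw [if_pos rfl, if_pos rfl]
  change (if p = p then um A p else 0 : UW A →ₗ[k] A.M) w = _
  rw [if_pos rfl]
  rfl
theorem uE_pq_ne (h : τ ≠ p) : (uE A p q p q w).2 τ = 0 := by
  unfold uE
  rw [if_pos rfl, if_pos rfl]
  change (if τ = p then um A p else 0 : UW A →ₗ[k] A.M) w = _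
  rw [if_neg h]
  rfl
theorem uE_pu_v (hu : u ≠ q) : (uE A p q p u w).1 = 0 := by
  unfold uE
  rw [if_pos rfl, if_neg hu]
  rfl
theorem uE_pu_p (hu : u ≠ q) : (uE A p q p u w).2 p = 0 := by
  unfold uE
  rw [if_pos rfl, if_neg hu]
  change (if p = p then 0 else A.E p u ∘ₗ um A p : UW A →ₗ[k] A.M) w = _
  rw [if_pos rfl]
  rfl
theorem uE_pu_ne (hu : u ≠ q) (h : τ ≠ p) : (uE A p q p u w).2 τ = A.E τ u (w.2 τ) := by
  unfold uE
  rw [if_pos rfl, if_neg hu]
  change (if τ = p then 0 else A.E τ u ∘ₗ um A τ : UW A →ₗ[k] A.M) w = _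
  rw [if_neg h]
  rfl
theorem uE_tq_v (ht : t ≠ p) : (uE A p q t q w).1 = 0 := by
  unfold uE
  rw [if_neg ht, if_pos rfl]
  rfl
theorem uE_tq_t (ht : t ≠ p) : (uE A p q t q w).2 t = w.2 t := by
  unfold uE
  rw [if_neg ht, if_pos rfl]
  change (if t = t then um A t else 0 : UW A →ₗ[k] A.M) w = _
  rw [if_pos rfl]
  rfl
theorem uE_tq_ne (ht : t ≠ p) (h : τ ≠ t) : (uE A p q t q w).2 τ = 0 := by
  unfold uE
  rw [if_neg ht, if_pos rfl]
  change (if τ = t then um A t else 0 : UW A →ₗ[k] A.M) w = _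
  rw [if_neg h]
  rfl
theorem uE_tu_v (ht : t ≠ p) (hu : u ≠ q) : (uE A p q t u w).1 = A.E t u w.1 := by
  unfold uE
  rw [if_neg ht, if_neg hu]
  rfl
theorem uE_tu_t (ht : t ≠ p) (hu : u ≠ q) : (uE A p q t u w).2 t = 0 := by
  unfold uE
  rw [if_neg ht, if_neg hu]
  change (if t = t then 0 else A.E t u ∘ₗ um A t : UW A →ₗ[k] A.M) w = _
  rw [if_pos rfl]
  rfl
theorem uE_tu_ne (ht : t ≠ p) (hu : u ≠ q) (h : τ ≠ t) :
    (uE A p q t u w).2 τ = A.E t u (w.2 τ) := by
  unfold uE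
  rw [if_neg ht, if_neg hu]
  change (if τ = t then 0 else A.E t u ∘ₗ um A τ : UW A →ₗ[k] A.M) w = _
  rw [if_neg h]
  rfl

theorem uη_v (m : A.M) : (uη A p q m).1 = A.E p q m := rfl
theorem uη_p (m : A.M) : (uη A p q m).2 p = A.x p (A.E p q m) := by
  change (if p = p then A.x p ∘ₗ A.E p q else A.S p p ∘ₗ A.E p q : A.M →ₗ[k] A.M) m = _
  rw [if_pos rfl]
  rfl
theorem uη_ne (m : A.M) (h : τ ≠ p) : (uη A p q m).2 τ = A.S p τ (A.E τ q m) := by
  change (if τ = p then A.x p ∘ₗ A.E p q else A.S p τ ∘ₗ A.E τ q : A.M →ₗ[k] A.M) m = _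
  rw [if_neg h]
  rfl

end apply

/-- the subspace of the pairs with all entries in the image of `E p q` -/
def Usub (A : BN k P Q) (p : P) (q : Q) : Submodule k (UW A) where
  carrier := {w | A.E p q w.1 = w.1 ∧ ∀ τ, A.E p q (w.2 τ) = w.2 τ}
  add_mem' := by
    rintro a b ⟨ha, ha'⟩ ⟨hb, hb'⟩
    refine ⟨?_, fun τ => ?_⟩
    · change A.E p q (a.1 + b.1) = a.1 + b.1
      rw [map_add, ha, hb]
    · change A.E p q (a.2 τ + b.2 τ) = a.2 τ + b.2 τ
      rw [map_add, ha', hb']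
  zero_mem' := ⟨map_zero _, fun τ => map_zero _⟩
  smul_mem' := by
    rintro c a ⟨ha, ha'⟩
    refine ⟨?_, fun τ => ?_⟩
    · change A.E p q (c • a.1) = c • a.1
      rw [map_smul, ha]
    · change A.E p q (c • a.2 τ) = c • a.2 τ
      rw [map_smul, ha']

theorem mem_Usub {A : BN k P Q} {p : P} {q : Q} {w : UW A} :
    w ∈ Usub A p q ↔ A.E p q w.1 = w.1 ∧ ∀ τ, A.E p q (w.2 τ) = w.2 τ := Iff.rfl

theorem ux_mem (A : BN k P Q) (p : P) (q : Q) (t : P) (w : UW A) (hw : w ∈ Usub A p q) :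
    ux A p t w ∈ Usub A p q := by
  obtain ⟨h1, h2⟩ := hw
  by_cases ht : t = p
  · subst ht
    refine ⟨by rw [ux_p_v]; exact h2 _, fun τ => ?_⟩
    by_cases hτ : τ = t
    · rw [hτ, ux_p_p, map_zero]
    · rw [ux_p_ne A w hτ, ← A.x_E, h2]
  · exact ⟨by rw [ux_ne_v A w ht, ← A.x_E, h1], fun τ => by rw [ux_ne A w ht, ← A.x_E, h2]⟩

theorem uS1_mem (A : BN k P Q) (p : P) (q : Q) (r : P) (hr : r ≠ p) (w : UW A)
    (hw : w ∈ Usub A p q) : uS1 A p r w ∈ Usub A p q := by
  obtain ⟨h1, h2⟩ := hw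
  refine ⟨by rw [uS1_v]; exact h2 _, fun τ => ?_⟩
  by_cases hτ : τ = p
  · rw [hτ, uS1_p, ← A.x_E, h2]
  · by_cases hτ' : τ = r
    · rw [hτ', uS1_self A w hr, map_add, h2, ← A.x_E, h1]
    · rw [uS1_ne A w hτ hτ', ← A.S_E' τ r p q _ hτ' (Ne.symm hτ) hr.symm, h2]

theorem uS_mem (A : BN k P Q) (p : P) (q : Q) (t s : P) (w : UW A) (hw : w ∈ Usub A p q) :
    uS A p t s w ∈ Usub A p q := by
  by_cases h : t = s
  · rw [h, uS_self]
    exact Submodule.zero_mem _
  by_cases ht : t = p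
  · subst ht
    rw [uS_p A (Ne.symm h)]
    exact uS1_mem A t q s (Ne.symm h) w hw
  by_cases hs : s = p
  · subst hs
    rw [uS_p' A h]
    exact uS1_mem A s q t h w hw
  obtain ⟨h1, h2⟩ := hw
  refine ⟨?_, fun τ => ?_⟩
  · rw [uS_ne_v A w h ht hs, ← A.S_E' t s p q _ h (Ne.symm ht) (Ne.symm hs), h1]
  · rw [uS_ne A w h ht hs, ← A.S_E' t s p q _ h (Ne.symm ht) (Ne.symm hs), h2]

theorem uE_mem (A : BN k P Q) (p : P) (q : Q) (t : P) (s : Q) (w : UW A)
    (hw : w ∈ Usub A p q) : uE A p q t s w ∈ Usub A p q := by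
  obtain ⟨h1, h2⟩ := hw
  by_cases ht : t = p
  · subst ht
    by_cases hs : s = q
    · subst hs
      refine ⟨by rw [uE_pq_v, h1], fun τ => ?_⟩
      by_cases hτ : τ = t
      · rw [hτ, uE_pq_p, h2]
      · rw [uE_pq_ne A w hτ, map_zero]
    · refine ⟨by rw [uE_pu_v A w hs, map_zero], fun τ => ?_⟩
      by_cases hτ : τ = t
      · rw [hτ, uE_pu_p A w hs, map_zero]
      · rw [uE_pu_ne A w hs hτ, A.E_E, h2]
  · by_cases hs : s = q
    · subst hs
      refine ⟨by rw [uE_tq_v A w ht, map_zero], fun τ => ?_⟩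
      by_cases hτ : τ = t
      · rw [hτ, uE_tq_t A w ht, h2]
      · rw [uE_tq_ne A w ht hτ, map_zero]
    · refine ⟨by rw [uE_tu_v A w ht hs, A.E_E, h1], fun τ => ?_⟩
      by_cases hτ : τ = t
      · rw [hτ, uE_tu_t A w ht hs, map_zero]
      · rw [uE_tu_ne A w ht hs hτ, A.E_E, h2]

theorem uη_mem (A : BN k P Q) (p : P) (q : Q) (m : A.M) : uη A p q m ∈ Usub A p q := by
  refine ⟨by rw [uη_v, A.E_idem], fun τ => ?_⟩
  by_cases hτ : τ = p
  · rw [hτ, uη_p, ← A.x_E, A.E_idem]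
  · rw [uη_ne A m hτ, A.S_symm p τ _ (Ne.symm hτ), A.S_E τ p q _ hτ, A.E_idem]

/-- dots -/
def uxR (A : BN k P Q) (p : P) (q : Q) (t : P) : Usub A p q →ₗ[k] Usub A p q :=
  (ux A p t).restrict (ux_mem A p q t)

/-- saddles -/
def uSR (A : BN k P Q) (p : P) (q : Q) (t s : P) : Usub A p q →ₗ[k] Usub A p q :=
  (uS A p t s).restrict (uS_mem A p q t s)

/-- projections -/
def uER (A : BN k P Q) (p : P) (q : Q) (t : P) (s : Q) : Usub A p q →ₗ[k] Usub A p q :=
  (uE A p q t s).restrict (uE_mem A p q t s)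

/-- the natural map -/
def uηR (A : BN k P Q) (p : P) (q : Q) : A.M →ₗ[k] Usub A p q :=
  (uη A p q).codRestrict _ (uη_mem A p q)

theorem uxR_coe (A : BN k P Q) (p : P) (q : Q) (t : P) (w : Usub A p q) :
    (uxR A p q t w : UW A) = ux A p t w := rfl
theorem uSR_coe (A : BN k P Q) (p : P) (q : Q) (t s : P) (w : Usub A p q) :
    (uSR A p q t s w : UW A) = uS A p t s w := rfl
theorem uER_coe (A : BN k P Q) (p : P) (q : Q) (t : P) (s : Q) (w : Usub A p q) :
    (uER A p q t s w : UW A) = uE A p q t s w := rfl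
theorem uηR_coe (A : BN k P Q) (p : P) (q : Q) (m : A.M) :
    (uηR A p q m : UW A) = uη A p q m := rfl

section cap

variable {P' Q' : Type} [Fintype P'] [DecidableEq P'] [Fintype Q'] [DecidableEq Q']

/-- the inclusion of the cap of `B` in `B` -/
def capι (B : BN k (Option P') (Option Q')) : (capObj B).M →ₗ[k] B.M := (capSub B).subtype

/-- elements of the cap -/
def capMk (B : BN k (Option P') (Option Q')) (m : B.M) (h : B.E none none m = m) :
    (capObj B).M := (⟨m, h⟩ : capSub B)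

theorem capι_mk (B : BN k (Option P') (Option Q')) (m : B.M) (h : B.E none none m = m) :
    capι B (capMk B m h) = m := rfl
theorem capι_E_none (B : BN k (Option P') (Option Q')) (m : (capObj B).M) :
    B.E none none (capι B m) = capι B m := (show capSub B from m).2
theorem capι_injective (B : BN k (Option P') (Option Q')) : Function.Injective (capι B) :=
  Subtype.val_injective
theorem capι_x (B : BN k (Option P') (Option Q')) (t : P') (m : (capObj B).M) :
    capι B ((capObj B).x t m) = B.x (some t) (capι B m) := rfl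
theorem capι_S (B : BN k (Option P') (Option Q')) (t s : P') (h : t ≠ s) (m : (capObj B).M) :
    capι B ((capObj B).S t s m) = B.S (some t) (some s) (capι B m) := capS_coe B h m
theorem capι_E (B : BN k (Option P') (Option Q')) (t : P') (s : Q') (m : (capObj B).M) :
    capι B ((capObj B).E t s m) = B.E (some t) (some s) (capι B m) := rfl
theorem capι_map {B C : BN k (Option P') (Option Q')} (g : Hom B C) (m : (capObj B).M) :
    capι C ((cap0.map g).1 m) = g.1 (capι B m) := rfl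

/-- the isomorphism of `U p q A` with the cup of the cap of `A` -/
def uΦ (A : BN k P Q) {p : P} {q : Q} (e : Option P' ≃ P) (f : Option Q' ≃ Q) (he : e none = p)
    (hf : f none = q) : Usub A p q →ₗ[k] CupM (capObj ((relabel e f).obj A)) where
  toFun w := (capMk ((relabel e f).obj A) w.1.1 (by subst he hf; exact w.2.1),
    fun τ => capMk ((relabel e f).obj A) (w.1.2 (e τ)) (by subst he hf; exact w.2.2 _))
  map_add' _ _ := rfl
  map_smul' _ _ := rfl

theorem uΦ_v (A : BN k P Q) {p : P} {q : Q} (e : Option P' ≃ P) (f : Option Q' ≃ Q)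
    (he : e none = p) (hf : f none = q) (w : Usub A p q) :
    capι ((relabel e f).obj A) (uΦ A e f he hf w).1 = w.1.1 := rfl
theorem uΦ_m (A : BN k P Q) {p : P} {q : Q} (e : Option P' ≃ P) (f : Option Q' ≃ Q)
    (he : e none = p) (hf : f none = q) (w : Usub A p q) (τ : Option P') :
    capι ((relabel e f).obj A) ((uΦ A e f he hf w).2 τ) = w.1.2 (e τ) := rfl

theorem uΦ_injective (A : BN k P Q) {p : P} {q : Q} (e : Option P' ≃ P) (f : Option Q' ≃ Q)
    (he : e none = p) (hf : f none = q) : Function.Injective (uΦ A e f he hf) := by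
  intro w w' h
  apply Subtype.ext
  refine Prod.ext ?_ (funext fun τ => ?_)
  · rw [← uΦ_v A e f he hf w, h, uΦ_v]
  · have h1 := uΦ_m A e f he hf w (e.symm τ)
    rw [h, uΦ_m, e.apply_symm_apply] at h1
    exact h1.symm

end cap

end Pool.Agent.Lib.MP_f2e65a_lc
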