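import Pool.Agent.Lib.MP_f2e65a_lc.UDefs

/-! # UX: the isomorphism `uΦ` commutes with the dots

`subst he hf` first (`p = e none`, `q = f none`).  Both sides are elements of `CupM N`, `N = capObj B`, `B = (relabel e f).obj A`
(`B.x t = A.x (e t)`, `B.S t s = A.S (e t) (e s)`, `B.E t s = A.E (e t) (f s)` by `rfl`).  By `CupM.ext` (three coordinates: `1`, `2 none`,
`2 (some r)`) and `capι_injective` it is enough to compare the images of the coordinates under `capι B`; `uΦ_v`, `uΦ_m` (both `rfl`, use `change` or
`rw`) give `w.1.1`, `w.1.2 (e τ)`, and `capι_x` moves `capι B` through `N.x`.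
* `t = none` (`e t = p`): coordinates of `cupx N none z`: `z.2 none`, `0`, `N.x r (z.2 (some r))` (`cupx_none_v`, `cupx_none_none`, `cupx_none_some`), coordinates
 of `ux A p p w`: `w.2 p`, `0` (at `p = e none`), `A.x τ (w.2 τ)` (at `τ = e (some r) ≠ e none`): `ux_p_v`, `ux_p_p`, `ux_p_ne`.
* `t = some t'` (`e t ≠ e none`): `cupx_some_v`, `cupx_some` and `ux_ne_v`, `ux_ne`. -/

set_option autoImplicit false
set_option linter.unusedVariables false

namespace Pool.Agent.Lib.MP_f2e65a_lc

variable {k : Type} [Field k] {P Q : Type} [Fintype P] [DecidableEq P] [Fintype Q]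
  [DecidableEq Q] {P' Q' : Type} [Fintype P'] [DecidableEq P'] [Fintype Q'] [DecidableEq Q']

theorem uΦ_x (A : BN k P Q) {p : P} {q : Q} (e : Option P' ≃ P) (f : Option Q' ≃ Q)
    (he : e none = p) (hf : f none = q) (t : Option P') (w : Usub A p q) :
    uΦ A e f he hf (uxR A p q (e t) w) =
      cupx (capObj ((relabel e f).obj A)) t (uΦ A e f he hf w) := by
  subst he hf
  have hne : ∀ r : P', e (some r) ≠ e none := fun r h => Option.some_ne_none r (e.injective h)
  rcases t with _ | t
  · refine CupM.ext ?_ ?_ ?_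
    · apply capι_injective
      rw [uΦ_v, cupx_none_v, uΦ_m]
      exact ux_p_v A w.1
    · apply capι_injective
      rw [uΦ_m, cupx_none_none, map_zero]
      exact ux_p_p A w.1
    · intro r
      apply capι_injective
      rw [uΦ_m, cupx_none_some, capι_x, uΦ_m]
      exact ux_p_ne A w.1 (hne r)
  · refine CupM.ext ?_ ?_ ?_
    · apply capι_injective
      rw [uΦ_v, cupx_some_v, capι_x, uΦ_v]
      exact ux_ne_v A w.1 (hne t)
    · apply capι_injective
      rw [uΦ_m, cupx_some, capι_x, uΦ_m]
      exact ux_ne A w.1 (hne t) _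
    · intro r
      apply capι_injective
      rw [uΦ_m, cupx_some, capι_x, uΦ_m]
      exact ux_ne A w.1 (hne t) _

end Pool.Agent.Lib.MP_f2e65a_lc
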