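import Pool.Agent.Lib.MP_f2e65a_lc.FreeC

/-! # XCup: cups of free modules (job XCup: both theorems)

The same as `isFree_cup` (FreeB.lean) for a family `g i`, `i : I`, instead of one generator: copy its proof (and the private lemmas `FreeB_cg ...` to `FreeB_adj_apply`, with new names), replace `fun _ : Unit => a` by `lab`, `m ()` by `m i`.
`cup_map_gen`: `cupMap γ` acts on the coordinates by `γ`, `cgen A n = (0, Pi.single none n)`: `CupM.ext`, `Pi.single_eq_same`, `Pi.single_eq_of_ne`. -/

set_option autoImplicit false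
set_option linter.unusedVariables false
set_option linter.unusedSectionVars false

namespace Pool.Agent.Lib.MP_f2e65a_lc

variable {k : Type} [Field k] {P Q : Type} [Fintype P] [DecidableEq P] [Fintype Q]
  [DecidableEq Q]

/-- the generator as a pair -/
private def XCup_cg (N : BN k P Q) (n : N.M) : CupM N := (0, Pi.single none n)

private theorem XCup_cg_v (N : BN k P Q) (n : N.M) : (XCup_cg N n).1 = 0 := rfl

private theorem XCup_cg_none (N : BN k P Q) (n : N.M) : (XCup_cg N n).2 none = n :=
  Pi.single_eq_same (M := fun _ : Option P => N.M) none n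

private theorem XCup_cg_some (N : BN k P Q) (n : N.M) (r : P) :
    (XCup_cg N n).2 (some r) = 0 :=
  Pi.single_eq_of_ne (M := fun _ : Option P => N.M) (Option.some_ne_none r) n

private theorem XCup_cg_x (N : BN k P Q) (t : P) (n : N.M) :
    XCup_cg N (N.x t n) = cupx N (some t) (XCup_cg N n) := by
  refine CupM.ext ?_ ?_ fun r => ?_
  · rw [cupx_some_v, XCup_cg_v, XCup_cg_v, map_zero]
  · rw [cupx_some, XCup_cg_none, XCup_cg_none]
  · rw [cupx_some, XCup_cg_some, XCup_cg_some, map_zero]

private theorem XCup_cg_S (N : BN k P Q) (t s : P) (n : N.M) :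
    XCup_cg N (N.S t s n) = cupS N (some t) (some s) (XCup_cg N n) := by
  refine CupM.ext ?_ ?_ fun r => ?_
  · rw [cupS_some_v, XCup_cg_v, XCup_cg_v, map_zero]
  · rw [cupS_some_none, XCup_cg_none, XCup_cg_none]
  · rw [cupS_some_some, XCup_cg_some, XCup_cg_some, map_zero]

private theorem XCup_cg_E (N : BN k P Q) (t : P) (s : Q) (n : N.M) :
    XCup_cg N (N.E t s n) = cupE N (some t) (some s) (XCup_cg N n) := by
  refine CupM.ext ?_ ?_ fun r => ?_
  · rw [cupE_ss_v, XCup_cg_v, XCup_cg_v, map_zero]
  · rw [cupE_ss_none, XCup_cg_none, XCup_cg_none]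
  · rw [XCup_cg_some]
    by_cases h : r = t
    · subst h
      rw [cupE_ss_self]
    · rw [cupE_ss_ne _ _ _ _ _ h, XCup_cg_some, map_zero]

private theorem XCup_cg_nn (N : BN k P Q) (n : N.M) :
    cupE N none none (XCup_cg N n) = XCup_cg N n := by
  refine CupM.ext rfl rfl fun r => ?_
  rw [cupE_nn_some, XCup_cg_some]

private theorem XCup_x (N : BN k P Q) (t : P) (n : N.M) :
    cgen N (N.x t n) = (cupObj N).x (some t) (cgen N n) := XCup_cg_x N t n

private theorem XCup_S (N : BN k P Q) (t s : P) (n : N.M) :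
    cgen N (N.S t s n) = (cupObj N).S (some t) (some s) (cgen N n) := XCup_cg_S N t s n

private theorem XCup_E (N : BN k P Q) (t : P) (s : Q) (n : N.M) :
    cgen N (N.E t s n) = (cupObj N).E (some t) (some s) (cgen N n) := XCup_cg_E N t s n

private theorem XCup_nn (N : BN k P Q) (n : N.M) :
    (cupObj N).E none none (cgen N n) = cgen N n := XCup_cg_nn N n

/-- a morphism from the cup as a morphism to the cap -/
private def XCup_adj {N : BN k P Q} {C : BN k (Option P) (Option Q)} (G : Hom (cupObj N) C) :
    Hom N (capObj C) :=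
  ⟨(LinearMap.codRestrict (capSub C) (G.1 ∘ₗ cgen N) (fun n => by
      change C.E none none (G.1 (cgen N n)) = G.1 (cgen N n)
      rw [← G.2.2.2, XCup_nn]) : N.M →ₗ[k] capSub C),
    fun t n => capι_injective C (by
      rw [capι_x]
      change G.1 (cgen N (N.x t n)) = C.x (some t) (G.1 (cgen N n))
      rw [XCup_x, G.2.1]),
    fun t s n hts => capι_injective C (by
      rw [capι_S C t s hts]
      change G.1 (cgen N (N.S t s n)) = C.S (some t) (some s) (G.1 (cgen N n))
      rw [XCup_S, G.2.2.1 _ _ _ (fun h => hts (Option.some.inj h))]),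
    fun t s n => capι_injective C (by
      rw [capι_E]
      change G.1 (cgen N (N.E t s n)) = C.E (some t) (some s) (G.1 (cgen N n))
      rw [XCup_E, G.2.2.2])⟩

private theorem XCup_adj_apply {N : BN k P Q} {C : BN k (Option P) (Option Q)}
    (G : Hom (cupObj N) C) (n : N.M) : capι C ((XCup_adj G).1 n) = G.1 (cgen N n) := rfl

theorem cup_free {I : Type} {lab : I → (P ≃ Q)} {A : BN k P Q} {g : I → A.M}
    (h : IsFree lab A g) :
    IsFree (fun i => Equiv.optionCongr (lab i)) (cupObj A) (fun i => cgen A (g i)) := by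
  refine ⟨fun i => ?_, fun C m hm => ?_, fun C F F' hF => ?_⟩
  · rw [mem_clo]
    intro p
    rcases p with _ | p
    · exact XCup_nn A (g i)
    · change (cupObj A).E (some p) (some (lab i p)) (cgen A (g i)) = cgen A (g i)
      rw [← XCup_E, (mem_clo.1 (h.mem i)) p]
  · have h0 := fun i => mem_clo.1 (hm i)
    have h00 : ∀ i, C.E none none (m i) = m i := fun i => h0 i none
    obtain ⟨f, hf⟩ := h.hom (capObj C) (fun i => capMk C (m i) (h00 i)) (fun i => by
      rw [mem_clo]
      intro p
      refine capι_injective C ?_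
      rw [capι_E]
      exact h0 i (some p))
    obtain ⟨F, hF⟩ := cup_hom A C (capι C ∘ₗ f.1) ⟨fun n => capι_E_none C _, fun t n => by
        rw [LinearMap.comp_apply, LinearMap.comp_apply, f.2.1, capι_x],
      fun t s n hts => by
        rw [LinearMap.comp_apply, LinearMap.comp_apply, f.2.2.1 _ _ _ hts, capι_S C t s hts],
      fun t s n => by
        rw [LinearMap.comp_apply, LinearMap.comp_apply, f.2.2.2, capι_E]⟩
    refine ⟨F, fun i => ?_⟩
    rw [hF, LinearMap.comp_apply, hf i, capι_mk]
  · refine cup_ext A C F F' fun n => ?_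
    have h1 : XCup_adj F = XCup_adj F' := by
      refine h.ext (capObj C) _ _ fun i => ?_
      refine capι_injective C ?_
      rw [XCup_adj_apply, XCup_adj_apply]
      exact hF i
    rw [← XCup_adj_apply, ← XCup_adj_apply, h1]

private theorem XCup_map {A : BN k P Q} (γ : Hom A A) (n : A.M) :
    ((cupMap γ).1 (XCup_cg A n) : CupM A) = XCup_cg A (γ.1 n) := by
  refine CupM.ext ?_ ?_ fun r => ?_
  · exact map_zero γ.1
  · change γ.1 ((XCup_cg A n).2 none) = _
    rw [XCup_cg_none, XCup_cg_none]
  · change γ.1 ((XCup_cg A n).2 (some r)) = _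
    rw [XCup_cg_some, XCup_cg_some, map_zero]

theorem cup_map_gen {A : BN k P Q} (γ : Hom A A) (n : A.M) :
    (cup0.map γ).1 (cgen A n) = cgen A (γ.1 n) := XCup_map γ n

end Pool.Agent.Lib.MP_f2e65a_lc
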