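import Pool.Agent.Lib.MP_f2e65a_lc.Glue

/-! # XState: a state for a functor applied to a state (job XState: all)

* `exists_state`: `J` finite, `b j` free generators of `E.A` with the labels `lab j`; `γ t` is the projection to degree `t`: `γ t (b j) = b j` if `deg j = t` and `0` otherwise; the differential has degree `1`.  The same as the end of the proof of `exists_glue` in Glue.lean (`glue_state`, `glue_dd`, `glue_fD` there are private: copy them with new names).  `h4 : IsFree lab (BN.pi fun j => Φ k (lab j)) ..` (`isFree_pi`, `Φ_free`),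
 `isFree_iso h4 hb` gives `f`, `f'`; `D' = cmp f' (cmp E.d f)`; `d = entry D'`.  `f ∘ grP t = γ t ∘ f` by `h4.ext` (on the generators: `glue_gr_g` in Glue.lean, private: copy it), so `D' ∘ grP t = grP (t + 1) ∘ D'`, and `gr_conv` gives `d_deg`.
* `exists_state_fct`: `exists_state` for `E = F.cx s.tot`, `γ t = F.map (grP _ s.deg t)`: `(grP .. t) (gen i) = (if deg i = t then 1 else 0) • gen i`, and `hF` with `c i = if s.deg i = t then 1 else 0`; `hcomm`: `gr_comm` for `s.tot.d` (`entry (mat d) = d`: `entry_mat`, and `s.d_deg`; see `hcomm` in `exists_glue`) and `F.map_cmp`. -/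

set_option autoImplicit false
set_option linter.unusedVariables false
set_option linter.unusedSectionVars false

namespace Pool.Agent.Lib.MP_f2e65a_lc

variable {k : Type} [Field k] {P Q P' Q' : Type} [Fintype P] [DecidableEq P] [Fintype Q]
  [DecidableEq Q] [Fintype P'] [DecidableEq P'] [Fintype Q'] [DecidableEq Q']

/-- the generators of the total complex of a state -/
noncomputable def St.gen (s : St k P Q) (i : s.I) : s.tot.A.M :=
  (inc (fun i => Φ k (s.lab i)) i).1 (gΦ k (s.lab i))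

theorem St.gen_free (s : St k P Q) : IsFree s.lab s.tot.A s.gen := by
  exact isFree_pi s.lab (fun i => Φ k (s.lab i)) (fun i => gΦ k (s.lab i))
    (fun i => Φ_free k (s.lab i))


private theorem xst_gr_inc {I : Type} [Fintype I] [DecidableEq I] (A : I → BN k P Q)
    (deg : I → ℤ) (t : ℤ) (i : I) :
    cmp (grP A deg t) (inc A i) = if deg i = t then inc A i else 0 := by
  unfold grP
  rw [sum_cmp, Finset.sum_eq_single i]
  · by_cases h : deg i = t
    · rw [if_pos h, if_pos h, cmp_assoc, prj_inc, cmp_id]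
    · rw [if_neg h, if_neg h, zero_cmp]
  · intro j _ hj
    by_cases h : deg j = t
    · rw [if_pos h, cmp_assoc, prj_inc_ne A hj, cmp_zero]
    · rw [if_neg h, zero_cmp]
  · intro h
    exact absurd (Finset.mem_univ i) h

private theorem xst_gr_g {I : Type} [Fintype I] [DecidableEq I] (A : I → BN k P Q)
    (deg : I → ℤ) (t : ℤ) (i : I) (g : (A i).M) :
    (grP A deg t).1 ((inc A i).1 g) = (if deg i = t then (1 : k) else 0) • (inc A i).1 g := by
  have h := congrArg (fun F => F.1 g) (xst_gr_inc A deg t i)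
  refine Eq.trans h ?_
  by_cases h1 : deg i = t
  · rw [if_pos h1, if_pos h1, one_smul]
  · rw [if_neg h1, if_neg h1, zero_smul]
    rfl

private theorem xst_dd {E B : BN k P Q} (D : Hom E E) (hD : cmp D D = 0) (f : Hom B E)
    (f' : Hom E B) (hff' : cmp f f' = idH E) :
    cmp (cmp f' (cmp D f)) (cmp f' (cmp D f)) = 0 := by
  have e1 : cmp (cmp f' (cmp D f)) (cmp f' (cmp D f)) =
      cmp f' (cmp (cmp D (cmp (cmp f f') D)) f) := rfl
  rw [e1, hff', id_cmp, hD, zero_cmp, cmp_zero]

private theorem xst_fD {E B : BN k P Q} (D : Hom E E) (f : Hom B E)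
    (f' : Hom E B) (hff' : cmp f f' = idH E) :
    cmp f (cmp f' (cmp D f)) = cmp D f := by
  have e1 : cmp f (cmp f' (cmp D f)) = cmp (cmp f f') (cmp D f) := rfl
  rw [e1, hff', id_cmp]

private theorem xst_comm {E B : BN k P Q} (D : Hom E E) (f : Hom B E) (f' : Hom E B)
    (hff : cmp f' f = idH B) (hff' : cmp f f' = idH E) (g g1 : Hom B B) (G G1 : Hom E E)
    (h : cmp D G = cmp G1 D) (hg : cmp f g = cmp G f) (hg1 : cmp f g1 = cmp G1 f) :
    cmp (cmp f' (cmp D f)) g = cmp g1 (cmp f' (cmp D f)) := by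
  have hf'G : cmp g1 f' = cmp f' G1 := by
    have e1 : cmp g1 f' = cmp (cmp f' f) (cmp g1 f') := by
      rw [hff, id_cmp]
    have e2 : cmp (cmp f' f) (cmp g1 f') = cmp f' (cmp (cmp f g1) f') := rfl
    have e3 : cmp f' (cmp (cmp G1 f) f') = cmp f' (cmp G1 (cmp f f')) := rfl
    rw [e1, e2, hg1, e3, hff', cmp_id]
  have e1 : cmp (cmp f' (cmp D f)) g = cmp f' (cmp D (cmp f g)) := rfl
  have e2 : cmp g1 (cmp f' (cmp D f)) = cmp (cmp g1 f') (cmp D f) := rfl
  have e3 : cmp f' (cmp D (cmp G f)) = cmp f' (cmp (cmp D G) f) := rfl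
  rw [e1, e2, hg, hf'G, e3, h]
  rfl

/-- the new state from the data -/
private theorem xst_state {J : Type} [Fintype J] [DecidableEq J] (lab' : J → (P ≃ Q))
    (deg' : J → ℤ) (D' : Hom (BN.pi fun j => Φ k (lab' j)) (BN.pi fun j => Φ k (lab' j)))
    (hDG : ∀ t, cmp D' (grP (fun j => Φ k (lab' j)) deg' t) =
      cmp (grP (fun j => Φ k (lab' j)) deg' (t + 1)) D') (hD'D' : cmp D' D' = 0)
    (E : Cx k P Q) (f : Hom (BN.pi fun j => Φ k (lab' j)) E.A)
    (f' : Hom E.A (BN.pi fun j => Φ k (lab' j))) (hff : cmp f' f = idH _)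
    (hff' : cmp f f' = idH _) (hfD : cmp f D' = cmp E.d f) :
    ∃ s' : St k P Q, ∃ e : s'.I ≃ J, Iso s'.tot E ∧ (∀ j, s'.lab (e.symm j) = lab' j) ∧
      ∀ j, s'.deg (e.symm j) = deg' j := by
  let s' : St k P Q :=
    { I := J
      lab := lab'
      deg := deg'
      d := entry D'
      d_deg := fun i j hij => gr_conv (fun j => Φ k (lab' j)) deg' D' hDG i j hij
      d_d := fun i l => by
        rw [← entry_cmp D' D' i l, hD'D']
        refine hom_ext fun m => ?_
        change (prj (fun j => Φ k (lab' j)) l).1 0 = 0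
        rw [map_zero] }
  have htot : s'.tot.d = D' := mat_entry D'
  refine ⟨s', Equiv.refl _, ⟨f, f', hff, hff', ?_⟩, fun i => rfl, fun j => rfl⟩
  exact (congrArg (fun F => cmp f F) htot).trans hfD

theorem exists_state {J : Type} [Fintype J] [DecidableEq J] (E : Cx k P Q) (lab : J → (P ≃ Q))
    (deg : J → ℤ) (b : J → E.A.M) (hb : IsFree lab E.A b) (γ : ℤ → Hom E.A E.A)
    (hγ : ∀ t j, (γ t).1 (b j) = (if deg j = t then (1 : k) else 0) • b j)
    (hcomm : ∀ t, cmp E.d (γ t) = cmp (γ (t + 1)) E.d) :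
    ∃ s' : St k P Q, ∃ e : s'.I ≃ J, Iso s'.tot E ∧ (∀ j, s'.lab (e.symm j) = lab j) ∧
      ∀ j, s'.deg (e.symm j) = deg j := by
  have h4 : IsFree lab (BN.pi fun j => Φ k (lab j))
      (fun j => (inc (fun j => Φ k (lab j)) j).1 (gΦ k (lab j))) :=
    isFree_pi lab (fun j => Φ k (lab j)) (fun j => gΦ k (lab j))
      (fun j => Φ_free k (lab j))
  obtain ⟨f, f', hff, hff', hfg⟩ := isFree_iso h4 hb
  have hfG : ∀ t, cmp f (grP (fun j => Φ k (lab j)) deg t) = cmp (γ t) f := by
    intro t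
    refine h4.ext _ _ _ fun j => ?_
    change f.1 ((grP (fun j => Φ k (lab j)) deg t).1 ((inc (fun j => Φ k (lab j)) j).1
      (gΦ k (lab j)))) = (γ t).1 (f.1 ((inc (fun j => Φ k (lab j)) j).1 (gΦ k (lab j))))
    rw [xst_gr_g (fun j => Φ k (lab j)) deg t j (gΦ k (lab j)), map_smul]
    have e1 := hfg j
    refine Eq.trans (congrArg (fun z => (if deg j = t then (1 : k) else 0) • z) e1) ?_
    exact (hγ t j).symm.trans (congrArg (fun z => (γ t).1 z) e1).symm
  exact xst_state lab deg (cmp f' (cmp E.d f))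
    (fun t => xst_comm E.d f f' hff hff' _ _ (γ t) (γ (t + 1)) (hcomm t) (hfG t) (hfG (t + 1)))
    (xst_dd E.d E.dd f f' hff') E f f' hff hff' (xst_fD E.d f f' hff')


theorem exists_state_fct (F : Fct k P Q P' Q') (s : St k P Q) {J : Type} [Fintype J]
    [DecidableEq J] (φ : J → s.I) (lab' : J → (P' ≃ Q')) (b : J → (F.obj s.tot.A).M)
    (hb : IsFree lab' (F.obj s.tot.A) b)
    (hF : ∀ (γ : Hom s.tot.A s.tot.A) (c : s.I → k), (∀ i, γ.1 (s.gen i) = c i • s.gen i) →
      ∀ j, (F.map γ).1 (b j) = c (φ j) • b j) :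
    ∃ s' : St k P' Q', ∃ e : s'.I ≃ J, Iso s'.tot (F.cx s.tot) ∧
      (∀ j, s'.lab (e.symm j) = lab' j) ∧ ∀ j, s'.deg (e.symm j) = s.deg (φ j) := by
  have hcomm : ∀ t, cmp s.tot.d (grP (fun i => Φ k (s.lab i)) s.deg t) =
      cmp (grP (fun i => Φ k (s.lab i)) s.deg (t + 1)) s.tot.d := by
    intro t
    refine gr_comm (fun i => Φ k (s.lab i)) s.deg _ (fun i j hij => ?_) t
    refine s.d_deg i j fun h0 => hij ?_
    refine Eq.trans (entry_mat _ _ s.d i j) h0
  refine exists_state (F.cx s.tot) lab' (fun j => s.deg (φ j)) b hb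
    (fun t => F.map (grP (fun i => Φ k (s.lab i)) s.deg t)) (fun t j => ?_) (fun t => ?_)
  · exact hF (grP (fun i => Φ k (s.lab i)) s.deg t)
      (fun i => if s.deg i = t then (1 : k) else 0)
      (fun i => xst_gr_g (fun i => Φ k (s.lab i)) s.deg t i (gΦ k (s.lab i))) j
  · change cmp (F.map s.tot.d) (F.map (grP (fun i => Φ k (s.lab i)) s.deg t)) =
      cmp (F.map (grP (fun i => Φ k (s.lab i)) s.deg (t + 1))) (F.map s.tot.d)
    refine (F.map_cmp _ _).symm.trans (Eq.trans ?_ (F.map_cmp _ _))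
    exact congrArg (fun z => F.map z) (hcomm t)


end Pool.Agent.Lib.MP_f2e65a_lc
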