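import Pool.Agent.Lib.MP_f2e65a_lc.XDefs
import Pool.Agent.Lib.MP_f2e65a_lc.XState
import Pool.Agent.Lib.MP_f2e65a_lc.XCup

/-! # XAdd: adding a strand (job XAdd: both theorems)

* `exists_add`: `exists_state_fct` for `F = addF k l = (relabel e.symm e.symm).comp cup0`, `e = finSuccEquivLast.symm`, `J = s.I`, `φ = id`, `b i = cgen _ (s.gen i)`.  `hb`: `isFree_relabel e.symm e.symm (cup_free s.gen_free)` has the labels `e.symm.trans ((optionCongr (lab i)).trans e.symm.symm)`, which are `addLab (lab i)` (`Equiv.symm_symm`; probably `rfl`).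
 `hF`: `(F.map γ).1 (cgen A n) = cgen A (γ.1 n)` (`cup_map_gen`; the relabelling does not change the underlying map) and `cgen` is linear.
* `add_card`: `Fintype.card_congr`. -/

set_option autoImplicit false
set_option linter.unusedVariables false
set_option linter.unusedSectionVars false

namespace Pool.Agent.Lib.MP_f2e65a_lc

variable {k : Type} [Field k]

theorem exists_add {l : ℕ} (s : St k (Fin l) (Fin l)) :
    ∃ s' : St k (Fin (l + 1)) (Fin (l + 1)), GlueAdd s s' := by
  have h1 := isFree_relabel (finSuccEquivLast (n := l)).symm.symm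
    (finSuccEquivLast (n := l)).symm.symm (cup_free s.gen_free)
  have hb : IsFree (fun i => addLab (s.lab i)) ((addF k l).obj s.tot.A)
      (fun i => cgen s.tot.A (s.gen i)) := h1
  obtain ⟨s', e, hiso, hlab, hdeg⟩ := exists_state_fct (addF k l) s (J := s.I) id
    (fun i => addLab (s.lab i)) (fun i => cgen s.tot.A (s.gen i)) hb (fun γ c hγ j => by
      have h2 : ((addF k l).map γ).1 (cgen s.tot.A (s.gen j)) = cgen s.tot.A (γ.1 (s.gen j)) :=
        cup_map_gen γ (s.gen j)
      rw [h2, hγ, map_smul]
      rfl)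
  exact ⟨s', hiso, e, fun i => ⟨hlab i, hdeg i⟩⟩

theorem add_card {l : ℕ} {s : St k (Fin l) (Fin l)} {s' : St k (Fin (l + 1)) (Fin (l + 1))}
    (h : GlueAdd s s') : Fintype.card s'.I = Fintype.card s.I := by
  obtain ⟨e, -⟩ := h.gens
  exact Fintype.card_congr e

end Pool.Agent.Lib.MP_f2e65a_lc
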