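import Pool.Agent.Lib.MP_f2e65a_lc.XCapDefs
import Pool.Agent.Lib.MP_f2e65a_lc.XCup

/-! # XCapA: the cap of a free module: the generators, existence of morphisms (job XCapA: `kgen_mem`, `kgen_map`; job XCapH: `kgen_hom` in XCapH.lean)

Write `a = lab i : Option P ≃ Option Q`, `a' = Equiv.removeNone a : P ≃ Q`.  If `a none = none`: `some (a' t) = a (some t)` for all `t` (`Equiv.removeNone_some`, `Equiv.some_removeNone_iff`).  If `a none ≠ none`: there are `r₀ : P`, `q₀ : Q` with `a (some r₀) = none`, `a none = some q₀`, `a.symm none = some r₀`, and `a' r₀ = q₀` (`Equiv.removeNone_none`),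
`some (a' t) = a (some t)` for `t ≠ r₀`.
* `kgen_mem`: `g = g i`, `g ∈ clo A a`, i.e. `E τ (a τ) g = g` for all `τ`.  To show: `E (some t) (some (a' t))` keeps `capι (kgen ..)` (`capι_P`, `capι_E`, `capι_injective`).  `a none = none`: `E none none g = g`, and `E` commutes with `x none` (`x_E`).
 `a none ≠ none`: `y = S none (some r₀) g`.  `E none none y = y`: `S_symm`, `S_E (some r₀) none none`: `S (some r₀) none (E (some r₀) none g) = E none none (S (some r₀) none g)` and `E (some r₀) none g = g`.  For `t = r₀`: `E (some r₀) (some q₀) y = S none (some r₀) (E none (some q₀) g) = y` (`S_E none (some r₀) (some q₀)`).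
 For `t ≠ r₀`: `S_E'` with `some t ≠ none`, `some t ≠ some r₀`.
* `kgen_map`: `γ` commutes with `x`, `S`, `E`: `(cap0.map γ).1 (capP A m) = capP A (γ.1 m)` (`capι_map`, `capι_injective`).
* `kgen_hom`: given `B : BN k P Q`, `m j ∈ clo B (a' ..)`.  Let `b i : (cupObj B).M` be `(m ⟨i, 0⟩, Pi.single none (m ⟨i, 1⟩))` if `a none = none` (this is `(cupObj B).x none (cgen B (m ⟨i, 0⟩)) + cgen B (m ⟨i, 1⟩)`), and `(0, Pi.single (some r₀) (m ⟨i, 0⟩))` (this is `(cupObj B).S none (some r₀) (cgen B (m ⟨i, 0⟩)) - ...` or directly the pair) if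
 `a none ≠ none`.  `b i ∈ clo (cupObj B) a` (coordinates: `cupE_nn_*`, `cupE_ss_*`; `cupE_ns_*`, `cupE_sn_*`, `cupE_ss_*`): for `a none ≠ none`: `E none (some q₀)` acts on the coordinate `some r₀` by `B.E r₀ q₀` (`cupE_ns_some`, `a' r₀ = q₀`), `E (some r₀) none` keeps it (`cupE_sn_self`), `E (some t) (some (a' t))`, `t ≠ r₀`: `cupE_ss_ne`.
 `h.hom` gives `f : Hom A (cupObj B)` with `f (g i) = b i`.  Define `F : Hom (capObj A) B`, `F y = (f (capι y)).1` (the coordinate `v`); it is a morphism by `cupx_some_v`, `cupS_some_v`, `cupE_ss_v` (`capι_x`, `capι_S`, `capι_E`).  Values: `capι (capP y) = E none none y`.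
 `a none = none`: `F (capP g) = (f (E none none g)).1 = (b i).1 = m ⟨i, 0⟩`; `F (capP (x none g)) = (x none (b i)).1 = (b i).2 none = m ⟨i, 1⟩` (`cupx_none_v`).  `a none ≠ none`: `F (capP (S none (some r₀) g)) = (S none (some r₀) (b i)).1 = (b i).2 (some r₀) = m ⟨i, 0⟩` (`cupS1_v`).
See `U_free` in FreeU.lean for the same argument (with `Fin (if .. then 2 else 1)`). -/

set_option autoImplicit false
set_option linter.unusedVariables false
set_option linter.unusedSectionVars false

namespace Pool.Agent.Lib.MP_f2e65a_lc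

variable {k : Type} [Field k] {P Q : Type} [Fintype P] [DecidableEq P] [Fintype Q]
  [DecidableEq Q]

private theorem XCapA_mem {A : BN k (Option P) (Option Q)} {a : Option P ≃ Option Q} {y : A.M}
    (hy : y ∈ clo A a) (ha : a none = none) : capP A y ∈ clo (capObj A) (Equiv.removeNone a) := by
  intro τ
  apply capι_injective A
  rw [capι_E, capι_P]
  have h1 : A.E none none y = y := by
    have h := hy none
    rw [ha] at h
    exact h
  have h2 : a (some τ) ≠ none := fun h => by
    have h3 := a.injective (h.trans ha.symm)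
    exact Option.some_ne_none τ h3
  have h3 : some (Equiv.removeNone a τ) = a (some τ) :=
    Equiv.removeNone_some a (Option.ne_none_iff_exists'.1 h2)
  rw [h3, h1]
  exact hy (some τ)

private theorem XCapA_ne {a : Option P ≃ Option Q} (ha : a none ≠ none) : a.symm none ≠ none := by
  intro h
  apply ha
  have h1 := a.apply_symm_apply none
  rw [h] at h1
  exact h1

private theorem XCapA_k0 {I : Type} {lab : I → (Option P ≃ Option Q)} {A : BN k (Option P) (Option Q)}
    {g : I → A.M} {j : Σ i, Fin (if lab i none = none then 2 else 1)} (h1 : lab j.1 none = none)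
    (h2 : (j.2 : ℕ) = 0) : kgen lab A g j = capP A (g j.1) := by
  unfold kgen
  rw [if_pos h1, if_pos h2]

private theorem XCapA_k1 {I : Type} {lab : I → (Option P ≃ Option Q)} {A : BN k (Option P) (Option Q)}
    {g : I → A.M} {j : Σ i, Fin (if lab i none = none then 2 else 1)} (h1 : lab j.1 none = none)
    (h2 : (j.2 : ℕ) ≠ 0) : kgen lab A g j = capP A (A.x none (g j.1)) := by
  unfold kgen
  rw [if_pos h1, if_neg h2]

private theorem XCapA_k2 {I : Type} {lab : I → (Option P ≃ Option Q)} {A : BN k (Option P) (Option Q)}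
    {g : I → A.M} {j : Σ i, Fin (if lab i none = none then 2 else 1)} (h1 : lab j.1 none ≠ none) :
    kgen lab A g j = capP A (A.S none ((lab j.1).symm none) (g j.1)) := by
  unfold kgen
  rw [if_neg h1]

private theorem XCapA_map {A : BN k (Option P) (Option Q)} (γ : Hom A A) (m : A.M) :
    (cap0.map γ).1 (capP A m) = capP A (γ.1 m) := by
  apply capι_injective A
  rw [capι_map, capι_P, capι_P]
  exact γ.2.2.2 none none m

theorem kgen_mem {I : Type} {lab : I → (Option P ≃ Option Q)} {A : BN k (Option P) (Option Q)}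
    {g : I → A.M} (h : ∀ i, g i ∈ clo A (lab i))
    (j : Σ i, Fin (if lab i none = none then 2 else 1)) :
    kgen lab A g j ∈ clo (capObj A) (Equiv.removeNone (lab j.1)) := by
  have hg := h j.1
  by_cases h1 : lab j.1 none = none
  · by_cases h2 : (j.2 : ℕ) = 0
    · rw [XCapA_k0 h1 h2]
      exact XCapA_mem hg h1
    · rw [XCapA_k1 h1 h2]
      refine XCapA_mem ?_ h1
      intro p
      rw [← A.x_E]
      exact congrArg _ (hg p)
  · rw [XCapA_k2 h1]
    obtain ⟨r, hr⟩ := Option.ne_none_iff_exists'.1 (XCapA_ne h1)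
    rw [hr]
    have hr' : lab j.1 (some r) = none := by rw [← hr, Equiv.apply_symm_apply]
    have hne : (none : Option P) ≠ some r := fun h => Option.some_ne_none r h.symm
    have h3 : A.E none none (A.S none (some r) (g j.1)) = A.S none (some r) (g j.1) := by
      rw [A.S_symm none (some r) _ hne, ← A.S_E (some r) none none _ hne.symm]
      have h4 := hg (some r)
      rw [hr'] at h4
      rw [h4]
    intro τ
    apply capι_injective A
    rw [capι_E, capι_P, h3]
    by_cases hτ : τ = r
    · rw [hτ, Equiv.removeNone_none _ hr', ← A.S_E none (some r) _ _ hne]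
      exact congrArg _ (hg none)
    · have h5 : lab j.1 (some τ) ≠ none := by
        intro h
        apply hτ
        exact Option.some_injective _ ((lab j.1).injective (h.trans hr'.symm))
      rw [Equiv.removeNone_some _ (Option.ne_none_iff_exists'.1 h5),
        ← A.S_E' none (some r) (some τ) _ _ hne (Option.some_ne_none τ)
          (fun h => hτ (Option.some_injective _ h))]
      exact congrArg _ (hg (some τ))

theorem kgen_map {I : Type} (lab : I → (Option P ≃ Option Q)) (A : BN k (Option P) (Option Q))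
    (g : I → A.M) (γ : Hom A A) (c : I → k) (hγ : ∀ i, γ.1 (g i) = c i • g i)
    (j : Σ i, Fin (if lab i none = none then 2 else 1)) :
    (cap0.map γ).1 (kgen lab A g j) = c j.1 • kgen lab A g j := by
  by_cases h1 : lab j.1 none = none
  · by_cases h2 : (j.2 : ℕ) = 0
    · rw [XCapA_k0 h1 h2]
      refine (XCapA_map γ _).trans ?_
      rw [hγ, map_smul]
    · rw [XCapA_k1 h1 h2]
      refine (XCapA_map γ _).trans ?_
      rw [γ.2.1, hγ, map_smul, map_smul]
  · rw [XCapA_k2 h1]
    refine (XCapA_map γ _).trans ?_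
    rw [γ.2.2.1 _ _ _ (XCapA_ne h1).symm, hγ, map_smul, map_smul]

end Pool.Agent.Lib.MP_f2e65a_lc
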