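import Pool.Agent.Lib.MP_f2e65a_lc.XCapH

/-! # XCapB: the cap of a free module is free (job XCapB: both theorems)

* `kgen_ext`: Let `e = Equiv.refl (Option P)`, `f = Equiv.refl (Option Q)`, so `(relabel e f).obj A` is `A` (by definition, structure eta).  `uΦ A e f rfl rfl : Usub A none none → CupM (capObj A)` commutes with the operators (`uΦ_x'`, `uΦ_S'`, `uΦ_E'` in U.lean, see the proof of `U_iso` in RetC.lean), so it is a morphism `Ψ : Hom (uobj A none none) (cupObj (capObj A))`,
 and for `G : Hom (capObj A) B` the morphism `cmp (cup0.map G) Ψ : Hom (uobj A none none) (cupObj B)` maps `uin A none none none b` (with `E none none b = b`) to `cgen B (G (capP A b))` (coordinates: `(0, Pi.single none ..)`, `uc_uin_v`, `uc_uin_m`, `uΦ_v`, `uΦ_m`).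
 The generators `ugen' lab A g none none j` of `U none none A` (FreeU.lean) are `uin none b` with `b = g i`, `x none (g i)`, `S none ((lab i).symm none) (g i)`, and `kgen lab A g j = capP A b` for the same `b` (`E none none b = b`).  So the two morphisms given by `G`, `G'` agree on the generators, `(U_free lab A g h none none).ext` shows that they are equal.
 Then for all `y : (capObj A).M`, with `b = capι A y`: `cgen B (G y) = cgen B (G' y)` and the coordinate `none` gives `G y = G' y` (`capP_ι`).
* `cap_free`: `kgen_mem`, `kgen_hom`, `kgen_ext`. -/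

set_option autoImplicit false
set_option linter.unusedVariables false
set_option linter.unusedSectionVars false

namespace Pool.Agent.Lib.MP_f2e65a_lc

variable {k : Type} [Field k] {P Q : Type} [Fintype P] [DecidableEq P] [Fintype Q]
  [DecidableEq Q]

/-- the generator as a pair -/
private def XCapB_cg (N : BN k P Q) (n : N.M) : CupM N := (0, Pi.single none n)

private theorem XCapB_cg_v (N : BN k P Q) (n : N.M) : (XCapB_cg N n).1 = 0 := rfl

private theorem XCapB_cg_none (N : BN k P Q) (n : N.M) : (XCapB_cg N n).2 none = n :=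
  Pi.single_eq_same (M := fun _ : Option P => N.M) none n

private theorem XCapB_cg_some (N : BN k P Q) (n : N.M) (r : P) :
    (XCapB_cg N n).2 (some r) = 0 :=
  Pi.single_eq_of_ne (M := fun _ : Option P => N.M) (Option.some_ne_none r) n

private theorem XCapB_cg_x (N : BN k P Q) (t : P) (n : N.M) :
    XCapB_cg N (N.x t n) = cupx N (some t) (XCapB_cg N n) := by
  refine CupM.ext ?_ ?_ fun r => ?_
  · rw [cupx_some_v, XCapB_cg_v, XCapB_cg_v, map_zero]
  · rw [cupx_some, XCapB_cg_none, XCapB_cg_none]
  · rw [cupx_some, XCapB_cg_some, XCapB_cg_some, map_zero]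

private theorem XCapB_cg_S (N : BN k P Q) (t s : P) (n : N.M) :
    XCapB_cg N (N.S t s n) = cupS N (some t) (some s) (XCapB_cg N n) := by
  refine CupM.ext ?_ ?_ fun r => ?_
  · rw [cupS_some_v, XCapB_cg_v, XCapB_cg_v, map_zero]
  · rw [cupS_some_none, XCapB_cg_none, XCapB_cg_none]
  · rw [cupS_some_some, XCapB_cg_some, XCapB_cg_some, map_zero]

private theorem XCapB_cg_E (N : BN k P Q) (t : P) (s : Q) (n : N.M) :
    XCapB_cg N (N.E t s n) = cupE N (some t) (some s) (XCapB_cg N n) := by
  refine CupM.ext ?_ ?_ fun r => ?_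
  · rw [cupE_ss_v, XCapB_cg_v, XCapB_cg_v, map_zero]
  · rw [cupE_ss_none, XCapB_cg_none, XCapB_cg_none]
  · rw [XCapB_cg_some]
    by_cases h : r = t
    · subst h
      rw [cupE_ss_self]
    · rw [cupE_ss_ne _ _ _ _ _ h, XCapB_cg_some, map_zero]

private theorem XCapB_cg_nn (N : BN k P Q) (n : N.M) :
    cupE N none none (XCapB_cg N n) = XCapB_cg N n := by
  refine CupM.ext rfl rfl fun r => ?_
  rw [cupE_nn_some, XCapB_cg_some]

private theorem XCapB_x (N : BN k P Q) (t : P) (n : N.M) :
    cgen N (N.x t n) = (cupObj N).x (some t) (cgen N n) := XCapB_cg_x N t n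

private theorem XCapB_S (N : BN k P Q) (t s : P) (n : N.M) :
    cgen N (N.S t s n) = (cupObj N).S (some t) (some s) (cgen N n) := XCapB_cg_S N t s n

private theorem XCapB_E (N : BN k P Q) (t : P) (s : Q) (n : N.M) :
    cgen N (N.E t s n) = (cupObj N).E (some t) (some s) (cgen N n) := XCapB_cg_E N t s n

private theorem XCapB_nn (N : BN k P Q) (n : N.M) :
    (cupObj N).E none none (cgen N n) = cgen N n := XCapB_cg_nn N n

private theorem XCapB_inj (N : BN k P Q) {n n' : N.M} (h : cgen N n = cgen N n') : n = n' := by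
  have h1 : XCapB_cg N n = XCapB_cg N n' := h
  rw [← XCapB_cg_none N n, h1, XCapB_cg_none]

/-! ### the projection to the cap -/

private theorem XCapB_P_x (A : BN k (Option P) (Option Q)) (t : P) (b : A.M) :
    capP A (A.x (some t) b) = (capObj A).x t (capP A b) := by
  apply capι_injective
  rw [capι_x, capι_P, capι_P, A.x_E]

private theorem XCapB_P_S (A : BN k (Option P) (Option Q)) (t s : P) (h : t ≠ s) (b : A.M) :
    capP A (A.S (some t) (some s) b) = (capObj A).S t s (capP A b) := by
  apply capι_injective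
  rw [capι_S A t s h, capι_P, capι_P, A.S_E' _ _ _ _ _ (fun h' => h (Option.some.inj h'))
    (Option.some_ne_none t).symm (Option.some_ne_none s).symm]

private theorem XCapB_P_E (A : BN k (Option P) (Option Q)) (t : P) (s : Q) (b : A.M) :
    capP A (A.E (some t) (some s) b) = (capObj A).E t s (capP A b) := by
  apply capι_injective
  rw [capι_E, capι_P, capι_P, A.E_E]

private theorem XCapB_P_nn (A : BN k (Option P) (Option Q)) (b : A.M) :
    capP A (A.E none none b) = capP A b := by
  apply capι_injective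
  rw [capι_P, capι_P, A.E_idem]

/-- the linear map given by a morphism from the cap -/
private def XCapB_u (A : BN k (Option P) (Option Q)) (B : BN k P Q) (G : Hom (capObj A) B) :
    A.M →ₗ[k] (cupObj B).M := cgen B ∘ₗ G.1 ∘ₗ capP A

private theorem XCapB_u_apply (A : BN k (Option P) (Option Q)) (B : BN k P Q)
    (G : Hom (capObj A) B) (b : A.M) : XCapB_u A B G b = cgen B (G.1 (capP A b)) := rfl

private theorem XCapB_uhom (A : BN k (Option P) (Option Q)) (B : BN k P Q)
    (G : Hom (capObj A) B) : UHom A (cupObj B) none none (XCapB_u A B G) := by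
  refine ⟨fun b _ => ?_, fun t b ht _ => ?_, fun t s b hts ht hs _ => ?_,
    fun t s b ht hs _ => ?_⟩
  · rw [XCapB_u_apply, XCapB_nn]
  · obtain ⟨t, rfl⟩ := Option.ne_none_iff_exists'.1 ht
    rw [XCapB_u_apply, XCapB_u_apply, XCapB_P_x, G.2.1, XCapB_x]
  · obtain ⟨t, rfl⟩ := Option.ne_none_iff_exists'.1 ht
    obtain ⟨s, rfl⟩ := Option.ne_none_iff_exists'.1 hs
    have h : t ≠ s := fun h' => hts (congrArg some h')
    rw [XCapB_u_apply, XCapB_u_apply, XCapB_P_S _ _ _ h, G.2.2.1 _ _ _ h, XCapB_S]
  · obtain ⟨t, rfl⟩ := Option.ne_none_iff_exists'.1 ht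
    obtain ⟨s, rfl⟩ := Option.ne_none_iff_exists'.1 hs
    rw [XCapB_u_apply, XCapB_u_apply, XCapB_P_E, G.2.2.2, XCapB_E]

private theorem XCapB_F (A B : BN k P Q) (p : P) (q : Q) (u : A.M →ₗ[k] B.M)
    (F : Hom (uobj A p q) B) (hF : ∀ w, F.1 w = B.x p (u (uc A p q w).1) + u ((uc A p q w).2 p) +
        ∑ τ, if τ = p then 0 else B.S p τ (u ((uc A p q w).2 τ))) (b : A.M) :
    F.1 (uin A p q p b) = u (A.E p q b) := by
  rw [hF, uc_uin_v, map_zero, map_zero, zero_add, uc_uin_m, if_pos rfl, Finset.sum_eq_zero,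
    add_zero]
  intro τ _
  by_cases hτ : τ = p
  · rw [if_pos hτ]
  · rw [if_neg hτ, uc_uin_m, if_neg hτ, map_zero, map_zero]

theorem kgen_ext {I : Type} {lab : I → (Option P ≃ Option Q)} {A : BN k (Option P) (Option Q)}
    {g : I → A.M} (h : IsFree lab A g) (B : BN k P Q) (G G' : Hom (capObj A) B)
    (hG : ∀ j, G.1 (kgen lab A g j) = G'.1 (kgen lab A g j)) : G = G' := by
  obtain ⟨F, -, hF⟩ := U_hom A (cupObj B) none none _ (XCapB_uhom A B G)
  obtain ⟨F', -, hF'⟩ := U_hom A (cupObj B) none none _ (XCapB_uhom A B G')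
  have h1 := XCapB_F A (cupObj B) none none _ F hF
  have h2 := XCapB_F A (cupObj B) none none _ F' hF'
  have h3 : ∀ b, F.1 (uin A none none none b) = cgen B (G.1 (capP A b)) := fun b => by
    rw [h1, XCapB_u_apply, XCapB_P_nn]
  have h4 : ∀ b, F'.1 (uin A none none none b) = cgen B (G'.1 (capP A b)) := fun b => by
    rw [h2, XCapB_u_apply, XCapB_P_nn]
  have hFF : F = F' := by
    refine (U_free lab A g h none none).ext (cupObj B) F F' fun j => ?_
    have hj := hG j
    unfold kgen at hj
    unfold ugen'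
    by_cases hi : lab j.1 none = none
    · rw [if_pos hi] at hj ⊢
      by_cases hc : (j.2 : ℕ) = 0
      · rw [if_pos hc] at hj ⊢
        rw [h3, h4, hj]
      · rw [if_neg hc] at hj ⊢
        rw [h3, h4, hj]
    · rw [if_neg hi] at hj ⊢
      rw [h3, h4, hj]
  refine hom_ext fun y => XCapB_inj B ?_
  have h5 := h3 (capι A y)
  have h6 := h4 (capι A y)
  rw [capP_ι] at h5 h6
  rw [← h5, ← h6, hFF]

theorem cap_free {I : Type} {lab : I → (Option P ≃ Option Q)} {A : BN k (Option P) (Option Q)}
    {g : I → A.M} (h : IsFree lab A g) :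
    IsFree (fun j : Σ i, Fin (if lab i none = none then 2 else 1) =>
      Equiv.removeNone (lab j.1)) (capObj A) (kgen lab A g) :=
  ⟨fun j => kgen_mem h.mem j, fun B m hm => kgen_hom h B m hm,
    fun B G G' hG => kgen_ext h B G G' hG⟩

end Pool.Agent.Lib.MP_f2e65a_lc
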