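import Pool.Agent.Lib.MP_f2e65a_lc.FreeU

/-! # Generators of the cap of a free module -/

set_option autoImplicit false
set_option linter.unusedVariables false

namespace Pool.Agent.Lib.MP_f2e65a_lc

variable {k : Type} [Field k] {P Q : Type} [Fintype P] [DecidableEq P] [Fintype Q]
  [DecidableEq Q]

/-- the projection to the cap -/
def capP (A : BN k (Option P) (Option Q)) : A.M →ₗ[k] (capObj A).M :=
  (LinearMap.codRestrict (capSub A) (A.E none none) (fun m => A.E_idem none none m) :
    A.M →ₗ[k] capSub A)

theorem capι_P (A : BN k (Option P) (Option Q)) (m : A.M) :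
    capι A (capP A m) = A.E none none m := rfl

theorem capP_ι (A : BN k (Option P) (Option Q)) (m : (capObj A).M) :
    capP A (capι A m) = m := capι_injective A (capι_E_none A m)

/-- the generators of the cap of a free module -/
def kgen {I : Type} (lab : I → (Option P ≃ Option Q)) (A : BN k (Option P) (Option Q))
    (g : I → A.M) (j : Σ i, Fin (if lab i none = none then 2 else 1)) : (capObj A).M :=
  if lab j.1 none = none then
    (if (j.2 : ℕ) = 0 then capP A (g j.1) else capP A (A.x none (g j.1)))
  else capP A (A.S none ((lab j.1).symm none) (g j.1))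

end Pool.Agent.Lib.MP_f2e65a_lc
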