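import Pool.Agent.Lib.MP_f2e65a_lc.XCapA

/-! # XCapH: existence of morphisms from the cap of a free module (job XCapH; the proof is in the header of XCapA.lean, item `kgen_hom`) -/

set_option autoImplicit false
set_option linter.unusedVariables false
set_option linter.unusedSectionVars false

namespace Pool.Agent.Lib.MP_f2e65a_lc

variable {k : Type} [Field k] {P Q : Type} [Fintype P] [DecidableEq P] [Fintype Q]
  [DecidableEq Q]

/-- the element for a label which joins `none` to `none` -/
private def XCapH_w1 (B : BN k P Q) (m0 m1 : B.M) : CupM B := (m0, Pi.single none m1)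

/-- the element for the other labels -/
private def XCapH_w2 (B : BN k P Q) (r : P) (m0 : B.M) : CupM B := (0, Pi.single (some r) m0)

private theorem XCapH_w1_v (B : BN k P Q) (m0 m1 : B.M) : (XCapH_w1 B m0 m1).1 = m0 := rfl

private theorem XCapH_w1_none (B : BN k P Q) (m0 m1 : B.M) : (XCapH_w1 B m0 m1).2 none = m1 :=
  Pi.single_eq_same (M := fun _ : Option P => B.M) none m1

private theorem XCapH_w1_some (B : BN k P Q) (m0 m1 : B.M) (t : P) :
    (XCapH_w1 B m0 m1).2 (some t) = 0 :=
  Pi.single_eq_of_ne (M := fun _ : Option P => B.M) (Option.some_ne_none t) m1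

private theorem XCapH_w2_v (B : BN k P Q) (r : P) (m0 : B.M) : (XCapH_w2 B r m0).1 = 0 := rfl

private theorem XCapH_w2_none (B : BN k P Q) (r : P) (m0 : B.M) :
    (XCapH_w2 B r m0).2 none = 0 :=
  Pi.single_eq_of_ne (M := fun _ : Option P => B.M) (Option.some_ne_none r).symm m0

private theorem XCapH_w2_self (B : BN k P Q) (r : P) (m0 : B.M) :
    (XCapH_w2 B r m0).2 (some r) = m0 :=
  Pi.single_eq_same (M := fun _ : Option P => B.M) (some r) m0

private theorem XCapH_w2_ne (B : BN k P Q) (r : P) (m0 : B.M) {t : P} (h : t ≠ r) :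
    (XCapH_w2 B r m0).2 (some t) = 0 :=
  Pi.single_eq_of_ne (M := fun _ : Option P => B.M) (fun h' => h (Option.some.inj h')) m0

private theorem XCapH_some (a : Option P ≃ Option Q) {t : P} (h : a (some t) ≠ none) :
    a (some t) = some (Equiv.removeNone a t) :=
  (Equiv.removeNone_some a (Option.ne_none_iff_exists'.1 h)).symm

private theorem XCapH_c1 (B : BN k P Q) (a : Option P ≃ Option Q) (ha : a none = none)
    (m0 m1 : B.M) (h0 : m0 ∈ clo B (Equiv.removeNone a)) (h1 : m1 ∈ clo B (Equiv.removeNone a))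
    (τ : Option P) : cupE B τ (a τ) (XCapH_w1 B m0 m1) = XCapH_w1 B m0 m1 := by
  rcases τ with _ | t
  · rw [ha]
    refine CupM.ext ?_ ?_ fun r => ?_
    · rw [cupE_nn_v]
    · rw [cupE_nn_none]
    · rw [cupE_nn_some, XCapH_w1_some]
  · have hs : a (some t) ≠ none := by
      intro h
      rw [← ha] at h
      exact Option.some_ne_none t (a.injective h)
    rw [XCapH_some a hs]
    refine CupM.ext ?_ ?_ fun r => ?_
    · rw [cupE_ss_v, XCapH_w1_v]
      exact h0 t
    · rw [cupE_ss_none, XCapH_w1_none]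
      exact h1 t
    · by_cases hr : r = t
      · rw [hr, cupE_ss_self, XCapH_w1_some]
      · rw [cupE_ss_ne _ _ _ _ _ hr, XCapH_w1_some, map_zero]

private theorem XCapH_c2 (B : BN k P Q) (a : Option P ≃ Option Q) (r₀ : P)
    (ha : a (some r₀) = none) (m0 : B.M) (h0 : m0 ∈ clo B (Equiv.removeNone a))
    (τ : Option P) : cupE B τ (a τ) (XCapH_w2 B r₀ m0) = XCapH_w2 B r₀ m0 := by
  rcases τ with _ | t
  · rw [← Equiv.removeNone_none a ha]
    refine CupM.ext ?_ ?_ fun r => ?_
    · rw [cupE_ns_v, XCapH_w2_v]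
    · rw [cupE_ns_none, XCapH_w2_none]
    · rw [cupE_ns_some]
      by_cases hr : r = r₀
      · rw [hr, XCapH_w2_self]
        exact h0 r₀
      · rw [XCapH_w2_ne _ _ _ hr, map_zero]
  · by_cases ht : t = r₀
    · rw [ht, ha]
      refine CupM.ext ?_ ?_ fun r => ?_
      · rw [cupE_sn_v, XCapH_w2_v]
      · rw [cupE_sn_none, XCapH_w2_none]
      · by_cases hr : r = r₀
        · rw [hr, cupE_sn_self]
        · rw [cupE_sn_ne _ _ _ _ hr, XCapH_w2_ne _ _ _ hr]
    · have hs : a (some t) ≠ none := by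
        intro h
        rw [← ha] at h
        exact ht (Option.some.inj (a.injective h))
      rw [XCapH_some a hs]
      refine CupM.ext ?_ ?_ fun r => ?_
      · rw [cupE_ss_v, XCapH_w2_v, map_zero]
      · rw [cupE_ss_none, XCapH_w2_none, map_zero]
      · by_cases hr : r = t
        · rw [hr, cupE_ss_self, XCapH_w2_ne _ _ _ ht]
        · rw [cupE_ss_ne _ _ _ _ _ hr]
          by_cases hr' : r = r₀
          · rw [hr', XCapH_w2_self]
            exact h0 t
          · rw [XCapH_w2_ne _ _ _ hr', map_zero]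

/-- the first coordinate of a morphism to the cup, as a morphism from the cap -/
private theorem XCapH_hom (A : BN k (Option P) (Option Q)) (B : BN k P Q)
    (f : Hom A (cupObj B)) : ∃ F : Hom (capObj A) B, ∀ y, F.1 y =
      cv B (show CupM B from f.1 (capι A y)) := by
  let F0 : (capObj A).M →ₗ[k] B.M := cv B ∘ₗ (f.1 : A.M →ₗ[k] (cupObj B).M) ∘ₗ capι A
  refine ⟨⟨F0, fun t y => ?_, fun t s y hts => ?_, fun t s y => ?_⟩, fun y => rfl⟩
  · change cv B (show CupM B from f.1 (capι A ((capObj A).x t y))) =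
      B.x t (cv B (show CupM B from f.1 (capι A y)))
    rw [capι_x, f.2.1]
    rfl
  · change cv B (show CupM B from f.1 (capι A ((capObj A).S t s y))) =
      B.S t s (cv B (show CupM B from f.1 (capι A y)))
    rw [capι_S _ _ _ hts, f.2.2.1 _ _ _ (fun h => hts (Option.some.inj h))]
    rfl
  · change cv B (show CupM B from f.1 (capι A ((capObj A).E t s y))) =
      B.E t s (cv B (show CupM B from f.1 (capι A y)))
    rw [capι_E, f.2.2.2]
    rfl

theorem kgen_hom {I : Type} {lab : I → (Option P ≃ Option Q)} {A : BN k (Option P) (Option Q)}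
    {g : I → A.M} (h : IsFree lab A g) (B : BN k P Q)
    (m : (Σ i, Fin (if lab i none = none then 2 else 1)) → B.M)
    (hm : ∀ j, m j ∈ clo B (Equiv.removeNone (lab j.1))) :
    ∃ f : Hom (capObj A) B, ∀ j, f.1 (kgen lab A g j) = m j := by
  classical
  have hpos : ∀ i, 0 < (if lab i none = none then 2 else 1) := fun i => by
    split_ifs <;> norm_num
  have hlt : ∀ i, lab i none = none → 1 < (if lab i none = none then 2 else 1) := fun i hi => by
    rw [if_pos hi]
    norm_num
  have hr : ∀ i, lab i none ≠ none → ∃ r : P, (lab i).symm none = some r := by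
    intro i hi
    have h1 : (lab i).symm none ≠ none := fun h2 =>
      hi (((lab i).symm_apply_eq).1 h2).symm
    exact Option.ne_none_iff_exists'.1 h1
  let m0 : I → B.M := fun i => m ⟨i, ⟨0, hpos i⟩⟩
  let m1 : I → B.M := fun i => if hi : lab i none = none then m ⟨i, ⟨1, hlt i hi⟩⟩ else 0
  have hm0 : ∀ i, m0 i ∈ clo B (Equiv.removeNone (lab i)) := fun i => hm ⟨i, _⟩
  have hm1 : ∀ i, m1 i ∈ clo B (Equiv.removeNone (lab i)) := by
    intro i
    by_cases hi : lab i none = none
    · have h1 : m1 i = m ⟨i, ⟨1, hlt i hi⟩⟩ := dif_pos hi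
      rw [h1]
      exact hm ⟨i, _⟩
    · have h1 : m1 i = 0 := dif_neg hi
      rw [h1]
      exact Submodule.zero_mem _
  let b : I → CupM B := fun i => if hi : lab i none = none then XCapH_w1 B (m0 i) (m1 i)
    else XCapH_w2 B (hr i hi).choose (m0 i)
  have hb1 : ∀ i, lab i none = none → b i = XCapH_w1 B (m0 i) (m1 i) := fun i hi => dif_pos hi
  have hb2 : ∀ i, lab i none ≠ none → ∀ r, (lab i).symm none = some r →
      b i = XCapH_w2 B r (m0 i) := by
    intro i hi r hr'
    have h1 : b i = XCapH_w2 B (hr i hi).choose (m0 i) := dif_neg hi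
    rw [h1]
    have h2 : some r = some (hr i hi).choose := hr'.symm.trans (hr i hi).choose_spec
    rw [← Option.some.inj h2]
  have hb : ∀ i τ, cupE B τ (lab i τ) (b i) = b i := by
    intro i τ
    by_cases hi : lab i none = none
    · rw [hb1 i hi]
      exact XCapH_c1 B (lab i) hi _ _ (hm0 i) (hm1 i) τ
    · obtain ⟨r, hr'⟩ := hr i hi
      rw [hb2 i hi r hr']
      refine XCapH_c2 B (lab i) r ?_ _ (hm0 i) τ
      rw [← hr', Equiv.apply_symm_apply]
  obtain ⟨f, hf⟩ := h.hom (cupObj B) b hb
  obtain ⟨F, hF⟩ := XCapH_hom A B f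
  have hFP : ∀ y : A.M, F.1 (capP A y) = cv B (show CupM B from f.1 y) := by
    intro y
    rw [hF, capι_P, f.2.2.2]
    rfl
  refine ⟨F, ?_⟩
  rintro ⟨i, c⟩
  unfold kgen
  by_cases hi : lab i none = none
  · rw [if_pos (show lab (⟨i, c⟩ : Σ i, Fin (if lab i none = none then 2 else 1)).1 none = none
      from hi)]
    by_cases hc : (c : ℕ) = 0
    · rw [if_pos hc, hFP]
      change cv B (show CupM B from f.1 (g i)) = _
      rw [hf, hb1 i hi]
      change m0 i = _
      have h2 : c = ⟨0, hpos i⟩ := Fin.ext hc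
      rw [h2]
    · rw [if_neg hc, hFP]
      change cv B (show CupM B from f.1 (A.x none (g i))) = _
      rw [f.2.1, hf, hb1 i hi]
      change (XCapH_w1 B (m0 i) (m1 i)).2 none = _
      rw [XCapH_w1_none]
      have h3 : (c : ℕ) < 2 := lt_of_lt_of_eq c.isLt (if_pos hi)
      have h2 : c = ⟨1, hlt i hi⟩ := Fin.ext (by
        change (c : ℕ) = 1
        omega)
      have h1 : m1 i = m ⟨i, ⟨1, hlt i hi⟩⟩ := dif_pos hi
      rw [h1, h2]
  · rw [if_neg (show ¬ lab (⟨i, c⟩ : Σ i, Fin (if lab i none = none then 2 else 1)).1 none = none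
      from hi), hFP]
    obtain ⟨r, hr'⟩ := hr i hi
    change cv B (show CupM B from f.1 (A.S none ((lab i).symm none) (g i))) = _
    rw [hr', f.2.2.1 _ _ _ (Option.some_ne_none r).symm, hf, hb2 i hi r hr']
    change (XCapH_w2 B r (m0 i)).2 (some r) = _
    rw [XCapH_w2_self]
    have h3 : (c : ℕ) < 1 := lt_of_lt_of_eq c.isLt (if_neg hi)
    have h2 : c = ⟨0, hpos i⟩ := Fin.ext (by
      change (c : ℕ) = 0
      omega)
    rw [h2]

end Pool.Agent.Lib.MP_f2e65a_lc
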