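import Pool.Agent.Lib.MP_f2e65a_lc.XDefs
import Pool.Agent.Lib.MP_f2e65a_lc.XState
import Pool.Agent.Lib.MP_f2e65a_lc.XCapB

/-! # XCls: closing a strand (job XCls: both theorems)

* `exists_cls`: `exists_state_fct` for `F = clsF k l = cap0.comp (relabel e e)`, `e = (finSuccEquiv l).symm : Option (Fin l) ≃ Fin (l + 1)`.  `isFree_relabel e e s.gen_free : IsFree (fun i => e.trans ((lab i).trans e.symm)) ((relabel e e).obj s.tot.A) s.gen`; `cap_free` of this has the index type
 `Σ i, Fin (if lab₁ i none = none then 2 else 1)`, `lab₁ i = e.trans ((s.lab i).trans e.symm)`, and the labels `Equiv.removeNone (lab₁ i) = clsLab (s.lab i)` (`Equiv.symm_symm`, `rfl`).  `lab₁ i none = none ↔ s.lab i 0 = 0` (`finSuccEquiv_symm_none`: `e none = 0`).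
 Apply `exists_state_fct` with this `J` and `φ j = j.1`, `b = kgen lab₁ ..`; `hF` is `kgen_map` (the relabelling does not change the underlying map); then compose the equivalence with `Equiv.sigmaCongrRight fun i => finCongr ..` (`if` of equivalent conditions; the second component is not used).
* `cls_card`: `Fintype.card_congr`, `Fintype.card_sigma`, each summand is at most `2` (see `glue_card` in Glue.lean). -/

set_option autoImplicit false
set_option linter.unusedVariables false
set_option linter.unusedSectionVars false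

namespace Pool.Agent.Lib.MP_f2e65a_lc

variable {k : Type} [Field k]

/-- the labels after the relabelling -/
private def clsLab₁ {l : ℕ} (α : Fin (l + 1) ≃ Fin (l + 1)) : Option (Fin l) ≃ Option (Fin l) :=
  (finSuccEquiv l).symm.trans (α.trans (finSuccEquiv l).symm.symm)

private theorem clsLab₁_none {l : ℕ} (α : Fin (l + 1) ≃ Fin (l + 1)) :
    clsLab₁ α none = none ↔ α 0 = 0 := by
  have h0 : clsLab₁ α none = finSuccEquiv l (α 0) := by
    change (finSuccEquiv l) (α ((finSuccEquiv l).symm none)) = _
    rw [finSuccEquiv_symm_none]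
  rw [h0]
  constructor
  · intro h
    have h1 : finSuccEquiv l (α 0) = finSuccEquiv l 0 := by
      rw [h, finSuccEquiv_zero]
    exact (finSuccEquiv l).injective h1
  · intro h
    rw [h, finSuccEquiv_zero]

private theorem clsLab₁_if {l : ℕ} (α : Fin (l + 1) ≃ Fin (l + 1)) :
    (if clsLab₁ α none = none then 2 else 1) = (if α 0 = 0 then 2 else 1) := by
  by_cases h : α 0 = 0
  · rw [if_pos h, if_pos ((clsLab₁_none α).2 h)]
  · rw [if_neg h, if_neg (fun h1 => h ((clsLab₁_none α).1 h1))]

theorem exists_cls {l : ℕ} (s : St k (Fin (l + 1)) (Fin (l + 1))) :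
    ∃ s' : St k (Fin l) (Fin l), GlueCls s s' := by
  have h1 : IsFree (fun i => clsLab₁ (s.lab i))
      ((relabel (finSuccEquiv l).symm (finSuccEquiv l).symm).obj s.tot.A) s.gen :=
    isFree_relabel (finSuccEquiv l).symm (finSuccEquiv l).symm s.gen_free
  have h2 := cap_free h1
  obtain ⟨s', e, hiso, hlab, hdeg⟩ := exists_state_fct (clsF k l) s
    (J := Σ i : s.I, Fin (if clsLab₁ (s.lab i) none = none then 2 else 1))
    (fun j => j.1) (fun j => Equiv.removeNone (clsLab₁ (s.lab j.1)))
    (kgen (fun i => clsLab₁ (s.lab i))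
      ((relabel (finSuccEquiv l).symm (finSuccEquiv l).symm).obj s.tot.A) s.gen) h2
    (fun γ c hγ j => kgen_map (fun i => clsLab₁ (s.lab i))
      ((relabel (finSuccEquiv l).symm (finSuccEquiv l).symm).obj s.tot.A) s.gen
      ((relabel (finSuccEquiv l).symm (finSuccEquiv l).symm).map γ) c hγ j)
  let ε : (Σ i : s.I, Fin (if clsLab₁ (s.lab i) none = none then 2 else 1)) ≃
      (Σ i : s.I, Fin (if s.lab i 0 = 0 then 2 else 1)) :=
    Equiv.sigmaCongrRight fun i => finCongr (clsLab₁_if (s.lab i))
  refine ⟨s', hiso, e.trans ε, fun j => ⟨?_, ?_⟩⟩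
  · have h3 := hlab (ε.symm j)
    exact h3
  · have h3 := hdeg (ε.symm j)
    exact h3

theorem cls_card {l : ℕ} {s : St k (Fin (l + 1)) (Fin (l + 1))} {s' : St k (Fin l) (Fin l)}
    (h : GlueCls s s') : Fintype.card s'.I ≤ 2 * Fintype.card s.I := by
  obtain ⟨e, -⟩ := h.gens
  rw [Fintype.card_congr e, Fintype.card_sigma]
  have h1 : ∑ i : s.I, Fintype.card (Fin (if s.lab i 0 = 0 then 2 else 1)) ≤
      ∑ _i : s.I, 2 := by
    refine Finset.sum_le_sum fun i _ => ?_
    rw [Fintype.card_fin]
    split_ifs <;> omega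
  rw [Finset.sum_const, Finset.card_univ, smul_eq_mul] at h1
  omega

end Pool.Agent.Lib.MP_f2e65a_lc
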