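import Pool.Agent.Lib.MP_f2e65a_lc.RunDefs

/-! # The scanning algorithm on the closed braid of a torus link

The strands are numbered from the left: `0, 1, …, n - 1`.  The strand `j` has its lower end in `P` and its upper end in `Q` if `j` is even, and conversely if `j` is odd.  A tangle with the open strands `a, …, a + l - 1` has `P = Q = Fin l`: the element `j` of `Fin l` stands for the
end of the strand `a + j` in `P` (in `Q`).  (The strands `< a` are closed, the strands `≥ a + l` have not been met yet.)

The next crossing, between the strands `i` and `i + 1`, is glued by at most five elementary operations: strands met for the first time are added (`add`), the crossing is glued to the lower ends of the two strands (`crs i`), and the strands which do not meet any of the following crossings are closed (`cls`). -/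

set_option autoImplicit false
set_option linter.unusedVariables false

namespace Pool.Agent.Lib.MP_f2e65a_lc

/-- add the strand after the last open strand -/
def addF (k : Type) [Field k] (l : ℕ) : Fct k (Fin l) (Fin l) (Fin (l + 1)) (Fin (l + 1)) :=
  cupF finSuccEquivLast.symm finSuccEquivLast.symm

/-- close the first open strand -/
def clsF (k : Type) [Field k] (l : ℕ) : Fct k (Fin (l + 1)) (Fin (l + 1)) (Fin l) (Fin l) :=
  capF (finSuccEquiv l).symm (finSuccEquiv l).symm

/-- the flat tangle `α` and a new strand -/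
def addLab {l : ℕ} (α : Fin l ≃ Fin l) : Fin (l + 1) ≃ Fin (l + 1) :=
  finSuccEquivLast.trans ((Equiv.optionCongr α).trans finSuccEquivLast.symm)

/-- the flat tangle obtained from `α` by closing the first strand (removing the circle, if a circle is created, i.e. if `α 0 = 0`) -/
def clsLab {l : ℕ} (α : Fin (l + 1) ≃ Fin (l + 1)) : Fin l ≃ Fin l :=
  Equiv.removeNone ((finSuccEquiv l).symm.trans (α.trans (finSuccEquiv l)))

variable {k : Type} [Field k]

/-- `s'` is a state for the complex of `s` with a new strand -/
structure GlueAdd {l : ℕ} (s : St k (Fin l) (Fin l)) (s' : St k (Fin (l + 1)) (Fin (l + 1))) :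
    Prop where
  iso : Iso s'.tot ((addF k l).cx s.tot)
  gens : ∃ e : s'.I ≃ s.I, ∀ i, s'.lab (e.symm i) = addLab (s.lab i) ∧
    s'.deg (e.symm i) = s.deg i

/-- `s'` is a state for the complex of `s` with the first strand closed, circles being removed -/
structure GlueCls {l : ℕ} (s : St k (Fin (l + 1)) (Fin (l + 1))) (s' : St k (Fin l) (Fin l)) :
    Prop where
  iso : Iso s'.tot ((clsF k l).cx s.tot)
  gens : ∃ e : s'.I ≃ (Σ i : s.I, Fin (if s.lab i 0 = 0 then 2 else 1)),
    ∀ j, s'.lab (e.symm j) = clsLab (s.lab j.1) ∧ s'.deg (e.symm j) = s.deg j.1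

/-- the end in `P` of the even one of the strands `i`, `i + 1` (its lower end) -/
def posP {a l i : ℕ} (h : a ≤ i ∧ i + 1 < a + l) : Fin l := ⟨2 * ((i + 1) / 2) - a, by omega⟩

/-- the end in `Q` of the odd one of the strands `i`, `i + 1` (its lower end) -/
def posQ {a l i : ℕ} (h : a ≤ i ∧ i + 1 < a + l) : Fin l := ⟨2 * (i / 2) + 1 - a, by omega⟩

/-- the elementary operations -/
inductive Ins : Type
  | add : Ins
  | crs (i : ℕ) : Ins
  | cls : Ins

/-- a state for a tangle with the open strands `a, …, a + l - 1` -/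
structure SOb (k : Type) [Field k] where
  a : ℕ
  l : ℕ
  s : St k (Fin l) (Fin l)

/-- a complex for a tangle with the open strands `a, …, a + l - 1` -/
structure COb (k : Type) [Field k] where
  a : ℕ
  l : ℕ
  X : Cx k (Fin l) (Fin l)

/-- the number of generators -/
def SOb.card (σ : SOb k) : ℕ := Fintype.card σ.s.I

/-- the dimension of the homology -/
noncomputable def COb.hdim (o : COb k) : ℕ := hd o.X.d.1

/-- `OGlue ι σ σ'`: `σ'` is obtained from `σ` by the elementary operation `ι` -/
inductive OGlue : Ins → SOb k → SOb k → Prop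
  | add {a l : ℕ} {s : St k (Fin l) (Fin l)} {s' : St k (Fin (l + 1)) (Fin (l + 1))} :
      GlueAdd s s' → OGlue Ins.add ⟨a, l, s⟩ ⟨a, l + 1, s'⟩
  | crs {a l i : ℕ} {s s' : St k (Fin l) (Fin l)} (h : a ≤ i ∧ i + 1 < a + l) :
      Glue (posP h) (posQ h) s s' → OGlue (Ins.crs i) ⟨a, l, s⟩ ⟨a, l, s'⟩
  | cls {a l : ℕ} {s : St k (Fin (l + 1)) (Fin (l + 1))} {s' : St k (Fin l) (Fin l)} :
      GlueCls s s' → OGlue Ins.cls ⟨a, l + 1, s⟩ ⟨a + 1, l, s'⟩

/-- `Glues w σ σ' c M`: the elementary operations `w` lead from `σ` to `σ'`; `c` is their cost and `M` the maximal number of generators (including `σ` and `σ'`) -/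
inductive Glues : List Ins → SOb k → SOb k → ℕ → ℕ → Prop
  | nil (σ : SOb k) : Glues [] σ σ 0 σ.card
  | cons {ι : Ins} {w : List Ins} {σ σ' σ'' : SOb k} {c M : ℕ} : OGlue ι σ σ' →
      Glues w σ' σ'' c M →
      Glues (ι :: w) σ σ'' (unitC (Fin σ'.l) * σ'.card ^ 2 + c) (max σ.card M)

/-- the elementary operations for the crossing number `j` of the closure of the braid word `(σ_0 σ_1 ⋯ σ_{n - 2}) ^ m`, which is the crossing between the strands `i` and `i + 1`, `i = j % (n - 1)`: it meets the strand `0` for the first time if `j = 0` and the strand `i + 1` if `j < n - 1`;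
it is the last crossing which meets the strand `i` if `(m - 1) * (n - 1) ≤ j`, and also the strand `n - 1` if `j` is the last crossing -/
def stepOf (n m j : ℕ) : List Ins :=
  (if j = 0 then [Ins.add] else []) ++ ((if j < n - 1 then [Ins.add] else []) ++
    (Ins.crs (j % (n - 1)) :: ((if (m - 1) * (n - 1) ≤ j then [Ins.cls] else []) ++
      (if j + 1 = m * (n - 1) then [Ins.cls] else []))))

/-- `Scan n m j σ c M`: a run of the scanning algorithm for the crossings `0, …, j - 1` of `T(n, m)` with the result `σ`; `c` is the cost and `M` the maximal number of generators (at any time) -/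
inductive Scan (n m : ℕ) : ℕ → SOb k → ℕ → ℕ → Prop
  | zero : Scan n m 0 ⟨0, 0, St.one k (Equiv.refl (Fin 0))⟩ 0 1
  | step {j a l : ℕ} {σ : SOb k} {c M c' M' c'' : ℕ} {s' s'' : St k (Fin l) (Fin l)} :
      Scan n m j σ c M → j < m * (n - 1) → Glues (stepOf n m j) σ ⟨a, l, s'⟩ c' M' →
      Elims s' s'' c'' → Reduced s'' → Scan n m (j + 1) ⟨a, l, s''⟩ (c + c' + c'') (max M M')

/-- gluing a crossing to a complex -/
noncomputable def crsX (a l i : ℕ) (X : Cx k (Fin l) (Fin l)) : Cx k (Fin l) (Fin l) :=
  if h : a ≤ i ∧ i + 1 < a + l then cross (posP h) (posQ h) X else X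

/-- the elementary operations for complexes -/
noncomputable def ev : Ins → COb k → COb k
  | Ins.add, ⟨a, l, X⟩ => ⟨a, l + 1, (addF k l).cx X⟩
  | Ins.crs i, ⟨a, l, X⟩ => ⟨a, l, crsX a l i X⟩
  | Ins.cls, ⟨a, 0, X⟩ => ⟨a, 0, X⟩
  | Ins.cls, ⟨a, l + 1, X⟩ => ⟨a + 1, l, (clsF k l).cx X⟩

/-- several operations -/
noncomputable def evs (w : List Ins) (o : COb k) : COb k := w.foldl (fun o ι => ev ι o) o

/-- the complex of the tangle of the crossings `0, …, j - 1` of `T(n, m)`, without any simplification -/
noncomputable def linkCx (k : Type) [Field k] (n m : ℕ) : ℕ → COb k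
  | 0 => ⟨0, 0, (St.one k (Equiv.refl (Fin 0))).tot⟩
  | j + 1 => evs (stepOf n m j) (linkCx k n m j)

/-- the dimension of the Khovanov homology of `T(n, m)` -/
noncomputable def khDim (k : Type) [Field k] (n m : ℕ) : ℕ := (linkCx k n m (m * (n - 1))).hdim

/-- the dimension of the homology of the top test -/
noncomputable def COb.topN (o : COb k) : ℕ := (topT k (Fin o.l) (Fin o.l)).N o.X

/-- `X` is a complex for the state `s`, up to homotopy -/
inductive Rel : SOb k → COb k → Prop
  | mk {a l : ℕ} {s : St k (Fin l) (Fin l)} {X : Cx k (Fin l) (Fin l)} :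
      Ret s.tot X → Ret X s.tot → Rel ⟨a, l, s⟩ ⟨a, l, X⟩

/-- effect of an operation on `a`, `l` -/
def sh : Ins → ℕ × ℕ → Option (ℕ × ℕ)
  | Ins.add, (a, l) => some (a, l + 1)
  | Ins.crs i, (a, l) => if a ≤ i ∧ i + 1 < a + l then some (a, l) else none
  | Ins.cls, (_, 0) => none
  | Ins.cls, (a, l + 1) => some (a + 1, l)

/-- effect of several operations on `a`, `l` -/
def shs : List Ins → ℕ × ℕ → Option (ℕ × ℕ)
  | [], x => some x
  | ι :: w, x => (sh ι x).bind (shs w)

/-- number of closed strands after the crossings `0, …, j - 1` -/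
def shA (n m j : ℕ) : ℕ := if j = m * (n - 1) then n else j - (m - 1) * (n - 1)

/-- number of open strands after the crossings `0, …, j - 1` -/
def shL (n m j : ℕ) : ℕ := (if j = 0 then 0 else min (j + 1) n) - shA n m j

/-- the first `t` crossings of the middle factors -/
noncomputable def mid (n : ℕ) : ℕ → Cx k (Fin n) (Fin n) → Cx k (Fin n) (Fin n)
  | 0, X => X
  | t + 1, X => crsX 0 n (t % (n - 1)) (mid n t X)

/-- the operations for the first `i` crossings of the last factor (`i ≤ n - 1`) -/
def lastw (n : ℕ) : ℕ → List Ins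
  | 0 => []
  | i + 1 => lastw n i ++ (Ins.crs i :: Ins.cls :: (if i + 1 = n - 1 then [Ins.cls] else []))

end Pool.Agent.Lib.MP_f2e65a_lc
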