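import Pool.Agent.Lib.MP_f2e65a_lc.RetC
import Pool.Agent.Lib.MP_f2e65a_lc.RetA

/-! # XRelI: relabelling back (job XRelI: both theorems)

* `relabel_relabel`: the identity map is an isomorphism `D → (relabel e.symm f.symm).cx ((relabel e f).cx D)` (the underlying space is the same; `e (e.symm p) = p`).
* `N_relabel`: `T = T.pull ..` : `(T.pull (relabel e.symm f.symm)).N ((relabel e f).cx D) = T.N ((relabel e.symm f.symm).cx ((relabel e f).cx D))` by definition, and `N_le` for `Ret.of_iso`. -/

set_option autoImplicit false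
set_option linter.unusedVariables false
set_option linter.unusedSectionVars false

namespace Pool.Agent.Lib.MP_f2e65a_lc

variable {k : Type} [Field k] {P Q P' Q' : Type} [Fintype P] [DecidableEq P] [Fintype Q]
  [DecidableEq Q] [Fintype P'] [DecidableEq P'] [Fintype Q'] [DecidableEq Q']

theorem relabel_relabel (e : P' ≃ P) (f : Q' ≃ Q) (D : Cx k P Q) :
    Iso D ((relabel e.symm f.symm).cx ((relabel e f).cx D)) := by
  refine ⟨⟨LinearMap.id, fun p m => ?_, fun p r m _ => ?_, fun p q m => ?_⟩,
    ⟨LinearMap.id, fun p m => ?_, fun p r m _ => ?_, fun p q m => ?_⟩, rfl, rfl, rfl⟩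
  · change D.A.x p m = D.A.x (e (e.symm p)) m
    rw [e.apply_symm_apply]
  · change D.A.S p r m = D.A.S (e (e.symm p)) (e (e.symm r)) m
    rw [e.apply_symm_apply, e.apply_symm_apply]
  · change D.A.E p q m = D.A.E (e (e.symm p)) (f (f.symm q)) m
    rw [e.apply_symm_apply, f.apply_symm_apply]
  · change D.A.x (e (e.symm p)) m = D.A.x p m
    rw [e.apply_symm_apply]
  · change D.A.S (e (e.symm p)) (e (e.symm r)) m = D.A.S p r m
    rw [e.apply_symm_apply, e.apply_symm_apply]
  · change D.A.E (e (e.symm p)) (f (f.symm q)) m = D.A.E p q m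
    rw [e.apply_symm_apply, f.apply_symm_apply]

theorem N_relabel (e : P' ≃ P) (f : Q' ≃ Q) (D : Cx k P Q) (T : Tst k P Q) :
    T.N D = (T.pull (relabel e.symm f.symm)).N ((relabel e f).cx D) := by
  have h := Ret.of_iso (relabel_relabel e f D)
  exact le_antisymm (N_le T h.1) (N_le T h.2)

end Pool.Agent.Lib.MP_f2e65a_lc
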