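import Pool.Agent.Lib.MP_f2e65a_lc.RetC

/-! # XRelL: relabelling and crossings

`e : P' ≃ P`, `f : Q' ≃ Q`, `A' = (relabel e f).obj A` (the same space, `A'.x p' = A.x (e p')`, etc., all by `rfl`).
`relabel_cross` (job XRelL): an element of `cross (e p') (f q') D` is `(m, w)`, `uc w = (v, μ)`, `μ : P → D.A.M`.  The isomorphism maps `(m, (v, μ))` to `(m, (v, fun τ' => μ (e τ')))`.  First `Ψ : Hom ((relabel e f).obj (uobj A (e p') (f q'))) (uobj ((relabel e f).obj A) p' q')`, `(v, μ) ↦ (v, μ ∘ e)`: the conditions of `Usub` are the same, and it commutes with `ux`, `uS`, `uE`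
 (e.g. `uc_x` and the cases `t' = p'` / `t' ≠ p'` of `ux_p_v`, `ux_p_p`, `ux_p_ne`, `ux_ne_v`, `ux_ne` for both sides, with `e t' = e p' ↔ t' = p'` (`e.injective.eq_iff`); for `uS`: `uS_p`, `uS_p'`, `uS_ne_v`, `uS_ne`, `uS1_v`, `uS1_p`, `uS1_self`, `uS1_ne`, and `e (Equiv.swap t' s' τ') = Equiv.swap (e t') (e s') (e τ')`
 (`Equiv.swap_apply_def` and `split_ifs`, or `Equiv.symm_trans_swap_trans`-like lemmas); for `uE`: the six cases of `uE_*`).  It is bijective (the inverse is `(v, ν) ↦ (v, ν ∘ e.symm)`; or injective and surjective), so `homInv` gives the inverse; it is natural in `A` (`umap` acts on the coordinates) and compatible with `uη` (`uη_v`, `uη_p`, `uη_ne`: `uη A (e p') (f q') m` composed with `e` is `uη A' p' q' m`).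
 Then `F (m, w) = (m, Ψ w)` is an isomorphism of the cones (`cone_d_apply`). -/

set_option autoImplicit false
set_option linter.unusedVariables false
set_option linter.unusedSectionVars false

namespace Pool.Agent.Lib.MP_f2e65a_lc

variable {k : Type} [Field k] {P Q P' Q' : Type} [Fintype P] [DecidableEq P] [Fintype Q]
  [DecidableEq Q] [Fintype P'] [DecidableEq P'] [Fintype Q'] [DecidableEq Q']

/-- relabelling the coordinates -/
private def xrel_psi (A : BN k P Q) (e : P' ≃ P) (f : Q' ≃ Q) (w : UW A) :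
    UW ((relabel e f).obj A) := (w.1, fun τ' => w.2 (e τ'))

private theorem xrel_x (A : BN k P Q) (e : P' ≃ P) (f : Q' ≃ Q) (p' t' : P') (w : UW A) :
    ux ((relabel e f).obj A) p' t' (xrel_psi A e f w) =
      xrel_psi A e f (ux A (e p') (e t') w) := by
  by_cases ht : t' = p'
  · subst ht
    refine Prod.ext ?_ (funext fun τ => ?_)
    · exact (ux_p_v ((relabel e f).obj A) (xrel_psi A e f w)).trans
        (ux_p_v A w (p := e t')).symm
    · by_cases hτ : τ = t'
      · subst hτ
        exact (ux_p_p ((relabel e f).obj A) (xrel_psi A e f w)).trans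
          (ux_p_p A w (p := e τ)).symm
      · exact (ux_p_ne ((relabel e f).obj A) (xrel_psi A e f w) hτ).trans
          (ux_p_ne A w (e.injective.ne hτ)).symm
  · refine Prod.ext ?_ (funext fun τ => ?_)
    · exact (ux_ne_v ((relabel e f).obj A) (xrel_psi A e f w) ht).trans
        (ux_ne_v A w (e.injective.ne ht)).symm
    · exact (ux_ne ((relabel e f).obj A) (xrel_psi A e f w) ht τ).trans
        (ux_ne A w (e.injective.ne ht) (e τ)).symm

private theorem xrel_S1 (A : BN k P Q) (e : P' ≃ P) (f : Q' ≃ Q) {p' r' : P'} (h : r' ≠ p')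
    (w : UW A) : uS1 ((relabel e f).obj A) p' r' (xrel_psi A e f w) =
      xrel_psi A e f (uS1 A (e p') (e r') w) := by
  refine Prod.ext ?_ (funext fun τ => ?_)
  · exact (uS1_v ((relabel e f).obj A) (xrel_psi A e f w)).trans (uS1_v A w (p := e p')).symm
  · by_cases hτ : τ = p'
    · subst hτ
      exact (uS1_p ((relabel e f).obj A) (xrel_psi A e f w)).trans (uS1_p A w).symm
    · by_cases hτ' : τ = r'
      · subst hτ'
        exact (uS1_self ((relabel e f).obj A) (xrel_psi A e f w) h).trans
          (uS1_self A w (e.injective.ne h)).symm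
      · exact (uS1_ne ((relabel e f).obj A) (xrel_psi A e f w) hτ hτ').trans
          (uS1_ne A w (e.injective.ne hτ) (e.injective.ne hτ')).symm

private theorem xrel_S (A : BN k P Q) (e : P' ≃ P) (f : Q' ≃ Q) (p' : P') {t' s' : P'}
    (h : t' ≠ s') (w : UW A) : uS ((relabel e f).obj A) p' t' s' (xrel_psi A e f w) =
      xrel_psi A e f (uS A (e p') (e t') (e s') w) := by
  by_cases ht : t' = p'
  · subst ht
    have h1 := uS_p ((relabel e f).obj A) h.symm
    have h2 := uS_p A (e.injective.ne h.symm)
    rw [h1, h2]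
    exact xrel_S1 A e f h.symm w
  · by_cases hs : s' = p'
    · subst hs
      have h1 := uS_p' ((relabel e f).obj A) h
      have h2 := uS_p' A (e.injective.ne h)
      rw [h1, h2]
      exact xrel_S1 A e f h w
    · refine Prod.ext ?_ (funext fun τ => ?_)
      · exact (uS_ne_v ((relabel e f).obj A) (xrel_psi A e f w) h ht hs).trans
          (uS_ne_v A w (e.injective.ne h) (e.injective.ne ht) (e.injective.ne hs)).symm
      · refine (uS_ne ((relabel e f).obj A) (xrel_psi A e f w) h ht hs τ).trans
          (Eq.trans ?_ (uS_ne A w (e.injective.ne h) (e.injective.ne ht) (e.injective.ne hs)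
            (e τ)).symm)
        change A.S (e t') (e s') (w.2 (e (Equiv.swap t' s' τ))) =
          A.S (e t') (e s') (w.2 (Equiv.swap (e t') (e s') (e τ)))
        rw [e.injective.map_swap]

private theorem xrel_E (A : BN k P Q) (e : P' ≃ P) (f : Q' ≃ Q) (p' : P') (q' : Q') (t' : P')
    (s' : Q') (w : UW A) : uE ((relabel e f).obj A) p' q' t' s' (xrel_psi A e f w) =
      xrel_psi A e f (uE A (e p') (f q') (e t') (f s') w) := by
  by_cases ht : t' = p'
  · subst ht
    by_cases hs : s' = q'
    · subst hs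
      refine Prod.ext ?_ (funext fun τ => ?_)
      · exact (uE_pq_v ((relabel e f).obj A) (xrel_psi A e f w)).trans (uE_pq_v A w).symm
      · by_cases hτ : τ = t'
        · subst hτ
          exact (uE_pq_p ((relabel e f).obj A) (xrel_psi A e f w)).trans (uE_pq_p A w).symm
        · exact (uE_pq_ne ((relabel e f).obj A) (xrel_psi A e f w) hτ).trans
            (uE_pq_ne A w (e.injective.ne hτ)).symm
    · refine Prod.ext ?_ (funext fun τ => ?_)
      · exact (uE_pu_v ((relabel e f).obj A) (xrel_psi A e f w) hs).trans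
          (uE_pu_v A w (f.injective.ne hs)).symm
      · by_cases hτ : τ = t'
        · subst hτ
          exact (uE_pu_p ((relabel e f).obj A) (xrel_psi A e f w) hs).trans
            (uE_pu_p A w (f.injective.ne hs)).symm
        · exact (uE_pu_ne ((relabel e f).obj A) (xrel_psi A e f w) hs hτ).trans
            (uE_pu_ne A w (f.injective.ne hs) (e.injective.ne hτ)).symm
  · by_cases hs : s' = q'
    · subst hs
      refine Prod.ext ?_ (funext fun τ => ?_)
      · exact (uE_tq_v ((relabel e f).obj A) (xrel_psi A e f w) ht).trans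
          (uE_tq_v A w (e.injective.ne ht)).symm
      · by_cases hτ : τ = t'
        · subst hτ
          exact (uE_tq_t ((relabel e f).obj A) (xrel_psi A e f w) ht).trans
            (uE_tq_t A w (e.injective.ne ht)).symm
        · exact (uE_tq_ne ((relabel e f).obj A) (xrel_psi A e f w) ht hτ).trans
            (uE_tq_ne A w (e.injective.ne ht) (e.injective.ne hτ)).symm
    · refine Prod.ext ?_ (funext fun τ => ?_)
      · exact (uE_tu_v ((relabel e f).obj A) (xrel_psi A e f w) ht hs).trans
          (uE_tu_v A w (e.injective.ne ht) (f.injective.ne hs)).symm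
      · by_cases hτ : τ = t'
        · subst hτ
          exact (uE_tu_t ((relabel e f).obj A) (xrel_psi A e f w) ht hs).trans
            (uE_tu_t A w (e.injective.ne ht) (f.injective.ne hs)).symm
        · exact (uE_tu_ne ((relabel e f).obj A) (xrel_psi A e f w) ht hs hτ).trans
            (uE_tu_ne A w (e.injective.ne ht) (f.injective.ne hs) (e.injective.ne hτ)).symm

private theorem xrel_eta (A : BN k P Q) (e : P' ≃ P) (f : Q' ≃ Q) (p' : P') (q' : Q') (m : A.M) :
    uη ((relabel e f).obj A) p' q' m = xrel_psi A e f (uη A (e p') (f q') m) := by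
  refine Prod.ext ?_ (funext fun τ => ?_)
  · exact (uη_v ((relabel e f).obj A) m).trans (uη_v A m).symm
  · by_cases hτ : τ = p'
    · subst hτ
      exact (uη_p ((relabel e f).obj A) m).trans (uη_p A m).symm
    · exact (uη_ne ((relabel e f).obj A) m hτ).trans (uη_ne A m (e.injective.ne hτ)).symm

private theorem xrel_mem (A : BN k P Q) (e : P' ≃ P) (f : Q' ≃ Q) (p' : P') (q' : Q') (w : UW A)
    (h : w ∈ Usub A (e p') (f q')) :
    xrel_psi A e f w ∈ Usub ((relabel e f).obj A) p' q' :=
  ⟨h.1, fun τ => h.2 (e τ)⟩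

/-- the isomorphism `U p q` of a relabelling -/
private def xrel_Psi (A : BN k P Q) (e : P' ≃ P) (f : Q' ≃ Q) (p' : P') (q' : Q') :
    Hom ((relabel e f).obj (uobj A (e p') (f q'))) (uobj ((relabel e f).obj A) p' q') :=
  ⟨{ toFun := fun (w : Usub A (e p') (f q')) =>
        (⟨xrel_psi A e f w.1, xrel_mem A e f p' q' w.1 w.2⟩ : Usub ((relabel e f).obj A) p' q')
     map_add' := fun _ _ => rfl
     map_smul' := fun _ _ => rfl },
    fun t (w : Usub A (e p') (f q')) => Subtype.ext (xrel_x A e f p' t w.1).symm,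
    fun t s (w : Usub A (e p') (f q')) h => Subtype.ext (xrel_S A e f p' h w.1).symm,
    fun t s (w : Usub A (e p') (f q')) => Subtype.ext (xrel_E A e f p' q' t s w.1).symm⟩

private theorem xrel_bij (A : BN k P Q) (e : P' ≃ P) (f : Q' ≃ Q) (p' : P') (q' : Q') :
    Function.Bijective (xrel_Psi A e f p' q').1 := by
  constructor
  · intro (w : Usub A (e p') (f q')) (w' : Usub A (e p') (f q')) h
    have h1 : xrel_psi A e f w.1 = xrel_psi A e f w'.1 := congrArg Subtype.val h
    refine Subtype.ext (Prod.ext ?_ (funext fun τ => ?_))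
    · exact congrArg (fun z : UW ((relabel e f).obj A) => z.1) h1
    · have h2 : w.1.2 (e (e.symm τ)) = w'.1.2 (e (e.symm τ)) :=
        congrFun (congrArg (fun z : UW ((relabel e f).obj A) => z.2) h1) (e.symm τ)
      rw [e.apply_symm_apply] at h2
      exact h2
  · intro (z : Usub ((relabel e f).obj A) p' q')
    have hz : ((z.1.1, fun τ => z.1.2 (e.symm τ)) : UW A) ∈ Usub A (e p') (f q') :=
      ⟨z.2.1, fun τ => z.2.2 (e.symm τ)⟩
    refine ⟨(⟨_, hz⟩ : Usub A (e p') (f q')), ?_⟩
    refine Subtype.ext (Prod.ext rfl (funext fun τ => ?_))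
    change z.1.2 (e.symm (e τ)) = z.1.2 τ
    rw [e.symm_apply_apply]

theorem relabel_cross (e : P' ≃ P) (f : Q' ≃ Q) (p' : P') (q' : Q') (D : Cx k P Q) :
    Iso ((relabel e f).cx (cross (e p') (f q') D)) (cross p' q' ((relabel e f).cx D)) := by
  let F : Hom ((relabel e f).obj (D.A.prod (uobj D.A (e p') (f q'))))
      (((relabel e f).obj D.A).prod (uobj ((relabel e f).obj D.A) p' q')) :=
    ⟨{ toFun := fun (z : D.A.M × (uobj D.A (e p') (f q')).M) =>
          ((z.1, (xrel_Psi D.A e f p' q').1 z.2) :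
            ((relabel e f).obj D.A).M × (uobj ((relabel e f).obj D.A) p' q').M)
       map_add' := fun _ _ => rfl
       map_smul' := fun _ _ => rfl },
      fun t (z : D.A.M × (uobj D.A (e p') (f q')).M) =>
        Prod.ext rfl ((xrel_Psi D.A e f p' q').2.1 t z.2),
      fun t s (z : D.A.M × (uobj D.A (e p') (f q')).M) h =>
        Prod.ext rfl ((xrel_Psi D.A e f p' q').2.2.1 t s z.2 h),
      fun t s (z : D.A.M × (uobj D.A (e p') (f q')).M) =>
        Prod.ext rfl ((xrel_Psi D.A e f p' q').2.2.2 t s z.2)⟩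
  have hbij : Function.Bijective F.1 := by
    have hb := xrel_bij D.A e f p' q'
    constructor
    · intro (z : D.A.M × (uobj D.A (e p') (f q')).M) (z' : D.A.M × (uobj D.A (e p') (f q')).M) h
      exact Prod.ext
        (congrArg (fun z : ((relabel e f).obj D.A).M × (uobj ((relabel e f).obj D.A) p' q').M =>
          z.1) h)
        (hb.1 (congrArg
          (fun z : ((relabel e f).obj D.A).M × (uobj ((relabel e f).obj D.A) p' q').M => z.2) h))
    · intro (z : ((relabel e f).obj D.A).M × (uobj ((relabel e f).obj D.A) p' q').M)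
      obtain ⟨y, hy⟩ := hb.2 z.2
      exact ⟨((z.1, y) : D.A.M × (uobj D.A (e p') (f q')).M), Prod.ext rfl hy⟩
  obtain ⟨G, hG1, hG2⟩ := homInv F hbij
  refine ⟨F, G, hG1, hG2, hom_ext fun (z : D.A.M × (uobj D.A (e p') (f q')).M) => ?_⟩
  refine Prod.ext rfl ?_
  change (xrel_Psi D.A e f p' q').1 (((U k (e p') (f q')).eta D.A).1 z.1 -
      ((U k (e p') (f q')).map D.d).1 z.2) =
    ((U k p' q').eta ((relabel e f).obj D.A)).1 z.1 -
      ((U k p' q').map ((relabel e f).map D.d)).1 ((xrel_Psi D.A e f p' q').1 z.2)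
  have h1 : (xrel_Psi D.A e f p' q').1 (((U k (e p') (f q')).eta D.A).1 z.1) =
      ((U k p' q').eta ((relabel e f).obj D.A)).1 z.1 :=
    Subtype.ext (xrel_eta D.A e f p' q' z.1).symm
  have h2 : (xrel_Psi D.A e f p' q').1 (((U k (e p') (f q')).map D.d).1 z.2) =
      ((U k p' q').map ((relabel e f).map D.d)).1 ((xrel_Psi D.A e f p' q').1 z.2) := rfl
  exact ((xrel_Psi D.A e f p' q').1.map_sub _ _).trans (congrArg₂ (fun a b => a - b) h1 h2)

end Pool.Agent.Lib.MP_f2e65a_lc
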