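import Pool.Agent.Lib.MP_f2e65a_lc.XDefs
import Pool.Agent.Lib.MP_f2e65a_lc.XRelL
import Pool.Agent.Lib.MP_f2e65a_lc.XRelI
import Pool.Agent.Lib.MP_f2e65a_lc.MainA

/-! # XMid: growth for the middle factors

`n = 2 * (l + 1) + ε`.
* `eP`, `eQ` (job XMidA): `eP : Fin (ε + l + 1) ⊕ Fin (l + 1) ≃ Fin n`: `inl i ↦ 2 i`, `inr i ↦ 2 i + 1`; `eQ : Fin (l + 1) ⊕ Fin (ε + l + 1) ≃ Fin n`: `inl i ↦ 2 i + 1`, `inr i ↦ 2 i`.  (Bijective; `Equiv.ofBijective`, or explicit inverse.)
 For `i + 1 < n`: `eP (posn ε l i).1 = posP h`, `eQ (posn ε l i).2 = posQ h` (`h : 0 ≤ i ∧ i + 1 < 0 + n`): values `2 * ((i + 1) / 2)` and `2 * (i / 2) + 1` (`pI_val`, `qI_val`).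
* `mid_rel` (job XMidB): by induction on `t`, `(relabel eP eQ).cx (mid n t Y)` is a retract (in both directions) of `crs ((List.range t).map fun i => posn ε l (i % (n - 1))) ((relabel eP eQ).cx Y)`: `mid n (t + 1) Y = crsX 0 n (t % (n - 1)) (mid n t Y) = cross (posP h) (posQ h) (mid n t Y)`, `relabel_cross`, `Ret.of_iso`, `Ret.cross`, `Ret.trans`;
 `crs (w ++ [a]) D = cross a.1 a.2 (crs w D)` (`List.foldl_append`), `List.range_succ`.
* `mid_growth` (job XMidB): `t = q (n - 1) + j`, `j < n - 1`, `n - 1 = 2 l + ε + 1`: `(List.range t).map (· % (n - 1)) = word ε l q ++ List.range j` (induction on `q`, `List.range_add`; a lemma), `crs_word` and `Sys.growth` (as in `top_bound`, MainA.lean, for the object `(relabel eP eQ).cx Y` and the test `T.pull (relabel eP.symm eQ.symm)`; for each of the finitely many `j`), `N_relabel`, `N_le`. -/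

set_option autoImplicit false
set_option linter.unusedVariables false
set_option linter.unusedSectionVars false

namespace Pool.Agent.Lib.MP_f2e65a_lc

theorem exists_eP (ε l : ℕ) (hε : ε ≤ 1) :
    ∃ (eP : Fin (ε + l + 1) ⊕ Fin (l + 1) ≃ Fin (2 * (l + 1) + ε))
      (eQ : Fin (l + 1) ⊕ Fin (ε + l + 1) ≃ Fin (2 * (l + 1) + ε)),
      ∀ (i : ℕ) (h : 0 ≤ i ∧ i + 1 < 0 + (2 * (l + 1) + ε)),
        eP (posn ε l i).1 = posP h ∧ eQ (posn ε l i).2 = posQ h := by
  have h1 : ∃ g : Fin (ε + l + 1) ⊕ Fin (l + 1) ≃ Fin (2 * (l + 1) + ε),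
      (∀ i : Fin (ε + l + 1), (g (Sum.inl i)).val = 2 * i.val) ∧
        ∀ i : Fin (l + 1), (g (Sum.inr i)).val = 2 * i.val + 1 := by
    have hinj : Function.Injective (Sum.elim
        (fun i : Fin (ε + l + 1) => (⟨2 * i.val, by omega⟩ : Fin (2 * (l + 1) + ε)))
        (fun i : Fin (l + 1) => (⟨2 * i.val + 1, by omega⟩ : Fin (2 * (l + 1) + ε)))) := by
      rintro (a | a) (b | b) hab
      · have h2 : 2 * a.val = 2 * b.val := congrArg Fin.val hab
        exact congrArg Sum.inl (Fin.ext (by omega))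
      · have h2 : 2 * a.val = 2 * b.val + 1 := congrArg Fin.val hab
        omega
      · have h2 : 2 * a.val + 1 = 2 * b.val := congrArg Fin.val hab
        omega
      · have h2 : 2 * a.val + 1 = 2 * b.val + 1 := congrArg Fin.val hab
        exact congrArg Sum.inr (Fin.ext (by omega))
    have hbij := (Fintype.bijective_iff_injective_and_card _).2 ⟨hinj, by
      rw [Fintype.card_sum, Fintype.card_fin, Fintype.card_fin, Fintype.card_fin]
      omega⟩
    exact ⟨Equiv.ofBijective _ hbij, fun i => rfl, fun i => rfl⟩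
  obtain ⟨g, hg1, hg2⟩ := h1
  refine ⟨g, (Equiv.sumComm (Fin (l + 1)) (Fin (ε + l + 1))).trans g, fun i h => ?_⟩
  have hi : i ≤ 2 * l + ε := by omega
  constructor
  · apply Fin.ext
    show (g (Sum.inl (pI ε l i))).val = 2 * ((i + 1) / 2) - 0
    rw [hg1, pI_val hε hi]
    rfl
  · apply Fin.ext
    show (g (Sum.inr (qI l i))).val = 2 * (i / 2) + 1 - 0
    rw [hg2, qI_val hε hi]
    rfl

end Pool.Agent.Lib.MP_f2e65a_lc
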