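import Pool.Agent.Lib.MP_f2e65a_lc.XMid

/-! # XMidB: growth for the middle factors (job XMidB; the proof is in the header of XMid.lean, items `mid_rel`, `mid_growth`) -/

set_option autoImplicit false
set_option linter.unusedVariables false
set_option linter.unusedSectionVars false

namespace Pool.Agent.Lib.MP_f2e65a_lc

private theorem xMidB_rel (k : Type) [Field k] (ε l : ℕ)
    (eP : Fin (ε + l + 1) ⊕ Fin (l + 1) ≃ Fin (2 * (l + 1) + ε))
    (eQ : Fin (l + 1) ⊕ Fin (ε + l + 1) ≃ Fin (2 * (l + 1) + ε))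
    (he : ∀ (i : ℕ) (h : 0 ≤ i ∧ i + 1 < 0 + (2 * (l + 1) + ε)),
      eP (posn ε l i).1 = posP h ∧ eQ (posn ε l i).2 = posQ h)
    (Y : Cx k (Fin (2 * (l + 1) + ε)) (Fin (2 * (l + 1) + ε))) (t : ℕ) :
    Ret ((relabel eP eQ).cx (mid (2 * (l + 1) + ε) t Y))
      (crs (((List.range t).map fun i => i % (2 * l + ε + 1)).map (posn ε l))
        ((relabel eP eQ).cx Y)) := by
  induction t with
  | zero => exact Ret.refl _
  | succ t ih =>
    have hN : 0 < 2 * l + ε + 1 := by omega
    have hlt : t % (2 * l + ε + 1) < 2 * l + ε + 1 := Nat.mod_lt _ hN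
    have h : 0 ≤ t % (2 * l + ε + 1) ∧ t % (2 * l + ε + 1) + 1 < 0 + (2 * (l + 1) + ε) :=
      ⟨Nat.zero_le _, by omega⟩
    have e0 : 2 * (l + 1) + ε - 1 = 2 * l + ε + 1 := by omega
    have e1 : mid (2 * (l + 1) + ε) (t + 1) Y = cross (eP (posn ε l (t % (2 * l + ε + 1))).1)
        (eQ (posn ε l (t % (2 * l + ε + 1))).2) (mid (2 * (l + 1) + ε) t Y) := by
      rw [(he _ h).1, (he _ h).2]
      show crsX 0 (2 * (l + 1) + ε) (t % (2 * (l + 1) + ε - 1)) (mid (2 * (l + 1) + ε) t Y) = _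
      rw [e0]
      unfold crsX
      rw [dif_pos h]
    have e2 : crs (((List.range (t + 1)).map fun i => i % (2 * l + ε + 1)).map (posn ε l))
        ((relabel eP eQ).cx Y) = cross (posn ε l (t % (2 * l + ε + 1))).1
          (posn ε l (t % (2 * l + ε + 1))).2
          (crs (((List.range t).map fun i => i % (2 * l + ε + 1)).map (posn ε l))
            ((relabel eP eQ).cx Y)) := by
      rw [List.range_succ, List.map_append, List.map_append]
      unfold crs
      rw [List.foldl_append]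
      rfl
    rw [e1, e2]
    exact (Ret.of_iso (relabel_cross eP eQ _ _ _)).1.trans (Ret.cross _ _ ih)

private theorem xMidB_word (ε l q : ℕ) :
    (List.range (q * (2 * l + ε + 1))).map (fun i => i % (2 * l + ε + 1)) = word ε l q := by
  induction q with
  | zero =>
    rw [Nat.zero_mul]
    rfl
  | succ q ih =>
    have e1 : word ε l (q + 1) = word ε l q ++ List.range (2 * l + ε + 1) := by
      unfold word
      rw [List.replicate_succ', List.flatten_append]
      congr 1
      exact List.append_nil _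
    have e3 : (q + 1) * (2 * l + ε + 1) = q * (2 * l + ε + 1) + (2 * l + ε + 1) := Nat.succ_mul _ _
    have e4 : List.range (q * (2 * l + ε + 1) + (2 * l + ε + 1)) = _ := List.range_add
    rw [e1, e3, e4, List.map_append, ih, List.map_map]
    congr 1
    have e2 : (List.range (2 * l + ε + 1)).map
        ((fun i => i % (2 * l + ε + 1)) ∘ fun x => q * (2 * l + ε + 1) + x) =
        (List.range (2 * l + ε + 1)).map id := by
      refine List.map_congr_left fun i hi => ?_
      rw [List.mem_range] at hi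
      show (q * (2 * l + ε + 1) + i) % (2 * l + ε + 1) = i
      rw [Nat.mul_comm, Nat.mul_add_mod, Nat.mod_eq_of_lt hi]
    rw [e2, List.map_id]

private theorem xMidB_word' (ε l q j : ℕ) (hj : j ≤ 2 * l + ε + 1) :
    (List.range (q * (2 * l + ε + 1) + j)).map (fun i => i % (2 * l + ε + 1)) =
      word ε l q ++ (List.range j).map (fun i => i % (2 * l + ε + 1)) := by
  rw [List.range_add, List.map_append, xMidB_word, List.map_map]
  congr 1
  refine List.map_congr_left fun i hi => ?_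
  show (q * (2 * l + ε + 1) + i) % (2 * l + ε + 1) = i % (2 * l + ε + 1)
  rw [Nat.mul_comm, Nat.mul_add_mod]

theorem mid_growth' (k : Type) [Field k] (ε l : ℕ) (hε : ε ≤ 1)
    (Y : Cx k (Fin (2 * (l + 1) + ε)) (Fin (2 * (l + 1) + ε)))
    (T : Tst k (Fin (2 * (l + 1) + ε)) (Fin (2 * (l + 1) + ε))) :
    ∃ C : ℕ, ∀ t : ℕ, T.N (mid (2 * (l + 1) + ε) t Y) ≤ C * (t / (2 * l + ε + 1) + 1) ^ (l + 1) := by
  obtain ⟨eP, eQ, he⟩ := exists_eP ε l hε
  have hg : ∀ j : ℕ, ∃ C : ℕ, j ≤ 2 * l + ε + 1 → ∀ q : ℕ,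
      (T.pull (relabel eP.symm eQ.symm)).N
        (crs ((word ε l q ++ List.range j).map (posn ε l)) ((relabel eP eQ).cx Y)) ≤
        C * (q + 1) ^ (l + 1) := by
    intro j
    by_cases hj : j ≤ 2 * l + ε + 1
    · obtain ⟨C, hC⟩ := Sys.growth (bnSys k ε (Fin (l + 1)) (Fin (ε + l + 1)) hε) (l + 1)
        (T.pull (relabel eP.symm eQ.symm)) ((relabel eP eQ).cx Y) j (by
          change j ≤ 2 * (l + 1) + ε - 1
          omega)
      refine ⟨C, fun _ q => ?_⟩
      rw [crs_word k ε l hε q j hj]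
      exact hC q
    · exact ⟨0, fun h => absurd h hj⟩
  choose C hC using hg
  refine ⟨∑ j ∈ Finset.range (2 * l + ε + 2), C j, fun t => ?_⟩
  have hN : 0 < 2 * l + ε + 1 := by omega
  have hlt : t % (2 * l + ε + 1) < 2 * l + ε + 1 := Nat.mod_lt _ hN
  have h1 := N_relabel eP eQ (mid (2 * (l + 1) + ε) t Y) T
  have h2 := N_le (T.pull (relabel eP.symm eQ.symm)) (xMidB_rel k ε l eP eQ he Y t)
  have e1 : (List.range t).map (fun i => i % (2 * l + ε + 1)) =
      word ε l (t / (2 * l + ε + 1)) ++ List.range (t % (2 * l + ε + 1)) := by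
    have e2 : t = t / (2 * l + ε + 1) * (2 * l + ε + 1) + t % (2 * l + ε + 1) := by
      rw [Nat.mul_comm]
      exact (Nat.div_add_mod t (2 * l + ε + 1)).symm
    have e3 := xMidB_word' ε l (t / (2 * l + ε + 1)) (t % (2 * l + ε + 1)) hlt.le
    rw [← e2] at e3
    rw [e3]
    congr 1
    have e4 : (List.range (t % (2 * l + ε + 1))).map (fun i => i % (2 * l + ε + 1)) =
        (List.range (t % (2 * l + ε + 1))).map id := by
      refine List.map_congr_left fun i hi => ?_
      rw [List.mem_range] at hi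
      exact Nat.mod_eq_of_lt (by omega)
    rw [e4, List.map_id]
  rw [e1] at h2
  rw [h1]
  refine h2.trans ((hC _ hlt.le _).trans (Nat.mul_le_mul_right _ ?_))
  exact Finset.single_le_sum (fun i _ => Nat.zero_le (C i)) (Finset.mem_range.2 (by omega))

theorem mid_growth (k : Type) [Field k] (n : ℕ) (hn : 2 ≤ n) (Y : Cx k (Fin n) (Fin n))
    (T : Tst k (Fin n) (Fin n)) :
    ∃ C : ℕ, ∀ t : ℕ, T.N (mid n t Y) ≤ C * (t / (n - 1) + 1) ^ (n / 2) := by
  obtain ⟨ε, l, hε, rfl⟩ : ∃ ε l, ε ≤ 1 ∧ n = 2 * (l + 1) + ε :=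
    ⟨n % 2, n / 2 - 1, by omega, by omega⟩
  obtain ⟨C, hC⟩ := mid_growth' k ε l hε Y T
  refine ⟨C, fun t => (hC t).trans_eq ?_⟩
  have h1 : (2 * (l + 1) + ε) / 2 = l + 1 := by omega
  have h2 : 2 * (l + 1) + ε - 1 = 2 * l + ε + 1 := by omega
  rw [h1, h2]

end Pool.Agent.Lib.MP_f2e65a_lc
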