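import Pool.Agent.Lib.MP_f2e65a_lc.XDefs

/-! # XPull: tests of the complexes obtained by elementary operations (job XPull: all)

* `pull_ev`: `add`: `F X = (addF k l).cx X`, `ts = [T.pull (addF k l)]` (`T.N ((addF k l).cx X) = (T.pull ..).N X` by `rfl`).  `cls`, `l = l' + 1`: the same with `clsF`; `cls`, `l = 0`: `F X = X`, `ts = [T]`.  `crs i`: `F X = crsX a l i X`; if `h : a ≤ i ∧ i + 1 < a + l`: `N_cone_le T (U k (posP h) (posQ h)) X`, `ts = [T, T.pull (U k (posP h) (posQ h)).toFct]`; otherwise `ts = [T]`.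
* `pull_evs`: induction on `w` (`evs (ι :: w) o = evs w (ev ι o)` by `rfl`): `pull_ev` for `ι` and `a l`, the induction hypothesis for `a' l'`; if `T.N (F' X) ≤ ∑ t ∈ ts', t.N X` and for each `t ∈ ts'` there is a list `f t` with `t.N (F X) ≤ ∑ ..` then `ts = ts'.flatMap f` (or prove first: for every list `ts'` of tests there is a list `ts` with `(ts'.map fun t => t.N (F X)).sum ≤ (ts.map fun t => t.N X).sum`, by induction on `ts'`). -/

set_option autoImplicit false
set_option linter.unusedVariables false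
set_option linter.unusedSectionVars false

namespace Pool.Agent.Lib.MP_f2e65a_lc

variable {k : Type} [Field k]

private theorem XPull_one {l l' : ℕ} {F : Cx k (Fin l) (Fin l) → Cx k (Fin l') (Fin l')}
    (T : Tst k (Fin l') (Fin l')) (t : Tst k (Fin l) (Fin l)) (h : ∀ X, T.N (F X) = t.N X) :
    ∃ ts : List (Tst k (Fin l) (Fin l)), ∀ X, T.N (F X) ≤ (ts.map fun t => t.N X).sum := by
  refine ⟨[t], fun X => ?_⟩
  rw [h X]
  simp

private theorem XPull_list {l l' : ℕ} {F : Cx k (Fin l) (Fin l) → Cx k (Fin l') (Fin l')}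
    (h : ∀ T : Tst k (Fin l') (Fin l'), ∃ ts : List (Tst k (Fin l) (Fin l)),
      ∀ X, T.N (F X) ≤ (ts.map fun t => t.N X).sum) :
    ∀ ts' : List (Tst k (Fin l') (Fin l')), ∃ ts : List (Tst k (Fin l) (Fin l)),
      ∀ X, (ts'.map fun t => t.N (F X)).sum ≤ (ts.map fun t => t.N X).sum := by
  intro ts'
  induction ts' with
  | nil => exact ⟨[], fun X => le_refl _⟩
  | cons T ts' ih =>
    obtain ⟨ts, hts⟩ := ih
    obtain ⟨us, hus⟩ := h T
    refine ⟨us ++ ts, fun X => ?_⟩
    rw [List.map_cons, List.sum_cons, List.map_append, List.sum_append]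
    exact add_le_add (hus X) (hts X)

theorem pull_ev (ι : Ins) (a l : ℕ) : ∃ (a' l' : ℕ) (F : Cx k (Fin l) (Fin l) → Cx k (Fin l') (Fin l')),
    (∀ X, ev ι ⟨a, l, X⟩ = ⟨a', l', F X⟩) ∧
    ∀ T : Tst k (Fin l') (Fin l'), ∃ ts : List (Tst k (Fin l) (Fin l)),
      ∀ X, T.N (F X) ≤ (ts.map fun t => t.N X).sum := by
  cases ι with
  | add =>
    refine ⟨a, l + 1, fun X => (addF k l).cx X, fun X => rfl, fun T => ?_⟩
    exact XPull_one T (T.pull (addF k l)) fun X => rfl
  | crs i =>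
    refine ⟨a, l, fun X => crsX a l i X, fun X => rfl, fun T => ?_⟩
    by_cases h : a ≤ i ∧ i + 1 < a + l
    · refine ⟨[T, T.pull (U k (posP h) (posQ h)).toFct], fun X => ?_⟩
      have h1 : crsX a l i X = cone (U k (posP h) (posQ h)) X := by
        unfold crsX
        rw [dif_pos h]
        rfl
      show T.N (crsX a l i X) ≤ _
      rw [h1]
      have h2 := N_cone_le T (U k (posP h) (posQ h)) X
      simpa using h2
    · refine ⟨[T], fun X => ?_⟩
      have h1 : crsX a l i X = X := by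
        unfold crsX
        rw [dif_neg h]
      show T.N (crsX a l i X) ≤ _
      rw [h1]
      simp
  | cls =>
    cases l with
    | zero =>
      refine ⟨a, 0, fun X => X, fun X => rfl, fun T => ?_⟩
      exact XPull_one T T fun X => rfl
    | succ l =>
      refine ⟨a + 1, l, fun X => (clsF k l).cx X, fun X => rfl, fun T => ?_⟩
      exact XPull_one T (T.pull (clsF k l)) fun X => rfl

theorem pull_evs (w : List Ins) : ∀ a l : ℕ,
    ∃ (a' l' : ℕ) (F : Cx k (Fin l) (Fin l) → Cx k (Fin l') (Fin l')),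
    (∀ X, evs w ⟨a, l, X⟩ = ⟨a', l', F X⟩) ∧
    ∀ T : Tst k (Fin l') (Fin l'), ∃ ts : List (Tst k (Fin l) (Fin l)),
      ∀ X, T.N (F X) ≤ (ts.map fun t => t.N X).sum := by
  induction w with
  | nil =>
    intro a l
    exact ⟨a, l, fun X => X, fun X => rfl, fun T => XPull_one T T fun X => rfl⟩
  | cons ι w ih =>
    intro a l
    obtain ⟨a1, l1, F1, h1, g1⟩ := pull_ev (k := k) ι a l
    obtain ⟨a2, l2, F2, h2, g2⟩ := ih a1 l1
    refine ⟨a2, l2, fun X => F2 (F1 X), fun X => ?_, fun T => ?_⟩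
    · show evs w (ev ι ⟨a, l, X⟩) = _
      rw [h1 X, h2 (F1 X)]
    · obtain ⟨ts', hts'⟩ := g2 T
      obtain ⟨ts, hts⟩ := XPull_list g1 ts'
      exact ⟨ts, fun X => (hts' (F1 X)).trans (hts X)⟩

/-- the number of generators after the operations `w` -/
theorem pull_top (w : List Ins) (a l : ℕ) : ∃ ts : List (Tst k (Fin l) (Fin l)),
    ∀ X, (evs w ⟨a, l, X⟩ : COb k).topN ≤ (ts.map fun t => t.N X).sum := by
  obtain ⟨a', l', F, h, g⟩ := pull_evs (k := k) w a l
  obtain ⟨ts, hts⟩ := g (topT k (Fin l') (Fin l'))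
  refine ⟨ts, fun X => ?_⟩
  rw [h X]
  exact hts X

end Pool.Agent.Lib.MP_f2e65a_lc
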