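import Pool.Agent.Lib.MP_f2e65a_lc.XDefs
import Pool.Agent.Lib.MP_f2e65a_lc.RunA

/-! # XRunA: the invariants of a run (job XRunA: all)

* `oglue_rel`: cases on `OGlue` and `Rel`: `Ret.of_iso h.iso` and `Ret.map (addF k l)`, `Ret.cross`, `Ret.map (clsF k l)`; for `crs`: `crsX a l i X = cross (posP h) (posQ h) X` (`dif_pos`).
* `glues_rel`: induction on `Glues` (`evs (ι :: w) o = evs w (ev ι o)`).
* `elims_rel`: `elims_ret`.
* `scan_rel`: induction on `Scan`.
* `oglue_sh`, `glues_sh`: `sh ι (σ.a, σ.l) = some (σ'.a, σ'.l)`, by cases / induction.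
* `scan_reduced`: for `zero` the only entry of `St.one` is `0`, which is not bijective (`gΦ_ne`; see `Main_reduced` in Main.lean); for `step` it is the hypothesis.
* `reduced_card`: a reduced state has at most `topN` generators: `card_le_top`, `hom_bij_or` as in `run_card` (RunA.lean), `N_le`. -/

set_option autoImplicit false
set_option linter.unusedVariables false
set_option linter.unusedSectionVars false

namespace Pool.Agent.Lib.MP_f2e65a_lc

variable {k : Type} [Field k]

private theorem XRunA_elims {a l : ℕ} {s s' : St k (Fin l) (Fin l)} {c : ℕ} {o : COb k}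
    (h : Rel ⟨a, l, s⟩ o) (he : Elims s s' c) : Rel ⟨a, l, s'⟩ o := by
  cases h with
  | mk h1 h2 => exact Rel.mk ((elims_ret he).1.trans h1) (h2.trans (elims_ret he).2)

private theorem XRunA_one : Reduced (St.one k (Equiv.refl (Fin 0))) := by
  intro i j h
  refine gΦ_ne k ((St.one k (Equiv.refl (Fin 0))).lab i) (h.1 ?_)
  change (0 : (Φ k ((St.one k (Equiv.refl (Fin 0))).lab i)).M →ₗ[k]
      (Φ k ((St.one k (Equiv.refl (Fin 0))).lab j)).M) _ =
    (0 : (Φ k ((St.one k (Equiv.refl (Fin 0))).lab i)).M →ₗ[k]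
      (Φ k ((St.one k (Equiv.refl (Fin 0))).lab j)).M) _
  rw [LinearMap.zero_apply, LinearMap.zero_apply]

theorem oglue_rel {ι : Ins} {σ σ' : SOb k} {o : COb k} (h : OGlue ι σ σ') (hr : Rel σ o) :
    Rel σ' (ev ι o) := by
  cases h with
  | add hg =>
    cases hr with
    | mk h1 h2 =>
      have h3 := Ret.of_iso hg.iso
      exact Rel.mk (h3.1.trans (Ret.map (addF k _) h1)) ((Ret.map (addF k _) h2).trans h3.2)
  | @crs a l i s s' h hg =>
    cases hr with
    | @mk _ _ _ X h1 h2 =>
      have h3 := Ret.of_iso hg.iso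
      have e : crsX a l i X = cross (posP h) (posQ h) X := dif_pos h
      change Rel _ ⟨a, l, crsX a l i X⟩
      rw [e]
      exact Rel.mk (h3.1.trans (Ret.cross _ _ h1)) ((Ret.cross _ _ h2).trans h3.2)
  | cls hg =>
    cases hr with
    | mk h1 h2 =>
      have h3 := Ret.of_iso hg.iso
      exact Rel.mk (h3.1.trans (Ret.map (clsF k _) h1)) ((Ret.map (clsF k _) h2).trans h3.2)

theorem glues_rel {w : List Ins} {σ σ' : SOb k} {c M : ℕ} {o : COb k} (h : Glues w σ σ' c M)
    (hr : Rel σ o) : Rel σ' (evs w o) := by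
  induction h generalizing o with
  | nil σ => exact hr
  | cons ho _ ih => exact ih (oglue_rel ho hr)

theorem scan_rel {n m j : ℕ} {σ : SOb k} {c M : ℕ} (h : Scan n m j σ c M) :
    Rel σ (linkCx k n m j) := by
  induction h with
  | zero => exact Rel.mk (Ret.refl _) (Ret.refl _)
  | step _ _ hg he _ ih => exact XRunA_elims (glues_rel hg ih) he

theorem oglue_sh {ι : Ins} {σ σ' : SOb k} (h : OGlue ι σ σ') :
    sh ι (σ.a, σ.l) = some (σ'.a, σ'.l) := by
  cases h with
  | add hg => rfl
  | crs h hg => exact if_pos h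
  | cls hg => rfl

theorem glues_sh {w : List Ins} {σ σ' : SOb k} {c M : ℕ} (h : Glues w σ σ' c M) :
    shs w (σ.a, σ.l) = some (σ'.a, σ'.l) := by
  induction h with
  | nil σ => rfl
  | @cons ι w σ σ' σ'' c M ho _ ih =>
    change (sh ι (σ.a, σ.l)).bind (shs w) = _
    rw [oglue_sh ho]
    exact ih

theorem scan_reduced {n m j : ℕ} {σ : SOb k} {c M : ℕ} (h : Scan n m j σ c M) :
    Reduced σ.s := by
  cases h with
  | zero => exact XRunA_one
  | step _ _ _ _ hr => exact hr

theorem reduced_card {σ : SOb k} {o : COb k} (h : Reduced σ.s) (hr : Rel σ o) :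
    σ.card ≤ o.topN := by
  cases hr with
  | @mk a l s X h1 h2 =>
    change Fintype.card s.I ≤ (topT k (Fin l) (Fin l)).N X
    refine le_trans ?_ (N_le (topT k (Fin l) (Fin l)) h1)
    refine card_le_top k s.lab s.tot.d s.tot.dd ?_
    intro i j m
    have h3 : entry s.tot.d i j = s.d i j :=
      entry_mat (fun i => Φ k (s.lab i)) (fun i => Φ k (s.lab i)) s.d i j
    rw [h3]
    exact (hom_bij_or k (s.d i j)).resolve_left (h i j) m

end Pool.Agent.Lib.MP_f2e65a_lc
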