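import Pool.Agent.Lib.MP_f2e65a_lc.XDefs

/-! # XShape: the operations in the four parts of the program, shapes (job XShape: all)

Elementary arithmetic (`n ≥ 2`, `N = n - 1 ≥ 1`).  `stepOf n m j` is defined by cases; `m * (n - 1) = (m - 1) * (n - 1) + (n - 1)` for `m ≥ 1`.
* `step_first`: for `m ≥ 2`, `j < n - 1` the conditions `(m - 1) * (n - 1) ≤ j` and `j + 1 = m * (n - 1)` are false for `m` and for `2`.
* `step_mid`: `n - 1 ≤ j < (m - 1) * (n - 1)`: `stepOf n m j = [Ins.crs (j % (n - 1))]`.
* `step_last`: `m ≥ 2`, `i < n - 1`, `j = (m - 1) * (n - 1) + i`: `j % (n - 1) = i` (`Nat.mul_add_mod'`-like), `j ≥ n - 1`, `j + 1 = m * (n - 1) ↔ i + 1 = n - 1`.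
* `shs_step`: `shs (stepOf n m j) (shA n m j, shL n m j) = some (shA n m (j + 1), shL n m (j + 1))`: split all the conditions; `a = j - (m - 1) * (n - 1)` (it is `0` before the last factor), `l = b - a` with `b = 0` for `j = 0` and `b = min (j + 1) n` otherwise.
 The crossing `i = j % (n - 1)`: `a ≤ i` (in the last factor `j % (n - 1) = j - (m - 1) * (n - 1) = a`, otherwise `a = 0`), `i ≤ j`, `i ≤ n - 2`, so `i + 1 < b'` for the number `b' = min (j + 2) n` of strands after `add`.  (`shs (u ++ v) x = (shs u x).bind (shs v)` is a useful lemma.)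
* `sh_ev`: by cases.  `ev_shape`: the numbers `a`, `l` of `ev ι o`. -/

set_option autoImplicit false
set_option linter.unusedVariables false
set_option linter.unusedSectionVars false

namespace Pool.Agent.Lib.MP_f2e65a_lc

private theorem XShape_cls {a l : ℕ} (h : 1 ≤ l) : sh Ins.cls (a, l) = some (a + 1, l - 1) := by
  obtain ⟨l', rfl⟩ : ∃ l', l = l' + 1 := ⟨l - 1, by omega⟩
  rfl

private theorem XShape_crs {a l i : ℕ} (h : a ≤ i ∧ i + 1 < a + l) :
    sh (Ins.crs i) (a, l) = some (a, l) := if_pos h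

private theorem XShape_cons {ι : Ins} {w : List Ins} {x y : ℕ × ℕ} (h : sh ι x = some y) :
    shs (ι :: w) x = shs w y := by
  show (sh ι x).bind (shs w) = _
  rw [h]
  rfl

private theorem XShape_mul {n m : ℕ} (hm : 1 ≤ m) : m * (n - 1) = (m - 1) * (n - 1) + (n - 1) := by
  obtain ⟨m', rfl⟩ : ∃ m', m = m' + 1 := ⟨m - 1, by omega⟩
  rw [Nat.add_sub_cancel, Nat.succ_mul]

private theorem XShape_mul2 {n m : ℕ} (hm : 2 ≤ m) : n - 1 ≤ (m - 1) * (n - 1) := by
  have : 1 * (n - 1) ≤ (m - 1) * (n - 1) := Nat.mul_le_mul_right _ (by omega)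
  omega

theorem step_first (n m j : ℕ) (hn : 2 ≤ n) (hm : 2 ≤ m) (hj : j < n - 1) :
    stepOf n m j = stepOf n 2 j := by
  have h1 := XShape_mul2 (n := n) hm
  have h2 := XShape_mul (n := n) (m := m) (by omega)
  have h3 := XShape_mul2 (n := n) (m := 2) le_rfl
  have h4 := XShape_mul (n := n) (m := 2) (by omega)
  unfold stepOf
  rw [if_neg (c := (m - 1) * (n - 1) ≤ j) (by omega), if_neg (c := (2 - 1) * (n - 1) ≤ j) (by omega),
    if_neg (c := j + 1 = m * (n - 1)) (by omega), if_neg (c := j + 1 = 2 * (n - 1)) (by omega)]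

theorem step_mid (n m j : ℕ) (hn : 2 ≤ n) (h1 : n - 1 ≤ j) (h2 : j < (m - 1) * (n - 1)) :
    stepOf n m j = [Ins.crs (j % (n - 1))] := by
  have hm : 1 ≤ m := by
    rcases Nat.eq_zero_or_pos m with h | h
    · subst h
      simp at h2
    · exact h
  have h3 := XShape_mul (n := n) hm
  unfold stepOf
  rw [if_neg (c := j = 0) (by omega), if_neg (c := j < n - 1) (by omega),
    if_neg (c := (m - 1) * (n - 1) ≤ j) (by omega), if_neg (c := j + 1 = m * (n - 1)) (by omega)]
  rfl

theorem step_last (n m i : ℕ) (hn : 2 ≤ n) (hm : 2 ≤ m) (hi : i < n - 1) :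
    stepOf n m ((m - 1) * (n - 1) + i) =
      Ins.crs i :: Ins.cls :: (if i + 1 = n - 1 then [Ins.cls] else []) := by
  have h1 := XShape_mul2 (n := n) hm
  have h2 := XShape_mul (n := n) (m := m) (by omega)
  have h3 : ((m - 1) * (n - 1) + i) % (n - 1) = i := by
    rw [Nat.add_comm, Nat.add_mul_mod_self_right, Nat.mod_eq_of_lt hi]
  unfold stepOf
  rw [h3, if_neg (c := (m - 1) * (n - 1) + i = 0) (by omega),
    if_neg (c := (m - 1) * (n - 1) + i < n - 1) (by omega),
    if_pos (c := (m - 1) * (n - 1) ≤ (m - 1) * (n - 1) + i) (by omega)]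
  by_cases h : i + 1 = n - 1
  · rw [if_pos h, if_pos (by omega)]
    rfl
  · rw [if_neg h, if_neg (by omega)]
    rfl

private theorem XShape_pre (n j a : ℕ) (hn : 2 ≤ n) (w : List Ins) (ha : a ≤ j) (ha2 : j < n - 1 ∨ a ≤ n) :
    shs ((if j = 0 then [Ins.add] else []) ++ ((if j < n - 1 then [Ins.add] else []) ++ w))
      (a, (if j = 0 then 0 else min (j + 1) n) - a) = shs w (a, min (j + 2) n - a) := by
  by_cases h0 : j = 0
  · subst h0
    have ha0 : a = 0 := by omega
    subst ha0
    rw [if_pos rfl, if_pos rfl, if_pos (by omega)]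
    show shs (Ins.add :: Ins.add :: w) (0, 0 - 0) = _
    rw [XShape_cons (y := (0, 0 + 1)) rfl, XShape_cons (y := (0, 0 + 1 + 1)) rfl]
    have : min (0 + 2) n - 0 = 0 + 1 + 1 := by omega
    rw [this]
  · rw [if_neg h0, if_neg h0]
    by_cases h1 : j < n - 1
    · rw [if_pos h1]
      show shs (Ins.add :: w) (a, min (j + 1) n - a) = _
      rw [XShape_cons (y := (a, min (j + 1) n - a + 1)) rfl]
      have : min (j + 2) n - a = min (j + 1) n - a + 1 := by omega
      rw [this]
    · rw [if_neg h1]
      show shs w (a, min (j + 1) n - a) = _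
      have : min (j + 2) n - a = min (j + 1) n - a := by omega
      rw [this]

theorem shs_step (n m j : ℕ) (hn : 2 ≤ n) (hm : 1 ≤ m) (hj : j < m * (n - 1)) :
    shs (stepOf n m j) (shA n m j, shL n m j) = some (shA n m (j + 1), shL n m (j + 1)) := by
  have h2 := XShape_mul (n := n) hm
  have hq : (m - 1) * (n - 1) ≤ j → j % (n - 1) = j - (m - 1) * (n - 1) := by
    intro h
    have e : j = (j - (m - 1) * (n - 1)) + (m - 1) * (n - 1) := by omega
    have hlt : j - (m - 1) * (n - 1) < n - 1 := by omega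
    calc j % (n - 1) = ((j - (m - 1) * (n - 1)) + (m - 1) * (n - 1)) % (n - 1) := by rw [← e]
      _ = j - (m - 1) * (n - 1) := by rw [Nat.add_mul_mod_self_right, Nat.mod_eq_of_lt hlt]
  have hm1 : j % (n - 1) < n - 1 := Nat.mod_lt _ (by omega)
  have hm2 : j % (n - 1) ≤ j := Nat.mod_le _ _
  obtain ⟨q, hqdef⟩ : ∃ q, q = (m - 1) * (n - 1) := ⟨_, rfl⟩
  obtain ⟨i, hidef⟩ : ∃ i, i = j % (n - 1) := ⟨_, rfl⟩
  have hA : shA n m j = j - q := by
    unfold shA
    rw [if_neg (by omega), hqdef]
  have hL : shL n m j = (if j = 0 then 0 else min (j + 1) n) - (j - q) := by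
    unfold shL
    rw [hA]
  have hA' : shA n m (j + 1) = if j + 1 = q + (n - 1) then n else j + 1 - q := by
    unfold shA
    rw [h2, hqdef]
  have hL' : shL n m (j + 1) = min (j + 2) n - shA n m (j + 1) := by
    unfold shL
    rw [if_neg (by omega)]
  rw [hL', hA', hA, hL]
  unfold stepOf
  rw [XShape_pre n j (j - q) hn _ (by omega) (by omega), h2]
  rw [← hidef] at hq hm1 hm2 ⊢
  rw [← hqdef] at hq ⊢
  rw [h2, ← hqdef] at hj
  have hc : j - q ≤ i ∧ i + 1 < (j - q) + (min (j + 2) n - (j - q)) := by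
    by_cases h : q ≤ j
    · have := hq h
      omega
    · omega
  rw [XShape_cons (XShape_crs hc)]
  by_cases h : q ≤ j
  · have hi := hq h
    rw [if_pos h]
    show shs (Ins.cls :: (if j + 1 = q + (n - 1) then [Ins.cls] else [])) _ = _
    rw [XShape_cons (XShape_cls (by omega))]
    by_cases h' : j + 1 = q + (n - 1)
    · rw [if_pos h', if_pos h', XShape_cons (XShape_cls (by omega))]
      show some _ = some _
      congr 2 <;> omega
    · rw [if_neg h', if_neg h']
      show some _ = some _
      congr 2 <;> omega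
  · rw [if_neg h, if_neg (by omega), if_neg (by omega)]
    show some _ = some _
    congr 2 <;> omega

theorem shL_le (n m j : ℕ) : shL n m j ≤ n := by
  unfold shL
  split_ifs <;> omega

theorem stepOf_length (n m j : ℕ) : (stepOf n m j).length ≤ 5 := by
  unfold stepOf
  split_ifs <;> simp

theorem shs_le (w : List Ins) (a l a' l' : ℕ) (h : shs w (a, l) = some (a', l')) :
    l ≤ l' + w.length ∧ l' ≤ l + w.length := by
  induction w generalizing a l with
  | nil =>
    have h1 : some (a, l) = some (a', l') := h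
    simp only [Option.some.injEq, Prod.mk.injEq] at h1
    simp only [List.length_nil]
    omega
  | cons ι w ih =>
    have h1 : (sh ι (a, l)).bind (shs w) = some (a', l') := h
    rw [Option.bind_eq_some_iff] at h1
    obtain ⟨⟨b, t⟩, hb, ht⟩ := h1
    have h2 := ih b t ht
    have h3 : l ≤ t + 1 ∧ t ≤ l + 1 := by
      cases ι with
      | add =>
        have h4 : some (a, l + 1) = some (b, t) := hb
        simp only [Option.some.injEq, Prod.mk.injEq] at h4
        omega
      | crs i =>
        have h4 : (if a ≤ i ∧ i + 1 < a + l then some (a, l) else none) = some (b, t) := hb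
        split_ifs at h4 with h5
        simp only [Option.some.injEq, Prod.mk.injEq] at h4
        omega
      | cls =>
        cases l with
        | zero =>
          have h4 : (none : Option (ℕ × ℕ)) = some (b, t) := hb
          simp at h4
        | succ l =>
          have h4 : some (a + 1, l) = some (b, t) := hb
          simp only [Option.some.injEq, Prod.mk.injEq] at h4
          omega
    simp only [List.length_cons]
    omega

end Pool.Agent.Lib.MP_f2e65a_lc
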