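import Pool.Agent.Lib.MP_f2e65a_lc.XRunA
import Pool.Agent.Lib.MP_f2e65a_lc.XAdd
import Pool.Agent.Lib.MP_f2e65a_lc.XCls
import Pool.Agent.Lib.MP_f2e65a_lc.XShape

/-! # XRunB: existence of runs (job XRunB: all)

* `oglue_exists`: by cases on `ι`: `exists_add`, `exists_glue`, `exists_cls` (`sh` is `some`, so the conditions hold).
* `glues_exists`: induction on `w` (`Option.bind_eq_some_iff`).
* `scan_sh`: `(σ.a, σ.l) = (shA n m j, shL n m j)`: induction on `Scan`, `glues_sh`, `shs_step` (`zero`: `shA n m 0 = 0`, `shL n m 0 = 0`; `0 < m * (n - 1)`).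
* `scan_exists`: induction on `j ≤ m * (n - 1)`: `glues_exists` with `shs_step` and `scan_sh`, `elims_exists`. -/

set_option autoImplicit false
set_option linter.unusedVariables false
set_option linter.unusedSectionVars false

namespace Pool.Agent.Lib.MP_f2e65a_lc

variable {k : Type} [Field k]

theorem oglue_exists (ι : Ins) (σ : SOb k) (a' l' : ℕ) (h : sh ι (σ.a, σ.l) = some (a', l')) :
    ∃ s' : St k (Fin l') (Fin l'), OGlue ι σ ⟨a', l', s'⟩ := by
  obtain ⟨a, l, s⟩ := σ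
  cases ι with
  | add =>
    have h1 : (a, l + 1) = (a', l') := Option.some.inj h
    obtain ⟨rfl, rfl⟩ := Prod.mk.inj h1
    obtain ⟨s', hs'⟩ := exists_add s
    exact ⟨s', OGlue.add hs'⟩
  | crs i =>
    have h0 : (if a ≤ i ∧ i + 1 < a + l then some (a, l) else none) = some (a', l') := h
    by_cases hc : a ≤ i ∧ i + 1 < a + l
    · rw [if_pos hc] at h0
      obtain ⟨rfl, rfl⟩ := Prod.mk.inj (Option.some.inj h0)
      obtain ⟨s', hs'⟩ := exists_glue (posP hc) (posQ hc) s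
      exact ⟨s', OGlue.crs hc hs'⟩
    · rw [if_neg hc] at h0
      exact absurd h0 (Option.some_ne_none _).symm
  | cls =>
    cases l with
    | zero =>
      have h0 : (none : Option (ℕ × ℕ)) = some (a', l') := h
      exact absurd h0 (Option.some_ne_none _).symm
    | succ l =>
      have h1 : (a + 1, l) = (a', l') := Option.some.inj h
      obtain ⟨rfl, rfl⟩ := Prod.mk.inj h1
      obtain ⟨s', hs'⟩ := exists_cls s
      exact ⟨s', OGlue.cls hs'⟩

theorem glues_exists (w : List Ins) : ∀ (σ : SOb k) (a' l' : ℕ),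
    shs w (σ.a, σ.l) = some (a', l') →
    ∃ (s' : St k (Fin l') (Fin l')) (c M : ℕ), Glues w σ ⟨a', l', s'⟩ c M := by
  induction w with
  | nil =>
    intro σ a' l' h
    have h1 : (σ.a, σ.l) = (a', l') := Option.some.inj h
    obtain ⟨a, l, s⟩ := σ
    obtain ⟨rfl, rfl⟩ := Prod.mk.inj h1
    exact ⟨s, 0, _, Glues.nil _⟩
  | cons ι w ih =>
    intro σ a' l' h
    obtain ⟨⟨a₁, l₁⟩, h1, h2⟩ := Option.bind_eq_some_iff.1 h
    obtain ⟨s₁, hs₁⟩ := oglue_exists ι σ a₁ l₁ h1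
    obtain ⟨s', c, M, hw⟩ := ih ⟨a₁, l₁, s₁⟩ a' l' h2
    exact ⟨s', _, _, Glues.cons hs₁ hw⟩

theorem scan_sh {n m j : ℕ} (hn : 2 ≤ n) (hm : 1 ≤ m) {σ : SOb k} {c M : ℕ}
    (h : Scan n m j σ c M) : σ.a = shA n m j ∧ σ.l = shL n m j := by
  induction h with
  | zero =>
    have h1 : 0 < m * (n - 1) := Nat.mul_pos hm (by omega)
    have h2 : shA n m 0 = 0 := by
      unfold shA
      rw [if_neg (by omega), Nat.zero_sub]
    refine ⟨h2.symm, ?_⟩
    unfold shL
    rw [if_pos rfl, Nat.zero_sub]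
  | @step j a l σ c M c' M' c'' s' s'' _ hj hg _ _ ih =>
    have h1 := glues_sh hg
    rw [ih.1, ih.2, shs_step n m j hn hm hj] at h1
    have h2 := Prod.mk.inj (Option.some.inj h1)
    exact ⟨h2.1.symm, h2.2.symm⟩

theorem scan_exists (n m : ℕ) (hn : 2 ≤ n) (hm : 1 ≤ m) (j : ℕ) (hj : j ≤ m * (n - 1)) :
    ∃ (σ : SOb k) (c M : ℕ), Scan n m j σ c M := by
  induction j with
  | zero => exact ⟨_, _, _, Scan.zero⟩
  | succ j ih =>
    obtain ⟨σ, c, M, h⟩ := ih (by omega)
    obtain ⟨h1, h2⟩ := scan_sh hn hm h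
    obtain ⟨s', c', M', hg⟩ := glues_exists (stepOf n m j) σ (shA n m (j + 1)) (shL n m (j + 1))
      (by rw [h1, h2]; exact shs_step n m j hn hm (by omega))
    obtain ⟨s'', c'', he, hr⟩ := elims_exists s'
    exact ⟨_, _, _, Scan.step h (by omega) hg he hr⟩

end Pool.Agent.Lib.MP_f2e65a_lc
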