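import Pool.Agent.Lib.MP_f2e65a_lc.XRunB

/-! # XRunC: size and cost of a run (job XRunC: all)

Let `u = 16 * (2 ^ (n + 5)) ^ 3` (so `unitC (Fin l) ≤ u` for `l ≤ n + 5`, `Fintype.card_fin`, monotone), `a ≥ 1` with `(linkCx k n m j').topN ≤ a` for all `j' ≤ j`.
* `glues_size`: for `Glues w σ σ' c M` with `σ.l + w.length ≤ L` and `σ.card ≤ x`: `M ≤ 3 ^ w.length * x`, `σ'.card ≤ 3 ^ w.length * x`, `c ≤ w.length * (16 * (2 ^ L) ^ 3 * (3 ^ w.length * x) ^ 2)`: induction on `w` (`Glues`), for all `x`; each operation multiplies the number of generators at most by `3` (`add_card`, `glue_card`, `cls_card`) and changes `l` by at most `1`.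
* `scan_size`: induction on `Scan`: `σ.card ≤ a` by `reduced_card`, `scan_reduced`, `scan_rel`.  A step: `w = stepOf n m j`, `w.length ≤ 5`, `σ.l ≤ n` (`scan_sh`, `shL_le`): `M' ≤ 243 a`, `card s' ≤ 243 a`, `c' ≤ 5 u (243 a) ^ 2`, `c'' ≤ unitC (Fin l) * (243 a) ^ 3 ≤ u (243 a) ^ 3` (`elims_cost`; `l ≤ n + 5`); so `c' + c'' ≤ 6 u 243 ^ 3 a ^ 3`.
 Total: `M ≤ 243 a`, `c ≤ 6 * 243 ^ 3 * u * a ^ 3 * j`.  (`zero`: `M = 1 ≤ 243 a` as `a ≥ 1`.)  In the induction the hypothesis on `topN` is for all `j' ≤ j`. -/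

set_option autoImplicit false
set_option linter.unusedVariables false
set_option linter.unusedSectionVars false

namespace Pool.Agent.Lib.MP_f2e65a_lc

variable {k : Type} [Field k]

private theorem xrunC_op {ι : Ins} {σ σ' : SOb k} (h : OGlue ι σ σ') :
    σ'.l ≤ σ.l + 1 ∧ σ'.card ≤ 3 * σ.card := by
  cases h with
  | @add a l s s' h =>
    refine ⟨le_refl _, ?_⟩
    have h1 := add_card h
    change Fintype.card s'.I ≤ 3 * Fintype.card s.I
    omega
  | @crs a l i s s' h h' =>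
    refine ⟨Nat.le_succ _, ?_⟩
    exact glue_card h'
  | @cls a l s s' h =>
    refine ⟨?_, ?_⟩
    · change l ≤ l + 1 + 1
      omega
    · have h1 := cls_card h
      change Fintype.card s'.I ≤ 3 * Fintype.card s.I
      omega

private theorem xrunC_unit {l L : ℕ} (h : l ≤ L) : unitC (Fin l) ≤ 16 * (2 ^ L) ^ 3 := by
  unfold unitC
  rw [Fintype.card_fin]
  exact Nat.mul_le_mul_left _ (Nat.pow_le_pow_left (Nat.pow_le_pow_right (by norm_num) h) 3)

theorem glues_size {w : List Ins} {σ σ' : SOb k} {c M : ℕ} (h : Glues w σ σ' c M) :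
    ∀ L x : ℕ, σ.l + w.length ≤ L → σ.card ≤ x → M ≤ 3 ^ w.length * x ∧
      σ'.card ≤ 3 ^ w.length * x ∧ σ'.l ≤ L ∧
      c ≤ w.length * (16 * (2 ^ L) ^ 3 * (3 ^ w.length * x) ^ 2) := by
  induction h with
  | nil σ =>
    intro L x h1 h2
    rw [List.length_nil, pow_zero, one_mul, zero_mul]
    rw [List.length_nil] at h1
    exact ⟨h2, h2, h1, le_refl _⟩
  | @cons ι w σ σ' σ'' c M h1 h2 ih =>
    intro L x hL hx
    obtain ⟨h3, h4⟩ := xrunC_op h1
    rw [List.length_cons] at hL ⊢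
    obtain ⟨i1, i2, i3, i4⟩ := ih L (3 * x) (by omega) (by omega)
    have e1 : 3 ^ w.length * (3 * x) = 3 ^ (w.length + 1) * x := by ring
    rw [e1] at i1 i2 i4
    have e2 : 1 * x ≤ 3 ^ (w.length + 1) * x :=
      Nat.mul_le_mul_right x (Nat.one_le_pow _ _ (by norm_num))
    have e3 : σ'.card ≤ 3 ^ (w.length + 1) * x := by
      have e4 : 3 * x ≤ 3 ^ (w.length + 1) * x := by
        refine Nat.mul_le_mul_right x ?_
        calc 3 = 3 ^ 1 := (pow_one 3).symm
          _ ≤ 3 ^ (w.length + 1) := Nat.pow_le_pow_right (by norm_num) (by omega)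
      omega
    refine ⟨?_, i2, i3, ?_⟩
    · refine max_le ?_ i1
      omega
    · have e5 : unitC (Fin σ'.l) ≤ 16 * (2 ^ L) ^ 3 := xrunC_unit (by omega)
      have e6 : unitC (Fin σ'.l) * σ'.card ^ 2 ≤
          16 * (2 ^ L) ^ 3 * (3 ^ (w.length + 1) * x) ^ 2 :=
        Nat.mul_le_mul e5 (Nat.pow_le_pow_left e3 2)
      have e7 : (w.length + 1) * (16 * (2 ^ L) ^ 3 * (3 ^ (w.length + 1) * x) ^ 2) =
          w.length * (16 * (2 ^ L) ^ 3 * (3 ^ (w.length + 1) * x) ^ 2) +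
            16 * (2 ^ L) ^ 3 * (3 ^ (w.length + 1) * x) ^ 2 := by ring
      rw [e7]
      omega

theorem scan_size {n m j : ℕ} (hn : 2 ≤ n) (hm : 1 ≤ m) {σ : SOb k} {c M : ℕ}
    (h : Scan n m j σ c M) (a : ℕ) (ha : 1 ≤ a) (hj : j ≤ m * (n - 1))
    (hN : ∀ j' ≤ j, (linkCx k n m j').topN ≤ a) :
    M ≤ 243 * a ∧ c ≤ 6 * 243 ^ 3 * (16 * (2 ^ (n + 5)) ^ 3) * a ^ 3 * j := by
  induction h with
  | zero =>
    exact ⟨by omega, Nat.zero_le _⟩
  | @step j b l σ c M c' M' c'' s' s'' hs hlt hg he hr ih =>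
    obtain ⟨i1, i2⟩ := ih hlt.le fun j' hj' => hN j' (by omega)
    have h1 : σ.card ≤ a :=
      (reduced_card (scan_reduced hs) (scan_rel hs)).trans (hN j (by omega))
    have h2 : σ.l ≤ n := by
      rw [(scan_sh hn hm hs).2]
      exact shL_le n m j
    have hlen := stepOf_length n m j
    obtain ⟨g1, g2, g3, g4⟩ := glues_size hg (n + 5) a (by omega) h1
    have h3 : 3 ^ (stepOf n m j).length * a ≤ 243 * a := by
      refine Nat.mul_le_mul_right a ?_
      calc 3 ^ (stepOf n m j).length ≤ 3 ^ 5 := Nat.pow_le_pow_right (by norm_num) hlen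
        _ = 243 := by norm_num
    have h4 : Fintype.card s'.I ≤ 243 * a := g2.trans h3
    have h5 : l ≤ n + 5 := g3
    have h6 := (elims_cost he).1
    refine ⟨max_le i1 (g1.trans h3), ?_⟩
    generalize hu : 16 * (2 ^ (n + 5)) ^ 3 = u at *
    have h7 : unitC (Fin l) ≤ u := by
      rw [← hu]
      exact xrunC_unit h5
    have h8 : c'' ≤ u * (243 * a) ^ 3 :=
      h6.trans (Nat.mul_le_mul h7 (Nat.pow_le_pow_left h4 3))
    have h9 : c' ≤ 5 * (u * (243 * a) ^ 2) := by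
      refine g4.trans ?_
      exact Nat.mul_le_mul hlen (Nat.mul_le_mul_left u (Nat.pow_le_pow_left h3 2))
    have h10 : u * (243 * a) ^ 2 ≤ u * (243 * a) ^ 3 :=
      Nat.mul_le_mul_left u (Nat.pow_le_pow_right (by omega) (by norm_num))
    have h11 : 6 * 243 ^ 3 * u * a ^ 3 * (j + 1) =
        6 * 243 ^ 3 * u * a ^ 3 * j + 6 * (u * (243 * a) ^ 3) := by ring
    rw [h11]
    omega

end Pool.Agent.Lib.MP_f2e65a_lc
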