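import Pool.Agent.Lib.MP_f2e65a_lc.XMidB
import Pool.Agent.Lib.MP_f2e65a_lc.XPull
import Pool.Agent.Lib.MP_f2e65a_lc.XShape

/-! # XTop: bound for the number of generators

`N = n - 1 ≥ 1`, `linkCx k n m (j + 1) = evs (stepOf n m j) (linkCx k n m j)`.
* `link_first` (job XTopA): `m ≥ 2`, `j ≤ n - 1`: `linkCx k n m j = linkCx k n 2 j` (induction on `j`, `step_first`).
* `link_Y` (job XTopA): `linkCx k n 2 (n - 1) = ⟨0, n, Y⟩` for some `Y`: for `1 ≤ j ≤ n - 1` `linkCx k n 2 j = ⟨0, j + 1, X⟩` for some `X` by induction (`stepOf n 2 j = [add, crs j]` for `1 ≤ j < n - 1` (`j % (n - 1) = j`), `stepOf n 2 0 = [add, add, crs 0]`; `ev` computes by `rfl`).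
* `link_mid` (job XTopA): `t ≤ (m - 2) * (n - 1)`, `m ≥ 2`: `linkCx k n m (n - 1 + t) = ⟨0, n, mid n t Y⟩` (induction on `t`: `j = n - 1 + t < (m - 1) * (n - 1)`, `step_mid`, `j % (n - 1) = t % (n - 1)`, `ev (crs i) ⟨0, n, X⟩ = ⟨0, n, crsX 0 n i X⟩`).
* `link_last` (job XTopA): `i ≤ n - 1`, `m ≥ 2`: `linkCx k n m ((m - 1) * (n - 1) + i) = evs (lastw n i) ⟨0, n, mid n ((m - 2) * (n - 1)) Y⟩` (induction on `i`, `step_last`, `evs (u ++ v) o = evs v (evs u o)`, `List.foldl_append`).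
* `top_bound2` (job XTopB): for `m = 1`: the maximum of `(linkCx k n 1 j).topN`, `j ≤ n - 1`.  For `m ≥ 2`: `j ≤ n - 1`: the maximum of `(linkCx k n 2 j).topN`; `j = n - 1 + t`, `t ≤ (m - 2) * (n - 1)`: `mid_growth` for `topT` (`t / (n - 1) + 1 ≤ m - 1 ≤ m`); `j = (m - 1) * (n - 1) + i`, `i ≤ n - 1`:
 `pull_top (lastw n i) 0 n` gives tests `ts`, and `mid_growth` for each `t ∈ ts` (a list: sum of the constants, by induction on the list), `t = (m - 2) * (n - 1)`; for each of the finitely many `i`.  Take the sum of all the constants (`m ^ (n / 2) ≥ 1`). -/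

set_option autoImplicit false
set_option linter.unusedVariables false
set_option linter.unusedSectionVars false

namespace Pool.Agent.Lib.MP_f2e65a_lc

theorem link_first (k : Type) [Field k] (n m j : ℕ) (hn : 2 ≤ n) (hm : 2 ≤ m) (hj : j ≤ n - 1) :
    linkCx k n m j = linkCx k n 2 j := by
  induction j with
  | zero => rfl
  | succ j ih =>
    have h1 := ih (by omega)
    change evs (stepOf n m j) (linkCx k n m j) = evs (stepOf n 2 j) (linkCx k n 2 j)
    rw [h1, step_first n m j hn hm (by omega)]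

private theorem xTop_step_zero (N : ℕ) (hN : 1 ≤ N) :
    stepOf (N + 1) 2 0 = [Ins.add, Ins.add, Ins.crs 0] := by
  unfold stepOf
  rw [if_pos rfl, if_pos (by omega), if_neg (by omega), if_neg (by omega), Nat.zero_mod]
  rfl

private theorem xTop_step_succ (N j : ℕ) (hj : j + 1 < N) :
    stepOf (N + 1) 2 (j + 1) = [Ins.add, Ins.crs ((j + 1) % (N + 1 - 1))] := by
  unfold stepOf
  rw [if_neg (by omega), if_pos (by omega), if_neg (by omega), if_neg (by omega)]
  rfl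

private theorem xTop_link_succ (k : Type) [Field k] (N j : ℕ) (hj : j + 1 ≤ N) :
    ∃ X : Cx k (Fin (j + 2)) (Fin (j + 2)), linkCx k (N + 1) 2 (j + 1) = ⟨0, j + 2, X⟩ := by
  induction j with
  | zero =>
    refine ⟨crsX 0 2 0 ((addF k 1).cx ((addF k 0).cx (St.one k (Equiv.refl (Fin 0))).tot)),
      (?_ : evs (stepOf (N + 1) 2 0) (linkCx k (N + 1) 2 0) = _)⟩
    rw [xTop_step_zero N hj]
    rfl
  | succ j ih =>
    obtain ⟨X, hX⟩ := ih (by omega)
    refine ⟨crsX 0 (j + 3) ((j + 1) % (N + 1 - 1)) ((addF k (j + 2)).cx X),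
      (?_ : evs (stepOf (N + 1) 2 (j + 1)) (linkCx k (N + 1) 2 (j + 1)) = _)⟩
    rw [xTop_step_succ N j (by omega), hX]
    rfl

theorem link_Y (k : Type) [Field k] (n : ℕ) (hn : 2 ≤ n) :
    ∃ Y : Cx k (Fin n) (Fin n), linkCx k n 2 (n - 1) = ⟨0, n, Y⟩ := by
  obtain ⟨N, rfl⟩ : ∃ N, n = N + 2 := ⟨n - 2, by omega⟩
  exact xTop_link_succ k (N + 1) N le_rfl

theorem link_mid (k : Type) [Field k] (n m t : ℕ) (hn : 2 ≤ n) (hm : 2 ≤ m)
    (Y : Cx k (Fin n) (Fin n)) (hY : linkCx k n 2 (n - 1) = ⟨0, n, Y⟩)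
    (ht : t ≤ (m - 2) * (n - 1)) :
    linkCx k n m (n - 1 + t) = ⟨0, n, mid n t Y⟩ := by
  induction t with
  | zero =>
    rw [Nat.add_zero, link_first k n m (n - 1) hn hm le_rfl, hY]
    rfl
  | succ t ih =>
    have h1 := ih (by omega)
    have h2 : (m - 1) * (n - 1) = (m - 2) * (n - 1) + (n - 1) := by
      obtain ⟨m', rfl⟩ : ∃ m', m = m' + 2 := ⟨m - 2, by omega⟩
      have e1 : m' + 2 - 1 = m' + 1 := by omega
      have e2 : m' + 2 - 2 = m' := by omega
      rw [e1, e2, Nat.add_mul, Nat.one_mul]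
    change evs (stepOf n m (n - 1 + t)) (linkCx k n m (n - 1 + t)) = _
    rw [h1, step_mid n m (n - 1 + t) hn (by omega) (by omega), Nat.add_mod_left]
    rfl

theorem link_last (k : Type) [Field k] (n m i : ℕ) (hn : 2 ≤ n) (hm : 2 ≤ m)
    (Y : Cx k (Fin n) (Fin n)) (hY : linkCx k n 2 (n - 1) = ⟨0, n, Y⟩) (hi : i ≤ n - 1) :
    linkCx k n m ((m - 1) * (n - 1) + i) =
      evs (lastw n i) ⟨0, n, mid n ((m - 2) * (n - 1)) Y⟩ := by
  induction i with
  | zero =>
    have h2 : (m - 1) * (n - 1) + 0 = n - 1 + (m - 2) * (n - 1) := by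
      obtain ⟨m', rfl⟩ : ∃ m', m = m' + 2 := ⟨m - 2, by omega⟩
      have e1 : m' + 2 - 1 = m' + 1 := by omega
      have e2 : m' + 2 - 2 = m' := by omega
      rw [e1, e2, Nat.add_mul, Nat.one_mul, Nat.add_zero, Nat.add_comm]
    rw [h2, link_mid k n m ((m - 2) * (n - 1)) hn hm Y hY le_rfl]
    rfl
  | succ i ih =>
    have h1 := ih (by omega)
    change evs (stepOf n m ((m - 1) * (n - 1) + i)) (linkCx k n m ((m - 1) * (n - 1) + i)) = _
    rw [h1, step_last n m i hn hm (by omega)]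
    exact (List.foldl_append (f := fun (o : COb k) ι => ev ι o)).symm

end Pool.Agent.Lib.MP_f2e65a_lc
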